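import Mathlib

namespace Pool.Agent.H4.GIdx

abbrev C (X : Type) := List X →₀ ℤ

variable {X : Type}

noncomputable def s (l : List X) : C X := Finsupp.single l 1

noncomputable def lin {M : Type} [AddCommGroup M] (G : List X → M) : C X →ₗ[ℤ] M :=
  Finsupp.linearCombination ℤ G

@[simp] lemma lin_s {M : Type} [AddCommGroup M] (G : List X → M) (l : List X) :
    lin G (s l) = G l := by simp [lin, s]

lemma ext_s {M : Type} [AddCommGroup M] {S T : C X →ₗ[ℤ] M}
    (h : ∀ l, S (s l) = T (s l)) (c : C X) : S c = T c := by
  have : S = T := Finsupp.lhom_ext' fun l => LinearMap.ext_ring (h l)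
  rw [this]

noncomputable def cons (x : X) : C X →ₗ[ℤ] C X := lin fun l => s (x :: l)
noncomputable def mp (f : X → X) : C X →ₗ[ℤ] C X := lin fun l => s (l.map f)

@[simp] lemma cons_s (x : X) (l : List X) : cons x (s l) = s (x :: l) := lin_s _ _
@[simp] lemma mp_s (f : X → X) (l : List X) : mp f (s l) = s (l.map f) := lin_s _ _

noncomputable def bd : List X → C X
  | [] => 0
  | x :: l => s l - cons x (bd l)

noncomputable def D : C X →ₗ[ℤ] C X := lin bd

@[simp] lemma D_s (l : List X) : D (s l) = bd l := lin_s _ _

lemma D_cons (x : X) (c : C X) : D (cons x c) = c - cons x (D c) :=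
  ext_s (S := D.comp (cons x)) (T := LinearMap.id - (cons x).comp D) (fun l => by simp [bd]) c

lemma mp_cons (f : X → X) (x : X) (c : C X) : mp f (cons x c) = cons (f x) (mp f c) :=
  ext_s (S := (mp f).comp (cons x)) (T := (cons (f x)).comp (mp f)) (fun l => by simp) c

lemma mp_mp (f g : X → X) (c : C X) : mp f (mp g c) = mp (f ∘ g) c :=
  ext_s (S := (mp f).comp (mp g)) (T := mp (f ∘ g)) (fun l => by simp) c

lemma mp_id (c : C X) : mp id c = c :=
  ext_s (S := mp id) (T := LinearMap.id) (fun l => by simp) c

lemma mp_pow (f : X → X) (j : ℕ) (c : C X) : ((mp f) ^ j) c = mp (f^[j]) c := by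
  induction j with
  | zero => simp [mp_id]
  | succ j ih => rw [pow_succ', Module.End.mul_apply, ih, mp_mp, Function.iterate_succ']

lemma bd_map (f : X → X) (l : List X) : bd (l.map f) = mp f (bd l) := by
  induction l with
  | nil => simp [bd]
  | cons x l ih => rw [List.map_cons, bd, bd, map_sub, mp_cons, ih, mp_s]

lemma D_mp (f : X → X) (c : C X) : D (mp f c) = mp f (D c) :=
  ext_s (S := D.comp (mp f)) (T := (mp f).comp D) (fun l => by simp [bd_map]) c

noncomputable def pr (f g : X → X) : List X → C X
  | [] => 0
  | x :: l => s (f x :: g x :: l.map g) - cons (f x) (pr f g l)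

noncomputable def P (f g : X → X) : C X →ₗ[ℤ] C X := lin (pr f g)

lemma P_cons (f g : X → X) (x : X) (c : C X) :
    P f g (cons x c) = cons (f x) (cons (g x) (mp g c)) - cons (f x) (P f g c) :=
  ext_s (S := (P f g).comp (cons x))
    (T := (cons (f x)).comp ((cons (g x)).comp (mp g)) - (cons (f x)).comp (P f g))
    (fun l => by simp [P, pr]) c

lemma prism (f g : X → X) (l : List X) :
    D (pr f g l) = s (l.map g) - s (l.map f) - P f g (bd l) := by
  induction l with
  | nil => simp [pr, bd]
  | cons x l ih =>
    rw [pr, map_sub, D_cons, ih, D_s, bd, bd, bd, bd_map, map_sub (P f g), P_cons]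
    simp only [map_sub, cons_s, P, lin_s, List.map_cons]
    abel

lemma prism' (f g : X → X) (c : C X) : D (P f g c) = mp g c - mp f c - P f g (D c) :=
  ext_s (S := D.comp (P f g)) (T := mp g - mp f - (P f g).comp D)
    (fun l => by simpa [P] using prism f g l) c

/-- chains supported on tuples with a property -/
def Sp (Q : List X → Prop) : Submodule ℤ (C X) := Finsupp.supported ℤ ℤ {l | Q l}

lemma s_mem {Q : List X → Prop} {l : List X} (h : Q l) : s l ∈ Sp Q :=
  Finsupp.single_mem_supported ℤ 1 h

lemma sp_mono {Q R : List X → Prop} (h : ∀ l, Q l → R l) {c : C X} (hc : c ∈ Sp Q) : c ∈ Sp R :=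
  Finsupp.supported_mono (fun l hl => h l hl) hc

lemma lin_mem {M : Type} [AddCommGroup M] {Q : List X → Prop} (T : C X →ₗ[ℤ] M)
    (N : Submodule ℤ M) (h : ∀ l, Q l → T (s l) ∈ N) {c : C X} (hc : c ∈ Sp Q) : T c ∈ N := by
  rw [Sp, Finsupp.supported_eq_span_single] at hc
  have : Submodule.span ℤ ((fun i => Finsupp.single i (1 : ℤ)) '' {l | Q l}) ≤ N.comap T :=
    Submodule.span_le.2 (by rintro _ ⟨l, hl, rfl⟩; exact h l hl)
  exact this hc

lemma lin_eq {M : Type} [AddCommGroup M] {Q : List X → Prop} (S T : C X →ₗ[ℤ] M)
    (h : ∀ l, Q l → S (s l) = T (s l)) {c : C X} (hc : c ∈ Sp Q) : S c = T c := by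
  have := lin_mem (S - T) ⊥ (fun l hl => by simp [h l hl]) hc
  simpa [sub_eq_zero] using this

lemma pr_mem (f g : X → X) (l : List X) :
    pr f g l ∈ Sp fun m => m.length = l.length + 1 ∧ ∀ z ∈ m, ∃ x ∈ l, z = f x ∨ z = g x := by
  induction l with
  | nil => exact Submodule.zero_mem _
  | cons x l ih =>
    refine Submodule.sub_mem _ (s_mem ⟨by simp, fun z hz => ?_⟩) (lin_mem _ _ (fun m hm => ?_) ih)
    · simp only [List.mem_cons, List.mem_map] at hz
      rcases hz with rfl | rfl | ⟨y, hy, rfl⟩
      · exact ⟨x, by simp, Or.inl rfl⟩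
      · exact ⟨x, by simp, Or.inr rfl⟩
      · exact ⟨y, by simp [hy], Or.inr rfl⟩
    · rw [cons_s]
      refine s_mem ⟨by simp [hm.1], fun z hz => ?_⟩
      rcases List.mem_cons.1 hz with rfl | hz
      · exact ⟨x, by simp, Or.inl rfl⟩
      · obtain ⟨y, hy, h⟩ := hm.2 z hz
        exact ⟨y, by simp [hy], h⟩

lemma bd_mem (l : List X) : bd l ∈ Sp fun m => ∀ z ∈ m, z ∈ l := by
  induction l with
  | nil => exact Submodule.zero_mem _
  | cons x l ih =>
    refine Submodule.sub_mem _ (s_mem fun z hz => List.mem_cons_of_mem _ hz)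
      (lin_mem _ _ (fun m hm => ?_) ih)
    rw [cons_s]
    refine s_mem fun z hz => ?_
    rcases List.mem_cons.1 hz with rfl | hz
    · simp
    · exact List.mem_cons_of_mem _ (hm z hz)

/-- the two operators of the periodic resolution of a cyclic group -/
noncomputable def A (q : ℕ) (f : X → X) (k : ℕ) : Module.End ℤ (C X) :=
  if k % 2 = 1 then mp f - 1 else ∑ j ∈ Finset.range q, (mp f) ^ j

lemma A_add_two (q : ℕ) (f : X → X) (k : ℕ) : A q f (k + 2) = A q f k := by
  simp [A]

lemma pow_one' {q : ℕ} {f : X → X} (hf : f^[q] = id) : (mp f : Module.End ℤ (C X)) ^ q = 1 := by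
  apply LinearMap.ext
  intro c
  rw [mp_pow, hf, mp_id]; rfl

lemma A_A {q : ℕ} {f : X → X} (hf : f^[q] = id) (k : ℕ) (c : C X) :
    A q f (k + 1) (A q f k c) = 0 := by
  have h := pow_one' hf
  have : A q f (k + 1) * A q f k = 0 := by
    unfold A
    split_ifs with h1 h2 h2
    · omega
    · rw [mul_geom_sum, h, sub_self]
    · rw [geom_sum_mul, h, sub_self]
    · omega
  rw [← Module.End.mul_apply, this]; rfl

lemma comm_A {Y : Type} (q : ℕ) (f : X → X) (f' : Y → Y) (T : C X →ₗ[ℤ] C Y) (Q : List X → Prop)
    (hQ : ∀ l, Q l → Q (l.map f)) (h : ∀ l, Q l → T (s (l.map f)) = mp f' (T (s l))) (k : ℕ)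
    {c : C X} (hc : c ∈ Sp Q) : T (A q f k c) = A q f' k (T c) := by
  have h1 : ∀ c ∈ Sp Q, mp f c ∈ Sp Q := fun c hc =>
    lin_mem _ _ (fun l hl => by rw [mp_s]; exact s_mem (hQ l hl)) hc
  have h2 : ∀ c ∈ Sp Q, T (mp f c) = mp f' (T c) := fun c hc =>
    lin_eq (T.comp (mp f)) ((mp f').comp T) (fun l hl => by simpa using h l hl) hc
  have h3 : ∀ j : ℕ, ((mp f) ^ j) c ∈ Sp Q ∧ T (((mp f) ^ j) c) = ((mp f') ^ j) (T c) := by
    intro j
    induction j with
    | zero => exact ⟨hc, rfl⟩
    | succ j ih =>
      rw [pow_succ', pow_succ', Module.End.mul_apply, Module.End.mul_apply]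
      exact ⟨h1 _ ih.1, by rw [h2 _ ih.1, ih.2]⟩
  unfold A
  split_ifs
  · simp [h2 c hc]
  · simp only [LinearMap.sum_apply, map_sum]
    exact Finset.sum_congr rfl fun j _ => (h3 j).2

lemma pow_mem (f : X → X) (Q : List X → Prop) (hQ : ∀ l, Q l → Q (l.map f)) (j : ℕ)
    {c : C X} (hc : c ∈ Sp Q) : ((mp f) ^ j) c ∈ Sp Q := by
  induction j with
  | zero => exact hc
  | succ j ih =>
    rw [pow_succ', Module.End.mul_apply]
    exact lin_mem _ _ (fun l hl => by rw [mp_s]; exact s_mem (hQ l hl)) ih

lemma A_mem (q : ℕ) (f : X → X) (Q : List X → Prop) (hQ : ∀ l, Q l → Q (l.map f)) (k : ℕ)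
    {c : C X} (hc : c ∈ Sp Q) : A q f k c ∈ Sp Q := by
  unfold A
  split_ifs
  · have := pow_mem f Q hQ 1 hc
    rw [pow_one] at this
    exact Submodule.sub_mem _ this hc
  · simp only [LinearMap.sum_apply]
    exact Submodule.sum_mem _ fun j _ => pow_mem f Q hQ j hc

/-- exactness on free modules -/
lemma exact_A {q : ℕ} (hq : 0 < q) {f : X → X} (hf : f^[q] = id) (Q : List X → Prop)
    (hQ : ∀ l, Q l → Q (l.map f)) (idx : List X → ZMod q)
    (hidx : ∀ l, Q l → idx (l.map f) = idx l + 1) (k : ℕ) {c : C X} (hc : c ∈ Sp Q)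
    (h0 : A q f k c = 0) : ∃ e ∈ Sp Q, c = A q f (k + 1) e := by
  classical
  have : NeZero q := ⟨hq.ne'⟩
  let E : C X →ₗ[ℤ] C X := lin fun l => if idx l = 0 then s l else 0
  have hE : ∀ c ∈ Sp Q, E c ∈ Sp Q := fun c hc =>
    lin_mem _ _ (fun l hl => by
      simp only [E, lin_s]; split_ifs
      · exact s_mem hl
      · exact Submodule.zero_mem _) hc
  have hit : ∀ j l, Q l → Q (l.map f^[j]) ∧ idx (l.map f^[j]) = idx l + j := by
    intro j l hl
    induction j with
    | zero => simpa using hl
    | succ j ih =>
      rw [Function.iterate_succ', ← List.map_map]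
      exact ⟨hQ _ ih.1, by rw [hidx _ ih.1, ih.2]; push_cast; ring⟩
  have star : c = ∑ j ∈ Finset.range q, ((mp f) ^ j) (E (((mp f) ^ (q - j)) c)) := by
    have := lin_eq (Q := Q) LinearMap.id
      (∑ j ∈ Finset.range q, ((mp f) ^ j).comp (E.comp ((mp f) ^ (q - j)))) (fun l hl => ?_) hc
    · simpa using this
    simp only [LinearMap.id_coe, id_eq, LinearMap.sum_apply, LinearMap.comp_apply]
    rw [Finset.sum_eq_single (idx l).val]
    · have hv := ZMod.val_lt (idx l)
      rw [mp_pow f (q - _), mp_s]
      simp only [E, lin_s]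
      rw [if_pos, mp_pow, mp_s, List.map_map, ← Function.iterate_add, Nat.add_sub_cancel' hv.le, hf,
        List.map_id]
      rw [(hit _ l hl).2, Nat.cast_sub hv.le]
      simp
    · intro j hj hne
      rw [Finset.mem_range] at hj
      rw [mp_pow f (q - _), mp_s]
      simp only [E, lin_s]
      rw [if_neg, map_zero]
      rw [(hit _ l hl).2, Nat.cast_sub hj.le]
      intro h
      apply hne
      have : idx l = j := by
        simp only [CharP.cast_eq_zero, zero_sub] at h
        exact add_neg_eq_zero.1 h
      rw [this, ZMod.val_natCast, Nat.mod_eq_of_lt hj]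
    · intro h
      exact absurd (Finset.mem_range.2 (ZMod.val_lt _)) h
  unfold A at h0 ⊢
  by_cases hk : k % 2 = 1
  · rw [if_pos hk] at h0
    rw [if_neg (by omega)]
    have h1 : mp f c = c := by simpa [sub_eq_zero] using h0
    have h2 : ∀ j : ℕ, ((mp f) ^ j) c = c := by
      intro j
      induction j with
      | zero => rfl
      | succ j ih => rw [pow_succ', Module.End.mul_apply, ih, h1]
    refine ⟨E c, hE c hc, ?_⟩
    simp only [LinearMap.sum_apply]
    simp only [h2] at star
    exact star
  · rw [if_neg hk] at h0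
    rw [if_pos (by omega)]
    refine ⟨∑ j ∈ Finset.range q, (∑ i ∈ Finset.range j, (mp f) ^ i) (E (((mp f) ^ (q - j)) c)),
      Submodule.sum_mem _ fun j _ => ?_, ?_⟩
    · simp only [LinearMap.sum_apply]
      exact Submodule.sum_mem _ fun i _ => pow_mem f Q hQ i (hE _ (pow_mem f Q hQ _ hc))
    · have h1 : ∑ j ∈ Finset.range q, E (((mp f) ^ (q - j)) c) = 0 := by
        rw [← map_sum]
        have : ∑ j ∈ Finset.range q, ((mp f) ^ (q - j)) c =
            mp f ((∑ j ∈ Finset.range q, (mp f) ^ j) c) := by
          simp only [LinearMap.sum_apply, map_sum]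
          rw [← Finset.sum_range_reflect]
          refine Finset.sum_congr rfl fun j hj => ?_
          rw [Finset.mem_range] at hj
          rw [show q - (q - 1 - j) = j + 1 by omega, pow_succ', Module.End.mul_apply]
        rw [this, h0, map_zero, map_zero]
      rw [map_sum]
      simp only [← Module.End.mul_apply (mp f - 1), mul_geom_sum, LinearMap.sub_apply,
        Module.End.one_apply]
      rw [Finset.sum_sub_distrib, h1, sub_zero]
      exact star

/-! The oriented chain complex of the join. -/

variable {G : Type}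

noncomputable def bt : List (Option G) → C (Option G)
  | [] => 0
  | none :: l => cons none (bt l)
  | some h :: l => s (none :: l) - cons (some h) (bt l)

noncomputable def DT : C (Option G) →ₗ[ℤ] C (Option G) := lin bt

noncomputable def wd : ℕ → G → List (Option G) → C (Option G)
  | _, _, [] => 0
  | 0, g, none :: l => s (some g :: l)
  | 0, _, some _ :: _ => 0
  | i + 1, g, none :: l => cons none (wd i g l)
  | i + 1, g, some h :: l => - cons (some h) (wd i g l)

noncomputable def W (i : ℕ) (g : G) : C (Option G) →ₗ[ℤ] C (Option G) := lin (wd i g)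

@[simp] lemma DT_s (l : List (Option G)) : DT (s l) = bt l := lin_s _ _
@[simp] lemma W_s (i : ℕ) (g : G) (l : List (Option G)) : W i g (s l) = wd i g l := lin_s _ _

lemma DT_none (c : C (Option G)) : DT (cons none c) = cons none (DT c) :=
  ext_s (S := DT.comp (cons none)) (T := (cons none).comp DT) (fun l => by simp [bt]) c

lemma DT_some (h : G) (c : C (Option G)) :
    DT (cons (some h) c) = cons none c - cons (some h) (DT c) :=
  ext_s (S := DT.comp (cons (some h))) (T := cons none - (cons (some h)).comp DT)
    (fun l => by simp [bt]) c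

lemma W0_none (g : G) (c : C (Option G)) : W 0 g (cons none c) = cons (some g) c :=
  ext_s (S := (W 0 g).comp (cons none)) (T := cons (some g)) (fun l => by simp [wd]) c

lemma W0_some (g h : G) (c : C (Option G)) : W 0 g (cons (some h) c) = 0 :=
  ext_s (S := (W 0 g).comp (cons (some h))) (T := 0) (fun l => by simp [wd]) c

lemma W_none (i : ℕ) (g : G) (c : C (Option G)) :
    W (i + 1) g (cons none c) = cons none (W i g c) :=
  ext_s (S := (W (i + 1) g).comp (cons none)) (T := (cons none).comp (W i g))
    (fun l => by simp [wd]) c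

lemma W_some (i : ℕ) (g h : G) (c : C (Option G)) :
    W (i + 1) g (cons (some h) c) = - cons (some h) (W i g c) :=
  ext_s (S := (W (i + 1) g).comp (cons (some h))) (T := - (cons (some h)).comp (W i g))
    (fun l => by simp [wd]) c

lemma DT_bt (l : List (Option G)) : DT (bt l) = 0 := by
  induction l with
  | nil => simp [bt]
  | cons x l ih =>
    cases x with
    | none => rw [bt, DT_none, ih, map_zero]
    | some h => rw [bt, map_sub, DT_some, ih, DT_s, bt]; simp

lemma DT_DT (c : C (Option G)) : DT (DT c) = 0 :=
  ext_s (S := DT.comp DT) (T := 0) (fun l => by simp [DT_bt]) c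

lemma DT_wd (g : G) (l : List (Option G)) : ∀ i, (l[i]? = some none ∨ l[i]? = some (some g)) →
    DT (wd i g l) = s l - W i g (bt l) := by
  induction l with
  | nil => intro i h; simp at h
  | cons x l ih =>
    intro i h
    cases i with
    | zero =>
      cases x with
      | none => simp [wd, bt, W0_none]
      | some h' =>
        have : h' = g := by simpa using h
        subst this
        simp [wd, bt, W0_some]
    | succ i =>
      have ih' := ih i (by simpa using h)
      cases x with
      | none => rw [wd, bt, DT_none, W_none, ih']; simp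
      | some h' =>
        rw [wd, bt, map_neg, DT_some, map_sub, W_some, ih', W_s, wd]
        simp only [map_sub, cons_s]
        abel

lemma bt_map (f : G → G) (l : List (Option G)) :
    bt (l.map (Option.map f)) = mp (Option.map f) (bt l) := by
  induction l with
  | nil => simp [bt]
  | cons x l ih =>
    cases x with
    | none => simp [bt, mp_cons, ih]
    | some h => simp [bt, mp_cons, ih]

lemma wd_map (f : G → G) (g : G) (l : List (Option G)) : ∀ i,
    wd i (f g) (l.map (Option.map f)) = mp (Option.map f) (wd i g l) := by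
  induction l with
  | nil => intro i; simp [wd]
  | cons x l ih =>
    intro i
    cases i <;> cases x <;> simp [wd, mp_cons, ih]

lemma W_mp (f : G → G) (g : G) (i : ℕ) (c : C (Option G)) :
    W i (f g) (mp (Option.map f) c) = mp (Option.map f) (W i g c) :=
  ext_s (S := (W i (f g)).comp (mp (Option.map f))) (T := (mp (Option.map f)).comp (W i g))
    (fun l => by simp [wd_map]) c

def deg (l : List (Option G)) : ℕ := l.countP Option.isSome

lemma bt_mem (l : List (Option G)) : bt l ∈ Sp fun m => deg m + 1 = deg l := by
  induction l with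
  | nil => exact Submodule.zero_mem _
  | cons x l ih =>
    cases x with
    | none =>
      exact lin_mem _ _ (fun m hm => by rw [cons_s]; exact s_mem (by simpa [deg] using hm)) ih
    | some h =>
      refine Submodule.sub_mem _ (s_mem (by simp [deg]))
        (lin_mem _ _ (fun m hm => by rw [cons_s]; exact s_mem (by simpa [deg] using hm)) ih)

lemma wd_mem (g : G) (l : List (Option G)) : ∀ i, wd i g l ∈ Sp fun m =>
    m.length = l.length ∧ deg m = deg l + 1 ∧ ∀ j, m[j]? = l[j]? ∨ (j = i ∧ m[j]? = some (some g)) := by
  induction l with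
  | nil => intro i; simp only [wd]; exact Submodule.zero_mem _
  | cons x l ih =>
    intro i
    have step : ∀ i, cons x (wd i g l) ∈ Sp fun m => m.length = (x :: l).length ∧
        deg m = deg (x :: l) + 1 ∧
        ∀ j, m[j]? = (x :: l)[j]? ∨ (j = i + 1 ∧ m[j]? = some (some g)) := by
      intro i
      refine lin_mem _ _ (fun m hm => ?_) (ih i)
      rw [cons_s]
      refine s_mem ⟨by simp [hm.1], ?_, fun j => ?_⟩
      · have := hm.2.1
        simp only [deg, List.countP_cons] at this ⊢
        omega
      · cases j with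
        | zero => simp
        | succ j => simpa using hm.2.2 j
    cases i with
    | zero =>
      cases x with
      | none =>
        refine s_mem ⟨by simp, by simp [deg], fun j => ?_⟩
        cases j <;> simp
      | some h => exact Submodule.zero_mem _
    | succ i =>
      cases x with
      | none => exact step i
      | some h => exact Submodule.neg_mem _ (step i)

/-- the first letter that is present -/
def first : List (Option G) → Option G
  | [] => none
  | none :: l => first l
  | some h :: _ => some h

lemma first_map (f : G → G) (l : List (Option G)) :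
    first (l.map (Option.map f)) = (first l).map f := by
  induction l with
  | nil => rfl
  | cons x l ih => cases x <;> simp [first, ih]

lemma first_some (l : List (Option G)) (h : 0 < deg l) : ∃ g, first l = some g := by
  induction l with
  | nil => simp [deg] at h
  | cons x l ih =>
    cases x with
    | none => exact ih (by simpa [deg] using h)
    | some g => exact ⟨g, rfl⟩

lemma deg_map (f : G → G) (l : List (Option G)) : deg (l.map (Option.map f)) = deg l := by
  induction l with
  | nil => rfl
  | cons x l ih => cases x <;> simpa [deg] using ih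

lemma map_deg0 (f : G → G) (l : List (Option G)) (h : deg l = 0) : l.map (Option.map f) = l := by
  induction l with
  | nil => rfl
  | cons x l ih =>
    cases x with
    | none => simpa using ih (by simpa [deg] using h)
    | some g => simp [deg] at h

/-- The algebraic core: a finite-dimensional free complex carries no long periodic sequence. -/
theorem core {q : ℕ} (hq : 2 ≤ q) (f : G → G) (hf : f^[q] = id) (ρ : G → ZMod q)
    (hρ : ∀ h, ρ (f h) = ρ h + 1) (m : ℕ) (d : ℕ → C (Option G)) (l0 : List (Option G))
    (hd : ∀ k, k ≤ m + 1 → d k ∈ Sp fun l => deg l = k) (h0 : d 0 = s l0) (h1 : DT (d 1) = d 0)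
    (hk : ∀ k, 1 ≤ k → k ≤ m → DT (d (k + 1)) = A q (Option.map f) k (d k))
    (htop : d (m + 1) = 0) : False := by
  have hf' : (Option.map f)^[q] = id := by
    have : ∀ j, (Option.map f)^[j] = Option.map (f^[j]) := by
      intro j
      induction j with
      | zero => simp
      | succ j ih =>
        rw [Function.iterate_succ', Function.iterate_succ', ih]
        funext x; cases x <;> rfl
    rw [this, hf]; simp
  have hDA : ∀ k c, DT (A q (Option.map f) k c) = A q (Option.map f) k (DT c) := fun k c =>
    comm_A q _ _ DT (fun _ => True) (fun _ _ => trivial) (fun l _ => by simp [bt_map]) k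
      (fun _ _ => trivial)
  have hDm : ∀ k, ∀ c ∈ Sp (fun l : List (Option G) => deg l = k + 1),
      DT c ∈ Sp fun l => deg l = k := fun k c hc =>
    lin_mem _ _ (fun l hl => by
      rw [DT_s]; exact sp_mono (fun m hm => by omega) (bt_mem l)) hc
  have key : ∀ j k, k + j = m → ∃ e, ∃ e' ∈ Sp (fun l : List (Option G) => deg l = k + 1),
      d (k + 1) = DT e + A q (Option.map f) k e' := by
    intro j
    induction j with
    | zero =>
      intro k hk'
      refine ⟨0, 0, Submodule.zero_mem _, ?_⟩
      rw [show k = m by omega, htop]; simp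
    | succ j ih =>
      intro k hk'
      obtain ⟨e, e', he', h⟩ := ih (k + 1) (by omega)
      have h2 := hk (k + 1) (by omega) (by omega)
      rw [h, map_add, DT_DT, zero_add, hDA] at h2
      obtain ⟨e'', he'', h3⟩ := exact_A (q := q) (by omega) hf' (fun l => deg l = k + 1)
        (fun l hl => by rw [deg_map]; exact hl)
        (fun l => match first l with | none => 0 | some g => ρ g)
        (fun l hl => by
          obtain ⟨g, hg⟩ := first_some l (by omega)
          simp only [first_map, hg, Option.map_some, hρ]) (k + 1)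
        (c := d (k + 1) - DT e') (Submodule.sub_mem _ (hd _ (by omega)) (hDm _ _ he'))
        (by rw [map_sub, h2, sub_self])
      refine ⟨e', e'', he'', ?_⟩
      rw [A_add_two] at h3
      rw [← h3]; abel
  obtain ⟨e, e', he', h⟩ := key m 0 (by omega)
  rw [zero_add] at h
  rw [h, map_add, DT_DT, zero_add, hDA, h0] at h1
  have h4 : A q (Option.map f) 0 (DT e') = (q : ℤ) • DT e' := by
    have h5 : ∀ j : ℕ, ((mp (Option.map f)) ^ j) (DT e') = DT e' := by
      intro j
      induction j with
      | zero => rfl
      | succ j ih =>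
        rw [pow_succ', Module.End.mul_apply, ih]
        exact lin_eq (mp (Option.map f)) LinearMap.id
          (fun l hl => by simp [map_deg0 f l hl]) (hDm 0 _ he')
    simp [A, h5]
  rw [h4] at h1
  have h6 := congrArg (fun c : C (Option G) => c l0) h1
  simp only [s, Finsupp.smul_apply, smul_eq_mul, Finsupp.single_eq_same] at h6
  have h7 : (q : ℤ) ∣ 1 := ⟨_, h6.symm⟩
  have := Int.le_of_dvd one_pos h7
  omega

end Pool.Agent.H4.GIdx
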