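import Mathlib
import Pool.Agent.H4.GIdxA

namespace Pool.Agent.H4.GIdx

/-- The geometric realisation of a finite simplicial complex with vertices in `V` whose simplices
are the sets satisfying `F`: the union of the closed simplices, in barycentric coordinates. -/
def geo {V : Type} [Fintype V] (F : Finset V → Prop) : Set (V → ℝ) :=
  {x | (∀ v, 0 ≤ x v) ∧ ∑ v, x v = 1 ∧ ∃ s, F s ∧ ∀ v, x v ≠ 0 → v ∈ s}

/-- The simplices of `E_k G`, the `(k+1)`-fold join of `G`: nonempty sets of vertices `(h, i)` with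
at most one vertex on each level `i`. -/
def EF (G : Type) (k : ℕ) (s : Finset (G × Fin (k + 1))) : Prop :=
  s.Nonempty ∧ ∀ u ∈ s, ∀ v ∈ s, u.2 = v.2 → u = v

variable {G : Type} [Group G] [Fintype G]

theorem geo_compact {V : Type} [Fintype V] (F : Finset V → Prop) : IsCompact (geo F) := by
  refine Metric.isCompact_of_isClosed_isBounded ?_
    ((Metric.isBounded_closedBall (x := 0) (r := 1)).subset fun x hx => ?_)
  · have : geo F = {x | ∀ v, 0 ≤ x v} ∩ ({x | ∑ v, x v = 1} ∩
        ⋃ s : {s // F s}, {x | ∀ v, v ∉ s.1 → x v = 0}) := by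
      ext x
      simp only [geo, Set.mem_ofPred_eq, Set.mem_inter_iff, Set.mem_iUnion, Subtype.exists,
        exists_prop]
      refine and_congr_right fun _ => and_congr_right fun _ => exists_congr fun s =>
        and_congr_right fun _ => forall_congr' fun v => ?_
      exact not_imp_comm
    rw [this]
    refine IsClosed.inter ?_ (IsClosed.inter (isClosed_eq (by fun_prop) continuous_const)
      (isClosed_iUnion_of_finite fun s => ?_))
    · simp only [Set.ofPred_forall]
      exact isClosed_iInter fun v => isClosed_le continuous_const (continuous_apply v)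
    · simp only [Set.ofPred_forall]
      exact isClosed_iInter fun v => isClosed_iInter fun _ =>
        isClosed_eq (continuous_apply v) continuous_const
  · rw [mem_closedBall_zero_iff, pi_norm_le_iff_of_nonneg zero_le_one]
    intro v
    rw [Real.norm_of_nonneg (hx.1 v), ← hx.2.1]
    exact Finset.single_le_sum (fun v _ => hx.1 v) (Finset.mem_univ v)

omit [Group G] in
theorem mem_E {k : ℕ} {x : G × Fin (k + 1) → ℝ} : x ∈ geo (EF G k) ↔ (∀ v, 0 ≤ x v) ∧
    ∑ v, x v = 1 ∧ ∀ u v, x u ≠ 0 → x v ≠ 0 → u.2 = v.2 → u = v := by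
  classical
  refine and_congr_right fun _ => and_congr_right fun h1 => ⟨?_, fun h => ?_⟩
  · rintro ⟨s, hs, h⟩ u v hu hv
    exact hs.2 u (h u hu) v (h v hv)
  · refine ⟨Finset.univ.filter (fun v => x v ≠ 0), ⟨?_, ?_⟩, by simp⟩
    · by_contra hn
      rw [Finset.not_nonempty_iff_eq_empty, Finset.filter_eq_empty_iff] at hn
      rw [Finset.sum_eq_zero (fun v hv => by simpa using hn hv)] at h1
      exact zero_ne_one h1
    · intro u hu v hv
      exact h u v (by simpa using hu) (by simpa using hv)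

def act {m : ℕ} (a : G) (x : G × Fin (m + 1) → ℝ) : G × Fin (m + 1) → ℝ :=
  fun v => x (a⁻¹ * v.1, v.2)

def S (G : Type) [Fintype G] (m k : ℕ) : Set (G × Fin (m + 1) → ℝ) :=
  {x | x ∈ geo (EF G m) ∧ ∀ v : G × Fin (m + 1), k ≤ v.2.1 → x v = 0}

def Good (m k : ℕ) (d : ℝ) (n : ℕ) (l : List (G × Fin (m + 1) → ℝ)) : Prop :=
  l.length = n ∧ (∀ x ∈ l, x ∈ S G m k) ∧ ∀ x ∈ l, ∀ y ∈ l, dist x y ≤ d

theorem act_E {m : ℕ} (a : G) {x : G × Fin (m + 1) → ℝ} (h : x ∈ geo (EF G m)) :
    act a x ∈ geo (EF G m) := by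
  rw [mem_E] at h ⊢
  refine ⟨fun v => h.1 _, ?_, fun u v hu hv e => ?_⟩
  · rw [← h.2.1]
    exact Fintype.sum_equiv ((Equiv.mulLeft a⁻¹).prodCongr (Equiv.refl _)) _ _ (fun v => rfl)
  · have := h.2.2 _ _ hu hv e
    simp only [Prod.mk.injEq, mul_right_inj] at this
    exact Prod.ext this.1 e

omit [Fintype G] in
theorem act_iter {m : ℕ} (a : G) (j : ℕ) : (act (m := m) a)^[j] = act (a ^ j) := by
  induction j with
  | zero => funext x v; simp [act]
  | succ j ih =>
    rw [Function.iterate_succ', ih]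
    funext x v
    simp [act, pow_succ', mul_assoc]

theorem good_act {m k : ℕ} {d : ℝ} {n : ℕ} (a : G) (l : List (G × Fin (m + 1) → ℝ))
    (h : Good m k d n l) : Good m k d n (l.map (act a)) := by
  refine ⟨by simpa using h.1, fun x hx => ?_, fun x hx y hy => ?_⟩
  · obtain ⟨x, hx', rfl⟩ := List.mem_map.1 hx
    exact ⟨act_E a (h.2.1 x hx').1, fun v hv => (h.2.1 x hx').2 _ hv⟩
  · obtain ⟨x, hx', rfl⟩ := List.mem_map.1 hx
    obtain ⟨y, hy', rfl⟩ := List.mem_map.1 hy
    refine le_trans ?_ (h.2.2 x hx' y hy')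
    exact (dist_pi_le_iff dist_nonneg).2 fun v => dist_le_pi_dist x y _

open Classical in
noncomputable def vx {m : ℕ} (k : Fin (m + 1)) : G × Fin (m + 1) → ℝ := Pi.single (1, k) 1

noncomputable def H {m : ℕ} (k : Fin (m + 1)) (t : ℝ) (x : G × Fin (m + 1) → ℝ) :
    G × Fin (m + 1) → ℝ := (1 - t) • x + t • vx k

theorem H_mem {m : ℕ} (k : Fin (m + 1)) {t : ℝ} (h0 : 0 ≤ t) (h1 : t ≤ 1)
    {x : G × Fin (m + 1) → ℝ} (hx : x ∈ S G m k) : H k t x ∈ S G m (k + 1) := by
  classical
  obtain ⟨hx1, hx2⟩ := hx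
  rw [mem_E] at hx1
  have hv : ∀ v, (vx k : G × Fin (m + 1) → ℝ) v = if v = (1, k) then 1 else 0 := by
    intro v; simp only [vx, Pi.single_apply]
  have hne : ∀ v, H k t x v ≠ 0 → (x v ≠ 0 ∧ v.2 < k) ∨ v = (1, k) := by
    intro v h
    by_cases e : v = (1, k)
    · exact Or.inr e
    · have : x v ≠ 0 := by
        intro h'; apply h; simp [H, hv, e, h']
      refine Or.inl ⟨this, ?_⟩
      by_contra hl
      exact this (hx2 v (by simpa using hl))
  refine ⟨mem_E.2 ⟨fun v => ?_, ?_, fun u v hu hv' e => ?_⟩, fun v hk => ?_⟩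
  · have := hx1.1 v
    simp only [H, Pi.add_apply, Pi.smul_apply, smul_eq_mul, hv]
    split_ifs <;> nlinarith
  · simp only [H, Pi.add_apply, Pi.smul_apply, smul_eq_mul, Finset.sum_add_distrib,
      ← Finset.mul_sum, hx1.2.1, hv]
    simp
  · rcases hne u hu with a | a <;> rcases hne v hv' with b | b
    · exact hx1.2.2 u v a.1 b.1 e
    · rw [e, b] at a; exact absurd a.2 (lt_irrefl _)
    · rw [← e, a] at b; exact absurd b.2 (lt_irrefl _)
    · rw [a, b]
  · by_contra h
    rcases hne v h with a | a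
    · have := a.2; omega
    · rw [a] at hk; simp at hk

omit [Group G] in
theorem norm_E {m : ℕ} {x : G × Fin (m + 1) → ℝ} (h : x ∈ geo (EF G m)) : ‖x‖ ≤ 1 :=
  (pi_norm_le_iff_of_nonneg zero_le_one).2 fun v => by
    rw [Real.norm_of_nonneg (h.1 v), ← h.2.1]
    exact Finset.single_le_sum (fun v _ => h.1 v) (Finset.mem_univ v)

theorem H_dist {m : ℕ} (k : Fin (m + 1)) {t t' : ℝ} (h0 : 0 ≤ t) (h1 : t ≤ 1)
    {x y : G × Fin (m + 1) → ℝ} (hy : ‖y‖ ≤ 1) :
    dist (H k t x) (H k t' y) ≤ dist x y + 2 * |t - t'| := by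
  classical
  have : H k t x - H k t' y = (1 - t) • (x - y) + (t - t') • (vx k - y) := by
    simp only [H]; module
  rw [dist_eq_norm, dist_eq_norm, this]
  refine (norm_add_le _ _).trans (add_le_add ?_ ?_)
  · rw [norm_smul, Real.norm_of_nonneg (sub_nonneg.2 h1)]
    nlinarith [norm_nonneg (x - y)]
  · rw [norm_smul, Real.norm_eq_abs, mul_comm]
    refine mul_le_mul_of_nonneg_right ((norm_sub_le _ _).trans ?_) (abs_nonneg _)
    have : ‖(vx k : G × Fin (m + 1) → ℝ)‖ = 1 := by
      unfold vx; rw [Pi.norm_single, norm_one]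
    linarith

theorem fill {m : ℕ} (k : Fin (m + 1)) (d : ℝ) (hd : 0 ≤ d) (n N : ℕ) (hN : 0 < N)
    (z : C (G × Fin (m + 1) → ℝ)) (hzm : z ∈ Sp (Good m k d n)) (hD : D z = 0) :
    ∃ h' ∈ Sp (Good m (k + 1) (d + 2 / N) (n + 1)), D h' = z := by
  have hNp : (0 : ℝ) < N := by exact_mod_cast hN
  have key : ∀ j : ℕ, j ≤ N → ∃ h' ∈ Sp (Good m (k + 1) (d + 2 / N) (n + 1)),
      D h' = z - mp (H k (j / N)) z := by
    intro j
    induction j with
    | zero =>
      refine fun _ => ⟨0, Submodule.zero_mem _, ?_⟩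
      have : H (G := G) k (((0 : ℕ) : ℝ) / N) = id := by funext x; simp [H]
      rw [this, mp_id, sub_self, map_zero]
    | succ j ih =>
      intro hj
      obtain ⟨h', h1, h2⟩ := ih (by omega)
      refine ⟨h' - P (H k (j / N)) (H k ((j + 1 : ℕ) / N)) z, Submodule.sub_mem _ h1 ?_, ?_⟩
      · refine lin_mem _ _ (fun l hl => ?_) hzm
        rw [P, lin_s]
        refine sp_mono (fun w hm => ?_) (pr_mem _ _ l)
        have hj' : ((j : ℝ) + 1) ≤ N := by exact_mod_cast hj
        have hm' : ∀ u ∈ w, ∃ x ∈ l, ∃ t : ℝ, (j : ℝ) / N ≤ t ∧ t ≤ (j + 1) / N ∧ u = H k t x := by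
          intro u hu
          obtain ⟨x, hx, h | h⟩ := hm.2 u hu
          · exact ⟨x, hx, _, le_rfl, by gcongr; linarith, h⟩
          · exact ⟨x, hx, (j + 1) / N, by gcongr; linarith, le_rfl, by simpa using h⟩
        have ht : ∀ t : ℝ, (j : ℝ) / N ≤ t → t ≤ (j + 1) / N → 0 ≤ t ∧ t ≤ 1 := fun t a1 a2 =>
          ⟨le_trans (by positivity) a1, a2.trans ((div_le_one hNp).2 hj')⟩
        refine ⟨by rw [hm.1, hl.1], fun u hu => ?_, fun u hu v hv => ?_⟩
        · obtain ⟨x, hx, t, a1, a2, rfl⟩ := hm' u hu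
          exact H_mem k (ht t a1 a2).1 (ht t a1 a2).2 (hl.2.1 x hx)
        · obtain ⟨x, hx, t, a1, a2, rfl⟩ := hm' u hu
          obtain ⟨y, hy, t', a3, a4, rfl⟩ := hm' v hv
          refine (H_dist k (ht t a1 a2).1 (ht t a1 a2).2 (norm_E (hl.2.1 y hy).1)).trans ?_
          have : |t - t'| ≤ 1 / N := by
            rw [add_div] at a2 a4
            rw [abs_le]; constructor <;> linarith
          have e : (2 : ℝ) / N = 2 * (1 / N) := by ring
          linarith [hl.2.2 x hx y hy]
      · rw [map_sub, h2, prism', hD, map_zero]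
        abel
  obtain ⟨h', h1, h2⟩ := key N le_rfl
  have e : ∀ x, H (G := G) k ((N : ℝ) / N) x = vx k := by
    intro x; simp [H, hNp.ne']
  have hvx : (vx k : G × Fin (m + 1) → ℝ) ∈ S G m (k + 1) := by
    classical
    have hv : ∀ v, (vx k : G × Fin (m + 1) → ℝ) v = if v = (1, k) then 1 else 0 := by
      intro v; simp only [vx, Pi.single_apply]
    refine ⟨mem_E.2 ⟨fun v => ?_, by simp [hv], fun u v hu hv' _ => ?_⟩, fun v hk => ?_⟩
    · rw [hv]; split_ifs <;> norm_num
    · rw [hv] at hu hv'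
      have a : u = (1, k) := by simpa using hu
      have b : v = (1, k) := by simpa using hv'
      rw [a, b]
    · rw [hv, if_neg]
      rintro rfl
      simp at hk
  refine ⟨h' + cons (vx k) (mp (H k ((N : ℝ) / N)) z), Submodule.add_mem _ h1 ?_, ?_⟩
  · refine lin_mem ((cons (vx k)).comp (mp (H k ((N : ℝ) / N)))) _ (fun l hl => ?_) hzm
    simp only [LinearMap.comp_apply, mp_s, cons_s]
    have hall : ∀ u ∈ vx k :: l.map (H k ((N : ℝ) / N)), u = vx k := by
      intro u hu
      rcases List.mem_cons.1 hu with h | h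
      · exact h
      · obtain ⟨x, -, rfl⟩ := List.mem_map.1 h
        exact e x
    refine s_mem ⟨by simp [hl.1], fun u hu => by rw [hall u hu]; exact hvx, fun u hu v hv => ?_⟩
    rw [hall u hu, hall v hv, dist_self]
    positivity
  · rw [map_add, h2, D_cons, D_mp, hD]
    simp

/-- The combinatorial form of Dold's theorem. -/
theorem tucker (g : G) (hg : g ≠ 1) (m : ℕ) (ε : ℝ) (hε : 0 < ε)
    (lab : (G × Fin (m + 1) → ℝ) → G × ℕ) (h1 : ∀ x ∈ geo (EF G m), (lab x).2 < m)
    (h2 : ∀ x ∈ geo (EF G m), lab (act g x) = (g * (lab x).1, (lab x).2))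
    (h3 : ∀ x ∈ geo (EF G m), ∀ y ∈ geo (EF G m), dist x y ≤ ε → (lab x).2 = (lab y).2 →
      (lab x).1 = (lab y).1) : False := by
  classical
  set q := orderOf g with hq
  have hq2 : 2 ≤ q := by
    have a := orderOf_pos g
    have b : orderOf g ≠ 1 := fun h => hg (orderOf_eq_one_iff.1 h)
    omega
  obtain ⟨N, hN⟩ := exists_nat_gt (2 * (m + 1) / ε)
  have hN0 : (0 : ℝ) < N := lt_of_le_of_lt (by positivity) hN
  have hact : (act (m := m) g)^[q] = id := by
    rw [act_iter, hq, pow_orderOf_eq_one]; funext x v; simp [act]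
  -- the source chains
  have chains : ∀ k, k ≤ m → ∃ c : ℕ → C (G × Fin (m + 1) → ℝ), c 0 = s [] ∧ D (c 1) = c 0 ∧
      (∀ j, j ≤ k + 1 → c j ∈ Sp (Good m j (j * (2 / N)) j)) ∧
      ∀ j, 1 ≤ j → j ≤ k → D (c (j + 1)) = A q (act g) j (c j) := by
    intro k
    induction k with
    | zero =>
      intro _
      obtain ⟨h', a, b⟩ := fill (G := G) (0 : Fin (m + 1)) 0 le_rfl 0 N (by exact_mod_cast hN0)
        (s []) (s_mem ⟨rfl, by simp, by simp⟩) (by simp [bd])
      refine ⟨fun j => if j = 0 then s [] else h', by simp, by simpa using b, fun j hj => ?_,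
        fun j a b => by omega⟩
      rcases (by omega : j = 0 ∨ j = 1) with rfl | rfl
      · exact s_mem ⟨rfl, by simp, by simp⟩
      · simpa using a
    | succ k ih =>
      intro hk
      obtain ⟨c, c0, c1, c2, c3⟩ := ih (by omega)
      have hDA : ∀ k c, D (A q (act (m := m) g) k c) = A q (act g) k (D c) := fun k c =>
        comm_A q _ _ D (fun _ => True) (fun _ _ => trivial) (fun l _ => by simp [bd_map]) k
          (fun _ _ => trivial)
      obtain ⟨h', a, b⟩ := fill (G := G) (⟨k + 1, by omega⟩ : Fin (m + 1))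
        ((k + 1 : ℕ) * (2 / N)) (by positivity) (k + 1) N (by exact_mod_cast hN0)
        (A q (act g) (k + 1) (c (k + 1)))
        (A_mem q _ _ (good_act g) _ (c2 _ le_rfl)) (by
          rw [hDA]
          rcases Nat.eq_zero_or_pos k with rfl | hk0
          · rw [zero_add, c1, c0]; simp [A]
          · rw [c3 k hk0 le_rfl, A_A hact])
      refine ⟨fun j => if j = k + 2 then h' else c j, by simpa using c0, by simpa using c1,
        fun j hj => ?_, fun j a1 a2 => ?_⟩
      · by_cases e : j = k + 2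
        · subst e
          simp only [if_true]
          convert a using 3
          push_cast; ring
        · simp only [e, if_false]
          exact c2 j (by omega)
      · by_cases e : j = k + 1
        · subst e; simpa using b
        · have e1 : j + 1 ≠ k + 2 := by omega
          have e2 : j ≠ k + 2 := by omega
          simp only [e1, e2, if_false]
          exact c3 j a1 (by omega)
  obtain ⟨c, c0, c1, c2, c3⟩ := chains m le_rfl
  -- the chain map
  let ph : List (G × Fin (m + 1) → ℝ) → C (Option G) := fun l =>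
    l.rec (s (List.replicate m none)) fun x _ r => W (lab x).2 (lab x).1 r
  have ph0 : ph [] = s (List.replicate m none) := rfl
  have ph1 : ∀ x l, ph (x :: l) = W (lab x).2 (lab x).1 (ph l) := fun _ _ => rfl
  let Q : List (G × Fin (m + 1) → ℝ) → Prop := fun l =>
    (∀ x ∈ l, x ∈ geo (EF G m)) ∧ ∀ x ∈ l, ∀ y ∈ l, dist x y ≤ ε
  have hQ : ∀ j, j ≤ m + 1 → ∀ l, Good m j (j * (2 / N)) j l → Q l := by
    intro j hj l hl
    refine ⟨fun x hx => (hl.2.1 x hx).1, fun x hx y hy => (hl.2.2 x hx y hy).trans ?_⟩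
    have : (j : ℝ) ≤ m + 1 := by exact_mod_cast hj
    rw [div_lt_iff₀ hε] at hN
    rw [← mul_div_assoc, div_le_iff₀ hN0]
    nlinarith
  have hsupp : ∀ l, ph l ∈ Sp fun w => w.length = m ∧ deg w = l.length ∧
      ∀ j h, w[j]? = some (some h) → ∃ x ∈ l, lab x = (h, j) := by
    intro l
    induction l with
    | nil =>
      refine s_mem ⟨by simp, by simp [deg], fun j h e => ?_⟩
      simp [List.getElem?_replicate] at e
    | cons x l ih =>
      rw [ph1]
      refine lin_mem _ _ (fun w hw => ?_) ih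
      rw [W_s]
      refine sp_mono (fun w' hw' => ⟨hw'.1.trans hw.1, by simp [hw'.2.1, hw.2.1], fun j h e => ?_⟩)
        (wd_mem _ w _)
      rcases hw'.2.2 j with a | a
      · obtain ⟨y, hy, b⟩ := hw.2.2 j h (a ▸ e)
        exact ⟨y, List.mem_cons_of_mem _ hy, b⟩
      · refine ⟨x, by simp, ?_⟩
        rw [a.2] at e
        simp only [Option.some.injEq] at e
        exact Prod.ext e a.1.symm
  have hcons : ∀ x c, lin ph (cons x c) = W (lab x).2 (lab x).1 (lin ph c) := fun x c =>
    ext_s (S := (lin ph).comp (cons x)) (T := (W (lab x).2 (lab x).1).comp (lin ph))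
      (fun l => by simp [ph1]) c
  have hchain : ∀ l, Q l → DT (ph l) = lin ph (bd l) := by
    intro l
    induction l with
    | nil =>
      intro _
      rw [ph0, DT_s, bd, map_zero]
      clear * -
      induction m with
      | zero => rfl
      | succ m ih => rw [List.replicate_succ, bt, ih, map_zero]
    | cons x l ih =>
      intro hl
      have ih' := ih ⟨fun y hy => hl.1 y (List.mem_cons_of_mem _ hy), fun y hy z hz =>
        hl.2 y (List.mem_cons_of_mem _ hy) z (List.mem_cons_of_mem _ hz)⟩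
      rw [ph1, bd, map_sub, hcons, ← ih', lin_s]
      refine lin_eq (DT.comp (W (lab x).2 (lab x).1))
        (LinearMap.id - (W (lab x).2 (lab x).1).comp DT) (fun w hw => ?_) (hsupp l)
      simp only [LinearMap.comp_apply, W_s, LinearMap.sub_apply, LinearMap.id_coe, id_eq, DT_s]
      apply DT_wd
      have hx := hl.1 x (by simp)
      have hlt : (lab x).2 < w.length := by rw [hw.1]; exact h1 x hx
      rw [List.getElem?_eq_getElem hlt]
      cases e : w[(lab x).2] with
      | none => exact Or.inl rfl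
      | some h =>
        right
        obtain ⟨y, hy, b⟩ := hw.2.2 (lab x).2 h (by rw [List.getElem?_eq_getElem hlt, e])
        have := h3 x hx y (hl.1 y (List.mem_cons_of_mem _ hy))
          (hl.2 x (by simp) y (List.mem_cons_of_mem _ hy)) (by rw [b])
        rw [this, b]
  have hequi : ∀ l, (∀ x ∈ l, x ∈ geo (EF G m)) →
      ph (l.map (act g)) = mp (Option.map (g * ·)) (ph l) := by
    intro l
    induction l with
    | nil => intro _; simp [ph0]
    | cons x l ih =>
      intro hl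
      rw [List.map_cons, ph1, ph1, ih (fun y hy => hl y (List.mem_cons_of_mem _ hy)),
        h2 x (hl x (by simp))]
      exact W_mp (g * ·) _ _ _
  have hDc : ∀ j, j ≤ m + 1 → DT (lin ph (c j)) = lin ph (D (c j)) := fun j hj =>
    lin_eq (DT.comp (lin ph)) ((lin ph).comp D) (fun l hl => by simpa using hchain l (hQ j hj l hl))
      (c2 j hj)
  -- the index function on the group
  obtain ⟨ρ, hρ⟩ : ∃ ρ : G → ZMod q, ∀ h, ρ (g * h) = ρ h + 1 := by
    let r : Setoid G := ⟨fun a b => ∃ j : ℤ, a = g ^ j * b, ⟨fun a => ⟨0, by simp⟩, by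
      rintro a b ⟨j, rfl⟩; exact ⟨-j, by simp⟩, by
      rintro a b c ⟨j, rfl⟩ ⟨i, rfl⟩; exact ⟨j + i, by rw [zpow_add, mul_assoc]⟩⟩⟩
    have hex : ∀ h : G, ∃ j : ℤ, h = g ^ j * (Quotient.mk r h).out :=
      fun h => r.symm (Quotient.mk_out (s := r) h)
    choose J hJ using hex
    refine ⟨fun h => (J h : ZMod q), fun h => ?_⟩
    have e : Quotient.mk r (g * h) = Quotient.mk r h := Quotient.sound ⟨1, by simp⟩
    have a := hJ (g * h)
    rw [e] at a
    have b : g ^ (J (g * h)) = g ^ (J h + 1) := by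
      apply mul_right_cancel (b := (Quotient.mk r h).out)
      rw [← a, add_comm, zpow_add, zpow_one, mul_assoc, ← hJ h]
    rw [zpow_eq_zpow_iff_modEq] at b
    have := (ZMod.intCast_eq_intCast_iff _ _ q).2 b
    simpa using this
  refine core hq2 (g * ·) ?_ ρ hρ m (fun k => lin ph (c k)) (List.replicate m none)
    (fun k hk => ?_) (by simp [c0, ph0]) (by rw [hDc 1 (by omega), c1]) (fun k a b => ?_) ?_
  · funext h
    simp [hq, pow_orderOf_eq_one]
  · refine lin_mem _ _ (fun l hl => ?_) (c2 k hk)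
    rw [lin_s]
    exact sp_mono (fun w hw => hw.2.1.trans hl.1) (hsupp l)
  · rw [hDc _ (by omega), c3 k a b]
    exact comm_A q _ _ (lin ph) _ (good_act g)
      (fun l hl => by simpa using hequi l (fun x hx => (hl.2.1 x hx).1)) k (c2 k (by omega))
  · refine lin_eq (lin ph) 0 (fun l hl => ?_) (c2 (m + 1) le_rfl)
    rw [lin_s]
    refine lin_eq LinearMap.id 0 (fun w hw => ?_) (hsupp l)
    have a : deg w ≤ w.length := List.countP_le_length
    have b := hl.1
    omega

/-- Dold's theorem for the joins `E_m G`. -/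
theorem dold [Nontrivial G] {m k : ℕ} (hk : k < m) (f : geo (EF G m) → geo (EF G k))
    (hf : Continuous f)
    (he : ∀ (a : G) (x y : geo (EF G m)), (∀ h i, y.1 (a * h, i) = x.1 (h, i)) →
      ∀ h i, (f y).1 (a * h, i) = (f x).1 (h, i)) : False := by
  classical
  obtain ⟨g, hg⟩ := exists_ne (1 : G)
  have : CompactSpace (geo (EF G m)) := isCompact_iff_compactSpace.1 (geo_compact _)
  set c : ℝ := 1 / Fintype.card (G × Fin (k + 1)) with hc
  have hcard : (0 : ℝ) < Fintype.card (G × Fin (k + 1)) := by exact_mod_cast Fintype.card_pos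
  have hc0 : 0 < c := by positivity
  obtain ⟨δ, hδ, hu⟩ := Metric.uniformContinuous_iff.1
    (CompactSpace.uniformContinuous_of_continuous hf) c hc0
  have big : ∀ y : geo (EF G k), ∃ i h, c ≤ y.1 (h, i) := by
    intro y
    by_contra hn
    push Not at hn
    have := Finset.sum_lt_sum_of_nonempty (s := Finset.univ) Finset.univ_nonempty
      (f := fun v : G × Fin (k + 1) => y.1 v) (g := fun _ => c) (fun v _ => hn v.2 v.1)
    rw [y.2.2.1, Finset.sum_const, Finset.card_univ, nsmul_eq_mul, hc,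
      mul_one_div_cancel hcard.ne'] at this
    exact lt_irrefl _ this
  let lev : geo (EF G k) → Fin (k + 1) := fun y => Classical.epsilon fun i => ∃ h, c ≤ y.1 (h, i)
  have hlev : ∀ y : geo (EF G k), ∃ h, c ≤ y.1 (h, lev y) := fun y => Classical.epsilon_spec (big y)
  choose lb hlb using hlev
  have uniq : ∀ (y : geo (EF G k)) h h' i, y.1 (h, i) ≠ 0 → y.1 (h', i) ≠ 0 → h = h' :=
    fun y h h' i a b => congrArg Prod.fst ((mem_E.1 y.2).2.2 _ _ a b rfl)
  refine tucker g hg m (δ / 2) (by positivity)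
    (fun x => if hx : x ∈ geo (EF G m) then (lb (f ⟨x, hx⟩), (lev (f ⟨x, hx⟩)).1) else (1, 0))
    (fun x hx => ?_) (fun x hx => ?_) (fun x hx y hy hxy e => ?_)
  · simp only [hx, dite_true]
    have := (lev (f ⟨x, hx⟩)).2
    omega
  · have hx' := act_E g hx
    simp only [hx, hx', dite_true]
    have a := he g ⟨x, hx⟩ ⟨_, hx'⟩ (fun h i => by simp [act])
    have b : lev (f ⟨_, hx'⟩) = lev (f ⟨x, hx⟩) := by
      simp only [lev]
      congr 1
      funext i
      apply propext
      constructor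
      · rintro ⟨h, e⟩
        exact ⟨g⁻¹ * h, by rw [← a]; simpa using e⟩
      · rintro ⟨h, e⟩
        exact ⟨g * h, by rw [a]; exact e⟩
    refine Prod.ext ?_ (congrArg Fin.val b)
    refine uniq (f ⟨_, hx'⟩) _ _ (lev (f ⟨_, hx'⟩)) (hc0.trans_le (hlb _)).ne' ?_
    rw [a, b]
    exact (hc0.trans_le (hlb _)).ne'
  · simp only [hx, hy, dite_true] at e ⊢
    have e' := Fin.ext e
    have a := hu (a := ⟨x, hx⟩) (b := ⟨y, hy⟩) (by rw [Subtype.dist_eq]; linarith)
    have b : dist ((f ⟨x, hx⟩).1 (lb (f ⟨x, hx⟩), lev (f ⟨x, hx⟩)))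
        ((f ⟨y, hy⟩).1 (lb (f ⟨x, hx⟩), lev (f ⟨x, hx⟩))) < c :=
      lt_of_le_of_lt (dist_le_pi_dist _ _ _) a
    refine uniq (f ⟨y, hy⟩) _ _ (lev (f ⟨y, hy⟩)) ?_ (hc0.trans_le (hlb _)).ne'
    rw [← e']
    intro h0
    rw [h0, Real.dist_eq, sub_zero, abs_lt] at b
    linarith [hlb (f ⟨x, hx⟩), b.2]

end Pool.Agent.H4.GIdx
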