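import Mathlib

set_option autoImplicit false

namespace Pool.Agent.H4.AbCl

open Finset Filter Topology

/-- number of letters `1` in the factor of length `n` of `x` at position `i` -/
def wt (x : ℕ → Bool) (i n : ℕ) : ℕ := ((range n).filter (fun k => x (i + k) = true)).card

/-- abelian closure -/
def AC (x : ℕ → Bool) : Set (ℕ → Bool) := {y | ∀ i n, ∃ j, wt y i n = wt x j n}

/-- the shift -/
def shift (y : ℕ → Bool) : ℕ → Bool := fun i => y (i + 1)

/-- minimal subshifts -/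
def IsMinSub (M : Set (ℕ → Bool)) : Prop :=
  M.Nonempty ∧ IsClosed M ∧ (∀ y ∈ M, shift y ∈ M) ∧
    ∀ N ⊆ M, N.Nonempty → IsClosed N → (∀ y ∈ N, shift y ∈ N) → N = M

/-- uniform recurrence -/
def UR (x : ℕ → Bool) : Prop :=
  ∀ i n, ∃ N, ∀ k, ∃ j, k ≤ j ∧ j ≤ k + N ∧ ∀ t < n, x (j + t) = x (i + t)

/-- not ultimately periodic -/
def Aper (x : ℕ → Bool) : Prop := ¬ ∃ p, 0 < p ∧ ∃ N, ∀ i, N ≤ i → x (i + p) = x i

/-- factors of length `n` -/
def L (n : ℕ) (x : ℕ → Bool) : Set (Fin n → Bool) := Set.range (fun i (t : Fin n) => x (i + t))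

/-- Sturmian words -/
def Sturm (x : ℕ → Bool) : Prop := Aper x ∧ ∀ n, (L n x).ncard = n + 1

/-- uniform frequency of the letter `1` -/
def UFreq (x : ℕ → Bool) (α : ℝ) : Prop :=
  ∀ ε > 0, ∃ N, ∀ n ≥ N, ∀ i, |(wt x i n : ℝ) / n - α| < ε

variable {x y z : ℕ → Bool} {α : ℝ}

lemma wt_succ (x : ℕ → Bool) (i n : ℕ) :
    wt x i (n + 1) = wt x i n + if x (i + n) = true then 1 else 0 := by
  unfold wt
  rw [range_add_one, filter_insert]
  split_ifs
  · rw [card_insert_of_notMem (by simp)]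
  · rfl

lemma wt_add (x : ℕ → Bool) (i n m : ℕ) : wt x i (n + m) = wt x i n + wt x (i + n) m := by
  induction m with
  | zero => simp [wt]
  | succ m ih => rw [← add_assoc, wt_succ, wt_succ, ih, add_assoc i, add_assoc]

lemma wt_le (x : ℕ → Bool) (i n : ℕ) : wt x i n ≤ n := by
  simpa [wt] using card_filter_le (range n) (fun k => x (i + k) = true)

lemma wt_congr {i j n : ℕ} (h : ∀ t < n, x (i + t) = y (j + t)) : wt x i n = wt y j n := by
  unfold wt
  congr 1
  exact filter_congr fun t ht => by rw [h t (mem_range.1 ht)]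

/-- partial sums -/
def s (x : ℕ → Bool) (i : ℕ) : ℤ := wt x 0 i

lemma s_sub (x : ℕ → Bool) (i n : ℕ) : s x (i + n) - s x i = wt x i n := by
  simp [s, wt_add]

lemma ivt (f : ℕ → ℤ) (hf : ∀ i, f (i + 1) ≤ f i + 1) {a b : ℕ} (hab : a ≤ b) {w : ℤ}
    (ha : f a ≤ w) (hb : w ≤ f b) : ∃ c, f c = w := by
  induction hab with
  | refl => exact ⟨a, le_antisymm ha hb⟩
  | @step m _ ih =>
    by_cases h : w ≤ f m
    · exact ih h
    · exact ⟨m + 1, le_antisymm (by have := hf m; omega) hb⟩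

lemma wt_ivt {n a b : ℕ} {w : ℤ} (ha : (wt x a n : ℤ) ≤ w) (hb : w ≤ wt x b n) :
    ∃ c, (wt x c n : ℤ) = w := by
  have key : ∀ i, wt x i 1 + wt x (i + 1) n = wt x i n + wt x (i + n) 1 := fun i => by
    rw [← wt_add, ← wt_add, add_comm]
  rcases le_total a b with h | h
  · refine ivt (fun i => wt x i n) (fun i => ?_) h ha hb
    have := key i; have := wt_le x (i + n) 1; omega
  · obtain ⟨c, hc⟩ := ivt (fun i => -(wt x i n : ℤ)) (fun i => by
      have := key i; have := wt_le x i 1; omega) h (w := -w) (by simpa) (by simpa)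
    exact ⟨c, by simpa using hc⟩

/-- the word with partial sums `S` -/
def word (S : ℕ → ℤ) : ℕ → Bool := fun i => decide (S (i + 1) - S i = 1)

/-- admissible partial sums -/
def Adm (x : ℕ → Bool) (S : ℕ → ℤ) : Prop :=
  ∀ i n, (∃ j, (wt x j n : ℤ) ≤ S (i + n) - S i) ∧ ∃ j, S (i + n) - S i ≤ wt x j n

lemma Adm.wt_word {S : ℕ → ℤ} (h : Adm x S) (i n : ℕ) : (wt (word S) i n : ℤ) = S (i + n) - S i := by
  induction n with
  | zero => simp [wt]
  | succ n ih =>
    obtain ⟨⟨j, h1⟩, j', h2⟩ := h (i + n) 1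
    have := wt_le x j' 1
    rw [wt_succ]
    push_cast
    rw [ih]
    simp only [word, decide_eq_true_eq, ← add_assoc]
    split_ifs <;> omega

lemma Adm.mem {S : ℕ → ℤ} (h : Adm x S) : word S ∈ AC x := by
  intro i n
  obtain ⟨⟨j, h1⟩, j', h2⟩ := h i n
  obtain ⟨c, hc⟩ := wt_ivt h1 h2
  exact ⟨c, by have := h.wt_word i n; omega⟩

lemma adm_s (x : ℕ → Bool) : Adm x (s x) := fun i n =>
  ⟨⟨i, (s_sub x i n).ge⟩, i, (s_sub x i n).le⟩

lemma Adm.min {S T : ℕ → ℤ} (h : Adm x S) (h' : Adm x T) : Adm x (fun i => min (S i) (T i)) := by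
  intro i n
  obtain ⟨⟨j, h1⟩, j', h2⟩ := h i n
  obtain ⟨⟨k, h3⟩, k', h4⟩ := h' i n
  constructor
  · rcases le_total (wt x j n) (wt x k n) with e | e
    · exact ⟨j, by simp only; omega⟩
    · exact ⟨k, by simp only; omega⟩
  · rcases le_total (wt x j' n) (wt x k' n) with e | e
    · exact ⟨k', by simp only; omega⟩
    · exact ⟨j', by simp only; omega⟩

lemma adm_floor (r : ℕ → ℝ) (h : ∀ i n, (∃ j, (wt x j n : ℝ) ≤ r (i + n) - r i) ∧
    ∃ j, r (i + n) - r i ≤ wt x j n) : Adm x (fun i => ⌊r i⌋) := by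
  intro i n
  obtain ⟨⟨j, h1⟩, j', h2⟩ := h i n
  refine ⟨⟨j, ?_⟩, j', ?_⟩
  · have : ⌊r i + (wt x j n : ℕ)⌋ ≤ ⌊r (i + n)⌋ := Int.floor_mono (by linarith)
    rw [Int.floor_add_natCast] at this
    simp only; omega
  · have : ⌊r (i + n)⌋ ≤ ⌊r i + (wt x j' n : ℕ)⌋ := Int.floor_mono (by linarith)
    rw [Int.floor_add_natCast] at this
    simp only; omega

lemma freq_side (h : UFreq x α) (n : ℕ) (e : ℝ) (he : e = 1 ∨ e = -1) :
    ∃ j, e * wt x j n ≤ e * (α * n) := by
  by_contra hc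
  push Not at hc
  obtain ⟨m, ⟨j0, rfl⟩, hm⟩ := Set.exists_min_image (Set.range (fun j => wt x j n))
    (fun m => e * (m : ℝ)) ((Set.finite_Iic n).subset (by rintro _ ⟨j, rfl⟩; exact wt_le x j n))
    (Set.range_nonempty _)
  have h1 : ∀ k : ℕ, k * (e * wt x j0 n) ≤ e * wt x 0 (k * n) := by
    intro k
    induction k with
    | zero => simp [wt]
    | succ k ih =>
      rw [add_mul k 1 n, one_mul, wt_add]
      have := hm _ ⟨0 + k * n, rfl⟩
      push_cast
      simp only at this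
      nlinarith
  have hn : 0 < n := by
    rcases Nat.eq_zero_or_pos n with rfl | hn
    · simpa [wt] using hc 0
    · exact hn
  have hn' : (0 : ℝ) < n := by exact_mod_cast hn
  obtain ⟨N, hN⟩ := h ((e * wt x j0 n - e * (α * n)) / n) (div_pos (by linarith [hc j0]) hn')
  have h2 := hN ((N + 1) * n) (by nlinarith) 0
  have h3 := h1 (N + 1)
  have hp : (0 : ℝ) < (((N + 1) * n : ℕ) : ℝ) := by positivity
  have h4 : e * ((wt x 0 ((N + 1) * n) : ℝ) / (((N + 1) * n : ℕ) : ℝ) - α) <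
      (e * wt x j0 n - e * (α * n)) / n := by
    rcases he with rfl | rfl
    · linarith [(abs_lt.1 h2).2]
    · linarith [(abs_lt.1 h2).1]
  rw [lt_div_iff₀ hn', mul_sub, ← mul_div_assoc, sub_mul, div_mul_eq_mul_div, sub_lt_iff_lt_add,
    div_lt_iff₀ hp] at h4
  push_cast at h3 h4
  nlinarith

lemma freq_lo (h : UFreq x α) (n : ℕ) : ∃ j, (wt x j n : ℝ) ≤ α * n := by
  simpa using freq_side h n 1 (Or.inl rfl)

lemma freq_hi (h : UFreq x α) (n : ℕ) : ∃ j, α * n ≤ (wt x j n : ℝ) := by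
  simpa using freq_side h n (-1) (Or.inr rfl)

/-- orbit closure -/
def Om (y : ℕ → Bool) : Set (ℕ → Bool) := {z | ∀ n, ∃ k, ∀ t < n, z t = y (k + t)}

lemma Om_closed (y : ℕ → Bool) : IsClosed (Om y) := by
  refine isClosed_iff_clusterPt.2 fun z hz n => ?_
  have h1 : {w : ℕ → Bool | ∀ t ∈ range n, w t = z t} ∈ 𝓝 z := by
    refine (eventually_all_finset (range n)).2 fun t _ => ?_
    exact ((isOpen_discrete {z t}).preimage (continuous_apply t (A := fun _ => Bool))).mem_nhds rfl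
  obtain ⟨w, hw, hw'⟩ := clusterPt_principal_iff.1 hz _ h1
  obtain ⟨k, hk⟩ := hw' n
  exact ⟨k, fun t ht => (hw t (mem_range.2 ht)).symm.trans (hk t ht)⟩

lemma exists_min (y : ℕ → Bool) : ∃ M, IsMinSub M ∧ M ⊆ Om y := by
  obtain ⟨M, h1, h2⟩ := zorn_superset_nonempty
    {M : Set (ℕ → Bool) | M.Nonempty ∧ IsClosed M ∧ ∀ y ∈ M, shift y ∈ M} (fun c hc hch hne => by
      have := hne.to_subtype
      refine ⟨⋂₀ c, ⟨IsCompact.nonempty_sInter_of_directed_nonempty_isCompact_isClosed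
        (fun a ha b hb => (hch.total ha hb).elim (fun e => ⟨a, ha, subset_rfl, e⟩)
          (fun e => ⟨b, hb, e, subset_rfl⟩)) (fun U hU => (hc hU).1) (fun U hU => (hc hU).2.1.isCompact)
        (fun U hU => (hc hU).2.1), isClosed_sInter fun U hU => (hc hU).2.1,
        fun z hz U hU => (hc hU).2.2 z (hz U hU)⟩, fun U hU => Set.sInter_subset_of_mem hU⟩)
    (Om y) ⟨⟨y, fun n => ⟨0, by simp⟩⟩, Om_closed y, fun z hz n => by
      obtain ⟨k, hk⟩ := hz (n + 1)
      exact ⟨k + 1, fun t ht => by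
        rw [shift, hk (t + 1) (by omega)]; congr 1; omega⟩⟩
  exact ⟨M, ⟨h2.prop.1, h2.prop.2.1, h2.prop.2.2,
    fun N hN a b c => hN.antisymm (h2.le_of_le ⟨a, b, c⟩ hN)⟩, h1⟩

lemma Om.win (hz : z ∈ Om y) (m : ℕ) : ∃ k, ∀ i n, i + n ≤ m → wt z i n = wt y (k + i) n := by
  obtain ⟨k, hk⟩ := hz m
  exact ⟨k, fun i n h => wt_congr fun t ht => by rw [hk _ (by omega), add_assoc]⟩

lemma Om_sub (hy : y ∈ AC x) : Om y ⊆ AC x := by
  intro z hz i n
  obtain ⟨k, hk⟩ := Om.win hz (i + n)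
  rw [hk i n le_rfl]
  exact hy _ _

lemma unc (T : Set ℝ) (hT : ¬ T.Countable) (Y : ℝ → ℕ → Bool) (hY : ∀ t ∈ T, Y t ∈ AC x)
    (hinj : ∀ t ∈ T, ∀ t' ∈ T, ∀ z, z ∈ Om (Y t) → z ∈ Om (Y t') → t = t') :
    ¬ {M | IsMinSub M ∧ M ⊆ AC x}.Countable := by
  intro h
  choose M hM using fun t => exists_min (Y t)
  refine hT (Set.MapsTo.countable_of_injOn (f := M) ?_ ?_ h)
  · exact fun t ht => ⟨(hM t).1, (hM t).2.trans (Om_sub (hY t ht))⟩
  · intro t ht t' ht' e
    obtain ⟨z, hz⟩ := (hM t).1.1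
    exact hinj t ht t' ht' z ((hM t).2 hz) ((hM t').2 (e ▸ hz))

lemma mh (h : Aper x) (n : ℕ) : n + 1 ≤ (L n x).ncard := by
  induction n with
  | zero => exact (Set.ncard_pos (Set.toFinite _)).2 (Set.range_nonempty _)
  | succ n ih =>
    by_contra hc
    have himg : (fun (u : Fin (n + 1) → Bool) (t : Fin n) => u t.castSucc) '' L (n + 1) x = L n x := by
      unfold L
      rw [← Set.range_comp]
      rfl
    have hinj := Set.injOn_of_ncard_image_eq (le_antisymm (Set.ncard_image_le (Set.toFinite _))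
      (by rw [himg]; omega)) (f := fun (u : Fin (n + 1) → Bool) (t : Fin n) => u t.castSucc)
      (Set.toFinite (L (n + 1) x))
    have key : ∀ i j, (∀ t < n, x (i + t) = x (j + t)) → ∀ t, x (i + t) = x (j + t) := by
      intro i j hij t
      induction t using Nat.strong_induction_on with
      | _ t iht =>
        by_cases ht : t < n
        · exact hij t ht
        · obtain ⟨d, rfl⟩ : ∃ d, t = d + n := ⟨t - n, by omega⟩
          have := hinj ⟨i + d, rfl⟩ ⟨j + d, rfl⟩ (funext fun u => by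
            simp only [Fin.val_castSucc, add_assoc]
            exact iht _ (by omega))
          simpa [add_assoc] using congrFun this (Fin.last n)
    obtain ⟨i, j, hij, e⟩ := Finite.exists_ne_map_eq_of_infinite (fun i (t : Fin n) => x (i + t))
    wlog hlt : i < j generalizing i j
    · exact this j i hij.symm e.symm (by omega)
    refine h ⟨j - i, by omega, i, fun k hk => ?_⟩
    have := key i j (fun t ht => congrFun e ⟨t, ht⟩) (k - i)
    rw [show k + (j - i) = j + (k - i) by omega, ← this]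
    congr 1; omega

/-- discrepancy -/
noncomputable def D (x : ℕ → Bool) (α : ℝ) (i : ℕ) : ℝ := s x i - α * i

lemma D_sub (x : ℕ → Bool) (α : ℝ) (i n : ℕ) : D x α (i + n) - D x α i = wt x i n - α * n := by
  have : (s x (i + n) : ℝ) - s x i = wt x i n := by exact_mod_cast s_sub x i n
  simp only [D]; push_cast; linarith

lemma bal (h : ∀ i j, D x α j - D x α i < 1) (n : ℕ) : (L n x).ncard ≤ n + 1 := by
  classical
  have hb : ∀ i k : ℕ, ⌊α * k⌋ ≤ (wt x i k : ℤ) ∧ (wt x i k : ℤ) ≤ ⌊α * k⌋ + 1 := by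
    intro i k
    have h1 := h i (i + k)
    have h2 := h (i + k) i
    have h3 := D_sub x α i k
    have h4 := Int.floor_le (α * k)
    have h5 := Int.lt_floor_add_one (α * k)
    constructor
    · have : ((⌊α * k⌋ : ℤ) : ℝ) < ((wt x i k : ℤ) + 1 : ℤ) := by push_cast; linarith
      have := Int.cast_lt.1 this
      omega
    · have : (((wt x i k : ℤ) : ℤ) : ℝ) < (⌊α * k⌋ + 2 : ℤ) := by push_cast; linarith
      have := Int.cast_lt.1 this
      omega
  have hc : ∀ i j k, D x α i ≤ D x α j → wt x j k ≤ wt x i k := by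
    intro i j k hij
    have h1 := h (i + k) (j + k)
    have h3 := D_sub x α i k
    have h4 := D_sub x α j k
    have : (wt x j k : ℝ) < (wt x i k + 1 : ℕ) := by push_cast; linarith
    have := Nat.cast_lt.1 this
    omega
  let g : ℕ → ℤ := fun i => ∑ k ∈ range n, ((wt x i (k + 1) : ℤ) - ⌊α * (k + 1 : ℕ)⌋)
  have hg : ∀ i j, g i = g j → ∀ t < n, x (i + t) = x (j + t) := by
    intro i j e
    wlog hij : D x α i ≤ D x α j generalizing i j
    · exact fun t ht => (this j i e.symm (le_of_not_ge hij) t ht).symm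
    have h1 := (sum_eq_sum_iff_of_le (fun k _ => by
      have := hc i j (k + 1) hij; omega)).1 e.symm
    have h2 : ∀ k ≤ n, wt x j k = wt x i k := by
      intro k hk
      rcases k with _ | k
      · simp [wt]
      · have := h1 k (mem_range.2 (by omega)); omega
    intro t ht
    have h3 := h2 (t + 1) ht
    rw [wt_succ, wt_succ, h2 t ht.le] at h3
    cases hx : x (i + t) <;> cases hy : x (j + t) <;> simp_all
  have h3 : (L n x).ncard ≤ ((Icc (0 : ℤ) n : Finset ℤ) : Set ℤ).ncard := by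
    refine Set.ncard_le_ncard_of_injOn (fun u => if hu : u ∈ L n x then g hu.choose else 0) ?_ ?_
      (Finset.finite_toSet _)
    · intro u hu
      simp only [hu, dif_pos, coe_Icc, Set.mem_Icc]
      refine ⟨sum_nonneg fun k _ => by have := hb hu.choose (k + 1); omega, ?_⟩
      have := sum_le_card_nsmul (range n)
        (fun k => (wt x hu.choose (k + 1) : ℤ) - ⌊α * (k + 1 : ℕ)⌋) 1
        (fun k _ => by have := hb hu.choose (k + 1); omega)
      rw [card_range, nsmul_one] at this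
      exact this
    · intro u hu v hv e
      simp only [hu, hv, dif_pos] at e
      rw [← hu.choose_spec, ← hv.choose_spec]
      exact funext fun t => hg _ _ e t t.2
  rw [Set.ncard_coe_finset, Int.card_Icc] at h3
  omega

end Pool.Agent.H4.AbCl
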