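import Mathlib

set_option autoImplicit false

namespace Pool.Agent.H4.Arr

open Finset Polynomial Module LinearMap
open scoped Classical

abbrev K := ZMod 2

lemma k2 : ∀ x : K, x = 0 ∨ x = 1 := by decide
lemma kz : ∀ x y : K, 0 = x + y → x = y := by decide
lemma kn : ∀ x y : K, x ≠ 0 → y ≠ 0 → x + y = 0 := by decide
lemma k6 : ∀ x y z : K, x ≠ 0 → z ≠ 0 → y + z ≠ 0 → x + y ≠ 0 := by decide

/-- nonnegative coefficients -/
def NN (P : ℤ[X]) : Prop := ∀ i, 0 ≤ P.coeff i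

lemma NN.add {P Q : ℤ[X]} (h : NN P) (h' : NN Q) : NN (P + Q) := fun i => by
  rw [coeff_add]; exact add_nonneg (h i) (h' i)

lemma NN.mul {P Q : ℤ[X]} (h : NN P) (h' : NN Q) : NN (P * Q) := fun i => by
  rw [coeff_mul]; exact sum_nonneg fun _ _ => mul_nonneg (h _) (h' _)

lemma nn_zero : NN 0 := fun _ => by simp
lemma nn_xp (k : ℕ) : NN (X ^ k) := fun i => by rw [coeff_X_pow]; split_ifs <;> norm_num
lemma nn_one : NN 1 := by simpa using nn_xp 0
lemma nn_x1 : NN (X + 1) := NN.add (by simpa using nn_xp 1) nn_one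
lemma nn_x2 : NN (X + 2) := by
  have := nn_x1.add nn_one
  rwa [add_assoc, one_add_one_eq_two] at this
lemma nn_x3 : NN (X + 3) := by
  have := nn_x2.add nn_one
  rwa [add_assoc, two_add_one_eq_three] at this
lemma NN.pow {P : ℤ[X]} (h : NN P) (k : ℕ) : NN (P ^ k) := by
  induction k with
  | zero => simpa using nn_one
  | succ k ih => rw [pow_succ]; exact ih.mul h
lemma NN.of_eq {P Q : ℤ[X]} (h : NN P) (e : P = Q) : NN Q := e ▸ h

variable {W : Type} [AddCommGroup W] [Module K W] [FiniteDimensional K W]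

/-- the flat of `T` in `Y` -/
noncomputable def fl (Y : Submodule K W) (T : Finset (Dual K W)) : Submodule K W :=
  Y ⊓ ⨅ φ ∈ T, ker φ

/-- signless characteristic polynomial -/
noncomputable def f (Y : Submodule K W) (S : Finset (Dual K W)) : ℤ[X] :=
  ∑ T ∈ S.powerset, (-1) ^ (T.card + finrank K Y + finrank K (fl Y T)) * X ^ finrank K (fl Y T)

variable {Y : Submodule K W} {S : Finset (Dual K W)} {φ ψ a b c d e g : Dual K W}

omit [FiniteDimensional K W] in
lemma fl_insert (T : Finset (Dual K W)) : fl Y (insert φ T) = fl (Y ⊓ ker φ) T := by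
  simp [fl, iInf_or, iInf_inf_eq, inf_assoc]

omit [FiniteDimensional K W] in
lemma f_empty : f Y ∅ = X ^ finrank K Y := by
  have : fl Y ∅ = Y := by simp [fl]
  rw [f, powerset_empty, sum_singleton, this, card_empty, zero_add, ← two_mul, pow_mul]
  simp

omit [FiniteDimensional K W] in
lemma f_ins (h : φ ∉ S) : f Y (insert φ S) =
    f Y S - (-1) ^ (finrank K Y + finrank K (Y ⊓ ker φ : Submodule K W)) * f (Y ⊓ ker φ) S := by
  unfold f
  rw [sum_powerset_insert h, sub_eq_add_neg, mul_sum, ← sum_neg_distrib]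
  congr 1
  refine sum_congr rfl fun T hT => ?_
  rw [card_insert_of_notMem (fun h' => h (mem_powerset.1 hT h')), fl_insert, ← mul_assoc, ← pow_add]
  generalize finrank K (Y ⊓ ker φ : Submodule K W) = p
  generalize finrank K (fl (Y ⊓ ker φ) T) = q
  have : finrank K Y + p + (T.card + p + q) + 1 = (T.card + 1 + finrank K Y + q) + 2 * p := by ring
  rw [← neg_mul, ← mul_neg_one (_ ^ _), ← pow_succ, this, pow_add (-1 : ℤ[X]) _ (2 * p), pow_mul]
  simp

omit [FiniteDimensional K W] in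
lemma loop (h : φ ∈ S) (hl : ∀ y ∈ Y, φ y = 0) : f Y S = 0 := by
  have : Y ⊓ ker φ = Y := inf_eq_left.2 hl
  rw [← insert_erase h, f_ins (notMem_erase _ _), this, ← two_mul, pow_mul]
  simp

lemma dim_ker {y : W} (hy : y ∈ Y) (h : φ y ≠ 0) :
    finrank K Y = finrank K (Y ⊓ ker φ : Submodule K W) + 1 := by
  have h1 := LinearMap.finrank_range_add_finrank_ker (φ.domRestrict Y)
  have h2 : range (φ.domRestrict Y) = ⊤ := by
    rw [eq_top_iff]
    intro x _
    refine ⟨(x * (φ y)⁻¹) • ⟨y, hy⟩, ?_⟩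
    simp [mul_assoc, inv_mul_cancel₀ h]
  have h3 : finrank K (ker (φ.domRestrict Y)) = finrank K (Y ⊓ ker φ : Submodule K W) := by
    rw [ker_domRestrict, ← Submodule.finrank_map_subtype_eq, Submodule.map_comap_subtype]
  rw [h2, finrank_top, finrank_self, h3] at h1
  omega

lemma split (S : Finset (Dual K W)) {y : W} (hy : y ∈ Y) (h : φ y ≠ 0) :
    f Y (insert φ S) = f Y S + f (Y ⊓ ker φ) S := by
  by_cases hS : φ ∈ S
  · rw [insert_eq_of_mem hS, loop (Y := Y ⊓ ker φ) hS (fun y hy => hy.2), add_zero]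
  · rw [f_ins hS, dim_ker hy h, add_right_comm, ← two_mul, pow_succ, pow_mul]
    simp

lemma nn (S : Finset (Dual K W)) : ∀ Y : Submodule K W, NN (f Y S) := by
  induction S using Finset.induction_on with
  | empty => intro Y; rw [f_empty]; exact nn_xp _
  | insert φ S _ ih =>
    intro Y
    by_cases h : ∀ y ∈ Y, φ y = 0
    · rw [loop (mem_insert_self _ _) h]; exact nn_zero
    · push Not at h
      obtain ⟨y, hy, h⟩ := h
      rw [split S hy h]; exact (ih _).add (ih _)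

lemma par (hψ : ψ ∈ S) (h : ∀ y ∈ Y, φ y = ψ y) : f Y (insert φ S) = f Y S := by
  by_cases h0 : ∀ y ∈ Y, φ y = 0
  · rw [loop (mem_insert_self _ _) h0, loop hψ fun y hy => (h y hy).symm.trans (h0 y hy)]
  · push Not at h0
    obtain ⟨y, hy, h0⟩ := h0
    rw [split S hy h0, loop (Y := Y ⊓ ker φ) hψ fun y hy => (h y hy.1).symm.trans hy.2, add_zero]

lemma par_set (T : Finset (Dual K W)) (h : ∀ φ ∈ T, ∃ ψ ∈ S, ∀ y ∈ Y, φ y = ψ y) :
    f Y (T ∪ S) = f Y S := by
  induction T using Finset.induction_on with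
  | empty => simp
  | insert φ T _ ih =>
    obtain ⟨ψ, h1, h2⟩ := h φ (mem_insert_self _ _)
    rw [insert_union, par (mem_union_right _ h1) h2, ih fun φ h' => h φ (mem_insert_of_mem h')]

lemma one_f {y : W} (hy : y ∈ Y) (h : a y ≠ 0) {k : ℕ} (hk : finrank K Y = k + 1) :
    f Y {a} = X ^ k * (X + 1) := by
  have := dim_ker hy h
  rw [← insert_empty_eq, split ∅ hy h, f_empty, f_empty, hk, show finrank K (Y ⊓ ker a : Submodule K W) = k by omega]
  ring

lemma two_f {y z : W} (hy : y ∈ Y) (h : a y ≠ 0) (hz : z ∈ Y) (h1 : a z = 0) (h2 : b z ≠ 0) :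
    ∃ k, finrank K Y = k + 2 ∧ f Y {a, b} = X ^ k * (X + 1) ^ 2 := by
  have e1 := dim_ker hy h
  have e2 := dim_ker (Y := Y ⊓ ker a) (y := z) ⟨hz, h1⟩ h2
  refine ⟨_, by rw [e1, e2], ?_⟩
  rw [split _ hy h, one_f hz h2 e1, one_f (Y := Y ⊓ ker a) (y := z) ⟨hz, h1⟩ h2 e2, e2]
  ring

lemma tri_f (hc : ∀ y ∈ Y, c y = a y + b y) {y z : W} (hy : y ∈ Y) (h : a y ≠ 0) (h' : b y = 0)
    (hz : z ∈ Y) (h1 : a z = 0) (h2 : b z ≠ 0) :
    ∃ k, finrank K Y = k + 2 ∧ f Y {c, a, b} = X ^ k * ((X + 1) * (X + 2)) := by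
  obtain ⟨k, e1, e2⟩ := two_f hy h hz h1 h2
  have h3 : c y ≠ 0 := by rwa [hc y hy, h', add_zero]
  have e3 := dim_ker hy h3
  have h4 : y + z ∈ Y ⊓ ker c := ⟨Y.add_mem hy hz, by
    rw [SetLike.mem_coe, mem_ker, hc _ (Y.add_mem hy hz), map_add, map_add, h1, h', add_zero,
      zero_add]
    exact kn _ _ h h2⟩
  refine ⟨k, e1, ?_⟩
  rw [split _ hy h3, e2, par (ψ := b) (by simp) (fun w hw => by
      have := hc w hw.1
      rw [mem_ker.1 hw.2] at this
      exact kz _ _ this),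
    one_f h4 (by rwa [map_add, h', zero_add]) (k := k) (by omega)]
  ring

omit [FiniteDimensional K W] in
lemma step {y z : W} (hy : y ∈ Y) (h : e y ≠ 0) (hz : z ∈ Y ⊓ ker e) (h' : g z ≠ 0) :
    ∃ w ∈ Y ⊓ ker g, e w ≠ 0 := by
  by_cases h1 : g y = 0
  · exact ⟨y, ⟨hy, h1⟩, h⟩
  · refine ⟨y + z, ⟨Y.add_mem hy hz.1, ?_⟩, by rwa [map_add, mem_ker.1 hz.2, add_zero]⟩
    rw [SetLike.mem_coe, mem_ker, map_add]
    exact kn _ _ h1 h'

lemma K1aux (S0 : Finset (Dual K W)) : ∀ Y : Submodule K W, (∀ y ∈ Y, e y = a y + b y) →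
    (∃ y ∈ Y, e y ≠ 0) → NN (f Y (S0 ∪ {a, b}) - (X + 1) * f (Y ⊓ ker e) (S0 ∪ {a, b})) := by
  induction S0 using Finset.induction_on with
  | empty =>
    rintro Y he ⟨y, hy, h⟩
    rw [empty_union]
    by_cases h0 : ∀ z ∈ Y ⊓ ker e, b z = 0
    · rw [loop (φ := b) (by simp) h0, mul_zero, sub_zero]; exact nn _ _
    push Not at h0
    obtain ⟨z, hz, h0⟩ := h0
    have hab : ∀ w ∈ Y ⊓ ker e, a w = b w := fun w hw => by
      have := he w hw.1
      rw [mem_ker.1 hw.2] at this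
      exact kz _ _ this
    obtain ⟨w, hw, h1⟩ := step hy h hz (g := a) (by rwa [hab z hz])
    obtain ⟨k, e1, e2⟩ := two_f (b := b) hz.1 (by rwa [hab z hz]) hw.1 hw.2
      (by rwa [he w hw.1, mem_ker.1 hw.2, zero_add] at h1)
    have e3 := dim_ker hy h
    rw [e2, par (ψ := b) (by simp) hab, one_f hz h0 (k := k) (by omega)]
    exact nn_zero.of_eq (by ring)
  | insert g S0 _ ih =>
    rintro Y he ⟨y, hy, h⟩
    rw [insert_union]
    by_cases h0 : ∀ z ∈ Y ⊓ ker e, g z = 0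
    · rw [loop (mem_insert_self _ _) h0, mul_zero, sub_zero]; exact nn _ _
    push Not at h0
    obtain ⟨z, hz, h0⟩ := h0
    rw [split _ hz.1 h0, split _ hz h0, inf_right_comm]
    exact ((ih Y he ⟨y, hy, h⟩).add (ih (Y ⊓ ker g) (fun w hw => he w hw.1)
      (step hy h hz h0))).of_eq (by ring)

lemma K1 (ha : a ∈ S) (hb : b ∈ S) (he : ∀ y ∈ Y, e y = a y + b y) {y : W} (hy : y ∈ Y)
    (h : e y ≠ 0) : NN (f Y (insert e S) - (X + 2) * f (Y ⊓ ker e) S) := by
  have := K1aux S Y he ⟨y, hy, h⟩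
  rw [union_eq_left.2 (by simp [insert_subset_iff, ha, hb])] at this
  rw [split S hy h]
  exact this.of_eq (by ring)

lemma K2aux (S0 : Finset (Dual K W)) : ∀ Y : Submodule K W, (∀ y ∈ Y, e y = a y + b y) →
    (∀ y ∈ Y, e y = c y + d y) → (∃ y ∈ Y, e y ≠ 0) →
    NN (f Y (S0 ∪ {d, c, a, b}) - (X + 1) * f (Y ⊓ ker e) (S0 ∪ {d, c, a, b})
      - f (Y ⊓ ker e) (S0 ∪ {a + c, d, c, a, b})) := by
  induction S0 using Finset.induction_on with
  | empty =>
    rintro Y he he' ⟨y, hy, h⟩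
    simp only [empty_union]
    have hab : ∀ w ∈ Y ⊓ ker e, b w = a w := fun w hw => by
      have := he w hw.1
      rw [mem_ker.1 hw.2] at this
      exact (kz _ _ this).symm
    have hcd : ∀ w ∈ Y ⊓ ker e, d w = c w := fun w hw => by
      have := he' w hw.1
      rw [mem_ker.1 hw.2] at this
      exact (kz _ _ this).symm
    by_cases h0 : f (Y ⊓ ker e) {a + c, d, c, a, b} = 0
    · have := K1aux {d, c} Y he ⟨y, hy, h⟩
      rw [h0, sub_zero]
      rwa [insert_union, ← insert_eq] at this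
    have ex : ∀ φ ∈ ({a + c, d, c, a, b} : Finset (Dual K W)), ∃ z ∈ Y ⊓ ker e, φ z ≠ 0 := by
      intro φ hφ
      by_contra hc
      push Not at hc
      exact h0 (loop hφ hc)
    obtain ⟨p, hp, p1, p2⟩ : ∃ p ∈ Y ⊓ ker e, a p ≠ 0 ∧ c p = 0 := by
      obtain ⟨z1, m1, n1⟩ := ex a (by simp)
      obtain ⟨z3, m3, n3⟩ := ex (a + c) (by simp)
      by_cases k : c z1 = 0
      · exact ⟨z1, m1, n1, k⟩
      by_cases k' : c z3 = 0
      · exact ⟨z3, m3, by rwa [LinearMap.add_apply, k', add_zero] at n3, k'⟩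
      refine ⟨z1 + z3, Submodule.add_mem _ m1 m3, ?_, ?_⟩ <;> rw [map_add]
      · exact k6 _ _ _ n1 k' n3
      · exact kn _ _ k k'
    obtain ⟨z2, m2, n2⟩ := ex c (by simp)
    obtain ⟨q, hq, q1⟩ := step m2 n2 (z := p) ⟨hp, p2⟩ p1
    obtain ⟨k, e1, e2⟩ := tri_f (Y := Y ⊓ ker e) (c := a + c) (a := a) (b := c) (fun _ _ => rfl)
      hp p1 p2 hq.1 hq.2 q1
    have e3 : f (Y ⊓ ker e) {a + c, d, c, a, b} = f (Y ⊓ ker e) {a + c, a, c} := by
      rw [← par_set (S := {a + c, a, c}) {d, b} (by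
        simp only [mem_insert, mem_singleton, forall_eq_or_imp, forall_eq]
        exact ⟨⟨c, by simp, hcd⟩, a, by simp, hab⟩)]
      refine congrArg (f _) (Finset.ext fun x => ?_)
      simp only [mem_insert, mem_union, mem_singleton]
      generalize (x = a + c) = p1, (x = d) = p2, (x = c) = p3, (x = a) = p4, (x = b) = p5
      clear * -
      tauto
    have dq : d q ≠ 0 := by rwa [hcd q hq.1]
    obtain ⟨u, hu, u1⟩ := step hy h hq.1 dq
    have pd : p ∈ Y ⊓ ker d := ⟨hp.1, by rw [SetLike.mem_coe, mem_ker, hcd p hp, p2]⟩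
    obtain ⟨v, hv, v1⟩ := step hu u1 (z := p) ⟨pd, hp.2⟩ p1
    have v2 : b v ≠ 0 := by rwa [he v hv.1.1, mem_ker.1 hv.2, zero_add] at v1
    have pb : b p ≠ 0 := by rwa [hab p hp]
    obtain ⟨k', e4, e5⟩ := tri_f (Y := Y ⊓ ker d) (c := c) (a := a) (b := b) (fun w hw => by
        rw [← he w hw.1, he' w hw.1, mem_ker.1 hw.2, add_zero]) (y := p + v)
      (Submodule.add_mem _ pd hv.1) (by rwa [map_add, mem_ker.1 hv.2, add_zero])
      (by rw [map_add]; exact kn _ _ pb v2)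
      hv.1 hv.2 v2
    have d1 := dim_ker hy h
    have d2 := dim_ker hq.1.1 dq
    obtain rfl : k' = k := by omega
    have := K1aux {c} Y he ⟨y, hy, h⟩
    rw [split _ hq.1.1 dq, e3, e2, e5, par (ψ := c) (by simp) hcd]
    rw [← insert_eq] at this
    exact this.of_eq (by ring)
  | insert g S0 _ ih =>
    rintro Y he he' ⟨y, hy, h⟩
    rw [insert_union, insert_union]
    by_cases h0 : ∀ z ∈ Y ⊓ ker e, g z = 0
    · rw [loop (mem_insert_self _ _) h0, loop (mem_insert_self _ _) h0, mul_zero, sub_zero, sub_zero]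
      exact nn _ _
    push Not at h0
    obtain ⟨z, hz, h0⟩ := h0
    rw [split _ hz.1 h0, split _ hz h0, split _ hz h0, inf_right_comm]
    exact ((ih Y he he' ⟨y, hy, h⟩).add (ih (Y ⊓ ker g) (fun w hw => he w hw.1)
      (fun w hw => he' w hw.1) (step hy h hz h0))).of_eq (by ring)

lemma K2 (ha : a ∈ S) (hb : b ∈ S) (hc : c ∈ S) (hd : d ∈ S) (he : ∀ y ∈ Y, e y = a y + b y)
    (he' : ∀ y ∈ Y, e y = c y + d y) {y z : W} (hy : y ∈ Y) (h : e y ≠ 0) (hz : z ∈ Y ⊓ ker e)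
    (h' : a z + c z ≠ 0) : NN (f Y (insert e S) - (X + 3) * f (Y ⊓ ker e) S) := by
  have := K2aux S Y he he' ⟨y, hy, h⟩
  rw [union_insert (a := a + c), union_eq_left.2 (by simp [insert_subset_iff, ha, hb, hc, hd]),
    split (φ := a + c) S hz h'] at this
  rw [split S hy h]
  exact (this.add (nn S (Y ⊓ ker e ⊓ ker (a + c)))).of_eq (by ring)

end Pool.Agent.H4.Arr
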