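import Mathlib

set_option autoImplicit false

namespace Pool.Agent.H4.Braid

open Relation Finset
open scoped Classical

variable {A : Type} (R : A → A → Prop)

def Mv (d : ℕ) (w w' : ℕ → A) : Prop :=
  w d = w (d + 2) ∧ R (w d) (w (d + 1)) ∧ w' d = w (d + 1) ∧ w' (d + 1) = w d ∧
    w' (d + 2) = w (d + 1) ∧ ∀ i, i ≠ d → i ≠ d + 1 → i ≠ d + 2 → w' i = w i

def St (lo hi : ℕ) (w w' : ℕ → A) : Prop := ∃ d, lo ≤ d ∧ d + 2 < hi ∧ Mv R d w w'

abbrev E (lo hi : ℕ) := ReflTransGen (St R lo hi)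

def Good (lo hi : ℕ) (w : ℕ → A) : Prop :=
  ∀ w', E R lo hi w w' → ∀ i, lo ≤ i → i + 1 < hi → w' i ≠ w' (i + 1)

def Pr (s t x o : A) : Prop := (x = s ∧ o = t) ∨ (x = t ∧ o = s)

def Inv (lo hi d : ℕ) (s t : A) (w : ℕ → A) : Prop :=
  ∃ o, Pr s t (w (d + 1)) o ∧ (∃ w', E R lo (d + 1) w w' ∧ w' d = o) ∧
    ∃ w', E R (d + 2) hi w w' ∧ w' (d + 2) = o

def Cen (lo hi : ℕ) (w : ℕ → A) (d : ℕ) : Prop :=
  lo ≤ d ∧ d + 2 < hi ∧ ∃ w1, E R lo hi w w1 ∧ w1 d = w1 (d + 2) ∧ R (w1 d) (w1 (d + 1))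

structure TF : Prop where
  symm : ∀ a b, R a b → R b a
  irr : ∀ a, ¬ R a a
  tri : ∀ a b c, R a b → R b c → R a c → False

variable {R} {lo hi lo' hi' d : ℕ} {w w' v : ℕ → A} {s t : A}

lemma mv_ex (h1 : w d = w (d + 2)) (h2 : R (w d) (w (d + 1))) : ∃ w', Mv R d w w' :=
  ⟨fun i => if i = d ∨ i = d + 2 then w (d + 1) else if i = d + 1 then w d else w i,
    h1, h2, by simp, by simp, by simp, fun i a b c => by simp [a, b, c]⟩

lemma Mv.symm (H : TF R) (h : Mv R d w w') : Mv R d w' w := by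
  obtain ⟨h1, h2, h3, h4, h5, h6⟩ := h
  exact ⟨h3.trans h5.symm, h3 ▸ h4 ▸ H.symm _ _ h2, h4.symm, h3.symm, h1 ▸ h4.symm,
    fun i a b c => (h6 i a b c).symm⟩

lemma E.symm (H : TF R) (h : E R lo hi w w') : E R lo hi w' w := by
  induction h with
  | refl => exact .refl
  | tail _ h ih => obtain ⟨d, a, b, c⟩ := h; exact .head ⟨d, a, b, c.symm H⟩ ih

lemma E.mono (h : E R lo hi w w') (h1 : lo' ≤ lo) (h2 : hi ≤ hi') : E R lo' hi' w w' := by
  induction h with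
  | refl => exact .refl
  | tail _ h ih => obtain ⟨d, a, b, c⟩ := h; exact ih.tail ⟨d, by omega, by omega, c⟩

lemma E.frame (h : E R lo hi w w') (i : ℕ) (hi' : i < lo ∨ hi ≤ i) : w' i = w i := by
  induction h with
  | refl => rfl
  | tail _ h ih =>
    obtain ⟨d, a, b, c⟩ := h
    rw [c.2.2.2.2.2 i (by omega) (by omega) (by omega), ih]

lemma E.triv (h : E R lo hi w w') (h1 : hi ≤ lo + 2) : w' = w := by
  induction h with
  | refl => rfl
  | tail _ h ih => obtain ⟨d, a, b, c⟩ := h; omega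

lemma E.tr (h : E R lo hi w w') (hv : ∀ i, lo ≤ i → i < hi → v i = w i) :
    ∃ v', E R lo hi v v' ∧ ∀ i, lo ≤ i → i < hi → v' i = w' i := by
  induction h with
  | refl => exact ⟨v, .refl, hv⟩
  | tail _ h ih =>
    obtain ⟨d, a, b, h1, h2, h3, h4, h5, h6⟩ := h
    obtain ⟨v', e, hv'⟩ := ih
    have e0 := hv' d a (by omega)
    have e1 := hv' (d + 1) (by omega) (by omega)
    have e2 := hv' (d + 2) (by omega) b
    obtain ⟨v'', g⟩ := mv_ex (R := R) (w := v') (d := d) (by rw [e0, e2, h1]) (by rwa [e0, e1])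
    refine ⟨v'', e.tail ⟨d, a, b, g⟩, fun i i1 i2 => ?_⟩
    obtain ⟨-, -, g3, g4, g5, g6⟩ := g
    by_cases c0 : i = d
    · rw [c0, g3, h3, e1]
    by_cases c1 : i = d + 1
    · rw [c1, g4, h4, e0]
    by_cases c2 : i = d + 2
    · rw [c2, g5, h5, e1]
    rw [g6 i c0 c1 c2, h6 i c0 c1 c2, hv' i i1 i2]

lemma Good.next (h : Good R lo hi w) (e : E R lo hi w w') : Good R lo hi w' :=
  fun _ e' => h _ (e.trans e')

lemma Good.mono (h : Good R lo' hi' w) (h1 : lo' ≤ lo) (h2 : hi ≤ hi') : Good R lo hi w :=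
  fun w' e i a b => h w' (e.mono h1 h2) i (by omega) (by omega)

lemma no4 (h : Good R lo hi w) (a : lo ≤ d) (b : d + 3 < hi) (h1 : w d = w (d + 2))
    (h2 : w (d + 1) = w (d + 3)) (h3 : R (w d) (w (d + 1))) : False := by
  obtain ⟨w', g⟩ := mv_ex h1 h3
  refine h w' (.single ⟨d, a, by omega, g⟩) (d + 2) (by omega) b ?_
  rw [g.2.2.2.2.1, g.2.2.2.2.2 _ (by omega) (by omega) (by omega), h2]

lemma inv_of (h1 : w d = w (d + 2)) : Inv R lo hi d (w (d + 1)) (w d) w :=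
  ⟨w d, Or.inl ⟨rfl, rfl⟩, ⟨w, .refl, rfl⟩, w, .refl, h1.symm⟩

lemma Pr.r (H : TF R) {x o : A} (h : Pr s t x o) (hr : R s t) : R x o := by
  rcases h with ⟨rfl, rfl⟩ | ⟨rfl, rfl⟩
  · exact hr
  · exact H.symm _ _ hr

def AP (R : A → A → Prop) (m : ℕ) : Prop :=
  ∀ lo hi w, hi ≤ lo + m → Good R lo hi w → ∀ d s t, lo ≤ d → d + 2 < hi → R s t →
    Inv R lo hi d s t w → ∀ w2, E R lo hi w w2 → Inv R lo hi d s t w2

lemma touch (h : E R lo hi w w') (i : ℕ) (hne : w' i ≠ w i) :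
    ∃ d, Cen R lo hi w d ∧ (i = d ∨ i = d + 1 ∨ i = d + 2) := by
  induction h with
  | refl => exact (hne rfl).elim
  | @tail b c e h ih =>
    by_cases hb : b i = w i
    · obtain ⟨d, a1, a2, g⟩ := h
      refine ⟨d, ⟨a1, a2, b, e, g.1, g.2.1⟩, ?_⟩
      by_contra hc
      push Not at hc
      exact hne ((g.2.2.2.2.2 i hc.1 hc.2.1 hc.2.2).trans hb)
    · exact ih hb

lemma BL (H : TF R) {m c : ℕ} (hA : AP R m) (hm : c + 1 ≤ lo + m) (hg : Good R lo (c + 1) w)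
    (e : E R lo (c + 1) w w') (hne : w' c ≠ w c) :
    ∃ d, d + 2 = c ∧ Cen R lo (c + 1) w d ∧ R (w c) (w' c) ∧ w (d + 1) = w' c := by
  obtain ⟨d, ⟨a1, a2, w1, e1, g1, g2⟩, hd⟩ := touch e c hne
  obtain rfl : c = d + 2 := by omega
  have k := hA _ _ _ hm (hg.next e1) d _ _ a1 a2 (H.symm _ _ g2) (inv_of g1)
  obtain ⟨o, p, -, u, eu, rfl⟩ := k w (e1.symm H)
  obtain ⟨o', p', -, u', eu', rfl⟩ := k w' ((e1.symm H).trans e)
  rw [eu.triv (by omega)] at p
  rw [eu'.triv (by omega)] at p'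
  have h : w (d + 1) = w' (d + 2) := by
    rcases p with p | p <;> rcases p' with p' | p' <;> grind
  exact ⟨d, rfl, ⟨a1, a2, w1, e1, g1, g2⟩, h ▸ H.symm _ _ (p.r H (H.symm _ _ g2)), h⟩

lemma BR (H : TF R) {m c : ℕ} (hA : AP R m) (hm : hi ≤ c + m) (hg : Good R c hi w)
    (e : E R c hi w w') (hne : w' c ≠ w c) :
    Cen R c hi w c ∧ R (w c) (w' c) ∧ w (c + 1) = w' c := by
  obtain ⟨d, ⟨a1, a2, w1, e1, g1, g2⟩, hd⟩ := touch e c hne
  obtain rfl : c = d := by omega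
  have k := hA _ _ _ hm (hg.next e1) c _ _ a1 a2 (H.symm _ _ g2) (inv_of g1)
  obtain ⟨o, p, ⟨u, eu, rfl⟩, -⟩ := k w (e1.symm H)
  obtain ⟨o', p', ⟨u', eu', rfl⟩, -⟩ := k w' ((e1.symm H).trans e)
  rw [eu.triv (by omega)] at p
  rw [eu'.triv (by omega)] at p'
  have h : w (c + 1) = w' c := by
    rcases p with p | p <;> rcases p' with p' | p' <;> grind
  exact ⟨⟨a1, a2, w1, e1, g1, g2⟩, h ▸ H.symm _ _ (p.r H (H.symm _ _ g2)), h⟩

lemma nadjR (H : TF R) {m : ℕ} (hA : AP R m) (hm : hi ≤ lo + (m + 1)) (hg : Good R lo hi w)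
    (a : lo ≤ d) (b : d + 3 < hi) (hr : R s t) (h : Inv R lo hi d s t w)
    (h1 : w (d + 1) = w (d + 3)) (h2 : R (w (d + 1)) (w (d + 2))) : False := by
  obtain ⟨o, p, ⟨u, eu, rfl⟩, u', eu', e⟩ := h
  have r := p.r H hr
  have h3 : w (d + 2) = u d := by
    by_contra hc
    have := (BR H hA (by omega) (hg.mono (by omega) le_rfl) eu' (by rw [e]; exact Ne.symm hc)).2.1
    exact H.tri _ _ _ h2 (e ▸ this) r
  have f1 := eu.frame (d + 1) (by omega)
  have f2 := eu.frame (d + 2) (by omega)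
  have f3 := eu.frame (d + 3) (by omega)
  exact no4 (hg.next (eu.mono le_rfl (by omega))) a b (by rw [f2, h3]) (by rw [f1, f3, h1])
    (by rw [f1]; exact H.symm _ _ r)

lemma nadjL (H : TF R) {m : ℕ} (hA : AP R m) (hm : hi ≤ lo + (m + 1)) (hg : Good R lo hi w)
    (a : lo ≤ d) (b : d + 3 < hi) (hr : R s t) (h : Inv R lo hi (d + 1) s t w)
    (h1 : w d = w (d + 2)) (h2 : R (w d) (w (d + 1))) : False := by
  obtain ⟨o, p, ⟨u', eu', e⟩, u, eu, rfl⟩ := h
  have r := p.r H hr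
  have h3 : w (d + 1) = u (d + 3) := by
    by_contra hc
    obtain ⟨_, -, -, this, -⟩ := BL H hA (by omega) (hg.mono le_rfl (by omega)) eu'
      (by rw [e]; exact Ne.symm hc)
    exact H.tri _ _ _ h2 (e ▸ this) (h1 ▸ r)
  have f1 := eu.frame (d + 1) (by omega)
  have f2 := eu.frame (d + 2) (by omega)
  have f3 := eu.frame d (by omega)
  exact no4 (hg.next (eu.mono (by omega) le_rfl)) a b (by rw [f2, f3, h1]) (by rw [f1, h3])
    (by rw [f1, f3]; exact h2)

lemma allA (H : TF R) (m : ℕ) : AP R m := by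
  induction m with
  | zero => intro lo hi w _ _ d s t _ _; omega
  | succ m hA =>
    intro lo hi w hm hg d s t a b hr h w2 e
    induction e with
    | refl => exact h
    | @tail v v' e g ih =>
      have hg' := hg.next e
      obtain ⟨c, c1, c2, g⟩ := g
      by_cases k1 : c = d + 1
      · subst k1; exact (nadjR H hA hm hg' a c2 hr ih g.1 g.2.1).elim
      by_cases k2 : d = c + 1
      · subst k2; exact (nadjL H hA hm hg' c1 b hr ih g.1 g.2.1).elim
      obtain ⟨o, p, ⟨u, eu, e1⟩, u', eu', e2⟩ := ih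
      by_cases k3 : c = d
      · subst k3
        have h3 : v c = o := by
          by_contra hc
          obtain ⟨_, -, -, this, -⟩ := BL H hA (by omega) (hg'.mono le_rfl (by omega)) eu
            (by rw [e1]; exact Ne.symm hc)
          exact H.tri _ _ _ g.2.1 (p.r H hr) (e1 ▸ this)
        refine ⟨v (c + 1), ?_, ⟨v', .refl, g.2.2.1⟩, v', .refl, g.2.2.2.2.1⟩
        rw [g.2.2.2.1, h3]
        rcases p with p | p
        · exact Or.inr ⟨p.2, p.1⟩
        · exact Or.inl ⟨p.2, p.1⟩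
      have g6 := g.2.2.2.2.2
      refine ⟨o, by rwa [g6 _ (by omega) (by omega) (by omega)], ?_⟩
      rcases Nat.lt_or_gt_of_ne k3 with k | k
      · obtain ⟨x, ex, hx⟩ := eu'.tr (v := v') fun i _ _ => g6 i (by omega) (by omega) (by omega)
        exact ⟨⟨u, .head ⟨c, c1, by omega, g.symm H⟩ eu, e1⟩, x, ex, (hx _ le_rfl b).trans e2⟩
      · obtain ⟨x, ex, hx⟩ := eu.tr (v := v') fun i _ _ => g6 i (by omega) (by omega) (by omega)
        exact ⟨⟨x, ex, (hx _ a (by omega)).trans e1⟩, u', .head ⟨c, by omega, c2, g.symm H⟩ eu', e2⟩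

/-- the global structure of a braid class -/
structure Str (R : A → A → Prop) (n : ℕ) (w0 : ℕ → A) (s t : ℕ → A) : Prop where
  H : TF R
  g : Good R 0 n w0
  r : ∀ d, Cen R 0 n w0 d → R (s d) (t d)
  inv : ∀ d, Cen R 0 n w0 d → ∀ w, E R 0 n w0 w → Inv R 0 n d (s d) (t d) w

lemma ex_str (H : TF R) {n : ℕ} {w0 : ℕ → A} (g : Good R 0 n w0) : ∃ s t, Str R n w0 s t := by
  have : ∀ d, ∃ s t, Cen R 0 n w0 d → R s t ∧ ∀ w, E R 0 n w0 w → Inv R 0 n d s t w := by
    intro d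
    by_cases h : Cen R 0 n w0 d
    · obtain ⟨a, b, w1, e, g1, g2⟩ := h
      exact ⟨_, _, fun _ => ⟨H.symm _ _ g2, fun w ew => allA H n 0 n w1 (by omega) (g.next e) d _ _
        a b (H.symm _ _ g2) (inv_of g1) w ((e.symm H).trans ew)⟩⟩
    · exact ⟨w0 0, w0 0, fun h' => (h h').elim⟩
  choose s t h using this
  exact ⟨s, t, H, g, fun d hd => (h d hd).1, fun d hd => (h d hd).2⟩

variable {n : ℕ} {w0 : ℕ → A} {S T : ℕ → A}

lemma Cen.up (h : Cen R lo hi w d) (H : E R 0 n w0 w) (h2 : hi ≤ n) : Cen R 0 n w0 d := by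
  obtain ⟨a, b, w1, e, g⟩ := h
  exact ⟨by omega, by omega, w1, H.trans (e.mono (by omega) h2), g⟩

lemma Str.ne (h : Str R n w0 S T) (c : Cen R 0 n w0 d) : S d ≠ T d := fun e =>
  h.H.irr _ (e ▸ h.r d c)

lemma Str.pr (h : Str R n w0 S T) (c : Cen R 0 n w0 d) (e : E R 0 n w0 w) :
    w (d + 1) = S d ∨ w (d + 1) = T d := by
  obtain ⟨o, p, -⟩ := h.inv d c w e
  rcases p with p | p
  · exact Or.inl p.1
  · exact Or.inr p.1

lemma Str.FR (h : Str R n w0 S T) (c : Cen R 0 n w0 d) (e : E R 0 n w0 w) {o : A}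
    (p : Pr (S d) (T d) (w (d + 1)) o) (hne : w (d + 2) ≠ o) :
    Cen R 0 n w0 (d + 2) ∧ w (d + 3) = o := by
  obtain ⟨o', p', -, u, eu, e1⟩ := h.inv d c w e
  have := h.ne c
  obtain rfl : o' = o := by rcases p with p | p <;> rcases p' with p' | p' <;> grind
  have := BR h.H (allA h.H n) (by omega) ((h.g.next e).mono (by omega) le_rfl) eu
    (by rw [e1]; exact hne.symm)
  exact ⟨this.1.up e le_rfl, this.2.2.trans e1⟩

lemma Str.FL (h : Str R n w0 S T) (c : Cen R 0 n w0 d) (e : E R 0 n w0 w) {o : A}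
    (p : Pr (S d) (T d) (w (d + 1)) o) (hne : w d ≠ o) :
    ∃ f, f + 2 = d ∧ Cen R 0 n w0 f ∧ w (f + 1) = o := by
  obtain ⟨o', p', ⟨u, eu, e1⟩, -⟩ := h.inv d c w e
  have := h.ne c
  obtain rfl : o' = o := by rcases p with p | p <;> rcases p' with p' | p' <;> grind
  have hd := c.2.1
  obtain ⟨f, f1, f2, -, f3⟩ := BL h.H (allA h.H n) (by omega) ((h.g.next e).mono le_rfl (by omega)) eu
    (by rw [e1]; exact hne.symm)
  exact ⟨f, f1, f2.up e (by omega), f3.trans e1⟩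

lemma Str.NA (h : Str R n w0 S T) (c : Cen R 0 n w0 d) (c' : Cen R 0 n w0 (d + 1)) : False := by
  obtain ⟨-, b, w1, e, g1, g2⟩ := c'
  exact nadjR h.H (allA h.H n) (by omega) (h.g.next e) (Nat.zero_le d) b (h.r d c)
    (h.inv d c w1 e) g1 g2

lemma Str.PD (h : Str R n w0 S T) (c : Cen R 0 n w0 d) (c' : Cen R 0 n w0 (d + 2))
    (p : Pr (S d) (T d) (S (d + 2)) (T (d + 2))) : False := by
  have c0 := c
  obtain ⟨-, b, w, e, g1, g2⟩ := c
  have b' := c'.2.1
  have q := h.pr c' e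
  have hne := h.ne c0
  have k := h.g w e (d + 2) (by omega) (by omega)
  have k1 := h.g w e (d + 1) (by omega) (by omega)
  obtain ⟨o, p', -⟩ := h.inv d c0 w e
  have k2 : w d = o := by
    by_contra hc
    obtain ⟨o', p'', ⟨u, eu, e1⟩, -⟩ := h.inv _ c0 w e
    obtain rfl : o' = o := by rcases p' with p' | p' <;> rcases p'' with p'' | p'' <;> grind
    obtain ⟨_, -, -, this, -⟩ := BL h.H (allA h.H n) (by omega)
      ((h.g.next e).mono le_rfl (by omega)) eu (by rw [e1]; exact Ne.symm hc)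
    exact h.H.tri _ _ _ g2 (p'.r h.H (h.r _ c0)) (e1 ▸ this)
  refine no4 (h.g.next e) (Nat.zero_le d) (by omega) g1 ?_ g2
  rcases p with p | p <;> rcases p' with p' | p' <;> rcases q with q | q <;> grind

/-- a coherent choice of target letters -/
def Top (R : A → A → Prop) (n : ℕ) (w0 : ℕ → A) (S T τ σ : ℕ → A) : Prop :=
  ∀ d, Cen R 0 n w0 d → Pr (S d) (T d) (τ d) (σ d) ∧
    (Cen R 0 n w0 (d + 2) → τ d ≠ τ (d + 2) ∧ σ d ≠ σ (d + 2))

lemma Top.swap {τ σ : ℕ → A} (h : Top R n w0 S T τ σ) : Top R n w0 S T σ τ := fun d c =>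
  ⟨by rcases (h d c).1 with p | p; exacts [Or.inr ⟨p.2, p.1⟩, Or.inl ⟨p.2, p.1⟩],
    fun c' => ((h d c).2 c').symm⟩

noncomputable def tp (S T : ℕ → A) : ℕ → A × A
  | 0 => (S 0, T 0)
  | 1 => (S 1, T 1)
  | d + 2 => if (tp S T d).1 = S (d + 2) ∨ (tp S T d).2 = T (d + 2) then (T (d + 2), S (d + 2))
      else (S (d + 2), T (d + 2))

lemma tp_pr (S T : ℕ → A) (d : ℕ) : Pr (S d) (T d) (tp S T d).1 (tp S T d).2 := by
  rcases d with _ | _ | d
  · exact Or.inl ⟨rfl, rfl⟩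
  · exact Or.inl ⟨rfl, rfl⟩
  · rw [tp]; split_ifs
    · exact Or.inr ⟨rfl, rfl⟩
    · exact Or.inl ⟨rfl, rfl⟩

lemma Str.top (h : Str R n w0 S T) : ∃ τ σ, Top R n w0 S T τ σ := by
  refine ⟨fun d => (tp S T d).1, fun d => (tp S T d).2, fun d c => ⟨tp_pr S T d, fun c' => ?_⟩⟩
  have p := tp_pr S T d
  have q := h.PD c c'
  have n1 := h.ne c
  have n2 := h.ne c'
  simp only [tp]
  unfold Pr at p q
  split_ifs with k <;> simp only <;> grind

/-- number of centres not yet at their target -/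
noncomputable def ht (R : A → A → Prop) (n : ℕ) (w0 τ w : ℕ → A) : ℕ :=
  ((range n).filter (fun d => Cen R 0 n w0 d ∧ w (d + 1) ≠ τ d)).card

lemma Str.other (h : Str R n w0 S T) (e : E R 0 n w0 w) (a : d + 2 < n) (g : Mv R d w w') (f : ℕ)
    (c : Cen R 0 n w0 f) (hf : f ≠ d) : w' (f + 1) = w (f + 1) := by
  have c0 : Cen R 0 n w0 d := ⟨Nat.zero_le _, a, w, e, g.1, g.2.1⟩
  refine g.2.2.2.2.2 _ ?_ (by omega) ?_
  · rintro rfl; exact h.NA c c0
  · intro k
    obtain rfl : f = d + 1 := by omega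
    exact h.NA c0 c

lemma Str.lip (h : Str R n w0 S T) (τ : ℕ → A) (e : E R 0 n w0 w) (g : St R 0 n w w') :
    ht R n w0 τ w' ≤ ht R n w0 τ w + 1 := by
  obtain ⟨d, -, a, g⟩ := g
  refine le_trans (card_le_card (t := insert d _) ?_) (card_insert_le _ _)
  intro f hf
  rw [mem_insert]
  by_cases k : f = d
  · exact Or.inl k
  · right
    rw [mem_filter] at hf ⊢
    exact ⟨hf.1, hf.2.1, h.other e a g f hf.2.1 k ▸ hf.2.2⟩

lemma Str.down (h : Str R n w0 S T) {τ σ : ℕ → A} (ht' : Top R n w0 S T τ σ) (e : E R 0 n w0 w)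
    (hp : 0 < ht R n w0 τ w) : ∃ w', St R 0 n w w' ∧ ht R n w0 τ w' + 1 = ht R n w0 τ w := by
  have hpr : ∀ d, Cen R 0 n w0 d → w (d + 1) ≠ τ d → Pr (S d) (T d) (w (d + 1)) (τ d) ∧
      w (d + 1) = σ d := by
    intro d c k
    have := h.pr c e
    have := (ht' d c).1
    unfold Pr at *
    grind
  obtain ⟨d0, hd0, hmin⟩ := exists_min_image _ id (card_pos.1 hp)
  simp only [mem_filter, mem_range, id] at hd0 hmin
  obtain ⟨d, hd, hmax⟩ := exists_max_image
    ((range n).filter (fun d => (Cen R 0 n w0 d ∧ w (d + 1) ≠ τ d) ∧ w d = τ d)) id ⟨d0, by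
      simp only [mem_filter, mem_range]
      refine ⟨hd0.1, hd0.2, ?_⟩
      by_contra k
      obtain ⟨f, rfl, f2, f3⟩ := h.FL hd0.2.1 e (hpr _ hd0.2.1 hd0.2.2).1 k
      have := hmin f ⟨by omega, f2, f3 ▸ ((ht' f f2).2 hd0.2.1).1.symm⟩
      omega⟩
  simp only [mem_filter, mem_range, id] at hd hmax
  obtain ⟨d1, ⟨c, d2⟩, d3⟩ := hd
  obtain ⟨p, p'⟩ := hpr d c d2
  have d4 : w (d + 2) = τ d := by
    by_contra k
    obtain ⟨c', f3⟩ := h.FR c e p k
    have k1 : w (d + 2 + 1) ≠ τ (d + 2) := f3 ▸ ((ht' d c).2 c').1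
    obtain ⟨q, q'⟩ := hpr _ c' k1
    have k2 : w (d + 2) = τ (d + 2) := by
      by_contra k3
      obtain ⟨f, f1, -, f4⟩ := h.FL c' e q k3
      obtain rfl : f = d := by omega
      refine h.PD c c' ?_
      unfold Pr at *
      grind
    have := hmax (d + 2) ⟨by have := c'.2.1; omega, ⟨c', k1⟩, k2⟩
    omega
  obtain ⟨w', g⟩ := mv_ex (R := R) (d3.trans d4.symm) (d3 ▸ h.H.symm _ _ (p.r h.H (h.r d c)))
  refine ⟨w', ⟨d, Nat.zero_le _, c.2.1, g⟩, ?_⟩
  unfold ht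
  rw [← card_insert_of_notMem (a := d) (by simp [g.2.2.2.1, d3])]
  congr 1
  ext f
  simp only [mem_insert, mem_filter, mem_range]
  by_cases k : f = d
  · simp [k, d1, c, d2]
  · simp only [k, false_or]
    exact and_congr_right fun _ => and_congr_right fun c' => by rw [h.other e c.2.1 g f c' k]

lemma Str.sum (h : Str R n w0 S T) {τ σ : ℕ → A} (ht' : Top R n w0 S T τ σ) (e : E R 0 n w0 w) :
    ht R n w0 τ w + ht R n w0 σ w = ((range n).filter (Cen R 0 n w0)).card := by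
  unfold ht
  rw [← card_filter_add_card_filter_not (s := (range n).filter (Cen R 0 n w0))
    (fun d => w (d + 1) ≠ τ d), filter_filter, filter_filter]
  congr 2
  refine filter_congr fun d _ => and_congr_right fun c => ?_
  have := h.pr c e
  have := (ht' d c).1
  have := h.ne c
  unfold Pr at *
  grind

lemma Str.det (h : Str R n w0 S T) (e : E R 0 n w0 w) (e' : E R 0 n w0 w')
    (k : ∀ d, Cen R 0 n w0 d → w (d + 1) = w' (d + 1)) : w = w' := by
  have ho : ∀ d, Cen R 0 n w0 d → ∃ o, Pr (S d) (T d) (w (d + 1)) o := fun d c => by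
    obtain ⟨o, p, -⟩ := h.inv d c w e
    exact ⟨o, p⟩
  have key : ∀ d, Cen R 0 n w0 d → w (d + 2) = w' (d + 2) := by
    intro d c
    obtain ⟨o, p⟩ := ho d c
    have p' := k d c ▸ p
    have aux : ∀ u, E R 0 n w0 u → Pr (S d) (T d) (u (d + 1)) o → Cen R 0 n w0 (d + 2) →
        u (d + 3) = o → ∀ o', Pr (S (d + 2)) (T (d + 2)) o o' → u (d + 2) = o' := by
      intro u eu pu c' k1 o' q
      by_contra k3
      obtain ⟨f, f1, -, f4⟩ := h.FL c' eu (k1 ▸ q) k3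
      obtain rfl : f = d := by omega
      refine h.PD c c' ?_
      unfold Pr at *
      grind
    by_cases a : w (d + 2) = o
    · by_cases a' : w' (d + 2) = o
      · rw [a, a']
      · obtain ⟨c', f3⟩ := h.FR c e' p' a'
        exact (h.g w e (d + 2) (by omega) (by have := c'.2.1; omega)
          (a.trans (f3.symm.trans (k _ c').symm))).elim
    · obtain ⟨c', f3⟩ := h.FR c e p a
      obtain ⟨o', q⟩ := ho _ c'
      rw [aux w e p c' f3 o' (f3 ▸ q), aux w' e' p' c' ((k _ c').symm.trans f3) o' (f3 ▸ q)]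
  funext i
  by_contra hne
  obtain ⟨d, c, hd⟩ := touch ((e'.symm h.H).trans e) i hne
  replace c := c.up e' le_rfl
  rcases hd with rfl | rfl | rfl
  · obtain ⟨o, p⟩ := ho i c
    by_cases a : w i = o
    · obtain ⟨f, rfl, f2, -⟩ := h.FL c e' (k i c ▸ p) (fun a' => hne (a.trans a'.symm))
      exact hne (key f f2)
    · obtain ⟨f, rfl, f2, -⟩ := h.FL c e p a
      exact hne (key f f2)
  · exact hne (k d c)
  · exact hne (key d c)

lemma Str.det0 (h : Str R n w0 S T) (τ : ℕ → A) (e : E R 0 n w0 w) (e' : E R 0 n w0 w')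
    (k : ht R n w0 τ w = 0) (k' : ht R n w0 τ w' = 0) : w = w' := by
  refine h.det e e' fun d c => ?_
  have a := filter_eq_empty_iff.1 (card_eq_zero.1 k) (mem_range.2 (show d < n by have := c.2.1; omega))
  have b := filter_eq_empty_iff.1 (card_eq_zero.1 k') (mem_range.2 (show d < n by have := c.2.1; omega))
  simp only [c, true_and, not_not] at a b
  rw [a, b]

/-- the abstract geodetic theorem -/
theorem geod {Y : Type} (G : SimpleGraph Y) (f : Y → ℕ → A) (H : TF R) (y0 : Y)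
    (g : Good R 0 n (f y0)) (inj : Function.Injective f)
    (h1 : ∀ y y', G.Reachable y0 y → G.Adj y y' → St R 0 n (f y) (f y'))
    (h2 : ∀ y x, G.Reachable y0 y → St R 0 n (f y) x → ∃ y', G.Adj y y' ∧ f y' = x) :
    ∃ u v, G.Reachable y0 u ∧ G.Reachable y0 v ∧ ∀ y, G.Reachable y0 y →
      ∃ p : G.Walk u v, p.length = G.dist u v ∧ y ∈ p.support := by
  obtain ⟨S, T, h⟩ := ex_str H g
  obtain ⟨τ, σ, htp⟩ := h.top
  have hE : ∀ y, G.Reachable y0 y → E R 0 n (f y0) (f y) := by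
    intro y hy
    rw [SimpleGraph.reachable_iff_reflTransGen] at hy
    induction hy with
    | refl => exact .refl
    | tail a b ih => exact ih.tail (h1 _ _ ((SimpleGraph.reachable_iff_reflTransGen _ _).2 a) b)
  have go : ∀ τ σ, Top R n (f y0) S T τ σ → ∀ k y, G.Reachable y0 y → ht R n (f y0) τ (f y) = k →
      ∃ u, ∃ p : G.Walk y u, p.length = k ∧ ht R n (f y0) τ (f u) = 0 := by
    intro τ σ htp k
    induction k with
    | zero => exact fun y _ hk => ⟨y, .nil, rfl, hk⟩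
    | succ k ih =>
      intro y hy hk
      obtain ⟨x, a, b⟩ := h.down htp (hE y hy) (by omega)
      obtain ⟨y', a', rfl⟩ := h2 y x hy a
      obtain ⟨u, p, c, c'⟩ := ih y' (hy.trans a'.reachable) (by omega)
      exact ⟨u, .cons a' p, by simp [c], c'⟩
  have lip : ∀ a b (p : G.Walk a b), G.Reachable y0 a →
      ht R n (f y0) τ (f b) ≤ ht R n (f y0) τ (f a) + p.length := by
    intro a b p
    induction p with
    | nil => simp
    | cons hab p ih =>
      intro ha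
      have := ih (ha.trans hab.reachable)
      have := h.lip τ (hE _ ha) (h1 _ _ ha hab)
      simp only [SimpleGraph.Walk.length_cons]; omega
  obtain ⟨u, pu, -, hu⟩ := go τ σ htp _ y0 .rfl rfl
  obtain ⟨v, pv, -, hv⟩ := go σ τ htp.swap _ y0 .rfl rfl
  refine ⟨u, v, ⟨pu⟩, ⟨pv⟩, fun y hy => ?_⟩
  obtain ⟨u', p, a, hu'⟩ := go τ σ htp _ y hy rfl
  obtain ⟨v', q, b, hv'⟩ := go σ τ htp.swap _ y hy rfl
  obtain rfl : u' = u := inj (h.det0 τ (hE _ (hy.trans ⟨p⟩)) (hE _ ⟨pu⟩) hu' hu)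
  obtain rfl : v' = v := inj (h.det0 σ (hE _ (hy.trans ⟨q⟩)) (hE _ ⟨pv⟩) hv' hv)
  refine ⟨p.reverse.append q, le_antisymm ?_ (SimpleGraph.dist_le _), by simp⟩
  obtain ⟨r, hr⟩ := (SimpleGraph.Reachable.symm ⟨p⟩).trans ⟨q⟩ |>.exists_walk_length_eq_dist
  have := lip _ _ r ⟨pu⟩
  have := h.sum htp (hE _ hy)
  have := h.sum htp (hE _ ⟨pv⟩)
  simp only [SimpleGraph.Walk.length_append, SimpleGraph.Walk.length_reverse]
  omega

end Pool.Agent.H4.Braid
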