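import Mathlib

set_option autoImplicit false

open Finset Filter Topology

namespace Pool.Agent.H4.CapEq

lemma generic {V : Type} [Fintype V] (P : Finset V → Prop) (φ0 : V → ℝ) (h0 : ∀ v, 0 < φ0 v)
    (h1 : ∀ S, P S → ∑ v ∈ S, φ0 v = 1)
    (h2 : ∀ T, ¬ P T → ∃ ψ : V → ℝ, (∀ S, P S → ∑ v ∈ S, ψ v = 1) ∧ ∑ v ∈ T, ψ v ≠ 1) :
    ∃ φ : V → ℝ, (∀ v, 0 < φ v) ∧ ∀ S, P S ↔ ∑ v ∈ S, φ v = 1 := by
  classical
  have key : ∀ B : Finset (Finset V), ∃ φ : V → ℝ, (∀ v, 0 < φ v) ∧
      (∀ S, P S → ∑ v ∈ S, φ v = 1) ∧ ∀ T ∈ B, ¬ P T → ∑ v ∈ T, φ v ≠ 1 := by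
    intro B
    induction B using Finset.induction_on with
    | empty => exact ⟨φ0, h0, h1, by simp⟩
    | insert T B _ ih =>
      obtain ⟨φ, h3, h4, h5⟩ := ih
      by_cases h6 : ¬ P T → ∑ v ∈ T, φ v ≠ 1
      · exact ⟨φ, h3, h4, by simpa using ⟨h6, h5⟩⟩
      push Not at h6
      obtain ⟨ψ, h7, h8⟩ := h2 T h6.1
      have e : ∀ (t : ℝ) (S : Finset V), ∑ v ∈ S, (φ v + t * (ψ v - φ v)) =
          ∑ v ∈ S, φ v + t * (∑ v ∈ S, ψ v - ∑ v ∈ S, φ v) := by
        intro t S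
        rw [sum_add_distrib, ← mul_sum, sum_sub_distrib]
      have c : ∀ a b : ℝ, Tendsto (fun t : ℝ => a + t * b) (𝓝[≠] 0) (𝓝 a) := fun a b =>
        tendsto_nhdsWithin_of_tendsto_nhds (by
          simpa using (by fun_prop : Continuous fun t : ℝ => a + t * b).tendsto 0)
      have e1 : ∀ᶠ t in 𝓝[≠] (0 : ℝ), ∀ v, 0 < φ v + t * (ψ v - φ v) :=
        eventually_all.2 fun v => (c _ _).eventually (lt_mem_nhds (h3 v))
      have e2 : ∀ᶠ t in 𝓝[≠] (0 : ℝ), ∀ S ∈ B, ¬ P S →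
          ∑ v ∈ S, φ v + t * (∑ v ∈ S, ψ v - ∑ v ∈ S, φ v) ≠ 1 := by
        refine (eventually_all_finset B).2 fun S hS => ?_
        by_cases h9 : P S
        · simp [h9]
        · exact ((c _ _).eventually_ne (h5 S hS h9)).mono fun t h _ => h
      obtain ⟨t, ⟨h9, h10⟩, h11⟩ := ((e1.and e2).and self_mem_nhdsWithin).exists
      refine ⟨_, h9, fun S hS => by rw [e, h4 S hS, h7 S hS]; ring, fun S hS => ?_⟩
      rw [e]
      rcases mem_insert.1 hS with rfl | hS
      · intro _ h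
        rw [h6.2, add_eq_left, mul_eq_zero, sub_eq_zero] at h
        exact h.elim h11 h8
      · exact h10 S hS
  obtain ⟨φ, h3, h4, h5⟩ := key univ
  exact ⟨φ, h3, fun S => ⟨h4 S, fun h => by_contra fun h6 => h5 S (mem_univ _) h6 h⟩⟩

variable {E : Type} [Fintype E] [DecidableEq E] (G : SimpleGraph E) [DecidableRel G.Adj]

abbrev Pr : Type := {p : (E × Fin 5) × (E × Fin 5) // p.1 ≠ p.2 ∧ ¬ G.Adj p.1.1 p.2.1}

abbrev W : Type := (E × Fin 5) ⊕ Pr G

def Inc : W G → Pr G → Prop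
  | .inl x, p => x = p.1.1 ∨ x = p.1.2
  | .inr q, p => q = p

def X : SimpleGraph (W G) where
  Adj u v := u ≠ v ∧ ∃ p, Inc G u p ∧ Inc G v p
  symm := ⟨fun _ _ ⟨h, p, h1, h2⟩ => ⟨h.symm, p, h2, h1⟩⟩
  loopless := ⟨fun _ h => h.1 rfl⟩

variable {G}

omit [Fintype E] [DecidableEq E] [DecidableRel G.Adj] in
lemma adj_ll {x y : E × Fin 5} : (X G).Adj (.inl x) (.inl y) ↔ x ≠ y ∧ ¬ G.Adj x.1 y.1 := by
  constructor
  · rintro ⟨h, p, h1 | h1, h2 | h2⟩
    · exact (h (by rw [h1, h2])).elim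
    · rw [h1, h2]
      exact p.2
    · rw [h1, h2]
      exact ⟨p.2.1.symm, fun h => p.2.2 h.symm⟩
    · exact (h (by rw [h1, h2])).elim
  · exact fun h => ⟨fun e => h.1 (Sum.inl.inj e), ⟨(x, y), h⟩, Or.inl rfl, Or.inr rfl⟩

omit [Fintype E] [DecidableEq E] [DecidableRel G.Adj] in
lemma adj_r {v : W G} {p : Pr G} : (X G).Adj v (.inr p) ↔ v = .inl p.1.1 ∨ v = .inl p.1.2 := by
  constructor
  · rintro ⟨h, q, h1, rfl : p = q⟩
    rcases v with x | r
    · exact h1.imp (congrArg _) (congrArg _)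
    · exact (h (congrArg _ h1)).elim
  · rintro (rfl | rfl)
    · exact ⟨by simp, p, Or.inl rfl, rfl⟩
    · exact ⟨by simp, p, Or.inr rfl, rfl⟩

omit [Fintype E] [DecidableEq E] [DecidableRel G.Adj] in
lemma ex_inc (v : W G) : ∃ p, Inc G v p := by
  rcases v with ⟨e, i⟩ | p
  · exact ⟨⟨((e, i), (e, i + 1)), by simp, by simp⟩, Or.inl rfl⟩
  · exact ⟨p, rfl⟩

lemma eqX [Nonempty E] : ∃ φ : W G → ℝ, (∀ v, 0 < φ v) ∧ ∀ S : Finset (W G),
    Maximal (fun s : Finset (W G) => (X G).IsIndepSet (s : Set (W G))) S ↔ ∑ v ∈ S, φ v = 1 := by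
  classical
  have h1 : ∀ (p : Pr G) (S : Finset (W G)),
      Maximal (fun s : Finset (W G) => (X G).IsIndepSet (s : Set (W G))) S →
      ∑ v ∈ S, (if Inc G v p then (1 : ℝ) else 0) = 1 := by
    intro p S hS
    rw [sum_boole, Nat.cast_eq_one, card_eq_one_iff_existsUnique]
    simp only [mem_filter]
    refine existsUnique_of_exists_of_unique ?_ fun u v hu hv =>
      by_contra fun h => hS.1 hu.1 hv.1 h ⟨h, p, hu.2, hv.2⟩
    by_contra h
    push Not at h
    refine h (.inr p) (hS.2 (y := insert (.inr p) S) ?_ (subset_insert _ _)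
      (mem_insert_self _ _)) rfl
    beta_reduce
    rw [coe_insert]
    refine Set.Pairwise.insert hS.1 fun v hv _ => ?_
    have : ¬ (X G).Adj v (.inr p) := by
      rintro ⟨-, q, h2, rfl : p = q⟩
      exact h v hv h2
    exact ⟨fun h => this h.symm, this⟩
  obtain ⟨p0, -⟩ := ex_inc (G := G) (.inl (Classical.arbitrary E, 0))
  have hc : (0 : ℝ) < Fintype.card (Pr G) := by exact_mod_cast Fintype.card_pos_iff.2 ⟨p0⟩
  refine generic _ (fun v => (∑ p, if Inc G v p then (1 : ℝ) else 0) / Fintype.card (Pr G))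
    (fun v => div_pos ?_ hc) (fun S hS => ?_) fun T hT => ?_
  · obtain ⟨p, hp⟩ := ex_inc v
    exact sum_pos' (fun q _ => by positivity) ⟨p, mem_univ _, by simp [hp]⟩
  · rw [← sum_div, sum_comm, sum_congr rfl fun p _ => h1 p S hS, div_eq_one_iff_eq hc.ne']
    simp
  · by_contra h
    push Not at h
    have h2 : ∀ p, ∃! v, v ∈ T ∧ Inc G v p := fun p => by
      simpa only [sum_boole, Nat.cast_eq_one, card_eq_one_iff_existsUnique, mem_filter] using
        h _ (h1 p)
    refine hT ⟨fun u hu v hv huv ⟨_, p, h3, h4⟩ => huv ((h2 p).unique ⟨hu, h3⟩ ⟨hv, h4⟩),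
      fun S hS hTS v hv => ?_⟩
    obtain ⟨p, hp⟩ := ex_inc v
    obtain ⟨u, hu, h3⟩ := (h2 p).exists
    by_contra h4
    have : u ≠ v := fun e => h4 (e ▸ hu)
    exact hS (hTS hu) hv this ⟨this, p, h3, hp⟩

def tri (p : Pr G) : Finset (W G) := {.inl p.1.1, .inl p.1.2, .inr p}

def blow (S : Finset E) : Finset (W G) := (S ×ˢ univ).map Function.Embedding.inl

omit [Fintype E] [DecidableEq E] [DecidableRel G.Adj] in
lemma mem_blow {S : Finset E} {v : W G} : v ∈ blow S ↔ ∃ x : E × Fin 5, x.1 ∈ S ∧ .inl x = v := by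
  simp [blow]

omit [Fintype E] [DecidableRel G.Adj] in
lemma tri_clique (p : Pr G) : (X G).IsClique (tri p : Set (W G)) := by
  have h1 := (adj_ll (G := G)).2 p.2
  have h2 := (adj_r (p := p)).2 (Or.inl rfl)
  have h3 := (adj_r (p := p)).2 (Or.inr rfl)
  intro u hu v hv huv
  simp only [tri, coe_insert, coe_singleton, Set.mem_insert_iff, Set.mem_singleton_iff] at hu hv
  rcases hu with rfl | rfl | rfl <;> rcases hv with rfl | rfl | rfl <;>
    first | exact absurd rfl huv | assumption | (symm; assumption)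

omit [Fintype E] [DecidableRel G.Adj] in
lemma sub_tri {p : Pr G} {S : Finset (W G)} (hS : (X G).IsClique (S : Set (W G)))
    (h : .inr p ∈ S) : S ⊆ tri p := by
  intro v hv
  by_cases e : v = .inr p
  · simp [tri, e]
  · rcases adj_r.1 (hS hv h e) with h | h <;> simp [tri, h]

omit [Fintype E] [DecidableEq E] [DecidableRel G.Adj] in
lemma blow_clique {S : Finset E} (hS : G.IsIndepSet (S : Set E)) :
    (X G).IsClique (blow (G := G) S : Set (W G)) := by
  intro u hu v hv huv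
  obtain ⟨x, hx, rfl⟩ := mem_blow.1 hu
  obtain ⟨y, hy, rfl⟩ := mem_blow.1 hv
  exact adj_ll.2 ⟨fun e => huv (congrArg _ e), fun h => hS hx hy h.ne h⟩

omit [Fintype E] [DecidableRel G.Adj] in
lemma blow_max {S : Finset E} (hS : Maximal (fun s : Finset E => G.IsIndepSet (s : Set E)) S)
    (h : S.Nonempty) :
    Maximal (fun s : Finset (W G) => (X G).IsClique (s : Set (W G))) (blow S) := by
  refine ⟨blow_clique hS.1, fun K hK hle v hv => ?_⟩
  have h1 : ∀ e ∈ S, ∀ i, .inl (e, i) ∈ K := fun e he i => hle (mem_blow.2 ⟨(e, i), he, rfl⟩)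
  rcases v with y | p
  · refine mem_blow.2 ⟨y, hS.2 (y := insert y.1 S) ?_ (subset_insert _ _)
      (mem_insert_self _ _), rfl⟩
    beta_reduce
    rw [coe_insert]
    refine Set.Pairwise.insert hS.1 fun e he hne => ?_
    have := (adj_ll.1 (hK hv (h1 e he 0) fun h => hne (congrArg Prod.fst (Sum.inl.inj h)))).2
    exact ⟨this, fun h => this h.symm⟩
  · obtain ⟨e, he⟩ := h
    have h2 := fun i => adj_r.1 (hK (h1 e he i) hv (by simp))
    rcases h2 0 with a | a <;> rcases h2 1 with b | b <;> rcases h2 2 with c | c <;>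
      first | simpa using a.trans b.symm | simpa using a.trans c.symm | simpa using b.trans c.symm

omit [DecidableRel G.Adj] in
lemma classify {K : Finset (W G)}
    (hK : Maximal (fun s : Finset (W G) => (X G).IsClique (s : Set (W G))) K) :
    (∃ p, K = tri p) ∨
      ∃ S, Maximal (fun s : Finset E => G.IsIndepSet (s : Set E)) S ∧ K = blow S := by
  classical
  by_cases h : ∃ p, .inr p ∈ K
  · obtain ⟨p, h⟩ := h
    exact Or.inl ⟨p, hK.eq_of_le (tri_clique p) (sub_tri hK.1 h)⟩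
  · have h1 : G.IsIndepSet ((univ.filter fun e => ∃ i, Sum.inl (e, i) ∈ K : Finset E) : Set E) := by
      intro e he f hf hef
      simp only [coe_filter, mem_univ, true_and, Set.mem_ofPred_eq] at he hf
      obtain ⟨i, hi⟩ := he
      obtain ⟨j, hj⟩ := hf
      exact (adj_ll.1 (hK.1 hi hj (by simp [hef]))).2
    obtain ⟨S, h2, h3⟩ := Finite.exists_le_maximal
      (p := fun s : Finset E => G.IsIndepSet (s : Set E)) h1
    refine Or.inr ⟨S, h3, hK.eq_of_le (blow_clique h3.1) fun v hv => ?_⟩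
    rcases v with x | p
    · exact mem_blow.2 ⟨x, h2 (mem_filter.2 ⟨mem_univ _, x.2, hv⟩), rfl⟩
    · exact (h ⟨p, hv⟩).elim

def ext (f : E × Fin 5 → ℝ) : W G → ℝ
  | .inl x => f x
  | .inr p => 1 - f p.1.1 - f p.1.2

lemma eqC {φ : E → ℝ} (h0 : ∀ e, 0 < φ e) (hφ : ∀ S : Finset E,
    Maximal (fun s : Finset E => G.IsIndepSet (s : Set E)) S ↔ ∑ v ∈ S, φ v = 1) :
    ∃ ψ : W G → ℝ, (∀ v, 0 < ψ v) ∧ ∀ S : Finset (W G),
    Maximal (fun s : Finset (W G) => (X G).IsClique (s : Set (W G))) S ↔ ∑ v ∈ S, ψ v = 1 := by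
  classical
  have hb : ∀ f : E × Fin 5 → ℝ, (∀ e, ∑ i, f (e, i) = φ e) → ∀ S : Finset E,
      ∑ v ∈ blow (G := G) S, ext f v = ∑ e ∈ S, φ e := fun f hf S => by
    rw [blow, sum_map, sum_product]
    exact sum_congr rfl fun e _ => hf e
  have h1 : ∀ f : E × Fin 5 → ℝ, (∀ e, ∑ i, f (e, i) = φ e) → ∀ K : Finset (W G),
      Maximal (fun s : Finset (W G) => (X G).IsClique (s : Set (W G))) K →
      ∑ v ∈ K, ext f v = 1 := by
    intro f hf K hK
    rcases classify hK with ⟨p, rfl⟩ | ⟨S, hS, rfl⟩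
    · rw [tri, sum_insert (by simp [p.2.1]), sum_insert (by simp), sum_singleton]
      simp [ext]
    · rw [hb f hf, (hφ S).1 hS]
  have h2 : ∀ e, φ e ≤ 1 := fun e => by
    obtain ⟨S, h2, h3⟩ := Finite.exists_le_maximal
      (p := fun s : Finset E => G.IsIndepSet (s : Set E)) (a := {e}) (by simp)
    rw [← (hφ S).1 h3]
    exact single_le_sum (fun v _ => (h0 v).le) (h2 (mem_singleton_self e))
  have h3 : ∀ e, ∑ i : Fin 5, (fun x : E × Fin 5 => φ x.1 / 5) (e, i) = φ e :=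
    fun e => by simp; ring
  have h4 : ∀ p : Pr G, 3 / 5 ≤ ext (fun x => φ x.1 / 5) (.inr p) := fun p => by
    have := h2 p.1.1.1
    have := h2 p.1.2.1
    simp only [ext]
    linarith
  have h5 : ∀ v : W G, 0 < ext (fun x => φ x.1 / 5) v := by
    rintro (x | p)
    · exact div_pos (h0 _) (by norm_num)
    · exact lt_of_lt_of_le (by norm_num) (h4 p)
  refine generic _ _ h5 (h1 (fun x => φ x.1 / 5) h3) fun T hT => ?_
  by_contra h
  push Not at h
  have h6 := h _ (h1 (fun x => φ x.1 / 5) h3)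
  have lin : ∀ f : E × Fin 5 → ℝ, ∑ v ∈ T, ext f v =
      ∑ x ∈ T.toLeft, f x + ∑ p ∈ T.toRight, (1 - f p.1.1 - f p.1.2) := fun f => by
    conv_lhs => rw [← toLeft_disjSum_toRight (u := T), sum_disjSum]
    rfl
  have h7 : ∀ e i j, ∑ x ∈ T.toLeft, ((if x = (e, i) then (1 : ℝ) else 0) -
      if x = (e, j) then 1 else 0) = ∑ p ∈ T.toRight,
      (((if p.1.1 = (e, i) then (1 : ℝ) else 0) - if p.1.1 = (e, j) then 1 else 0) +
      ((if p.1.2 = (e, i) then (1 : ℝ) else 0) - if p.1.2 = (e, j) then 1 else 0)) := by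
    intro e i j
    have h7 := h _ (h1 (fun x => φ x.1 / 5 + ((if x = (e, i) then (1 : ℝ) else 0) -
      if x = (e, j) then 1 else 0)) fun a => by
        rw [sum_add_distrib, h3, sum_sub_distrib]
        by_cases h : a = e <;> simp [h])
    rw [lin, sum_add_distrib] at h7
    rw [lin] at h6
    replace h7 := h7.trans h6.symm
    rw [add_assoc, add_right_inj, ← eq_sub_iff_add_eq, ← sum_sub_distrib] at h7
    rw [h7]
    exact sum_congr rfl fun p _ => by ring
  simp only [sum_sub_distrib, sum_ite_eq', mem_toLeft] at h7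
  have h8 : #T.toRight ≤ 1 := by
    by_contra h8
    obtain ⟨p, hp, q, hq, hpq⟩ := one_lt_card.1 (not_le.1 h8)
    have := sum_le_sum_of_subset_of_nonneg (s := {.inr p, .inr q}) (t := T)
      (f := ext fun x => φ x.1 / 5) (by
        simpa [insert_subset_iff] using ⟨mem_toRight.1 hp, mem_toRight.1 hq⟩)
      fun v _ _ => (h5 v).le
    rw [sum_pair (by simpa using hpq), h6] at this
    linarith [h4 p, h4 q]
  rcases (Nat.le_one_iff_eq_zero_or_eq_one.1 h8).imp card_eq_zero.1 card_eq_one.1 with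
    h9 | ⟨p, h9⟩
  · have e : T = blow (univ.filter fun e => Sum.inl (e, 0) ∈ T) := by
      ext v
      rw [mem_blow]
      have h10 : ∀ e i, Sum.inl (e, i) ∈ T ↔ Sum.inl (e, 0) ∈ T := fun e i => by
        have := h7 e i 0
        rw [h9, sum_empty] at this
        by_cases a : Sum.inl (e, i) ∈ T <;> by_cases b : Sum.inl (e, 0) ∈ T <;> simp_all
      rcases v with x | q
      · simp [h10 x.1 x.2 |>.symm]
      · simpa using fun h => notMem_empty q (h9 ▸ mem_toRight.2 h)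
    rw [e, hb (fun x => φ x.1 / 5) h3] at h6
    rw [e] at hT
    exact hT (blow_max ((hφ _).2 h6) (nonempty_of_sum_ne_zero (by rw [h6]; norm_num)))
  · have hp : .inr p ∈ T := mem_toRight.1 (h9 ▸ mem_singleton_self p)
    have h10 : tri p ⊆ T := by
      have h10 : ∀ x, x = p.1.1 ∨ x = p.1.2 → .inl x ∈ T := by
        rintro ⟨e, i⟩ hx
        obtain ⟨j, hj⟩ : ∃ j : Fin 5, j ≠ p.1.1.2 ∧ j ≠ p.1.2.2 := by
          generalize p.1.1.2 = a
          generalize p.1.2.2 = b
          revert a b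
          decide
        have := h7 e i j
        rw [h9, sum_singleton, if_neg (fun h : p.1.1 = (e, j) => hj.1 (by rw [h])),
          if_neg (fun h : p.1.2 = (e, j) => hj.2 (by rw [h]))] at this
        by_contra a
        rw [if_neg a] at this
        rcases hx with hx | hx <;> rw [if_pos hx.symm] at this <;> split_ifs at this <;>
          norm_num at this
      simp [tri, insert_subset_iff, hp, h10]
    have h11 : Maximal (fun s : Finset (W G) => (X G).IsClique (s : Set (W G))) (tri p) :=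
      ⟨tri_clique p, fun K hK hle => sub_tri hK (hle (by simp [tri]))⟩
    refine hT (by_contra fun h12 => ?_)
    obtain ⟨v, h13, h14⟩ := exists_of_ssubset (h10.ssubset_of_ne fun e => h12 (e ▸ h11))
    have := sum_lt_sum_of_subset h10 (f := ext fun x => φ x.1 / 5) h13 h14 (h5 v)
      fun u _ _ => (h5 u).le
    rw [h6, h1 (fun x => φ x.1 / 5) h3 _ h11] at this
    exact lt_irrefl _ this

end Pool.Agent.H4.CapEq
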