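import Mathlib

set_option autoImplicit false

namespace Pool.Agent.H4.Coarse

abbrev E := EuclideanSpace ℝ (Fin 2)

def mm (k : ℕ) : ℝ := 8 * ((k : ℝ) + 4) ^ 2

lemma mm_pos (k : ℕ) : 0 < mm k := by unfold mm; positivity

def VS : Set E := {p | ∃ k : ℕ, (k : ℝ) ≤ ‖p‖ ∧ ∀ i, ∃ n : ℤ, p i = n / mm k}

noncomputable def e (r : ℝ) : ℝ := 1 / (8 * (2 + r) ^ 2)

lemma approx (z : E) : ∃ p ∈ VS, ‖p - z‖ ≤ e ‖z‖ := by
  set k := ⌊‖z‖⌋₊ - 1 with hk
  have hm := mm_pos k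
  have h0 := norm_nonneg z
  have hfl := Nat.lt_floor_add_one ‖z‖
  have hfl' := Nat.floor_le h0
  have hk2 : (⌊‖z‖⌋₊ : ℝ) ≤ k + 1 := by
    have : ⌊‖z‖⌋₊ ≤ k + 1 := by omega
    exact_mod_cast this
  let p : E := WithLp.toLp 2 fun i => (round (mm k * z i) : ℝ) / mm k
  have h1 : ∀ i, |(p - z) i| ≤ 1 / (2 * mm k) := by
    intro i
    have := abs_sub_round (mm k * z i)
    have e1 : (p - z) i = -(mm k * z i - round (mm k * z i)) / mm k := by
      simp only [p, PiLp.sub_apply]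
      field_simp
      ring
    rw [e1, abs_div, abs_neg, abs_of_pos hm, div_le_div_iff₀ hm (by positivity)]
    nlinarith
  have h2 : ‖p - z‖ ≤ 1 / mm k := by
    rw [EuclideanSpace.norm_eq, Real.sqrt_le_iff]
    refine ⟨by positivity, ?_⟩
    rw [Fin.sum_univ_two, Real.norm_eq_abs, Real.norm_eq_abs]
    have a0 := pow_le_pow_left₀ (abs_nonneg _) (h1 0) 2
    have a1 := pow_le_pow_left₀ (abs_nonneg _) (h1 1) 2
    have : (1 / (2 * mm k)) ^ 2 = (1 / mm k) ^ 2 / 4 := by field_simp; ring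
    have : 0 ≤ (1 / mm k) ^ 2 := by positivity
    linarith
  have h3 : 1 / mm k ≤ e ‖z‖ := by
    unfold e mm
    apply one_div_le_one_div_of_le (by positivity)
    have : 2 + ‖z‖ ≤ (k : ℝ) + 4 := by linarith
    nlinarith
  have h4 : 1 / mm k ≤ 1 := by
    rw [div_le_one hm]
    unfold mm
    have : (0 : ℝ) ≤ k := by positivity
    nlinarith
  refine ⟨p, ⟨k, ?_, fun i => ⟨_, rfl⟩⟩, h2.trans h3⟩
  rcases Nat.eq_zero_or_pos ⌊‖z‖⌋₊ with h5 | h5
  · have : k = 0 := by omega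
    rw [this]; simp
  · have h6 : (k : ℝ) + 1 = ⌊‖z‖⌋₊ := by
      have : k + 1 = ⌊‖z‖⌋₊ := by omega
      exact_mod_cast this
    have := norm_sub_norm_le z p
    rw [norm_sub_rev] at this
    linarith

lemma fin_ball (R : ℝ) : {p | p ∈ VS ∧ ‖p‖ ≤ R}.Finite := by
  have h1 : ∀ k : ℕ, {p : E | (∀ i, ∃ n : ℤ, p i = n / mm k) ∧ ‖p‖ ≤ R}.Finite := by
    intro k
    have hm := mm_pos k
    have h2 : {n : Fin 2 → ℤ | ∀ i, n i ∈ Set.Icc (-⌈R * mm k⌉) ⌈R * mm k⌉}.Finite :=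
      Set.Finite.pi' fun _ => Set.finite_Icc _ _
    refine (h2.image fun n => (WithLp.toLp 2 fun i => (n i : ℝ) / mm k : E)).subset ?_
    rintro p ⟨h3, h4⟩
    choose n hn using h3
    refine ⟨n, fun i => ?_, by ext i; simp [hn]⟩
    have h5 : |p i| ≤ R := (PiLp.norm_apply_le p i).trans h4
    rw [hn, abs_div, abs_of_pos hm, div_le_iff₀ hm] at h5
    have h6 := h5.trans (Int.le_ceil _)
    rw [← Int.cast_abs, Int.cast_le] at h6
    exact abs_le.1 h6
  refine ((Set.finite_Iic ⌊R⌋₊).biUnion fun k _ => h1 k).subset ?_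
  rintro p ⟨⟨k, h2, h3⟩, h4⟩
  simp only [Set.mem_iUnion]
  exact ⟨k, Nat.le_floor (h2.trans h4), h3, h4⟩

def G : SimpleGraph VS where
  Adj x y := x ≠ y ∧ ‖x.1 - y.1‖ ≤ 1
  symm := ⟨fun x y h => ⟨h.1.symm, by rw [norm_sub_rev]; exact h.2⟩⟩
  loopless := ⟨fun x h => h.1 rfl⟩

lemma loc_fin (x : VS) : (G.neighborSet x).Finite := by
  refine ((fin_ball (‖x.1‖ + 1)).preimage Subtype.val_injective.injOn).subset ?_
  intro y hy
  refine ⟨y.2, ?_⟩
  have := norm_sub_norm_le y.1 x.1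
  rw [norm_sub_rev] at this
  have h2 := hy.2
  linarith

lemma lower {x y : VS} (w : G.Walk x y) : ‖x.1 - y.1‖ ≤ w.length := by
  induction w with
  | nil => simp
  | @cons a b c h w ih =>
    have := norm_sub_le_norm_sub_add_norm_sub a.1 b.1 c.1
    have h2 := h.2
    simp only [SimpleGraph.Walk.length_cons, Nat.cast_add, Nat.cast_one]
    linarith

lemma step {x y z : VS} (h : ‖x.1 - y.1‖ ≤ 1) (w : G.Walk y z) :
    ∃ w' : G.Walk x z, w'.length ≤ w.length + 1 := by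
  by_cases hxy : x = y
  · subst hxy
    exact ⟨w, by omega⟩
  · exact ⟨.cons ⟨hxy, h⟩ w, by simp⟩

noncomputable def ph (s : ℝ) : ℝ := s / (1 + |s|)

lemma ph_diff {s t : ℝ} (h : s ≤ t) : (t - s) / ((1 + |s|) * (1 + |t|)) ≤ ph t - ph s := by
  unfold ph
  have h1 : 0 < 1 + |s| := by positivity
  have h2 : 0 < 1 + |t| := by positivity
  rw [div_sub_div _ _ h2.ne' h1.ne', mul_comm (1 + |t|) (1 + |s|)]
  apply div_le_div_of_nonneg_right _ (by positivity)
  rcases abs_cases s with h3 | h3 <;> rcases abs_cases t with h4 | h4 <;> rw [h3.1, h4.1] <;>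
    nlinarith [h3.2, h4.2]

lemma ph_abs (s : ℝ) : |ph s| ≤ 1 := by
  unfold ph
  rw [abs_div, abs_of_pos (show 0 < 1 + |s| by positivity), div_le_one (by positivity)]
  linarith

noncomputable def dl (s : ℝ) : ℝ := 1 / (4 * (1 + |s|) ^ 2)

lemma dl_bd (s : ℝ) : 0 < dl s ∧ dl s ≤ 1 / 4 := by
  unfold dl
  refine ⟨by positivity, one_div_le_one_div_of_le (by norm_num) ?_⟩
  nlinarith [abs_nonneg s]

lemma e_le {s r : ℝ} (h : |s| - 1 ≤ r) : e r ≤ dl s / 2 := by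
  unfold e dl
  rw [div_div]
  apply one_div_le_one_div_of_le (by positivity)
  nlinarith [abs_nonneg s]

lemma ph_step (s : ℝ) : dl s ≤ ph (s + (1 - dl s)) - ph s := by
  obtain ⟨h1, h2⟩ := dl_bd s
  refine le_trans ?_ (ph_diff (by linarith))
  have h3 : |s + (1 - dl s)| ≤ |s| + 1 := by
    refine (abs_add_le _ _).trans ?_
    rw [abs_of_pos (show 0 < 1 - dl s by linarith)]
    linarith
  have h4 := abs_nonneg s
  rw [le_div_iff₀ (by positivity)]
  have h5 : dl s * (4 * (1 + |s|) ^ 2) = 1 := by unfold dl; field_simp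
  have h6 : (1 + |s|) * (1 + |s + (1 - dl s)|) ≤ 2 * (1 + |s|) ^ 2 := by nlinarith
  nlinarith

lemma upper (u : E) (hu : ‖u‖ = 1) (y : VS) (n : ℕ) : ∀ (z : E) (t : ℝ) (p : VS), 0 ≤ t →
    y.1 = z + t • u → ‖p.1 - z‖ ≤ e ‖z‖ →
    t + ph (inner ℝ u y.1) - ph (inner ℝ u z) ≤ n → ∃ w : G.Walk p y, w.length ≤ n + 1 := by
  have hin : ∀ z : E, |inner ℝ u z| ≤ ‖z‖ := fun z => by
    simpa [hu] using abs_real_inner_le_norm u z
  have hadd : ∀ (z : E) (t : ℝ), inner ℝ u (z + t • u) = inner ℝ u z + t := fun z t => by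
    rw [inner_add_right, real_inner_smul_right, real_inner_self_eq_norm_sq, hu]; ring
  have base : ∀ (z : E) (t : ℝ) (p : VS), 0 ≤ t → y.1 = z + t • u → ‖p.1 - z‖ ≤ e ‖z‖ →
      t ≤ 1 - dl (inner ℝ u z) → ∃ w : G.Walk p y, w.length ≤ 0 + 1 := by
    intro z t p ht hy hp h
    refine step ?_ .nil
    have h1 : e ‖z‖ ≤ dl (inner ℝ u z) / 2 := e_le (by linarith [hin z])
    have h2 : p.1 - y.1 = (p.1 - z) - t • u := by rw [hy]; abel
    have h3 := norm_sub_le (p.1 - z) (t • u)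
    rw [norm_smul, hu, Real.norm_eq_abs, abs_of_nonneg ht] at h3
    have := (dl_bd (inner ℝ u z)).1
    rw [h2]
    linarith
  induction n with
  | zero =>
    intro z t p ht hy hp h
    refine base z t p ht hy hp ?_
    have h1 := ph_diff (show inner ℝ u z ≤ inner ℝ u y.1 by rw [hy, hadd]; linarith)
    have h2 : 0 ≤ (inner ℝ u y.1 - inner ℝ u z) / ((1 + |inner ℝ u z|) * (1 + |inner ℝ u y.1|)) :=
      div_nonneg (by rw [hy, hadd]; linarith) (by positivity)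
    have := (dl_bd (inner ℝ u z)).2
    simp only [Nat.cast_zero] at h
    linarith
  | succ n ih =>
    intro z t p ht hy hp h
    by_cases hc : t ≤ 1 - dl (inner ℝ u z)
    · obtain ⟨w, hw⟩ := base z t p ht hy hp hc
      exact ⟨w, by omega⟩
    · obtain ⟨d1, d2⟩ := dl_bd (inner ℝ u z)
      set d := 1 - dl (inner ℝ u z) with hd
      obtain ⟨q, hq, hq2⟩ := approx (z + d • u)
      have h1 := ph_step (inner ℝ u z)
      obtain ⟨w, hw⟩ := ih (z + d • u) (t - d) ⟨q, hq⟩ (by linarith)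
        (by rw [hy, add_assoc, ← add_smul, add_sub_cancel]) hq2 (by
          rw [hadd]
          push_cast at h
          linarith)
      have h2 : e ‖z‖ ≤ dl (inner ℝ u z) / 2 := e_le (by linarith [hin z])
      have h3 : e ‖z + d • u‖ ≤ dl (inner ℝ u z) / 2 := by
        refine e_le ?_
        have h4 := hin (z + d • u)
        rw [hadd] at h4
        have h5 := abs_sub_abs_le_abs_sub (inner ℝ u z) (inner ℝ u z + d)
        rw [sub_add_cancel_left, abs_neg, abs_of_pos (show 0 < d by linarith)] at h5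
        linarith
      have h4 : ‖p.1 - q‖ ≤ 1 := by
        have h5 : p.1 - q = (p.1 - z) - (q - (z + d • u)) - d • u := by abel
        have h6 := norm_sub_le ((p.1 - z) - (q - (z + d • u))) (d • u)
        have h7 := norm_sub_le (p.1 - z) (q - (z + d • u))
        rw [norm_smul, hu, Real.norm_eq_abs, abs_of_pos (show 0 < d by linarith)] at h6
        rw [h5]
        linarith
      obtain ⟨w', hw'⟩ := step (y := ⟨q, hq⟩) h4 w
      exact ⟨w', by omega⟩

lemma upper' (x y : VS) : ∃ w : G.Walk x y, (w.length : ℝ) < ‖x.1 - y.1‖ + 4 := by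
  by_cases hxy : y.1 - x.1 = 0
  · have : x = y := Subtype.ext (sub_eq_zero.1 hxy).symm
    subst this
    exact ⟨.nil, by simp⟩
  have h0 : 0 < ‖y.1 - x.1‖ := norm_pos_iff.2 hxy
  have a1 := abs_le.1 (ph_abs (inner ℝ (‖y.1 - x.1‖⁻¹ • (y.1 - x.1)) y.1))
  have a2 := abs_le.1 (ph_abs (inner ℝ (‖y.1 - x.1‖⁻¹ • (y.1 - x.1)) x.1))
  obtain ⟨w, hw⟩ := upper (‖y.1 - x.1‖⁻¹ • (y.1 - x.1)) (norm_smul_inv_norm hxy) y
    ⌈‖y.1 - x.1‖ + 2⌉₊ x.1 ‖y.1 - x.1‖ x h0.le
    (by rw [smul_smul, mul_inv_cancel₀ h0.ne', one_smul]; abel)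
    (by rw [sub_self, norm_zero]; unfold e; positivity)
    (by have := Nat.le_ceil (‖y.1 - x.1‖ + 2); linarith)
  refine ⟨w, ?_⟩
  have h1 : (w.length : ℝ) ≤ ⌈‖y.1 - x.1‖ + 2⌉₊ + 1 := by exact_mod_cast hw
  have h2 := Nat.ceil_lt_add_one (show 0 ≤ ‖y.1 - x.1‖ + 2 by linarith)
  rw [norm_sub_rev]
  linarith

noncomputable def pt (k j : ℕ) : E := WithLp.toLp 2 ![k + j / mm k, 0]

lemma pt_norm (a : ℝ) : ‖(WithLp.toLp 2 ![a, 0] : E)‖ = |a| := by
  rw [EuclideanSpace.norm_eq, Fin.sum_univ_two]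
  simp [Real.sqrt_sq_eq_abs]

lemma pt_mem (k j : ℕ) : pt k j ∈ VS := by
  have hm := mm_pos k
  refine ⟨k, ?_, fun i => ?_⟩
  · rw [pt, pt_norm, abs_of_nonneg (by positivity)]
    have : 0 ≤ (j : ℝ) / mm k := by positivity
    linarith
  · fin_cases i
    · refine ⟨k * (8 * (k + 4) ^ 2) + j, ?_⟩
      simp only [pt, mm] at hm ⊢
      simp
      field_simp
    · exact ⟨0, by simp [pt]⟩

lemma unb (D : ℕ) : ∃ v, D ≤ (G.neighborSet v).ncard := by
  have hm := mm_pos D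
  have hinj : Function.Injective fun j => (⟨pt D j, pt_mem D j⟩ : VS) := by
    intro i j h
    have h1 := congrArg (fun v : VS => v.1 0) h
    simp only [pt] at h1
    simpa [hm.ne'] using h1
  refine ⟨⟨pt D 0, pt_mem D 0⟩, ?_⟩
  have h1 := Set.ncard_le_ncard_of_injOn (s := Set.Icc 1 D)
    (t := G.neighborSet ⟨pt D 0, pt_mem D 0⟩) (fun j => (⟨pt D j, pt_mem D j⟩ : VS))
    (fun j hj => ?_) hinj.injOn (loc_fin _)
  · simpa using h1
  · refine ⟨fun h => ?_, ?_⟩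
    · have := hinj h
      have := hj.1
      omega
    · have h2 : pt D 0 - pt D j = WithLp.toLp 2 ![-(j / mm D), 0] := by
        ext i
        fin_cases i <;> simp [pt]
      have h3 : (j : ℝ) ≤ D := by exact_mod_cast hj.2
      change ‖pt D 0 - pt D j‖ ≤ 1
      rw [h2, pt_norm, abs_neg, abs_of_nonneg (by positivity), div_le_one hm]
      unfold mm
      nlinarith [Nat.cast_nonneg (α := ℝ) D]

theorem main : ∃ (V : Type) (G : SimpleGraph V) (f : V → EuclideanSpace ℝ (Fin 2)) (C : ℝ),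
    0 < C ∧ G.Connected ∧ (∀ v, (G.neighborSet v).Finite) ∧
    (∀ D : ℕ, ∃ v, D ≤ (G.neighborSet v).ncard) ∧
    (∀ x y, |‖f x - f y‖ - (G.dist x y : ℝ)| < C) ∧ ∀ z, ∃ x, ‖f x - z‖ < C := by
  have hc : G.Connected := by
    obtain ⟨p, hp, -⟩ := approx 0
    have : Nonempty VS := ⟨⟨p, hp⟩⟩
    exact ⟨fun x y => (upper' x y).elim fun w _ => ⟨w⟩⟩
  refine ⟨VS, G, Subtype.val, 4, by norm_num, hc, loc_fin, unb, fun x y => ?_, fun z => ?_⟩
  · obtain ⟨w, hw⟩ := upper' x y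
    obtain ⟨w', hw'⟩ := hc.exists_walk_length_eq_dist x y
    have h1 := lower w'
    have h2 : (G.dist x y : ℝ) ≤ w.length := by exact_mod_cast G.dist_le w
    rw [hw'] at h1
    rw [abs_lt]
    constructor <;> linarith
  · obtain ⟨p, hp, h⟩ := approx z
    refine ⟨⟨p, hp⟩, h.trans_lt ?_⟩
    have h1 : e ‖z‖ ≤ dl 0 / 2 := e_le (by simp; linarith [norm_nonneg z])
    linarith [(dl_bd 0).2]

end Pool.Agent.H4.Coarse
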