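import Mathlib

set_option autoImplicit false

namespace Pool.Agent.H4.ColEdge

open Finset

def Pc (k : ℕ) (R : ℕ → ℕ → Bool) (N : ℕ) : Finset (Fin N → Fin k) :=
  univ.filter fun f => ∀ i j : Fin N, j < i → R i j = true → f i ≠ f j

lemma Pc_succ (k : ℕ) (R : ℕ → ℕ → Bool) (N : ℕ)
    (h : ∀ a < N, ∀ b < a, R N a = true → R N b = true → R a b = true) :
    (Pc k R (N + 1)).card = (Pc k R N).card * (k - ((range N).filter fun a => R N a = true).card) := by
  rw [card_eq_sum_card_fiberwise (f := fun f => Fin.init f) (t := Pc k R N)]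
  · rw [← smul_eq_mul, ← sum_const]
    refine sum_congr rfl fun g hg => ?_
    simp only [Pc, mem_filter, mem_univ, true_and] at hg
    have h1 : ((univ.filter fun a : Fin N => R N a = true).image g).card =
        ((range N).filter fun a => R N a = true).card := by
      rw [card_image_of_injOn]
      · refine card_bij (fun a _ => (a : ℕ)) ?_ ?_ ?_
        · intro a ha; simpa using ha
        · intro a _ b _ hab; exact Fin.ext hab
        · intro b hb
          rw [mem_filter, mem_range] at hb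
          exact ⟨⟨b, hb.1⟩, by simpa using hb.2, rfl⟩
      · intro a ha b hb hab
        simp only [coe_filter, mem_univ, true_and, Set.mem_ofPred_eq] at ha hb
        rcases lt_trichotomy a b with l | l | l
        · exact absurd hab.symm (hg b a l (h b b.2 a l hb ha))
        · exact l
        · exact absurd hab (hg a b l (h a a.2 b l ha hb))
    rw [← h1]
    have h2 := card_compl ((univ.filter fun a : Fin N => R N a = true).image g)
    rw [Fintype.card_fin] at h2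
    rw [← h2]
    symm
    refine card_bij (fun x _ => Fin.snoc (α := fun _ => Fin k) g x) ?_ ?_ ?_
    · intro x hx
      simp only [mem_compl, mem_image, mem_filter, mem_univ, true_and, not_exists, not_and] at hx
      simp only [Pc, mem_filter, mem_univ, true_and, Fin.init_snoc, and_true]
      intro i j hji hR
      induction i using Fin.lastCases with
      | last =>
        induction j using Fin.lastCases with
        | last => exact absurd hji (lt_irrefl _)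
        | cast j =>
          rw [Fin.snoc_last, Fin.snoc_castSucc]
          exact fun e => hx j (by simpa using hR) e.symm
      | cast i =>
        induction j using Fin.lastCases with
        | last => exact absurd hji (not_lt.2 (Fin.le_last _))
        | cast j =>
          rw [Fin.snoc_castSucc, Fin.snoc_castSucc]
          exact hg i j (by simpa using hji) (by simpa using hR)
    · intro x _ y _ hxy
      simpa using congrFun hxy (Fin.last N)
    · intro f hf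
      simp only [Pc, mem_filter, mem_univ, true_and] at hf
      refine ⟨f (Fin.last N), ?_, by rw [← hf.2]; exact Fin.snoc_init_self f⟩
      simp only [mem_compl, mem_image, mem_filter, mem_univ, true_and, not_exists, not_and]
      intro a ha e
      rw [← hf.2] at e
      exact hf.1 (Fin.last N) a.castSucc (Fin.castSucc_lt_last a) (by simpa using ha) e.symm
  · intro f hf
    simp only [Pc, coe_filter, mem_univ, true_and, Set.mem_ofPred_eq] at hf ⊢
    intro i j hji hR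
    exact hf i.castSucc j.castSucc (by simpa using hji) (by simpa using hR)

lemma Pc_card (k : ℕ) (R : ℕ → ℕ → Bool) (N : ℕ)
    (h : ∀ n < N, ∀ a < n, ∀ b < a, R n a = true → R n b = true → R a b = true) :
    (Pc k R N).card = ∏ n ∈ range N, (k - ((range n).filter fun a => R n a = true).card) := by
  induction N with
  | zero => simp [Pc]
  | succ N ih =>
    rw [Pc_succ k R N (h N (by omega)), prod_range_succ, ih fun n hn => h n (by omega)]

lemma pair_sigma {n : ℕ} (G : SimpleGraph (Fin n)) (k : ℕ) :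
    Nat.card {p : G.Coloring (Fin k) × G.Coloring (Fin k) //
      Nat.card {v : Fin n // p.1 v ≠ p.2 v} = 1} =
    ∑ v : Fin n, Nat.card {p : G.Coloring (Fin k) × G.Coloring (Fin k) //
      ∀ w, p.1 w ≠ p.2 w ↔ w = v} := by
  classical
  rw [← Nat.card_sigma]
  symm
  refine Nat.card_eq_of_bijective (fun x => ⟨x.2.1, ?_⟩) ⟨?_, ?_⟩
  · rw [Nat.card_eq_one_iff_exists]
    exact ⟨⟨x.1, (x.2.2 _).2 rfl⟩, fun y => Subtype.ext ((x.2.2 _).1 y.2)⟩
  · rintro ⟨v, p, hp⟩ ⟨w, q, hq⟩ h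
    simp only [Subtype.mk.injEq] at h
    subst h
    have : v = w := (hq v).1 ((hp v).2 rfl)
    subst this
    rfl
  · rintro ⟨p, hp⟩
    obtain ⟨⟨v, hv⟩, h⟩ := Nat.card_eq_one_iff_exists.1 hp
    refine ⟨⟨v, p, fun w => ⟨fun hw => congrArg Subtype.val (h ⟨w, hw⟩), ?_⟩⟩, rfl⟩
    rintro rfl
    exact hv

lemma twin {n : ℕ} (G : SimpleGraph (Fin n)) (k : ℕ) (v : Fin n) (o : Fin (n + 1) → Fin n)
    (s : Fin n → Fin (n + 1)) (b : Fin (n + 1)) (R : ℕ → ℕ → Bool)
    (h1 : ∀ x, o (s x) = x) (h2 : ∀ i, i ≠ b → s (o i) = i) (h3 : o b = v) (h4 : ∀ x, s x ≠ b)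
    (hR : ∀ i j : Fin (n + 1), R i j = true ↔ (G.Adj (o i) (o j) ∨ o i = o j)) :
    Nat.card {p : G.Coloring (Fin k) × G.Coloring (Fin k) // ∀ w, p.1 w ≠ p.2 w ↔ w = v} =
      (Pc k R (n + 1)).card := by
  classical
  rw [← Nat.card_eq_finsetCard]
  have key : ∀ p : G.Coloring (Fin k) × G.Coloring (Fin k), (∀ w, p.1 w ≠ p.2 w ↔ w = v) →
      ∀ i j : Fin (n + 1), i ≠ j → (G.Adj (o i) (o j) ∨ o i = o j) →
        (if i = b then p.2 v else p.1 (o i)) ≠ (if j = b then p.2 v else p.1 (o j)) := by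
    intro p hp i j hij h
    have e : ∀ w, w ≠ v → p.1 w = p.2 w := fun w hw => by
      by_contra h'; exact hw ((hp w).1 h')
    by_cases hi : i = b <;> by_cases hj : j = b <;> simp only [hi, hj, if_true, if_false]
    · exact absurd (hi.trans hj.symm) hij
    · rw [hi, h3] at h
      rcases h with h | h
      · rw [e _ h.ne']; exact p.2.valid h
      · rw [← h]; exact ((hp v).2 rfl).symm
    · rw [hj, h3] at h
      rcases h with h | h
      · rw [e _ h.ne]; exact p.2.valid h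
      · rw [h]; exact (hp v).2 rfl
    · rcases h with h | h
      · exact p.1.valid h
      · exact absurd (by rw [← h2 i hi, h, h2 j hj]) hij
  refine Nat.card_eq_of_bijective
    (fun p => ⟨fun i => if i = b then p.1.2 v else p.1.1 (o i), ?_⟩) ⟨?_, ?_⟩
  · simp only [Pc, mem_filter, mem_univ, true_and]
    intro i j hji h
    exact key p.1 p.2 i j hji.ne' ((hR i j).1 h)
  · rintro ⟨⟨c, c'⟩, hp⟩ ⟨⟨d, d'⟩, hq⟩ h
    simp only [Subtype.mk.injEq] at h hp hq
    have e1 : ∀ x, c x = d x := fun x => by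
      have := congrFun h (s x)
      simpa [h4 x, h1 x] using this
    have e2 : ∀ x, c' x = d' x := fun x => by
      by_cases hx : x = v
      · subst hx
        simpa using congrFun h b
      · have a1 : c x = c' x := by by_contra h'; exact hx ((hp x).1 h')
        have a2 : d x = d' x := by by_contra h'; exact hx ((hq x).1 h')
        rw [← a1, ← a2, e1]
    apply Subtype.ext
    exact Prod.ext (DFunLike.ext _ _ e1) (DFunLike.ext _ _ e2)
  · rintro ⟨f, hf⟩
    simp only [Pc, mem_filter, mem_univ, true_and] at hf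
    have hf' : ∀ i j, i ≠ j → (G.Adj (o i) (o j) ∨ o i = o j) → f i ≠ f j := by
      intro i j hij h
      rcases lt_or_gt_of_ne hij with l | l
      · exact (hf j i l ((hR j i).2 (h.imp G.adj_symm Eq.symm))).symm
      · exact hf i j l ((hR i j).2 h)
    let s' : Fin n → Fin (n + 1) := fun x => if x = v then b else s x
    have h1' : ∀ x, o (s' x) = x := fun x => by
      simp only [s']; split_ifs with h
      · rw [h3, h]
      · exact h1 x
    let c : G.Coloring (Fin k) := SimpleGraph.Coloring.mk (fun x => f (s x)) fun {x y} h =>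
      hf' _ _ (fun e => h.ne (by rw [← h1 x, e, h1])) (Or.inl (by rwa [h1, h1]))
    let c' : G.Coloring (Fin k) := SimpleGraph.Coloring.mk (fun x => f (s' x)) fun {x y} h =>
      hf' _ _ (fun e => h.ne (by rw [← h1' x, e, h1'])) (Or.inl (by rwa [h1', h1']))
    refine ⟨⟨(c, c'), fun w => ?_⟩, ?_⟩
    · change f (s w) ≠ f (s' w) ↔ w = v
      constructor
      · intro h
        by_contra hw
        simp [s', hw] at h
      · rintro rfl
        simp only [s', if_true]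
        exact hf' _ _ (h4 w) (Or.inr (by rw [h1, h3]))
    · apply Subtype.ext
      funext i
      change (if i = b then f (s' v) else f (s (o i))) = f i
      split_ifs with h
      · simp [s', h]
      · rw [h2 i h]

def gr (L : List (Fin 8 × Fin 8)) : SimpleGraph (Fin 8) where
  Adj a b := a ≠ b ∧ ((a, b) ∈ L ∨ (b, a) ∈ L)
  symm := ⟨fun _ _ h => ⟨h.1.symm, h.2.symm⟩⟩
  loopless := ⟨fun _ h => h.1 rfl⟩

instance (L : List (Fin 8 × Fin 8)) : DecidableRel (gr L).Adj := fun a b =>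
  inferInstanceAs (Decidable (a ≠ b ∧ ((a, b) ∈ L ∨ (b, a) ∈ L)))

def rel (L : List (Fin 8 × Fin 8)) (o : Fin 9 → Fin 8) (i j : ℕ) : Bool :=
  decide ((gr L).Adj (o (Fin.ofNat 9 i)) (o (Fin.ofNat 9 j)) ∨ o (Fin.ofNat 9 i) = o (Fin.ofNat 9 j))

lemma formula (L : List (Fin 8 × Fin 8)) (o : Fin 8 → Fin 9 → Fin 8) (b : Fin 8 → Fin 9)
    (s : Fin 8 → Fin 8 → Fin 9) (d : Fin 8 → Fin 9 → ℕ)
    (h : ∀ v, (∀ x, o v (s v x) = x) ∧ (∀ i, i ≠ b v → s v (o v i) = i) ∧ o v (b v) = v ∧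
      (∀ x, s v x ≠ b v) ∧
      (∀ n < 9, ∀ a < n, ∀ c < a, rel L (o v) n a = true → rel L (o v) n c = true →
        rel L (o v) a c = true) ∧
      ∀ n : Fin 9, ((range n).filter fun a => rel L (o v) n a = true).card = d v n) (k : ℕ) :
    Nat.card {p : (gr L).Coloring (Fin k) × (gr L).Coloring (Fin k) //
      Nat.card {v : Fin 8 // p.1 v ≠ p.2 v} = 1} = ∑ v : Fin 8, ∏ n : Fin 9, (k - d v n) := by
  rw [pair_sigma]
  refine sum_congr rfl fun v _ => ?_
  obtain ⟨a1, a2, a3, a4, a5, a6⟩ := h v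
  rw [twin (gr L) k v (o v) (s v) (b v) (rel L (o v)) a1 a2 a3 a4 (by simp [rel]),
    Pc_card k _ 9 a5, ← Fin.prod_univ_eq_prod_range
      (fun n => k - ((range n).filter fun a => rel L (o v) n a = true).card) 9]
  exact prod_congr rfl fun n _ => by rw [a6]

def L1 : List (Fin 8 × Fin 8) := [(0, 1), (0, 2), (0, 3), (0, 4), (0, 5), (1, 2), (1, 3), (1, 4), (1, 6), (2, 3)]

def L2 : List (Fin 8 × Fin 8) := [(0, 1), (0, 2), (0, 6), (1, 2), (1, 6), (3, 4), (3, 5), (3, 7), (4, 5), (4, 7)]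

lemma f1 (k : ℕ) : Nat.card {p : (gr L1).Coloring (Fin k) × (gr L1).Coloring (Fin k) //
      Nat.card {v : Fin 8 // p.1 v ≠ p.2 v} = 1} = ∑ v : Fin 8, ∏ n : Fin 9, (k -
        (![![0, 0, 1, 1, 2, 2, 3, 3, 4], ![0, 0, 1, 2, 2, 1, 3, 3, 4], ![0, 0, 1, 1, 2, 1, 2, 3, 4], ![0, 0, 1, 1, 2, 1, 2, 3, 4], ![0, 0, 1, 1, 2, 1, 3, 2, 3], ![0, 0, 1, 1, 1, 2, 2, 2, 3], ![0, 0, 1, 2, 1, 1, 2, 2, 3], ![0, 1, 0, 1, 1, 1, 2, 2, 3]] : Fin 8 → Fin 9 → ℕ) v n) :=
  formula L1 ![![0, 7, 1, 6, 0, 5, 4, 3, 2], ![1, 7, 6, 1, 0, 5, 4, 3, 2], ![2, 7, 1, 6, 0, 5, 4, 3, 2], ![3, 7, 1, 6, 0, 5, 4, 3, 2], ![4, 7, 1, 6, 0, 5, 4, 3, 2], ![5, 7, 0, 1, 6, 5, 4, 3, 2], ![6, 7, 6, 1, 0, 5, 4, 3, 2], ![7, 7, 6, 1, 0, 5, 4, 3, 2]]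
    ![0, 0, 0, 0, 0, 0, 0, 0]
    ![![4, 2, 8, 7, 6, 5, 3, 1], ![4, 3, 8, 7, 6, 5, 2, 1], ![4, 2, 8, 7, 6, 5, 3, 1], ![4, 2, 8, 7, 6, 5, 3, 1], ![4, 2, 8, 7, 6, 5, 3, 1], ![2, 3, 8, 7, 6, 5, 4, 1], ![4, 3, 8, 7, 6, 5, 2, 1], ![4, 3, 8, 7, 6, 5, 2, 1]] _ (by decide +kernel) k

lemma f2 (k : ℕ) : Nat.card {p : (gr L2).Coloring (Fin k) × (gr L2).Coloring (Fin k) //
      Nat.card {v : Fin 8 // p.1 v ≠ p.2 v} = 1} = ∑ v : Fin 8, ∏ n : Fin 9, (k -
        (![![0, 0, 1, 1, 2, 2, 2, 3, 3], ![0, 0, 1, 1, 2, 2, 2, 3, 3], ![0, 0, 1, 2, 2, 1, 2, 2, 3], ![0, 1, 0, 2, 3, 3, 1, 2, 2], ![0, 1, 0, 2, 3, 3, 1, 2, 2], ![0, 1, 2, 2, 0, 3, 1, 2, 2], ![0, 0, 1, 1, 2, 2, 2, 3, 2], ![0, 1, 0, 2, 3, 2, 1, 2, 2]] : Fin 8 → Fin 9 → ℕ) v n) :=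
  formula L2 ![![0, 7, 6, 4, 3, 5, 1, 0, 2], ![1, 7, 6, 4, 3, 5, 1, 0, 2], ![2, 7, 1, 0, 6, 4, 3, 5, 2], ![3, 7, 6, 4, 3, 5, 1, 0, 2], ![4, 7, 6, 4, 3, 5, 1, 0, 2], ![5, 4, 3, 7, 6, 5, 1, 0, 2], ![6, 7, 6, 4, 3, 5, 1, 0, 2], ![7, 7, 6, 4, 3, 5, 1, 0, 2]]
    ![0, 0, 0, 0, 0, 0, 0, 0]
    ![![7, 6, 8, 4, 3, 5, 2, 1], ![7, 6, 8, 4, 3, 5, 2, 1], ![3, 2, 8, 6, 5, 7, 4, 1], ![7, 6, 8, 4, 3, 5, 2, 1], ![7, 6, 8, 4, 3, 5, 2, 1], ![7, 6, 8, 2, 1, 5, 4, 3], ![7, 6, 8, 4, 3, 5, 2, 1], ![7, 6, 8, 4, 3, 5, 2, 1]] _ (by decide +kernel) k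

end Pool.Agent.H4.ColEdge
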