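import Mathlib

set_option autoImplicit false

namespace Pool.Agent.H4.Colorful

open Finset
open scoped RealInnerProductSpace

variable {F : Type*} [NormedAddCommGroup F] [InnerProductSpace ℝ F]

lemma nearest {s : Set F} (hs : s.Finite) (hne : s.Nonempty) :
    ∃ z ∈ convexHull ℝ s, ∀ w ∈ convexHull ℝ s, ⟪z, z⟫ ≤ ⟪z, w⟫ := by
  obtain ⟨z, hz, h⟩ := exists_norm_eq_iInf_of_complete_convex (hne.mono (subset_convexHull ℝ s))
    (hs.isCompact_convexHull ℝ).isComplete (convex_convexHull ℝ s) 0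
  refine ⟨z, hz, fun w hw => ?_⟩
  have := (norm_eq_iInf_iff_real_inner_le_zero (convex_convexHull ℝ s) hz).1 h w hw
  rw [zero_sub, inner_neg_left, inner_sub_right] at this
  linarith

lemma not_mem_of_pos {s : Set F} {z : F} (h : ∀ p ∈ s, 0 < ⟪z, p⟫) : (0 : F) ∉ convexHull ℝ s := by
  intro h0
  have hc : Convex ℝ {x : F | 0 < ⟪z, x⟫} := by
    intro x hx y hy a b ha hb hab
    simp only [Set.mem_ofPred_eq, inner_add_right, inner_smul_right] at hx hy ⊢
    rcases ha.eq_or_lt with rfl | ha'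
    · have : b = 1 := by linarith
      subst this; linarith
    · have := mul_pos ha' hx
      have := mul_nonneg hb hy.le
      linarith
  have : 0 < ⟪z, (0 : F)⟫ := convexHull_min h hc h0
  simp at this

lemma exists_pos {s : Set F} (hs : s.Finite) (h : (0 : F) ∉ convexHull ℝ s) :
    ∃ z : F, ∀ p ∈ s, 0 < ⟪z, p⟫ := by
  rcases s.eq_empty_or_nonempty with rfl | hne
  · exact ⟨0, by simp⟩
  obtain ⟨z, hz, hw⟩ := nearest hs hne
  refine ⟨z, fun p hp => lt_of_lt_of_le ?_ (hw p (subset_convexHull ℝ s hp))⟩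
  exact real_inner_self_pos.2 (by rintro rfl; exact h hz)

theorem colorful [FiniteDimensional ℝ F] {α ι : Type*} [Fintype ι] (l : α → F)
    (hι : Fintype.card ι = Module.finrank ℝ F + 1) (C : ι → Finset α)
    (hC : ∀ i, (0 : F) ∈ convexHull ℝ (l '' (C i : Set α))) :
    ∃ τ : ι → α, (∀ i, τ i ∈ C i) ∧ (0 : F) ∈ convexHull ℝ (Set.range (l ∘ τ)) := by
  classical
  have hne : Nonempty ι := Fintype.card_pos_iff.1 (by omega)
  have hCne : ∀ i, (C i).Nonempty := by
    intro i
    by_contra h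
    have := hC i
    rw [not_nonempty_iff_eq_empty.1 h] at this
    simp at this
  choose z hz hw using fun τ : ι → α =>
    nearest (Set.finite_range (l ∘ τ)) (Set.range_nonempty _)
  obtain ⟨τ, hτ, hmin⟩ := exists_min_image (Fintype.piFinset C) (fun τ => ⟪z τ, z τ⟫)
    (Fintype.piFinset_nonempty.2 hCne)
  rw [Fintype.mem_piFinset] at hτ
  refine ⟨τ, hτ, ?_⟩
  by_contra h0
  have z0 : z τ ≠ 0 := fun h => h0 (h ▸ hz τ)
  have zp : 0 < ⟪z τ, z τ⟫ := real_inner_self_pos.2 z0
  obtain ⟨κ, _, y, w, hy, hai, hwp, hw1, hwz⟩ := eq_pos_convex_span_of_mem_convexHull (hz τ)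
  have hge : ∀ k, ⟪z τ, z τ⟫ ≤ ⟪z τ, y k⟫ := fun k =>
    hw τ _ (subset_convexHull ℝ _ (hy ⟨k, rfl⟩))
  have heq : ∀ k, ⟪z τ, y k⟫ = ⟪z τ, z τ⟫ := by
    have h1 : ∑ k, w k * (⟪z τ, y k⟫ - ⟪z τ, z τ⟫) = 0 := by
      simp only [mul_sub, sum_sub_distrib, ← sum_mul, hw1, one_mul]
      rw [sub_eq_zero]
      conv_rhs => rw [← hwz]
      conv_rhs => rw [inner_sum]
      simp only [inner_smul_right, hwz]
    rw [sum_eq_zero_iff_of_nonneg (fun k _ => mul_nonneg (hwp k).le (sub_nonneg.2 (hge k)))] at h1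
    intro k
    have := h1 k (mem_univ _)
    rcases mul_eq_zero.1 this with h | h
    · exact absurd h (hwp k).ne'
    · linarith
  have hli : LinearIndependent ℝ y := by
    rw [Fintype.linearIndependent_iff]
    intro g hg k
    have h1 : (∑ k, g k) * ⟪z τ, z τ⟫ = 0 := by
      have := congrArg (fun v => ⟪z τ, v⟫) hg
      simp only [inner_sum, inner_smul_right, heq, inner_zero_right] at this
      rw [sum_mul]; exact this
    have h2 : ∑ k, g k = 0 := by
      rcases mul_eq_zero.1 h1 with h | h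
      · exact h
      · exact absurd h zp.ne'
    exact (affineIndependent_iff.1 hai) univ g h2 hg k (mem_univ _)
  have hcard := hli.fintype_card_le_finrank
  choose c hc using fun k => hy ⟨k, rfl⟩
  obtain ⟨j, hj⟩ : ∃ j, ∀ k, c k ≠ j := by
    by_contra h
    push Not at h
    have := Fintype.card_le_of_surjective c h
    omega
  obtain ⟨p, hp, hpz⟩ : ∃ p ∈ C j, ⟪z τ, l p⟫ ≤ 0 := by
    by_contra h
    push Not at h
    refine not_mem_of_pos (z := z τ) ?_ (hC j)
    rintro _ ⟨p, hp, rfl⟩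
    exact h p hp
  let τ' := Function.update τ j p
  have h1 : ⟪z τ, z τ⟫ ≤ ⟪z τ', z τ'⟫ := by
    apply hmin
    rw [Fintype.mem_piFinset]
    intro i
    by_cases h : i = j
    · subst h; simpa [τ'] using hp
    · simpa [τ', Function.update_of_ne h] using hτ i
  have h2 : z τ ∈ convexHull ℝ (Set.range (l ∘ τ')) := by
    rw [← hwz]
    refine (convex_convexHull ℝ _).sum_mem (fun k _ => (hwp k).le) hw1 fun k _ => ?_
    refine subset_convexHull ℝ _ ⟨c k, ?_⟩
    rw [← hc k]
    simp [τ', Function.update_of_ne (hj k)]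
  have h3 := hw τ' _ h2
  have h4 : z τ' = z τ := by
    have h5 : ⟪z τ' - z τ, z τ' - z τ⟫ ≤ 0 := by
      rw [inner_sub_left, inner_sub_right, inner_sub_right, real_inner_comm (z τ') (z τ)]
      linarith
    exact sub_eq_zero.1 (real_inner_self_nonpos.1 h5)
  have h6 := hw τ' (l p) (subset_convexHull ℝ _ ⟨j, by simp [τ']⟩)
  rw [h4] at h6
  linarith

lemma carath [FiniteDimensional ℝ F] {α : Type*} (l : α → F) (S : Finset α)
    (h : (0 : F) ∈ convexHull ℝ (l '' (S : Set α))) :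
    ∃ T ⊆ S, T.card ≤ Module.finrank ℝ F + 1 ∧ (0 : F) ∈ convexHull ℝ (l '' (T : Set α)) := by
  classical
  obtain ⟨κ, _, y, w, hy, hai, hwp, hw1, hwz⟩ := eq_pos_convex_span_of_mem_convexHull h
  choose c hc hc' using fun k => hy ⟨k, rfl⟩
  refine ⟨univ.image c, ?_, ?_, ?_⟩
  · intro x hx
    obtain ⟨k, -, rfl⟩ := mem_image.1 hx
    exact hc k
  · refine card_image_le.trans ?_
    rw [card_univ]
    refine hai.card_le_finrank_succ.trans ?_
    have := Submodule.finrank_le (vectorSpan ℝ (Set.range y))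
    omega
  · rw [← hwz]
    refine (convex_convexHull ℝ _).sum_mem (fun k _ => (hwp k).le) hw1 fun k _ => ?_
    exact subset_convexHull ℝ _ ⟨c k, by simp, hc' k⟩

theorem main [FiniteDimensional ℝ F] {α : Type*} [DecidableEq α] (l : α → F) (U : Finset α) (k : ℕ)
    (hk : k = Module.finrank ℝ F + 1) (hU : k ≤ U.card) :
    ∃ R ⊆ U, (0 : F) ∉ convexHull ℝ (l '' ((U \ R : Finset α) : Set α)) ∧ ∃ M : ℕ, R.card ≤ k * M ∧
      (M = 0 ∨ 1 ≤ {S : Finset α | S ⊆ U ∧ S.card = k ∧
        (0 : F) ∈ convexHull ℝ (l '' (S : Set α))}.ncard) ∧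
      M.choose k ≤ {S : Finset α | S ⊆ U ∧ S.card = k ∧
        (0 : F) ∈ convexHull ℝ (l '' (S : Set α))}.ncard := by
  classical
  let bad : Finset α → Prop := fun S => (0 : F) ∈ convexHull ℝ (l '' (S : Set α))
  have bmono : ∀ S T : Finset α, S ⊆ T → bad S → bad T := fun S T h hb =>
    convexHull_mono (Set.image_mono (coe_subset.2 h)) hb
  have bne : ∀ S, bad S → S.Nonempty := by
    intro S hb
    by_contra h
    rw [not_nonempty_iff_eq_empty.1 h] at hb
    simp [bad] at hb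
  let fam : Finset (Finset (Finset α)) := U.powerset.powerset.filter fun 𝓕 =>
    (∀ T ∈ 𝓕, T.card ≤ k ∧ bad T) ∧ ∀ T ∈ 𝓕, ∀ T' ∈ 𝓕, T ≠ T' → Disjoint T T'
  obtain ⟨𝓕, h𝓕, hmax⟩ := exists_max_image fam card ⟨∅, by simp [fam]⟩
  simp only [fam, mem_filter, mem_powerset] at h𝓕 hmax
  obtain ⟨hsub, hb, hdis⟩ := h𝓕
  have hfin : {S : Finset α | S ⊆ U ∧ S.card = k ∧ bad S}.Finite :=
    (U.powerset.finite_toSet).subset fun S hS => by simpa using hS.1
  refine ⟨𝓕.biUnion id, ?_, ?_, 𝓕.card, ?_, ?_, ?_⟩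
  · intro x hx
    obtain ⟨T, hT, hxT⟩ := mem_biUnion.1 hx
    exact mem_powerset.1 (hsub hT) hxT
  · intro h
    obtain ⟨T, hT, hTc, hTb⟩ := carath l _ h
    have hd : ∀ T' ∈ 𝓕, Disjoint T T' := by
      intro T' hT'
      rw [disjoint_left]
      intro x hx hx'
      exact (mem_sdiff.1 (hT hx)).2 (mem_biUnion.2 ⟨T', hT', hx'⟩)
    have hn : T ∉ 𝓕 := by
      intro h
      obtain ⟨x, hx⟩ := bne T hTb
      exact disjoint_left.1 (hd T h) hx hx
    have := hmax (insert T 𝓕) ⟨?_, ?_, ?_⟩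
    · rw [card_insert_of_notMem hn] at this; omega
    · intro X hX
      rcases mem_insert.1 hX with rfl | hX
      · exact mem_powerset.2 (hT.trans sdiff_subset)
      · exact hsub hX
    · intro X hX
      rcases mem_insert.1 hX with rfl | hX
      · exact ⟨by omega, hTb⟩
      · exact hb X hX
    · intro X hX Y hY hXY
      rcases mem_insert.1 hX with rfl | hX' <;> rcases mem_insert.1 hY with rfl | hY'
      · exact absurd rfl hXY
      · exact hd Y hY'
      · exact (hd X hX').symm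
      · exact hdis X hX' Y hY' hXY
  · refine card_biUnion_le.trans ?_
    rw [mul_comm]
    exact sum_le_card_nsmul _ _ _ fun T hT => (hb T hT).1
  · rcases 𝓕.eq_empty_or_nonempty with rfl | ⟨T, hT⟩
    · exact Or.inl rfl
    · right
      obtain ⟨S, hTS, hSU, hSc⟩ := exists_subsuperset_card_eq (mem_powerset.1 (hsub hT))
        (hb T hT).1 hU
      exact (Set.ncard_pos hfin).2 ⟨S, hSU, hSc, bmono T S hTS (hb T hT).2⟩
  · have hex : ∀ I ∈ 𝓕.powersetCard k, ∃ S : Finset α, (S ⊆ U ∧ S.card = k ∧ bad S) ∧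
        ∀ T ∈ 𝓕, (T ∈ I ↔ ¬ Disjoint T S) := by
      intro I hI
      rw [mem_powersetCard] at hI
      obtain ⟨τ, hτ, h0⟩ := colorful (ι := I) l (by simp [hI.2, hk]) (fun i => i.1)
        (fun i => (hb i.1 (hI.1 i.2)).2)
      have hinj : Function.Injective τ := by
        intro i j hij
        by_contra hne
        exact disjoint_left.1 (hdis _ (hI.1 i.2) _ (hI.1 j.2) (fun h => hne (Subtype.ext h)))
          (hτ i) (hij ▸ hτ j)
      refine ⟨univ.image τ, ⟨?_, ?_, ?_⟩, ?_⟩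
      · intro x hx
        obtain ⟨i, -, rfl⟩ := mem_image.1 hx
        exact mem_powerset.1 (hsub (hI.1 i.2)) (hτ i)
      · rw [card_image_of_injective _ hinj]; simp [hI.2]
      · simp only [bad, coe_image, coe_univ, Set.image_univ]
        rwa [← Set.range_comp]
      · intro T hT
        rw [not_disjoint_iff]
        constructor
        · intro h
          exact ⟨τ ⟨T, h⟩, hτ ⟨T, h⟩, mem_image.2 ⟨_, mem_univ _, rfl⟩⟩
        · rintro ⟨x, hx, hx'⟩
          obtain ⟨i, -, rfl⟩ := mem_image.1 hx'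
          by_contra h
          exact disjoint_left.1 (hdis _ hT _ (hI.1 i.2) (fun h' => h (h' ▸ i.2))) hx (hτ i)
    choose! g hg hg' using hex
    rw [← card_powersetCard, ← Set.ncard_coe_finset]
    refine Set.ncard_le_ncard_of_injOn g (fun I hI => hg I hI) ?_ hfin
    intro I hI J hJ hIJ
    have hI' := (mem_powersetCard.1 hI).1
    have hJ' := (mem_powersetCard.1 hJ).1
    ext T
    constructor
    · intro h
      exact (hg' J hJ T (hI' h)).2 (hIJ ▸ (hg' I hI T (hI' h)).1 h)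
    · intro h
      exact (hg' I hI T (hJ' h)).2 (hIJ ▸ (hg' J hJ T (hJ' h)).1 h)

lemma pow_bound (k M b : ℕ) (hk : 1 ≤ k) (h1 : M = 0 ∨ 1 ≤ b) (h2 : M.choose k ≤ b) :
    ((M : ℝ) / (2 * k)) ^ k ≤ b := by
  have kp : (0 : ℝ) < k := by exact_mod_cast hk
  by_cases hM : M ≤ 2 * k
  · rcases h1 with rfl | h1
    · simp [zero_pow (by omega : k ≠ 0)]
    · refine le_trans (pow_le_one₀ (by positivity) ?_) (by exact_mod_cast h1)
      rw [div_le_one (by positivity)]
      exact_mod_cast hM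
  · have h3 := Nat.pow_le_choose (α := ℝ) k M
    refine le_trans ?_ (h3.trans (by exact_mod_cast h2))
    have e : (M : ℝ) / (2 * k) = (M / 2) / k := by field_simp
    rw [e, div_pow]
    apply div_le_div₀ (by positivity) _ (by positivity)
    · exact_mod_cast Nat.factorial_le_pow k
    · apply pow_le_pow_left₀ (by positivity)
      have : (M : ℝ) ≤ 2 * ((M + 1 - k : ℕ) : ℝ) := by
        exact_mod_cast (by omega : M ≤ 2 * (M + 1 - k))
      linarith

end Pool.Agent.H4.Colorful
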