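import Pool.Agent.H4.Arr

set_option autoImplicit false
set_option maxHeartbeats 400000

namespace Pool.Agent.H4.Cyc

open Finset Polynomial Module LinearMap Pool.Agent.H4.Arr
open scoped Classical

variable {V : Type} [Fintype V]

noncomputable instance (priority := high) decD : DecidableEq (Dual K (Sym2 V → K)) :=
  fun a b => Classical.propDecidable (a = b)

/-- boundary map -/
noncomputable def bd : (Sym2 V → K) →ₗ[K] (V → K) where
  toFun y v := ∑ e, if v ∈ e then y e else 0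
  map_add' y z := by
    ext v; simp only [Pi.add_apply, ← sum_add_distrib]
    exact sum_congr rfl fun i _ => by split_ifs <;> simp
  map_smul' c y := by
    ext v; simp only [Pi.smul_apply, smul_eq_mul, RingHom.id_apply, mul_sum]
    exact sum_congr rfl fun i _ => by split_ifs <;> simp

/-- restriction outside `H` -/
noncomputable def out (H : Finset (Sym2 V)) : (Sym2 V → K) →ₗ[K] (Sym2 V → K) where
  toFun y e := if e ∈ H then 0 else y e
  map_add' y z := by ext e; simp only [Pi.add_apply]; split_ifs <;> simp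
  map_smul' c y := by ext e; simp

/-- cycle space of `H` -/
noncomputable def Y (H : Finset (Sym2 V)) : Submodule K (Sym2 V → K) := ker (bd.prod (out H))

lemma mem_Y {H : Finset (Sym2 V)} {y : Sym2 V → K} :
    y ∈ Y H ↔ bd y = 0 ∧ ∀ e, e ∉ H → y e = 0 := by
  simp [Y, out, funext_iff]

/-- coordinate functionals -/
noncomputable def pr (e : Sym2 V) : Dual K (Sym2 V → K) := LinearMap.proj e

omit [Fintype V] in
@[simp] lemma pr_apply (e : Sym2 V) (y : Sym2 V → K) : pr e y = y e := rfl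

omit [Fintype V] in
lemma pr_inj : Function.Injective (pr (V := V)) := fun e g h => by
  have := congrArg (fun φ : Dual K (Sym2 V → K) => φ (Pi.single e 1)) h
  by_contra hc
  simp [Ne.symm hc] at this

noncomputable def F (H : Finset (Sym2 V)) : ℤ[X] := f (Y H) (H.image pr)
noncomputable def dm (H : Finset (Sym2 V)) : ℕ := finrank K (Y H)
def BL (H : Finset (Sym2 V)) : Prop := ∀ e ∈ H, ∃ y ∈ Y H, y e ≠ 0

variable {H H2 : Finset (Sym2 V)} {G : SimpleGraph V} {e g : Sym2 V} {u v p q : V}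

lemma Y_mono (h : H ⊆ H2) : Y H ≤ Y H2 := fun _ hy =>
  mem_Y.2 ⟨(mem_Y.1 hy).1, fun e he => (mem_Y.1 hy).2 e fun h' => he (h h')⟩

lemma Y_erase : Y H ⊓ ker (pr e) = Y (H.erase e) := by
  ext y
  simp only [Submodule.mem_inf, mem_Y, mem_ker, pr_apply, mem_erase, not_and_or, not_not]
  exact ⟨fun ⟨⟨a, b⟩, c⟩ => ⟨a, fun g hg => hg.elim (fun h => h ▸ c) (b g)⟩,
    fun ⟨a, b⟩ => ⟨⟨a, fun g hg => b g (Or.inr hg)⟩, b e (Or.inl rfl)⟩⟩

lemma fl_Y (T : Finset (Sym2 V)) : fl (Y H) (T.image pr) = Y (H \ T) := by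
  ext y
  simp only [fl, Submodule.mem_inf, mem_Y, Submodule.mem_iInf, mem_ker, mem_image,
    forall_exists_index, and_imp, forall_apply_eq_imp_iff₂, pr_apply, mem_sdiff, not_and_or, not_not]
  exact ⟨fun ⟨⟨a, b⟩, c⟩ => ⟨a, fun g hg => hg.elim (b g) (c g)⟩,
    fun ⟨a, b⟩ => ⟨⟨a, fun g hg => b g (Or.inl hg)⟩, fun g hg => b g (Or.inr hg)⟩⟩

/-- the neighbours of `u` are exactly the distinct vertices `v`, `p`, `q` -/
structure Nb (G : SimpleGraph V) (u v p q : V) : Prop where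
  v1 : G.Adj u v
  p1 : G.Adj u p
  q1 : G.Adj u q
  pv : p ≠ v
  qv : q ≠ v
  pq : p ≠ q
  all : ∀ w, G.Adj u w → w = v ∨ w = p ∨ w = q

lemma ex_nb (h3 : ∀ v, G.degree v = 3) (h : G.Adj u v) : ∃ p q, Nb G u v p q := by
  have h1 : ((G.neighborFinset u).erase v).card = 2 := by
    rw [card_erase_of_mem (by simpa using h), SimpleGraph.card_neighborFinset_eq_degree, h3]
  obtain ⟨p, q, pq, h2⟩ := card_eq_two.1 h1
  have k : ∀ w, w ≠ v ∧ G.Adj u w ↔ w = p ∨ w = q := fun w => by simpa using Finset.ext_iff.1 h2 w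
  refine ⟨p, q, h, ((k p).2 (Or.inl rfl)).2, ((k q).2 (Or.inr rfl)).2, ((k p).2 (Or.inl rfl)).1,
    ((k q).2 (Or.inr rfl)).1, pq, fun w hw => ?_⟩
  by_cases c : w = v
  · exact Or.inl c
  · exact Or.inr ((k w).1 ⟨c, hw⟩)

omit [Fintype V] in
lemma Nb.swap (h : Nb G u v p q) : Nb G u v q p :=
  ⟨h.v1, h.q1, h.p1, h.qv, h.pv, h.pq.symm, fun w hw => by have := h.all w hw; tauto⟩

omit [Fintype V] in
lemma Nb.rot (h : Nb G u v p q) : Nb G u p v q :=
  ⟨h.p1, h.v1, h.q1, h.pv.symm, h.pq.symm, h.qv.symm, fun w hw => by have := h.all w hw; tauto⟩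

lemma Nb.edge (h : Nb G u v p q) (he : e ∈ G.edgeFinset) (hu : u ∈ e) :
    e = s(u, v) ∨ e = s(u, p) ∨ e = s(u, q) := by
  obtain ⟨w, rfl⟩ := Sym2.mem_iff_exists.1 hu
  rcases h.all w (by simpa using he) with rfl | rfl | rfl <;> simp

lemma Nb.rel (h : Nb G u v p q) (hH : H ⊆ G.edgeFinset) {y : Sym2 V → K} (hy : y ∈ Y H) :
    y s(u, v) = y s(u, p) + y s(u, q) := by
  have h1 : ∑ e, (if u ∈ e then y e else 0) = 0 := congrFun (mem_Y.1 hy).1 u
  rw [← sum_subset (subset_univ {s(u, v), s(u, p), s(u, q)}) (fun e _ he => by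
    split_ifs with hu
    · refine (mem_Y.1 hy).2 e fun h' => he ?_
      simpa using h.edge (hH h') hu
    · rfl), sum_insert (by simp [h.pv.symm, h.qv.symm, h.p1.ne, h.q1.ne]),
    sum_insert (by simp [h.pq, h.q1.ne]), sum_singleton] at h1
  simp only [Sym2.mem_iff, true_or, if_true] at h1
  exact kz _ _ h1.symm

lemma ext_step (h2 : BL H2) (h : BL H) (hs : H ⊆ H2) (hg : g ∈ H2) (hg' : g ∉ H) :
    ∃ H1, H ⊆ H1 ∧ H1 ⊆ H2 ∧ g ∈ H1 ∧ BL H1 ∧ Y H1 ⊓ ker (pr g) = Y H ∧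
      F H1 = f (Y H1) (insert (pr g) (H.image pr)) ∧ ∃ y ∈ Y H1, pr g y ≠ 0 := by
  obtain ⟨y, hy, hmin⟩ := exists_min_image (univ.filter (fun y => y ∈ Y H2 ∧ y g ≠ 0))
    (fun y => (univ.filter (fun e => y e ≠ 0 ∧ e ∉ H)).card)
    (by obtain ⟨y, a, b⟩ := h2 g hg; exact ⟨y, by simp [a, b]⟩)
  simp only [mem_filter, mem_univ, true_and] at hy hmin
  set H1 := H ∪ univ.filter (fun e => y e ≠ 0) with hH1
  have m1 : ∀ e, e ∈ H1 ↔ e ∈ H ∨ y e ≠ 0 := fun e => by simp [hH1]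
  have s2 : H1 ⊆ H2 := fun e he => ((m1 e).1 he).elim (fun a => hs a) fun a => by
    by_contra b; exact a ((mem_Y.1 hy.1).2 e b)
  have y1 : y ∈ Y H1 := mem_Y.2 ⟨(mem_Y.1 hy.1).1, fun e he => by
    by_contra b; exact he ((m1 e).2 (Or.inr b))⟩
  have k : ∀ z ∈ Y H1, z g = 0 → z ∈ Y H := by
    intro z hz z0
    refine mem_Y.2 ⟨(mem_Y.1 hz).1, fun e he => ?_⟩
    by_contra b
    have ye : y e ≠ 0 := ((m1 e).1 (by by_contra c; exact b ((mem_Y.1 hz).2 e c))).resolve_left he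
    refine absurd (hmin (y + z) ⟨Submodule.add_mem _ hy.1 (Y_mono s2 hz), by simpa [z0] using hy.2⟩)
      (not_le.2 (card_lt_card ⟨?_, fun c => ?_⟩))
    · intro e'
      simp only [mem_filter, mem_univ, true_and, Pi.add_apply]
      refine fun c => ⟨fun c' => c.1 ?_, c.2⟩
      rw [c', (mem_Y.1 hz).2 e' (by simp [m1, c', c.2]), add_zero]
    · have := c (show e ∈ _ by simp [ye, he])
      simp [kn _ _ ye b] at this
  refine ⟨H1, subset_union_left, s2, (m1 g).2 (Or.inr hy.2), fun e he => ?_, ?_, ?_, y, y1, hy.2⟩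
  · rcases (m1 e).1 he with a | a
    · obtain ⟨z, b, c⟩ := h e a
      exact ⟨z, Y_mono subset_union_left b, c⟩
    · exact ⟨y, y1, a⟩
  · exact le_antisymm (fun z hz => k z hz.1 hz.2) fun z hz =>
      ⟨Y_mono subset_union_left hz, (mem_Y.1 hz).2 g hg'⟩
  · rw [F, ← par_set (S := insert (pr g) (H.image pr)) ((H1 \ H).image pr)]
    · refine congrArg (f _) ?_
      rw [← image_insert, ← image_union]
      refine congrArg (image pr) (Finset.ext fun e => ?_)
      have := (m1 g).2 (Or.inr hy.2)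
      simp only [mem_union, mem_sdiff, mem_insert]
      refine ⟨fun a => by tauto, ?_⟩
      rintro (a | rfl | a)
      exacts [a.1, this, (m1 e).2 (Or.inl a)]
    · intro φ hφ
      obtain ⟨e, he, rfl⟩ := mem_image.1 hφ
      refine ⟨pr g, mem_insert_self _ _, fun z hz => ?_⟩
      have he' := (mem_sdiff.1 he).2
      have ye := ((m1 e).1 (mem_sdiff.1 he).1).resolve_left he'
      simp only [pr_apply]
      by_cases z0 : z g = 0
      · rw [z0, (mem_Y.1 (k z hz z0)).2 e he']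
      · have := (mem_Y.1 (k (z + y) (Submodule.add_mem _ hz y1) (kn _ _ z0 hy.2))).2 e he'
        rw [kz _ _ this.symm]
        exact kz _ _ (kn _ _ ye z0).symm

/-- the edge `e` crosses `A` -/
def cr (A : Finset V) : Sym2 V → Prop :=
  Sym2.lift ⟨fun u v => ¬ (u ∈ A ↔ v ∈ A), fun u v => by simp [iff_comm]⟩

omit [Fintype V] in
@[simp] lemma cr_mk (A : Finset V) (u v : V) : cr A s(u, v) ↔ ¬ (u ∈ A ↔ v ∈ A) := Iff.rfl

lemma up (h3 : ∀ v, G.degree v = 3) (hE : H2 ⊆ G.edgeFinset) (h2 : BL H2)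
    (hc : ∀ A : Finset V, A.Nonempty → A ≠ univ → ∃ e ∈ H2, cr A e) (m : ℕ) :
    ∀ H, H ⊆ H2 → (H2 \ H).card ≤ m → BL H → H.Nonempty →
      ∃ k, dm H2 = dm H + k ∧ NN (F H2 - (X + 2) ^ k * F H) := by
  induction m with
  | zero =>
    intro H hs hm _ _
    obtain rfl : H = H2 := hs.antisymm (sdiff_eq_empty_iff_subset.1 (card_eq_zero.1 (by omega)))
    exact ⟨0, rfl, nn_zero.of_eq (by ring)⟩
  | succ m ih =>
    intro H hs hm h hne
    by_cases he : H2 ⊆ H
    · obtain rfl : H = H2 := hs.antisymm he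
      exact ⟨0, rfl, nn_zero.of_eq (by ring)⟩
    obtain ⟨u, v, hg, hg', a, ha, hua⟩ : ∃ u v, s(u, v) ∈ H2 ∧ s(u, v) ∉ H ∧ ∃ a ∈ H, u ∈ a := by
      by_cases hX : univ.filter (fun u => ∃ a ∈ H, u ∈ a) = univ
      · obtain ⟨g, a, b⟩ := not_subset.1 he
        induction g with
        | h u v => exact ⟨u, v, a, b, by simpa using Finset.ext_iff.1 hX u⟩
      · obtain ⟨g, a, b⟩ := hc _ (by
          obtain ⟨g, hg⟩ := hne
          induction g with
          | h u v => exact ⟨u, by simpa using ⟨_, hg, by simp⟩⟩) hX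
        induction g with
        | h u v =>
          simp only [cr_mk, mem_filter, mem_univ, true_and] at b
          have c : s(u, v) ∉ H := fun c => b (iff_of_true ⟨_, c, by simp⟩ ⟨_, c, by simp⟩)
          by_cases d : ∃ a ∈ H, u ∈ a
          · exact ⟨u, v, a, c, d⟩
          · exact ⟨v, u, Sym2.eq_swap ▸ a, Sym2.eq_swap ▸ c, by tauto⟩
    obtain ⟨p, q, nb, hp⟩ : ∃ p q, Nb G u v p q ∧ s(u, p) ∈ H := by
      obtain ⟨p, q, nb⟩ := ex_nb h3 (u := u) (v := v) (by simpa using hE hg)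
      rcases nb.edge (hE (hs ha)) hua with rfl | rfl | rfl
      exacts [(hg' ha).elim, ⟨p, q, nb, ha⟩, ⟨q, p, nb.swap, ha⟩]
    have hq : s(u, q) ∈ H := by
      by_contra hq
      obtain ⟨y, y1, y2⟩ := h _ hp
      have := nb.rel (hs.trans hE) y1
      rw [(mem_Y.1 y1).2 _ hg', (mem_Y.1 y1).2 _ hq, add_zero] at this
      exact y2 this.symm
    obtain ⟨H1, s1, s2, g1, b1, e1, e2, y, y1, y2⟩ := ext_step h2 h hs hg hg'
    obtain ⟨k, k1, k2⟩ := ih H1 s2 (by
      have : (H2 \ H1).card < (H2 \ H).card := card_lt_card ⟨sdiff_subset_sdiff subset_rfl s1,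
        fun c => (mem_sdiff.1 (c (mem_sdiff.2 ⟨hg, hg'⟩))).2 g1⟩
      omega) b1 ⟨_, g1⟩
    have k3 := K1 (mem_image_of_mem pr hp) (mem_image_of_mem pr hq)
      (fun z hz => nb.rel (s2.trans hE) hz) y1 y2
    have k4 := dim_ker y1 y2
    rw [e1] at k3 k4
    rw [← e2] at k3
    refine ⟨k + 1, by unfold dm at *; omega, (k2.add ((nn_x2.pow k).mul k3)).of_eq ?_⟩
    unfold F; ring

lemma low (h3 : ∀ v, G.degree v = 3) (hE : H2 ⊆ G.edgeFinset) (h2 : BL H2) (hne : H2.Nonempty)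
    (hc : ∀ A : Finset V, A.Nonempty → A ≠ univ → ∃ e ∈ H2, cr A e) :
    ∃ k, dm H2 = k + 1 ∧ NN (F H2 - (X + 1) * (X + 2) ^ k) := by
  obtain ⟨g, hg⟩ := hne
  obtain ⟨H1, -, s2, g1, b1, e1, e2, y, y1, y2⟩ := ext_step (H := ∅) h2 (by simp [BL])
    (empty_subset _) hg (by simp)
  obtain ⟨k, k1, k2⟩ := up h3 hE h2 hc _ H1 s2 le_rfl b1 ⟨g, g1⟩
  have k4 := dim_ker y1 y2
  have : Y (∅ : Finset (Sym2 V)) = ⊥ := eq_bot_iff.2 fun z hz =>
    (Submodule.mem_bot K).2 (funext fun e => (mem_Y.1 hz).2 e (by simp))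
  rw [e1, this, finrank_bot] at k4
  rw [image_empty, insert_empty_eq, one_f y1 y2 k4] at e2
  refine ⟨k, by unfold dm at *; omega, k2.of_eq ?_⟩
  rw [e2]; ring

lemma dual (hE : H ⊆ G.edgeFinset) (ψ : Dual K (Sym2 V → K)) (h : ∀ y ∈ Y H, ψ y = 0) :
    ∃ A : Finset V, ∀ e ∈ H, cr A e ↔ ψ (Pi.single e 1) ≠ 0 := by
  have : ψ ∈ (ker (bd.prod (out H))).dualAnnihilator := (Submodule.mem_dualAnnihilator _).2 h
  rw [← range_dualMap_eq_dualAnnihilator_ker] at this
  obtain ⟨θ, rfl⟩ := this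
  refine ⟨univ.filter (fun v => θ (Pi.single v 1, 0) = 1), fun e he => ?_⟩
  induction e with
  | h u v =>
    have huv : u ≠ v := SimpleGraph.Adj.ne (G := G) (by simpa using hE he)
    have e1 : (bd.prod (out H)) (Pi.single s(u, v) 1) = (Pi.single u 1, 0) + (Pi.single v 1, 0) := by
      ext w
      · simp only [bd, LinearMap.prod_apply, Function.prod, LinearMap.coe_mk, AddHom.coe_mk, Prod.mk_add_mk,
          Pi.add_apply, Pi.single_apply]
        rw [sum_eq_single s(u, v) (fun b _ hb => by simp [hb]) (by simp)]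
        by_cases a : w = u <;> by_cases b : w = v <;> simp_all
      · simp only [out, LinearMap.prod_apply, Function.prod, LinearMap.coe_mk, AddHom.coe_mk, Prod.mk_add_mk,
          Pi.add_apply, Pi.single_apply, Pi.zero_apply, add_zero]
        split_ifs with a b
        · rfl
        · exact (a (b ▸ he)).elim
        · rfl
    rw [dualMap_apply, e1, map_add, cr_mk]
    simp only [mem_filter, mem_univ, true_and]
    generalize θ (Pi.single u 1, 0) = a
    generalize θ (Pi.single v 1, 0) = b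
    revert a b; decide

lemma bl_of (hE : H ⊆ G.edgeFinset) (h : ∀ A, ∀ g ∈ H, ¬ ∀ e ∈ H, cr A e ↔ e = g) : BL H := by
  intro g hg
  by_contra hc
  push Not at hc
  obtain ⟨A, hA⟩ := dual hE (pr g) hc
  refine h A g hg fun e he => (hA e he).trans ?_
  simp [Pi.single_apply, eq_comm]

lemma good {r t : V} (hE : H ⊆ G.edgeFinset) (hb : BL H) (he : s(u, v) ∈ H) (nu : Nb G u v p q)
    (nv : Nb G v u r t) (hp : s(u, p) ∈ H) (hq : s(u, q) ∈ H) (hr : s(v, r) ∈ H) (ht : s(v, t) ∈ H)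
    (h : ∀ A : Finset V, u ∉ A → v ∉ A → ∀ a c, G.Adj u a → G.Adj v c → a ∈ A → c ∈ A →
      ¬ ∀ e ∈ H, cr A e ↔ (e = s(u, a) ∨ e = s(v, c))) :
    dm H = dm (H.erase s(u, v)) + 1 ∧ NN (F H - (X + 3) * F (H.erase s(u, v))) := by
  obtain ⟨y, y1, y2⟩ := hb _ he
  have m : ∀ {x : Sym2 V}, x ∈ H → x ≠ s(u, v) → pr x ∈ (H.erase s(u, v)).image pr :=
    fun a b => mem_image_of_mem pr (mem_erase.2 ⟨b, a⟩)
  have uv := nu.v1.ne
  have n1 := nu.p1.ne; have n2 := nu.q1.ne; have n3 := nv.p1.ne; have n4 := nv.q1.ne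
  have n5 := nu.pv; have n6 := nu.qv; have n7 := nv.pv; have n8 := nv.qv
  have n9 := nu.pq; have n10 := nv.pq
  obtain ⟨z, z1, z2⟩ : ∃ z ∈ Y (H.erase s(u, v)), z s(u, p) + z s(v, r) ≠ 0 := by
    by_contra hc
    push Not at hc
    obtain ⟨A, hA⟩ := dual ((erase_subset _ _).trans hE) (pr s(u, p) + pr s(v, r)) hc
    have k : ∀ e ∈ H, e ≠ s(u, v) → (cr A e ↔ (e = s(u, p) ∨ e = s(v, r))) := by
      intro e a b
      rw [hA e (mem_erase.2 ⟨b, a⟩)]
      have : s(u, p) ≠ s(v, r) := by simp [uv, n5]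
      by_cases c : s(u, p) = e <;> by_cases d : s(v, r) = e
      · exact (this (c.trans d.symm)).elim
      all_goals simp [Pi.single_apply, c, d, eq_comm (a := e)]
    have k1 := (k _ hp (by simp [n5, uv])).2 (Or.inl rfl)
    have k2 := (k _ hq (by simp [n6, uv])).not.2 (by simp [n9.symm, n1, uv, n6])
    have k3 := (k _ hr (by simp [n7, uv.symm])).2 (Or.inr rfl)
    have k4 := (k _ ht (by simp [n8, uv.symm])).not.2 (by simp [n10.symm, n3, uv.symm, n5.symm])
    simp only [cr_mk] at k1 k2 k3 k4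
    obtain ⟨a, a', na, a1, a2⟩ : ∃ a a', Nb G u v a a' ∧ a ∈ A ∧ a' ∉ A := by
      by_cases c : p ∈ A
      · exact ⟨p, q, nu, c, by tauto⟩
      · exact ⟨q, p, nu.swap, by tauto, c⟩
    obtain ⟨c, c', nc, c1, c2⟩ : ∃ c c', Nb G v u c c' ∧ c ∈ A ∧ c' ∉ A := by
      by_cases c : r ∈ A
      · exact ⟨r, t, nv, c, by tauto⟩
      · exact ⟨t, r, nv.swap, by tauto, c⟩
    have a3 := na.p1.ne; have a4 := na.pv; have c3 := nc.p1.ne; have c4 := nc.pv
    refine h ((A.erase u).erase v) (by simp) (by simp) a c na.p1 nc.p1 (by simp [a1, a3.symm, a4])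
      (by simp [c1, c3.symm, c4]) fun e he' => ?_
    by_cases eu : u ∈ e
    · rcases na.edge (hE he') eu with rfl | rfl | rfl
      · simp [a4.symm, a3, uv, c4.symm]
      · simp [a1, a3.symm, a4]
      · simp [a2, na.pq.symm, a3, uv, na.qv]
    by_cases ev : v ∈ e
    · rcases nc.edge (hE he') ev with rfl | rfl | rfl
      · simp at eu
      · simp [c1, c3.symm, c4]
      · simp [c2, nc.pq.symm, c3, uv.symm, a4.symm]
    have k5 := k e he' (by rintro rfl; simp at eu)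
    induction e with
    | h x w =>
      simp only [Sym2.mem_iff, not_or] at eu ev
      rw [iff_false_intro (show ¬ (s(x, w) = s(u, p) ∨ s(x, w) = s(v, r)) by
        simp [Ne.symm eu.1, Ne.symm eu.2, Ne.symm ev.1, Ne.symm ev.2])] at k5
      simpa [Ne.symm eu.1, Ne.symm eu.2, Ne.symm ev.1, Ne.symm ev.2] using k5
  have k3 := K2 (e := pr s(u, v)) (m hp (by simp [n5, uv])) (m hq (by simp [n6, uv]))
    (m hr (by simp [n7, uv.symm])) (m ht (by simp [n8, uv.symm])) (fun z hz => nu.rel hE hz)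
    (fun z hz => by rw [pr_apply, Sym2.eq_swap]; exact nv.rel hE hz) y1 y2 (by rw [Y_erase]; exact z1) z2
  have k4 := dim_ker (φ := pr s(u, v)) y1 y2
  rw [Y_erase] at k3 k4
  rw [← image_insert, insert_erase he] at k3
  exact ⟨k4, k3⟩

end Pool.Agent.H4.Cyc
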