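import Pool.Agent.H4.Cyc

set_option autoImplicit false
set_option maxHeartbeats 400000

namespace Pool.Agent.H4.Cyc

open Finset Polynomial Module LinearMap Pool.Agent.H4.Arr
open scoped Classical

variable {V : Type} [Fintype V] {G : SimpleGraph V} {A B Z : Finset V} {u v p q : V}
  {e g : Sym2 V}

/-- edge cut -/
noncomputable def dl (G : SimpleGraph V) (A : Finset V) : Finset (Sym2 V) :=
  G.edgeFinset.filter (cr A)

lemma mem_dl : e ∈ dl G A ↔ e ∈ G.edgeFinset ∧ cr A e := mem_filter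

lemma sub1 (A B : Finset V) :
    (dl G (A ∩ B)).card + (dl G (A ∪ B)).card ≤ (dl G A).card + (dl G B).card := by
  simp only [dl, card_filter, ← sum_add_distrib]
  refine sum_le_sum fun e _ => ?_
  induction e with
  | h u v =>
    by_cases a : u ∈ A <;> by_cases b : u ∈ B <;> by_cases c : v ∈ A <;> by_cases d : v ∈ B <;>
      simp [a, b, c, d]

lemma sub2 (A B : Finset V) :
    (dl G (A \ B)).card + (dl G (B \ A)).card ≤ (dl G A).card + (dl G B).card := by
  simp only [dl, card_filter, ← sum_add_distrib]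
  refine sum_le_sum fun e _ => ?_
  induction e with
  | h u v =>
    by_cases a : u ∈ A <;> by_cases b : u ∈ B <;> by_cases c : v ∈ A <;> by_cases d : v ∈ B <;>
      simp [a, b, c, d]

lemma cr_compl : cr Aᶜ e ↔ cr A e := by
  induction e with
  | h u v => simp only [cr_mk, mem_compl]; tauto

lemma dl_compl : dl G Aᶜ = dl G A := filter_congr fun _ _ => cr_compl

lemma cr_ne (h : cr A e) : A.Nonempty ∧ A ≠ univ := by
  induction e with
  | h u v =>
    refine ⟨nonempty_iff_ne_empty.2 ?_, ?_⟩ <;> rintro rfl <;> simp at h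

/-- no bad cut at the edge `uv` in the edge set `H` -/
def NoBad (G : SimpleGraph V) (H : Finset (Sym2 V)) (u v : V) : Prop :=
  ∀ A : Finset V, u ∉ A → v ∉ A → ∀ a c, G.Adj u a → G.Adj v c → a ∈ A → c ∈ A →
    ¬ ∀ e ∈ H, cr A e ↔ (e = s(u, a) ∨ e = s(v, c))

/-- the selected pair of edges -/
structure Sel (G : SimpleGraph V) (u v x y : V) : Prop where
  a1 : G.Adj u v
  a2 : G.Adj x y
  ux : u ≠ x
  uy : u ≠ y
  vx : v ≠ x
  vy : v ≠ y
  hA : ∀ A, cr A s(u, v) → 3 ≤ (dl G A).card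
  hB : NoBad G G.edgeFinset u v
  hC : ∀ A, cr A s(x, y) → 3 ≤ ((dl G A).erase s(u, v)).card
  hD : NoBad G (G.edgeFinset.erase s(u, v)) x y

lemma bound (h3 : ∀ v, G.degree v = 3)
    (two : ∀ A : Finset V, A.Nonempty → A ≠ univ → 2 ≤ (dl G A).card) {x y : V}
    (s : Sel G u v x y) : ∃ k, dm G.edgeFinset = k + 3 ∧
      NN (F G.edgeFinset - (X + 1) * (X + 2) ^ k * (X + 3) ^ 2) := by
  have c1 : ∀ A : Finset V, A.Nonempty → A ≠ univ → 2 ≤ ((dl G A).erase s(u, v)).card := by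
    intro A a b
    by_cases c : cr A s(u, v)
    · have := s.hA A c
      have := pred_card_le_card_erase (s := dl G A) (a := s(u, v))
      omega
    · rw [erase_eq_of_notMem fun h => c (mem_dl.1 h).2]; exact two A a b
  have c2 : ∀ A : Finset V, A.Nonempty → A ≠ univ →
      2 ≤ (((dl G A).erase s(u, v)).erase s(x, y)).card := by
    intro A a b
    by_cases c : cr A s(x, y)
    · have := s.hC A c
      have := pred_card_le_card_erase (s := (dl G A).erase s(u, v)) (a := s(x, y))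
      omega
    · rw [erase_eq_of_notMem fun h => c (mem_dl.1 (mem_of_mem_erase h)).2]; exact c1 A a b
  have one : ∀ (D : Finset (Sym2 V)) g, 2 ≤ D.card → ¬ ∀ e ∈ D, e = g := fun D g a b => by
    have := card_le_one.2 fun x hx y hy => (b x hx).trans (b y hy).symm
    omega
  have b0 : BL G.edgeFinset := bl_of subset_rfl fun A g hg h =>
    have k := cr_ne ((h g hg).2 rfl)
    one _ g (two A k.1 k.2) fun e he => (h e (mem_dl.1 he).1).1 (mem_dl.1 he).2
  have b1 : BL (G.edgeFinset.erase s(u, v)) := bl_of (erase_subset _ _) fun A g hg h =>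
    have k := cr_ne ((h g hg).2 rfl)
    one _ g (c1 A k.1 k.2) fun e he => by
      simp only [mem_erase, mem_dl] at he h
      exact (h e ⟨he.1, he.2.1⟩).1 he.2.2
  have s2 : (G.edgeFinset.erase s(u, v)).erase s(x, y) ⊆ G.edgeFinset :=
    (erase_subset _ _).trans (erase_subset _ _)
  have b2 : BL ((G.edgeFinset.erase s(u, v)).erase s(x, y)) := bl_of s2 fun A g hg h =>
    have k := cr_ne ((h g hg).2 rfl)
    one _ g (c2 A k.1 k.2) fun e he => by
      simp only [mem_erase, mem_dl] at he h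
      exact (h e ⟨he.1, he.2.1, he.2.2.1⟩).1 he.2.2.2
  have cn : ∀ A : Finset V, A.Nonempty → A ≠ univ →
      ∃ e ∈ (G.edgeFinset.erase s(u, v)).erase s(x, y), cr A e := fun A a b => by
    obtain ⟨e, he⟩ := card_pos.1 (lt_of_lt_of_le two_pos (c2 A a b))
    simp only [mem_erase, mem_dl] at he
    exact ⟨e, mem_erase.2 ⟨he.1, mem_erase.2 ⟨he.2.1, he.2.2.1⟩⟩, he.2.2.2⟩
  obtain ⟨k, k1, k2⟩ := low h3 s2 b2 (by
    obtain ⟨e, he, -⟩ := cn {u} (by simp) (fun h => s.ux (by simpa [eq_comm] using Finset.ext_iff.1 h x))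
    exact ⟨e, he⟩) cn
  obtain ⟨p, q, nu⟩ := ex_nb h3 s.a1
  obtain ⟨r, t, nv⟩ := ex_nb h3 s.a1.symm
  obtain ⟨p', q', nx⟩ := ex_nb h3 s.a2
  obtain ⟨r', t', ny⟩ := ex_nb h3 s.a2.symm
  obtain ⟨d1, g1⟩ := good subset_rfl b0 (by simpa using s.a1) nu nv (by simpa using nu.p1)
    (by simpa using nu.q1) (by simpa using nv.p1) (by simpa using nv.q1) s.hB
  have m : ∀ a b, G.Adj a b → u ≠ a → v ≠ a → s(a, b) ∈ G.edgeFinset.erase s(u, v) :=
    fun a b h1 h2 h3 => by simp [h1, h2.symm, h3.symm]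
  obtain ⟨d2, g2⟩ := good (erase_subset _ _) b1 (m _ _ s.a2 s.ux s.vx) nx ny (m _ _ nx.p1 s.ux s.vx)
    (m _ _ nx.q1 s.ux s.vx) (m _ _ ny.p1 s.uy s.vy) (m _ _ ny.q1 s.uy s.vy) s.hD
  exact ⟨k, by omega, ((g1.add (nn_x3.mul g2)).add ((nn_x3.pow 2).mul k2)).of_eq (by ring)⟩

lemma inside (h3 : ∀ v, G.degree v = 3) (h : (dl G Z).card < 3 * Z.card) :
    ∃ u v, G.Adj u v ∧ u ∈ Z ∧ v ∈ Z := by
  by_contra hc
  push Not at hc
  have : (Z.biUnion fun u => (G.neighborFinset u).image (s(u, ·))) ⊆ dl G Z := by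
    intro e he
    simp only [mem_biUnion, mem_image, SimpleGraph.mem_neighborFinset] at he
    obtain ⟨u, a, v, b, rfl⟩ := he
    simp [mem_dl, a, b, hc u v b a]
  have h1 := card_le_card this
  rw [card_biUnion, sum_congr rfl (g := fun _ => 3) fun u _ => by
    rw [card_image_of_injective _ (fun a b h => Sym2.congr_right.1 h),
      SimpleGraph.card_neighborFinset_eq_degree, h3]] at h1
  · simp at h1; omega
  · intro u a w b uw
    refine disjoint_left.2 fun e h1 h2 => ?_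
    simp only [mem_image, SimpleGraph.mem_neighborFinset] at h1 h2
    obtain ⟨v, c, rfl⟩ := h1
    obtain ⟨x, d, h2⟩ := h2
    rcases Sym2.eq_iff.1 h2 with h | h
    · exact uw h.1.symm
    · exact hc u v c a (h.1 ▸ b)

/-- a minimal side of a cut with at most two edges -/
def Min2 (G : SimpleGraph V) (Z : Finset V) : Prop :=
  Z.Nonempty ∧ (dl G Z).card ≤ 2 ∧ ∀ B ⊂ Z, B.Nonempty → 3 ≤ (dl G B).card

lemma ex_min2 (a : A.Nonempty) (b : (dl G A).card ≤ 2) : ∃ Z ⊆ A, Min2 G Z := by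
  obtain ⟨Z, hZ, h⟩ := exists_min_image (A.powerset.filter fun Z => Z.Nonempty ∧ (dl G Z).card ≤ 2)
    card ⟨A, by simp [a, b]⟩
  simp only [mem_filter, mem_powerset] at hZ h
  refine ⟨Z, hZ.1, hZ.2.1, hZ.2.2, fun B c d => ?_⟩
  by_contra k
  exact absurd (h B ⟨c.1.trans hZ.1, d, by omega⟩) (not_le.2 (card_lt_card c))

omit [Fintype V] in
lemma spl (hu : u ∈ Z) (hv : v ∈ Z) (h : cr A s(u, v)) :
    (Z \ A ⊂ Z ∧ (Z \ A).Nonempty) ∧ (Z ∩ A ⊂ Z ∧ (Z ∩ A).Nonempty) := by
  obtain ⟨a, b, a1, b1, a2, b2⟩ : ∃ a b, a ∈ Z ∧ b ∈ Z ∧ a ∈ A ∧ b ∉ A := by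
    rw [cr_mk] at h
    by_cases c : u ∈ A
    · exact ⟨u, v, hu, hv, c, by tauto⟩
    · exact ⟨v, u, hv, hu, by tauto, c⟩
  exact ⟨⟨⟨sdiff_subset, fun k => (mem_sdiff.1 (k a1)).2 a2⟩, b, mem_sdiff.2 ⟨b1, b2⟩⟩,
    ⟨inter_subset_left, fun k => b2 (mem_inter.1 (k b1)).2⟩, a, mem_inter.2 ⟨a1, a2⟩⟩

lemma m1 (two : ∀ A : Finset V, A.Nonempty → A ≠ univ → 2 ≤ (dl G A).card) (hZ : Min2 G Z)
    (hu : u ∈ Z) (hv : v ∈ Z) (h : cr A s(u, v)) : 3 ≤ (dl G A).card := by
  obtain ⟨⟨a, b⟩, c, d⟩ := spl hu hv h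
  have h1 := hZ.2.2 _ a b
  have h2 := sub2 (G := G) Z A
  have h4 := hZ.2.1
  by_cases k : (A \ Z).Nonempty
  · have := two _ k (fun h => by simpa [hu] using Finset.ext_iff.1 h u)
    omega
  · have := hZ.2.2 _ c d
    rwa [inter_eq_right.2 (sdiff_eq_empty_iff_subset.1 (not_nonempty_iff_eq_empty.1 k))] at this

lemma m3 (h3 : ∀ v, G.degree v = 3) (hZ : Min2 G Z) (H : Finset (Sym2 V))
    (hX : ∀ A a b, a ∈ Z → b ∈ Z → G.Adj a b → cr A s(a, b) → 3 ≤ (H.filter (cr A)).card)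
    (hu : u ∈ Z) (hv : v ∈ Z) (huv : G.Adj u v) : NoBad G H u v := by
  intro A ua va a c ha hc aA cA h
  have k : (H.filter (cr A)).card ≤ 2 := le_trans (card_le_card fun e he => by
    simpa using (h e (mem_filter.1 he).1).1 (mem_filter.1 he).2) (card_le_two (a := s(u, a)) (b := s(v, c)))
  have aZ : a ∉ Z := fun aZ => by have := hX A u a hu aZ ha (by simp [ua, aA]); omega
  have cZ : c ∉ Z := fun cZ => by have := hX A v c hv cZ hc (by simp [va, cA]); omega
  have e1 : {s(u, a), s(v, c)} = dl G Z := by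
    refine eq_of_subset_of_card_le ?_ (hZ.2.1.trans (card_pair ?_).ge)
    · simp [insert_subset_iff, mem_dl, ha, hc, hu, hv, aZ, cZ]
    · simp only [ne_eq, Sym2.eq_iff, huv.ne, false_and, false_or, not_and]
      rintro rfl; exact (cZ hu).elim
  have nbr : ∀ {u v a}, G.Adj u v → G.Adj u a → v ∈ Z → a ∉ Z → ∃ b, Nb G u v a b := by
    intro u v a h1 h2 h4 h5
    obtain ⟨p, q, n⟩ := ex_nb h3 h1
    rcases n.all a h2 with rfl | rfl | rfl
    exacts [(h5 h4).elim, ⟨q, n⟩, ⟨p, n.swap⟩]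
  obtain ⟨b, nu⟩ := nbr huv ha hv aZ
  obtain ⟨d, nv⟩ := nbr huv.symm hc hu cZ
  have bZ : b ∈ Z := by
    by_contra bZ
    have : s(u, b) ∈ dl G Z := by simp [mem_dl, nu.q1, hu, bZ]
    rw [← e1] at this
    simp [nu.pq.symm, ha.ne, huv.ne, nu.qv] at this
  have := hZ.2.2 ((Z.erase u).erase v) (((erase_subset _ _).trans_ssubset (erase_ssubset hu)))
    ⟨b, by simp [bZ, nu.qv, nu.q1.ne.symm]⟩
  refine absurd (this.trans (le_trans (card_le_card fun e he => ?_)
    (card_le_two (a := s(u, b)) (b := s(v, d))))) (by omega)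
  obtain ⟨he, hcr⟩ := mem_dl.1 he
  by_cases eu : u ∈ e
  · rcases nu.edge he eu with rfl | rfl | rfl
    · simp at hcr
    · simp [aZ] at hcr
    · simp
  by_cases ev : v ∈ e
  · rcases nv.edge he ev with rfl | rfl | rfl
    · simp at hcr
    · simp [cZ] at hcr
    · simp
  have : e ∈ dl G Z := by
    induction e with
    | h x w =>
      simp only [Sym2.mem_iff, not_or] at eu ev
      exact mem_dl.2 ⟨he, by simpa [Ne.symm eu.1, Ne.symm eu.2, Ne.symm ev.1, Ne.symm ev.2] using hcr⟩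
  rw [← e1] at this
  simp only [mem_insert, mem_singleton] at this
  rcases this with rfl | rfl <;> simp at eu ev

lemma sel2 (h3 : ∀ v, G.degree v = 3)
    (two : ∀ A : Finset V, A.Nonempty → A ≠ univ → 2 ≤ (dl G A).card)
    (a : A.Nonempty) (b : A ≠ univ) (c : (dl G A).card ≤ 2) : ∃ u v x y, Sel G u v x y := by
  obtain ⟨Z1, s1, m⟩ := ex_min2 a c
  obtain ⟨Z2, s2, m'⟩ := ex_min2 (G := G) (A := Aᶜ) (by
    rwa [nonempty_iff_ne_empty, ne_eq, compl_eq_empty_iff]) (by rwa [dl_compl])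
  obtain ⟨u, v, h, hu, hv⟩ := inside (Z := Z1) h3 (by have := m.1.card_pos; have := m.2.1; omega)
  obtain ⟨x, y, h', hx, hy⟩ := inside (Z := Z2) h3 (by have := m'.1.card_pos; have := m'.2.1; omega)
  have dj : ∀ a ∈ Z1, a ∉ Z2 := fun a k k' => mem_compl.1 (s2 k') (s1 k)
  have m2 : ∀ A a b, a ∈ Z2 → b ∈ Z2 → cr A s(a, b) → 3 ≤ ((dl G A).erase s(u, v)).card := by
    intro A a b ha hb k
    by_cases k' : cr A s(u, v)
    · have h1 := m'.2.2 _ (spl ha hb k).1.1 (spl ha hb k).1.2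
      have h2 := sub2 (G := G) Z2 A
      have h4 := m'.2.1
      have h5 := m1 (A := A \ Z2) two m hu hv (by simpa [dj u hu, dj v hv] using k')
      have := pred_card_le_card_erase (s := dl G A) (a := s(u, v))
      omega
    · rw [erase_eq_of_notMem fun h => k' (mem_dl.1 h).2]; exact m1 two m' ha hb k
  refine ⟨u, v, x, y, h, h', fun k => dj u hu (k ▸ hx), fun k => dj u hu (k ▸ hy),
    fun k => dj v hv (k ▸ hx), fun k => dj v hv (k ▸ hy), fun A => m1 two m hu hv,
    m3 h3 m _ (fun A a b ha hb _ => m1 two m ha hb) hu hv h, fun A => m2 A x y hx hy,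
    m3 h3 m' _ (fun A a b ha hb _ k => ?_) hx hy h'⟩
  rw [filter_erase]; exact m2 A a b ha hb k

lemma sel3 (h3 : ∀ v, G.degree v = 3) (hn : 6 ≤ Fintype.card V)
    (three : ∀ A : Finset V, A.Nonempty → A ≠ univ → 3 ≤ (dl G A).card) :
    ∃ u v x y, Sel G u v x y := by
  obtain ⟨Z, hZ, hmin⟩ := exists_min_image
    (univ.filter fun Z : Finset V => 2 ≤ Z.card ∧ (dl G Z).card ≤ 3) card ⟨univ, by
      have : dl G univ = ∅ := filter_eq_empty_iff.2 fun e _ k => (cr_ne k).2 rfl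
      simp [this]; omega⟩
  simp only [mem_filter, mem_univ, true_and] at hZ hmin
  have mn : ∀ B ⊂ Z, (dl G B).card ≤ 3 → B.card ≤ 1 := fun B a b => by
    by_contra k
    exact absurd (hmin B ⟨by omega, b⟩) (not_le.2 (card_lt_card a))
  obtain ⟨u, v, h, hu, hv⟩ := inside (Z := Z) h3 (by omega)
  obtain ⟨p, q, nu⟩ := ex_nb h3 h
  obtain ⟨r, t, nv⟩ := ex_nb h3 h.symm
  have T : ∀ A, cr A s(u, v) → (dl G A).card ≤ 3 → A.card ≤ 1 ∨ Aᶜ.card ≤ 1 := by
    intro A k k3
    obtain ⟨⟨a, b⟩, c, d⟩ := spl hu hv k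
    by_cases k1 : A ⊆ Z
    · rw [inter_eq_right.2 k1] at c; exact Or.inl (mn A c k3)
    by_cases k2 : Aᶜ ⊆ Z
    · rw [sdiff_eq_inter_compl, inter_eq_right.2 k2] at a
      exact Or.inr (mn _ a (by rwa [dl_compl]))
    exfalso
    have h1 := three (A \ Z) (sdiff_nonempty.2 k1) (fun h => by simpa [hu] using Finset.ext_iff.1 h u)
    have h2 := three (Z ∪ A) ⟨u, by simp [hu]⟩ (fun h => k2 fun w hw => by
      simpa [mem_compl.1 hw] using Finset.ext_iff.1 h w)
    have h4 := mn _ a (by have := sub2 (G := G) Z A; omega)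
    have h5 := mn _ c (by have := sub1 (G := G) Z A; omega)
    have h6 := card_sdiff_add_card_inter Z A
    have h7 : {u, v} = Z := eq_of_subset_of_card_le (by simp [insert_subset_iff, hu, hv])
      (by rw [card_pair h.ne]; omega)
    have h8 := sub1 (G := G) ({u, v} : Finset V) ∅
    have h9 : ({s(u, p), s(u, q), s(v, r), s(v, t)} : Finset (Sym2 V)) ⊆ dl G Z := by
      simp [← h7, insert_subset_iff, mem_dl, nu.p1, nu.q1, nv.p1, nv.q1, nu.pv, nu.qv, nv.pv, nv.qv,
        nu.p1.ne.symm, nu.q1.ne.symm, nv.p1.ne.symm, nv.q1.ne.symm]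
    have := card_le_card h9
    rw [card_insert_of_notMem (by simp [nu.pq, nu.q1.ne, h.ne, nu.pv]),
      card_insert_of_notMem (by simp [h.ne, nu.qv]), card_pair (by simp [nv.pq, nv.q1.ne])] at this
    omega
  obtain ⟨e, he, he'⟩ := exists_mem_notMem_of_card_lt_card (t := G.edgeFinset)
    (s := {s(u, v), s(u, p), s(u, q), s(v, r), s(v, t), s(p, q), s(r, t)}) (by
      have h1 := G.sum_degrees_eq_twice_card_edges
      simp only [h3, sum_const, card_univ, smul_eq_mul] at h1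
      refine lt_of_le_of_lt (b := 7) ?_ (by omega)
      iterate 6 refine (card_insert_le _ _).trans (Nat.succ_le_succ ?_)
      simp)
  simp only [mem_insert, mem_singleton, not_or] at he'
  have eu : u ∉ e := fun k => by have := nu.edge he k; tauto
  have ev : v ∉ e := fun k => by have := nv.edge he k; rw [Sym2.eq_swap (a := v) (b := u)] at this; tauto
  induction e with
  | h x y =>
  simp only [Sym2.mem_iff, not_or] at eu ev
  have h' : G.Adj x y := by simpa using he
  have big : ∀ A e', cr A e' → ((dl G A).erase s(u, v)).card ≤ 2 →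
      cr A s(u, v) ∧ (A.card ≤ 1 ∨ Aᶜ.card ≤ 1) := by
    intro A e' k k2
    have k1 : cr A s(u, v) := by
      by_contra k'
      rw [erase_eq_of_notMem fun h => k' (mem_dl.1 h).2] at k2
      have := three A (cr_ne k).1 (cr_ne k).2
      omega
    have := pred_card_le_card_erase (s := dl G A) (a := s(u, v))
    exact ⟨k1, T A k1 (by omega)⟩
  refine ⟨u, v, x, y, h, h', eu.1, eu.2, ev.1, ev.2, fun A k => three A (cr_ne k).1 (cr_ne k).2,
    ?_, fun A k => ?_, ?_⟩
  · intro A ua va a c ha hc aA cA k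
    have := three A ⟨a, aA⟩ (fun h => ua (h ▸ mem_univ u))
    refine absurd (this.trans (le_trans (card_le_card fun e he => ?_)
      (card_le_two (a := s(u, a)) (b := s(v, c))))) (by omega)
    simpa using (k e (mem_dl.1 he).1).1 (mem_dl.1 he).2
  · by_contra k2
    obtain ⟨k1, k3⟩ := big A _ k (by omega)
    simp only [cr_mk] at k k1
    simp only [card_le_one, mem_compl] at k3
    grind
  · intro A xa ya a c ha hc aA cA k
    obtain ⟨k1, k3⟩ := big A s(x, a) (by simp [xa, aA]) (by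
      refine le_trans (card_le_card fun e he => ?_) (card_le_two (a := s(x, a)) (b := s(y, c)))
      simp only [mem_erase, mem_dl] at he k
      simpa using (k e ⟨he.1, he.2.1⟩).1 he.2.2)
    simp only [cr_mk] at k1
    simp only [card_le_one, mem_compl] at k3
    have k4 := k3.resolve_right fun k => h'.ne (k x xa y ya)
    obtain rfl : a = c := k4 a aA c cA
    have k5 : a = u ∨ a = v := by grind
    have xy := h'.ne
    rcases k5 with rfl | rfl
    · have := nu.all x ha.symm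
      have := nu.all y hc.symm
      have := he'.2.2.2.2.2.1
      simp only [Sym2.eq_iff] at this
      grind
    · have := nv.all x ha.symm
      have := nv.all y hc.symm
      have := he'.2.2.2.2.2.2
      simp only [Sym2.eq_iff] at this
      grind

lemma main (h3 : ∀ v, G.degree v = 3) (hn : 6 ≤ Fintype.card V)
    (two : ∀ A : Finset V, A.Nonempty → A ≠ univ → 2 ≤ (dl G A).card) :
    ∃ k, dm G.edgeFinset = k + 3 ∧ NN (F G.edgeFinset - (X + 1) * (X + 2) ^ k * (X + 3) ^ 2) := by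
  obtain ⟨u, v, x, y, s⟩ : ∃ u v x y, Sel G u v x y := by
    by_cases h : ∀ A : Finset V, A.Nonempty → A ≠ univ → 3 ≤ (dl G A).card
    · exact sel3 h3 hn h
    · push Not at h
      obtain ⟨A, a, b, c⟩ := h
      exact sel2 h3 two a b (by omega)
  exact bound h3 two s

end Pool.Agent.H4.Cyc
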