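import Mathlib

set_option autoImplicit false

namespace Pool.Agent.H4.Dirac

open Relation

variable {V : Type*}

def Conn (G : SimpleGraph V) (X : Set V) : Prop :=
  ∃ r ∈ X, ∀ b ∈ X, ReflTransGen (fun x y => G.Adj x y ∧ x ∈ X ∧ y ∈ X) r b

def K4 (G : SimpleGraph V) : Prop :=
  ∃ f : Fin 4 → Set V, (∀ i j, i ≠ j → Disjoint (f i) (f j)) ∧ (∀ i, Conn G (f i)) ∧
    (∀ i j, i ≠ j → ∃ u ∈ f i, ∃ v ∈ f j, G.Adj u v)

lemma Conn.connected {G : SimpleGraph V} {X : Set V} (h : Conn G X) : (G.induce X).Connected := by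
  obtain ⟨r, hr, h⟩ := h
  rw [SimpleGraph.connected_iff_exists_forall_reachable]
  refine ⟨⟨r, hr⟩, ?_⟩
  rintro ⟨b, hb⟩
  have key : ∀ b, ReflTransGen (fun x y => G.Adj x y ∧ x ∈ X ∧ y ∈ X) r b →
      ∀ hb : b ∈ X, (G.induce X).Reachable ⟨r, hr⟩ ⟨b, hb⟩ := by
    intro b hrb
    induction hrb with
    | refl => intro _; rfl
    | tail _ hxy ih =>
      intro hb
      exact (ih hxy.2.1).trans (SimpleGraph.Adj.reachable (by simpa using hxy.1))
  exact key b (h b hb) hb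

lemma rtg_mono {G H : SimpleGraph V} {X Y : Set V} (hXY : X ⊆ Y)
    (h : ∀ x y, x ∈ X → y ∈ X → G.Adj x y →
      ReflTransGen (fun x y => H.Adj x y ∧ x ∈ Y ∧ y ∈ Y) x y) {a b : V}
    (hab : ReflTransGen (fun x y => G.Adj x y ∧ x ∈ X ∧ y ∈ X) a b) :
    ReflTransGen (fun x y => H.Adj x y ∧ x ∈ Y ∧ y ∈ Y) a b := by
  have _ := hXY
  induction hab with
  | refl => exact .refl
  | tail _ hxy ih => exact ih.trans (h _ _ hxy.2.1 hxy.2.2 hxy.1)

lemma Conn.insert {G : SimpleGraph V} {X : Set V} (h : Conn G X) {s d : V} (hd : d ∈ X)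
    (hs : G.Adj d s) : Conn G (insert s X) := by
  obtain ⟨r, hr, h⟩ := h
  have hm : ∀ b ∈ X, ReflTransGen (fun x y => G.Adj x y ∧ x ∈ Insert.insert s X ∧
      y ∈ Insert.insert s X) r b := fun b hb =>
    rtg_mono (Set.subset_insert s X) (fun x y hx hy hxy =>
      .single ⟨hxy, Or.inr hx, Or.inr hy⟩) (h b hb)
  refine ⟨r, Or.inr hr, ?_⟩
  rintro b (rfl | hb)
  · exact (hm d hd).tail ⟨hs, Or.inr hd, Or.inl rfl⟩
  · exact hm b hb

lemma K4.mono {G H : SimpleGraph V} (hGH : G ≤ H) (h : K4 G) : K4 H := by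
  obtain ⟨f, h1, h2, h3⟩ := h
  refine ⟨f, h1, fun i => ?_, fun i j hij => ?_⟩
  · obtain ⟨r, hr, h⟩ := h2 i
    exact ⟨r, hr, fun b hb => rtg_mono subset_rfl (fun x y hx hy hxy =>
      .single ⟨hGH hxy, hx, hy⟩) (h b hb)⟩
  · obtain ⟨u, hu, v, hv, huv⟩ := h3 i j hij
    exact ⟨u, hu, v, hv, hGH huv⟩

lemma K4.suppress {G H : SimpleGraph V} {w a b : V} (ha : G.Adj w a) (hb : G.Adj w b)
    (hw : ∀ x, ¬ H.Adj w x)
    (hH : ∀ x y, H.Adj x y → G.Adj x y ∨ (x = a ∧ y = b) ∨ (x = b ∧ y = a)) (h : K4 H) :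
    K4 G := by
  classical
  obtain ⟨f, h1, h2, h3⟩ := h
  have hwf : ∀ i, w ∉ f i := by
    intro i hi
    obtain ⟨j, hj⟩ := exists_ne i
    obtain ⟨u, hu, v, -, huv⟩ := h3 i j hj.symm
    obtain ⟨r, hr, h⟩ := h2 i
    have e1 : r = w := by
      rcases (h w hi).cases_tail with h4 | ⟨c, -, h4⟩
      · exact h4.symm
      · exact absurd h4.1.symm (hw c)
    subst e1
    rcases (h u hu).cases_head with h4 | ⟨c, h4, -⟩
    · subst h4; exact hw v huv
    · exact hw c h4.1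
  refine ⟨fun i => if a ∈ f i then insert w (f i) else f i, ?_, ?_, ?_⟩
  · intro i j hij
    have hd := h1 i j hij
    rw [Set.disjoint_left] at hd ⊢
    intro x hx hx'
    by_cases hi : a ∈ f i <;> by_cases hj : a ∈ f j <;> simp only [hi, hj, if_true, if_false] at hx hx'
    · exact hd hi hj
    · rcases hx with rfl | hx
      · exact hwf j hx'
      · exact hd hx hx'
    · rcases hx' with rfl | hx'
      · exact hwf i hx
      · exact hd hx hx'
    · exact hd hx hx'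
  · intro i
    obtain ⟨r, hr, h⟩ := h2 i
    by_cases hi : a ∈ f i <;> simp only [hi, if_true, if_false]
    · have hm : ∀ c ∈ f i, ReflTransGen (fun x y => G.Adj x y ∧ x ∈ insert w (f i) ∧
          y ∈ insert w (f i)) r c := by
        intro c hc
        refine rtg_mono (Set.subset_insert w _) (fun x y hx hy hxy => ?_) (h c hc)
        rcases hH x y hxy with h4 | ⟨rfl, rfl⟩ | ⟨rfl, rfl⟩
        · exact .single ⟨h4, Or.inr hx, Or.inr hy⟩
        · exact ReflTransGen.tail (.single ⟨ha.symm, Or.inr hx, Or.inl rfl⟩)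
            ⟨hb, Or.inl rfl, Or.inr hy⟩
        · exact ReflTransGen.tail (.single ⟨hb.symm, Or.inr hx, Or.inl rfl⟩)
            ⟨ha, Or.inl rfl, Or.inr hy⟩
      refine ⟨r, Or.inr hr, ?_⟩
      rintro c (rfl | hc)
      · exact (hm a hi).tail ⟨ha.symm, Or.inr hi, Or.inl rfl⟩
      · exact hm c hc
    · refine ⟨r, hr, fun c hc => rtg_mono subset_rfl (fun x y hx hy hxy => ?_) (h c hc)⟩
      rcases hH x y hxy with h4 | ⟨rfl, rfl⟩ | ⟨rfl, rfl⟩
      · exact .single ⟨h4, hx, hy⟩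
      · exact absurd hx hi
      · exact absurd hy hi
  · intro i j hij
    obtain ⟨u, hu, v, hv, huv⟩ := h3 i j hij
    have s : ∀ k, f k ⊆ if a ∈ f k then insert w (f k) else f k := by
      intro k
      split_ifs
      · exact Set.subset_insert _ _
      · exact subset_rfl
    rcases hH u v huv with h4 | ⟨rfl, rfl⟩ | ⟨rfl, rfl⟩
    · exact ⟨u, s i hu, v, s j hv, h4⟩
    · exact ⟨w, by simp [hu], v, s j hv, hb⟩
    · exact ⟨u, s i hu, w, by simp [hv], hb.symm⟩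

def Cyc (G : SimpleGraph V) (U : Set V) : Prop :=
  ∃ (k : ℕ) (c : ℕ → V), 2 ≤ k ∧ (∀ i ≤ k, c i ∈ U) ∧ (∀ i ≤ k, ∀ j ≤ k, c i = c j → i = j) ∧
    (∀ i < k, G.Adj (c i) (c (i + 1))) ∧ G.Adj (c k) (c 0)

lemma cyc_of_two [Fintype V] (G : SimpleGraph V) (U : Set V) (hne : U.Nonempty)
    (h : ∀ x ∈ U, ∀ a, ∃ y ∈ U, G.Adj x y ∧ y ≠ a) : Cyc G U := by
  classical
  by_contra hc
  have key : ∀ m : ℕ, ∃ c : ℕ → V, (∀ i ≤ m, c i ∈ U) ∧ (∀ i ≤ m, ∀ j ≤ m, c i = c j → i = j) ∧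
      (∀ i < m, G.Adj (c i) (c (i + 1))) := by
    intro m
    induction m with
    | zero =>
      obtain ⟨x, hx⟩ := hne
      exact ⟨fun _ => x, fun _ _ => hx, fun i hi j hj _ => by omega, fun i hi => by omega⟩
    | succ m ih =>
      obtain ⟨c, h1, h2, h3⟩ := ih
      obtain ⟨y, hy, hxy, hya⟩ := h (c m) (h1 m le_rfl) (c (m - 1))
      by_cases hyc : ∃ i ≤ m, c i = y
      · exfalso
        obtain ⟨i, hi, rfl⟩ := hyc
        have i1 : i ≠ m := by rintro rfl; exact G.irrefl hxy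
        have i2 : i ≠ m - 1 := by rintro rfl; exact hya rfl
        apply hc
        refine ⟨m - i, fun j => c (i + j), by omega, fun j hj => h1 _ (by omega),
          fun j hj l hl hjl => ?_, fun j hj => h3 _ (by omega), ?_⟩
        · have := h2 _ (by omega) _ (by omega) hjl
          omega
        · have : i + (m - i) = m := by omega
          simpa [this] using hxy
      · push Not at hyc
        refine ⟨fun j => if j ≤ m then c j else y, fun j _ => ?_, fun j hj l hl hjl => ?_,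
          fun j hj => ?_⟩
        · by_cases hjm : j ≤ m <;> simp only [hjm, if_true, if_false]
          · exact h1 j hjm
          · exact hy
        · by_cases hjm : j ≤ m <;> by_cases hlm : l ≤ m <;>
            simp only [hjm, hlm, if_true, if_false] at hjl
          · exact h2 j hjm l hlm hjl
          · exact absurd hjl (hyc j hjm)
          · exact absurd hjl.symm (hyc l hlm)
          · omega
        · have hjm : j ≤ m := by omega
          by_cases hlm : j + 1 ≤ m <;> simp only [hjm, hlm, if_true, if_false]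
          · exact h3 j (by omega)
          · have : j = m := by omega
            subst this
            exact hxy
  obtain ⟨c, -, h2, -⟩ := key (Fintype.card V)
  have := Fintype.card_le_of_injective (fun i : Fin (Fintype.card V + 1) => c i)
    (fun i j hij => Fin.ext (h2 _ (by omega) _ (by omega) hij))
  simp at this

lemma Cyc.mono {G : SimpleGraph V} {U W : Set V} (hUW : U ⊆ W) (h : Cyc G U) : Cyc G W := by
  obtain ⟨k, c, h1, h2, h3⟩ := h
  exact ⟨k, c, h1, fun i hi => hUW (h2 i hi), h3⟩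

lemma cyc_of_exc [Fintype V] (G : SimpleGraph V) (n : ℕ) : ∀ (U : Set V) (s : V), U.ncard = n →
    (∃ x ∈ U, x ≠ s) → (∀ x ∈ U, x ≠ s → ∀ a, ∃ y ∈ U, G.Adj x y ∧ y ≠ a) → Cyc G U := by
  induction n using Nat.strong_induction_on with
  | _ n ih =>
    intro U s hn ⟨x, hx, hxs⟩ h
    by_cases hs : s ∈ U
    · by_cases h2 : ∀ a, ∃ y ∈ U, G.Adj s y ∧ y ≠ a
      · refine cyc_of_two G U ⟨x, hx⟩ fun z hz => ?_
        by_cases hzs : z = s
        · subst hzs; exact h2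
        · exact h z hz hzs
      · push Not at h2
        obtain ⟨a, ha⟩ := h2
        have hlt : (U \ {s}).ncard < n := by
          rw [← hn]
          exact Set.ncard_sdiff_singleton_lt_of_mem hs
        refine (ih _ hlt (U \ {s}) a rfl ?_ ?_).mono Set.sdiff_subset
        · by_cases hxa : x = a
          · obtain ⟨y, hy, hxy, hys⟩ := h x hx hxs s
            exact ⟨y, ⟨hy, hys⟩, fun hya => G.irrefl (by rw [hya, ← hxa] at hxy; exact hxy)⟩
          · exact ⟨x, ⟨hx, hxs⟩, hxa⟩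
        · rintro z ⟨hz, hzs⟩ hza b
          obtain ⟨y, hy, hzy, hyb⟩ := h z hz hzs b
          refine ⟨y, ⟨hy, ?_⟩, hzy, hyb⟩
          rintro rfl
          exact hza (ha z hz hzy.symm)
    · exact cyc_of_two G U ⟨x, hx⟩ fun z hz => h z hz (fun hzs => hs (hzs ▸ hz))

lemma conn_arc (G : SimpleGraph V) (c : ℕ → V) (a b : ℕ) (hab : a ≤ b)
    (h : ∀ i < b, G.Adj (c i) (c (i + 1))) : Conn G (c '' Set.Icc a b) := by
  refine ⟨c a, ⟨a, ⟨le_rfl, hab⟩, rfl⟩, ?_⟩
  rintro _ ⟨i, ⟨hi1, hi2⟩, rfl⟩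
  induction i, hi1 using Nat.le_induction with
  | base => exact .refl
  | succ i hi ih =>
    exact (ih (by omega)).tail ⟨h i (by omega), ⟨i, ⟨hi, by omega⟩, rfl⟩,
      ⟨i + 1, ⟨by omega, hi2⟩, rfl⟩⟩

theorem dirac [Fintype V] (G : SimpleGraph V) {x x' : V} (hx : G.Adj x x')
    (h3 : ∀ w z, G.Adj w z → ∀ a b, ∃ y, G.Adj w y ∧ y ≠ a ∧ y ≠ b) : K4 G := by
  classical
  let W : Set V := {v | G.Reachable x v}
  have hW : ∀ w ∈ W, ∀ a b, ∃ y ∈ W, G.Adj w y ∧ y ≠ a ∧ y ≠ b := by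
    intro w hw a b
    have : ∃ z, G.Adj w z := by
      by_cases hwx : x = w
      · exact ⟨x', hwx ▸ hx⟩
      · exact (SimpleGraph.Reachable.nonempty_neighborSet_right hwx hw)
    obtain ⟨z, hz⟩ := this
    obtain ⟨y, hy, hya⟩ := h3 w z hz a b
    exact ⟨y, hw.trans hy.reachable, hy, hya⟩
  let P : Set V → Prop := fun D => x ∈ D ∧ Conn G D ∧ Cyc G (W \ D)
  have hP : P {x} := by
    refine ⟨rfl, ⟨x, rfl, ?_⟩, cyc_of_two G _ ⟨x', hx.reachable, hx.ne'⟩ ?_⟩
    · rintro b rfl; exact .refl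
    · rintro z ⟨hz, -⟩ a
      obtain ⟨y, hy, hzy, hya, hyx⟩ := hW z hz a x
      exact ⟨y, ⟨hy, hyx⟩, hzy, hya⟩
  obtain ⟨D, hD, hmax⟩ := Set.Finite.exists_maximal (Set.toFinite {D | P D}) ⟨_, hP⟩
  obtain ⟨hxD, hconn, k, c, hk, hcU, hinj, hadj, hlast⟩ := hD
  have hS : ∀ s d, s ∉ D → d ∈ D → G.Adj d s → ¬ Cyc G (W \ insert s D) := by
    intro s d hs hd hds hc
    have := hmax (y := insert s D) ⟨Or.inr hxD, hconn.insert hd hds, hc⟩ (Set.subset_insert _ _)
    exact hs (this (Or.inl rfl))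
  have hon : ∀ s d, s ∉ D → d ∈ D → G.Adj d s → ∃ i ≤ k, c i = s := by
    intro s d hs hd hds
    by_contra hno
    push Not at hno
    refine hS s d hs hd hds ⟨k, c, hk, fun i hi => ⟨(hcU i hi).1, ?_⟩, hinj, hadj, hlast⟩
    rintro (h | h)
    · exact hno i hi h
    · exact (hcU i hi).2 h
  have hex : ∃ s d, s ∉ D ∧ d ∈ D ∧ G.Adj d s := by
    by_contra hno
    push Not at hno
    have : ∀ v, ReflTransGen G.Adj x v → v ∈ D := by
      intro v hv
      induction hv with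
      | refl => exact hxD
      | tail _ hxy ih =>
        by_contra h
        exact hno _ _ h ih hxy
    exact (hcU 0 (by omega)).2 (this _ ((G.reachable_iff_reflTransGen _ _).1 (hcU 0 (by omega)).1))
  have h3S : ∀ s d, s ∉ D → d ∈ D → G.Adj d s → ∀ s', ∃ t e, t ∉ D ∧ e ∈ D ∧ G.Adj e t ∧
      t ≠ s ∧ t ≠ s' := by
    intro s d hs hd hds s'
    by_contra hno
    push Not at hno
    refine hS s d hs hd hds (cyc_of_exc G _ _ s' rfl ?_ ?_)
    · have : ∃ i ≤ k, c i ≠ s ∧ c i ≠ s' := by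
        by_contra hh
        push Not at hh
        have e01 : c 0 ≠ c 1 := fun h => by have := hinj 0 (by omega) 1 (by omega) h; omega
        have e02 : c 0 ≠ c 2 := fun h => by have := hinj 0 (by omega) 2 (by omega) h; omega
        have e12 : c 1 ≠ c 2 := fun h => by have := hinj 1 (by omega) 2 (by omega) h; omega
        have f0 := hh 0 (by omega)
        have f1 := hh 1 (by omega)
        have f2 := hh 2 (by omega)
        by_cases g0 : c 0 = s
        · have g1 : c 1 ≠ s := fun h => e01 (g0.trans h.symm)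
          have g2 : c 2 ≠ s := fun h => e02 (g0.trans h.symm)
          exact e12 ((f1 g1).trans (f2 g2).symm)
        · by_cases g1 : c 1 = s
          · have g2 : c 2 ≠ s := fun h => e12 (g1.trans h.symm)
            exact e02 ((f0 g0).trans (f2 g2).symm)
          · exact e01 ((f0 g0).trans (f1 g1).symm)
      obtain ⟨i, hi, h1, h2⟩ := this
      refine ⟨c i, ⟨(hcU i hi).1, ?_⟩, h2⟩
      rintro (h | h)
      · exact h1 h
      · exact (hcU i hi).2 h
    · rintro z ⟨hz, hz'⟩ hzs a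
      obtain ⟨y, hy, hzy, hya, hys⟩ := hW z hz a s
      refine ⟨y, ⟨hy, ?_⟩, hzy, hya⟩
      rintro (h | h)
      · exact hys h
      · exact hzs (hno z y (fun h' => hz' (Or.inr h')) h hzy.symm (fun h' => hz' (Or.inl h')))
  have hidx : ∃ i j l, i < j ∧ j < l ∧ l ≤ k ∧ (∃ d ∈ D, G.Adj d (c i)) ∧ (∃ d ∈ D, G.Adj d (c j)) ∧
      (∃ d ∈ D, G.Adj d (c l)) := by
    obtain ⟨s1, d1, hs1, hd1, a1⟩ := hex
    obtain ⟨s2, d2, hs2, hd2, a2, n21, -⟩ := h3S s1 d1 hs1 hd1 a1 s1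
    obtain ⟨s3, d3, hs3, hd3, a3, n31, n32⟩ := h3S s1 d1 hs1 hd1 a1 s2
    obtain ⟨i1, hi1, rfl⟩ := hon s1 d1 hs1 hd1 a1
    obtain ⟨i2, hi2, rfl⟩ := hon s2 d2 hs2 hd2 a2
    obtain ⟨i3, hi3, rfl⟩ := hon s3 d3 hs3 hd3 a3
    have m21 : i2 ≠ i1 := fun h => n21 (by rw [h])
    have m31 : i3 ≠ i1 := fun h => n31 (by rw [h])
    have m32 : i3 ≠ i2 := fun h => n32 (by rw [h])
    have b1 : ∃ d ∈ D, G.Adj d (c i1) := ⟨_, hd1, a1⟩
    have b2 : ∃ d ∈ D, G.Adj d (c i2) := ⟨_, hd2, a2⟩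
    have b3 : ∃ d ∈ D, G.Adj d (c i3) := ⟨_, hd3, a3⟩
    rcases lt_or_gt_of_ne m21 with p | p <;> rcases lt_or_gt_of_ne m31 with q | q <;>
      rcases lt_or_gt_of_ne m32 with r | r
    · exact ⟨i3, i2, i1, r, p, hi1, b3, b2, b1⟩
    · exact ⟨i2, i3, i1, r, q, hi1, b2, b3, b1⟩
    · omega
    · exact ⟨i2, i1, i3, p, q, hi3, b2, b1, b3⟩
    · exact ⟨i3, i1, i2, q, p, hi2, b3, b1, b2⟩
    · omega
    · exact ⟨i1, i3, i2, q, r, hi2, b1, b3, b2⟩
    · exact ⟨i1, i2, i3, p, r, hi3, b1, b2, b3⟩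
  obtain ⟨i, j, l, hij, hjl, hlk, ⟨d1, hd1, a1⟩, ⟨d2, hd2, a2⟩, ⟨d3, hd3, a3⟩⟩ := hidx
  have dj : ∀ a b a' b', b < a' → b' ≤ k → Disjoint (c '' Set.Icc a b) (c '' Set.Icc a' b') := by
    intro a b a' b' h1 h2
    rw [Set.disjoint_left]
    rintro _ ⟨u, ⟨hu1, hu2⟩, rfl⟩ ⟨v, ⟨hv1, hv2⟩, huv⟩
    have := hinj v (by omega) u (by omega) huv
    omega
  have dD : ∀ a b, b ≤ k → Disjoint D (c '' Set.Icc a b) := by
    intro a b h2
    rw [Set.disjoint_left]
    rintro _ hd ⟨v, ⟨hv1, hv2⟩, rfl⟩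
    exact (hcU v (by omega)).2 hd
  have mm : ∀ a b u, a ≤ u → u ≤ b → c u ∈ c '' Set.Icc a b := fun a b u h1 h2 =>
    ⟨u, ⟨h1, h2⟩, rfl⟩
  refine ⟨![D, c '' Set.Icc 0 i, c '' Set.Icc (i + 1) j, c '' Set.Icc (j + 1) k], ?_, ?_, ?_⟩
  · have p1 := dD 0 i (by omega)
    have p2 := dD (i + 1) j (by omega)
    have p3 := dD (j + 1) k le_rfl
    have p4 := dj 0 i (i + 1) j (by omega) (by omega)
    have p5 := dj 0 i (j + 1) k (by omega) le_rfl
    have p6 := dj (i + 1) j (j + 1) k (by omega) le_rfl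
    intro a b hab
    fin_cases a <;> fin_cases b <;>
      first
      | exact absurd rfl hab
      | exact p1 | exact p2 | exact p3 | exact p4 | exact p5 | exact p6
      | exact p1.symm | exact p2.symm | exact p3.symm | exact p4.symm | exact p5.symm
      | exact p6.symm
  · intro a
    fin_cases a
    · exact hconn
    · exact conn_arc G c 0 i (by omega) fun u hu => hadj u (by omega)
    · exact conn_arc G c (i + 1) j (by omega) fun u hu => hadj u (by omega)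
    · exact conn_arc G c (j + 1) k (by omega) fun u hu => hadj u (by omega)
  · have sy : ∀ {X Y : Set V}, (∃ u ∈ X, ∃ v ∈ Y, G.Adj u v) → ∃ u ∈ Y, ∃ v ∈ X, G.Adj u v :=
      fun ⟨u, hu, v, hv, h⟩ => ⟨v, hv, u, hu, h.symm⟩
    have p1 : ∃ u ∈ D, ∃ v ∈ c '' Set.Icc 0 i, G.Adj u v :=
      ⟨d1, hd1, _, mm _ _ i (by omega) le_rfl, a1⟩
    have p2 : ∃ u ∈ D, ∃ v ∈ c '' Set.Icc (i + 1) j, G.Adj u v :=
      ⟨d2, hd2, _, mm _ _ j (by omega) le_rfl, a2⟩
    have p3 : ∃ u ∈ D, ∃ v ∈ c '' Set.Icc (j + 1) k, G.Adj u v :=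
      ⟨d3, hd3, _, mm _ _ l (by omega) hlk, a3⟩
    have p4 : ∃ u ∈ c '' Set.Icc 0 i, ∃ v ∈ c '' Set.Icc (i + 1) j, G.Adj u v :=
      ⟨_, mm _ _ i (by omega) le_rfl, _, mm _ _ (i + 1) le_rfl (by omega), hadj i (by omega)⟩
    have p5 : ∃ u ∈ c '' Set.Icc 0 i, ∃ v ∈ c '' Set.Icc (j + 1) k, G.Adj u v :=
      ⟨_, mm _ _ 0 le_rfl (by omega), _, mm _ _ k (by omega) le_rfl, hlast.symm⟩
    have p6 : ∃ u ∈ c '' Set.Icc (i + 1) j, ∃ v ∈ c '' Set.Icc (j + 1) k, G.Adj u v :=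
      ⟨_, mm _ _ j (by omega) le_rfl, _, mm _ _ (j + 1) le_rfl (by omega), hadj j (by omega)⟩
    intro a b hab
    fin_cases a <;> fin_cases b <;>
      first
      | exact absurd rfl hab
      | exact p1 | exact p2 | exact p3 | exact p4 | exact p5 | exact p6
      | exact sy p1 | exact sy p2 | exact sy p3 | exact sy p4 | exact sy p5 | exact sy p6

end Pool.Agent.H4.Dirac
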