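import Mathlib
import Pool.Agent.H4.GIdxB

namespace Pool.Agent.H4.GIdx

open Finset Classical

variable {G : Type} [Group G] {W W' : Type}

/-- simplices of the covering complex of an integer gain function -/
def IsS (g : G) (γ : W → W → ℤ) (S : Finset (G × W)) : Prop :=
  S.Nonempty ∧ ∃ (h : G) (φ : W → ℤ), ∀ u ∈ S, u.1 = h * g ^ φ u.2 ∧
    ∀ v ∈ S, γ u.2 v.2 = φ v.2 - φ u.2

noncomputable def sh (a : G) (S : Finset (G × W)) : Finset (G × W) :=
  S.image fun u => (a * u.1, u.2)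

noncomputable def emb (ι : W → W') (S : Finset (G × W)) : Finset (G × W') :=
  S.image fun u => (u.1, ι u.2)

theorem sh_mono (a : G) {S T : Finset (G × W)} (h : S ⊆ T) : sh a S ⊆ sh a T := image_subset_image h

theorem sh_sh (a b : G) (S : Finset (G × W)) : sh a (sh b S) = sh (a * b) S := by
  simp [sh, image_image, Function.comp_def, mul_assoc]

theorem sh_one (S : Finset (G × W)) : sh (1 : G) S = S := by simp [sh]

theorem card_sh (a : G) (S : Finset (G × W)) : #(sh a S) = #S :=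
  card_image_of_injective _ fun u v h => by
    simp only [Prod.mk.injEq, mul_right_inj] at h
    exact Prod.ext h.1 h.2

theorem mem_sh {a : G} {S : Finset (G × W)} {u : G × W} : (a * u.1, u.2) ∈ sh a S ↔ u ∈ S := by
  simp only [sh, mem_image, Prod.mk.injEq, mul_right_inj]
  exact ⟨fun ⟨v, hv, e⟩ => (Prod.ext e.1 e.2 : v = u) ▸ hv, fun h => ⟨u, h, rfl, rfl⟩⟩

theorem IsS.sub {g : G} {γ : W → W → ℤ} {S T : Finset (G × W)} (h : IsS g γ T) (hS : S ⊆ T)
    (hn : S.Nonempty) : IsS g γ S := by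
  obtain ⟨-, a, φ, h⟩ := h
  exact ⟨hn, a, φ, fun u hu => ⟨(h u (hS hu)).1, fun v hv => (h u (hS hu)).2 v (hS hv)⟩⟩

theorem IsS.sh {g : G} {γ : W → W → ℤ} {S : Finset (G × W)} (h : IsS g γ S) (a : G) :
    IsS g γ (sh a S) := by
  obtain ⟨hn, b, φ, h⟩ := h
  refine ⟨hn.image _, a * b, φ, fun u hu => ?_⟩
  obtain ⟨u, hu', rfl⟩ := mem_image.1 hu
  refine ⟨by simp [(h u hu').1, mul_assoc], fun v hv => ?_⟩
  obtain ⟨v, hv', rfl⟩ := mem_image.1 hv
  exact (h u hu').2 v hv'

theorem IsS.free {g : G} {γ : W → W → ℤ} {S : Finset (G × W)} (h : IsS g γ S) {a b : G}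
    (e : GIdx.sh a S = GIdx.sh b S) : a = b := by
  obtain ⟨⟨u, hu⟩, c, φ, h⟩ := h
  have : (a * u.1, u.2) ∈ GIdx.sh b S := e ▸ mem_sh.2 hu
  obtain ⟨v, hv, e'⟩ := mem_image.1 this
  simp only [Prod.mk.injEq] at e'
  have h1 := (h u hu).1
  have h2 := (h v hv).1
  rw [e'.2, ← h1] at h2
  rw [h2] at e'
  exact (mul_right_cancel e'.1).symm

def Valid (g : G) (γ : W → W → ℤ) (lab : Finset (G × W) → G × ℕ) : Prop :=
  (∀ a S, IsS g γ S → lab (sh a S) = (a * (lab S).1, (lab S).2)) ∧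
    ∀ S T, IsS g γ S → IsS g γ T → S ⊆ T → (lab S).2 = (lab T).2 → (lab S).1 = (lab T).1

noncomputable def seen (lab : Finset (G × W) → G × ℕ) (S : Finset (G × W)) : Finset (G × ℕ) :=
  (S.powerset.filter Finset.Nonempty).image lab

omit [Group G] in
theorem mem_seen {lab : Finset (G × W) → G × ℕ} {S : Finset (G × W)} {p : G × ℕ} :
    p ∈ seen lab S ↔ ∃ T, T ⊆ S ∧ T.Nonempty ∧ lab T = p := by
  simp [seen, and_assoc]

theorem seen_sh {g : G} {γ : W → W → ℤ} {lab : Finset (G × W) → G × ℕ} (hv : Valid g γ lab)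
    {S : Finset (G × W)} (hS : IsS g γ S) (a : G) : #(seen lab S) ≤ #(seen lab (sh a S)) := by
  refine card_le_card_of_injOn (fun p => (a * p.1, p.2)) (fun p hp => ?_) fun u _ v _ h => ?_
  · obtain ⟨T, h1, h2, rfl⟩ := mem_seen.1 hp
    exact mem_seen.2 ⟨sh a T, sh_mono a h1, h2.image _, hv.1 a T (hS.sub h1 h2)⟩
  · simp only [Prod.mk.injEq, mul_right_inj] at h
    exact Prod.ext h.1 h.2

theorem seen_ne {g : G} {γ : W → W → ℤ} {lab : Finset (G × W) → G × ℕ} (hv : Valid g γ lab)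
    {S : Finset (G × W)} (hS : IsS g γ S) {a : G} (ha : a ≠ 1) :
    seen lab (sh a S) ≠ seen lab S := by
  intro h
  have : lab (sh a S) ∈ seen lab S := h ▸ mem_seen.2 ⟨_, Subset.refl _, (hS.sh a).1, rfl⟩
  obtain ⟨T, h1, h2, e⟩ := mem_seen.1 this
  rw [hv.1 a S hS] at e
  have := hv.2 T S (hS.sub h1 h2) hS h1 (by rw [e])
  rw [e] at this
  exact ha (by simpa using this)

theorem valid_emb {g : G} {γ : W → W → ℤ} {γ' : W' → W' → ℤ} {ι : W → W'}
    (hι : Function.Injective ι) (hγ : ∀ u v, γ' (ι u) (ι v) = γ u v)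
    {lab : Finset (G × W') → G × ℕ} (hv : Valid g γ' lab) : Valid g γ (lab ∘ emb ι) := by
  have key : ∀ S, IsS g γ S → IsS g γ' (emb ι S) := by
    rintro S ⟨hn, b, φ, h⟩
    refine ⟨hn.image _, b, Function.extend ι φ 0, fun u hu => ?_⟩
    obtain ⟨u, hu', rfl⟩ := mem_image.1 hu
    refine ⟨by simp only [hι.extend_apply]; exact (h u hu').1, fun v hv => ?_⟩
    obtain ⟨v, hv', rfl⟩ := mem_image.1 hv
    simp only [hι.extend_apply, hγ]
    exact (h u hu').2 v hv'
  constructor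
  · intro a S hS
    have : emb ι (sh a S) = sh a (emb ι S) := by simp [emb, sh, image_image, Function.comp_def]
    simp only [Function.comp_apply, this]
    exact hv.1 a _ (key S hS)
  · intro S T hS hT h
    exact hv.2 _ _ (key S hS) (key T hT) (image_subset_image h)

omit [Group G] in
theorem seen_emb {ι : W → W'} (lab : Finset (G × W') → G × ℕ) {S : Finset (G × W)}
    {U : Finset (G × W')} (h : emb ι S ⊆ U) : seen (lab ∘ emb ι) S ⊆ seen lab U := by
  intro p hp
  obtain ⟨T, h1, h2, rfl⟩ := mem_seen.1 hp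
  exact mem_seen.2 ⟨emb ι T, (image_subset_image h1).trans h, h2.image _, rfl⟩

/-- gain complexes that force a simplex to see many labels -/
theorem grow [Fintype G] (g : G) (hg : g ≠ 1) (t : ℕ) : ∃ (W : Type) (_ : Fintype W)
    (γ : W → W → ℤ), ∀ lab, Valid g γ lab → ∃ S, IsS g γ S ∧ t ≤ #(seen lab S) := by
  induction t with
  | zero =>
    exact ⟨Unit, inferInstance, fun _ _ => 0, fun lab _ =>
      ⟨{(1, ())}, ⟨by simp, 1, fun _ => 0, by simp⟩, Nat.zero_le _⟩⟩
  | succ t ih =>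
    obtain ⟨W, _, γ, H⟩ := ih
    have hpot : ∀ S : Finset (G × W), ∃ (h : G) (φ : W → ℤ), IsS g γ S →
        ∀ u ∈ S, u.1 = h * g ^ φ u.2 ∧ ∀ v ∈ S, γ u.2 v.2 = φ v.2 - φ u.2 := by
      intro S
      by_cases hS : IsS g γ S
      · obtain ⟨-, h, φ, e⟩ := hS
        exact ⟨h, φ, fun _ => e⟩
      · exact ⟨1, 0, fun h => absurd h hS⟩
    choose hh φ hφ using hpot
    let I := Finset (G × W)
    let jz : Bool → ℤ := fun b => if b then 1 else 0
    let γ' : (I × Bool × W) ⊕ ((I × Bool → I × Bool) × W) →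
        (I × Bool × W) ⊕ ((I × Bool → I × Bool) × W) → ℤ := fun x y =>
      match x, y with
      | .inl x, .inl y => γ x.2.2 y.2.2
      | .inr u, .inr v => γ u.2 v.2
      | .inl x, .inr v => φ x.1 v.2 - (φ (v.1 (x.1, x.2.1)).1 x.2.2 + jz (v.1 (x.1, x.2.1)).2)
      | .inr v, .inl x => (φ (v.1 (x.1, x.2.1)).1 x.2.2 + jz (v.1 (x.1, x.2.1)).2) - φ x.1 v.2
    refine ⟨_, inferInstance, γ', fun lab hv => ?_⟩
    have v1 : ∀ (i : I) (e : Bool), Valid g γ (lab ∘ emb fun x => Sum.inl (i, e, x)) :=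
      fun i e => valid_emb (ι := fun x => Sum.inl (i, e, x)) (γ := γ)
        (fun x y h => by simpa using h) (fun _ _ => rfl) hv
    have v2 : ∀ c : I × Bool → I × Bool, Valid g γ (lab ∘ emb fun x => Sum.inr (c, x)) :=
      fun c => valid_emb (ι := fun x => Sum.inr (c, x)) (γ := γ)
        (fun x y h => by simpa using h) (fun _ _ => rfl) hv
    choose T hT hT' using fun i e => H _ (v1 i e)
    let B : I → Bool → Bool → Finset (G × ℕ) := fun i e j =>
      seen (lab ∘ emb fun x => Sum.inl (i, e, x)) (sh (hh i * g ^ jz j * (hh (T i e))⁻¹) (T i e))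
    have hB : ∀ i, ∃ j, B i true j ≠ B i false false := by
      intro i
      by_contra hn
      push Not at hn
      have e := (hn true).trans (hn false).symm
      refine seen_ne (v1 i true) ((hT i true).sh (hh i * g ^ jz false * (hh (T i true))⁻¹))
        (a := hh i * g * (hh i)⁻¹) (by simpa using hg) ?_
      rw [sh_sh]
      convert e using 3
      simp [jz, mul_assoc]
    choose J hJ using hB
    let c : I × Bool → I × Bool := fun p => (T p.1 p.2, if p.2 then J p.1 else false)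
    obtain ⟨S, hS, hS'⟩ := H _ (v2 c)
    by_contra hn
    push Not at hn
    have key : ∀ e, B S e (c (S, e)).2 = seen (lab ∘ emb fun x => Sum.inr (c, x)) S := by
      intro e
      let U := emb (fun x => (Sum.inr (c, x) : (I × Bool × W) ⊕ ((I × Bool → I × Bool) × W))) S ∪
        emb (fun x => Sum.inl (S, e, x))
          (sh (hh S * g ^ jz (c (S, e)).2 * (hh (T S e))⁻¹) (T S e))
      have hU : IsS g γ' U := by
        refine ⟨(hS.1.image _).mono subset_union_left, hh S, fun x => match x with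
          | .inl x => φ (T S e) x.2.2 + jz (c (S, e)).2
          | .inr v => φ S v.2, ?_⟩
        have mem : ∀ u ∈ U, (∃ v ∈ S, u = (v.1, Sum.inr (c, v.2))) ∨ ∃ x ∈ T S e,
            u = (hh S * g ^ jz (c (S, e)).2 * (hh (T S e))⁻¹ * x.1, Sum.inl (S, e, x.2)) := by
          intro u hu
          rcases mem_union.1 hu with h | h
          · obtain ⟨v, hv, rfl⟩ := mem_image.1 h
            exact Or.inl ⟨v, hv, rfl⟩
          · obtain ⟨v, hv, rfl⟩ := mem_image.1 h
            obtain ⟨x, hx, rfl⟩ := mem_image.1 hv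
            exact Or.inr ⟨x, hx, rfl⟩
        intro u0 hu0
        rcases mem u0 hu0 with ⟨u, hu, rfl⟩ | ⟨u, hu, rfl⟩
        · refine ⟨(hφ S hS u hu).1, fun v0 hv0 => ?_⟩
          rcases mem v0 hv0 with ⟨v, hv, rfl⟩ | ⟨v, hv, rfl⟩
          · exact (hφ S hS u hu).2 v hv
          · rfl
        · refine ⟨?_, fun v0 hv0 => ?_⟩
          · simp only [(hφ _ (hT S e) u hu).1]
            rw [add_comm, zpow_add]
            simp [mul_assoc]
          · rcases mem v0 hv0 with ⟨v, hv, rfl⟩ | ⟨v, hv, rfl⟩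
            · rfl
            · have := (hφ _ (hT S e) u hu).2 v hv
              simp only [γ', this]
              ring
      have h1 := hn U hU
      have a1 : seen (lab ∘ emb fun x => Sum.inr (c, x)) S ⊆ seen lab U :=
        seen_emb lab subset_union_left
      have a2 : B S e (c (S, e)).2 ⊆ seen lab U := seen_emb lab subset_union_right
      have a3 : t ≤ #(B S e (c (S, e)).2) := (hT' S e).trans (seen_sh (v1 S e) (hT S e) _)
      rw [eq_of_subset_of_card_le a1 (by omega), eq_of_subset_of_card_le a2 (by omega)]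
    exact hJ S ((key true).trans (key false).symm)

def Adm (g : G) (γ : W → W → ℤ) (D : Finset (Finset (G × W))) : Prop :=
  ∀ S ∈ D, IsS g γ S ∧ (∀ a, sh a S ∈ D) ∧ ∀ T, T ⊆ S → T.Nonempty → T ∈ D

def Lab (rel : G × ℕ → G × ℕ → Prop) (n : ℕ) (D : Finset (Finset (G × W))) : Prop :=
  ∃ lab : Finset (G × W) → G × ℕ, ∀ S ∈ D, (lab S).2 ≤ n ∧
    (∀ a, lab (sh a S) = (a * (lab S).1, (lab S).2)) ∧ ∀ T ∈ D, S ⊆ T → rel (lab S) (lab T)

/-- complexes with exactly prescribed combinatorial index -/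
theorem ivt [Fintype G] (g : G) (hg : g ≠ 1) (rel : G × ℕ → G × ℕ → Prop) (r1 : ∀ p, rel p p)
    (r2 : ∀ p q, p.2 < q.2 → rel p q) (r3 : ∀ p q, rel p q → p.2 = q.2 → p.1 = q.1) (n : ℕ) :
    ∃ (W : Type) (_ : Fintype W) (γ : W → W → ℤ) (D : Finset (Finset (G × W))),
      Adm g γ D ∧ Lab rel (n + 1) D ∧ ¬ Lab rel n D := by
  obtain ⟨W, _, γ, H⟩ := grow g hg (Fintype.card G * (n + 1) + 1)
  refine ⟨W, inferInstance, γ, ?_⟩
  have h0 : ∃ D : Finset (Finset (G × W)), Adm g γ D ∧ ¬ Lab rel n D := by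
    refine ⟨univ.filter (IsS g γ), fun S hS => ?_, ?_⟩
    · simp only [mem_filter, mem_univ, true_and] at hS ⊢
      exact ⟨hS, hS.sh, fun T h1 h2 => hS.sub h1 h2⟩
    · rintro ⟨lab, h⟩
      simp only [mem_filter, mem_univ, true_and] at h
      obtain ⟨S, hS, h1⟩ := H lab ⟨fun a S hS => (h S hS).2.1 a,
        fun S T hS hT e => r3 _ _ ((h S hS).2.2 T hT e)⟩
      have : seen lab S ⊆ univ ×ˢ range (n + 1) := by
        intro p hp
        obtain ⟨T, h1, h2, rfl⟩ := mem_seen.1 hp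
        have := (h T (hS.sub h1 h2)).1
        simp only [mem_product, mem_univ, mem_range, true_and]
        omega
      have := card_le_card this
      simp only [card_product, card_univ, card_range] at this
      omega
  obtain ⟨D, hD, hmin⟩ := exists_min_image
    (univ.filter fun D : Finset (Finset (G × W)) => Adm g γ D ∧ ¬ Lab rel n D) card
    (by obtain ⟨D, hD⟩ := h0; exact ⟨D, by simpa using hD⟩)
  simp only [mem_filter, mem_univ, true_and] at hD hmin
  refine ⟨D, hD.1, ?_, hD.2⟩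
  have hne : D.Nonempty := by
    by_contra h
    rw [not_nonempty_iff_eq_empty] at h
    exact hD.2 ⟨fun _ => (1, 0), by simp [h]⟩
  obtain ⟨S0, hS0, hmax⟩ := exists_max_image D card hne
  have top : ∀ a, ∀ T ∈ D, sh a S0 ⊆ T → sh a S0 = T := fun a T hT h =>
    eq_of_subset_of_card_le h (by rw [card_sh]; exact hmax T hT)
  have orb : ∀ a S, (∃ b, sh a S = sh b S0) ↔ ∃ b, S = sh b S0 := by
    intro a S
    constructor
    · rintro ⟨b, e⟩
      exact ⟨a⁻¹ * b, by rw [← sh_sh, ← e, sh_sh]; simp [sh_one]⟩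
    · rintro ⟨b, rfl⟩
      exact ⟨a * b, sh_sh _ _ _⟩
  have hL : Lab rel n (D.filter fun S => ¬ ∃ a, S = sh a S0) := by
    by_contra h
    have := hmin _ ⟨fun S hS => ?_, h⟩
    · refine absurd this (not_le.2 (card_lt_card ⟨filter_subset _ _, fun h => ?_⟩))
      exact (mem_filter.1 (h hS0)).2 ⟨1, (sh_one _).symm⟩
    · rw [mem_filter] at hS
      obtain ⟨a1, a2, a3⟩ := hD.1 S hS.1
      refine ⟨a1, fun a => mem_filter.2 ⟨a2 a, by rw [orb]; exact hS.2⟩, fun T h1 h2 =>
        mem_filter.2 ⟨a3 T h1 h2, ?_⟩⟩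
      rintro ⟨a, rfl⟩
      exact hS.2 ⟨a, (top a S hS.1 h1).symm⟩
  obtain ⟨lab, hl⟩ := hL
  have hfree := fun a b => (hD.1 S0 hS0).1.free (a := a) (b := b)
  let lab' : Finset (G × W) → G × ℕ := fun S =>
    if h : ∃ a, S = sh a S0 then (h.choose, n + 1) else lab S
  have l1 : ∀ a, lab' (sh a S0) = (a, n + 1) := by
    intro a
    have h : ∃ b, sh a S0 = sh b S0 := ⟨a, rfl⟩
    simp only [lab', dif_pos h]
    rw [← hfree _ _ h.choose_spec]
  have l2 : ∀ S, (¬ ∃ a, S = sh a S0) → lab' S = lab S := fun S h => by simp only [lab', dif_neg h]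
  refine ⟨lab', fun S hS => ?_⟩
  by_cases h : ∃ a, S = sh a S0
  · obtain ⟨b, rfl⟩ := h
    refine ⟨by rw [l1], fun a => by rw [sh_sh, l1, l1], fun T hT e => ?_⟩
    rw [← top b T hT e]; exact r1 _
  · obtain ⟨a1, a2, a3⟩ := hl S (mem_filter.2 ⟨hS, h⟩)
    rw [l2 S h]
    refine ⟨by omega, fun a => by rw [l2 _ (by rw [orb]; exact h), a2], fun T hT e => ?_⟩
    by_cases h' : ∃ a, T = sh a S0
    · obtain ⟨b, rfl⟩ := h'
      rw [l1]
      exact r2 _ _ (by simp only; omega)
    · rw [l2 T h']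
      exact a3 T (mem_filter.2 ⟨hT, h'⟩) e

end Pool.Agent.H4.GIdx
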