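import Mathlib
import Pool.Agent.H4.GIdxC

namespace Pool.Agent.H4.GIdx

open Finset Classical

/-- There is a continuous `G`-equivariant map from the realisation of the `G`-complex `F` to
`E_k G`, on which `G` acts by left multiplication.  (`y` is the translate of `x` by `a` exactly when
`y (a • v) = x v` for all vertices `v`.) -/
def GMap (G : Type) [Group G] [Fintype G] {V : Type} [Fintype V] [MulAction G V]
    (F : Finset V → Prop) (k : ℕ) : Prop :=
  ∃ f : geo F → geo (EF G k), Continuous f ∧ ∀ (a : G) (x y : geo F),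
    (∀ v, y.1 (a • v) = x.1 v) → ∀ h i, (f y).1 (a * h, i) = (f x).1 (h, i)

variable {G : Type} [Group G]

def zs (g a : G) : Set ℝ := {x | ∃ j : ℤ, g ^ j = a ∧ x = j}

noncomputable def bump (g a : G) (r : ℝ) : ℝ :=
  if (zs g a).Nonempty then max 0 (1 / 2 - Metric.infDist r (zs g a)) else 0

theorem bump_cont (g a : G) : Continuous (bump g a) := by
  unfold bump
  split_ifs
  · exact continuous_const.max (continuous_const.sub (Metric.continuous_infDist_pt _))
  · exact continuous_const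

theorem bump_nonneg (g a : G) (r : ℝ) : 0 ≤ bump g a r := by
  unfold bump
  split_ifs
  · exact le_max_left _ _
  · exact le_rfl

theorem bump_pos (g a : G) (r : ℝ) : 0 < bump g a r ↔ ∃ j : ℤ, g ^ j = a ∧ |r - j| < 1 / 2 := by
  unfold bump
  split_ifs with h
  · rw [lt_max_iff, sub_pos, Metric.infDist_lt_iff h]
    simp only [lt_irrefl, false_or]
    constructor
    · rintro ⟨_, ⟨j, e, rfl⟩, h⟩
      exact ⟨j, e, h⟩
    · rintro ⟨j, e, h⟩
      exact ⟨j, ⟨j, e, rfl⟩, h⟩
  · simp only [lt_irrefl, false_iff]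
    rintro ⟨j, e, -⟩
    exact h ⟨j, j, e, rfl⟩

theorem bump_shift (g a : G) (r : ℝ) (k : ℤ) : bump g (g ^ k * a) (r + k) = bump g a r := by
  have h : zs g (g ^ k * a) = (fun x : ℝ => x + k) '' zs g a := by
    ext x
    constructor
    · rintro ⟨j, e, rfl⟩
      refine ⟨_, ⟨j - k, ?_, rfl⟩, by push_cast; ring⟩
      rw [sub_eq_neg_add, zpow_add, e]; simp
    · rintro ⟨_, ⟨j, e, rfl⟩, rfl⟩
      exact ⟨k + j, by rw [zpow_add, e], by push_cast; ring⟩
  unfold bump
  rw [h]
  simp only [Set.image_nonempty]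
  rw [Metric.infDist_image (Φ := fun x : ℝ => x + k) (isometry_add_right _)]

noncomputable def un (g : G) (m : ℕ) (r : ℝ) (v : G × Fin (m + 1)) : ℝ :=
  if v.2.1 = 0 then bump g v.1 r else if v.2.1 = 1 then bump g v.1 (r - 1 / 2) else 0

theorem un_nonneg (g : G) (m : ℕ) (r : ℝ) (v : G × Fin (m + 1)) : 0 ≤ un g m r v := by
  unfold un
  split_ifs
  · exact bump_nonneg _ _ _
  · exact bump_nonneg _ _ _
  · exact le_rfl

theorem un_cont (g : G) (m : ℕ) (v : G × Fin (m + 1)) : Continuous fun r => un g m r v := by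
  unfold un
  split_ifs
  · exact bump_cont _ _
  · exact (bump_cont _ _).comp (by fun_prop)
  · exact continuous_const

theorem un_shift (g : G) (m : ℕ) (r : ℝ) (k : ℤ) (a : G) (i : Fin (m + 1)) :
    un g m (r + k) (g ^ k * a, i) = un g m r (a, i) := by
  unfold un
  rw [show r + k - 1 / 2 = r - 1 / 2 + k by ring]
  simp only [bump_shift]

theorem bump_uniq (g a b : G) (r : ℝ) (ha : bump g a r ≠ 0) (hb : bump g b r ≠ 0) : a = b := by
  obtain ⟨j, rfl, h1⟩ := (bump_pos _ _ _).1 (lt_of_le_of_ne (bump_nonneg _ _ _) ha.symm)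
  obtain ⟨i, rfl, h2⟩ := (bump_pos _ _ _).1 (lt_of_le_of_ne (bump_nonneg _ _ _) hb.symm)
  rw [abs_lt] at h1 h2
  have a1 : (j : ℝ) < i + 1 := by linarith
  have a2 : (i : ℝ) < j + 1 := by linarith
  have b1 : j < i + 1 := by exact_mod_cast a1
  have b2 : i < j + 1 := by exact_mod_cast a2
  rw [show j = i by omega]

variable [Fintype G]

theorem tot_pos (g : G) {m : ℕ} (hm : 1 ≤ m) (r : ℝ) : 0 < ∑ v, un g m r v := by
  refine sum_pos' (fun v _ => un_nonneg _ _ _ _) ?_
  have h1 := Int.floor_le r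
  have h2 := Int.lt_floor_add_one r
  rcases h1.eq_or_lt with h | h
  · refine ⟨(g ^ ⌊r⌋, 0), mem_univ _, ?_⟩
    simp only [un, Fin.val_zero, if_true]
    exact (bump_pos _ _ _).2 ⟨_, rfl, by rw [h]; norm_num⟩
  · refine ⟨(g ^ ⌊r⌋, ⟨1, by omega⟩), mem_univ _, ?_⟩
    simp only [un, one_ne_zero, if_false, if_true]
    exact (bump_pos _ _ _).2 ⟨_, rfl, by rw [abs_lt]; constructor <;> linarith⟩

noncomputable def pt (g : G) (m : ℕ) (r : ℝ) (v : G × Fin (m + 1)) : ℝ :=
  un g m r v / ∑ w, un g m r w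

theorem pt_cont (g : G) {m : ℕ} (hm : 1 ≤ m) (v : G × Fin (m + 1)) :
    Continuous fun r => pt g m r v :=
  (un_cont g m v).div (continuous_finsetSum _ fun w _ => un_cont g m w)
    fun r => (tot_pos g hm r).ne'

theorem pt_shift (g : G) (m : ℕ) (r : ℝ) (k : ℤ) (a : G) (i : Fin (m + 1)) :
    pt g m (r + k) (g ^ k * a, i) = pt g m r (a, i) := by
  unfold pt
  rw [un_shift]
  congr 1
  exact (Fintype.sum_equiv ((Equiv.mulLeft (g ^ k)).prodCongr (Equiv.refl _)) _ _
    (fun v => (un_shift g m r k v.1 v.2).symm)).symm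

theorem pt_mem (g : G) {m : ℕ} (hm : 1 ≤ m) (r : ℝ) : pt g m r ∈ geo (EF G m) := by
  have h := tot_pos g hm r
  refine mem_E.2 ⟨fun v => div_nonneg (un_nonneg _ _ _ _) h.le, ?_, fun u v hu hv e => ?_⟩
  · unfold pt
    rw [← sum_div, div_self h.ne']
  · have hu' : un g m r u ≠ 0 := fun h => hu (by simp [pt, h])
    have hv' : un g m r v ≠ 0 := fun h => hv (by simp [pt, h])
    refine Prod.ext ?_ e
    unfold un at hu' hv'
    rw [← e] at hv'
    split_ifs at hu' hv'
    · exact bump_uniq _ _ _ _ hu' hv'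
    · exact bump_uniq _ _ _ _ hu' hv'
    · exact absurd rfl hu'

variable {W : Type} [Fintype W]

noncomputable def circ (g : G) (γ : W → W → ℤ) (m : ℕ) (z : G × W → ℝ) (v : G × Fin (m + 1)) : ℝ :=
  ∑ u : G × W, z u * pt g m (∑ w : G × W, z w * γ u.2 w.2) (u.1⁻¹ * v.1, v.2)

theorem circ_cont (g : G) (γ : W → W → ℤ) {m : ℕ} (hm : 1 ≤ m) : Continuous (circ g γ m) := by
  refine continuous_pi fun v => continuous_finsetSum _ fun u _ => (continuous_apply u).mul ?_
  exact (pt_cont g hm _).comp (by fun_prop)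

theorem circ_zero (g : G) (γ : W → W → ℤ) (m : ℕ) : circ g γ m 0 = 0 := by
  funext v; simp [circ]

theorem circ_equi (g : G) (γ : W → W → ℤ) (m : ℕ) (a : G) (z z' : G × W → ℝ)
    (h : ∀ b u, z' (a * b, u) = z (b, u)) (b : G) (i : Fin (m + 1)) :
    circ g γ m z' (a * b, i) = circ g γ m z (b, i) := by
  have e : ∀ u : W, ∑ w : G × W, z' w * γ u w.2 = ∑ w : G × W, z w * γ u w.2 := fun u =>
    (Fintype.sum_equiv ((Equiv.mulLeft a).prodCongr (Equiv.refl _)) _ _
      (fun w => by simp [Prod.map, h])).symm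
  unfold circ
  simp only [e]
  refine (Fintype.sum_equiv ((Equiv.mulLeft a).prodCongr (Equiv.refl _)) _ _ (fun w => ?_)).symm
  simp [Prod.map, h, mul_assoc]

theorem circ_mem (g : G) (γ : W → W → ℤ) {m : ℕ} (hm : 1 ≤ m) {z : G × W → ℝ}
    (hz : z ∈ geo (IsS g γ)) : circ g γ m z ∈ geo (EF G m) := by
  obtain ⟨h0, h1, S, ⟨-, h, φ, hS⟩, h2⟩ := hz
  have : circ g γ m z = act h (pt g m (∑ w : G × W, z w * φ w.2)) := by
    funext v
    have key : ∀ u : G × W, z u * pt g m (∑ w : G × W, z w * γ u.2 w.2) (u.1⁻¹ * v.1, v.2) =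
        z u * pt g m (∑ w : G × W, z w * φ w.2) (h⁻¹ * v.1, v.2) := by
      intro u
      by_cases hu : z u = 0
      · simp [hu]
      · congr 1
        have e : ∑ w : G × W, z w * φ w.2 = ∑ w : G × W, z w * γ u.2 w.2 + φ u.2 := by
          have : (φ u.2 : ℝ) = ∑ w : G × W, z w * φ u.2 := by rw [← sum_mul, h1, one_mul]
          rw [this, ← sum_add_distrib]
          refine sum_congr rfl fun w _ => ?_
          by_cases hw : z w = 0
          · simp [hw]
          · rw [(hS u (h2 u hu)).2 w (h2 w hw)]; push_cast; ring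
        rw [e, ← pt_shift g m _ (φ u.2), (hS u (h2 u hu)).1]
        simp [mul_assoc]
    unfold circ act
    simp only [key]
    rw [← sum_mul, h1, one_mul]
  rw [this]
  exact act_E h (pt_mem g hm _)

/-- computing the index of a disjoint union of a gain complex and a join -/
theorem ind_of [Nontrivial G] (g : G) (γ : W → W → ℤ) {m : ℕ} (hm : 1 ≤ m) {V : Type} [Fintype V]
    [MulAction G V] (F : Finset V → Prop) (L : (V → ℝ) → (G × W → ℝ)) (hL : Continuous L)
    (hLe : ∀ (a : G) (x y : V → ℝ), (∀ v, y (a • v) = x v) → ∀ b u, L y (a * b, u) = L x (b, u))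
    (R : G × Fin (m + 1) → V) (hR : ∀ a b i, a • R (b, i) = R (a * b, i))
    (hx : ∀ x ∈ geo F, (L x ∈ geo (IsS g γ) ∧ ∀ v, x (R v) = 0) ∨
      (L x = 0 ∧ (fun v => x (R v)) ∈ geo (EF G m)))
    (J : (G × Fin (m + 1) → ℝ) → (V → ℝ)) (hJ : Continuous J)
    (hJm : ∀ y ∈ geo (EF G m), J y ∈ geo F)
    (hJe : ∀ (a : G) (x y : G × Fin (m + 1) → ℝ), (∀ h i, y (a * h, i) = x (h, i)) →
      ∀ v, J y (a • v) = J x v) : IsLeast {k | GMap G F k} m := by
  constructor
  · refine ⟨fun x => ⟨fun v => circ g γ m (L x.1) v + x.1 (R v), ?_⟩, ?_, fun a x y h b i => ?_⟩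
    · rcases hx x.1 x.2 with ⟨a, b⟩ | ⟨a, b⟩
      · simpa [b] using circ_mem g γ hm a
      · simpa [a, circ_zero] using b
    · refine Continuous.subtype_mk (continuous_pi fun v => ?_) _
      exact ((continuous_apply v).comp ((circ_cont g γ hm).comp
        (hL.comp continuous_subtype_val))).add ((continuous_apply _).comp continuous_subtype_val)
    · simp only
      rw [circ_equi g γ m a _ _ (hLe a x.1 y.1 h), ← hR, h]
  · rintro k ⟨f, hf, he⟩
    by_contra hk
    exact dold (not_le.1 hk) (fun y => f ⟨J y.1, hJm _ y.2⟩)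
      (hf.comp (Continuous.subtype_mk (hJ.comp continuous_subtype_val) _))
      (fun a x y h => he a _ _ (hJe a x.1 y.1 h))

end Pool.Agent.H4.GIdx
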