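import Mathlib
import Pool.Agent.H4.GIdxD

namespace Pool.Agent.H4.GIdx

open Finset Classical

/-- The simplices of the order complex of a poset: the nonempty chains. -/
def Chain (P : Type) [PartialOrder P] (s : Finset P) : Prop :=
  s.Nonempty ∧ IsChain (· ≤ ·) (s : Set P)

/-- `P` is a free `G`-poset. -/
def FreePoset (G P : Type) [Group G] [PartialOrder P] [MulAction G P] : Prop :=
  (∀ (a : G) (p q : P), p ≤ q → a • p ≤ a • q) ∧ ∀ (a : G) (p : P), a • p = p → a = 1

variable {G : Type} [Group G] {W : Type} {g : G} {γ : W → W → ℤ}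

theorem lab_mono {rel : G × ℕ → G × ℕ → Prop} {k n : ℕ} (h : k ≤ n)
    {D : Finset (Finset (G × W))} : Lab rel k D → Lab rel n D := by
  rintro ⟨lab, H⟩
  exact ⟨lab, fun S hS => ⟨(H S hS).1.trans h, (H S hS).2⟩⟩

def PP (D : {D : Finset (Finset (G × W)) // Adm g γ D}) (m : ℕ) : Type :=
  {S // S ∈ D.1} ⊕ (G × Fin (m + 1))

variable {D : {D : Finset (Finset (G × W)) // Adm g γ D}} {m : ℕ}

noncomputable instance [Fintype G] : Fintype (PP D m) :=
  inferInstanceAs (Fintype ({S // S ∈ D.1} ⊕ (G × Fin (m + 1))))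

def ple : {S // S ∈ D.1} ⊕ (G × Fin (m + 1)) → {S // S ∈ D.1} ⊕ (G × Fin (m + 1)) → Prop
  | .inl S, .inl T => S.1 ⊆ T.1
  | .inr p, .inr q => p = q ∨ p.2 < q.2
  | _, _ => False

instance : PartialOrder (PP D m) where
  le := ple
  le_refl := by rintro (S | p) <;> simp [ple]
  le_trans := by
    rintro (S | p) (T | q) (U | r) h1 h2 <;> simp only [ple] at h1 h2 ⊢
    · exact h1.trans h2
    · rcases h1 with rfl | h1
      · exact h2
      · rcases h2 with rfl | h2
        · exact Or.inr h1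
        · exact Or.inr (h1.trans h2)
  le_antisymm := by
    rintro (S | p) (T | q) h1 h2 <;> simp only [ple] at h1 h2
    · exact congrArg Sum.inl (Subtype.ext (Subset.antisymm h1 h2))
    · rcases h1 with rfl | h1
      · rfl
      · rcases h2 with rfl | h2
        · rfl
        · exact absurd h1 (not_lt.2 h2.le)

noncomputable instance : MulAction G (PP D m) where
  smul a := Sum.map (fun S => ⟨sh a S.1, (D.2 S.1 S.2).2.1 a⟩) fun u => (a * u.1, u.2)
  one_smul := by
    rintro (S | p)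
    · exact congrArg Sum.inl (Subtype.ext (sh_one _))
    · exact congrArg Sum.inr (Prod.ext (one_mul _) rfl)
  mul_smul := by
    rintro a b (S | p)
    · exact congrArg Sum.inl (Subtype.ext (sh_sh _ _ _).symm)
    · exact congrArg Sum.inr (Prod.ext (mul_assoc _ _ _) rfl)

def pl (S : {S // S ∈ D.1}) : PP D m := Sum.inl S
def pr' (v : G × Fin (m + 1)) : PP D m := Sum.inr v

theorem smul_pl (a : G) (S : {S // S ∈ D.1}) :
    a • (pl S : PP D m) = pl ⟨sh a S.1, (D.2 S.1 S.2).2.1 a⟩ := rfl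
theorem smul_pr (a : G) (v : G × Fin (m + 1)) : a • (pr' v : PP D m) = pr' (a * v.1, v.2) := rfl
theorem le_ll (S T : {S // S ∈ D.1}) : (pl S : PP D m) ≤ pl T ↔ S.1 ⊆ T.1 := Iff.rfl
theorem le_rr (p q : G × Fin (m + 1)) : (pr' p : PP D m) ≤ pr' q ↔ p = q ∨ p.2 < q.2 := Iff.rfl
theorem le_lr (S : {S // S ∈ D.1}) (q : G × Fin (m + 1)) : ¬ (pl S : PP D m) ≤ pr' q := id
theorem le_rl (S : {S // S ∈ D.1}) (q : G × Fin (m + 1)) : ¬ (pr' q : PP D m) ≤ pl S := id

theorem pp_cases (p : PP D m) : (∃ S, p = pl S) ∨ ∃ v, p = pr' v := by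
  rcases p with S | v
  · exact Or.inl ⟨S, rfl⟩
  · exact Or.inr ⟨v, rfl⟩

theorem pp_free : FreePoset G (PP D m) := by
  constructor
  · intro a p q h
    rcases pp_cases p with ⟨S, rfl⟩ | ⟨u, rfl⟩ <;> rcases pp_cases q with ⟨T, rfl⟩ | ⟨v, rfl⟩
    · exact sh_mono a h
    · exact h
    · exact h
    · rw [smul_pr, smul_pr, le_rr]
      rcases h with rfl | h
      · exact Or.inl rfl
      · exact Or.inr h
  · intro a p h
    rcases pp_cases p with ⟨S, rfl⟩ | ⟨u, rfl⟩
    · have := congrArg Subtype.val (Sum.inl.inj h)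
      exact (D.2 S.1 S.2).1.free (this.trans (sh_one _).symm)
    · have := congrArg Prod.fst (Sum.inr.inj h)
      simpa using this

theorem sum_pp [Fintype G] (x : PP D m → ℝ) :
    ∑ p, x p = ∑ S, x (pl S) + ∑ v, x (pr' v) := Fintype.sum_sum_type (M := ℝ) x

theorem pp_ind [Fintype G] [Nontrivial G] [Fintype W] (hm : 1 ≤ m) :
    IsLeast {k | GMap G (Chain (PP D m)) k} m := by
  refine ind_of g γ hm _
    (fun x u => ∑ S : {S // S ∈ D.1}, x (pl S) * if u ∈ S.1 then 1 / (#S.1 : ℝ) else 0)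
    (by fun_prop) ?_ pr' (fun _ _ _ => rfl) ?_ (fun y => Sum.elim 0 y) ?_ ?_ ?_
  · intro a x y h b u
    let e : {S // S ∈ D.1} ≃ {S // S ∈ D.1} :=
      ⟨fun S => ⟨sh a S.1, (D.2 S.1 S.2).2.1 a⟩, fun S => ⟨sh a⁻¹ S.1, (D.2 S.1 S.2).2.1 _⟩,
        fun S => Subtype.ext (by simp [sh_sh, sh_one]),
        fun S => Subtype.ext (by simp [sh_sh, sh_one])⟩
    refine (Fintype.sum_equiv e _ _ fun S => ?_).symm
    have h1 := h (pl S)
    rw [smul_pl] at h1
    have h2 : (a * b, u) ∈ sh a S.1 ↔ (b, u) ∈ S.1 := mem_sh (u := (b, u))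
    simp only [e, Equiv.coe_fn_mk, h1, h2, card_sh]
  · rintro x ⟨h0, h1, s, hs, h2⟩
    have cmp : ∀ p q, x p ≠ 0 → x q ≠ 0 → p ≤ q ∨ q ≤ p :=
      fun p q hp hq => hs.2.total (h2 p hp) (h2 q hq)
    by_cases hl : ∃ S, x (pl S) ≠ 0
    · left
      have hr : ∀ v, x (pr' v) = 0 := by
        intro v
        by_contra hv
        obtain ⟨S, hS⟩ := hl
        exact (cmp _ _ hS hv).elim (le_lr _ _) (le_rl _ _)
      refine ⟨⟨fun u => sum_nonneg fun S _ => mul_nonneg (h0 _) (by positivity), ?_, ?_⟩, hr⟩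
      · rw [sum_comm]
        rw [sum_pp] at h1
        simp only [hr, sum_const_zero, add_zero] at h1
        refine Eq.trans (sum_congr rfl fun S _ => ?_) h1
        have : (#S.1 : ℝ) ≠ 0 := by exact_mod_cast (D.2 S.1 S.2).1.1.card_pos.ne'
        rw [← mul_sum, sum_ite_mem, univ_inter, sum_const, nsmul_eq_mul, mul_one_div_cancel this,
          mul_one]
      · obtain ⟨T, hT, hmax⟩ := exists_max_image (univ.filter fun S => x (pl S) ≠ 0)
          (fun S => #S.1) (by obtain ⟨S, hS⟩ := hl; exact ⟨S, by simpa using hS⟩)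
        simp only [mem_filter, mem_univ, true_and] at hT hmax
        refine ⟨T.1, (D.2 T.1 T.2).1, fun u hu => ?_⟩
        obtain ⟨S, -, hS⟩ := exists_ne_zero_of_sum_ne_zero hu
        have a1 : x (pl S) ≠ 0 := left_ne_zero_of_mul hS
        have a2 : u ∈ S.1 := by
          by_contra h
          simp [h] at hS
        rcases cmp _ _ a1 hT with h | h
        · exact h a2
        · rw [eq_of_subset_of_card_le h (hmax S a1)]; exact a2
    · right
      push Not at hl
      refine ⟨by funext u; simp [hl], mem_E.2 ⟨fun v => h0 _, ?_, fun u v hu hv e => ?_⟩⟩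
      · rw [sum_pp] at h1
        simpa [hl] using h1
      · rcases cmp _ _ hu hv with h | h
        · exact h.resolve_right (by simp [e])
        · exact (h.resolve_right (by simp [e])).symm
  · refine continuous_pi fun p => ?_
    rcases p with S | v
    · exact continuous_const
    · exact continuous_apply v
  · rintro y ⟨h0, h1, s, hs, h2⟩
    refine ⟨?_, ?_, s.image pr', ⟨hs.1.image _, ?_⟩, ?_⟩
    · rintro (S | v)
      · exact le_rfl
      · exact h0 v
    · rw [sum_pp, ← h1]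
      simp [pl, pr']
    · intro p hp q hq _
      obtain ⟨u, hu, rfl⟩ := mem_image.1 hp
      obtain ⟨v, hv, rfl⟩ := mem_image.1 hq
      rcases lt_trichotomy u.2 v.2 with h | h | h
      · exact Or.inl (Or.inr h)
      · exact Or.inl (Or.inl (hs.2 u hu v hv h))
      · exact Or.inr (Or.inr h)
    · rintro (S | v) h
      · exact absurd rfl h
      · exact mem_image_of_mem _ (h2 v h)
  · rintro a x y h (S | v)
    · rfl
    · exact h v.1 v.2

/-- labellings of the poset from labellings of the family -/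
theorem pp_lab {rel : G × ℕ → G × ℕ → Prop} (r1 : ∀ p, rel p p) (r2 : ∀ p q, p.2 < q.2 → rel p q)
    {n : ℕ} (hmn : m ≤ n) (h : Lab rel n D.1) : ∃ ψ : PP D m → G × Fin (n + 1),
      (∀ (a : G) p, ψ (a • p) = (a * (ψ p).1, (ψ p).2)) ∧
      ∀ p q, p ≤ q → rel ((ψ p).1, (ψ p).2.1) ((ψ q).1, (ψ q).2.1) := by
  obtain ⟨lab, H⟩ := h
  refine ⟨Sum.elim (fun S => ((lab S.1).1, ⟨(lab S.1).2, Nat.lt_succ_of_le (H S.1 S.2).1⟩))
    (fun v => (v.1, v.2.castLE (by omega))), ?_, ?_⟩
  · rintro a (S | v)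
    · have := (H S.1 S.2).2.1 a
      have e1 : (lab (sh a S.1)).1 = a * (lab S.1).1 := by rw [this]
      have e2 : (lab (sh a S.1)).2 = (lab S.1).2 := by rw [this]
      exact Prod.ext e1 (Fin.ext e2)
    · rfl
  · rintro (S | u) (T | v) h
    · exact (H S.1 S.2).2.2 T.1 T.2 h
    · exact h.elim
    · exact h.elim
    · rcases h with rfl | h
      · exact r1 _
      · exact r2 _ _ h

theorem lab_pp {rel : G × ℕ → G × ℕ → Prop} {k : ℕ} (ψ : {S // S ∈ D.1} → G × Fin (k + 1))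
    (h1 : ∀ (a : G) S, ψ ⟨sh a S.1, (D.2 S.1 S.2).2.1 a⟩ = (a * (ψ S).1, (ψ S).2))
    (h2 : ∀ S T, S.1 ⊆ T.1 → rel ((ψ S).1, (ψ S).2.1) ((ψ T).1, (ψ T).2.1)) :
    Lab rel k D.1 := by
  refine ⟨fun S => if h : S ∈ D.1 then ((ψ ⟨S, h⟩).1, (ψ ⟨S, h⟩).2.1) else (1, 0),
    fun S hS => ⟨?_, fun a => ?_, fun T hT e => ?_⟩⟩
  · simp only [hS, dite_true]
    exact Nat.le_of_lt_succ (ψ _).2.2
  · simp only [hS, (D.2 S hS).2.1 a, dite_true, h1 a ⟨S, hS⟩]
  · simp only [hS, hT, dite_true]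
    exact h2 _ _ e

end Pool.Agent.H4.GIdx
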