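import Mathlib

set_option autoImplicit false

namespace Pool.Agent.H4.InterConf

abbrev E := EuclideanSpace ℝ (Fin 4)

noncomputable def phi (t : ℝ) (x : E) : ℝ := x 0 * t + x 1 * t ^ 2 + x 2 * t ^ 3 + x 3 * t ^ 4 - 1

noncomputable def pt (a b : ℝ) : E :=
  WithLp.toLp 2 ![(2 * a * b ^ 2 + 2 * b * (a ^ 2 - 1 / 4)) / ((a ^ 2 - 1 / 4) * b ^ 2),
    -(b ^ 2 + 4 * a * b + (a ^ 2 - 1 / 4)) / ((a ^ 2 - 1 / 4) * b ^ 2),
    (2 * a + 2 * b) / ((a ^ 2 - 1 / 4) * b ^ 2), -1 / ((a ^ 2 - 1 / 4) * b ^ 2)]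

lemma phi_pt (a b t : ℝ) (ha : 1 ≤ a) (hb : 1 ≤ b) :
    phi t (pt a b) = -(((t - a) ^ 2 - 1 / 4) * (t - b) ^ 2) / ((a ^ 2 - 1 / 4) * b ^ 2) := by
  have h1 : a ^ 2 - 1 / 4 ≠ 0 := by nlinarith
  have h2 : b ≠ 0 := by linarith
  simp only [phi, pt, PiLp.toLp_apply, Matrix.cons_val_zero, Matrix.cons_val_one,
    Matrix.cons_val]
  generalize hA : a ^ 2 - 1 / 4 = A at h1 ⊢
  have : (t - a) ^ 2 - 1 / 4 = t ^ 2 - 2 * a * t + A := by rw [← hA]; ring
  rw [this]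
  field_simp
  ring

lemma phi_cont (t : ℝ) : Continuous (phi t) := by
  unfold phi
  fun_prop

lemma phi_aff (t : ℝ) (x y : E) (u v : ℝ) (h : u + v = 1) :
    phi t (u • x + v • y) = u * phi t x + v * phi t y := by
  simp only [phi, PiLp.add_apply, PiLp.smul_apply, smul_eq_mul]
  have : v = 1 - u := by linarith
  subst this
  ring

noncomputable def tt (i : Fin 33) : ℝ := (i : ℕ) + 1

lemma tt_ge (i : Fin 33) : 1 ≤ tt i := by
  unfold tt
  have : (0 : ℝ) ≤ (i : ℕ) := Nat.cast_nonneg _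
  linarith

lemma tt_sq {i j : Fin 33} (h : i ≠ j) : 1 ≤ (tt i - tt j) ^ 2 := by
  unfold tt
  have h1 : ((i : ℕ) : ℤ) - (j : ℕ) ≠ 0 := by
    intro h2
    apply h
    apply Fin.ext
    omega
  have h3 : (1 : ℤ) ≤ (((i : ℕ) : ℤ) - (j : ℕ)) ^ 2 := by
    have := Int.one_le_abs h1
    nlinarith [sq_abs (((i : ℕ) : ℤ) - (j : ℕ)), abs_nonneg (((i : ℕ) : ℤ) - (j : ℕ))]
  have h4 : ((1 : ℤ) : ℝ) ≤ (((((i : ℕ) : ℤ) - (j : ℕ)) ^ 2 : ℤ) : ℝ) := Int.cast_le.2 h3
  push_cast at h4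
  convert h4 using 2
  ring

lemma den_pos (i j : Fin 33) : 0 < ((tt i) ^ 2 - 1 / 4) * (tt j) ^ 2 := by
  have h1 := tt_ge i
  have h2 := tt_ge j
  have : 0 < (tt i) ^ 2 - 1 / 4 := by nlinarith
  positivity

lemma pt_self {i j : Fin 33} (h : i ≠ j) : 0 < phi (tt i) (pt (tt i) (tt j)) := by
  rw [phi_pt _ _ _ (tt_ge i) (tt_ge j)]
  apply div_pos _ (den_pos i j)
  have := tt_sq h
  nlinarith

lemma pt_other (i j : Fin 33) : phi (tt j) (pt (tt i) (tt j)) = 0 := by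
  rw [phi_pt _ _ _ (tt_ge i) (tt_ge j)]
  simp

lemma pt_le {i k : Fin 33} (j : Fin 33) (h : k ≠ i) : phi (tt k) (pt (tt i) (tt j)) ≤ 0 := by
  rw [phi_pt _ _ _ (tt_ge i) (tt_ge j)]
  apply div_nonpos_of_nonpos_of_nonneg _ (den_pos i j).le
  have := tt_sq h
  have h2 : 0 ≤ (tt k - tt i) ^ 2 - 1 / 4 := by linarith
  have := mul_nonneg h2 (sq_nonneg (tt k - tt j))
  linarith

def KK (B : ℝ) (i : Fin 33) : Set E :=
  {x | x ∈ Metric.closedBall (0 : E) B ∧ ∀ k, k ≠ i → phi (tt k) x ≤ 0}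

lemma KK_closed (B : ℝ) (i : Fin 33) : IsClosed (KK B i) := by
  have : KK B i = Metric.closedBall (0 : E) B ∩ ⋂ k, ⋂ (_ : k ≠ i), {x | phi (tt k) x ≤ 0} := by
    ext x; simp [KK]
  rw [this]
  exact Metric.isClosed_closedBall.inter (isClosed_iInter fun k => isClosed_iInter fun _ =>
    isClosed_le (phi_cont _) continuous_const)

lemma KK_convex (B : ℝ) (i : Fin 33) : Convex ℝ (KK B i) := by
  intro x hx y hy u v hu hv huv
  refine ⟨convex_closedBall _ _ hx.1 hy.1 hu hv huv, fun k hk => ?_⟩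
  rw [phi_aff _ _ _ _ _ huv]
  have h1 := hx.2 k hk
  have h2 := hy.2 k hk
  nlinarith [mul_nonneg hu (neg_nonneg.2 h1), mul_nonneg hv (neg_nonneg.2 h2)]

lemma other (i : Fin 33) : ∃ j : Fin 33, j ≠ i := exists_ne i

lemma mem_all (B : ℝ) (x : E) :
    x ∈ ⋂ i, KK B i ↔ x ∈ Metric.closedBall (0 : E) B ∧ ∀ k, phi (tt k) x ≤ 0 := by
  simp only [Set.mem_iInter]
  constructor
  · intro h
    refine ⟨(h 0).1, fun k => ?_⟩
    obtain ⟨j, hj⟩ := other k
    exact (h j).2 k hj.symm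
  · intro h i
    exact ⟨h.1, fun k _ => h.2 k⟩

lemma no_cover (B : ℝ) (hB : ∀ i j, pt (tt i) (tt j) ∈ Metric.closedBall (0 : E) B)
    (C : Fin 5 → Set E) (hC : ∀ i, Convex ℝ (C i)) (hU : (⋃ i, C i) = ⋃ α, KK B α) : False := by
  classical
  let col : Fin 33 → Finset (Fin 5) := fun i =>
    Finset.univ.filter (fun c => ∃ q ∈ C c, q ∈ KK B i ∧ 0 < phi (tt i) q)
  have hinj : Function.Injective col := by
    intro i j hij
    by_contra hne
    have hp : pt (tt i) (tt j) ∈ KK B i := ⟨hB i j, fun k hk => pt_le j hk⟩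
    have h1 : pt (tt i) (tt j) ∈ ⋃ c, C c := by
      rw [hU]; exact Set.mem_iUnion.2 ⟨i, hp⟩
    obtain ⟨c, hc⟩ := Set.mem_iUnion.1 h1
    have h2 : c ∈ col i := by
      simp only [col, Finset.mem_filter, Finset.mem_univ, true_and]
      exact ⟨_, hc, hp, pt_self hne⟩
    rw [hij] at h2
    simp only [col, Finset.mem_filter, Finset.mem_univ, true_and] at h2
    obtain ⟨q, hq, hqK, hq0⟩ := h2
    have a1 := pt_self hne
    have a2 := pt_other i j
    have a3 := hqK.2 i hne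
    set A := phi (tt i) (pt (tt i) (tt j))
    set Q := phi (tt i) q
    have hden : 0 < 2 * (A - Q) := by linarith
    have hs : 0 < A / (2 * (A - Q)) := div_pos a1 hden
    have hs2 : A / (2 * (A - Q)) ≤ 1 := by
      rw [div_le_one hden]; linarith
    have h3 := hC c hc hq (a := 1 - A / (2 * (A - Q))) (b := A / (2 * (A - Q))) (by linarith) hs.le
      (by ring)
    have h4 : (1 - A / (2 * (A - Q))) • pt (tt i) (tt j) + (A / (2 * (A - Q))) • q ∈
        ⋃ α, KK B α := by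
      rw [← hU]; exact Set.mem_iUnion.2 ⟨c, h3⟩
    obtain ⟨k, hk⟩ := Set.mem_iUnion.1 h4
    by_cases hki : i = k
    · subst hki
      have := hk.2 j (Ne.symm hne)
      rw [phi_aff _ _ _ _ _ (by ring), a2] at this
      have := mul_pos hs hq0
      linarith
    · have := hk.2 i hki
      rw [phi_aff _ _ _ _ _ (by ring)] at this
      have e : (1 - A / (2 * (A - Q))) * A + A / (2 * (A - Q)) * Q = A / 2 := by
        have hne' : A - Q ≠ 0 := by linarith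
        field_simp
        ring
      change (1 - A / (2 * (A - Q))) * A + A / (2 * (A - Q)) * Q ≤ 0 at this
      linarith
  have := Fintype.card_le_of_injective col hinj
  simp at this

end Pool.Agent.H4.InterConf
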