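import Mathlib

set_option autoImplicit false

namespace Pool.Agent.H4.IpA

open Finset

lemma cover {ι : Type} [Fintype ι] [DecidableEq ι] (z : ℕ → ι → ℤ) (k : ℕ) :
    ∃ T : Finset ι, T.card ≤ k ∧ ∀ c : ι → ℤ, ∃ l : ι → ℤ,
      (∀ j < k, ∑ i, l i * z j i = 0) ∧ ∀ i, i ∉ T → (2 : ℤ) ∣ l i - c i := by
  induction k with
  | zero => exact ⟨∅, le_rfl, fun c => ⟨c, fun j hj => absurd hj (Nat.not_lt_zero _), fun i _ => by simp⟩⟩
  | succ k ih =>
    obtain ⟨T, hT, hc⟩ := ih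
    let H : AddSubgroup ℤ :=
      { carrier := {t | ∃ l : ι → ℤ, (∀ j < k, ∑ i, l i * z j i = 0) ∧ ∑ i, l i * z k i = t}
        zero_mem' := ⟨0, by simp, by simp⟩
        add_mem' := by
          rintro a b ⟨l, hl, rfl⟩ ⟨l', hl', rfl⟩
          refine ⟨l + l', fun j hj => ?_, ?_⟩
          · simp only [Pi.add_apply, add_mul, sum_add_distrib, hl j hj, hl' j hj, add_zero]
          · simp only [Pi.add_apply, add_mul, sum_add_distrib]
        neg_mem' := by
          rintro a ⟨l, hl, rfl⟩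
          refine ⟨-l, fun j hj => ?_, ?_⟩
          · simp only [Pi.neg_apply, neg_mul, sum_neg_distrib, hl j hj, neg_zero]
          · simp only [Pi.neg_apply, neg_mul, sum_neg_distrib] }
    obtain ⟨a, ha⟩ := Int.subgroup_cyclic H
    have haH : a ∈ H := by rw [ha]; exact AddSubgroup.subset_closure rfl
    obtain ⟨g, hg, hga⟩ := haH
    let M : Submodule ℤ (ι → ℤ) :=
      { carrier := {c | ∃ l : ι → ℤ, (∀ j < k + 1, ∑ i, l i * z j i = 0) ∧
          ∀ i, i ∉ T → (2 : ℤ) ∣ l i - c i}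
        zero_mem' := ⟨0, by simp, by simp⟩
        add_mem' := by
          rintro a b ⟨l, hl, h2⟩ ⟨l', hl', h2'⟩
          refine ⟨l + l', fun j hj => ?_, fun i hi => ?_⟩
          · simp only [Pi.add_apply, add_mul, sum_add_distrib, hl j hj, hl' j hj, add_zero]
          · have := dvd_add (h2 i hi) (h2' i hi)
            rw [show (l + l') i - (a + b) i = l i - a i + (l' i - b i) by simp only [Pi.add_apply]; ring]
            exact this
        smul_mem' := by
          rintro m a ⟨l, hl, h2⟩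
          refine ⟨m • l, fun j hj => ?_, fun i hi => ?_⟩
          · simp only [Pi.smul_apply, smul_eq_mul, mul_assoc, ← mul_sum, hl j hj, mul_zero]
          · have := Dvd.dvd.mul_left (h2 i hi) m
            rw [show (m • l) i - (m • a) i = m * (l i - a i) by simp only [Pi.smul_apply, smul_eq_mul]; ring]
            exact this }
    have h1 : ∀ c : ι → ℤ, ∃ m : ℤ, c - m • g ∈ M := by
      intro c
      obtain ⟨l, hl, h2⟩ := hc c
      have hm : (∑ i, l i * z k i) ∈ H := ⟨l, hl, rfl⟩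
      rw [ha, AddSubgroup.mem_closure_singleton] at hm
      obtain ⟨m, hm⟩ := hm
      refine ⟨m, l - m • g, fun j hj => ?_, fun i hi => ?_⟩
      · simp only [Pi.sub_apply, Pi.smul_apply, smul_eq_mul, sub_mul, sum_sub_distrib, mul_assoc,
          ← mul_sum]
        rcases Nat.lt_succ_iff_lt_or_eq.1 hj with h | rfl
        · rw [hl j h, hg j h]; simp
        · rw [hga, ← hm]; simp
      · have := h2 i hi
        simp only [Pi.sub_apply, Pi.smul_apply, smul_eq_mul]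
        convert this using 1; ring
    have h2 : ∀ c : ι → ℤ, (2 : ℤ) • c ∈ M := fun c =>
      ⟨0, by simp, fun i _ => by simp⟩
    by_cases hall : ∀ i : ι, (Pi.single i (1 : ℤ) : ι → ℤ) ∈ M
    · refine ⟨T, hT.trans (Nat.le_succ _), fun c => ?_⟩
      have : c ∈ M := by
        have e : c = ∑ i, c i • (Pi.single i (1 : ℤ) : ι → ℤ) := by
          funext j
          simp [Finset.sum_apply, Pi.single_apply]
        rw [e]
        exact M.sum_mem fun i _ => M.smul_mem _ (hall i)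
      exact this
    · push Not at hall
      obtain ⟨i0, hi0⟩ := hall
      obtain ⟨m, hm⟩ := h1 (Pi.single i0 1)
      have heg : (Pi.single i0 (1 : ℤ) : ι → ℤ) - g ∈ M := by
        rcases Int.even_or_odd' m with ⟨t, rfl | rfl⟩
        · exfalso
          apply hi0
          have := M.add_mem hm (h2 (t • g))
          convert this using 1
          rw [smul_smul]; abel
        · have := M.add_mem hm (h2 (t • g))
          convert this using 1
          rw [smul_smul, add_smul, one_smul]; abel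
      refine ⟨insert i0 T, (card_insert_le _ _).trans (Nat.succ_le_succ hT), fun c => ?_⟩
      obtain ⟨m', hm'⟩ := h1 c
      have := M.sub_mem hm' (M.smul_mem m' heg)
      obtain ⟨l, hl, h3⟩ := this
      refine ⟨l, hl, fun i hi => ?_⟩
      rw [mem_insert, not_or] at hi
      have h4 := h3 i hi.2
      simp only [Pi.sub_apply, Pi.smul_apply, smul_eq_mul, Pi.single_apply, if_neg hi.1] at h4
      convert h4 using 1; ring

lemma dirichlet {κ : Type} [Fintype κ] (M : ℕ) (hM : 0 < M) :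
    ∃ C : ℕ, ∀ v : κ → ℝ, ∃ q : ℕ, 0 < q ∧ q ≤ C ∧ ∀ p, ∃ z : ℤ, |(q : ℝ) * v p - z| ≤ 1 / M := by
  classical
  refine ⟨M ^ Fintype.card κ, fun v => ?_⟩
  have hM' : (0 : ℝ) < M := by exact_mod_cast hM
  have hb : ∀ (t : ℝ), ⌊(M : ℝ) * Int.fract t⌋₊ < M := fun t => by
    rw [Nat.floor_lt (mul_nonneg hM'.le (Int.fract_nonneg t))]
    have := Int.fract_lt_one t
    nlinarith
  let F : Fin (M ^ Fintype.card κ + 1) → (κ → Fin M) := fun s p => ⟨_, hb ((s : ℕ) * v p)⟩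
  have key : ∀ s t : Fin (M ^ Fintype.card κ + 1), s < t → F s = F t →
      ∃ q : ℕ, 0 < q ∧ q ≤ M ^ Fintype.card κ ∧ ∀ p, ∃ z : ℤ, |(q : ℝ) * v p - z| ≤ 1 / M := by
    intro s t hst hF
    have hst' : (s : ℕ) < t := hst
    refine ⟨t - s, by omega, by have := t.2; omega, fun p => ⟨⌊((t : ℕ) : ℝ) * v p⌋ - ⌊((s : ℕ) : ℝ) * v p⌋, ?_⟩⟩
    have h1 : ⌊(M : ℝ) * Int.fract (((s : ℕ) : ℝ) * v p)⌋₊ = ⌊(M : ℝ) * Int.fract (((t : ℕ) : ℝ) * v p)⌋₊ :=
      congrArg Fin.val (congrFun hF p)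
    have a1 := Nat.floor_le (mul_nonneg hM'.le (Int.fract_nonneg (((s : ℕ) : ℝ) * v p)))
    have a2 := Nat.lt_floor_add_one ((M : ℝ) * Int.fract (((s : ℕ) : ℝ) * v p))
    have a3 := Nat.floor_le (mul_nonneg hM'.le (Int.fract_nonneg (((t : ℕ) : ℝ) * v p)))
    have a4 := Nat.lt_floor_add_one ((M : ℝ) * Int.fract (((t : ℕ) : ℝ) * v p))
    rw [h1] at a1 a2
    have e : (((t : ℕ) - (s : ℕ) : ℕ) : ℝ) * v p - ((⌊((t : ℕ) : ℝ) * v p⌋ - ⌊((s : ℕ) : ℝ) * v p⌋ : ℤ) : ℝ) =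
        Int.fract (((t : ℕ) : ℝ) * v p) - Int.fract (((s : ℕ) : ℝ) * v p) := by
      rw [Nat.cast_sub hst'.le]
      simp only [Int.fract]
      push_cast; ring
    rw [e, le_div_iff₀ hM', abs_mul_le_iff_aux]
    constructor <;> nlinarith
  obtain ⟨s, t, hne, hF⟩ := Fintype.exists_ne_map_eq_of_card_lt F (by simp)
  rcases lt_or_gt_of_ne hne with h | h
  · exact key s t h hF
  · exact key t s h hF.symm
where abs_mul_le_iff_aux {x y : ℝ} {M : ℕ} : |x| * (M : ℝ) ≤ y ↔ (x * M ≤ y ∧ -x * M ≤ y) := by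
        rcases abs_cases x with ⟨h, h'⟩ | ⟨h, h'⟩ <;> rw [h] <;>
        constructor <;> intro hh <;>
        first
          | exact hh.1
          | exact hh.2
          | (have : (0 : ℝ) ≤ M := Nat.cast_nonneg M
             constructor <;> nlinarith)

lemma recur (k d : ℕ) (hd : 0 < d) : ∃ C : ℕ, 2 ≤ C ∧ ∀ v : ℕ → Fin d → ℝ, ∃ c : Fin d → ℕ, (∀ i, c i ≤ C) ∧
    (∃ T : Finset (Fin d), T.card ≤ k ∧ ∀ i, i ∉ T → c i % 2 = 1) ∧
    ∀ j < k, ∃ z : ℤ, |∑ i, (c i : ℝ) * v j i - z| ≤ 1 / (k + 1) := by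
  obtain ⟨C, hC⟩ := dirichlet (κ := Fin k × Fin d) (2 * d * (k + 1)) (by positivity)
  refine ⟨2 * C + 2, by omega, fun v => ?_⟩
  obtain ⟨q, hq0, hqC, hz⟩ := hC (fun p => v p.1 p.2)
  choose z hz using hz
  obtain ⟨T, hT, hc⟩ := cover (fun j i => if h : j < k then z (⟨j, h⟩, i) else 0) k
  obtain ⟨l, hl, h2⟩ := hc 1
  have hq' : (0 : ℤ) < 2 * q := by positivity
  have hn : ∀ i, (((l i % (2 * q)).toNat : ℕ) : ℤ) = l i % (2 * q) := fun i =>
    Int.toNat_of_nonneg (Int.emod_nonneg _ hq'.ne')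
  have hlt : ∀ i, (l i % (2 * q)).toNat ≤ 2 * q := fun i => by
    have := Int.emod_lt_of_pos (l i) hq'
    have := hn i
    omega
  refine ⟨fun i => (l i % (2 * q)).toNat, fun i => (hlt i).trans (by omega), ⟨T, hT, fun i hi => ?_⟩,
    fun j hj => ?_⟩
  · have h3 := h2 i hi
    have h4 := hn i
    have h5 : l i % (2 * q) % 2 = l i % 2 := Int.emod_emod_of_dvd _ ⟨q, rfl⟩
    simp only [Pi.one_apply] at h3
    show (l i % (2 * q)).toNat % 2 = 1
    omega
  · have h3 := hl j hj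
    simp only [dif_pos hj] at h3
    refine ⟨-2 * ∑ i, (l i / (2 * q)) * z (⟨j, hj⟩, i), ?_⟩
    have hqr : (0 : ℝ) < q := by exact_mod_cast hq0
    have e0 : (∑ i, (((l i % (2 * q)).toNat : ℕ) : ℤ) * z (⟨j, hj⟩, i)) =
        q * (-2 * ∑ i, (l i / (2 * q)) * z (⟨j, hj⟩, i)) := by
      have : ∀ i, (((l i % (2 * q)).toNat : ℕ) : ℤ) * z (⟨j, hj⟩, i) =
          l i * z (⟨j, hj⟩, i) - 2 * q * ((l i / (2 * q)) * z (⟨j, hj⟩, i)) := fun i => by
        rw [hn i, Int.emod_def]; ring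
      rw [sum_congr rfl fun i _ => this i, sum_sub_distrib, h3, ← mul_sum]; ring
    have e1 : (q : ℝ) * (∑ i, (((l i % (2 * q)).toNat : ℕ) : ℝ) * v j i -
        ((-2 * ∑ i, (l i / (2 * q)) * z (⟨j, hj⟩, i) : ℤ) : ℝ)) =
        ∑ i, (((l i % (2 * q)).toNat : ℕ) : ℝ) * ((q : ℝ) * v j i - z (⟨j, hj⟩, i)) := by
      have e2 : ((∑ i, (((l i % (2 * q)).toNat : ℕ) : ℤ) * z (⟨j, hj⟩, i) : ℤ) : ℝ) =
          ((q * (-2 * ∑ i, (l i / (2 * q)) * z (⟨j, hj⟩, i)) : ℤ) : ℝ) := by rw [e0]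
      rw [Int.cast_mul, Int.cast_sum] at e2
      simp only [Int.cast_mul, Int.cast_natCast] at e2
      rw [mul_sub, Int.cast_mul, ← e2, mul_sum, ← sum_sub_distrib]
      exact sum_congr rfl fun i _ => by ring
    have e3 : |∑ i, (((l i % (2 * q)).toNat : ℕ) : ℝ) * ((q : ℝ) * v j i - z (⟨j, hj⟩, i))| ≤
        ∑ _i : Fin d, (2 * q : ℝ) * (1 / ((2 * d * (k + 1) : ℕ) : ℝ)) := by
      refine (abs_sum_le_sum_abs _ _).trans (sum_le_sum fun i _ => ?_)
      rw [abs_mul, abs_of_nonneg (Nat.cast_nonneg _)]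
      refine mul_le_mul ?_ (hz (⟨j, hj⟩, i)) (abs_nonneg _) (by positivity)
      exact_mod_cast hlt i
    rw [← e1, abs_mul, abs_of_pos hqr, sum_const, card_univ, Fintype.card_fin, nsmul_eq_mul] at e3
    have hdr : (0 : ℝ) < d := by exact_mod_cast hd
    have e4 : (d : ℝ) * ((2 * q : ℝ) * (1 / ((2 * d * (k + 1) : ℕ) : ℝ))) = q * (1 / (k + 1)) := by
      push_cast; field_simp
    rw [e4] at e3
    exact le_of_mul_le_mul_left e3 hqr

end Pool.Agent.H4.IpA
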