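import Mathlib

set_option autoImplicit false

namespace Pool.Agent.H4.RMaj

open Finset
open scoped Classical

abbrev Z2 := ZMod 2

lemma z2 : ∀ x : Z2, x = 0 ∨ x = 1 := by decide
lemma z2add : ∀ x : Z2, x + x = 0 := by decide

/-- half block length, given the current period -/
def rr (c j : ℕ) : ℕ := (c * (2 * j) * 2 ^ (j + 3)) ^ 2 + j

/-- periods -/
def c : ℕ → ℕ
  | 0 => 1
  | j + 1 => c j * (2 * rr (c j) j + 1)

def r (j : ℕ) : ℕ := rr (c j) j

lemma c_succ (j : ℕ) : c (j + 1) = c j * (2 * r j + 1) := rfl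

lemma c_pos (j : ℕ) : 0 < c j := by
  induction j with
  | zero => exact Nat.one_pos
  | succ j ih => rw [c_succ]; positivity

lemma c_dvd {i j : ℕ} (h : i ≤ j) : c i ∣ c j := by
  induction h with
  | refl => rfl
  | step _ ih => exact ih.trans ⟨_, c_succ _⟩

lemma cb (n : ℕ) : n.centralBinom ^ 2 * (2 * n + 1) ≤ 16 ^ n := by
  induction n with
  | zero => simp
  | succ n ih =>
    have h := Nat.succ_mul_centralBinom_succ n
    have h1 : ((n + 1) * (n + 1).centralBinom) ^ 2 = (2 * (2 * n + 1) * n.centralBinom) ^ 2 := by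
      rw [h]
    refine Nat.le_of_mul_le_mul_left (c := (n + 1) ^ 2) ?_ (by positivity)
    calc (n + 1) ^ 2 * ((n + 1).centralBinom ^ 2 * (2 * (n + 1) + 1))
        = ((n + 1) * (n + 1).centralBinom) ^ 2 * (2 * n + 3) := by ring
      _ = (4 * (2 * n + 1) * (2 * n + 3)) * (n.centralBinom ^ 2 * (2 * n + 1)) := by rw [h1]; ring
      _ ≤ (16 * (n + 1) ^ 2) * 16 ^ n := Nat.mul_le_mul (by nlinarith) ih
      _ = _ := by ring

lemma mid (N n : ℕ) (h : N ^ 2 ≤ n) : N * (2 * n + 1).choose n ≤ 2 ^ (2 * n + 1) := by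
  have h1 := cb (n + 1)
  have h2 : (n + 1).centralBinom = 2 * (2 * n + 1).choose n := by
    rw [Nat.centralBinom, show 2 * (n + 1) = (2 * n + 1) + 1 by ring, Nat.choose_succ_succ',
      Nat.choose_symm_half]
    ring
  rw [h2] at h1
  have h3 : (N * (2 * n + 1).choose n) ^ 2 ≤ (2 ^ (2 * n + 1)) ^ 2 := by
    have e : (16 : ℕ) ^ (n + 1) = 4 * (2 ^ (2 * n + 1)) ^ 2 := by
      rw [show (16 : ℕ) = 2 ^ 4 by norm_num, ← pow_mul, ← pow_mul, show (4 : ℕ) = 2 ^ 2 by norm_num,
        ← pow_add]
      congr 1; ring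
    rw [e] at h1
    have : N ^ 2 * (2 * n + 1).choose n ^ 2 ≤ (2 * (n + 1) + 1) * (2 * n + 1).choose n ^ 2 :=
      Nat.mul_le_mul_right _ (by omega)
    nlinarith
  exact (Nat.pow_le_pow_iff_left (by norm_num)).1 h3

/-- `g` has period `c j` -/
def Per (j : ℕ) (g : ℕ → Z2) : Prop := ∀ n, g n = g (n % c j)

lemma Per.mono {i j : ℕ} {g : ℕ → Z2} (h : Per i g) (hij : i ≤ j) : Per j g := by
  intro n
  rw [h n, h (n % c j), Nat.mod_mod_of_dvd _ (c_dvd hij)]

lemma Per.add {j : ℕ} {g h : ℕ → Z2} (hg : Per j g) (hh : Per j h) : Per j (g + h) := by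
  intro n; simp only [Pi.add_apply]; rw [hg n, hh n]

lemma per_one (j : ℕ) : Per j 1 := fun _ => rfl

/-- weight of a block -/
noncomputable def wt {m : ℕ} (x : Fin m → Z2) : ℕ := (univ.filter (fun t => x t = 1)).card

/-- the block of `a` -/
def blk (j a : ℕ) (g : ℕ → Z2) : Fin (2 * r j + 1) → Z2 := fun t => g (a + c j * t)

/-- blockwise majority -/
noncomputable def pr (j : ℕ) (g : ℕ → Z2) : ℕ → Z2 :=
  fun n => if r j < wt (blk j (n % c j) g) then 1 else 0

lemma pr_per (j : ℕ) (g : ℕ → Z2) : Per j (pr j g) := fun n => by simp [pr]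

lemma wt_add_one {m : ℕ} (x : Fin m → Z2) : wt (fun t => x t + 1) + wt x = m := by
  unfold wt
  have := card_filter_add_card_filter_not (s := univ) (fun t => x t = 1)
  rw [card_univ, Fintype.card_fin] at this
  rw [add_comm]
  refine Eq.trans ?_ this
  congr 2
  refine filter_congr fun t _ => ?_
  rcases z2 (x t) with h | h <;> simp [h]

lemma pr_add {j : ℕ} (g : ℕ → Z2) {s : ℕ → Z2} (hs : Per j s) : pr j (g + s) = pr j g + s := by
  funext n
  have h1 : blk j (n % c j) (g + s) = fun t => blk j (n % c j) g t + s n := by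
    funext t
    simp only [blk, Pi.add_apply]
    rw [hs (n % c j + c j * t), hs n]
    simp
  simp only [pr, Pi.add_apply, h1]
  rcases z2 (s n) with h | h
  · simp [h]
  · rw [h]
    have := wt_add_one (blk j (n % c j) g)
    split_ifs <;> first | rfl | omega

lemma pr_zero (j : ℕ) : pr j 0 = 0 := by
  funext n
  simp [pr, wt, blk]

lemma pr_self {j : ℕ} {g : ℕ → Z2} (h : Per j g) : pr j g = g := by
  simpa [pr_zero] using pr_add 0 h

/-- iterated majority -/
noncomputable def Phi : ℕ → (ℕ → Z2) → Z2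
  | 0, g => g 0
  | j + 1, g => Phi j (pr j g)

lemma Phi_one (j : ℕ) (g : ℕ → Z2) : Phi j (g + 1) = Phi j g + 1 := by
  induction j generalizing g with
  | zero => rfl
  | succ j ih => simp only [Phi]; rw [pr_add g (per_one j), ih]

lemma Phi_mono {i j : ℕ} {g : ℕ → Z2} (h : Per i g) (hij : i ≤ j) : Phi j g = Phi i g := by
  induction hij with
  | refl => rfl
  | step hle ih => simp only [Phi]; rw [pr_self (h.mono hle), ih]

/-- Hamming balls -/
def X (j : ℕ) (s : ℕ → Z2) : Prop :=
  Per (j + 1) s ∧ ((range (c (j + 1))).filter (fun n => s n = 1)).card ≤ j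

/-- robust blocks -/
def Rob (j : ℕ) (x : Fin (2 * r j + 1) → Z2) : Prop := wt x + j ≤ r j ∨ r j + j < wt x

lemma wt_blk {j : ℕ} {s : ℕ → Z2} (hs : X j s) {a : ℕ} (ha : a < c j) : wt (blk j a s) ≤ j := by
  refine le_trans ?_ hs.2
  refine card_le_card_of_injOn (fun t => a + c j * t) ?_ ?_
  · intro t ht
    simp only [coe_filter, mem_univ, true_and, Set.mem_ofPred_eq, mem_range, blk] at ht ⊢
    refine ⟨?_, ht⟩
    rw [c_succ]
    have : c j * t ≤ c j * (2 * r j) := Nat.mul_le_mul_left _ (by omega)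
    nlinarith
  · intro t _ t' _ h
    exact Fin.ext (Nat.eq_of_mul_eq_mul_left (c_pos j) (by simpa using h))

lemma wt_tri {m : ℕ} (x y : Fin m → Z2) : wt (x + y) ≤ wt x + wt y := by
  refine le_trans (card_le_card ?_) (card_union_le _ _)
  intro t
  simp only [mem_filter, mem_univ, true_and, mem_union, Pi.add_apply]
  rcases z2 (x t) with h | h <;> simp [h]

lemma pr_rob {j : ℕ} {g s : ℕ → Z2} (hg : ∀ a < c j, Rob j (blk j a g)) (hs : X j s) :
    pr j (g + s) = pr j g := by
  funext n
  have ha := Nat.mod_lt n (c_pos j)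
  have h1 := wt_blk hs ha
  have h2 := wt_tri (blk j (n % c j) g) (blk j (n % c j) s)
  have h3 := wt_tri (blk j (n % c j) g + blk j (n % c j) s) (blk j (n % c j) s)
  have e : blk j (n % c j) g + blk j (n % c j) s + blk j (n % c j) s = blk j (n % c j) g := by
    funext t; simp [add_assoc, z2add]
  rw [e] at h3
  have e2 : blk j (n % c j) (g + s) = blk j (n % c j) g + blk j (n % c j) s := rfl
  simp only [pr, e2]
  rcases hg _ ha with h | h <;> split_ifs <;> first | rfl | omega

lemma rob_per {j : ℕ} {g : ℕ → Z2} (h : Per j g) (a : ℕ) : Rob j (blk j a g) := by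
  have h1 : blk j a g = fun _ => g a := by
    funext t
    simp only [blk]
    rw [h (a + c j * t), h a]; simp
  have h2 : j ≤ r j := by unfold r rr; omega
  rw [h1]
  rcases z2 (g a) with h | h
  · left; simpa [h, wt] using h2
  · right; simp [h, wt]; omega

lemma bad_card (j : ℕ) :
    (univ.filter (fun x => ¬ Rob j x)).card * (c j * 2 ^ (j + 3)) ≤ 2 ^ (2 * r j + 1) := by
  have h1 : (univ.filter (fun x => ¬ Rob j x)).card ≤
      ((Ioc (r j - j) (r j + j)).biUnion
        (fun w => powersetCard w (univ : Finset (Fin (2 * r j + 1))))).card := by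
    refine card_le_card_of_injOn (fun x => univ.filter (fun t => x t = 1)) ?_ ?_
    · intro x hx
      simp only [coe_filter, mem_univ, true_and, Set.mem_ofPred_eq, Rob, not_or] at hx
      simp only [mem_coe, mem_biUnion, mem_Ioc, mem_powersetCard]
      have h2 : j ≤ r j := by unfold r rr; omega
      exact ⟨wt x, by omega, subset_univ _, rfl⟩
    · intro x _ y _ h
      funext t
      have : x t = 1 ↔ y t = 1 := by simpa using Finset.ext_iff.1 h t
      rcases z2 (x t) with h | h <;> rcases z2 (y t) with h' | h' <;> simp_all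
  have h2 := card_biUnion_le_card_mul (Ioc (r j - j) (r j + j))
    (fun w => powersetCard w (univ : Finset (Fin (2 * r j + 1)))) ((2 * r j + 1).choose (r j))
    (fun w _ => by
      rw [card_powersetCard, card_univ, Fintype.card_fin]
      have := Nat.choose_le_middle w (2 * r j + 1)
      rwa [show (2 * r j + 1) / 2 = r j by omega] at this)
  have h3 := mid (c j * (2 * j) * 2 ^ (j + 3)) (r j) (by unfold r rr; omega)
  have h4 : (Ioc (r j - j) (r j + j)).card ≤ 2 * j := by simp; omega
  have h5 := Nat.mul_le_mul_right ((2 * r j + 1).choose (r j)) h4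
  have h6 := Nat.mul_le_mul_right (c j * 2 ^ (j + 3)) (h1.trans (h2.trans h5))
  refine h6.trans (le_trans (le_of_eq ?_) h3)
  ring

/-- the subgroup of period `c j` -/
def K (j : ℕ) : AddSubgroup (ℕ → Z2) where
  carrier := {g | Per j g}
  add_mem' := Per.add
  zero_mem' := fun _ => rfl
  neg_mem' := fun {g} h n => by simp only [Pi.neg_apply]; rw [h n]

instance (j : ℕ) : Finite (K j) := by
  refine Finite.of_injective (fun (g : K j) (t : Fin (c j)) => g.1 t) ?_
  intro g h e
  ext n
  rw [g.2 n, h.2 n]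
  exact congrFun e ⟨_, Nat.mod_lt n (c_pos j)⟩

noncomputable instance (j : ℕ) : Fintype (K j) := Fintype.ofFinite _

lemma unif {H L : Type} [AddCommGroup H] [Fintype H] [Fintype L] (φ : H → L)
    (h : ∀ y y', ∃ s, ∀ g, φ g = y → φ (g + s) = y') (p : L → Prop) :
    (univ.filter (fun g => p (φ g))).card * Fintype.card L =
      (univ.filter p).card * Fintype.card H := by
  have h1 : ∀ y y', (univ.filter (fun g => φ g = y)).card ≤ (univ.filter (fun g => φ g = y')).card := by
    intro y y'
    obtain ⟨s, hs⟩ := h y y'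
    refine card_le_card_of_injOn (· + s) ?_ (fun a _ b _ e => add_right_cancel e)
    intro g hg
    simp only [coe_filter, mem_univ, true_and, Set.mem_ofPred_eq] at hg ⊢
    exact hs g hg
  have h2 : ∀ q : L → Prop, (univ.filter (fun g => q (φ g))).card =
      (univ.filter q).card * (univ.filter (fun g => φ g = φ 0)).card := by
    intro q
    rw [card_eq_sum_card_fiberwise (f := φ) (t := univ.filter q) (by intro g hg; simpa using hg),
      ← smul_eq_mul, ← sum_const]
    refine sum_congr rfl fun y hy => ?_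
    rw [← le_antisymm (h1 y (φ 0)) (h1 (φ 0) y)]
    congr 1
    ext g
    simp only [mem_filter, mem_univ, true_and] at hy ⊢
    exact ⟨fun a => a.2, fun a => ⟨a ▸ hy, a⟩⟩
  have h3 := h2 (fun _ => True)
  simp only [filter_true, card_univ] at h3
  rw [h2 p, h3]; ring

/-- robust elements of level `j` -/
def Bj (j : ℕ) (g : ℕ → Z2) : Prop := Phi j g = 0 ∧ ∀ i < j, ∀ s, X i s → Phi j (g + s) = 0

lemma dens (j : ℕ) : (2 ^ j + 1) * Fintype.card (K j) ≤
    2 ^ (j + 2) * (univ.filter (fun g : K j => Bj j g.1)).card := by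
  induction j with
  | zero =>
    have := unif (H := K 0) (fun g => g.1 0) (fun y y' => ⟨⟨fun _ => y + y', fun _ => rfl⟩,
      fun g hg => by simp [hg, ← add_assoc, z2add]⟩) (fun y => y = 0)
    have h2 : (univ.filter (fun g : K 0 => Bj 0 g.1)).card * 2 = Fintype.card (K 0) := by
      convert this using 1
      · congr 2
        ext g; simp [Bj, Phi]
      · rw [card_eq_one.2 ⟨0, by ext; simp⟩, one_mul]
    omega
  | succ j ih =>
    have h1 := unif (H := K (j + 1)) (L := K j) (fun g => ⟨pr j g.1, pr_per j _⟩)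
      (fun y y' => ⟨⟨(y + y').1, Per.mono (y + y').2 (by omega)⟩, fun g hg => by
        apply Subtype.ext
        have : pr j g.1 = y.1 := congrArg Subtype.val hg
        show pr j (g.1 + (y + y').1) = y'.1
        rw [pr_add _ (y + y').2, this]
        funext n; simp [← add_assoc, z2add]⟩) (fun g => Bj j g.1)
    have h2 : ∀ a ∈ range (c j), (univ.filter (fun g : K (j + 1) => ¬ Rob j (blk j a g.1))).card *
        (c j * 2 ^ (j + 3)) ≤ Fintype.card (K (j + 1)) := by
      intro a ha
      have ha' := mem_range.1 ha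
      have h3 := unif (H := K (j + 1)) (fun g => blk j a g.1) (fun y y' =>
        ⟨⟨fun n => (y + y') ⟨n % c (j + 1) / c j, by
            rw [Nat.div_lt_iff_lt_mul (c_pos j), mul_comm, ← c_succ]
            exact Nat.mod_lt _ (c_pos _)⟩, fun n => by simp⟩, fun g hg => by
          funext t
          have e : (a + c j * t) % c (j + 1) / c j = t := by
            rw [Nat.mod_eq_of_lt, Nat.add_mul_div_left _ _ (c_pos j), Nat.div_eq_of_lt ha', zero_add]
            rw [c_succ]
            have : c j * t ≤ c j * (2 * r j) := Nat.mul_le_mul_left _ (by omega)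
            nlinarith
          have e2 := congrFun hg t
          simp only [blk, AddSubgroup.coe_add, Pi.add_apply, e, Fin.eta] at e2 ⊢
          rw [e2, ← add_assoc, z2add, zero_add]⟩) (fun x => ¬ Rob j x)
      simp only [Fintype.card_fun, ZMod.card, Fintype.card_fin] at h3
      replace h3 : (univ.filter (fun g : K (j + 1) => ¬ Rob j (blk j a g.1))).card *
          2 ^ (2 * r j + 1) = (univ.filter (fun x => ¬ Rob j x)).card * Fintype.card (K (j + 1)) := by
        convert h3
      have h4 := Nat.mul_le_mul_right (Fintype.card (K (j + 1))) (bad_card j)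
      refine Nat.le_of_mul_le_mul_left (c := 2 ^ (2 * r j + 1)) ?_ (by positivity)
      calc _ = (univ.filter (fun g : K (j + 1) => ¬ Rob j (blk j a g.1))).card * 2 ^ (2 * r j + 1) *
            (c j * 2 ^ (j + 3)) := by ring
        _ = _ := by rw [h3]
        _ ≤ _ := by nlinarith
    have h5 : (univ.filter (fun g : K (j + 1) => Bj j (pr j g.1))).card ≤
        (univ.filter (fun g : K (j + 1) => Bj (j + 1) g.1)).card +
        ∑ a ∈ range (c j), (univ.filter (fun g : K (j + 1) => ¬ Rob j (blk j a g.1))).card := by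
      refine le_trans (card_le_card ?_) ((card_union_le _ _).trans
        (Nat.add_le_add_left card_biUnion_le _))
      intro g
      simp only [mem_filter, mem_univ, true_and, mem_union, mem_biUnion, mem_range]
      intro hg
      by_cases hr : ∀ a < c j, Rob j (blk j a g.1)
      · refine Or.inl ⟨hg.1, fun i hi s hs => ?_⟩
        simp only [Phi]
        rcases Nat.lt_succ_iff_lt_or_eq.1 hi with hi | rfl
        · rw [pr_add _ (hs.1.mono hi)]; exact hg.2 i hi s hs
        · rw [pr_rob hr hs]; exact hg.1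
      · push Not at hr
        exact Or.inr hr
    have h6 := sum_le_sum h2
    rw [← sum_mul, sum_const, card_range, smul_eq_mul] at h6
    set S := ∑ a ∈ range (c j), (univ.filter (fun g : K (j + 1) => ¬ Rob j (blk j a g.1))).card
    have h7 : S * 2 ^ (j + 3) ≤ Fintype.card (K (j + 1)) :=
      Nat.le_of_mul_le_mul_left (c := c j) (by nlinarith) (c_pos j)
    simp only at h1
    set u := (univ.filter (fun g : K (j + 1) => Bj j (pr j g.1))).card
    set v := (univ.filter (fun g : K j => Bj j g.1)).card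
    have h8 : (2 ^ j + 1) * Fintype.card (K (j + 1)) ≤ 2 ^ (j + 2) * u := by
      refine Nat.le_of_mul_le_mul_left (c := Fintype.card (K j)) ?_ Fintype.card_pos
      have := Nat.mul_le_mul_right (Fintype.card (K (j + 1))) ih
      calc _ = (2 ^ j + 1) * Fintype.card (K j) * Fintype.card (K (j + 1)) := by ring
        _ ≤ _ := this
        _ = 2 ^ (j + 2) * (v * Fintype.card (K (j + 1))) := by ring
        _ = _ := by rw [← h1]; ring
    have h9 := Nat.mul_le_mul_left (2 ^ (j + 3)) h5
    simp only [pow_succ] at h7 h8 h9 ⊢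
    nlinarith

lemma Bj_all {j : ℕ} {g : ℕ → Z2} (hg : Per j g) (h : Bj j g) (i : ℕ) (s : ℕ → Z2) (hs : X i s)
    (l : ℕ) (hl : Per l (g + s)) : Phi l (g + s) = 0 := by
  by_cases hi : i < j
  · rw [← h.2 i hi s hs, ← Phi_mono hl (le_max_left l j),
      Phi_mono (hg.add (hs.1.mono hi)) (le_max_right l j)]
  · have hg' := hg.mono (not_lt.1 hi)
    rw [← Phi_mono hl (le_max_left l (i + 1)),
      Phi_mono ((hg'.mono (Nat.le_succ i)).add hs.1) (le_max_right l (i + 1))]
    simp only [Phi]
    rw [pr_rob (fun a _ => rob_per hg' a) hs, pr_self hg', Phi_mono hg (not_lt.1 hi), h.1]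

end Pool.Agent.H4.RMaj
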