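import Mathlib
import Pool.Agent.H4.RMaj
import Pool.Agent.H4.IpA

set_option autoImplicit false

namespace Pool.Agent.H4.IpB

open Finset

def enc {d : ℕ} (Q : ℕ) (f : Fin d → ℕ) : ℕ := ∑ i, f i * Q ^ (i : ℕ)

def dec (d Q m : ℕ) : Fin d → ℕ := fun i => m / Q ^ (i : ℕ) % Q

lemma dec_enc {d Q : ℕ} (f : Fin d → ℕ) (hf : ∀ i, f i < Q) :
    dec d Q (enc Q f) = f ∧ enc Q f < Q ^ d := by
  let g : Fin d → Fin Q := fun i => ⟨f i, hf i⟩
  have e : enc Q f = (finFunctionFinEquiv g : ℕ) := by rw [finFunctionFinEquiv_apply]; rfl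
  refine ⟨?_, e ▸ (finFunctionFinEquiv g).2⟩
  funext i
  have := finFunctionFinEquiv_symm_apply_val (finFunctionFinEquiv g) i
  rw [Equiv.symm_apply_apply] at this
  rw [e]
  exact this.symm

lemma enc_add {d : ℕ} (Q : ℕ) (f c : Fin d → ℕ) : enc Q f + enc Q c = enc Q (f + c) := by
  simp only [enc, Pi.add_apply, add_mul, sum_add_distrib]

def od {d : ℕ} (f : Fin d → ℕ) : Finset (Fin d) := univ.filter (fun i => f i % 2 = 1)

lemma od_flip {d k : ℕ} (f c : Fin d → ℕ) (T : Finset (Fin d)) (hT : T.card ≤ k)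
    (hc : ∀ i, i ∉ T → c i % 2 = 1) :
    d ≤ (od f).card + (od (f + c)).card + k ∧ (od f).card + (od (f + c)).card ≤ d + k := by
  have h1 : (univ : Finset (Fin d)) ⊆ od f ∪ od (f + c) ∪ T := by
    intro i _
    by_cases hi : i ∈ T
    · exact mem_union_right _ hi
    · have := hc i hi
      simp only [od, mem_union, mem_filter, mem_univ, true_and, Pi.add_apply]
      omega
  have h2 : od f ∩ od (f + c) ⊆ T := by
    intro i hi
    by_contra h
    have := hc i h
    simp only [od, mem_inter, mem_filter, mem_univ, true_and, Pi.add_apply] at hi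
    omega
  have h3 := card_le_card h1
  have h4 := card_le_card h2
  have h5 := card_union_le (od f ∪ od (f + c)) T
  have h6 := card_union_add_card_inter (od f) (od (f + c))
  have h7 : (od f ∪ od (f + c)).card ≤ d := by simpa using card_le_univ (od f ∪ od (f + c))
  rw [card_univ, Fintype.card_fin] at h3
  omega

lemma bad_count (n k Q' L : ℕ) (hL : L ≤ 2 * Q') :
    ((Fintype.piFinset fun _ : Fin (2 * n + 1) => range L).filter
      (fun f => ¬ ((od f).card + k ≤ n ∨ n + 1 + k ≤ (od f).card))).card ≤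
      (2 * k) * (2 * n + 1).choose n * Q' ^ (2 * n + 1) := by
  have h1 : ((Fintype.piFinset fun _ : Fin (2 * n + 1) => range L).filter
      (fun f => ¬ ((od f).card + k ≤ n ∨ n + 1 + k ≤ (od f).card))).card ≤
      (((Ico (n + 1 - k) (n + 1 + k)).biUnion
        (fun w => powersetCard w (univ : Finset (Fin (2 * n + 1))))) ×ˢ
        (Fintype.piFinset fun _ : Fin (2 * n + 1) => range Q')).card := by
    refine card_le_card_of_injOn (fun f => (od f, fun i => f i / 2)) ?_ ?_
    · intro f hf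
      simp only [coe_filter, Fintype.mem_piFinset, mem_range, Set.mem_ofPred_eq, not_or] at hf
      simp only [mem_coe, mem_product, mem_biUnion, mem_Ico, mem_powersetCard, Fintype.mem_piFinset,
        mem_range]
      refine ⟨⟨(od f).card, by omega, subset_univ _, rfl⟩, fun i => ?_⟩
      have := hf.1 i
      omega
    · intro f _ g _ h
      funext i
      have h1 : f i % 2 = 1 ↔ g i % 2 = 1 := by
        simpa [od] using Finset.ext_iff.1 (congrArg Prod.fst h) i
      have h2 : f i / 2 = g i / 2 := congrFun (congrArg Prod.snd h) i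
      omega
  have h2 := card_biUnion_le_card_mul (Ico (n + 1 - k) (n + 1 + k))
    (fun w => powersetCard w (univ : Finset (Fin (2 * n + 1)))) ((2 * n + 1).choose n)
    (fun w _ => by
      rw [card_powersetCard, card_univ, Fintype.card_fin]
      have := Nat.choose_le_middle w (2 * n + 1)
      rwa [show (2 * n + 1) / 2 = n by omega] at this)
  have h4 : (Ico (n + 1 - k) (n + 1 + k)).card ≤ 2 * k := by simp; omega
  have h5 := Nat.mul_le_mul_right ((2 * n + 1).choose n) h4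
  rw [card_product, Fintype.card_piFinset] at h1
  simp only [card_range, prod_const, card_univ, Fintype.card_fin] at h1
  exact h1.trans (Nat.mul_le_mul_right _ (h2.trans h5))

lemma block (k E : ℕ) (hE : 0 < E) : ∃ (P : ℕ) (β : ℕ → ZMod 2) (W : Finset ℕ),
    0 ∈ W ∧ β 0 = 0 ∧ (∀ w ∈ W, w + 2 < P ∧ β (w + 2) = β w) ∧
    (1 - 2 / (E : ℝ)) * P ≤ W.card ∧
    ∀ α : ℕ → ℝ, ∃ r : ℕ, (∀ w ∈ W, w + r < P ∧ β (w + r) = β w + 1) ∧
      ∀ j < k, ∃ z : ℤ, |(r : ℝ) * α j - z| ≤ 1 / (k + 1) := by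
  classical
  obtain ⟨n, hn⟩ : ∃ n : ℕ, n = (2 * k * E) ^ 2 + k := ⟨_, rfl⟩
  obtain ⟨C, hC2, hC⟩ := IpA.recur k (2 * n + 1) (by omega)
  obtain ⟨Q', hQ'⟩ : ∃ Q' : ℕ, Q' = (2 * n + 1) * C * E := ⟨_, rfl⟩
  have hQC : C ≤ Q' := by
    rw [hQ']
    calc C = 1 * C * 1 := by ring
      _ ≤ _ := Nat.mul_le_mul (Nat.mul_le_mul_right _ (by omega)) hE
  obtain ⟨L, hL⟩ : ∃ L : ℕ, L + C = 2 * Q' := ⟨2 * Q' - C, by omega⟩
  let W0 := (Fintype.piFinset fun _ : Fin (2 * n + 1) => range L).filter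
      (fun f => (od f).card + k ≤ n ∨ n + 1 + k ≤ (od f).card)
  let β : ℕ → ZMod 2 := fun m => if (od (dec (2 * n + 1) (2 * Q') m)).card ≤ n then 0 else 1
  have hW0 : ∀ f ∈ W0, (∀ i, f i < L) ∧ ((od f).card + k ≤ n ∨ n + 1 + k ≤ (od f).card) := by
    intro f hf
    simpa only [W0, mem_filter, Fintype.mem_piFinset, mem_range] using hf
  have hβ : ∀ f : Fin (2 * n + 1) → ℕ, (∀ i, f i < 2 * Q') →
      β (enc (2 * Q') f) = if (od f).card ≤ n then 0 else 1 := by
    intro f hf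
    simp only [β, (dec_enc f hf).1]
  have hlt : ∀ f ∈ W0, ∀ c : Fin (2 * n + 1) → ℕ, (∀ i, c i ≤ C) → ∀ i, (f + c) i < 2 * Q' := by
    intro f hf c hc i
    have := (hW0 f hf).1 i
    have := hc i
    simp only [Pi.add_apply]
    omega
  have hlt0 : ∀ f ∈ W0, ∀ i, f i < 2 * Q' := by
    intro f hf i
    have := (hW0 f hf).1 i
    omega
  have hz : enc (2 * Q') (0 : Fin (2 * n + 1) → ℕ) = 0 := by simp [enc]
  refine ⟨(2 * Q') ^ (2 * n + 1), β, W0.image (enc (2 * Q')), ?_, ?_, ?_, ?_, ?_⟩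
  · refine mem_image.2 ⟨0, ?_, hz⟩
    simp only [W0, mem_filter, Fintype.mem_piFinset, mem_range, Pi.zero_apply]
    refine ⟨fun _ => by omega, Or.inl ?_⟩
    have : (od (0 : Fin (2 * n + 1) → ℕ)).card = 0 := by simp [od]
    omega
  · rw [← hz, hβ 0 (fun _ => by simp only [Pi.zero_apply]; omega)]
    simp [od]
  · intro w hw
    obtain ⟨f, hf, rfl⟩ := mem_image.1 hw
    have e : (2 : ℕ) = enc (2 * Q') (Pi.single (0 : Fin (2 * n + 1)) 2) := by
      simp [enc, Pi.single_apply]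
    have hc : ∀ i, (Pi.single (0 : Fin (2 * n + 1)) 2 : Fin (2 * n + 1) → ℕ) i ≤ C := by
      intro i
      rw [Pi.single_apply]
      split_ifs <;> omega
    have e2 : enc (2 * Q') f + 2 = enc (2 * Q') (f + Pi.single (0 : Fin (2 * n + 1)) 2) := by
      rw [← enc_add, ← e]
    rw [e2]
    refine ⟨(dec_enc _ (hlt f hf _ hc)).2, ?_⟩
    rw [hβ _ (hlt f hf _ hc), hβ _ (hlt0 f hf)]
    have : od (f + Pi.single (0 : Fin (2 * n + 1)) 2) = od f := by
      ext i
      simp only [od, mem_filter, mem_univ, true_and, Pi.add_apply, Pi.single_apply]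
      split_ifs <;> omega
    rw [this]
  · rw [card_image_of_injOn (fun f hf g hg h => by
      rw [← (dec_enc f (hlt0 f hf)).1, ← (dec_enc g (hlt0 g hg)).1, h])]
    have h1 := card_filter_add_card_filter_not (s := Fintype.piFinset fun _ : Fin (2 * n + 1) => range L)
      (fun f => (od f).card + k ≤ n ∨ n + 1 + k ≤ (od f).card)
    rw [Fintype.card_piFinset] at h1
    simp only [card_range, prod_const, card_univ, Fintype.card_fin] at h1
    have h2 := bad_count n k Q' L (by omega)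
    have h3 := RMaj.mid (2 * k * E) n (by omega)
    have h4 : L ^ (2 * n + 1) * E ≤ W0.card * E + (2 * Q') ^ (2 * n + 1) := by
      have h5 := Nat.mul_le_mul_right (Q' ^ (2 * n + 1)) h3
      have h6 := Nat.mul_le_mul_right E h2
      rw [← h1, add_mul, mul_pow 2 Q']
      refine Nat.add_le_add_left (h6.trans (le_trans (le_of_eq ?_) h5)) _
      ring
    have hEr : (0 : ℝ) < E := by exact_mod_cast hE
    have hQr : (0 : ℝ) < Q' := by exact_mod_cast (by omega : 0 < Q')
    have hLr : (L : ℝ) = (2 * Q') * (1 + -(C / (2 * Q'))) := by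
      have : (L : ℝ) + C = 2 * Q' := by exact_mod_cast hL
      field_simp
      linarith
    have hCQ : (C : ℝ) / (2 * Q') ≤ 1 := by
      rw [div_le_one (by positivity)]
      have : (C : ℝ) ≤ Q' := by exact_mod_cast hQC
      linarith
    have h7 := one_add_mul_le_pow (a := -((C : ℝ) / (2 * Q'))) (by linarith) (2 * n + 1)
    have h8 : ((2 * n + 1 : ℕ) : ℝ) * -((C : ℝ) / (2 * Q')) = -(1 / (2 * E)) := by
      have hCr : (0 : ℝ) < C := by exact_mod_cast (by omega : 0 < C)
      rw [hQ']; push_cast; field_simp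
    rw [h8] at h7
    have h9 : (L : ℝ) ^ (2 * n + 1) * E ≤ W0.card * E + (2 * Q') ^ (2 * n + 1) := by exact_mod_cast h4
    rw [hLr, mul_pow] at h9
    push_cast
    obtain ⟨X, hX⟩ : ∃ X : ℝ, X = (2 * (Q' : ℝ)) ^ (2 * n + 1) := ⟨_, rfl⟩
    have hX0 : 0 < X := by rw [hX]; positivity
    rw [← hX] at h9 ⊢
    have h10 : X * (1 + -(1 / (2 * E))) * E ≤ W0.card * E + X :=
      le_trans (mul_le_mul_of_nonneg_right (mul_le_mul_of_nonneg_left h7 hX0.le) hEr.le) h9
    have h11 : X * (1 + -(1 / (2 * E))) * E = X * E - X / 2 := by field_simp; ring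
    have h12 : (1 - 2 / (E : ℝ)) * X * E = X * E - 2 * X := by field_simp
    refine le_of_mul_le_mul_right ?_ hEr
    rw [h12]
    linarith
  · intro α
    obtain ⟨c, hc, ⟨T, hT, hodd⟩, hz⟩ := hC (fun j i => ((2 * Q') ^ (i : ℕ) : ℕ) * α j)
    refine ⟨enc (2 * Q') c, fun w hw => ?_, fun j hj => ?_⟩
    · obtain ⟨f, hf, rfl⟩ := mem_image.1 hw
      rw [enc_add]
      refine ⟨(dec_enc _ (hlt f hf _ hc)).2, ?_⟩
      rw [hβ _ (hlt f hf _ hc), hβ _ (hlt0 f hf)]
      obtain ⟨h1, h2⟩ := od_flip f c T hT hodd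
      rcases (hW0 f hf).2 with h | h
      · rw [if_neg (by omega), if_pos (by omega)]; decide
      · rw [if_pos (by omega), if_neg (by omega)]; decide
    · obtain ⟨z, hz⟩ := hz j hj
      refine ⟨z, ?_⟩
      have : ((enc (2 * Q') c : ℕ) : ℝ) * α j = ∑ i, (c i : ℝ) * ((((2 * Q') ^ (i : ℕ) : ℕ) : ℝ) * α j) := by
        rw [enc, Nat.cast_sum, sum_mul]
        exact sum_congr rfl fun i _ => by rw [Nat.cast_mul]; ring
      rw [this]
      exact hz

end Pool.Agent.H4.IpB
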