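import Mathlib
import Pool.Agent.H4.IpB

set_option autoImplicit false

namespace Pool.Agent.H4.IpC

open Finset

def Y (P : ℕ → ℕ) : ℕ → ℕ
  | 0 => 1
  | K + 1 => Y P K * P K

def G (P : ℕ → ℕ) (W : ℕ → Finset ℕ) : ℕ → Finset ℕ
  | 0 => {0}
  | K + 1 => (G P W K ×ˢ W K).image (fun p => p.1 + Y P K * p.2)

def B (P : ℕ → ℕ) (β : ℕ → ℕ → ZMod 2) : ℕ → ℕ → ZMod 2
  | 0 => fun _ => 0
  | K + 1 => fun m => B P β K (m % Y P K) + β K (m / Y P K)

variable {P : ℕ → ℕ} {W : ℕ → Finset ℕ} {β : ℕ → ℕ → ZMod 2}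

lemma B_succ (K a w : ℕ) (ha : a < Y P K) : B P β (K + 1) (a + Y P K * w) = B P β K a + β K w := by
  have h0 : 0 < Y P K := by omega
  simp only [B]
  rw [Nat.add_mul_mod_self_left, Nat.mod_eq_of_lt ha, Nat.add_mul_div_left _ _ h0,
    Nat.div_eq_of_lt ha, zero_add]

lemma shift (u : ℕ → ℕ) (e : ℕ → ZMod 2)
    (h : ∀ k, ∀ w ∈ W k, w + u k < P k ∧ β k (w + u k) = β k w + e k) (K : ℕ) :
    ∀ a ∈ G P W K, a + ∑ k ∈ range K, Y P k * u k < Y P K ∧
      B P β K (a + ∑ k ∈ range K, Y P k * u k) = B P β K a + ∑ k ∈ range K, e k := by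
  induction K with
  | zero => intro a ha; simp only [G, mem_singleton] at ha; subst ha; simp [Y, B]
  | succ K ih =>
    intro a' ha'
    obtain ⟨⟨a, w⟩, hp, rfl⟩ := mem_image.1 ha'
    obtain ⟨ha, hw⟩ := mem_product.1 hp
    obtain ⟨h1, h2⟩ := ih a ha
    obtain ⟨h3, h4⟩ := h K w hw
    simp only at ha hw h1 h2 h3 h4 ⊢
    have e1 : a + Y P K * w + ∑ k ∈ range (K + 1), Y P k * u k =
        (a + ∑ k ∈ range K, Y P k * u k) + Y P K * (w + u K) := by
      rw [sum_range_succ]; ring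
    rw [e1]
    constructor
    · have := Nat.mul_le_mul_left (Y P K) (Nat.succ_le_of_lt h3)
      simp only [Y]
      rw [Nat.succ_eq_add_one, mul_add _ _ 1] at this
      omega
    · rw [B_succ K _ _ h1, B_succ K a w (by omega), h2, h4, sum_range_succ]; ring

lemma G_lt (h : ∀ k, ∀ w ∈ W k, w < P k) (K : ℕ) : ∀ a ∈ G P W K, a < Y P K := by
  intro a ha
  have := (shift (β := fun _ _ => 0) (fun _ => 0) (fun _ => 0)
    (fun k w hw => ⟨h k w hw, by simp⟩) K a ha).1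
  simpa using this

lemma lift (h : ∀ k, ∀ w ∈ W k, w < P k) (h0 : ∀ k, 0 ∈ W k) (hβ : ∀ k, β k 0 = 0) {K K' : ℕ}
    (hK : K ≤ K') {a : ℕ} (ha : a ∈ G P W K) : a ∈ G P W K' ∧ B P β K' a = B P β K a := by
  induction hK with
  | refl => exact ⟨ha, rfl⟩
  | @step m _ ih =>
    constructor
    · exact mem_image.2 ⟨(a, 0), mem_product.2 ⟨ih.1, h0 m⟩, by simp⟩
    · have := B_succ (β := β) m a 0 (G_lt h m a ih.1)
      rw [mul_zero, add_zero, hβ, add_zero] at this
      rw [← ih.2]; exact this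

lemma card_G (h : ∀ k, ∀ w ∈ W k, w < P k)
    (hc : ∀ k, (1 - 2 / ((2 ^ (k + 3) : ℕ) : ℝ)) * P k ≤ (W k).card) (K : ℕ) :
    (1 / 2 + 1 / 2 ^ (K + 1) : ℝ) * Y P K ≤ (G P W K).card := by
  induction K with
  | zero => simp [Y, G]; norm_num
  | succ K ih =>
    have e : (G P W (K + 1)).card = (G P W K).card * (W K).card := by
      simp only [G]
      rw [card_image_of_injOn, card_product]
      rintro ⟨a, w⟩ hp ⟨a', w'⟩ hp' hh
      have ha := G_lt h K a (mem_product.1 (mem_coe.1 hp)).1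
      have ha' := G_lt h K a' (mem_product.1 (mem_coe.1 hp')).1
      simp only at hh
      have h1 := congrArg (· % Y P K) hh
      have h2 := congrArg (· / Y P K) hh
      simp only [Nat.add_mul_mod_self_left, Nat.mod_eq_of_lt ha, Nat.mod_eq_of_lt ha'] at h1
      simp only [Nat.add_mul_div_left _ _ (show 0 < Y P K by omega), Nat.div_eq_of_lt ha,
        Nat.div_eq_of_lt ha', zero_add] at h2
      rw [h1, h2]
    rw [e]
    simp only [Y]
    push_cast
    have h1 := hc K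
    push_cast at h1
    obtain ⟨t, ht⟩ : ∃ t : ℝ, t = 1 / 2 ^ (K + 1 + 1) := ⟨_, rfl⟩
    have t0 : 0 < t := by rw [ht]; positivity
    have t1 : t ≤ 1 / 4 := by
      rw [ht]
      refine one_div_le_one_div_of_le (by norm_num) ?_
      rw [pow_succ, pow_succ]
      have : (1 : ℝ) ≤ 2 ^ K := one_le_pow₀ (by norm_num)
      linarith
    have e1 : (1 : ℝ) / 2 ^ (K + 1) = 2 * t := by rw [ht]; field_simp; ring
    have e2 : (2 : ℝ) / 2 ^ (K + 3) = t := by rw [ht]; field_simp; ring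
    rw [e1] at ih
    rw [e2] at h1
    rw [← ht]
    have hY : (0 : ℝ) ≤ Y P K := Nat.cast_nonneg _
    have hP : (0 : ℝ) ≤ P K := Nat.cast_nonneg _
    have h3 := mul_le_mul ih h1 (mul_nonneg (by linarith) hP) (Nat.cast_nonneg _)
    refine le_trans ?_ h3
    have h4 : (1 / 2 + t) ≤ (1 / 2 + 2 * t) * (1 - t) := by nlinarith
    calc (1 / 2 + t) * ((Y P K : ℝ) * P K) ≤ ((1 / 2 + 2 * t) * (1 - t)) * ((Y P K : ℝ) * P K) :=
          mul_le_mul_of_nonneg_right h4 (mul_nonneg hY hP)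
      _ = _ := by ring

lemma Y_ge (h : ∀ k, 2 ≤ P k) (K : ℕ) : K + 1 ≤ Y P K := by
  induction K with
  | zero => simp [Y]
  | succ K ih =>
    have := Nat.mul_le_mul_left (Y P K) (h K)
    simp only [Y]
    omega

theorem main : ∃ (x : ℕ → ℕ) (A : Set ℕ), (∀ n, 1 ≤ x n) ∧
    (∀ K : ℕ, ∃ N, K ≤ N ∧ ∃ S : Finset ℕ, (∀ a ∈ S, a ∈ A ∧ a < N) ∧ (N : ℝ) / 4 ≤ S.card) ∧
    ∀ (k : ℕ) (α : ℕ → ℝ), ∃ r : ℕ, (∀ j < k, ∃ z : ℤ, |(r : ℝ) * α j - z| ≤ 1 / (k + 1)) ∧
      ∀ a ∈ A, ∀ a' ∈ A, ∀ F : Finset ℕ, a + ∑ n ∈ F, x n ≠ a' + r := by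
  classical
  choose P β W h0 hβ h2 hc hr using fun k => IpB.block k (2 ^ (k + 3)) (by positivity)
  have hlt : ∀ k, ∀ w ∈ W k, w < P k := fun k w hw => by have := (h2 k w hw).1; omega
  have hP : ∀ k, 2 ≤ P k := fun k => by have := (h2 k 0 (h0 k)).1; omega
  have hb : ∃ b : ZMod 2, ∀ K0 : ℕ, ∃ K, K0 ≤ K ∧
      (Y P K : ℝ) / 4 ≤ ((G P W K).filter (fun a => B P β K a = b)).card := by
    by_contra hn
    push Not at hn
    obtain ⟨K0, hK0⟩ := hn 0
    obtain ⟨K1, hK1⟩ := hn 1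
    have a0 := hK0 (K0 + K1) (by omega)
    have a1 := hK1 (K0 + K1) (by omega)
    have a2 := card_G hlt hc (K0 + K1)
    have a3 : (G P W (K0 + K1)).card ≤ ((G P W (K0 + K1)).filter (fun a => B P β (K0 + K1) a = 0)).card +
        ((G P W (K0 + K1)).filter (fun a => B P β (K0 + K1) a = 1)).card := by
      refine le_trans (card_le_card fun a ha => ?_) (card_union_le _ _)
      rw [mem_union, mem_filter, mem_filter]
      rcases RMaj.z2 (B P β (K0 + K1) a) with h | h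
      · exact Or.inl ⟨ha, h⟩
      · exact Or.inr ⟨ha, h⟩
    have a4 : ((G P W (K0 + K1)).card : ℝ) ≤
        ((G P W (K0 + K1)).filter (fun a => B P β (K0 + K1) a = 0)).card +
        ((G P W (K0 + K1)).filter (fun a => B P β (K0 + K1) a = 1)).card := by exact_mod_cast a3
    have a5 : (0 : ℝ) ≤ (1 / 2 ^ (K0 + K1 + 1) : ℝ) * Y P (K0 + K1) := by positivity
    nlinarith
  obtain ⟨b, hb⟩ := hb
  refine ⟨fun n => Y P n * 2, {a | ∃ K, a ∈ G P W K ∧ B P β K a = b}, fun n => ?_, fun K0 => ?_,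
    fun k α => ?_⟩
  · have := Y_ge hP n
    show 1 ≤ Y P n * 2
    omega
  · obtain ⟨K, hK, h⟩ := hb K0
    refine ⟨Y P K, by have := Y_ge hP K; omega, _, fun a ha => ?_, h⟩
    rw [mem_filter] at ha
    exact ⟨⟨K, ha⟩, G_lt hlt K a ha.1⟩
  · obtain ⟨r, hr1, hr2⟩ := hr k (fun j => Y P k * α j)
    refine ⟨Y P k * r, fun j hj => ?_, ?_⟩
    · obtain ⟨z, hz⟩ := hr2 j hj
      refine ⟨z, ?_⟩
      rw [show ((Y P k * r : ℕ) : ℝ) * α j = r * (Y P k * α j) by push_cast; ring]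
      exact hz
    · rintro a ⟨K, ha, hab⟩ a' ⟨K', ha', hab'⟩ F hF
      obtain ⟨N, hN⟩ : ∃ N, F ⊆ range N := F.exists_nat_subset_range
      obtain ⟨l1, l2⟩ := lift hlt h0 hβ (show K ≤ K + K' + N + k + 1 by omega) ha
      obtain ⟨l3, l4⟩ := lift hlt h0 hβ (show K' ≤ K + K' + N + k + 1 by omega) ha'
      have s1 := (shift (β := β) (fun n => if n ∈ F then 2 else 0) (fun _ => 0) (fun n w hw => by
        split_ifs
        · simpa using h2 n w hw
        · simpa using hlt n w hw) _ a l1).2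
      have s2 := (shift (β := β) (fun n => if n = k then r else 0) (fun n => if n = k then 1 else 0)
        (fun n w hw => by
          split_ifs with h
          · subst h; exact hr1 w hw
          · simpa using hlt n w hw) _ a' l3).2
      have e1 : ∑ n ∈ range (K + K' + N + k + 1), Y P n * (if n ∈ F then 2 else 0) = ∑ n ∈ F, Y P n * 2 := by
        simp only [mul_ite, mul_zero]
        rw [← sum_filter, filter_mem_eq_inter, inter_eq_right.2]
        exact hN.trans (range_subset_range.2 (by omega))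
      have e2 : ∑ n ∈ range (K + K' + N + k + 1), Y P n * (if n = k then r else 0) = Y P k * r := by
        simp only [mul_ite, mul_zero]
        rw [sum_ite_eq', if_pos (mem_range.2 (by omega))]
      rw [e1, hF, l2, hab] at s1
      rw [e2, s1, l4, hab', sum_ite_eq', if_pos (mem_range.2 (by omega))] at s2
      simp at s2

end Pool.Agent.H4.IpC
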