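import Mathlib

namespace Pool.Agent.H4.Keyw

open Finset

/-- Moebius-type counting lemma. -/
theorem moeb {X P : Type} [Fintype X] [DecidableEq P] (r r' : X → P) (le : P → P → Prop)
    [DecidableRel le] (ν : P → ℕ) (B : ℕ) (T : P → Prop) (hr : ∀ x, T (r x)) (hr' : ∀ x, T (r' x))
    (hrefl : ∀ p, le p p) (hB : ∀ p, T p → ν p ≤ B)
    (hlt : ∀ p q, T p → T q → le p q → p ≠ q → ν p < ν q)
    (hat : ∀ p, T p → #{x | le p (r x)} = #{x | le p (r' x)}) :
    ∀ p, T p → #{x | r x = p} = #{x | r' x = p} := by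
  classical
  have key : ∀ k, ∀ p, T p → B - ν p = k → #{x | r x = p} = #{x | r' x = p} := by
    intro k
    induction k using Nat.strong_induction_on with
    | _ k ih =>
      intro p hp hk
      set U : Finset P := (image r univ ∪ image r' univ).filter (fun q => le p q ∧ q ≠ p) with hU
      have split : ∀ s : X → P, (∀ x, s x ∈ image r univ ∪ image r' univ) →
          #{x | le p (s x)} = #{x | s x = p} + ∑ q ∈ U, #{x | s x = q} := by
        intro s hs
        have h1 : #{x | le p (s x) ∧ s x ≠ p} = ∑ q ∈ U, #{x | s x = q} := by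
          rw [card_eq_sum_card_fiberwise (f := s) (t := U)]
          · refine sum_congr rfl fun q hq => ?_
            congr 1
            ext x
            simp only [hU, mem_filter] at hq
            simp only [mem_filter, mem_univ, true_and]
            constructor
            · exact fun h => h.2
            · rintro rfl; exact ⟨hq.2, rfl⟩
          · intro x hx
            simp only [coe_filter, mem_univ, true_and, Set.mem_ofPred_eq] at hx
            simp only [hU, coe_filter, Set.mem_ofPred_eq]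
            exact ⟨hs x, hx⟩
        rw [← h1, ← card_union_of_disjoint]
        · congr 1
          ext x
          simp only [mem_filter, mem_univ, true_and, mem_union]
          constructor
          · intro h
            by_cases e : s x = p
            · exact Or.inl e
            · exact Or.inr ⟨h, e⟩
          · rintro (h | h)
            · rw [h]; exact hrefl p
            · exact h.1
        · rw [disjoint_left]
          intro x h1 h2
          simp only [mem_filter, mem_univ, true_and] at h1 h2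
          exact h2.2 h1
      have e1 := split r (fun x => mem_union_left _ (mem_image_of_mem _ (mem_univ x)))
      have e2 := split r' (fun x => mem_union_right _ (mem_image_of_mem _ (mem_univ x)))
      have e3 : ∑ q ∈ U, #{x | r x = q} = ∑ q ∈ U, #{x | r' x = q} := by
        refine sum_congr rfl fun q hq => ?_
        simp only [hU, mem_filter, mem_union, mem_image, mem_univ, true_and] at hq
        have hq' : T q := by
          rcases hq.1 with ⟨x, rfl⟩ | ⟨x, rfl⟩
          · exact hr x
          · exact hr' x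
        have := hlt p q hp hq' hq.2.1 (Ne.symm hq.2.2)
        have := hB q hq'
        exact ih (B - ν q) (by omega) q hq' rfl
      have := hat p hp
      omega
  exact fun p hp => key _ p hp rfl

/-- rank of an element of a finite set with respect to an injective key. -/
theorem rank_lt {X : Type} (A : Finset X) (key : X → ℕ) (x : X) (hx : x ∈ A) :
    #{z ∈ A | key z < key x} < #A := by
  apply card_lt_card
  refine ⟨filter_subset _ _, fun h => ?_⟩
  have := h hx
  simp at this

theorem rank_inj {X : Type} (A : Finset X) (key : X → ℕ) (hk : ∀ x ∈ A, ∀ y ∈ A, key x = key y → x = y)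
    (x y : X) (hx : x ∈ A) (hy : y ∈ A)
    (h : #{z ∈ A | key z < key x} = #{z ∈ A | key z < key y}) : x = y := by
  have aux : ∀ x y : X, x ∈ A → key x < key y →
      #{z ∈ A | key z < key x} < #{z ∈ A | key z < key y} := by
    intro x y hx hxy
    apply card_lt_card
    refine ⟨fun z hz => ?_, fun h => ?_⟩
    · simp only [mem_filter] at hz ⊢
      exact ⟨hz.1, hz.2.trans hxy⟩
    · have := h (mem_filter.2 ⟨hx, hxy⟩)
      simp at this
  rcases lt_trichotomy (key x) (key y) with h1 | h1 | h1
  · have := aux x y hx h1; omega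
  · exact hk x hx y hy h1
  · have := aux y x hy h1; omega

theorem rank_surj {X : Type} (A : Finset X) (key : X → ℕ)
    (hk : ∀ x ∈ A, ∀ y ∈ A, key x = key y → x = y) (k : ℕ) (hkA : k < #A) :
    ∃ y ∈ A, #{z ∈ A | key z < key y} = k := by
  classical
  have := surj_on_of_inj_on_of_card_le (s := A) (t := range #A)
    (fun y _ => #{z ∈ A | key z < key y}) (fun y hy => mem_range.2 (rank_lt A key y hy))
    (fun x y hx hy h => rank_inj A key hk x y hx hy h) (by simp) k (mem_range.2 hkA)
  obtain ⟨y, hy, e⟩ := this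
  exact ⟨y, hy, e.symm⟩

variable {n : ℕ}

/-- letters, with a default value outside the word. -/
def g (x : Fin n → Bool) (k : ℕ) : Bool := if h : k < n then x ⟨k, h⟩ else false

theorem g_val (x : Fin n → Bool) (p : Fin n) : g x p.1 = x p := by simp [g]

theorem g_ext {x y : Fin n → Bool} (h : ∀ k, k < n → g x k = g y k) : x = y := by
  funext p
  rw [← g_val x, ← g_val y]; exact h _ p.2

/-- occurrence of `1 c 0 0` after position `j`. -/
def Occ (c : Bool) (x : Fin n → Bool) (j : ℕ) : Prop :=
  j + 5 ≤ n ∧ g x (j + 1) = true ∧ g x (j + 2) = c ∧ g x (j + 3) = false ∧ g x (j + 4) = false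

def mv (j : ℕ) (x : Fin n → Bool) : Fin n → Bool :=
  fun p => if p.1 = j ∨ p.1 = j + 5 then !x p else x p

theorem g_mv_ne (j : ℕ) (x : Fin n → Bool) (k : ℕ) (h1 : k ≠ j) (h2 : k ≠ j + 5) :
    g (mv j x) k = g x k := by
  unfold g mv
  split_ifs with h h' <;> simp_all

theorem mv_mv (j : ℕ) (x : Fin n → Bool) : mv j (mv j x) = x := by
  funext p
  unfold mv
  split_ifs <;> simp

theorem occ_mv {c : Bool} {x : Fin n → Bool} {j : ℕ} (h : Occ c x j) : Occ c (mv j x) j := by
  obtain ⟨h0, h1, h2, h3, h4⟩ := h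
  refine ⟨h0, ?_, ?_, ?_, ?_⟩ <;> rw [g_mv_ne _ _ _ (by omega) (by omega)] <;> assumption

/-- boundary conditions of a set of sites. -/
def Bd (x : Fin n → Bool) (S : Finset ℕ) : Prop :=
  ∀ j ∈ S, j + 5 ≤ n ∧ (g x (j + 1) = true ∨ ∃ k ∈ S, k + 4 = j ∧ g x j = false) ∧
    (g x (j + 4) = false ∨ (j + 4 ∈ S ∧ g x (j + 5) = true))

def Inn (c : Bool) (x : Fin n → Bool) (S : Finset ℕ) : Prop :=
  ∀ j ∈ S, g x (j + 2) = c ∧ g x (j + 3) = false

def Sep (S : Finset ℕ) : Prop := ∀ j ∈ S, ∀ k ∈ S, j < k → j + 4 ≤ k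

theorem sep_of {c : Bool} {x : Fin n → Bool} {S : Finset ℕ} (hb : Bd x S) (hi : Inn c x S) :
    Sep S := by
  intro j
  induction j using Nat.strong_induction_on with
  | _ j ih =>
    intro hj k hk hjk
    by_contra hlt
    obtain ⟨-, fj, lj⟩ := hb j hj
    obtain ⟨-, fk, -⟩ := hb k hk
    obtain ⟨ij2, ij3⟩ := hi j hj
    obtain ⟨ik2, ik3⟩ := hi k hk
    have down : g x (k + 1) = false → False := by
      intro h
      rcases fk with h' | ⟨i, hi', e, -⟩
      · rw [h] at h'; cases h'
      · have := ih i (by omega) hi' j hj (by omega)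
        omega
    have hk3 : k = j + 1 ∨ k = j + 2 ∨ k = j + 3 := by omega
    rcases hk3 with rfl | rfl | rfl
    · cases c
      · exact down ij2
      · rw [show j + 1 + 2 = j + 3 by omega, ij3] at ik2; cases ik2
    · exact down ij3
    · rcases lj with h | ⟨h1, h2⟩
      · exact down h
      · cases c
        · rw [show j + 3 + 2 = j + 5 by omega, h2] at ik2; cases ik2
        · have := (hi _ h1).1
          rw [show j + 4 + 2 = j + 3 + 3 by omega, ik3] at this; cases this

open Classical in
/-- the set of sites: the largest self-supported set. -/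
noncomputable def Sites (c : Bool) (x : Fin n → Bool) : Finset ℕ :=
  (range n).filter (fun j => ∃ S : Finset ℕ, Bd x S ∧ Inn c x S ∧ j ∈ S)

theorem sub_sites {c : Bool} {x : Fin n → Bool} {S : Finset ℕ} (hb : Bd x S) (hi : Inn c x S) :
    S ⊆ Sites c x := by
  intro j hj
  simp only [Sites, mem_filter, mem_range]
  exact ⟨by have := (hb j hj).1; omega, S, hb, hi, hj⟩

theorem sites_bd (c : Bool) (x : Fin n → Bool) : Bd x (Sites c x) := by
  intro j hj
  simp only [Sites, mem_filter, mem_range] at hj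
  obtain ⟨-, S, hb, hi, hj⟩ := hj
  obtain ⟨h0, h1, h2⟩ := hb j hj
  refine ⟨h0, ?_, ?_⟩
  · rcases h1 with h | ⟨k, hk, e⟩
    · exact Or.inl h
    · exact Or.inr ⟨k, sub_sites hb hi hk, e⟩
  · rcases h2 with h | ⟨hk, e⟩
    · exact Or.inl h
    · exact Or.inr ⟨sub_sites hb hi hk, e⟩

theorem sites_inn (c : Bool) (x : Fin n → Bool) : Inn c x (Sites c x) := by
  intro j hj
  simp only [Sites, mem_filter, mem_range] at hj
  obtain ⟨-, S, hb, hi, hj⟩ := hj
  exact hi j hj

theorem sites_sep (c : Bool) (x : Fin n → Bool) : Sep (Sites c x) :=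
  sep_of (sites_bd c x) (sites_inn c x)

theorem occ_mem {c : Bool} {x : Fin n → Bool} {j : ℕ} (h : Occ c x j) : j ∈ Sites c x := by
  obtain ⟨h0, h1, h2, h3, h4⟩ := h
  refine sub_sites (S := {j}) ?_ ?_ (mem_singleton_self j)
  · intro k hk
    rw [mem_singleton.1 hk]
    exact ⟨h0, Or.inl h1, Or.inl h4⟩
  · intro k hk
    rw [mem_singleton.1 hk]
    exact ⟨h2, h3⟩

theorem sep_cases {S : Finset ℕ} (h : Sep S) {j k : ℕ} (hj : j ∈ S) (hk : k ∈ S) :
    j = k ∨ j + 4 ≤ k ∨ k + 4 ≤ j := by
  rcases lt_trichotomy j k with h1 | h1 | h1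
  · exact Or.inr (Or.inl (h j hj k hk h1))
  · exact Or.inl h1
  · exact Or.inr (Or.inr (h k hk j hj h1))

theorem sites_mv_sub {c : Bool} {x : Fin n → Bool} {j : ℕ} (h : Occ c x j) :
    Sites c x ⊆ Sites c (mv j x) := by
  have hj := occ_mem h
  have hs := sites_sep c x
  obtain ⟨h0, h1, h2, h3, h4⟩ := h
  apply sub_sites
  · intro k hk
    obtain ⟨b0, b1, b2⟩ := sites_bd c x k hk
    have hc := sep_cases hs hj hk
    refine ⟨b0, ?_, ?_⟩
    · by_cases e : k = j + 4
      · refine Or.inr ⟨j, hj, e.symm, ?_⟩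
        rw [e, g_mv_ne _ _ _ (by omega) (by omega)]; exact h4
      · by_cases e' : g x (k + 1) = true
        · left; rw [g_mv_ne _ _ _ (by omega) (by omega)]; exact e'
        · obtain ⟨i, hi, ei, ei'⟩ := b1.resolve_left e'
          have hc' := sep_cases hs hj hi
          have : k ≠ j := by rintro rfl; exact e' h1
          refine Or.inr ⟨i, hi, ei, ?_⟩
          rw [g_mv_ne _ _ _ this (by omega)]; exact ei'
    · by_cases e : k + 4 = j
      · refine Or.inr ⟨by rw [e]; exact hj, ?_⟩
        rw [show k + 5 = j + 1 by omega, g_mv_ne _ _ _ (by omega) (by omega)]; exact h1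
      · by_cases e' : g x (k + 4) = false
        · left; rw [g_mv_ne _ _ _ (by omega) (by omega)]; exact e'
        · obtain ⟨hi, ei'⟩ := b2.resolve_left e'
          have hc' := sep_cases hs hj hi
          have : k ≠ j := by rintro rfl; exact e' h4
          refine Or.inr ⟨hi, ?_⟩
          rw [g_mv_ne _ _ _ (by omega) (by omega)]; exact ei'
  · intro k hk
    obtain ⟨b0, b1⟩ := sites_inn c x k hk
    have hc := sep_cases hs hj hk
    constructor
    · rw [g_mv_ne _ _ _ (by omega) (by omega)]; exact b0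
    · rw [g_mv_ne _ _ _ (by omega) (by omega)]; exact b1

theorem sites_mv {c : Bool} {x : Fin n → Bool} {j : ℕ} (h : Occ c x j) :
    Sites c (mv j x) = Sites c x := by
  refine Subset.antisymm ?_ (sites_mv_sub h)
  have := sites_mv_sub (occ_mv h)
  rwa [mv_mv] at this

/-- boundary letters of a set of sites. -/
def Cov (S : Finset ℕ) (p : ℕ) : Prop := ∃ j ∈ S, p = j ∨ p = j + 1 ∨ p = j + 4 ∨ p = j + 5

instance (S : Finset ℕ) (p : ℕ) : Decidable (Cov S p) := by unfold Cov; infer_instance

def res (S : Finset ℕ) (x : Fin n → Bool) : Fin n → Bool := fun p => if Cov S p.1 then x p else false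

def off (S : Finset ℕ) (x : Fin n → Bool) : Fin n → Bool := fun p => if Cov S p.1 then false else x p

theorem g_of_res {S : Finset ℕ} {x y : Fin n → Bool} (h : res S x = res S y) {k : ℕ}
    (hk : Cov S k) : g x k = g y k := by
  unfold g
  split_ifs with h'
  · have := congrFun h ⟨k, h'⟩
    simpa [res, hk] using this
  · rfl

theorem res_res (S : Finset ℕ) (x : Fin n → Bool) : res S (res S x) = res S x := by
  funext p; unfold res; split_ifs <;> rfl

theorem bd_of_res {S : Finset ℕ} {x y : Fin n → Bool} (h : res S x = res S y) (hb : Bd x S) :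
    Bd y S := by
  intro j hj
  obtain ⟨b0, b1, b2⟩ := hb j hj
  rw [g_of_res h (k := j + 1) ⟨j, hj, by omega⟩, g_of_res h (k := j) ⟨j, hj, by omega⟩] at b1
  rw [g_of_res h (k := j + 4) ⟨j, hj, by omega⟩, g_of_res h (k := j + 5) ⟨j, hj, by omega⟩] at b2
  exact ⟨b0, b1, b2⟩

theorem res_mono {S S' : Finset ℕ} (h : S ⊆ S') (x : Fin n → Bool) :
    res S (res S' x) = res S x := by
  funext p
  unfold res
  split_ifs with h1 h2
  · rfl
  · exact absurd (h1.imp fun j hj => ⟨h hj.1, hj.2⟩) h2
  · rfl

noncomputable def sk (c : Bool) (x : Fin n → Bool) : Finset ℕ × (Fin n → Bool) :=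
  (Sites c x, res (Sites c x) x)

def Val (p : Finset ℕ × (Fin n → Bool)) : Prop := Sep p.1 ∧ Bd p.2 p.1 ∧ res p.1 p.2 = p.2

def Le (p q : Finset ℕ × (Fin n → Bool)) : Prop := p.1 ⊆ q.1 ∧ res p.1 q.2 = res p.1 p.2

theorem val_sk (c : Bool) (x : Fin n → Bool) : Val (sk c x) :=
  ⟨sites_sep c x, bd_of_res (res_res _ _).symm (sites_bd c x), res_res _ _⟩

theorem le_sk {c : Bool} {x : Fin n → Bool} {p : Finset ℕ × (Fin n → Bool)} (hp : Val p) :
    Le p (sk c x) ↔ Inn c x p.1 ∧ res p.1 x = res p.1 p.2 := by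
  constructor
  · rintro ⟨h1, h2⟩
    refine ⟨fun j hj => sites_inn c x j (h1 hj), ?_⟩
    rw [← h2]; exact (res_mono h1 x).symm
  · rintro ⟨h1, h2⟩
    have hs : p.1 ⊆ Sites c x := sub_sites (bd_of_res h2.symm hp.2.1) h1
    exact ⟨hs, by rw [← h2]; exact res_mono hs x⟩

def tau (S : Finset ℕ) (x : Fin n → Bool) : Fin n → Bool :=
  fun p => if ∃ j ∈ S, p.1 = j + 2 then !x p else x p

theorem tau_tau (S : Finset ℕ) (x : Fin n → Bool) : tau S (tau S x) = x := by
  funext p; unfold tau; split_ifs <;> simp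

theorem tau_ok {c : Bool} {x : Fin n → Bool} {p : Finset ℕ × (Fin n → Bool)} (hp : Val p)
    (h : Inn c x p.1 ∧ res p.1 x = res p.1 p.2) :
    Inn (!c) (tau p.1 x) p.1 ∧ res p.1 (tau p.1 x) = res p.1 p.2 := by
  obtain ⟨h1, h2⟩ := h
  constructor
  · intro j hj
    have b0 := (hp.2.1 j hj).1
    obtain ⟨i2, i3⟩ := h1 j hj
    constructor
    · have hl : j + 2 < n := by omega
      simp only [g, hl, dite_true] at i2 ⊢
      simp only [tau]
      rw [if_pos ⟨j, hj, rfl⟩, i2]
    · have hl : j + 3 < n := by omega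
      simp only [g, hl, dite_true] at i3 ⊢
      simp only [tau]
      rw [if_neg, i3]
      rintro ⟨k, hk, e⟩
      have := sep_cases hp.1 hj hk
      omega
  · rw [← h2]
    funext q
    unfold res
    split_ifs with hq
    · obtain ⟨j, hj, e⟩ := hq
      simp only [tau]
      rw [if_neg]
      rintro ⟨k, hk, e'⟩
      have := sep_cases hp.1 hj hk
      omega
    · rfl

open Classical in
theorem fib_card (c : Bool) (p : Finset ℕ × (Fin n → Bool)) (hp : Val p) :
    #{x : Fin n → Bool | sk c x = p} = #{x : Fin n → Bool | sk (!c) x = p} := by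
  refine moeb (sk c) (sk (!c)) Le (fun p => #p.1) n Val (val_sk c) (val_sk _)
    (fun p => ⟨Subset.refl _, rfl⟩) ?_ ?_ ?_ p hp
  · intro p hp
    have : p.1 ⊆ range n := fun j hj => mem_range.2 (by have := (hp.2.1 j hj).1; omega)
    simpa using card_le_card this
  · intro p q hp hq hle hne
    apply card_lt_card
    refine ⟨hle.1, fun h => hne ?_⟩
    have e : p.1 = q.1 := Subset.antisymm hle.1 h
    refine Prod.ext e ?_
    rw [← hp.2.2, ← hle.2, e, hq.2.2]
  · intro p hp
    refine card_nbij' (tau p.1) (tau p.1) ?_ ?_ (fun x _ => tau_tau _ _) (fun x _ => tau_tau _ _)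
    · intro x hx
      simp only [coe_filter, mem_univ, true_and, Set.mem_ofPred_eq] at hx ⊢
      exact (le_sk hp).2 (tau_ok hp ((le_sk hp).1 hx))
    · intro x hx
      simp only [coe_filter, mem_univ, true_and, Set.mem_ofPred_eq] at hx ⊢
      have := tau_ok hp ((le_sk hp).1 hx)
      rw [Bool.not_not] at this
      exact (le_sk hp).2 this

noncomputable def key (S : Finset ℕ) (x : Fin n → Bool) : ℕ :=
  (Fintype.equivFin (Fin n → Bool) (off S x)).1

open Classical in
noncomputable def fib (c : Bool) (p : Finset ℕ × (Fin n → Bool)) : Finset (Fin n → Bool) :=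
  {x | sk c x = p}

theorem mem_fib {c : Bool} {p : Finset ℕ × (Fin n → Bool)} {x : Fin n → Bool} :
    x ∈ fib c p ↔ sk c x = p := by simp [fib]

theorem key_inj (c : Bool) (p : Finset ℕ × (Fin n → Bool)) :
    ∀ x ∈ fib c p, ∀ y ∈ fib c p, key p.1 x = key p.1 y → x = y := by
  intro x hx y hy h
  rw [mem_fib] at hx hy
  have h1 : off p.1 x = off p.1 y := (Fintype.equivFin _).injective (Fin.ext h)
  have h2 : res p.1 x = res p.1 y := by
    have e1 : res p.1 x = p.2 := by rw [← hx]; rfl
    have e2 : res p.1 y = p.2 := by rw [← hy]; rfl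
    rw [e1, e2]
  funext q
  have a := congrFun h1 q
  have b := congrFun h2 q
  unfold off at a
  unfold res at b
  split_ifs at a b
  · exact b
  · exact a

noncomputable def rk (c : Bool) (x : Fin n → Bool) : ℕ :=
  #{z ∈ fib c (sk c x) | key (sk c x).1 z < key (sk c x).1 x}

theorem code_inj {c : Bool} {x y : Fin n → Bool} (h1 : sk c x = sk c y) (h2 : rk c x = rk c y) :
    x = y := by
  refine rank_inj (fib c (sk c x)) (key (sk c x).1) (key_inj c _) x y (mem_fib.2 rfl)
    (mem_fib.2 h1.symm) ?_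
  unfold rk at h2
  rw [← h1] at h2
  exact h2

theorem code_surj (c : Bool) (x : Fin n → Bool) :
    ∃ y, sk (!c) y = sk c x ∧ rk (!c) y = rk c x := by
  have h1 : rk c x < #(fib (!c) (sk c x)) := by
    have := fib_card c (sk c x) (val_sk c x)
    have e : #(fib c (sk c x)) = #(fib (!c) (sk c x)) := by
      unfold fib; convert this
    rw [← e]
    exact rank_lt _ _ _ (mem_fib.2 rfl)
  obtain ⟨y, hy, e⟩ := rank_surj (fib (!c) (sk c x)) (key (sk c x).1) (key_inj _ _) _ h1
  rw [mem_fib] at hy
  refine ⟨y, hy, ?_⟩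
  unfold rk at e ⊢
  rw [hy]; exact e

theorem occ_of_sk {c c' : Bool} {x y : Fin n → Bool} {j : ℕ} (h : sk c x = sk c' y)
    (ho : Occ c x j) : Occ c' y j := by
  have hS : Sites c x = Sites c' y := congrArg Prod.fst h
  have hr : res (Sites c x) x = res (Sites c x) y := by
    have := congrArg Prod.snd h
    simp only [sk] at this
    rw [this, hS]
  have hj := occ_mem ho
  obtain ⟨h0, h1, -, -, h4⟩ := ho
  obtain ⟨i2, i3⟩ := sites_inn c' y j (hS ▸ hj)
  refine ⟨h0, ?_, i2, i3, ?_⟩
  · rw [← g_of_res hr ⟨j, hj, by omega⟩]; exact h1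
  · rw [← g_of_res hr ⟨j, hj, by omega⟩]; exact h4

theorem res_mv {S : Finset ℕ} {j : ℕ} (hj : j ∈ S) (x : Fin n → Bool) :
    res S (mv j x) = mv j (res S x) := by
  funext p
  simp only [res, mv]
  split_ifs with h1 h2 h2
  · rfl
  · rfl
  · exact absurd ⟨j, hj, by omega⟩ h1
  · rfl

theorem off_mv {S : Finset ℕ} {j : ℕ} (hj : j ∈ S) (x : Fin n → Bool) :
    off S (mv j x) = off S x := by
  funext p
  unfold off mv
  split_ifs with h1 h2
  · rfl
  · exact absurd ⟨j, hj, by omega⟩ h1
  · rfl

theorem sk_mv {c : Bool} {x : Fin n → Bool} {j : ℕ} (ho : Occ c x j) :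
    sk c (mv j x) = ((sk c x).1, mv j (sk c x).2) := by
  simp only [sk]
  rw [sites_mv ho, res_mv (occ_mem ho)]

theorem rk_mv {c : Bool} {x : Fin n → Bool} {j : ℕ} (ho : Occ c x j) :
    rk c (mv j x) = rk c x := by
  have hj : j ∈ (sk c x).1 := occ_mem ho
  have e1 : (sk c (mv j x)).1 = (sk c x).1 := by rw [sk_mv ho]
  unfold rk
  rw [e1]
  refine card_nbij' (mv j) (mv j) ?_ ?_ (fun x _ => mv_mv _ _) (fun x _ => mv_mv _ _)
  · intro z hz
    simp only [coe_filter, mem_fib, Set.mem_ofPred_eq] at hz ⊢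
    have hz' : Occ c z j := occ_of_sk hz.1.symm (occ_mv ho)
    constructor
    · rw [sk_mv hz', hz.1, sk_mv ho, mv_mv]
    · have := hz.2
      unfold key at this ⊢
      rw [off_mv hj] at this ⊢
      exact this
  · intro z hz
    simp only [coe_filter, mem_fib, Set.mem_ofPred_eq] at hz ⊢
    have hz' : Occ c z j := occ_of_sk hz.1.symm ho
    constructor
    · rw [sk_mv hz', hz.1, sk_mv ho]
    · have := hz.2
      unfold key at this ⊢
      rw [off_mv hj, off_mv hj]
      exact this

/-- The two substitution systems are isomorphic. -/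
theorem main (n : ℕ) : ∃ F : (Fin n → Bool) ≃ (Fin n → Bool), ∀ x j,
    (Occ false x j ↔ Occ true (F x) j) ∧ (Occ false x j → F (mv j x) = mv j (F x)) := by
  choose f hf1 hf2 using code_surj (n := n) false
  simp only [Bool.not_false] at hf1 hf2
  have hinj : Function.Injective f := by
    intro x y h
    apply code_inj (c := false)
    · rw [← hf1, ← hf1, h]
    · rw [← hf2, ← hf2, h]
  refine ⟨Equiv.ofBijective f (Finite.injective_iff_bijective.1 hinj), fun x j => ⟨⟨?_, ?_⟩, ?_⟩⟩
  · exact occ_of_sk (hf1 x).symm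
  · exact occ_of_sk (hf1 x)
  · intro ho
    have ho' : Occ true (f x) j := occ_of_sk (hf1 x).symm ho
    change f (mv j x) = mv j (f x)
    apply code_inj (c := true)
    · rw [hf1, sk_mv ho, sk_mv ho', hf1]
    · rw [hf2, rk_mv ho, rk_mv ho', hf2]

end Pool.Agent.H4.Keyw
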