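import Mathlib

set_option autoImplicit false

namespace Pool.Agent.H4.Kirch

/-- Some hyperplane `{x | ⟪u, x⟫ = c}`, `u ≠ 0`, has `P` in one open half-space and `Q` in the other. -/
def Sep {d : ℕ} (P Q : Set (EuclideanSpace ℝ (Fin d))) : Prop :=
  ∃ (u : EuclideanSpace ℝ (Fin d)) (c : ℝ), u ≠ 0 ∧
    (∀ p ∈ P, inner ℝ u p < c) ∧ ∀ q ∈ Q, c < inner ℝ u q

end Pool.Agent.H4.Kirch
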