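import Mathlib
import Pool.Agent.H4.Colorful
import Pool.Agent.H4.KirchDefs

set_option autoImplicit false

namespace Pool.Agent.H4.Kirch

open Finset
open scoped RealInnerProductSpace

abbrev E (d : ℕ) := EuclideanSpace ℝ (Fin d)

abbrev F (d : ℕ) := EuclideanSpace ℝ (Option (Fin d))

noncomputable def up {d : ℕ} (a : E d) (t : ℝ) : F d :=
  WithLp.toLp 2 (fun o => match o with | none => t | some i => a i)

lemma inner_up {d : ℕ} (a b : E d) (s t : ℝ) : ⟪up a s, up b t⟫ = ⟪a, b⟫ + s * t := by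
  simp only [up, PiLp.inner_apply, Fintype.sum_option]
  simp only [RCLike.inner_apply, conj_trivial]
  ring

lemma exists_up {d : ℕ} (z : F d) : ∃ a s, z = up a s :=
  ⟨WithLp.toLp 2 (fun i => z (some i)), z none, by
    ext o; cases o <;> rfl⟩

open Classical in
noncomputable def lift {d : ℕ} (A : Finset (E d)) (x : E d) : F d :=
  if x ∈ A then up x 1 else -up x 1

lemma sep_not_bad {d : ℕ} (A B S : Finset (E d)) (hAB : Disjoint A B)
    (hS : (S : Set (E d)) ⊆ ↑A ∪ ↑B) (h : Sep ((A : Set (E d)) ∩ S) ((B : Set (E d)) ∩ S)) :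
    (0 : F d) ∉ convexHull ℝ (lift A '' (S : Set (E d))) := by
  obtain ⟨u, c, -, h1, h2⟩ := h
  apply Colorful.not_mem_of_pos (z := up (-u) c)
  rintro _ ⟨x, hx, rfl⟩
  unfold lift
  split_ifs with hA
  · rw [inner_up, inner_neg_left]
    have := h1 x ⟨hA, hx⟩
    linarith
  · rw [inner_neg_right, inner_up, inner_neg_left]
    have := h2 x ⟨(hS hx).resolve_left hA, hx⟩
    have _ := hAB
    linarith

lemma sep_of_not_bad {d : ℕ} (hd : 1 ≤ d) (A B T : Finset (E d)) (hAB : Disjoint A B)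
    (h : (0 : F d) ∉ convexHull ℝ (lift A '' (T : Set (E d)))) :
    Sep ((A : Set (E d)) ∩ T) ((B : Set (E d)) ∩ T) := by
  obtain ⟨z, hz⟩ := Colorful.exists_pos (T.finite_toSet.image _) h
  obtain ⟨a, s, rfl⟩ := exists_up z
  have h1 : ∀ p ∈ (A : Set (E d)) ∩ T, ⟪-a, p⟫ < s := by
    intro p hp
    have := hz _ ⟨p, hp.2, rfl⟩
    rw [lift, if_pos (by exact hp.1), inner_up] at this
    rw [inner_neg_left]; linarith
  have h2 : ∀ q ∈ (B : Set (E d)) ∩ T, s < ⟪-a, q⟫ := by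
    intro q hq
    have := hz _ ⟨q, hq.2, rfl⟩
    rw [lift, if_neg (fun h => disjoint_left.1 hAB h hq.1), inner_neg_right, inner_up] at this
    rw [inner_neg_left]; linarith
  by_cases ha : a = 0
  · subst ha
    let e : E d := EuclideanSpace.single ⟨0, hd⟩ 1
    have he : e ≠ 0 := by
      intro h0
      have := congrArg (fun v : E d => v ⟨0, hd⟩) h0
      simp [e] at this
    obtain ⟨M, hM⟩ := (T.finite_toSet.image (fun x => |⟪e, x⟫|)).bddAbove
    have hM' : ∀ x ∈ T, |⟪e, x⟫| ≤ M := fun x hx => hM ⟨x, hx, rfl⟩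
    simp only [neg_zero, inner_zero_left] at h1 h2
    by_cases hs : 0 < s
    · refine ⟨e, M + 1, he, fun p hp => ?_, fun q hq => ?_⟩
      · have := (abs_le.1 (hM' p hp.2)).2; linarith
      · have := h2 q hq; linarith
    · refine ⟨e, -M - 1, he, fun p hp => ?_, fun q hq => ?_⟩
      · exact absurd (h1 p hp) hs
      · have := (abs_le.1 (hM' q hq.2)).1; linarith
  · exact ⟨-a, s, neg_ne_zero.2 ha, h1, h2⟩

theorem main (d : ℕ) (hd : 1 ≤ d) (ε : ℝ) (hε : 0 ≤ ε) (N : ℕ) (A B : Finset (E d))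
    (hAB : Disjoint A B) (hA : A.card = N) (hB : B.card = N) (hN : d + 2 ≤ 2 * N)
    (hg : (1 - ε) * ((2 * N).choose (d + 2) : ℝ) ≤
      ({S : Finset (E d) | (S : Set (E d)) ⊆ ↑A ∪ ↑B ∧ S.card = d + 2 ∧
        Sep ((A : Set (E d)) ∩ S) ((B : Set (E d)) ∩ S)}.ncard : ℝ)) :
    ∃ A' ⊆ A, ∃ B' ⊆ B, Sep (A' : Set (E d)) (B' : Set (E d)) ∧
      (1 - 4 * ((d : ℝ) + 2) ^ 2 * ε ^ (((d + 2 : ℕ) : ℝ)⁻¹)) * N ≤ A'.card ∧
      (1 - 4 * ((d : ℝ) + 2) ^ 2 * ε ^ (((d + 2 : ℕ) : ℝ)⁻¹)) * N ≤ B'.card := by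
  classical
  have hU : (A ∪ B).card = 2 * N := by rw [card_union_of_disjoint hAB]; omega
  obtain ⟨R, -, hR, M, hM, h1, h2⟩ := Colorful.main (lift A) (A ∪ B) (d + 2) (by simp) (by omega)
  have h3 := Colorful.pow_bound (d + 2) M _ (by omega) h1 h2
  set bad := {S : Finset (E d) | S ⊆ A ∪ B ∧ S.card = d + 2 ∧
    (0 : F d) ∈ convexHull ℝ (lift A '' (S : Set (E d)))} with hbad
  set good := {S : Finset (E d) | (S : Set (E d)) ⊆ ↑A ∪ ↑B ∧ S.card = d + 2 ∧
        Sep ((A : Set (E d)) ∩ S) ((B : Set (E d)) ∩ S)} with hgood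
  have hsum : good.ncard + bad.ncard ≤ (2 * N).choose (d + 2) := by
    have s1 : good ∪ bad ⊆ ↑((A ∪ B).powersetCard (d + 2)) := by
      rintro S (hS | hS)
      · exact mem_coe.2 (mem_powersetCard.2 ⟨by rw [← coe_subset, coe_union]; exact hS.1, hS.2.1⟩)
      · exact mem_coe.2 (mem_powersetCard.2 ⟨hS.1, hS.2.1⟩)
    have f1 : (good ∪ bad).Finite := (Finset.finite_toSet _).subset s1
    rw [← Set.ncard_union_eq ?_ (f1.subset Set.subset_union_left)
      (f1.subset Set.subset_union_right), ← hU, ← card_powersetCard, ← Set.ncard_coe_finset]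
    · exact Set.ncard_le_ncard s1
    · rw [Set.disjoint_left]
      intro S h4 h5
      exact sep_not_bad A B S hAB h4.1 h4.2.2 h5.2.2
  have h4 : (bad.ncard : ℝ) ≤ ε * (2 * N) ^ (d + 2) := by
    have a1 : (good.ncard : ℝ) + bad.ncard ≤ (2 * N).choose (d + 2) := by exact_mod_cast hsum
    have a2 : (((2 * N).choose (d + 2) : ℕ) : ℝ) ≤ (2 * N) ^ (d + 2) := by
      exact_mod_cast Nat.choose_le_pow (2 * N) (d + 2)
    nlinarith [mul_le_mul_of_nonneg_left a2 hε]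
  set η := ε ^ (((d + 2 : ℕ) : ℝ)⁻¹) with hη
  have η0 : 0 ≤ η := Real.rpow_nonneg hε _
  have η1 : η ^ (d + 2) = ε := Real.rpow_inv_natCast_pow hε (by omega)
  have h5 : (M : ℝ) / (2 * ((d + 2 : ℕ) : ℝ)) ≤ η * (2 * N) := by
    apply le_of_pow_le_pow_left₀ (n := d + 2) (by omega) (by positivity)
    rw [mul_pow, η1]
    exact h3.trans h4
  rw [div_le_iff₀ (by positivity)] at h5
  have h6 : (R.card : ℝ) ≤ 4 * ((d : ℝ) + 2) ^ 2 * η * N := by
    have : (R.card : ℝ) ≤ ((d + 2 : ℕ) : ℝ) * M := by exact_mod_cast hM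
    push_cast at this h5
    nlinarith [mul_le_mul_of_nonneg_left h5 (show (0 : ℝ) ≤ d + 2 by positivity)]
  have hs := sep_of_not_bad hd A B _ hAB hR
  have c1 : ∀ X : Finset (E d), (X.card : ℝ) ≤ (X \ R).card + R.card := by
    intro X
    exact_mod_cast card_le_card_sdiff_add_card
  refine ⟨A \ R, sdiff_subset, B \ R, sdiff_subset, ?_, ?_, ?_⟩
  · obtain ⟨u, c, hu, s1, s2⟩ := hs
    refine ⟨u, c, hu, fun p hp => s1 p ?_, fun q hq => s2 q ?_⟩
    · simp only [coe_sdiff, Set.mem_sdiff, mem_coe] at hp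
      simp [hp.1, hp.2]
    · simp only [coe_sdiff, Set.mem_sdiff, mem_coe] at hq
      simp [hq.1, hq.2]
  · have := c1 A
    rw [hA] at this
    nlinarith
  · have := c1 B
    rw [hB] at this
    nlinarith

end Pool.Agent.H4.Kirch
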