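import Mathlib

set_option autoImplicit false

namespace Pool.Agent.H4.Kon

/-- A row is its finite set of occupied cells; a stone in an even cell is black, in an odd cell
white. The stone at `p` jumps over the stone at `p + d` into the cell `p + 2 d`. -/
def step (r : Finset ℤ) (p d : ℤ) : Finset ℤ := insert (p + 2 * d) ((r.erase p).erase (p + d))

/-- One or more successive jumps of the stone at `p` in direction `d`. -/
inductive Jump (d : ℤ) : Finset ℤ → ℤ → Finset ℤ → Prop
  | one (r : Finset ℤ) (p : ℤ) : p ∈ r → p + d ∈ r → p + 2 * d ∉ r → Jump d r p (step r p d)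
  | more (r : Finset ℤ) (p : ℤ) (r' : Finset ℤ) : p ∈ r → p + d ∈ r → p + 2 * d ∉ r →
      Jump d (step r p d) (p + 2 * d) r' → Jump d r p r'

/-- A move of player `c` (`0` is Black, `1` is White) on one row. -/
def Move (c : ℤ) (r r' : Finset ℤ) : Prop :=
  ∃ p d, p % 2 = c ∧ (d = 1 ∨ d = -1) ∧ Jump d r p r'

/-- A move in the disjoint sum of three rows. -/
def Move3 (c : ℤ) (s t : Finset ℤ × Finset ℤ × Finset ℤ) : Prop :=
  (∃ r, Move c s.1 r ∧ t = (r, s.2.1, s.2.2)) ∨ (∃ r, Move c s.2.1 r ∧ t = (s.1, r, s.2.2)) ∨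
    ∃ r, Move c s.2.2 r ∧ t = (s.1, s.2.1, r)

/-- Player `c`, moving first, wins (normal play). -/
inductive Win (c : ℤ) : Finset ℤ × Finset ℤ × Finset ℤ → Prop
  | mk (s t : Finset ℤ × Finset ℤ × Finset ℤ) : Move3 c s t →
      (∀ u, Move3 (1 - c) t u → Win c u) → Win c s

/-- The negative of a row: shifting by one cell exchanges the colours. -/
def neg (r : Finset ℤ) : Finset ℤ := r.image (· + 1)

/-- The first two runs: cells `1..k` and `k+2..k+m+1`. -/
noncomputable def left (k m : ℕ) : Finset ℤ := Finset.Icc (1 : ℤ) k ∪ Finset.Icc ((k : ℤ) + 2) (k + m + 1)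

/-- The third run: cells `k+m+4..k+m+n+3`. -/
noncomputable def right (k m n : ℕ) : Finset ℤ := Finset.Icc ((k : ℤ) + m + 4) (k + m + n + 3)

/-- `S(k,m·,n) = V_L + V_R`: the second player wins `S(k,m·,n) - V_L - V_R`. -/
def Decomposes (k m n : ℕ) : Prop :=
  ¬ Win 0 (left k m ∪ right k m n, neg (left k m), neg (right k m n)) ∧
    ¬ Win 1 (left k m ∪ right k m n, neg (left k m), neg (right k m n))

end Pool.Agent.H4.Kon
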