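import Pool.Agent.H4.MisPDefs

set_option autoImplicit false

namespace Pool.Agent.H4.MisP

variable {T : Type}

def mv (Op : T → Multiset T → Prop) (K G : Multiset T) : Prop :=
  ∃ a R o, Op a o ∧ G = a ::ₘ R ∧ K = o + R

lemma mv_finite (Op : T → Multiset T → Prop) (h : ∀ a, {o | Op a o}.Finite) (G : Multiset T) :
    {K | mv Op K G}.Finite := by
  classical
  refine (G.toFinset.finite_toSet.biUnion fun a _ => (h a).image fun o => o + G.erase a).subset ?_
  rintro K ⟨a, R, o, ho, rfl, rfl⟩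
  simp only [Set.mem_iUnion]
  exact ⟨a, by simp, o, ho, by simp⟩

lemma mv_wf (Op : T → Multiset T → Prop) (rk : T → ℕ ×ₗ ℕ)
    (h : ∀ a o, Op a o → ∀ b ∈ o, rk b < rk a) : WellFounded (mv Op) := by
  have wf : WellFounded (InvImage (· < ·) rk) := InvImage.wf _ wellFounded_lt
  refine Subrelation.wf ?_ wf.cutExpand
  rintro K G ⟨a, R, o, ho, rfl, rfl⟩
  refine ⟨o, a, h a o ho, ?_⟩
  rw [← Multiset.singleton_add]
  abel

lemma mv_add (Op : T → Multiset T → Prop) (G H K : Multiset T) :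
    mv Op K (G + H) ↔ ((∃ G', mv Op G' G ∧ K = G' + H) ∨ ∃ H', mv Op H' H ∧ K = G + H') := by
  constructor
  · rintro ⟨a, R, o, ho, h1, rfl⟩
    have : a ∈ G + H := by rw [h1]; simp
    rcases Multiset.mem_add.1 this with h | h
    · obtain ⟨G', rfl⟩ := Multiset.exists_cons_of_mem h
      rw [Multiset.cons_add, Multiset.cons_inj_right] at h1
      subst h1
      exact Or.inl ⟨_, ⟨a, G', o, ho, rfl, rfl⟩, by abel⟩
    · obtain ⟨H', rfl⟩ := Multiset.exists_cons_of_mem h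
      rw [Multiset.add_cons, Multiset.cons_inj_right] at h1
      subst h1
      exact Or.inr ⟨_, ⟨a, H', o, ho, rfl, rfl⟩, by abel⟩
  · rintro (⟨_, ⟨a, R, o, ho, rfl, rfl⟩, rfl⟩ | ⟨_, ⟨a, R, o, ho, rfl, rfl⟩, rfl⟩)
    · exact ⟨a, R + H, o, ho, by simp, by abel⟩
    · exact ⟨a, G + R, o, ho, by simp, by abel⟩

def Rep (Op : T → Multiset T → Prop) : Gm → Multiset T → Prop
  | .mk _ f, a => (∀ i, ∃ b, mv Op b a ∧ Rep Op (f i) b) ∧ ∀ b, mv Op b a → ∃ i, Rep Op (f i) b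

lemma rep_exists (Op : T → Multiset T → Prop) (hf : ∀ G, {K | mv Op K G}.Finite)
    (wf : WellFounded (mv Op)) (a : Multiset T) : ∃ G, Rep Op G a := by
  induction a using wf.induction with
  | _ a ih =>
    obtain ⟨n, e, -, he⟩ := (hf a).fin_param
    have h1 : ∀ i, mv Op (e i) a := fun i => by
      have : e i ∈ Set.range e := ⟨i, rfl⟩
      rw [he] at this
      exact this
    choose f hf' using fun i => ih (e i) (h1 i)
    refine ⟨.mk n f, fun i => ⟨e i, h1 i, hf' i⟩, fun b hb => ?_⟩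
    have : b ∈ Set.range e := by rw [he]; exact hb
    obtain ⟨i, rfl⟩ := this
    exact ⟨i, hf' i⟩

lemma rep_add (Op : T → Multiset T → Prop) (G : Gm) :
    ∀ (H : Gm) (a b : Multiset T), Rep Op G a → Rep Op H b → Rep Op (add G H) (a + b) := by
  induction G with
  | mk n f ih =>
    intro H
    induction H with
    | mk m g ih2 =>
      intro a b ha hb
      rw [add_mk]
      refine ⟨fun i => ?_, fun c hc => ?_⟩
      · refine Fin.addCases (fun i => ?_) (fun j => ?_) i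
        · obtain ⟨a', h1, h2⟩ := ha.1 i
          refine ⟨a' + b, (mv_add Op a b _).2 (Or.inl ⟨a', h1, rfl⟩), ?_⟩
          rw [Fin.append_left]
          exact ih i _ _ _ h2 hb
        · obtain ⟨b', h1, h2⟩ := hb.1 j
          refine ⟨a + b', (mv_add Op a b _).2 (Or.inr ⟨b', h1, rfl⟩), ?_⟩
          rw [Fin.append_right]
          exact ih2 j _ _ ha h2
      · rcases (mv_add Op a b c).1 hc with ⟨a', h1, rfl⟩ | ⟨b', h1, rfl⟩
        · obtain ⟨i, hi⟩ := ha.2 a' h1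
          refine ⟨Fin.castAdd m i, ?_⟩
          rw [Fin.append_left]
          exact ih i _ _ _ hi hb
        · obtain ⟨j, hj⟩ := hb.2 b' h1
          refine ⟨Fin.natAdd n j, ?_⟩
          rw [Fin.append_right]
          exact ih2 j _ _ ha hj

lemma rep_isN (Op : T → Multiset T → Prop) (P : Multiset T → Prop)
    (hP : ∀ a, ¬ P a ↔ ((∀ b, ¬ mv Op b a) ∨ ∃ b, mv Op b a ∧ P b)) (G : Gm) :
    ∀ a, Rep Op G a → (isN G ↔ ¬ P a) := by
  induction G with
  | mk n f ih =>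
    intro a ha
    rw [hP, isN]
    constructor
    · rintro (rfl | ⟨i, hi⟩)
      · refine Or.inl fun b hb => ?_
        obtain ⟨i, -⟩ := ha.2 b hb
        exact i.elim0
      · obtain ⟨b, h1, h2⟩ := ha.1 i
        exact Or.inr ⟨b, h1, by simpa [ih i b h2] using hi⟩
    · rintro (h | ⟨b, h1, h2⟩)
      · rcases Nat.eq_zero_or_pos n with h0 | h0
        · exact Or.inl h0
        · obtain ⟨b, h1, -⟩ := ha.1 ⟨0, h0⟩
          exact absurd h1 (h b)
      · obtain ⟨i, hi⟩ := ha.2 b h1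
        exact Or.inr ⟨i, by simpa [ih i b hi] using h2⟩

lemma rep_mul (Op : T → Multiset T → Prop) (G : Gm) (a : Multiset T) (h : Rep Op G a) (k : ℕ) :
    Rep Op (mul G k) (k • a) := by
  induction k with
  | zero =>
    refine ⟨fun i => i.elim0, ?_⟩
    rintro b ⟨c, R, o, -, h1, -⟩
    simp at h1
  | succ k ih =>
    rw [succ_nsmul]
    exact rep_add Op _ _ _ _ ih h

theorem bridge (Op : T → Multiset T → Prop) (hf : ∀ G, {K | mv Op K G}.Finite)
    (wf : WellFounded (mv Op)) (P : Multiset T → Prop)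
    (hP : ∀ a, ¬ P a ↔ ((∀ b, ¬ mv Op b a) ∨ ∃ b, mv Op b a ∧ P b)) (y : Multiset T) :
    ∃ A : Set Gm, Closed A ∧ ∃ x ∈ A, ∀ m k : ℕ,
      (Eqv A (mul x m) (mul x k) ↔ ∀ c, (P (m • y + c) ↔ P (k • y + c))) := by
  obtain ⟨x, hx⟩ := rep_exists Op hf wf y
  refine ⟨{G | ∃ a, Rep Op G a}, ⟨?_, ?_⟩, x, ⟨y, hx⟩, fun m k => ⟨fun h c => ?_, ?_⟩⟩
  · rintro G ⟨a, ha⟩ H ⟨b, hb⟩
    exact ⟨a + b, rep_add Op G H a b ha hb⟩
  · rintro n f ⟨a, ha⟩ i
    obtain ⟨b, -, hb⟩ := ha.1 i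
    exact ⟨b, hb⟩
  · obtain ⟨X, hX⟩ := rep_exists Op hf wf c
    have := h X ⟨c, hX⟩
    rw [rep_isN Op P hP _ _ (rep_add Op _ _ _ _ (rep_mul Op x y hx m) hX),
      rep_isN Op P hP _ _ (rep_add Op _ _ _ _ (rep_mul Op x y hx k) hX)] at this
    exact not_iff_not.1 this
  · rintro h X ⟨c, hX⟩
    rw [rep_isN Op P hP _ _ (rep_add Op _ _ _ _ (rep_mul Op x y hx m) hX),
      rep_isN Op P hP _ _ (rep_add Op _ _ _ _ (rep_mul Op x y hx k) hX), h c]

end Pool.Agent.H4.MisP
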