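import Mathlib

set_option autoImplicit false

namespace Pool.Agent.H4.MisP

/-- A finite impartial game, given by its finite list of options. -/
inductive Gm : Type
  | mk (n : ℕ) (f : Fin n → Gm) : Gm

/-- Auxiliary recursion on the second summand: `F i` is the map adding the `i`-th option of the
first summand. -/
def addAux (n : ℕ) (F : Fin n → Gm → Gm) : Gm → Gm
  | .mk m g => .mk (n + m) (Fin.append (fun i => F i (.mk m g)) (fun j => addAux n F (g j)))

/-- Disjunctive sum: the options of `G + H` are the `G' + H` and the `G + H'`. -/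
def add : Gm → Gm → Gm
  | .mk n f => addAux n (fun i => add (f i))

theorem add_mk (n m : ℕ) (f : Fin n → Gm) (g : Fin m → Gm) :
    add (.mk n f) (.mk m g) = .mk (n + m)
      (Fin.append (fun i => add (f i) (.mk m g)) (fun j => add (.mk n f) (g j))) := rfl

/-- Misère outcome N: the player to move wins if there is no move, or a move to a P-position. -/
def isN : Gm → Prop
  | .mk n f => n = 0 ∨ ∃ i, ¬ isN (f i)

/-- The sum of `k` copies of `x`. -/
def mul (x : Gm) : ℕ → Gm
  | 0 => .mk 0 Fin.elim0
  | k + 1 => add (mul x k) x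

/-- Closed under sums and under taking options. -/
def Closed (A : Set Gm) : Prop :=
  (∀ G ∈ A, ∀ H ∈ A, add G H ∈ A) ∧ ∀ n f, Gm.mk n f ∈ A → ∀ i, f i ∈ A

/-- Misère equivalence modulo `A`. -/
def Eqv (A : Set Gm) (H K : Gm) : Prop :=
  ∀ X ∈ A, (isN (add H X) ↔ isN (add K X))

end Pool.Agent.H4.MisP
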