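import Pool.Agent.H4.MisPFin

set_option autoImplicit false

namespace Pool.Agent.H4.MisP

open Tok

lemma terminal {p h : ℕ} (hp0 : 0 < p) (hh : 2 * p + 1 < 2 ^ h) {G : Multiset Tok}
    (H : ∀ K, ¬ mv (Op p h) K G) : ¬ P p h G := by
  have h1 : ∀ a ∈ G, a = hp 0 := by
    intro a ha
    obtain ⟨R, rfl⟩ := Multiset.exists_cons_of_mem ha
    cases a with
    | hp k =>
      rcases Nat.eq_zero_or_pos k with rfl | hk
      · rfl
      · exact absurd ⟨_, R, _, Op.hp k 0 hk, rfl, rfl⟩ (H _)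
    | x i => exact absurd ⟨_, R, _, Op.xb i 1 one_pos (by simp), rfl, rfl⟩ (H _)
    | t i => exact absurd ⟨_, R, _, Op.td i 1 one_pos (by omega), rfl, rfl⟩ (H _)
    | w => exact absurd ⟨_, R, _, Op.we, rfl, rfl⟩ (H _)
    | y => exact absurd ⟨_, R, _, Op.yg 0 hp0, rfl, rfl⟩ (H _)
  have h2 : S fa G = 0 ∧ S fb G = 0 ∧ S fc G = 0 ∧ S fd G = 0 ∧ S fn G = 0 ∧ xr G = 0 := by
    clear H
    induction G using Multiset.induction_on with
    | empty => simp
    | cons a G ih =>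
      have := ih fun b hb => h1 b (Multiset.mem_cons_of_mem hb)
      rw [h1 a (Multiset.mem_cons_self _ _)]
      simpa [fa, fb, fc, fd, fn, val] using this
  have h3 : c0 h G := by unfold c0; omega
  have h4 : sm (LL h G) G := fun a ha => by rw [h1 a ha]; simp [val]
  rintro (⟨-, h5⟩ | ⟨h5, -⟩)
  · simp [AA, h3, h2] at h5
  · exact h5 h4

lemma heap_to {p h k j : ℕ} {R : Multiset Tok} (hj : j < k)
    (H : (sm (LL h (hp k ::ₘ R)) ({hp j} + R) ∧ j ^^^ xr R = AA p h (hp k ::ₘ R)) ∨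
      (¬ sm (LL h (hp k ::ₘ R)) ({hp j} + R) ∧ j ^^^ xr R = 0)) :
    ∃ K, mv (Op p h) K (hp k ::ₘ R) ∧ P p h K := by
  refine ⟨_, ⟨_, R, _, Op.hp k j hj, rfl, rfl⟩, ?_⟩
  unfold P
  rw [(heap_LA p h k j R).1, (heap_LA p h k j R).2]
  simpa only [xr_add, xr_single, val] using H

lemma ex_x {G : Multiset Tok} (H : S fa G ≠ 0) : ∃ i R, G = x i ::ₘ R := by
  obtain ⟨a, R, rfl, ha⟩ := S_ex fa G H
  cases a <;> simp [fa] at ha
  exact ⟨_, _, rfl⟩

lemma ex_t {G : Multiset Tok} (H : S fd G ≠ 0) : ∃ i R, G = t i ::ₘ R := by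
  obtain ⟨a, R, rfl, ha⟩ := S_ex fd G H
  cases a <;> simp [fd] at ha
  exact ⟨_, _, rfl⟩

lemma ex_w {G : Multiset Tok} (H : S fc G ≠ 0) : ∃ R, G = w ::ₘ R := by
  obtain ⟨a, R, rfl, ha⟩ := S_ex fc G H
  cases a <;> simp [fc] at ha
  exact ⟨_, rfl⟩

lemma ex_y {G : Multiset Tok} (H : S fn G ≠ 0) : ∃ R, G = y ::ₘ R := by
  obtain ⟨a, R, rfl, ha⟩ := S_ex fn G H
  cases a <;> simp [fn] at ha
  exact ⟨_, rfl⟩

lemma all_zero {G : Multiset Tok} (p h : ℕ) (h1 : sm 0 G) (ha : S fa G = 0) (hc : S fc G = 0)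
    (hd : S fd G = 0) (hn : S fn G = 0) (K : Multiset Tok) : ¬ mv (Op p h) K G := by
  rintro ⟨a, R, o, ho, rfl, rfl⟩
  rw [sm_cons] at h1
  cases ho <;> simp [fa, fc, fd, fn, val] at * <;> omega

lemma has_move {p h : ℕ} (hp0 : 0 < p) (hh : 2 * p + 1 < 2 ^ h) {G : Multiset Tok}
    (hG : ¬ P p h G) : (∀ K, ¬ mv (Op p h) K G) ∨ ∃ K, mv (Op p h) K G ∧ P p h K := by
  have hA := AA_lt hp0 hh G
  have hh1 : 2 ^ h < 2 ^ (h + 1) := Nat.pow_lt_pow_right (by norm_num) (by omega)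
  have hh2 : 2 ^ (h + 1) < 2 ^ (h + 2) := Nat.pow_lt_pow_right (by norm_num) (by omega)
  by_cases hs : sm (LL h G) G
  swap
  · right
    have h0 : 0 < xr G := Nat.pos_of_ne_zero fun H => hG (Or.inr ⟨hs, H⟩)
    obtain ⟨a, R, k, rfl, h1, h2⟩ := heap_move G 0 h0
    obtain ⟨v, rfl⟩ : ∃ v, a = hp v := ⟨_, val_pos h1⟩
    by_cases h3 : sm (LL h (hp v ::ₘ R)) R
    · have h4 := Nat.xor_lt_two_pow hA (xr_lt h3)
      have h5 : ¬ v < 2 ^ LL h (hp v ::ₘ R) := fun H => hs ((sm_cons _ _ _).2 ⟨H, h3⟩)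
      refine heap_to (j := AA p h (hp v ::ₘ R) ^^^ xr R) (by omega) (Or.inl ⟨?_, by simp⟩)
      rw [sm_add, sm_single]
      exact ⟨h4, h3⟩
    · exact heap_to h1 (Or.inr ⟨fun H => h3 ((sm_add _ _ _).1 H).2, h2⟩)
  have hne : xr G ≠ AA p h G := fun H => hG (Or.inl ⟨hs, H⟩)
  rcases lt_or_gt_of_ne hne with hlt | hlt
  swap
  · right
    obtain ⟨a, R, k, rfl, h1, h2⟩ := heap_move G _ hlt
    obtain ⟨v, rfl⟩ : ∃ v, a = hp v := ⟨_, val_pos h1⟩
    rw [sm_cons] at hs
    refine heap_to h1 (Or.inl ⟨?_, h2⟩)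
    rw [sm_add, sm_single]
    exact ⟨lt_trans h1 hs.1, hs.2⟩
  rcases cases_LA p h G with ⟨a1, a2, a3⟩ | ⟨a1, a2, a3⟩ | ⟨a1, a2, a3⟩ | ⟨-, -, -, -, a3⟩
  · have hab := S_ab G
    obtain ⟨b1, b2, b3, b4, b5⟩ := a1
    by_cases h0 : xr G = 0
    · by_cases h1 : sm (S fb G) G
      · by_cases h2 : S fa G = 0
        · left
          rw [hab.2 h2] at h1
          exact all_zero p h h1 h2 b3 b4 b5
        · right
          obtain ⟨i, R, rfl⟩ := ex_x h2
          have hab' := S_ab R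
          obtain ⟨x1, x2, x3, x4, x5, x6, x7, x8, x9⟩ := S_X i
          simp only [S_cons, fa, fb, fc, fd, fn, xr_cons, val, Nat.zero_xor] at *
          have e : S fb R = 0 := by omega
          have c : c0 h (hp (2 ^ i) ::ₘ X i + R) := by
            simp only [c0, S_cons, S_add, fa, fb, fc, fd, fn]
            omega
          refine ⟨_, ⟨_, R, _, Op.xa i (by omega), rfl, rfl⟩, Or.inl ⟨?_, ?_⟩⟩
          · simp only [LL, c, if_true, S_cons, S_add, fb, x2, e, sm_add, sm_cons, val] at h1 ⊢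
            refine ⟨⟨Nat.pow_lt_pow_right (by norm_num) (by omega), x9 _⟩, ?_⟩
            simpa using h1.2
          · simp only [AA, c, if_true]
            simp [fb, x2, e, x8, h0, val]
      · right
        simp only [sm, not_forall, not_lt] at h1
        obtain ⟨a, ha, h1⟩ := h1
        obtain ⟨R, rfl⟩ := Multiset.exists_cons_of_mem ha
        obtain ⟨v, rfl⟩ : ∃ v, a = hp v := ⟨_, val_pos (k := 0) (lt_of_lt_of_le (by positivity) h1)⟩
        rw [sm_cons] at hs
        have h2 : v ^^^ 2 ^ S fb (hp v ::ₘ R) < v := xor_pow_lt h1 (by rw [← a2]; exact hs.1)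
        refine heap_to h2 (Or.inl ⟨?_, ?_⟩)
        · rw [sm_add, sm_single]
          exact ⟨lt_trans h2 hs.1, hs.2⟩
        · rw [xr_cons, val] at h0
          rw [a3, Nat.xor_comm v, Nat.xor_assoc, h0, Nat.xor_zero]
    · right
      have h2 : S fa G ≠ 0 := by
        intro h2
        rw [a3, hab.2 h2] at hlt
        omega
      obtain ⟨i, R, rfl⟩ := ex_x h2
      have hab' := S_ab R
      simp only [S_cons, fa, fb, xr_cons, val, Nat.zero_xor, a3] at *
      have e : S fb R = 0 := by omega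
      rw [e, add_zero] at hlt
      exact ⟨_, ⟨_, R, _, Op.xb i (xr R) (by omega) hlt, rfl, rfl⟩, P_esc⟩
  · right
    obtain ⟨b1, b2, b3⟩ := a1
    have hab := S_ab G
    have hde := S_de G
    rw [a2] at hs
    rw [a3] at hlt
    have hm := Nat.mod_lt (S fn G) hp0
    by_cases h0 : xr G = 0
    · by_cases h1 : S fn G = 0
      · obtain ⟨R, rfl⟩ := ex_w (G := G) (by omega)
        simp only [S_cons, fa, fb, fc, fd, fn, xr_cons, val, Nat.zero_xor, sm_cons] at *
        have e : S fb R = 0 := by omega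
        have c : c0 h ({hp (2 ^ (h + 1)), x h} + R) := by
          simp only [c0, S_cons, S_add, S_single, Multiset.insert_eq_cons, fa, fb, fc, fd, fn]
          omega
        refine ⟨_, ⟨_, R, _, Op.we, rfl, rfl⟩, Or.inl ⟨?_, ?_⟩⟩
        · simp only [LL, c, if_true]
          simp only [S_cons, S_add, S_single, fb, e, sm_add, sm_cons, val, sm_single,
            Multiset.insert_eq_cons, Nat.zero_add, Nat.add_zero]
          exact ⟨⟨hh2, by positivity⟩, hs.2⟩
        · simp only [AA, c, if_true]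
          simp [fb, e, h0, val]
      · obtain ⟨R, rfl⟩ := ex_y h1
        simp only [S_cons, fa, fb, fc, fd, fn, xr_cons, val, Nat.zero_xor, sm_cons] at *
        have hm' := Nat.mod_lt (S fn R) hp0
        have := g_lt hh hm'
        have c : ¬ c0 h ({hp (g (S fn R % p))} + R) := by
          simp only [c0, S_add, S_single, fa, fb, fc, fd, fn]
          omega
        have c' : c1 ({hp (g (S fn R % p))} + R) := by
          simp only [c1, S_add, S_single, fa, fb, fc, fd, fn]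
          omega
        refine ⟨_, ⟨_, R, _, Op.yg _ hm', rfl, rfl⟩, Or.inl ⟨?_, ?_⟩⟩
        · simp only [LL, c, if_false, sm_add, sm_single, val]
          exact ⟨by omega, hs.2⟩
        · simp only [AA, c, c', if_true, if_false]
          simp [fn, h0, val]
    · by_cases h1 : ∀ j < p, xr G ≠ g j
      · obtain ⟨R, rfl⟩ := ex_w (G := G) (by omega)
        have := g_lt hh hm
        simp only [xr_cons, val, Nat.zero_xor] at *
        exact ⟨_, ⟨_, R, _, Op.wf (xr R) (by omega) (by omega) h1, rfl, rfl⟩, P_esc⟩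
      · simp only [not_forall, not_not] at h1
        obtain ⟨j, hj, h1⟩ := h1
        have h2 : j < S fn G % p := by
          rw [h1] at hlt
          unfold g at hlt
          omega
        obtain ⟨R, rfl⟩ := ex_y (G := G) (by rintro H; simp [H] at h2)
        simp only [S_cons, fa, fb, fc, fd, fe, fn, xr_cons, val, Nat.zero_xor, sm_cons] at *
        have h3 := succ_mod_cases (S fn R) p hp0
        rw [add_comm 1] at h2 hm
        have := g_lt hh hj
        have c : ¬ c0 h ({hp (g j), hp (2 ^ h), t j} + R) := by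
          simp only [c0, S_add, S_cons, S_single, Multiset.insert_eq_cons, fa, fb, fc, fd, fn]
          omega
        have c' : ¬ c1 ({hp (g j), hp (2 ^ h), t j} + R) := by
          simp only [c1, S_add, S_cons, S_single, Multiset.insert_eq_cons, fa, fb, fc, fd, fn]
          omega
        have c'' : c2 p ({hp (g j), hp (2 ^ h), t j} + R) := by
          simp only [c2, S_add, S_cons, S_single, Multiset.insert_eq_cons, fa, fc, fd, fe, fn,
            Nat.zero_add, Nat.add_zero]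
          omega
        refine ⟨_, ⟨_, R, _, Op.yh j hj, rfl, rfl⟩, Or.inl ⟨?_, ?_⟩⟩
        · simp only [LL, c, if_false]
          simp only [sm_add, sm_single, val, sm_cons, Multiset.insert_eq_cons]
          exact ⟨⟨by omega, by omega, by omega⟩, hs.2⟩
        · simp only [AA, c, c', c'', if_true, if_false]
          simp [h1, val, Nat.xor_comm (g j)]
  · right
    obtain ⟨b1, b2, b3, b4, b5⟩ := a1
    obtain ⟨i, R, rfl⟩ := ex_t (G := G) (by omega)
    have hde := S_de R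
    rw [a2] at hs
    rw [a3] at hlt
    simp only [S_cons, fa, fc, fd, fe, fn, xr_cons, val, Nat.zero_xor, sm_cons, Nat.zero_add] at *
    by_cases h0 : xr R = 0
    · have := g_lt hh (Nat.mod_lt (S fn R) hp0)
      have c : ¬ c0 h ({hp (g (S fn R % p))} + R) := by
        simp only [c0, S_add, S_single, fa, fb, fc, fd, fn]
        omega
      have c' : c1 ({hp (g (S fn R % p))} + R) := by
        simp only [c1, S_add, S_single, fa, fb, fc, fd, fn]
        omega
      refine ⟨_, ⟨_, R, _, Op.tc i (S fn R % p) (by omega) b5, rfl, rfl⟩, Or.inl ⟨?_, ?_⟩⟩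
      · simp only [LL, c, if_false, sm_add, sm_single, val]
        exact ⟨by omega, hs.2⟩
      · simp only [AA, c, c', if_true, if_false]
        simp [fn, h0, val]
    · exact ⟨_, ⟨_, R, _, Op.td i (xr R) (by omega) hlt, rfl, rfl⟩, P_esc⟩
  · omega

lemma outcome {p h : ℕ} (hp0 : 0 < p) (hh : 2 * p + 1 < 2 ^ h) (G : Multiset Tok) :
    ¬ P p h G ↔ ((∀ K, ¬ mv (Op p h) K G) ∨ ∃ K, mv (Op p h) K G ∧ P p h K) := by
  refine ⟨has_move hp0 hh, ?_⟩
  rintro (H | ⟨K, h1, h2⟩)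
  · exact terminal hp0 hh H
  · exact fun H => noPP_all hp0 hh h1 H h2

lemma S_y (n : ℕ) : S fa (n • {y}) = 0 ∧ S fb (n • {y}) = 0 ∧ S fc (n • {y}) = 0 ∧
    S fd (n • {y}) = 0 ∧ S fe (n • {y}) = 0 ∧ S fn (n • {y}) = n ∧ xr (n • {y}) = 0 ∧
    ∀ L, sm L (n • {y}) := by
  induction n with
  | zero => simp [sm]
  | succ n ih => simp [succ_nsmul, ih, fa, fb, fc, fd, fe, fn, val, sm_add, sm_single]

lemma periodic (p h : ℕ) (c : Multiset Tok) :
    P p h ((1 + p) • {y} + c) ↔ P p h (1 • {y} + c) := by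
  obtain ⟨x1, x2, x3, x4, x5, x6, x7, x8⟩ := S_y (1 + p)
  obtain ⟨y1, y2, y3, y4, y5, y6, y7, y8⟩ := S_y 1
  have e : (1 + p + S fn c) % p = (1 + S fn c) % p := by
    rw [show 1 + p + S fn c = 1 + S fn c + p by omega, Nat.add_mod_right]
  have e1 : ¬ (1 + p + S fn c = 0) := by omega
  have e2 : ¬ (1 + S fn c = 0) := by omega
  simp only [P, LL, AA, c0, c1, c2, S_add, xr_add, sm_add, *]

lemma separate {p h m q : ℕ} (hp0 : 0 < p) (hh : 2 * p + 1 < 2 ^ h)
    (H : ∀ c, (P p h ((m + q) • {y} + c) ↔ P p h (m • {y} + c))) : p ∣ q := by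
  have key : ∀ n j, j < p → (P p h (n • {y} + {w, hp (g j)}) ↔ j = n % p) := by
    intro n j hj
    obtain ⟨x1, x2, x3, x4, x5, x6, x7, x8⟩ := S_y n
    have := g_lt hh hj
    have hh2 : 2 ^ h < 2 ^ (h + 2) := Nat.pow_lt_pow_right (by norm_num) (by omega)
    have h3 : g j < 2 ^ (h + 2) := by omega
    simp [P, LL, AA, c0, c1, sm_add, sm_cons, sm_single, fa, fb, fc, fd, fn, val, *]
    exact ⟨g_inj, fun H => by rw [← H]⟩
  have h1 := H {w, hp (g (m % p))}
  rw [key _ _ (Nat.mod_lt _ hp0), key _ _ (Nat.mod_lt _ hp0)] at h1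
  have h2 : m ≡ m + q [MOD p] := h1.2 rfl
  simpa using (Nat.modEq_iff_dvd' (Nat.le_add_right m q)).1 h2

theorem main (p : ℕ) (hp0 : 1 ≤ p) :
    ∃ A : Set Gm, Closed A ∧ ∃ x ∈ A,
      IsLeast {q | 1 ≤ q ∧ ∃ m, 1 ≤ m ∧ Eqv A (mul x (m + q)) (mul x m)} p := by
  have hh : 2 * p + 1 < 2 ^ (p + 1) := by
    have := @Nat.lt_two_pow_self p
    rw [pow_succ]
    omega
  obtain ⟨A, hA, x, hx, H⟩ := bridge (Op p (p + 1)) (mv_finite _ (op_finite p (p + 1)))
    (mv_wf _ rk (op_rk p (p + 1))) (P p (p + 1)) (outcome hp0 hh) {y}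
  refine ⟨A, hA, x, hx, ⟨hp0, 1, le_rfl, (H _ _).2 (periodic p _)⟩, ?_⟩
  rintro q ⟨hq, m, -, h⟩
  exact Nat.le_of_dvd hq (separate hp0 hh ((H _ _).1 h))

end Pool.Agent.H4.MisP
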