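import Pool.Agent.H4.MisPMain

set_option autoImplicit false

namespace Pool.Agent.H4.MisP

open Tok

lemma pow_ne_g (k j : ℕ) : 2 ^ k ≠ g j := by
  unfold g
  cases k with
  | zero => omega
  | succ k => rw [pow_succ]; omega

lemma g_inj {i j : ℕ} (h : g i = g j) : i = j := by unfold g at h; omega

lemma g_xor (a b c : ℕ) : g a ^^^ g b ≠ g c := by
  intro h
  have := congrArg (fun n => n % 2) h
  simp only [Nat.xor_mod_two_eq, g] at this
  omega

lemma xor_pow_ne {a b h : ℕ} (ha : a < 2 ^ h) (hb : b < 2 ^ h) : a ^^^ 2 ^ h ≠ b := by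
  intro H
  have h1 : a ^^^ b = 2 ^ h := by rw [← H]; simp
  have := Nat.xor_lt_two_pow ha hb
  omega

lemma xor_pow_lt {v b : ℕ} (h1 : 2 ^ b ≤ v) (h2 : v < 2 ^ (b + 1)) : v ^^^ 2 ^ b < v := by
  refine Nat.lt_of_testBit b ?_ ?_ ?_
  · have : v / 2 ^ b = 1 := Nat.div_eq_of_lt_le (by omega) (by rw [pow_succ] at h2; omega)
    rw [Nat.testBit_xor, Nat.testBit_two_pow_self, Nat.testBit_eq_decide_div_mod_eq, this]
    simp
  · have : v / 2 ^ b = 1 := Nat.div_eq_of_lt_le (by omega) (by rw [pow_succ] at h2; omega)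
    simp [Nat.testBit_eq_decide_div_mod_eq, this]
  · intro j hj
    rw [Nat.testBit_xor, Nat.testBit_two_pow_of_ne (by omega)]
    simp

lemma S_X (i : ℕ) : S fa (X i) ≤ 1 ∧ S fb (X i) = i ∧ S fc (X i) = 0 ∧ S fd (X i) = 0 ∧
    S fe (X i) = 0 ∧ S fn (X i) = 0 ∧ (S fa (X i) = 0 → i = 0) ∧ xr (X i) = 0 ∧
    ∀ L, sm L (X i) := by
  cases i <;> simp [X, fa, fb, fc, fd, fe, fn, val, sm]

lemma succ_mod_cases (n p : ℕ) (hp : 0 < p) :
    (n + 1) % p = n % p + 1 ∨ ((n + 1) % p = 0 ∧ n % p + 1 = p) := by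
  have h1 := Nat.mod_lt n hp
  have h2 : (n + 1) % p = (n % p + 1) % p := by simp
  rcases Nat.lt_or_ge (n % p + 1) p with h | h
  · exact Or.inl (by rw [h2, Nat.mod_eq_of_lt h])
  · have : n % p + 1 = p := by omega
    exact Or.inr ⟨by rw [h2, this, Nat.mod_self], this⟩

lemma heap_LA (p h k j : ℕ) (R : Multiset Tok) :
    LL h ({hp j} + R) = LL h (hp k ::ₘ R) ∧ AA p h ({hp j} + R) = AA p h (hp k ::ₘ R) := by
  simp [LL, AA, c0, c1, c2, fa, fb, fc, fd, fe, fn]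

lemma noPP_all {p h : ℕ} (hp0 : 0 < p) (hh : 2 * p + 1 < 2 ^ h) {G K : Multiset Tok}
    (hm : mv (Op p h) K G) (hG : P p h G) : ¬ P p h K := by
  obtain ⟨a, R, o, ho, rfl, rfl⟩ := hm
  have hab := S_ab R
  have hde := S_de R
  have hh1 : 2 ^ h < 2 ^ (h + 1) := Nat.pow_lt_pow_right (by norm_num) (by omega)
  have hh2 : 2 ^ (h + 1) < 2 ^ (h + 2) := Nat.pow_lt_pow_right (by norm_num) (by omega)
  cases ho with
  | hp k j hj =>
    unfold P at hG ⊢
    rw [(heap_LA p h k j R).1, (heap_LA p h k j R).2]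
    simp only [sm_cons, sm_add, sm_single, xr_cons, xr_add, xr_single, val] at hG ⊢
    rintro (⟨⟨k1, k2⟩, k3⟩ | ⟨k1, k3⟩)
    · rcases hG with ⟨-, k5⟩ | ⟨k4, k5⟩
      · rw [← k5, Nat.xor_left_inj] at k3
        omega
      · rw [Nat.xor_eq_zero_iff] at k5
        exact k4 ⟨by have := xr_lt k2; omega, k2⟩
    · rcases hG with ⟨k4, -⟩ | ⟨-, k5⟩
      · exact k1 ⟨by omega, k4.2⟩
      · rw [← k5, Nat.xor_left_inj] at k3
        omega
  | xa i hi =>
    obtain ⟨x1, x2, x3, x4, x5, x6, x7, x8, x9⟩ := S_X i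
    have e : xr (hp (2 ^ i) ::ₘ X i) = 2 ^ i := by simp [val, x8]
    have hpos : 0 < 2 ^ i := by positivity
    refine noPP rfl (by omega) ?_ ?_ ?_ hG <;> rw [e] <;> clear hG e <;>
    rcases cases_LA p h (x i ::ₘ R) with ⟨a1, a2, a3⟩ | ⟨a1, a2, a3⟩ | ⟨a1, a2, a3⟩ |
      ⟨a0, a1, a4, a2, a3⟩ <;>
    rcases cases_LA p h (hp (2 ^ i) ::ₘ X i + R) with ⟨b1, b2, b3⟩ | ⟨b1, b2, b3⟩ | ⟨b1, b2, b3⟩ |
      ⟨b0, b1, b4, b2, b3⟩ <;>
    simp only [a2, a3, b2, b3] <;> clear a2 a3 b2 b3 <;>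
    simp only [c0, c1, c2, S_cons, S_add, S_single, Multiset.insert_eq_cons, fa, fb, fc, fd, fe,
      fn, Nat.xor_zero, Nat.zero_add, Nat.add_zero, sm_cons, sm_single, val, x2, x3, x4, x5, x6] at * <;>
    try first | (clear a0 a1 a4 b0 b1 b4; omega) | (clear b0 b1 b4; omega) | omega
    · intro H
      have := Nat.pow_right_injective (le_refl 2) H
      omega
    · intro _ H
      have h0 : S fb R = 0 := by omega
      rw [h0, add_zero, add_zero] at H
      have h3 : 2 ^ (i + 1) = 0 := by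
        have := congrArg (fun n => 2 ^ i ^^^ n) H
        simpa using this
      simp at h3
    · intro _ H
      have := Nat.pow_right_injective (le_refl 2) H
      omega
    · exact fun _ => pow_ne_g _ _
    · intro _ H
      have := Nat.pow_right_injective (le_refl 2) H
      have : h ≠ 0 := by rintro rfl; omega
      omega
  | xb i v h1 h2 =>
    refine noPP_esc rfl h1 ?_ hG
    clear hG
    rcases cases_LA p h (x i ::ₘ R) with ⟨a1, a2, a3⟩ | ⟨a1, a2, a3⟩ | ⟨a1, a2, a3⟩ |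
      ⟨a0, a1, a4, a2, a3⟩ <;>
    simp only [a3] <;> clear a2 a3 <;>
    simp only [c0, c1, c2, S_cons, fa, fb, fc, fd, fe, fn, Nat.zero_add] at * <;>
    try first | (clear a0 a1 a4 b0 b1 b4; omega) | (clear b0 b1 b4; omega) | omega
    have h0 : S fb R = 0 := by omega
    rw [h0, add_zero]
    omega
  | tc i j h1 h2 =>
    have hg := g_lt hh (show j < p by omega)
    have hg0 : g j ≠ 0 := by unfold g; omega
    have e : xr {hp (g j)} = g j := by simp [val]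
    refine noPP rfl (by omega) ?_ ?_ ?_ hG <;> rw [e] <;> clear hG e <;>
    rcases cases_LA p h (t i ::ₘ R) with ⟨a1, a2, a3⟩ | ⟨a1, a2, a3⟩ | ⟨a1, a2, a3⟩ |
      ⟨a0, a1, a4, a2, a3⟩ <;>
    rcases cases_LA p h ({hp (g j)} + R) with ⟨b1, b2, b3⟩ | ⟨b1, b2, b3⟩ | ⟨b1, b2, b3⟩ |
      ⟨b0, b1, b4, b2, b3⟩ <;>
    simp only [a2, a3, b2, b3] <;> clear a2 a3 b2 b3 <;>
    simp only [c0, c1, c2, S_cons, S_add, S_single, Multiset.insert_eq_cons, fa, fb, fc, fd, fe,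
      fn, Nat.xor_zero, Nat.zero_add, Nat.add_zero, sm_cons, sm_single, val] at * <;>
    try first | (clear a0 a1 a4 b0 b1 b4; omega) | (clear b0 b1 b4; omega) | omega
    · exact fun _ => xor_pow_ne hg (g_lt hh (Nat.mod_lt _ hp0))
    · exact fun _ => (pow_ne_g _ _).symm
    · intro _ H
      have := g_inj H
      omega
  | td i v h1 h2 =>
    refine noPP_esc rfl h1 ?_ hG
    clear hG
    rcases cases_LA p h (t i ::ₘ R) with ⟨a1, a2, a3⟩ | ⟨a1, a2, a3⟩ | ⟨a1, a2, a3⟩ |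
      ⟨a0, a1, a4, a2, a3⟩ <;>
    simp only [a3] <;> clear a2 a3 <;>
    simp only [c0, c1, c2, S_cons, fa, fb, fc, fd, fe, fn, Nat.zero_add] at * <;>
    try first | (clear a0 a1 a4 b0 b1 b4; omega) | (clear b0 b1 b4; omega) | omega
  | we =>
    have e : xr {hp (2 ^ (h + 1)), x h} = 2 ^ (h + 1) := by simp [val]
    refine noPP rfl (by omega) ?_ ?_ ?_ hG <;> rw [e] <;> clear hG e <;>
    rcases cases_LA p h (w ::ₘ R) with ⟨a1, a2, a3⟩ | ⟨a1, a2, a3⟩ | ⟨a1, a2, a3⟩ |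
      ⟨a0, a1, a4, a2, a3⟩ <;>
    rcases cases_LA p h ({hp (2 ^ (h + 1)), x h} + R) with ⟨b1, b2, b3⟩ | ⟨b1, b2, b3⟩ | ⟨b1, b2, b3⟩ |
      ⟨b0, b1, b4, b2, b3⟩ <;>
    simp only [a2, a3, b2, b3] <;> clear a2 a3 b2 b3 <;>
    simp only [c0, c1, c2, S_cons, S_add, S_single, Multiset.insert_eq_cons, fa, fb, fc, fd, fe,
      fn, Nat.xor_zero, Nat.zero_add, Nat.add_zero, sm_cons, sm_single, val] at * <;>
    try first | (clear a0 a1 a4 b0 b1 b4; omega) | (clear b0 b1 b4; omega) | omega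
    · exact fun H => absurd H (pow_ne_g _ _)
    · intro _ H
      have h0 : S fb R = 0 := by omega
      rw [h0, add_zero] at H
      have h3 : g (S fn R % p) = 0 := by
        have := congrArg (fun n => 2 ^ (h + 1) ^^^ n) H
        simpa using this
      simp [g] at h3
    · intro _ H
      exact pow_ne_g _ _ (Nat.xor_eq_zero_iff.1 H)
    · intro _ H
      have := Nat.xor_eq_zero_iff.1 H
      omega
  | wf v h1 h2 h3 =>
    refine noPP_esc rfl h1 ?_ hG
    clear hG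
    rcases cases_LA p h (w ::ₘ R) with ⟨a1, a2, a3⟩ | ⟨a1, a2, a3⟩ | ⟨a1, a2, a3⟩ |
      ⟨a0, a1, a4, a2, a3⟩ <;>
    simp only [a3] <;> clear a2 a3 <;>
    simp only [c0, c1, c2, S_cons, fa, fb, fc, fd, fe, fn, Nat.zero_add] at * <;>
    try first | (clear a0 a1 a4 b0 b1 b4; omega) | (clear b0 b1 b4; omega) | omega
    exact h3 _ (Nat.mod_lt _ hp0)
  | yg j hj =>
    have hg := g_lt hh hj
    have hg0 : g j ≠ 0 := by unfold g; omega
    have e : xr {hp (g j)} = g j := by simp [val]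
    refine noPP rfl (by omega) ?_ ?_ ?_ hG <;> rw [e] <;> clear hG e <;>
    rcases cases_LA p h (y ::ₘ R) with ⟨a1, a2, a3⟩ | ⟨a1, a2, a3⟩ | ⟨a1, a2, a3⟩ |
      ⟨a0, a1, a4, a2, a3⟩ <;>
    rcases cases_LA p h ({hp (g j)} + R) with ⟨b1, b2, b3⟩ | ⟨b1, b2, b3⟩ | ⟨b1, b2, b3⟩ |
      ⟨b0, b1, b4, b2, b3⟩ <;>
    simp only [a2, a3, b2, b3] <;> clear a2 a3 b2 b3 <;>
    simp only [c0, c1, c2, S_cons, S_add, S_single, Multiset.insert_eq_cons, fa, fb, fc, fd, fe,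
      fn, Nat.xor_zero, Nat.zero_add, Nat.add_zero, sm_cons, sm_single, val] at * <;>
    try first | (clear a0 a1 a4 b0 b1 b4; omega) | (clear b0 b1 b4; omega) | omega
    · exact fun _ => g_xor _ _ _
    · intro _ H
      apply hg0
      have := congrArg (fun n => n ^^^ 2 ^ h) H
      simpa using this
    · exact fun _ => xor_pow_ne hg (Nat.two_pow_pos h)
    · exact fun _ => (pow_ne_g _ _).symm
  | yh i hi =>
    have hg := g_lt hh hi
    have e : xr {hp (g i), hp (2 ^ h), t i} = g i ^^^ 2 ^ h := by simp [val]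
    have h0 := xor_pow_ne hg (Nat.two_pow_pos h)
    refine noPP rfl (by omega) ?_ ?_ ?_ hG <;> rw [e] <;> clear hG e <;>
    rcases cases_LA p h (y ::ₘ R) with ⟨a1, a2, a3⟩ | ⟨a1, a2, a3⟩ | ⟨a1, a2, a3⟩ |
      ⟨a0, a1, a4, a2, a3⟩ <;>
    rcases cases_LA p h ({hp (g i), hp (2 ^ h), t i} + R) with ⟨b1, b2, b3⟩ | ⟨b1, b2, b3⟩ | ⟨b1, b2, b3⟩ |
      ⟨b0, b1, b4, b2, b3⟩ <;>
    simp only [a2, a3, b2, b3] <;> clear a2 a3 b2 b3 <;>
    simp only [c0, c1, c2, S_cons, S_add, S_single, Multiset.insert_eq_cons, fa, fb, fc, fd, fe,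
      fn, Nat.xor_zero, Nat.zero_add, Nat.add_zero, sm_cons, sm_single, val] at * <;>
    try first | (clear a0 a1 a4 b0 b1 b4; omega) | (clear b0 b1 b4; omega) | omega
    · intro _ H
      have h3 : g i = g ((1 + S fn R) % p) := by
        rw [Nat.xor_comm (g i), Nat.xor_assoc] at H
        have := congrArg (fun n => 2 ^ h ^^^ n) H
        simpa using this
      have h4 := g_inj h3
      have := succ_mod_cases (S fn R) p hp0
      rw [add_comm 1] at h4
      omega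
    · intro _ H
      exact xor_pow_ne hg (g_lt hh (Nat.mod_lt _ hp0)) (Nat.xor_eq_zero_iff.1 H)
    · intro _ H
      simp [g] at H

end Pool.Agent.H4.MisP
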