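import Pool.Agent.H4.MisPBridge

set_option autoImplicit false

namespace Pool.Agent.H4.MisP

inductive Tok : Type
  | hp (k : ℕ) | x (i : ℕ) | t (i : ℕ) | w | y

open Tok

def g (j : ℕ) : ℕ := 2 * j + 3

def X : ℕ → Multiset Tok
  | 0 => 0
  | i + 1 => {x i}

def esc (h v : ℕ) : Multiset Tok := {hp (2 ^ (h + 2)), hp (2 ^ (h + 2)), hp v}

inductive Op (p h : ℕ) : Tok → Multiset Tok → Prop
  | hp (k j : ℕ) : j < k → Op p h (hp k) {hp j}
  | xa (i : ℕ) : i ≤ h → Op p h (x i) (hp (2 ^ i) ::ₘ X i)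
  | xb (i v : ℕ) : 0 < v → v < 2 ^ (i + 1) → Op p h (x i) (esc h v)
  | tc (i j : ℕ) : i ≤ j → j + 1 < p → Op p h (t i) {hp (g j)}
  | td (i v : ℕ) : 0 < v → v < 2 ^ h → Op p h (t i) (esc h v)
  | we : Op p h w {hp (2 ^ (h + 1)), x h}
  | wf (v : ℕ) : 0 < v → v < 2 ^ h → (∀ j < p, v ≠ g j) → Op p h w (esc h v)
  | yg (j : ℕ) : j < p → Op p h y {hp (g j)}
  | yh (i : ℕ) : i < p → Op p h y {hp (g i), hp (2 ^ h), t i}

lemma op_finite (p h : ℕ) (a : Tok) : {o | Op p h a o}.Finite := by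
  cases a with
  | hp k =>
    refine ((Set.finite_Iio k).image fun j => ({hp j} : Multiset Tok)).subset ?_
    intro o ho
    cases ho with
    | hp _ j hj => exact ⟨j, hj, rfl⟩
  | x i =>
    refine (((Set.finite_Iio (2 ^ (i + 1))).image (esc h)).insert (hp (2 ^ i) ::ₘ X i)).subset ?_
    intro o ho
    cases ho with
    | xa => exact Or.inl rfl
    | xb _ v _ hv => exact Or.inr ⟨v, hv, rfl⟩
  | t i =>
    refine (((Set.finite_Iio (2 ^ h)).image (esc h)).union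
      ((Set.finite_Iio p).image fun j => ({hp (g j)} : Multiset Tok))).subset ?_
    intro o ho
    cases ho with
    | tc _ j _ hj => exact Or.inr ⟨j, by simp only [Set.mem_Iio]; omega, rfl⟩
    | td _ v _ hv => exact Or.inl ⟨v, hv, rfl⟩
  | w =>
    refine (((Set.finite_Iio (2 ^ h)).image (esc h)).insert {hp (2 ^ (h + 1)), x h}).subset ?_
    intro o ho
    cases ho with
    | we => exact Or.inl rfl
    | wf v _ hv => exact Or.inr ⟨v, hv, rfl⟩
  | y =>
    refine (((Set.finite_Iio p).image fun j => ({hp (g j)} : Multiset Tok)).union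
      ((Set.finite_Iio p).image fun j => ({hp (g j), hp (2 ^ h), t j} : Multiset Tok))).subset ?_
    intro o ho
    cases ho with
    | yg j hj => exact Or.inl ⟨j, hj, rfl⟩
    | yh j hj => exact Or.inr ⟨j, hj, rfl⟩

def rk : Tok → ℕ ×ₗ ℕ
  | hp k => toLex (0, k)
  | x i => toLex (1, i)
  | t _ => toLex (1, 0)
  | w => toLex (2, 0)
  | y => toLex (2, 0)

lemma op_rk (p h : ℕ) (a : Tok) (o : Multiset Tok) (ho : Op p h a o) : ∀ b ∈ o, rk b < rk a := by
  cases ho with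
  | xa i hi => cases i <;> simp [X, rk, Prod.Lex.lt_iff]
  | _ => simp [esc, rk, Prod.Lex.lt_iff, *]

def val : Tok → ℕ
  | hp k => k
  | _ => 0

def fa : Tok → ℕ
  | x _ => 1
  | _ => 0

def fb : Tok → ℕ
  | x i => i + 1
  | _ => 0

def fc : Tok → ℕ
  | w => 1
  | _ => 0

def fd : Tok → ℕ
  | t _ => 1
  | _ => 0

def fe : Tok → ℕ
  | t i => i
  | _ => 0

def fn : Tok → ℕ
  | y => 1
  | _ => 0

instance : LeftCommutative (fun (a : Tok) (n : ℕ) => val a ^^^ n) :=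
  ⟨fun a b n => by rw [← Nat.xor_assoc, Nat.xor_comm (val a), Nat.xor_assoc]⟩

def xr (G : Multiset Tok) : ℕ := G.foldr (fun (a : Tok) (n : ℕ) => val a ^^^ n) 0

@[simp] lemma xr_zero : xr 0 = 0 := rfl

@[simp] lemma xr_cons (a : Tok) (G : Multiset Tok) : xr (a ::ₘ G) = val a ^^^ xr G := by
  simp [xr]

@[simp] lemma xr_add (G H : Multiset Tok) : xr (G + H) = xr G ^^^ xr H := by
  induction G using Multiset.induction_on with
  | empty => simp
  | cons a G ih => simp [ih, Nat.xor_assoc]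

@[simp] lemma xr_single (a : Tok) : xr {a} = val a := by
  rw [← Multiset.cons_zero, xr_cons]; simp

def sm (L : ℕ) (G : Multiset Tok) : Prop := ∀ a ∈ G, val a < 2 ^ L

lemma sm_cons (L : ℕ) (a : Tok) (G : Multiset Tok) :
    sm L (a ::ₘ G) ↔ val a < 2 ^ L ∧ sm L G := by
  simp [sm]

lemma sm_add (L : ℕ) (G H : Multiset Tok) : sm L (G + H) ↔ sm L G ∧ sm L H := by
  simp [sm, or_imp, forall_and]

lemma sm_single (L : ℕ) (a : Tok) : sm L {a} ↔ val a < 2 ^ L := by simp [sm]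

lemma sm_mono {L M : ℕ} (h : L ≤ M) {G : Multiset Tok} (hG : sm L G) : sm M G :=
  fun a ha => (hG a ha).trans_le (Nat.pow_le_pow_right (by norm_num) h)

lemma xr_lt {L : ℕ} {G : Multiset Tok} (hG : sm L G) : xr G < 2 ^ L := by
  induction G using Multiset.induction_on with
  | empty => simp
  | cons a G ih =>
    rw [sm_cons] at hG
    rw [xr_cons]
    exact Nat.xor_lt_two_pow hG.1 (ih hG.2)

lemma heap_move (G : Multiset Tok) : ∀ A, A < xr G →
    ∃ a R k, G = a ::ₘ R ∧ k < val a ∧ k ^^^ xr R = A := by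
  induction G using Multiset.induction_on with
  | empty => intro A h; simp at h
  | cons a G ih =>
    intro A h
    rw [xr_cons] at h
    rcases Nat.lt_xor_cases h with h | h
    · exact ⟨a, G, _, rfl, h, by simp⟩
    · obtain ⟨b, R, k, rfl, h1, h2⟩ := ih _ h
      refine ⟨b, a ::ₘ R, k, Multiset.cons_swap _ _ _, h1, ?_⟩
      rw [xr_cons, Nat.xor_comm (val a), ← Nat.xor_assoc, h2]
      simp

lemma val_pos {a : Tok} {k : ℕ} (h : k < val a) : a = hp (val a) := by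
  cases a <;> simp_all [val]

def S (f : Tok → ℕ) (G : Multiset Tok) : ℕ := (G.map f).sum

@[simp] lemma S_zero (f : Tok → ℕ) : S f 0 = 0 := rfl

@[simp] lemma S_cons (f : Tok → ℕ) (a : Tok) (G : Multiset Tok) : S f (a ::ₘ G) = f a + S f G := by
  simp [S]

@[simp] lemma S_add (f : Tok → ℕ) (G H : Multiset Tok) : S f (G + H) = S f G + S f H := by
  simp [S]

@[simp] lemma S_single (f : Tok → ℕ) (a : Tok) : S f {a} = f a := by
  simp [S]

lemma S_ex (f : Tok → ℕ) (G : Multiset Tok) (h : S f G ≠ 0) : ∃ a R, G = a ::ₘ R ∧ f a ≠ 0 := by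
  induction G using Multiset.induction_on with
  | empty => simp at h
  | cons a G ih =>
    by_cases ha : f a = 0
    · obtain ⟨b, R, rfl, hb⟩ := ih (by simpa [ha] using h)
      exact ⟨b, a ::ₘ R, Multiset.cons_swap _ _ _, hb⟩
    · exact ⟨a, G, rfl, ha⟩

lemma S_ab (G : Multiset Tok) : S fa G ≤ S fb G ∧ (S fa G = 0 → S fb G = 0) := by
  induction G using Multiset.induction_on with
  | empty => simp
  | cons a G ih => cases a <;> simp [fa, fb] <;> omega

lemma S_de (G : Multiset Tok) : S fd G = 0 → S fe G = 0 := by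
  induction G using Multiset.induction_on with
  | empty => simp
  | cons a G ih => cases a <;> simp [fd, fe] <;> omega

def c0 (h : ℕ) (G : Multiset Tok) : Prop :=
  S fa G ≤ 1 ∧ S fb G ≤ h + 1 ∧ S fc G = 0 ∧ S fd G = 0 ∧ S fn G = 0

def c1 (G : Multiset Tok) : Prop := S fa G = 0 ∧ S fc G = 1 ∧ S fd G = 0

def c2 (p : ℕ) (G : Multiset Tok) : Prop :=
  S fa G = 0 ∧ S fc G = 1 ∧ S fd G = 1 ∧ S fe G ≤ S fn G % p ∧ S fn G % p + 1 < p

open Classical in
noncomputable def LL (h : ℕ) (G : Multiset Tok) : ℕ := if c0 h G then S fb G + 1 else h + 2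

open Classical in
noncomputable def AA (p h : ℕ) (G : Multiset Tok) : ℕ :=
  if c0 h G then 2 ^ S fb G else if c1 G then g (S fn G % p) else if c2 p G then 2 ^ h else 0

def P (p h : ℕ) (G : Multiset Tok) : Prop :=
  (sm (LL h G) G ∧ xr G = AA p h G) ∨ (¬ sm (LL h G) G ∧ xr G = 0)

lemma LL_le (h : ℕ) (G : Multiset Tok) : LL h G ≤ h + 2 := by
  unfold LL c0
  split_ifs <;> omega

lemma g_lt {p h j : ℕ} (hh : 2 * p + 1 < 2 ^ h) (hj : j < p) : g j < 2 ^ h := by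
  unfold g; omega

lemma AA_lt {p h : ℕ} (hp0 : 0 < p) (hh : 2 * p + 1 < 2 ^ h) (G : Multiset Tok) :
    AA p h G < 2 ^ LL h G := by
  unfold AA LL
  have := g_lt hh (Nat.mod_lt (S fn G) hp0)
  split_ifs
  · exact Nat.pow_lt_pow_right (by norm_num) (by omega)
  · exact this.trans (Nat.pow_lt_pow_right (by norm_num) (by omega))
  · exact Nat.pow_lt_pow_right (by norm_num) (by omega)
  · positivity

lemma cases_LA (p h : ℕ) (G : Multiset Tok) :
    (c0 h G ∧ LL h G = S fb G + 1 ∧ AA p h G = 2 ^ S fb G) ∨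
    (c1 G ∧ LL h G = h + 2 ∧ AA p h G = g (S fn G % p)) ∨
    (c2 p G ∧ LL h G = h + 2 ∧ AA p h G = 2 ^ h) ∨
    (¬ c0 h G ∧ ¬ c1 G ∧ ¬ c2 p G ∧ LL h G = h + 2 ∧ AA p h G = 0) := by
  unfold LL AA
  split_ifs <;> simp [*]

lemma noPP {p h : ℕ} {a : Tok} {R o : Multiset Tok} (ha : val a = 0)
    (h1 : xr o ≠ 0)
    (h2 : xr o = AA p h (o + R) → sm (LL h (o + R)) o → LL h (o + R) ≤ LL h (a ::ₘ R))
    (h3 : xr o = AA p h (a ::ₘ R) → LL h (a ::ₘ R) ≤ LL h (o + R) ∧ sm (LL h (o + R)) o)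
    (h4 : sm (LL h (o + R)) o → xr o ^^^ AA p h (a ::ₘ R) ≠ AA p h (o + R))
    (hG : P p h (a ::ₘ R)) : ¬ P p h (o + R) := by
  unfold P at hG ⊢
  simp only [sm_cons, sm_add, xr_cons, xr_add, ha, Nat.zero_xor, Nat.two_pow_pos, true_and]
    at hG ⊢
  rintro (⟨⟨k1, k2⟩, k3⟩ | ⟨k1, k3⟩)
  · rcases hG with ⟨k4, k5⟩ | ⟨k4, k5⟩
    · rw [k5] at k3
      exact h4 k1 k3
    · rw [k5, Nat.xor_zero] at k3
      exact k4 (sm_mono (h2 k3 k1) k2)
  · rcases hG with ⟨k4, k5⟩ | ⟨k4, k5⟩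
    · rw [k5, Nat.xor_eq_zero_iff] at k3
      exact k1 ⟨(h3 k3).2, sm_mono (h3 k3).1 k4⟩
    · rw [k5, Nat.xor_zero] at k3
      exact h1 k3

lemma xr_esc (h v : ℕ) : xr (esc h v) = v := by
  simp [esc, val]

lemma sm_esc (h v : ℕ) (G : Multiset Tok) : ¬ sm (LL h G) (esc h v) := by
  intro H
  have h1 := H (hp (2 ^ (h + 2))) (by simp [esc])
  have h2 := Nat.pow_le_pow_right (show 0 < 2 by norm_num) (LL_le h G)
  simp only [val] at h1
  omega

lemma noPP_esc {p h v : ℕ} {a : Tok} {R : Multiset Tok} (ha : val a = 0) (h1 : 0 < v)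
    (h3 : v ≠ AA p h (a ::ₘ R)) (hG : P p h (a ::ₘ R)) : ¬ P p h (esc h v + R) := by
  refine noPP ha ?_ (fun _ H => absurd H (sm_esc _ _ _)) ?_ (fun H => absurd H (sm_esc _ _ _)) hG
  · rw [xr_esc]; omega
  · rw [xr_esc]; intro H; exact absurd H h3

lemma P_esc {p h : ℕ} {R : Multiset Tok} : P p h (esc h (xr R) + R) := by
  refine Or.inr ⟨fun H => sm_esc _ _ _ ((sm_add _ _ _).1 H).1, ?_⟩
  rw [xr_add, xr_esc, Nat.xor_self]

end Pool.Agent.H4.MisP
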