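import Mathlib

set_option autoImplicit false

namespace Pool.Agent.H4.Misere

variable {k : ℕ}

def rd (c p x : ℕ) : ℕ := if x < c then x else c + (x - c) % p

lemma rd_lt (c p x : ℕ) (hp : 0 < p) : rd c p x < c + p := by
  unfold rd
  split_ifs
  · omega
  · have := Nat.mod_lt (x - c) hp
    omega

lemma rd_add_mul (c p x m : ℕ) (h : c ≤ x) : rd c p (x + p * m) = rd c p x := by
  unfold rd
  rw [if_neg (by omega), if_neg (by omega), show x + p * m - c = x - c + p * m by omega,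
    Nat.add_mul_mod_self_left]

lemma rd_spec (c p x : ℕ) : rd c p x = x ∨ (c ≤ rd c p x ∧ ∃ m, x = rd c p x + p * m) := by
  unfold rd
  split_ifs with h
  · exact Or.inl rfl
  · refine Or.inr ⟨by omega, (x - c) / p, ?_⟩
    have := Nat.mod_add_div (x - c) p
    omega

lemma rd_rd (c p x s t : ℕ) : rd c p (rd (c + s) p x - s + t) = rd c p (x - s + t) := by
  rcases rd_spec (c + s) p x with h | ⟨h, m, hm⟩
  · rw [h]
  · rw [← rd_add_mul c p _ m (by omega)]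
    congr 1
    omega

lemma rd_pos (c p x : ℕ) : 0 < rd (c + 1) p x ↔ 0 < x := by
  unfold rd
  split_ifs <;> omega

def step (G : Fin k → ℕ) (i : Fin k) (o : Fin k → ℕ) : Fin k → ℕ :=
  fun j => G j - (if j = i then 1 else 0) + o j

def mv (opt : Fin k → List (Fin k → ℕ)) (K G : Fin k → ℕ) : Prop :=
  ∃ i, 0 < G i ∧ ∃ o ∈ opt i, K = step G i o

def R (c p : Fin k → ℕ) (G : Fin k → ℕ) : Fin k → ℕ := fun i => rd (c i) (p i) (G i)

lemma R_step (c p G : Fin k → ℕ) (i : Fin k) (o : Fin k → ℕ) :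
    R c p (step (R (fun j => c j + 1) p G) i o) = R c p (step G i o) := by
  funext j
  simp only [R, step]
  split_ifs
  · exact rd_rd _ _ _ _ _
  · rcases rd_spec (c j + 1) (p j) (G j) with h | ⟨h, m, hm⟩
    · rw [h]
    · rw [← rd_add_mul (c j) (p j) _ m (by omega)]
      congr 1
      omega

lemma R_R (c p G : Fin k → ℕ) : R c p (R (fun j => c j + 1) p G) = R c p G := by
  funext j
  simp only [R]
  rcases rd_spec (c j + 1) (p j) (G j) with h | ⟨h, m, hm⟩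
  · rw [h]
  · rw [← rd_add_mul (c j) (p j) _ m (by omega), ← hm]

lemma R_add (c p G X : Fin k → ℕ) : R c p (G + R c p X) = R c p (G + X) := by
  funext j
  have := rd_rd (c j) (p j) (X j) 0 (G j)
  simpa [R, add_comm] using this

lemma R_add' (c p G X : Fin k → ℕ) : R c p (R c p G + X) = R c p (G + X) := by
  rw [add_comm, R_add, add_comm]

lemma R_lt (c p G : Fin k → ℕ) (hp : ∀ i, 0 < p i) (i : Fin k) : R c p G i < c i + p i :=
  rd_lt _ _ _ (hp i)

lemma mv_finite (opt : Fin k → List (Fin k → ℕ)) (G : Fin k → ℕ) : {K | mv opt K G}.Finite := by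
  refine (Set.finite_iUnion fun i => ((opt i).finite_toSet.image (step G i))).subset ?_
  rintro K ⟨i, -, o, ho, rfl⟩
  exact Set.mem_iUnion.2 ⟨i, o, ho, rfl⟩

lemma mv_wf (opt : Fin k → List (Fin k → ℕ)) (w : Fin k → ℕ)
    (h : ∀ i, ∀ o ∈ opt i, ∑ j, w j * o j < w i) : WellFounded (mv opt) := by
  refine Subrelation.wf (r := InvImage (· < ·) fun G : Fin k → ℕ => ∑ j, w j * G j) ?_
    (InvImage.wf _ wellFounded_lt)
  rintro K G ⟨i, hi, o, ho, rfl⟩
  have h1 := h i o ho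
  have h2 : ∑ j, w j * step G i o j + w i = ∑ j, w j * G j + ∑ j, w j * o j := by
    have : w i = ∑ j, w j * (if j = i then 1 else 0) := by simp
    rw [this, ← Finset.sum_add_distrib, ← Finset.sum_add_distrib]
    refine Finset.sum_congr rfl fun j _ => ?_
    rw [← mul_add, ← mul_add]
    congr 1
    unfold step
    split_ifs with hj
    · subst hj; omega
    · omega
  change ∑ j, w j * step G i o j < ∑ j, w j * G j
  omega

lemma mv_add (opt : Fin k → List (Fin k → ℕ)) (G H K : Fin k → ℕ) :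
    mv opt K (G + H) ↔ ((∃ G', mv opt G' G ∧ K = G' + H) ∨ ∃ H', mv opt H' H ∧ K = G + H') := by
  have e1 : ∀ (G H : Fin k → ℕ) i o, 0 < G i → step (G + H) i o = step G i o + H := by
    intro G H i o hi
    funext j
    simp only [step, Pi.add_apply]
    split_ifs with hj
    · subst hj; omega
    · omega
  constructor
  · rintro ⟨i, hi, o, ho, rfl⟩
    by_cases h : 0 < G i
    · exact Or.inl ⟨_, ⟨i, h, o, ho, rfl⟩, e1 G H i o h⟩
    · have h' : 0 < H i := by simp only [Pi.add_apply] at hi; omega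
      exact Or.inr ⟨_, ⟨i, h', o, ho, rfl⟩, by rw [add_comm G H, e1 H G i o h', add_comm]⟩
  · rintro (⟨_, ⟨i, hi, o, ho, rfl⟩, rfl⟩ | ⟨_, ⟨i, hi, o, ho, rfl⟩, rfl⟩)
    · exact ⟨i, by simp only [Pi.add_apply]; omega, o, ho, (e1 G H i o hi).symm⟩
    · exact ⟨i, by simp only [Pi.add_apply]; omega, o, ho, by
        rw [add_comm G H, e1 H G i o hi, add_comm]⟩

lemma outcome (opt : Fin k → List (Fin k → ℕ)) (c p : Fin k → ℕ) (hp : ∀ i, 0 < p i)
    (hne : ∀ i, opt i ≠ []) (tbl : (Fin k → ℕ) → Bool)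
    (h : ∀ G : Fin k → ℕ, (∀ i, G i < c i + 1 + p i) → (tbl (R c p G) = true ↔
      ((∀ i, ¬ 0 < G i) ∨ ∃ i, 0 < G i ∧ ∃ o ∈ opt i, tbl (R c p (step G i o)) = false)))
    (G : Fin k → ℕ) : tbl (R c p G) = true ↔
      ((∀ K, ¬ mv opt K G) ∨ ∃ K, mv opt K G ∧ ¬ tbl (R c p K) = true) := by
  have h1 := h (R (fun j => c j + 1) p G) (R_lt _ p G hp)
  simp only [R_R, R_step] at h1
  simp only [R, rd_pos] at h1 ⊢
  rw [h1]
  refine or_congr ⟨?_, ?_⟩ ⟨?_, ?_⟩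
  · rintro h2 K ⟨i, hi, -⟩
    exact h2 i hi
  · intro h2 i hi
    obtain ⟨o, ho⟩ := List.exists_mem_of_ne_nil _ (hne i)
    exact h2 _ ⟨i, hi, o, ho, rfl⟩
  · rintro ⟨i, hi, o, ho, h2⟩
    exact ⟨_, ⟨i, hi, o, ho, rfl⟩, by simpa using h2⟩
  · rintro ⟨_, ⟨i, hi, o, ho, rfl⟩, h2⟩
    exact ⟨i, hi, o, ho, by simpa using h2⟩

lemma grundy (opt : Fin k → List (Fin k → ℕ)) (c p : Fin k → ℕ) (hp : ∀ i, 0 < p i)
    (g : (Fin k → ℕ) → ℕ)
    (h : ∀ G : Fin k → ℕ, (∀ i, G i < c i + 1 + p i) →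
      (∀ i, 0 < G i → ∀ o ∈ opt i, g (R c p (step G i o)) ≠ g (R c p G)) ∧
      ∀ m < g (R c p G), ∃ i, 0 < G i ∧ ∃ o ∈ opt i, g (R c p (step G i o)) = m)
    (G : Fin k → ℕ) : (∀ K, mv opt K G → g (R c p K) ≠ g (R c p G)) ∧
      ∀ m, m < g (R c p G) → ∃ K, mv opt K G ∧ g (R c p K) = m := by
  have h1 := h (R (fun j => c j + 1) p G) (R_lt _ p G hp)
  simp only [R_R, R_step] at h1
  simp only [R, rd_pos] at h1 ⊢
  constructor
  · rintro _ ⟨i, hi, o, ho, rfl⟩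
    exact h1.1 i hi o ho
  · intro m hm
    obtain ⟨i, hi, o, ho, h2⟩ := h1.2 m hm
    exact ⟨_, ⟨i, hi, o, ho, rfl⟩, h2⟩

lemma box4 (B : Fin 4 → ℕ) (S : (Fin 4 → ℕ) → Prop)
    (h : ∀ a < B 0, ∀ b < B 1, ∀ c < B 2, ∀ d < B 3, S ![a, b, c, d]) (G : Fin 4 → ℕ)
    (hG : ∀ i, G i < B i) : S G := by
  have : G = ![G 0, G 1, G 2, G 3] := by funext i; fin_cases i <;> rfl
  rw [this]
  exact h _ (hG 0) _ (hG 1) _ (hG 2) _ (hG 3)

lemma box5 (B : Fin 5 → ℕ) (S : (Fin 5 → ℕ) → Prop)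
    (h : ∀ a < B 0, ∀ b < B 1, ∀ c < B 2, ∀ d < B 3, ∀ e < B 4, S ![a, b, c, d, e])
    (G : Fin 5 → ℕ) (hG : ∀ i, G i < B i) : S G := by
  have : G = ![G 0, G 1, G 2, G 3, G 4] := by funext i; fin_cases i <;> rfl
  rw [this]
  exact h _ (hG 0) _ (hG 1) _ (hG 2) _ (hG 3) _ (hG 4)

end Pool.Agent.H4.Misere
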