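import Mathlib

set_option autoImplicit false
set_option linter.unusedSectionVars false
set_option warn.classDefReducibility false

namespace Pool.Agent.H4.Ncb

open Finset
open scoped ComplexConjugate ComplexOrder

/-- the bounded complex functions on `G` -/
def BF (G : Type) : StarSubalgebra ℂ (G → ℂ) where
  carrier := {f | ∃ C : ℝ, ∀ x, ‖f x‖ ≤ C}
  mul_mem' := fun ⟨C, h⟩ ⟨D, k⟩ => ⟨C * D, fun x => (norm_mul_le _ _).trans
    (mul_le_mul (h x) (k x) (norm_nonneg _) ((norm_nonneg _).trans (h x)))⟩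
  add_mem' := fun ⟨C, h⟩ ⟨D, k⟩ => ⟨C + D, fun x => (norm_add_le _ _).trans (add_le_add (h x) (k x))⟩
  algebraMap_mem' c := ⟨‖c‖, fun _ => le_rfl⟩
  star_mem' := fun ⟨C, h⟩ => ⟨C, fun x => by simpa using h x⟩

variable {G : Type} [AddCommGroup G]

/-- translation by `h` -/
def T (h : G) : BF G →ₐ[ℂ] BF G where
  toFun f := ⟨fun x => f.1 (x + h), f.2.imp fun _ k _ => k _⟩
  map_one' := rfl
  map_mul' _ _ := rfl
  map_zero' := rfl
  map_add' _ _ := rfl
  commutes' _ := rfl

/-- translation invariant means on the bounded functions -/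
structure IsMean (m : BF G →ₗ[ℂ] ℂ) : Prop where
  pos : ∀ f : BF G, (∀ x, 0 ≤ f.1 x) → 0 ≤ m f
  one : m 1 = 1
  inv : ∀ h f, m (T h f) = m f

open Classical in
/-- indicator functions -/
noncomputable def ind (A : Set G) : BF G :=
  ⟨fun x => if x ∈ A then 1 else 0, 1, fun x => by beta_reduce; split_ifs <;> simp⟩

/-- upper Banach density -/
noncomputable def dstar (A : Set G) : ℝ := sSup {r | ∃ m, IsMean m ∧ r = (m (ind A)).re}

/-- Bohr sets -/
def Bohr {k : ℕ} (χ : Fin k → AddChar G Circle) (η : ℝ) : Set G := {g | ∀ j, ‖((χ j g : Circle) : ℂ) - 1‖ < η}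

@[simp] lemma T_app (h x : G) (f : BF G) : (T h f).1 x = f.1 (x + h) := rfl
lemma T_T (h k : G) (f : BF G) : T h (T k f) = T (h + k) f := Subtype.ext <| funext fun x => by simp [add_assoc]
@[simp] lemma T_zero (f : BF G) : T 0 f = f := Subtype.ext <| funext fun x => by simp
lemma T_star (h : G) (f : BF G) : T h (star f) = star (T h f) := rfl
@[simp] lemma star_app (f : BF G) (x : G) : (star f).1 x = conj (f.1 x) := rfl
@[simp] lemma mul_app (f g : BF G) (x : G) : (f * g).1 x = f.1 x * g.1 x := rfl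
@[simp] lemma add_app (f g : BF G) (x : G) : (f + g).1 x = f.1 x + g.1 x := rfl
@[simp] lemma sub_app (f g : BF G) (x : G) : (f - g).1 x = f.1 x - g.1 x := rfl
@[simp] lemma one_app (x : G) : (1 : BF G).1 x = 1 := rfl
@[simp] lemma zero_app (x : G) : (0 : BF G).1 x = 0 := rfl
@[simp] lemma smul_app (c : ℂ) (f : BF G) (x : G) : (c • f).1 x = c * f.1 x := rfl
lemma ext' {f g : BF G} (h : ∀ x, f.1 x = g.1 x) : f = g := Subtype.ext (funext h)

def ev (x : G) : BF G →+* ℂ where
  toFun f := f.1 x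
  map_one' := rfl
  map_mul' _ _ := rfl
  map_zero' := rfl
  map_add' _ _ := rfl

def reF (f : BF G) : BF G := ⟨fun x => (f.1 x).re, f.2.imp fun _ k x => by
  simpa using (Complex.abs_re_le_norm _).trans (k x)⟩

def B1 (f : BF G) : Prop := ∀ x, ‖f.1 x‖ ≤ 1

variable {m : BF G →ₗ[ℂ] ℂ}

lemma IsMean.real (hm : IsMean m) (f : BF G) : (m (reF f)).im = 0 := by
  obtain ⟨C, h⟩ := f.2
  have := hm.pos (reF f + (C : ℂ) • 1) fun x => by
    have := (abs_le.1 ((Complex.abs_re_le_norm _).trans (h x))).1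
    simp only [add_app, smul_app, one_app, mul_one, reF]
    exact_mod_cast (by linarith : 0 ≤ (f.1 x).re + C)
  simpa [hm.one] using (Complex.le_def.1 this).2.symm

lemma decomp (f : BF G) : f = reF f + Complex.I • reF ((-Complex.I) • f) :=
  ext' fun x => by apply Complex.ext <;> simp [reF]

lemma IsMean.re (hm : IsMean m) (f : BF G) : (m f).re = (m (reF f)).re := by
  conv_lhs => rw [decomp f]
  simp [hm.real]

lemma IsMean.mono (hm : IsMean m) {f g : BF G} (h : ∀ x, (f.1 x).re ≤ (g.1 x).re) : (m f).re ≤ (m g).re := by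
  have := hm.pos (reF (g - f)) fun x => by
    simp only [reF, sub_app]; exact_mod_cast (by simpa using h x : 0 ≤ (g.1 x - f.1 x).re)
  have := (Complex.le_def.1 this).1
  rw [← hm.re] at this
  simpa using this

lemma IsMean.star (hm : IsMean m) (f : BF G) : m (star f) = conj (m f) := by
  have a : reF (Star.star f) = reF f := ext' fun x => by simp [reF]
  have b : reF ((-Complex.I) • Star.star f) = (-1 : ℂ) • reF ((-Complex.I) • f) := ext' fun x => by simp [reF]
  rw [decomp (Star.star f), a, b]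
  conv_rhs => rw [decomp f]
  apply Complex.ext <;> simp [hm.real]

lemma IsMean.const (hm : IsMean m) (c : ℂ) : m (c • 1) = c := by simp [hm.one]

lemma IsMean.le (hm : IsMean m) {f : BF G} {C : ℝ} (h : ∀ x, ‖f.1 x‖ ≤ C) : ‖m f‖ ≤ C := by
  obtain ⟨θ, h1, h2⟩ := Complex.exists_norm_eq_mul_self (m f)
  have := hm.mono (f := θ • f) (g := (C : ℂ) • 1) fun x => by
    simpa using (Complex.re_le_norm _).trans (show ‖θ * f.1 x‖ ≤ C by simpa [h1] using h x)
  rw [hm.const, map_smul, smul_eq_mul, ← h2] at this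
  simpa using this

/-- the squared seminorm -/
noncomputable def N (m : BF G →ₗ[ℂ] ℂ) (f : BF G) : ℝ := (m (f * star f)).re

lemma sq_app (f : BF G) (x : G) : ((f * star f).1 x).re = ‖f.1 x‖ ^ 2 := by
  simp [Complex.mul_conj, Complex.normSq_eq_norm_sq, ← Complex.ofReal_pow]

lemma IsMean.N0 (hm : IsMean m) (f : BF G) : 0 ≤ N m f := by
  simpa [N] using hm.mono (f := 0) (g := f * Star.star f) fun x => by rw [sq_app]; simp

lemma IsMean.N1 (hm : IsMean m) {f : BF G} {C : ℝ} (h : ∀ x, ‖f.1 x‖ ≤ C) : N m f ≤ C ^ 2 := by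
  have := hm.mono (f := f * Star.star f) (g := ((C ^ 2 : ℝ) : ℂ) • 1) fun x => by
    rw [sq_app]; simpa [← Complex.ofReal_pow] using pow_le_pow_left₀ (norm_nonneg _) (h x) 2
  rwa [hm.const] at this

lemma IsMean.Nmono (hm : IsMean m) {f g : BF G} (h : ∀ x, ‖f.1 x‖ ≤ ‖g.1 x‖) : N m f ≤ N m g :=
  hm.mono fun x => by rw [sq_app, sq_app]; gcongr; exact h x

lemma IsMean.NT (hm : IsMean m) (h : G) (f : BF G) : N m (T h f) = N m f := by
  rw [N, ← T_star, ← map_mul, hm.inv, N]

lemma IsMean.Nadd (hm : IsMean m) (f g : BF G) : N m (f + g) = N m f + N m g + 2 * (m (g * Star.star f)).re := by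
  have : m (f * Star.star g) = conj (m (g * Star.star f)) := by rw [← hm.star]; simp [mul_comm]
  simp only [N, star_add, mul_add, add_mul, map_add, Complex.add_re, this, Complex.conj_re]; ring

lemma Nsmul (c : ℂ) (f : BF G) : N m (c • f) = ‖c‖ ^ 2 * N m f := by
  simp only [N, star_smul, smul_mul_smul_comm, map_smul, smul_eq_mul, RCLike.star_def, Complex.mul_conj,
    Complex.normSq_eq_norm_sq, Complex.re_ofReal_mul]

lemma IsMean.Npar (hm : IsMean m) (f g : BF G) : N m (f + g) + N m (f - g) = 2 * N m f + 2 * N m g := by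
  rw [sub_eq_add_neg, hm.Nadd, hm.Nadd, ← neg_one_smul ℂ g, Nsmul, smul_mul_assoc, map_smul]; simp; ring

noncomputable def IsMean.core (hm : IsMean m) : PreInnerProductSpace.Core ℂ (BF G) where
  inner f g := m (g * Star.star f)
  conj_inner_symm f g := by rw [← hm.star]; simp [mul_comm]
  re_inner_nonneg := hm.N0
  add_left f g h := by simp [mul_add]
  smul_left f g c := by simp

lemma IsMean.cs (hm : IsMean m) (f g : BF G) : ‖m (f * Star.star g)‖ ^ 2 ≤ N m f * N m g := by
  have := @InnerProductSpace.Core.inner_mul_inner_self_le ℂ _ _ _ _ hm.core f g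
  have e : m (g * Star.star f) = conj (m (f * Star.star g)) := by rw [← hm.star]; simp [mul_comm]
  change ‖m (g * Star.star f)‖ * ‖m (f * Star.star g)‖ ≤ N m f * N m g at this
  rwa [e, Complex.norm_conj, ← sq] at this

lemma IsMean.cs1 (hm : IsMean m) (f : BF G) {g : BF G} (h : B1 g) : ‖m (f * g)‖ ^ 2 ≤ N m f := by
  have := hm.cs f (Star.star g)
  rw [star_star] at this
  have b := hm.N1 (f := Star.star g) (C := 1) fun x => by simpa using h x
  nlinarith [hm.N0 f]

/-- characters -/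
structure IsCh (χ : G → ℂ) : Prop where
  mul : ∀ x y, χ (x + y) = χ x * χ y
  nrm : ∀ x, ‖χ x‖ = 1

def IsCh.bf {χ : G → ℂ} (h : IsCh χ) : BF G := ⟨χ, 1, fun x => (h.nrm x).le⟩

lemma IsCh.zero {χ : G → ℂ} (h : IsCh χ) : χ 0 = 1 := by
  have a := h.mul 0 0
  have b : χ 0 ≠ 0 := norm_ne_zero_iff.1 (by rw [h.nrm]; exact one_ne_zero)
  rw [add_zero] at a
  exact (mul_eq_left₀ b).1 a.symm

lemma IsCh.mc {χ : G → ℂ} (h : IsCh χ) (x : G) : χ x * conj (χ x) = 1 := by
  rw [Complex.mul_conj, Complex.normSq_eq_norm_sq, h.nrm]; simp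

lemma IsCh.sub {χ : G → ℂ} (h : IsCh χ) (x y : G) : χ (x - y) = χ x * conj (χ y) := by
  have := h.mul (x - y) y
  rw [sub_add_cancel] at this
  rw [this, mul_assoc, h.mc, mul_one]

open Classical in
/-- Fourier coefficients -/
noncomputable def co (m : BF G →ₗ[ℂ] ℂ) (f : BF G) (χ : G → ℂ) : ℂ :=
  if h : IsCh χ then m (f * star h.bf) else 0

lemma co_eq {χ : G → ℂ} (h : IsCh χ) (f : BF G) : co m f χ = m (f * star h.bf) := dif_pos h

lemma IsMean.coT (hm : IsMean m) {χ : G → ℂ} (h : IsCh χ) (f : BF G) (a : G) :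
    co m (T a f) χ = χ a * co m f χ := by
  rw [co_eq h, co_eq h, ← hm.inv a (f * _), ← smul_eq_mul (χ a), ← map_smul]
  refine congrArg m (ext' fun x => ?_)
  simp only [mul_app, T_app, star_app, smul_app, IsCh.bf, h.mul, map_mul]
  linear_combination (-f.1 (x + a) * conj (χ x)) * h.mc a

lemma IsMean.bessel (hm : IsMean m) (f : BF G) (S : Finset (G → ℂ)) :
    ∑ χ ∈ S, ‖co m f χ‖ ^ 2 ≤ N m f := by
  classical
  letI := @InnerProductSpace.Core.toSeminormedAddCommGroup ℂ _ _ _ _ hm.core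
  letI := InnerProductSpace.ofCore hm.core
  have o : Orthonormal ℂ fun χ : {χ : G → ℂ // IsCh χ} => χ.2.bf := by
    rw [orthonormal_iff_ite]
    intro χ ψ
    change m (ψ.2.bf * Star.star χ.2.bf) = _
    split_ifs with e
    · rw [e, ← hm.one]; exact congrArg m (ext' fun x => ψ.2.mc x)
    obtain ⟨a, ha⟩ := Function.ne_iff.1 (Subtype.coe_ne_coe.2 e)
    have := hm.coT χ.2 ψ.2.bf a
    rw [show T a ψ.2.bf = ψ.1 a • ψ.2.bf from ext' fun x => by simp [IsCh.bf, ψ.2.mul, mul_comm],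
      co_eq χ.2, co_eq χ.2, smul_mul_assoc, map_smul, smul_eq_mul] at this
    exact (mul_eq_mul_right_iff.1 this).resolve_left (Ne.symm ha)
  have := o.sum_inner_products_le (s := S.subtype IsCh) f
  rw [← inner_self_eq_norm_sq (𝕜 := ℂ)] at this
  refine le_of_eq_of_le ?_ this
  rw [← sum_filter_of_ne (p := IsCh) fun χ _ k => by by_contra c; simp [co, c] at k,
    ← sum_subtype_eq_sum_filter]
  exact sum_congr rfl fun χ _ => by rw [co_eq χ.2]; rfl

lemma IsMean.spec (hm : IsMean m) {f : BF G} (hf : B1 f) {ε : ℝ} (e : 0 < ε) :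
    ∃ S : Finset (G → ℂ), (S.card : ℝ) ≤ 1 / ε ^ 2 ∧ (∀ χ ∈ S, IsCh χ) ∧ ∀ χ ∉ S, ‖co m f χ‖ ≤ ε := by
  have a : ∀ S : Finset (G → ℂ), (∀ χ ∈ S, ε < ‖co m f χ‖) → (S.card : ℝ) ≤ 1 / ε ^ 2 := fun S h => by
    rw [le_div_iff₀ (by positivity), ← nsmul_eq_mul]
    refine (card_nsmul_le_sum S _ _ fun χ k => ?_).trans ((hm.bessel f S).trans (by simpa using hm.N1 hf))
    exact pow_le_pow_left₀ e.le (h χ k).le 2
  have b : {χ | ε < ‖co m f χ‖}.Finite := by
    by_contra c
    obtain ⟨S, h, k⟩ := Set.Infinite.exists_subset_card_eq c (⌈1 / ε ^ 2⌉₊ + 1)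
    have := a S fun χ x => h x
    rw [k] at this
    push_cast at this
    linarith [Nat.le_ceil (1 / ε ^ 2)]
  refine ⟨b.toFinset, a _ fun χ k => by simpa using k, fun χ k => ?_, fun χ k => by simpa using k⟩
  by_contra c
  simp [co, c] at k
  linarith

/-- finite families, used for averaging -/
structure Fam (L : Type) where
  ι : Type
  [ft : Fintype ι]
  [ne : Nonempty ι]
  a : ι → L

attribute [instance] Fam.ft Fam.ne

namespace Fam
variable {L L' E E' : Type} [AddCommGroup E] [Module ℝ E] [AddCommGroup E'] [Module ℝ E'] (F : Fam L)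

noncomputable def av (φ : L → E) : E := ((Fintype.card F.ι : ℝ)⁻¹) • ∑ i, φ (F.a i)
def map (g : L → L') : Fam L' := ⟨F.ι, fun i => g (F.a i)⟩
def conv [Add L] (F' : Fam L) : Fam L := ⟨F.ι × F'.ι, fun i => F.a i.1 + F'.a i.2⟩

lemma av_map (g : L → L') (φ : L' → E) : (F.map g).av φ = F.av fun a => φ (g a) := rfl

lemma av_hom {H : Type} [FunLike H E E'] [AddMonoidHomClass H E E'] (g : H) (φ : L → E) :
    g (F.av φ) = F.av fun a => g (φ a) := by
  rw [av, map_inv_natCast_smul g ℝ ℝ, map_sum, av]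

lemma av_conv [Add L] (F' : Fam L) (φ : L → E) : (F.conv F').av φ = F.av fun a => F'.av fun b => φ (a + b) := by
  simp only [av, ← smul_sum, smul_smul, ← mul_inv, ← Nat.cast_mul, ← Fintype.card_prod]
  exact congrArg _ (Fintype.sum_prod_type _)

lemma av_comm (F' : Fam L') (φ : L → L' → E) :
    (F.av fun a => F'.av fun b => φ a b) = F'.av fun b => F.av fun a => φ a b := by
  simp only [av, ← smul_sum, smul_smul, mul_comm]
  exact congrArg _ sum_comm

lemma av_const (c : E) : (F.av fun _ => c) = c := by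
  rw [av, sum_const, ← Nat.cast_smul_eq_nsmul ℝ, smul_smul, card_univ, inv_mul_cancel₀ (by simp), one_smul]

lemma av_le {φ ψ : L → ℝ} (h : ∀ a, φ a ≤ ψ a) : F.av φ ≤ F.av ψ :=
  smul_le_smul_of_nonneg_left (sum_le_sum fun _ _ => h _) (by positivity)

lemma av_le' {φ : L → ℝ} {c : ℝ} (h : ∀ a, φ a ≤ c) : F.av φ ≤ c := (F.av_le h).trans_eq (F.av_const c)

lemma av_add (φ ψ : L → E) : (F.av fun a => φ a + ψ a) = F.av φ + F.av ψ := by
  simp only [av, sum_add_distrib, smul_add]

lemma av_sub (φ ψ : L → E) : (F.av fun a => φ a - ψ a) = F.av φ - F.av ψ := by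
  simp only [av, sum_sub_distrib, smul_sub]

lemma norm_av (φ : L → ℂ) : ‖F.av φ‖ ≤ F.av fun a => ‖φ a‖ := by
  rw [av, norm_smul, av, Real.norm_of_nonneg (by positivity)]
  exact mul_le_mul_of_nonneg_left (norm_sum_le _ _) (by positivity)

lemma sq_av (φ : L → ℝ) : F.av φ ^ 2 ≤ F.av fun a => φ a ^ 2 := by
  have := sq_sum_le_card_mul_sum_sq (s := univ) (f := fun i => φ (F.a i))
  have c : (0 : ℝ) < Fintype.card F.ι := by exact_mod_cast Fintype.card_pos
  simp only [av, smul_eq_mul, mul_pow, card_univ] at *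
  rw [sq _⁻¹, mul_assoc]
  exact mul_le_mul_of_nonneg_left ((inv_mul_le_iff₀ c).2 this) (by positivity)

lemma nsq_av (φ : L → ℂ) : ‖F.av φ‖ ^ 2 ≤ F.av fun a => ‖φ a‖ ^ 2 :=
  (pow_le_pow_left₀ (norm_nonneg _) (F.norm_av φ) 2).trans (F.sq_av _)

lemma av_app (φ : L → BF G) (x : G) : (F.av φ).1 x = F.av fun a => (φ a).1 x := F.av_hom (ev x) φ

lemma av_re (φ : L → ℂ) : (F.av φ).re = F.av fun a => (φ a).re := F.av_hom Complex.reAddGroupHom φ

lemma mul_av {R : Type} [Ring R] [Module ℝ R] (y : R) (φ : L → R) : y * F.av φ = F.av fun a => y * φ a :=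
  F.av_hom (AddMonoidHom.mulLeft y) φ

lemma av_mul {R : Type} [Ring R] [Module ℝ R] (y : R) (φ : L → R) : F.av φ * y = F.av fun a => φ a * y :=
  F.av_hom (AddMonoidHom.mulRight y) φ

lemma star_av (φ : L → BF G) : star (F.av φ) = F.av fun a => star (φ a) := F.av_hom starAddEquiv φ

lemma N_av (φ : L → BF G) : N m (F.av φ) = F.av fun a => F.av fun b => (m (φ a * star (φ b))).re := by
  simp only [N, star_av, av_mul, mul_av, F.av_hom m, av_re]
  exact F.av_comm F _

lemma N_le (hm : IsMean m) (φ : L → BF G) : N m (F.av φ) ≤ F.av fun a => N m (φ a) := by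
  simp only [N, ← av_re, ← F.av_hom m]
  refine hm.mono fun x => ?_
  simp only [sq_app, av_app, av_re]
  exact F.nsq_av _

lemma B1_av {φ : L → BF G} (h : ∀ a, B1 (φ a)) : B1 (F.av φ) := fun x => by
  rw [av_app]; exact (F.norm_av _).trans (F.av_le' fun a => h a x)

end Fam

end Pool.Agent.H4.Ncb
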