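import Pool.Agent.H4.NcbA

set_option autoImplicit false
set_option linter.unusedSectionVars false

namespace Pool.Agent.H4.Ncb

open Finset Topology
open scoped ComplexConjugate ComplexOrder

lemma bauer {X : Type} {s : Set (X → ℂ)} (hs : IsCompact s) (n : s.Nonempty) (l : (X → ℂ) → ℝ)
    (hl : Continuous l) (af : ∀ (a b : ℝ) x y, l (a • x + b • y) = a * l x + b * l y) :
    ∃ e ∈ s, (∀ x ∈ s, l x ≤ l e) ∧ ∀ x ∈ s, ∀ y ∈ s, x + y = e + e → x = e := by
  obtain ⟨z, hz, k⟩ := hs.exists_isMaxOn n hl.continuousOn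
  obtain ⟨e, he⟩ := (hs.inter_right (isClosed_eq hl (continuous_const (y := l z)))).extremePoints_nonempty ⟨z, hz, rfl⟩
  obtain ⟨⟨e1, e2⟩, e3⟩ := mem_extremePoints_iff_left.1 he
  have e2 : l e = l z := e2
  refine ⟨e, e1, fun x h => e2 ▸ k h, fun x hx y hy h => ?_⟩
  have a : (1 / 2 : ℝ) • x + (1 / 2 : ℝ) • y = e := by rw [← smul_add, h, smul_add, ← add_smul]; norm_num
  have b := af (1 / 2) (1 / 2) x y
  rw [a] at b
  have c : l x ≤ l z := k hx
  have d : l y ≤ l z := k hy
  exact e3 x ⟨hx, show l x = l z by linarith⟩ y ⟨hy, show l y = l z by linarith⟩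
    ⟨1 / 2, 1 / 2, by norm_num, by norm_num, by norm_num, a⟩

variable {G : Type} [AddCommGroup G] {m : BF G →ₗ[ℂ] ℂ}

structure Erg (m : BF G →ₗ[ℂ] ℂ) : Prop extends IsMean m where
  erg : ∀ V W c : BF G, (∀ h, c.1 h = m (V * T h W)) → m c = m V * m W

noncomputable def IsMean.cor (hm : IsMean m) (V : BF G) : BF G →ₗ[ℂ] BF G where
  toFun W := ⟨fun h => m (V * T h W), by
    obtain ⟨C, h⟩ := V.2
    obtain ⟨D, k⟩ := W.2
    exact ⟨C * D, fun x => hm.le fun y => (norm_mul_le _ _).trans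
      (mul_le_mul (h y) (k _) (norm_nonneg _) ((norm_nonneg _).trans (h y)))⟩⟩
  map_add' _ _ := ext' fun x => by simp [mul_add]
  map_smul' _ _ := ext' fun x => by simp

lemma IsMean.cor_app (hm : IsMean m) (V W : BF G) (h : G) : (hm.cor V W).1 h = m (V * T h W) := rfl

lemma IsMean.corMean (hm : IsMean m) {P : BF G} (h : ∀ x, 0 ≤ P.1 x) (k : m P = 1) : IsMean (m ∘ₗ hm.cor P) where
  pos f hf := hm.pos _ fun _ => hm.pos _ fun _ => mul_nonneg (h _) (hf _)
  one := by
    rw [LinearMap.comp_apply, show hm.cor P 1 = 1 from ext' fun x => by simp [hm.cor_app, k], hm.one]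
  inv a f := by
    rw [LinearMap.comp_apply, show hm.cor P (T a f) = T a (hm.cor P f) from ext' fun x => by
      simp [hm.cor_app, T_T], hm.inv, LinearMap.comp_apply]

lemma IsMean.exErg (hm : IsMean m) (f : BF G) : ∃ e, Erg e ∧ (m f).re ≤ (e f).re := by
  let S : Set (BF G → ℂ) := {p | (∀ f g, p (f + g) = p f + p g) ∧ (∀ (c : ℂ) f, p (c • f) = c * p f) ∧
    (∀ f : BF G, (∀ x, 0 ≤ f.1 x) → 0 ≤ p f) ∧ p 1 = 1 ∧ ∀ h f, p (T h f) = p f}
  have s1 : ∀ m : BF G →ₗ[ℂ] ℂ, IsMean m → ⇑m ∈ S := fun m h => ⟨m.map_add, m.map_smul, h.pos, h.one, h.inv⟩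
  have s2 : ∀ p ∈ S, ∃ m : BF G →ₗ[ℂ] ℂ, IsMean m ∧ ⇑m = p := fun p h =>
    ⟨⟨⟨p, h.1⟩, h.2.1⟩, ⟨h.2.2.1, h.2.2.2.1, h.2.2.2.2⟩, rfl⟩
  have c : IsCompact S := by
    refine (isCompact_univ_pi fun f : BF G => isCompact_closedBall (0 : ℂ) f.2.choose).of_isClosed_subset ?_
      fun p h f _ => ?_
    · simp only [S, Set.ofPred_and, Set.ofPred_forall]
      refine (isClosed_iInter fun _ => isClosed_iInter fun _ => isClosed_eq (by fun_prop) (by fun_prop)).inter
        ((isClosed_iInter fun _ => isClosed_iInter fun _ => isClosed_eq (by fun_prop) (by fun_prop)).inter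
        ((isClosed_iInter fun _ => isClosed_iInter fun _ => isClosed_le (by fun_prop) (by fun_prop)).inter
        ((isClosed_eq (by fun_prop) (by fun_prop)).inter
        (isClosed_iInter fun _ => isClosed_iInter fun _ => isClosed_eq (by fun_prop) (by fun_prop)))))
    · obtain ⟨m, k, rfl⟩ := s2 p h
      simpa using k.le f.2.choose_spec
  obtain ⟨p, h1, h2, h3⟩ := bauer c ⟨_, s1 m hm⟩ (fun p => (p f).re) (by fun_prop) fun a b x y => by simp
  obtain ⟨e, he, rfl⟩ := s2 p h1
  refine ⟨e, ⟨he, fun V W c k => ?_⟩, h2 _ (s1 m hm)⟩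
  rw [show c = he.cor V W from ext' k]
  have r : ∀ V : BF G, (∀ x, ‖V.1 x‖ ≤ 1 / 2) → e (he.cor (reF V) W) = e (reF V) * e W := fun V hV => by
    have b : ∀ x, |(V.1 x).re| ≤ 1 / 2 := fun x => (Complex.abs_re_le_norm _).trans (hV x)
    have b2 : |(e (reF V)).re| ≤ 1 / 2 := (Complex.abs_re_le_norm _).trans (he.le fun x => by simpa [reF] using b x)
    have a : ∀ s : ℝ, |s| ≤ 1 → IsMean (e ∘ₗ he.cor (1 + (s : ℂ) • (reF V - e (reF V) • 1))) := fun s hs =>
      he.corMean (fun x => by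
        have : |s * ((V.1 x).re - (e (reF V)).re)| ≤ 1 := by
          rw [abs_mul]
          exact mul_le_one₀ hs (abs_nonneg _) ((abs_sub _ _).trans (by linarith [b x]))
        have q := he.real V
        rw [Complex.le_def]
        constructor
        · simp only [add_app, one_app, smul_app, sub_app, mul_one, Complex.add_re, Complex.re_ofReal_mul,
            Complex.sub_re, Complex.zero_re, Complex.one_re]
          simpa [reF] using neg_le_iff_add_nonneg'.1 (abs_le.1 this).1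
        · simp only [add_app, one_app, smul_app, sub_app, mul_one, Complex.add_im, Complex.im_ofReal_mul,
            Complex.sub_im, q]
          simp [reF]) (by simp [he.one])
    have q : ∀ (s : ℝ) W, (e ∘ₗ he.cor (1 + (s : ℂ) • (reF V - e (reF V) • 1))) W =
        e W + s * (e (he.cor (reF V) W) - e (reF V) * e W) := fun s W => by
      have : he.cor (1 + (s : ℂ) • (reF V - e (reF V) • 1)) W =
          e W • 1 + (s : ℂ) • (he.cor (reF V) W - (e (reF V) * e W) • 1) := ext' fun x => by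
        simp [he.cor_app, add_mul, sub_mul, he.inv]
      rw [LinearMap.comp_apply, this]; simp [he.one]
    have := congrFun (h3 _ (s1 _ (a 1 (by simp))) _ (s1 _ (a (-1) (by simp))) (funext fun W => by
      rw [Pi.add_apply, q, q]; simp; ring)) W
    rw [q] at this
    simpa [sub_eq_zero] using this
  have l : ∀ (c : ℂ) (V V' : BF G), he.cor (V + c • V') W = he.cor V W + c • he.cor V' W := fun c V V' =>
    ext' fun x => by simp [he.cor_app, add_mul]
  have r2 : ∀ V : BF G, e (he.cor (reF V) W) = e (reF V) * e W := fun V => by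
    obtain ⟨C, hC⟩ := V.2
    have c0 : 0 < 2 * (|C| + 1) := by positivity
    have := r (((2 * (|C| + 1))⁻¹ : ℝ) • V) fun x => by
      change ‖((2 * (|C| + 1))⁻¹ : ℝ) • V.1 x‖ ≤ _
      rw [norm_smul, Real.norm_of_nonneg (by positivity), inv_mul_le_iff₀ c0]
      linarith [hC x, le_abs_self C]
    have q : reF V = 0 + ((2 * (|C| + 1) : ℝ) : ℂ) • reF (((2 * (|C| + 1))⁻¹ : ℝ) • V) := ext' fun x => by
      change _ = 0 + _ * ((((2 * (|C| + 1))⁻¹ : ℝ) • V.1 x).re : ℂ)
      rw [Complex.smul_re, smul_eq_mul, ← Complex.ofReal_mul, mul_inv_cancel_left₀ c0.ne', zero_add]; rfl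
    rw [q, l, show he.cor 0 W = 0 from ext' fun x => by simp [he.cor_app]]
    simp only [zero_add, map_smul, this, smul_eq_mul, mul_assoc]
  rw [decomp V, l]
  simp only [map_add, map_smul, r2, smul_eq_mul]; ring

variable {K : AddSubgroup G}

def Sp (K : AddSubgroup G) (f : BF G) : Prop := ∀ x, x ∉ K → f.1 x = 0

lemma Sp.T {f : BF G} (h : Sp K f) {a : G} (k : a ∈ K) : Sp K (T a f) := fun x hx =>
  h _ fun c => hx (by simpa using K.sub_mem c k)

noncomputable def A (F : Fam K) (W : BF G) : BF G := F.av fun a => T a.1 W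

lemma Erg.greedy (hm : Erg m) (r : 0 < (m (ind K)).re) {W : BF G} (s : Sp K W) (z : m W = 0) (n : ℕ) :
    ∃ a : Fin n → K, N m (∑ i, T (a i).1 W) ≤ n * (N m W + 2) := by
  induction n with
  | zero => exact ⟨default, by simp [N]⟩
  | succ n ih =>
    obtain ⟨a, h⟩ := ih
    have : ∃ b : K, (m (star (∑ i, T (a i).1 W) * T b.1 W)).re ≤ 1 := by
      by_contra! c
      have := hm.mono (f := ind K) (g := hm.cor (star (∑ i, T (a i).1 W)) W) fun x => by
        by_cases k : x ∈ K
        · simpa [ind, k, hm.cor_app] using (c ⟨x, k⟩).le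
        · rw [hm.cor_app, show star (∑ i, T (a i).1 W) * T x W = 0 from ext' fun y => ?_]
          · simp [ind, k]
          by_cases q : y ∈ K
          · simp [s (y + x) fun c => k (by simpa using K.sub_mem c q)]
          · have := map_sum (ev y) (fun i => T (a i).1 W) univ
            simp only [mul_app, star_app, show (∑ i, T (a i).1 W).1 y = _ from this,
              show ∀ i, ev y (T (a i).1 W) = 0 from fun i => s.T (a i).2 y q]
            simp
      rw [hm.erg _ W _ (hm.cor_app _ W), z] at this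
      simp at this
      linarith
    obtain ⟨b, k⟩ := this
    refine ⟨Fin.cons b a, ?_⟩
    rw [Fin.sum_univ_succ, add_comm, hm.Nadd, hm.NT, mul_comm (T _ _)]
    simp only [Fin.cons_zero, Fin.cons_succ]
    push_cast
    linarith

lemma Erg.av (hm : Erg m) {ρ τ : ℝ} (r0 : 0 < ρ) (r : ρ ≤ (m (ind K)).re) (t : 0 < τ) {W : BF G} (s : Sp K W) :
    ∃ F : Fam K, N m (A F W) ≤ 2 * ‖m W‖ ^ 2 / ρ + τ := by
  set q := (m (ind (K : Set G))).re with hq
  have q0 : 0 < q := by linarith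
  have e : m (ind K) = q := Complex.ext rfl (by
    rw [show ind (K : Set G) = reF (ind K) from ext' fun x => by by_cases k : x ∈ K <;> simp [ind, reF, k]]
    simpa using hm.real _)
  obtain ⟨n, hn⟩ := exists_nat_gt (2 * (N m (W - (m W / q) • ind K) + 2) / τ)
  obtain ⟨a, h⟩ := hm.greedy q0 (W := W - (m W / q) • ind K) (fun x k => by simp [s x k, ind, k])
    (by rw [map_sub, map_smul, e, smul_eq_mul, div_mul_cancel₀ _ (by exact_mod_cast q0.ne'), sub_self]) (n + 1)
  refine ⟨⟨Fin (n + 1), a⟩, ?_⟩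
  have a1 : A ⟨Fin (n + 1), a⟩ W = (((n + 1 : ℝ)⁻¹ : ℝ) : ℂ) • (∑ i, T (a i).1 (W - (m W / q) • ind K)) +
      (m W / q) • ind K := by
    have : ∀ b : K, T b.1 W = T b.1 (W - (m W / q) • ind K) + (m W / q) • ind K := fun b => ext' fun x => by
      have : x + b.1 ∈ (K : Set G) ↔ x ∈ (K : Set G) := K.add_mem_cancel_right b.2
      by_cases k : x ∈ (K : Set G)
      · simp only [add_app, sub_app, smul_app, T_app, ind, if_pos k, if_pos (this.2 k)]; ring
      · simp only [add_app, sub_app, smul_app, T_app, ind, if_neg k, if_neg (mt this.1 k)]; ring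
    rw [A, funext this, Fam.av_add, Fam.av_const]
    congr 1
    exact ext' fun x => by simp [Fam.av]
  have a2 := hm.Npar ((((n + 1 : ℝ)⁻¹ : ℝ) : ℂ) • (∑ i, T (a i).1 (W - (m W / q) • ind K))) ((m W / q) • ind K)
  have a3 : N m (ind K) = q := by
    rw [N, show ind (K : Set G) * star (ind K) = ind K from ext' fun x => by by_cases k : x ∈ K <;> simp [ind, k]]
  rw [← a1, Nsmul, Nsmul, a3, Complex.norm_real, Real.norm_of_nonneg (by positivity), norm_div, Complex.norm_real,
    Real.norm_of_nonneg q0.le] at a2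
  have a4 : (‖m W‖ / q) ^ 2 * q ≤ ‖m W‖ ^ 2 / ρ := by
    rw [div_pow, sq q, div_mul_eq_mul_div, mul_div_mul_right _ _ q0.ne']; gcongr
  have a5 : (n + 1 : ℝ)⁻¹ ^ 2 * N m (∑ i, T (a i).1 (W - (m W / q) • ind K)) ≤ τ / 2 := by
    rw [div_lt_iff₀ t] at hn
    push_cast at h
    rw [inv_pow, inv_mul_le_iff₀ (by positivity)]
    nlinarith [mul_pos t (show (0 : ℝ) < n + 1 by positivity)]
  have := hm.N0 ((((n + 1 : ℝ)⁻¹ : ℝ) : ℂ) • (∑ i, T (a i).1 (W - (m W / q) • ind K)) - (m W / q) • ind K)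
  rw [mul_div_assoc]
  linarith

lemma IsMean.Al (hm : IsMean m) (F F' : Fam K) (W : BF G) : N m (A (F.conv F') W) ≤ N m (A F' W) := by
  simp only [A, Fam.av_conv, AddSubgroup.coe_add, ← T_T, ← F'.av_hom (T _)]
  exact (F.N_le hm _).trans (F.av_le' fun a => (hm.NT _ _).le)

lemma IsMean.Ar (hm : IsMean m) (F F' : Fam K) (W : BF G) : N m (A (F.conv F') W) ≤ N m (A F W) := by
  refine le_of_eq_of_le ?_ (hm.Al F' F W)
  simp only [A, Fam.av_conv]
  rw [F.av_comm]; simp only [add_comm]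

lemma Fam.all {L ι : Type} [AddMonoid L] (p : ι → Fam L → Prop) (l : ∀ i (F F' : Fam L), p i F → p i (F.conv F'))
    (r : ∀ i (F F' : Fam L), p i F' → p i (F.conv F')) (S : Finset ι) (h : ∀ i ∈ S, ∃ F, p i F) : ∃ F, ∀ i ∈ S, p i F := by
  classical
  induction S using Finset.induction_on with
  | empty => exact ⟨⟨Unit, 0⟩, by simp⟩
  | insert j S _ ih =>
    obtain ⟨F, k⟩ := ih fun i hi => h i (mem_insert_of_mem hi)
    obtain ⟨F', k'⟩ := h j (mem_insert_self _ _)
    exact ⟨F'.conv F, forall_mem_insert _ _ _ |>.2 ⟨l _ _ _ k', fun i hi => r _ _ _ (k i hi)⟩⟩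

def PD (G : Type) [AddCommGroup G] : Set (G → ℂ) := {d | d 0 = 1 ∧ (∀ x, d (-x) = conj (d x)) ∧
  ∀ (ι : Type) (_ : Fintype ι) (a : ι → G) (c : ι → ℂ), 0 ≤ (∑ i, ∑ j, c i * conj (c j) * d (a i - a j)).re}

lemma PD.le {d : G → ℂ} (h : d ∈ PD G) (x : G) : ‖d x‖ ≤ 1 := by
  have := h.2.2 (Fin 2) inferInstance ![x, 0] ![-conj (d x), 1]
  simp [Fin.sum_univ_two, h.1, h.2.1] at this
  rw [← sq_le_one_iff₀ (norm_nonneg _), ← Complex.normSq_eq_norm_sq, Complex.normSq_apply]
  linarith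

lemma boch {d0 : G → ℂ} (h0 : d0 ∈ PD G) (l : (G → ℂ) → ℝ) (hl : Continuous l)
    (af : ∀ (a b : ℝ) x y, l (a • x + b • y) = a * l x + b * l y) : ∃ χ, IsCh χ ∧ l d0 ≤ l χ := by
  have c : IsCompact (PD G) := by
    refine (isCompact_univ_pi fun _ : G => isCompact_closedBall (0 : ℂ) 1).of_isClosed_subset ?_
      fun p h f _ => by simpa using PD.le h f
    simp only [PD, Set.ofPred_and, Set.ofPred_forall]
    exact (isClosed_eq (by fun_prop) (by fun_prop)).inter
      ((isClosed_iInter fun _ => isClosed_eq (by fun_prop) (by fun_prop)).inter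
      (isClosed_iInter fun _ => isClosed_iInter fun _ => isClosed_iInter fun _ => isClosed_iInter fun _ =>
        isClosed_le (by fun_prop) (by fun_prop)))
  obtain ⟨d, h1, h2, h3⟩ := bauer c ⟨_, h0⟩ l hl af
  have k : ∀ x g, d (x + g) = d x * d g := fun x g => by
    have a : ∀ θ : ℂ, θ * conj θ = 1 → ‖θ‖ = 1 → (fun h => d h + (θ * d (h + g) + conj θ * d (h - g) -
        2 * (θ * d g).re * d h) / 4) ∈ PD G := fun θ t1 t2 => by
      refine ⟨?_, fun x => ?_, fun ι _ a c => ?_⟩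
      · simp only [zero_add, zero_sub, h1.1, h1.2.1, ← map_mul, Complex.add_conj]; push_cast; ring
      · beta_reduce
        rw [show -x + g = -(x - g) by abel, show -x - g = -(x + g) by abel]
        simp only [h1.2.1, map_add, map_div₀, map_sub, map_mul, Complex.conj_conj, Complex.conj_ofReal, map_ofNat]
        ring
      have b1 := h1.2.2 ι ‹_› a c
      have b2 := h1.2.2 (ι ⊕ ι) inferInstance (Sum.elim a fun i => a i + g) (Sum.elim c fun i => θ * c i)
      have b3 : (θ * d g).re ≤ 1 := (Complex.re_le_norm _).trans (by simpa [t2] using PD.le h1 g)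
      have b4 := add_nonneg (mul_nonneg (show 0 ≤ (1 - (θ * d g).re) / 2 by linarith) b1)
        (mul_nonneg (show (0 : ℝ) ≤ 1 / 4 by norm_num) b2)
      rw [← Complex.re_ofReal_mul, ← Complex.re_ofReal_mul, ← Complex.add_re] at b4
      refine b4.trans_eq (congrArg _ ?_)
      simp only [Fintype.sum_sum_type, Sum.elim_inl, Sum.elim_inr, mul_sum, mul_add, ← sum_add_distrib]
      refine sum_congr rfl fun i _ => sum_congr rfl fun j _ => ?_
      rw [add_sub_add_right_eq_sub, show a i + g - a j = a i - a j + g by abel,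
        show a i - (a j + g) = a i - a j - g by abel, map_mul]
      push_cast
      linear_combination (c i * conj (c j) * d (a i - a j) / 4) * t1
    have b : ∀ θ : ℂ, θ * conj θ = 1 → ‖θ‖ = 1 → θ * d (x + g) + conj θ * d (x - g) =
        2 * (θ * d g).re * d x := fun θ t1 t2 => by
      have := congrFun (h3 _ (a θ t1 t2) _ (a (-θ) (by simpa using t1) (by simpa using t2)) (funext fun h => by
        simp; ring)) x
      linear_combination 4 * this
    have b1 := b 1 (by simp) (by simp)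
    have b2 := b Complex.I (by simp) (by simp)
    simp at b1 b2
    have := Complex.re_add_im (d g)
    linear_combination b1 / 2 - Complex.I * b2 / 2 + d x * this +
      (d (x + g) - d (x - g)) / 2 * Complex.I_mul_I
  refine ⟨d, ⟨k, fun x => ?_⟩, h2 _ h0⟩
  have := k x (-x)
  rw [add_neg_cancel, h1.1, h1.2.1, Complex.mul_conj, Complex.normSq_eq_norm_sq] at this
  exact (sq_eq_sq₀ (norm_nonneg _) zero_le_one).1 (by rw [one_pow]; exact_mod_cast this.symm)

lemma IsMean.gam (hm : IsMean m) (g : BF G) (a b : G) : m (T a g * Star.star (T b g)) = m (T (a - b) g * Star.star g) := by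
  rw [← hm.inv b (T (a - b) g * _), map_mul (T b), T_T, T_star, add_sub_cancel]

lemma IsMean.phi (hm : IsMean m) (g : BF G) {χ : G → ℂ} (h : IsCh χ) (F : Fam K) :
    N m (A F (g * Star.star h.bf)) = F.av fun a => F.av fun b =>
      (m (T (a.1 - b.1) g * Star.star g) * conj (χ (a.1 - b.1))).re := by
  rw [A, Fam.N_av]
  congr 1; ext a; congr 1; ext b
  rw [← hm.gam, mul_comm (m _), ← smul_eq_mul (conj _), ← map_smul]
  refine congrArg (fun f => (m f).re) (ext' fun x => ?_)
  simp only [mul_app, T_app, star_app, smul_app, IsCh.bf, h.mul, map_mul, h.sub, Complex.conj_conj]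
  linear_combination (g.1 (x + a) * conj (g.1 (x + b)) * conj (χ a) * χ b) * h.mc x

lemma Erg.box (hm : Erg m) {ρ ε : ℝ} (r0 : 0 < ρ) (r : ρ ≤ (m (ind K)).re) (e : 0 < ε) {g : BF G} (s : Sp K g)
    (b : B1 g) (h : ∀ χ, ‖co m g χ‖ ≤ ε) : ∃ α β : Fam K,
    (α.av fun a => α.av fun a' => N m (A β (T a.1 g * star (T a'.1 g)))) ≤ 7 * ε ^ 2 / ρ ^ 2 := by
  have c : IsCompact {χ : G → ℂ | IsCh χ} := by
    refine (isCompact_univ_pi fun _ : G => isCompact_closedBall (0 : ℂ) 1).of_isClosed_subset ?_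
      fun p h f _ => by simpa using (h.nrm f).le
    rw [show {χ : G → ℂ | IsCh χ} = {χ | ∀ x y, χ (x + y) = χ x * χ y} ∩ {χ | ∀ x, ‖χ x‖ = 1} from
      Set.ext fun _ => ⟨fun h => ⟨h.1, h.2⟩, fun h => ⟨h.1, h.2⟩⟩]
    simp only [Set.ofPred_forall]
    exact (isClosed_iInter fun _ => isClosed_iInter fun _ => isClosed_eq (by fun_prop) (by fun_prop)).inter
      (isClosed_iInter fun _ => isClosed_eq (by fun_prop) (by fun_prop))
  let Φ : Fam K → (G → ℂ) → ℝ := fun F χ => F.av fun a => F.av fun b =>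
      (m (T (a.1 - b.1) g * Star.star g) * conj (χ (a.1 - b.1))).re
  have cΦ : ∀ F, Continuous (Φ F) := fun F => by simp only [Φ, Fam.av]; fun_prop
  obtain ⟨α, hα⟩ : ∃ F : Fam K, ∀ χ ∈ {χ : G → ℂ | IsCh χ}, ∀ k : IsCh χ,
      N m (A F (g * star k.bf)) < 3 * ε ^ 2 / ρ := by
    refine c.induction_on (p := fun S => ∃ F : Fam K, ∀ χ ∈ S, ∀ k : IsCh χ,
      N m (A F (g * star k.bf)) < 3 * ε ^ 2 / ρ) ⟨⟨Unit, 0⟩, by simp⟩
      (fun _ _ x ⟨F, y⟩ => ⟨F, fun χ z => y χ (x z)⟩)
      (fun _ _ ⟨F, x⟩ ⟨F', y⟩ => ⟨F.conv F', fun χ z k => z.elim (fun z => (hm.Ar _ _ _).trans_lt (x χ z k))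
        fun z => (hm.Al _ _ _).trans_lt (y χ z k)⟩) fun χ k => ?_
    obtain ⟨F, hF⟩ := hm.av r0 r (show 0 < ε ^ 2 / ρ / 2 by positivity) (W := g * star (IsCh.bf k))
      fun x y => by simp [s x y]
    refine ⟨{ψ | Φ F ψ < 3 * ε ^ 2 / ρ}, mem_nhdsWithin_of_mem_nhds ((isOpen_lt (cΦ F) continuous_const).mem_nhds
      (((hm.phi g k F).symm.trans_le hF).trans_lt ?_)), F, fun ψ x y => (hm.phi g y F).trans_lt x⟩
    have : 2 * ‖co m g χ‖ ^ 2 / ρ ≤ 2 * ε ^ 2 / ρ := by gcongr; exact h χ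
    have q : 0 < ε ^ 2 / ρ := by positivity
    rw [← co_eq k]
    simp only [mul_div_assoc] at *
    linarith
  have n1 : N m g ≤ 1 := by simpa using hm.N1 b
  have h0 : (fun x => m (T x g * star g) + (1 - N m g : ℝ)) ∈ PD G := by
    refine ⟨?_, fun x => ?_, fun ι _ a c => ?_⟩
    · have := (Complex.le_def.1 (hm.pos (g * star g) fun x => by simp [Complex.mul_conj, Complex.normSq_nonneg])).2
      apply Complex.ext <;> simp [N, ← this]
    · beta_reduce
      rw [map_add, ← hm.star, Complex.conj_ofReal, ← zero_sub, ← hm.gam]; simp [mul_comm, T_star]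
    · have a1 := hm.N0 (∑ i, c i • T (a i) g)
      have a2 := mul_nonneg (sub_nonneg.2 n1) (Complex.normSq_nonneg (∑ i, c i))
      refine (add_nonneg a1 a2).trans_eq ?_
      rw [← Complex.ofReal_re (_ * _), N, ← Complex.add_re, Complex.ofReal_mul, ← Complex.mul_conj]
      refine congrArg _ ?_
      rw [star_sum, sum_mul_sum, map_sum (starRingEnd ℂ), sum_mul_sum]
      simp only [map_sum, mul_sum, ← sum_add_distrib, star_smul, smul_mul_smul_comm, map_smul,
        hm.gam, smul_eq_mul, RCLike.star_def]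
      exact sum_congr rfl fun i _ => sum_congr rfl fun j _ => by ring
  obtain ⟨χ, k, hχ⟩ := boch h0
    (Φ α) (cΦ α) fun a b x y => by
      simp only [Φ, ← smul_eq_mul, Fam.av, smul_sum, ← sum_add_distrib]
      refine sum_congr rfl fun i _ => sum_congr rfl fun j _ => ?_
      simp; ring
  · have q1 : (α.av fun a => α.av fun b => ‖m (T (a.1 - b.1) g * star g)‖ ^ 2) ≤ 3 * ε ^ 2 / ρ := by
      refine le_trans ?_ (hχ.trans ((hm.phi g k α).symm.trans_lt (hα χ k k)).le)
      have := mul_nonneg (sub_nonneg.2 n1) (hm.N0 (A α g))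
      rw [A, Fam.N_av] at this
      simp only [Φ, map_add, mul_add, Complex.add_re, Fam.av_add, Complex.mul_conj, Complex.normSq_eq_norm_sq,
        Complex.ofReal_re, Complex.conj_ofReal, Complex.re_mul_ofReal, ← Fam.av_mul]
      simp only [hm.gam] at this
      linarith
    obtain ⟨β, hβ⟩ := Fam.all (fun (i : α.ι × α.ι) (F : Fam K) => N m (A F (T (α.a i.1).1 g * star (T (α.a i.2).1 g))) ≤
      2 * ‖m (T (α.a i.1).1 g * star (T (α.a i.2).1 g))‖ ^ 2 / ρ + ε ^ 2 / ρ ^ 2)
      (fun i F F' x => (hm.Ar _ _ _).trans x) (fun i F F' x => (hm.Al _ _ _).trans x) univ fun i _ =>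
        hm.av r0 r (by positivity) fun x y => by rw [mul_app, s.T (α.a i.1).2 x y, zero_mul]
    refine ⟨α, β, le_trans (b := α.av fun a => α.av fun b =>
      2 / ρ * ‖m (T (a.1 - b.1) g * star g)‖ ^ 2 + ε ^ 2 / ρ ^ 2) ?_ ?_⟩
    · refine smul_le_smul_of_nonneg_left (sum_le_sum fun i _ => smul_le_smul_of_nonneg_left
        (sum_le_sum fun j _ => (hβ (i, j) (mem_univ _)).trans_eq ?_) (by positivity)) (by positivity)
      rw [hm.gam]; ring
    · simp only [Fam.av_add, Fam.av_const, ← Fam.mul_av]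
      refine (add_le_add_left (mul_le_mul_of_nonneg_left q1 (by positivity)) _).trans_eq ?_
      field_simp; ring

lemma B1.mul {f g : BF G} (h : B1 f) (k : B1 g) : B1 (f * g) := fun x => by
  rw [mul_app, norm_mul]; exact mul_le_one₀ (h x) (norm_nonneg _) (k x)
lemma B1.star {f : BF G} (h : B1 f) : B1 (star f) := fun x => by simpa using h x
lemma B1.T {f : BF G} (h : B1 f) (a : G) : B1 (T a f) := fun _ => h _

lemma IsMean.cs2 (hm : IsMean m) (α β : Fam K) (g : BF G) (u v : K → BF G) (hu : ∀ a, B1 (u a)) (hv : ∀ a, B1 (v a)) :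
    ‖α.av fun a => β.av fun b => m (T (a.1 + b.1) g * u a * v b)‖ ^ 4 ≤
      α.av fun a => α.av fun a' => N m (A β (T a.1 g * Star.star (T a'.1 g))) := by
  have a1 : ‖α.av fun a => β.av fun b => m (T (a.1 + b.1) g * u a * v b)‖ ^ 2 ≤ α.av fun a => α.av fun a' =>
      ‖m (A β (T a.1 g * Star.star (T a'.1 g)) * (u a * Star.star (u a')))‖ := by
    rw [α.av_comm]
    simp only [← α.av_hom m, ← Fam.av_mul]
    refine (β.nsq_av _).trans ((β.av_le fun b => hm.cs1 _ (hv b)).trans ?_)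
    simp only [Fam.N_av]
    rw [β.av_comm]
    refine α.av_le fun a => ?_
    rw [β.av_comm]
    refine α.av_le fun a' => le_of_eq_of_le ?_ (Complex.re_le_norm _)
    simp only [A, Fam.av_mul, β.av_hom m, Fam.av_re]
    congr 1; ext b
    refine congrArg (fun f => (m f).re) (ext' fun x => ?_)
    simp only [mul_app, T_app, star_app, map_mul, add_assoc, add_comm b.1]; ring
  rw [show 4 = 2 * 2 from rfl, pow_mul]
  exact (pow_le_pow_left₀ (sq_nonneg _) a1 2).trans ((α.sq_av _).trans (α.av_le fun a =>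
    (α.sq_av _).trans (α.av_le fun a' => hm.cs1 _ ((hu a).mul (hu a').star))))

lemma Erg.uni (hm : Erg m) {ρ ε : ℝ} (r0 : 0 < ρ) (r : ρ ≤ (m (ind K)).re) (e : 0 < ε) {g : BF G} (s : Sp K g)
    (b : B1 g) (h : ∀ χ, ‖co m g χ‖ ≤ ε ^ 2 * ρ / 3) : ∃ α β : Fam K, ∀ (t : G) (u v : K → BF G),
    (∀ a, B1 (u a)) → (∀ a, B1 (v a)) →
      ‖α.av fun a => β.av fun b => m (T (t + (a.1 + b.1)) g * u a * v b)‖ ≤ ε := by
  obtain ⟨α, β, k⟩ := hm.box r0 r (by positivity) s b h
  refine ⟨α, β, fun t u v hu hv => ?_⟩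
  have := (hm.cs2 α β g (fun a => T (-t) (u a)) (fun a => T (-t) (v a)) (fun a => (hu a).T _)
    fun a => (hv a).T _).trans k
  have q : ∀ a b : K, m (T (a.1 + b.1) g * T (-t) (u a) * T (-t) (v b)) = m (T (t + (a.1 + b.1)) g * u a * v b) :=
    fun a b => by rw [← hm.inv t]; simp [T_T]
  simp only [q] at this
  refine le_of_pow_le_pow_left₀ (n := 4) (by norm_num) e.le (this.trans ?_)
  rw [div_le_iff₀ (by positivity)]
  nlinarith [show 0 < ε ^ 4 * ρ ^ 2 by positivity]

end Pool.Agent.H4.Ncb
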