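import Pool.Agent.H4.NcbB

set_option autoImplicit false
set_option linter.unusedSectionVars false

namespace Pool.Agent.H4.Ncb

open Finset Topology Function
open scoped ComplexConjugate ComplexOrder

variable {G : Type} [AddCommGroup G] {m : BF G →ₗ[ℂ] ℂ} {K : AddSubgroup G}

def R01 (K : AddSubgroup G) (h : BF G) (r : G → ℝ) : Prop :=
  (∀ x, h.1 x = r x) ∧ (∀ x, 0 ≤ r x ∧ r x ≤ 1) ∧ ∀ x, x ∉ K → r x = 0

def Lip (K : AddSubgroup G) (k : ℕ) (r : G → ℝ) (S : Finset (G → ℂ)) : Prop := S.card ≤ k ∧ (∀ χ ∈ S, IsCh χ) ∧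
  ∀ η : ℝ, 0 ≤ η → ∀ x ∈ K, (∀ χ ∈ S, ‖χ x - 1‖ ≤ η) → ∀ z, |r (z + x) - r z| ≤ k * η

def Cl (K : AddSubgroup G) (k : ℕ) (h : BF G) : Prop := ∃ r S, R01 K h r ∧ Lip K k r S

lemma R01.b {h : BF G} {r : G → ℝ} (a : R01 K h r) : B1 h := fun x => by
  rw [a.1, Complex.norm_real, Real.norm_of_nonneg (a.2.1 x).1]; exact (a.2.1 x).2

lemma R01.d {h h' : BF G} {r r' : G → ℝ} (a : R01 K h r) (b : R01 K h' r') (s t : G) : B1 (T s h - T t h') :=
  fun x => by
  rw [sub_app, T_app, T_app, a.1, b.1, ← Complex.ofReal_sub, Complex.norm_real, Real.norm_eq_abs, abs_le]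
  constructor <;> linarith [a.2.1 (x + s), b.2.1 (x + t)]

lemma R01.sp {h : BF G} {r : G → ℝ} (a : R01 K h r) : Sp K h := fun x k => by simp [a.1, a.2.2 x k]

lemma Cl.zero (k : ℕ) : Cl K k 0 :=
  ⟨0, ∅, ⟨by simp, by simp, by simp⟩, by simp, by simp, fun η h _ _ _ _ => by simp; positivity⟩

lemma Cl.mono {k k' : ℕ} {h : BF G} (a : Cl K k h) (b : k ≤ k') : Cl K k' h := by
  obtain ⟨r, S, a, c1, c2, c3⟩ := a
  exact ⟨r, S, a, c1.trans b, c2, fun η e x y z w => (c3 η e x y z w).trans (by gcongr)⟩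

lemma Cl.mid {k k' : ℕ} {h h' : BF G} (a : Cl K k h) (b : Cl K k' h') : Cl K (k + k') ((1 / 2 : ℂ) • (h + h')) := by
  classical
  obtain ⟨r, S, ⟨a1, a2, a3⟩, c1, c2, c3⟩ := a
  obtain ⟨r', S', ⟨b1, b2, b3⟩, d1, d2, d3⟩ := b
  refine ⟨fun x => (r x + r' x) / 2, S ∪ S', ⟨fun x => by simp [a1, b1]; ring, fun x => ?_,
    fun x k => by simp [a3 x k, b3 x k]⟩, (card_union_le _ _).trans (add_le_add c1 d1),
    fun χ k => (mem_union.1 k).elim (c2 χ) (d2 χ), fun η e x y z w => ?_⟩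
  · constructor <;> linarith [a2 x, b2 x]
  have p := abs_le.1 (c3 η e x y (fun χ k => z χ (mem_union_left _ k)) w)
  have q := abs_le.1 (d3 η e x y (fun χ k => z χ (mem_union_right _ k)) w)
  have : 0 ≤ (k : ℝ) * η := by positivity
  have : 0 ≤ (k' : ℝ) * η := by positivity
  rw [abs_le]; push_cast
  constructor <;> nlinarith

lemma clamp (a b : ℝ) : |max 0 (min 1 a) - max 0 (min 1 b)| ≤ |a - b| := by
  rw [max_comm 0, max_comm 0]
  refine (abs_max_sub_max_le_abs _ _ _).trans ?_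
  simpa using abs_min_sub_min_le_max 1 a 1 b

lemma Cl.step (hm : IsMean m) {k : ℕ} {f h : BF G} {fr : G → ℝ} (hf : R01 K f fr) (a : Cl K k h) {χ : G → ℂ}
    {ε : ℝ} (e0 : 0 < ε) (e1 : ε ≤ 1) (e : ε < ‖co m (f - h) χ‖) :
    ∃ h', Cl K (k + 1) h' ∧ N m (f - h') ≤ N m (f - h) - ε ^ 2 := by
  classical
  have c : IsCh χ := by by_contra c; simp [co, c] at e; linarith
  obtain ⟨r, S, ⟨a1, a2, a3⟩, c1, c2, c3⟩ := a
  obtain ⟨θ, t1, t2⟩ := Complex.exists_norm_eq_mul_self (co m (f - h) χ)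
  let w : G → ℝ := fun x => if x ∈ K then (θ * conj (χ x)).re else 0
  have w1 : ∀ x, |w x| ≤ 1 := fun x => by
    simp only [w]; split_ifs
    · exact (Complex.abs_re_le_norm _).trans (by simp [t1, c.nrm])
    · simp
  have u : ∀ x, 0 ≤ max 0 (min 1 (r x + ε * w x)) ∧ max 0 (min 1 (r x + ε * w x)) ≤ 1 := fun x =>
    ⟨le_max_left _ _, max_le zero_le_one (min_le_left _ _)⟩
  let W : BF G := ⟨fun x => w x, 1, fun x => by simpa using w1 x⟩
  refine ⟨⟨fun x => (max 0 (min 1 (r x + ε * w x)) : ℝ), 1, fun x => by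
      rw [Complex.norm_real, Real.norm_of_nonneg (u x).1]; exact (u x).2⟩,
    ⟨_, insert χ S, ⟨fun _ => rfl, u, fun x k => by simp [a3 x k, w, k]⟩, (card_insert_le _ _).trans (by omega),
      forall_mem_insert _ _ _ |>.2 ⟨c, c2⟩, fun η e x y z v => (clamp _ _).trans ?_⟩, ?_⟩
  · have p := c3 η e x y (fun χ k => z χ (mem_insert_of_mem k)) v
    have q : |w (v + x) - w v| ≤ η := by
      simp only [w, K.add_mem_cancel_right y]; split_ifs
      · rw [← Complex.sub_re, c.mul, show θ * conj (χ v * χ x) - θ * conj (χ v) = θ * conj (χ v * (χ x - 1)) by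
          simp; ring]
        exact (Complex.abs_re_le_norm _).trans (by
          rw [norm_mul, Complex.norm_conj, norm_mul, t1, c.nrm]; simpa using z χ (mem_insert_self _ _))
      · simpa using e
    rw [show r (v + x) + ε * w (v + x) - (r v + ε * w v) = (r (v + x) - r v) + ε * (w (v + x) - w v) by ring]
    refine (abs_add_le _ _).trans ?_
    rw [abs_mul, abs_of_pos e0]; push_cast
    nlinarith [abs_nonneg (w (v + x) - w v)]
  refine (hm.Nmono (g := (f - h) + (-ε : ℂ) • W) fun x => ?_).trans ?_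
  · have := clamp (fr x) (r x + ε * w x)
    rw [min_eq_right (hf.2.1 x).2, max_eq_right (hf.2.1 x).1] at this
    simp only [sub_app, add_app, smul_app, hf.1, a1, W]
    norm_cast
    rwa [show fr x - r x + -ε * w x = fr x - (r x + ε * w x) by ring]
  have q : (m (W * star (f - h))).re = ‖co m (f - h) χ‖ := by
    rw [← Complex.ofReal_re ‖_‖, t2, co_eq c, ← smul_eq_mul θ, ← map_smul, hm.re, hm.re (θ • _)]
    refine congrArg (fun f => (m f).re) (ext' fun x => congrArg Complex.ofReal ?_)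
    by_cases k : x ∈ K
    · simp [W, w, k, hf.1, a1, IsCh.bf]; ring
    · simp [W, w, k, hf.1, a1, hf.2.2 x k, a3 x k]
  have := hm.N1 (f := W) (C := 1) fun x => by simpa [W] using w1 x
  rw [hm.Nadd, Nsmul, smul_mul_assoc, map_smul, smul_eq_mul, ← Complex.ofReal_neg, Complex.re_ofReal_mul, q,
    Complex.norm_real, Real.norm_eq_abs, sq_abs]
  nlinarith

lemma pigeon (a : ℕ → ℝ) (h : ∀ i, 0 ≤ a i ∧ a i ≤ 1) {t : ℝ} (ht : 0 < t) :
    ∃ i ≤ ⌈1 / t⌉₊, a i - a (i + 1) < t := by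
  by_contra! c
  have p := card_nsmul_le_sum (range (⌈1 / t⌉₊ + 1)) _ _ fun i k => c i (Nat.lt_succ_iff.1 (mem_range.1 k))
  have q := Nat.le_ceil (1 / t)
  rw [sum_range_sub', card_range, nsmul_eq_mul] at p
  rw [div_le_iff₀ ht] at q
  push_cast at p
  linarith [h 0, h (⌈1 / t⌉₊ + 1)]

lemma reg (E : ℕ → ℝ) (E0 : ∀ k, 0 < E k) (E1 : ∀ k, E k ≤ 1) {τ : ℝ} (t : 0 < τ) : ∃ Kb : ℕ,
    ∀ (G : Type) [AddCommGroup G] (m : BF G →ₗ[ℂ] ℂ) (K : AddSubgroup G) (f : BF G) (fr : G → ℝ), IsMean m →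
    R01 K f fr → ∃ k ≤ Kb, ∃ h h' r', Cl K k h ∧ R01 K h' r' ∧ N m (h - h') ≤ τ ∧ ∀ χ, ‖co m (f - h') χ‖ ≤ E k := by
  let κ : ℕ → ℕ := fun i => Nat.rec 0 (fun _ k => k + (k + ⌈1 / (E k ^ 2 / 2)⌉₊)) i
  refine ⟨(range (⌈1 / (τ / 8)⌉₊ + 1)).sup κ, fun G _ m K f fr hm hf => ?_⟩
  let e : ℕ → ℝ := fun k => sInf {x | ∃ h, Cl K k h ∧ x = N m (f - h)}
  have n : ∀ k, {x | ∃ h, Cl K k h ∧ x = N m (f - h)}.Nonempty := fun k => ⟨_, 0, .zero k, rfl⟩
  have e1 : ∀ k h, Cl K k h → e k ≤ N m (f - h) := fun k h c =>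
    csInf_le ⟨0, fun _ ⟨_, _, y⟩ => y ▸ hm.N0 _⟩ ⟨h, c, rfl⟩
  have e2 : ∀ k, 0 ≤ e k ∧ e k ≤ 1 := fun k => ⟨le_csInf (n k) fun _ ⟨_, _, y⟩ => y ▸ hm.N0 _,
    (e1 k 0 (.zero k)).trans (by simpa using hm.N1 hf.b)⟩
  have e3 : ∀ k k', k ≤ k' → e k' ≤ e k := fun k k' c => le_csInf (n k) fun _ ⟨h, x, y⟩ => y ▸ e1 k' h (x.mono c)
  obtain ⟨i, i1, i2⟩ := pigeon (fun i => e (κ i)) (fun i => e2 _) (show 0 < τ / 8 by positivity)
  have p := pow_pos (E0 (κ i)) 2
  obtain ⟨j, j1, j2⟩ := pigeon (fun j => e (κ i + j)) (fun i => e2 _) (half_pos p)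
  obtain ⟨_, ⟨h, h1, rfl⟩, h2⟩ := exists_lt_of_csInf_lt (n (κ i)) (lt_add_of_pos_right _ (show 0 < τ / 8 by positivity))
  obtain ⟨_, ⟨g, g1, rfl⟩, g2⟩ := exists_lt_of_csInf_lt (n (κ i + j)) (lt_add_of_pos_right _
    (lt_min (show 0 < τ / 8 by positivity) (half_pos p)))
  change _ < e _ + _ at h2 g2
  obtain ⟨r', S, g3, g4⟩ := id g1
  refine ⟨κ i, le_sup (f := κ) (mem_range.2 (Nat.lt_succ_of_le i1)), h, g, r', h1, g3, ?_, fun χ => ?_⟩
  · have a := hm.Npar (f - g) (f - h)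
    rw [show f - g + (f - h) = (2 : ℂ) • (f - (1 / 2 : ℂ) • (h + g)) from ext' fun x => by simp; ring, Nsmul,
      sub_sub_sub_cancel_left] at a
    have b := (e3 _ (κ (i + 1)) (show κ i + (κ i + j) ≤ κ i + (κ i + _) by gcongr)).trans (e1 _ _ (h1.mid g1))
    have c := e3 _ _ (Nat.le_add_right (κ i) j)
    have d := min_le_left (τ / 8) (E (κ i) ^ 2 / 2)
    rw [show ‖(2 : ℂ)‖ ^ 2 = 4 by norm_num] at a
    linarith
  · by_contra! c
    obtain ⟨h', x, y⟩ := g1.step hm hf (E0 _) (E1 _) c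
    have := e1 _ _ x
    have d := min_le_right (τ / 8) (E (κ i) ^ 2 / 2)
    rw [add_assoc] at this
    linarith

variable {J : Type} [Fintype J] [DecidableEq J]

lemma tele (Φ : (J → BF G) → ℂ) (l : ∀ fs j a b, Φ (update fs j (a - b)) = Φ (update fs j a) - Φ (update fs j b))
    (x y : J → BF G) (hx : ∀ j, B1 (x j)) (hy : ∀ j, B1 (y j)) (hd : ∀ j, B1 (x j - y j)) {ε : ℝ}
    (h : ∀ j fs, (∀ i, B1 (fs i)) → fs j = x j - y j → ‖Φ fs‖ ≤ ε) : ‖Φ x - Φ y‖ ≤ Fintype.card J * ε := by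
  have : ∀ S : Finset J, ‖Φ (S.piecewise x y) - Φ y‖ ≤ S.card * ε := fun S => by
    induction S using Finset.induction_on with
    | empty => simp
    | insert j S hj ih =>
      have a := h j (update (S.piecewise x y) j (x j - y j)) (fun i => by
        by_cases c : i = j
        · subst c; simpa using hd i
        · rw [update_of_ne c]; by_cases k : i ∈ S <;> simp [k, hx, hy]) (by simp)
      rw [l, ← piecewise_eq_of_notMem S x y hj, update_eq_self, ← piecewise_insert] at a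
      rw [card_insert_of_notMem hj]; push_cast
      linarith [norm_sub_le_norm_sub_add_norm_sub (Φ ((insert j S).piecewise x y)) (Φ (S.piecewise x y)) (Φ y)]
  simpa using this univ

noncomputable def lam (m : BF G →ₗ[ℂ] ℂ) (fs : J → BF G) (s : J → G) : ℂ := m (∏ j, T (s j) (fs j))

lemma lam_eq (fs : J → BF G) (s : J → G) (j : J) :
    lam m fs s = m (T (s j) (fs j) * ∏ i ∈ univ.erase j, T (s i) (fs i)) := by
  rw [lam, mul_prod_erase _ (fun j => T (s j) (fs j)) (mem_univ j)]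

lemma lam_upd (fs : J → BF G) (s : J → G) (j : J) (a : BF G) :
    lam m (update fs j a) s = m (T (s j) a * ∏ i ∈ univ.erase j, T (s i) (fs i)) := by
  rw [lam_eq _ _ j, update_self, prod_congr rfl fun i k => by rw [update_of_ne (ne_of_mem_erase k)]]

lemma lam_sh (fs : J → BF G) (s : J → G) (j : J) (n : G) :
    lam m fs (Pi.single j n + s) = lam m (update fs j (T n (fs j))) s := by
  rw [lam_upd, lam_eq _ _ j, T_T, Pi.add_apply, Pi.single_eq_same, add_comm,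
    prod_congr rfl fun i k => by rw [Pi.add_apply, Pi.single_eq_of_ne (ne_of_mem_erase k), zero_add]]

lemma B1.prod {S : Finset J} {f : J → BF G} (h : ∀ i, B1 (f i)) : B1 (∏ i ∈ S, f i) :=
  prod_induction _ _ (fun _ _ => B1.mul) (fun _ => by simp) fun i _ => h i

lemma low (hm : IsMean m) {k : ℕ} {h h' : BF G} {r r' : G → ℝ} {S : Finset (G → ℂ)} (a1 : R01 K h r)
    (a2 : Lip K k r S) (a3 : R01 K h' r') {a σ : ℝ} (a0 : 0 < a) (s0 : 0 < σ) (n : N m (h - h') ≤ σ ^ 2 / 12)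
    (q : 2 * a ≤ (m h').re) (j0 : J) (x : J → G) (x1 : ∀ j, x j ∈ K)
    (x2 : ∀ j, ∀ χ ∈ S, ‖χ (x j) - 1‖ ≤ σ / (4 * (k + 1))) :
    a ^ Fintype.card J - Fintype.card J * σ ≤ (lam m (fun _ => h') x).re := by
  have p := tele (fun fs => lam m fs 0) (fun fs j a b => by simp [lam_upd, sub_mul]) (fun j => T (x j) h')
    (fun _ => h') (fun _ => a3.b.T _) (fun _ => a3.b) (fun j => by simpa using a3.d a3 (x j) 0) (ε := σ)
    fun j fs b e => by
      have b1 := hm.cs1 (T ((0 : J → G) j) (fs j)) (B1.prod (S := univ.erase j) fun i => (b i).T ((0 : J → G) i))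
      have b2 := hm.N1 (f := T (x j) h - h) (C := σ / 4) fun z => by
        rw [sub_app, T_app, a1.1, a1.1, ← Complex.ofReal_sub, Complex.norm_real]
        refine (a2.2.2 _ (by positivity) _ (x1 j) (x2 j) z).trans ?_
        rw [mul_div_assoc', div_le_div_iff₀ (by positivity) (by positivity)]
        nlinarith
      have b3 := hm.Npar (T (x j) h - h) (h - h')
      have b4 := hm.Npar (T (x j) h - h + (h - h')) (T (x j) (h - h'))
      rw [← lam_eq, hm.NT, e] at b1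
      rw [hm.NT, show T (x j) h - h + (h - h') - T (x j) (h - h') = T (x j) h' - h' by rw [map_sub]; ring] at b4
      refine le_of_pow_le_pow_left₀ two_ne_zero s0.le ?_
      nlinarith [hm.N0 (T (x j) h - h - (h - h')), hm.N0 (T (x j) h - h + (h - h') + T (x j) (h - h'))]
  obtain ⟨d, hd⟩ := Nat.exists_eq_succ_of_ne_zero (Fintype.card_pos_iff.2 ⟨j0⟩).ne'
  have c := hm.mono (f := ((a ^ d : ℝ) : ℂ) • (h' - (a : ℂ) • 1)) (g := ∏ j : J, T ((0 : J → G) j) h') fun z => by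
    simp only [Pi.zero_apply, T_zero, prod_const, card_univ, hd, smul_app, sub_app, one_app, mul_one, a3.1]
    rw [show (h' ^ d.succ).1 z = h'.1 z ^ d.succ from map_pow (ev z) _ _, a3.1]
    norm_cast
    rcases le_total (r' z) a with w | w
    · exact (mul_nonpos_of_nonneg_of_nonpos (by positivity) (by linarith)).trans (pow_nonneg (a3.2.1 z).1 _)
    · rw [pow_succ]
      exact mul_le_mul (pow_le_pow_left₀ a0.le w d) (by linarith) (by linarith) (pow_nonneg (a3.2.1 z).1 _)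
  rw [map_smul, map_sub, hm.const, smul_eq_mul, Complex.re_ofReal_mul, Complex.sub_re, Complex.ofReal_re] at c
  have e : lam m (fun j => T (x j) h') 0 = lam m (fun _ => h') x := by simp [lam]
  have g := (abs_le.1 ((Complex.abs_re_le_norm _).trans p)).1
  rw [e, Complex.sub_re] at g
  have : a ^ d * a ≤ a ^ d * ((m h').re - a) := mul_le_mul_of_nonneg_left (by linarith) (by positivity)
  rw [hd, pow_succ, ← hd]
  unfold lam at *
  linarith

lemma cells {L Y : Type} [AddCommGroup L] [Fintype Y] (F : Fam L) (c : L → Y) (ψ : L → ℝ) (h0 : ∀ x, 0 ≤ ψ x)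
    {t : ℝ} (t0 : 0 ≤ t) (h : ∀ x y, c x = c y → t ≤ ψ (x + -y)) :
    t / Fintype.card Y ≤ (F.conv (F.map Neg.neg)).av ψ := by
  classical
  have s : ∀ φ : Y → L → ℝ, (F.av fun a => ∑ y, φ y a) = ∑ y, F.av (φ y) := fun φ => by
    simp only [Fam.av, ← smul_sum]; exact congrArg _ sum_comm
  have a : (1 : ℝ) = ∑ y, F.av fun a => if c a = y then 1 else 0 := by simp [← s, Fam.av_const]
  have b := sq_sum_le_card_mul_sum_sq (s := univ) (f := fun y => F.av fun a => if c a = y then (1 : ℝ) else 0)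
  have p : (0 : ℝ) < Fintype.card Y := by
    exact_mod_cast Fintype.card_pos_iff.2 ⟨c 0⟩
  rw [← a, card_univ, one_pow, ← div_le_iff₀' p] at b
  rw [Fam.av_conv, div_eq_mul_one_div]
  refine (mul_le_mul_of_nonneg_left b t0).trans ?_
  simp only [sq, Fam.av_mul, Fam.mul_av, ← s, Fam.av_map]
  refine F.av_le fun x => F.av_le fun y => ?_
  by_cases k : c x = c y
  · simpa [k] using h x y k
  · simpa [k, Ne.symm k] using h0 _

lemma net {η : ℝ} (e : 0 < η) : ∃ (Y : Type) (_ : Fintype Y) (q : ℂ → Y),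
    ∀ z w, ‖z‖ = 1 → ‖w‖ = 1 → q z = q w → ‖z - w‖ ≤ η := by
  classical
  obtain ⟨t, -, a, b⟩ := finite_cover_balls_of_compact (isCompact_sphere (0 : ℂ) 1) (half_pos e)
  choose c c1 c2 using fun (z : ℂ) (h : ‖z‖ = 1) => Set.mem_iUnion₂.1 (b (mem_sphere_zero_iff_norm.2 h))
  refine ⟨Option t, by haveI := a.fintype; infer_instance,
    fun z => if h : ‖z‖ = 1 then some ⟨c z h, c1 z h⟩ else none, fun z w x y k => ?_⟩
  simp only [dif_pos x, dif_pos y, Option.some.injEq, Subtype.mk.injEq] at k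
  have := c2 z x
  have := c2 w y
  rw [← dist_eq_norm]
  linarith [dist_triangle_right z w (c z x), Metric.mem_ball.1 (c2 z x), k ▸ Metric.mem_ball.1 (c2 w y)]

end Pool.Agent.H4.Ncb
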