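import Pool.Agent.H4.NcbC

set_option autoImplicit false
set_option linter.unusedSectionVars false

namespace Pool.Agent.H4.Ncb

open Finset Topology Function
open scoped ComplexConjugate ComplexOrder

variable {G : Type} [AddCommGroup G] {m : BF G →ₗ[ℂ] ℂ} {K : AddSubgroup G} {J : Type} [Fintype J] [DecidableEq J]

def LL (φ : J → G →+ G) : AddSubgroup (J → G) where
  carrier := {s | ∑ j, φ j (s j) = 0}
  add_mem' {a b} (h : _ = _) (k : _ = _) := by simp [sum_add_distrib, h, k]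
  zero_mem' := by simp
  neg_mem' {a} (h : _ = _) := by simp [h]

lemma sum_sing (φ : J → G →+ G) (j : J) (a : G) : ∑ i, φ i ((Pi.single j a : J → G) i) = φ j a := by
  rw [sum_eq_single j (fun i _ k => by simp [k]) (by simp)]; simp

variable {φ : J → G →+ G}

noncomputable def La (m : BF G →ₗ[ℂ] ℂ) (F : Fam (LL φ)) (fs : J → BF G) (s : J → G) : ℂ :=
  F.av fun l => lam m fs (s + l.1)

def U (m : BF G →ₗ[ℂ] ℂ) (F : Fam (LL φ)) (j : J) (g : BF G) (ε : ℝ) : Prop :=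
  ∀ (fs : J → BF G) (s : J → G), (∀ i, B1 (fs i)) → fs j = g → ‖La m F fs s‖ ≤ ε

lemma U.l {F : Fam (LL φ)} {j : J} {g : BF G} {ε : ℝ} (h : U m F j g ε) (F' : Fam (LL φ)) :
    U m (F'.conv F) j g ε := fun fs s a b => by
  simp only [La, Fam.av_conv, AddSubgroup.coe_add, ← add_assoc]
  exact (F'.norm_av _).trans (F'.av_le' fun l => h fs _ a b)

lemma U.r {F : Fam (LL φ)} {j : J} {g : BF G} {ε : ℝ} (h : U m F j g ε) (F' : Fam (LL φ)) :
    U m (F.conv F') j g ε := fun fs s a b => by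
  simp only [La, Fam.av_conv, AddSubgroup.coe_add]
  rw [F.av_comm]
  refine (F'.norm_av _).trans (F'.av_le' fun l => le_of_eq_of_le ?_ (h fs (s + l.1) a b))
  simp only [La, add_assoc, add_comm l.1]

lemma exU (hm : Erg m) (c : 3 ≤ Fintype.card J) (hK : ∀ i j, ∀ a ∈ K, φ i a ∈ (φ j).range) {ρ ε : ℝ} (r0 : 0 < ρ)
    (r : ρ ≤ (m (ind K)).re) (e : 0 < ε) {g : BF G} (s : Sp K g) (b : B1 g) (h : ∀ χ, ‖co m g χ‖ ≤ ε ^ 2 * ρ / 3)
    (j : J) : ∃ F : Fam (LL φ), U m F j g ε := by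
  obtain ⟨α, β, k⟩ := hm.uni r0 r e s b h
  obtain ⟨i, hi, l, hl, il⟩ := one_lt_card.1 (show 1 < (univ.erase j).card by
    rw [card_erase_of_mem (mem_univ _), card_univ]; omega)
  choose p hp using fun i (a : K) => hK j i a.1 a.2
  let q : J → K → LL φ := fun i a => ⟨Pi.single j a.1 + Pi.single i (-p i a), by
    change ∑ _, _ = _
    simp only [Pi.add_apply, map_add, sum_add_distrib, sum_sing, map_neg, hp, add_neg_cancel]⟩
  refine ⟨(α.map (q i)).conv (β.map (q l)), fun fs s f1 f2 => le_of_eq_of_le ?_ (k (s j)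
    (fun a => T (s i + -p i a) (fs i)) (fun a => ∏ x ∈ (univ.erase j).erase i, T ((s + (q l a).1) x) (fs x))
    (fun a => (f1 i).T _) fun a => B1.prod fun x => (f1 x).T _)⟩
  simp only [La, Fam.av_conv, Fam.av_map]
  congr 2; ext a; congr 1; ext b
  have i1 := ne_of_mem_erase hi
  have l1 := ne_of_mem_erase hl
  rw [lam_eq _ _ j, ← mul_prod_erase _ _ hi, f2, mul_assoc]
  congr 2
  · simp [q, i1.symm, l1.symm]
  congr 1
  · simp [q, i1, il]
  · refine prod_congr rfl fun x hx => ?_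
    simp [q, ne_of_mem_erase hx, ne_of_mem_erase (mem_of_mem_erase hx)]

lemma IsCh.av {χ : G → ℂ} (h : IsCh χ) (F : Fam K) : ‖F.av fun a => χ a‖ ≤ 1 :=
  (F.norm_av _).trans (F.av_le' fun _ => (h.nrm _).le)

lemma kill (S : Finset (G → ℂ)) (h : ∀ χ ∈ S, IsCh χ ∧ ∃ n ∈ K, χ n ≠ 1) {ε : ℝ} (e : 0 < ε) :
    ∃ F : Fam K, ∀ χ ∈ S, ‖F.av fun a => χ a‖ ≤ ε := by
  have c : ∀ χ : G → ℂ, IsCh χ → ∀ F F' : Fam K, ‖(F.conv F').av fun a => χ a‖ = ‖F.av fun a => χ a‖ * ‖F'.av fun a => χ a‖ :=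
    fun χ k F F' => by simp only [Fam.av_conv, AddSubgroup.coe_add, k.mul, ← Fam.mul_av, ← Fam.av_mul, norm_mul]
  obtain ⟨F, k⟩ := Fam.all (fun (χ : G → ℂ) (F : Fam K) => IsCh χ ∧ ‖F.av fun a => χ a‖ ≤ ε)
    (fun χ F F' k => ⟨k.1, by rw [c χ k.1]; exact (mul_le_of_le_one_right (norm_nonneg _) (k.1.av _)).trans k.2⟩)
    (fun χ F F' k => ⟨k.1, by rw [c χ k.1]; exact (mul_le_of_le_one_left (norm_nonneg _) (k.1.av _)).trans k.2⟩)
    S fun χ k => by
      obtain ⟨k, n, n1, n2⟩ := h χ k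
      have a : ‖(⟨Fin 2, ![0, ⟨n, n1⟩]⟩ : Fam K).av fun a => χ a‖ < 1 := by
        have := parallelogram_law_with_norm ℝ (1 : ℂ) (χ n)
        have p := norm_pos_iff.2 (sub_ne_zero.2 n2.symm)
        simp only [Fam.av, Fin.sum_univ_two, Fintype.card_fin, norm_smul]
        simp [k.zero, k.nrm] at this ⊢
        nlinarith [norm_nonneg (1 + χ n)]
      obtain ⟨r, hr⟩ := exists_pow_lt_of_lt_one e a
      have : ∀ r : ℕ, ∃ F : Fam K, ‖F.av fun a => χ a‖ ≤
          ‖(⟨Fin 2, ![0, ⟨n, n1⟩]⟩ : Fam K).av fun a => χ a‖ ^ r := fun r => by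
        induction r with
        | zero => exact ⟨⟨Unit, 0⟩, by simpa using k.av _⟩
        | succ r ih =>
          obtain ⟨F, x⟩ := ih
          exact ⟨F.conv _, by rw [c χ k, pow_succ]; gcongr⟩
      obtain ⟨F, x⟩ := this r
      exact ⟨F, k, x.trans hr.le⟩
  exact ⟨F, fun χ x => (k χ x).2⟩

def IsCh.ac {χ : G → ℂ} (h : IsCh χ) : AddChar G Circle where
  toFun x := ⟨χ x, mem_sphere_zero_iff_norm.2 (h.nrm x)⟩
  map_zero_eq_one' := Circle.ext h.zero
  map_add_eq_mul' x y := Circle.ext (h.mul x y)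

lemma extend (f : G →+ G) {χ : G → ℂ} (h : IsCh χ) (k : ∀ n ∈ f.ker ⊓ K, χ n = 1) :
    ∃ ψ, IsCh ψ ∧ ∀ s ∈ K, ψ (f s) = χ s := by
  letI : DivisibleBy (Additive Circle) ℤ := divisibleByOfSMulRightSurj _ _ fun {n} hn z => by
    obtain ⟨t, e⟩ := Circle.exp_surjective z.toMul
    refine ⟨Circle.expHom (t / n), ?_⟩
    beta_reduce
    rw [← map_zsmul, zsmul_eq_mul, mul_div_cancel₀ _ (by exact_mod_cast hn)]
    exact congrArg Additive.ofMul e
  obtain ⟨g, e⟩ := (Module.Baer.of_divisible (Additive Circle)).extension_property_addMonoidHom _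
    (QuotientAddGroup.kerLift_injective (f.comp K.subtype)) (QuotientAddGroup.lift _
      (h.ac.toAddMonoidHom.comp K.subtype) fun n hn => congrArg Additive.ofMul (Circle.ext (k n.1 ⟨hn, n.2⟩)))
  refine ⟨fun x => ((g x).toMul : Circle), ⟨fun x y => by simp, fun x => by simp⟩, fun s hs => ?_⟩
  exact congrArg (fun z : Additive Circle => (z.toMul : ℂ)) (DFunLike.congr_fun e ((⟨s, hs⟩ : K) : _ ⧸ _))

lemma toBohr (S : Finset (G → ℂ)) (h : ∀ χ ∈ S, IsCh χ) {k : ℕ} (c : S.card ≤ k) (η : ℝ) :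
    ∃ χ : Fin k → AddChar G Circle, ∀ u ∈ Bohr χ η, ∀ ψ ∈ S, ‖ψ u - 1‖ < η := by
  obtain ⟨e⟩ := Function.Embedding.nonempty_of_card_le (α := S) (β := Fin k) (by simpa using c)
  refine ⟨Function.extend e (fun s => (h s.1 s.2).ac) 1, fun u hu ψ k => ?_⟩
  have := hu (e ⟨ψ, k⟩)
  rwa [e.injective.extend_apply] at this

lemma cut (H : AddSubgroup G) [H.FiniteIndex] : ∃ S : Finset (G → ℂ), S.card ≤ H.index ∧ (∀ χ ∈ S, IsCh χ) ∧
    ∀ u, (∀ χ ∈ S, ‖χ u - 1‖ < 1) → u ∈ H := by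
  classical
  haveI := Fintype.ofFinite (G ⧸ H)
  refine ⟨univ.image fun (ψ : AddChar (G ⧸ H) ℂ) x => ψ x, card_image_le.trans_eq ?_, fun χ k => ?_, fun u k => ?_⟩
  · rw [card_univ, AddChar.card_eq, AddSubgroup.index_eq_card, Nat.card_eq_fintype_card]
  · obtain ⟨ψ, -, rfl⟩ := mem_image.1 k
    exact ⟨fun x y => by simp [AddChar.map_add_eq_mul], fun x => by simp⟩
  by_contra c
  have a := congrArg Complex.re (AddChar.sum_apply_eq_zero_iff_ne_zero.2
    (mt (QuotientAddGroup.eq_zero_iff u).1 c))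
  rw [Complex.re_sum] at a
  refine (sum_pos (fun ψ _ => ?_) univ_nonempty).ne' a
  have := (abs_lt.1 ((Complex.abs_re_le_norm _).trans_lt (k _ (mem_image_of_mem _ (mem_univ ψ))))).1
  simpa using this

lemma coset (hm : IsMean m) [K.FiniteIndex] (A : Set G) :
    ∃ c, (m (ind A)).re ≤ K.index * (m (ind {x | x ∈ K ∧ x + c ∈ A})).re := by
  classical
  haveI := Fintype.ofFinite (G ⧸ K)
  obtain ⟨q, -, k⟩ := exists_max_image univ (fun q : G ⧸ K => (m (ind {x | x ∈ K ∧ x + q.out ∈ A})).re) univ_nonempty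
  refine ⟨q.out, le_of_eq_of_le ?_ ((sum_le_card_nsmul _ _ _ k).trans_eq ?_)⟩
  · rw [← Complex.re_sum, sum_congr rfl fun (q : G ⧸ K) _ => (hm.inv (-q.out) _).symm, ← map_sum]
    refine congrArg (fun f => (m f).re) (ext' fun x => ?_)
    rw [show (∑ q : G ⧸ K, T (-q.out) (ind {x | x ∈ K ∧ x + q.out ∈ A})).1 x = _ from map_sum (ev x) _ _,
      sum_eq_single (x : G ⧸ K) (fun q _ c => ?_) (by simp)]
    · have : x + -(x : G ⧸ K).out ∈ K := by
        rw [add_comm, ← QuotientAddGroup.eq]; simp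
      simp [ev, ind, this]
    · refine if_neg fun y => c ?_
      rw [← QuotientAddGroup.out_eq' q, QuotientAddGroup.eq, add_comm]; exact y.1
  · rw [card_univ, AddSubgroup.index_eq_card, Nat.card_eq_fintype_card, nsmul_eq_mul]

theorem core (J : Type) [Fintype J] [DecidableEq J] (hd : 3 ≤ Fintype.card J) (M : ℕ) {δ : ℝ} (hδ : 0 < δ) :
    ∃ (k : ℕ) (η : ℝ), 0 < η ∧ ∀ (G : Type) [AddCommGroup G] (φ : J → G →+ G),
    (∀ j, (φ j).range.index ≠ 0 ∧ (φ j).range.index ≤ M) → ∑ j, φ j = 0 → ∀ (A : Set G) (m : BF G →ₗ[ℂ] ℂ),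
    IsMean m → δ ≤ (m (ind A)).re → ∃ χ : Fin k → AddChar G Circle,
      Bohr χ η ⊆ {g | ∃ a : J → G, (∀ j, a j ∈ A) ∧ g = ∑ j, φ j (a j)} := by
  classical
  obtain ⟨j0⟩ := Fintype.card_pos_iff.1 (show 0 < Fintype.card J by omega)
  obtain ⟨d, ed⟩ : ∃ d, Fintype.card J = d := ⟨_, rfl⟩
  have d0 : (0 : ℝ) < d := by exact_mod_cast (show 0 < d by omega)
  obtain ⟨M1, eM⟩ : ∃ M1, M ^ (d * d) + 1 = M1 := ⟨_, rfl⟩
  have m0 : 0 < M1 := by omega
  obtain ⟨δ1, e1⟩ : ∃ δ1, δ / M1 = δ1 := ⟨_, rfl⟩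
  have p1 : 0 < δ1 := by rw [← e1]; positivity
  obtain ⟨σ, eσ⟩ : ∃ σ, (δ1 / 4) ^ d / (2 * d) = σ := ⟨_, rfl⟩
  have p2 : 0 < σ := by rw [← eσ]; positivity
  choose Y fY q hq using fun k : ℕ => net (show 0 < σ / (4 * (k + 1)) by positivity)
  have y0 : ∀ k, 0 < Fintype.card (Y k) := fun k => Fintype.card_pos_iff.2 ⟨q k 0⟩
  let ε : ℕ → ℝ := fun k => (δ1 / 4) ^ d / 2 / ((M1 * Fintype.card (Y k) ^ k) ^ d : ℕ) / (2 * (d + 1))
  have p3 : ∀ k, 0 < ε k := fun k => by have := y0 k; positivity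
  let E : ℕ → ℝ := fun k => min (ε k ^ 2 * δ1 / 3) (min (δ1 / 2) 1)
  have p4 : ∀ k, 0 < E k := fun k => by have := p3 k; positivity
  obtain ⟨Kb, hb⟩ := reg E p4 (fun k => (min_le_right _ _).trans (min_le_right _ _))
    (show 0 < σ ^ 2 / 12 by positivity)
  obtain ⟨k0, -, h0⟩ := exists_min_image (range (Kb + 1)) E ⟨0, by simp⟩
  refine ⟨⌈1 / (E k0 / 2) ^ 2⌉₊ + M1 * M, E k0, p4 _, fun G _ φ hφ hs A m0 hm0 hA => ?_⟩
  let K : AddSubgroup G := ⨅ p : J × J, (φ p.2).range.comap (φ p.1)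
  have i1 : ∀ p : J × J, ((φ p.2).range.comap (φ p.1)).index ∣ (φ p.2).range.index := fun p => by
    rw [AddSubgroup.index_comap]; exact AddSubgroup.relIndex_dvd_index_of_normal _ _
  haveI : K.FiniteIndex := AddSubgroup.finiteIndex_iInf fun p => ⟨ne_zero_of_dvd_ne_zero (hφ _).1 (i1 p)⟩
  have i2 : K.index ≤ M1 := by
    refine (AddSubgroup.index_iInf_le _).trans ((prod_le_pow_card _ _ M fun p _ =>
      (Nat.le_of_dvd (Nat.pos_of_ne_zero (hφ _).1) (i1 p)).trans (hφ _).2).trans ?_)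
    rw [card_univ, Fintype.card_prod, ed]; omega
  have hK : ∀ i j, ∀ a ∈ K, φ i a ∈ (φ j).range := fun i j a k => AddSubgroup.mem_iInf.1 k (i, j)
  obtain ⟨c0, hc⟩ := coset (K := K) hm0 A
  obtain ⟨f, ef⟩ : ∃ f, ind {x | x ∈ K ∧ x + c0 ∈ A} = f := ⟨_, rfl⟩
  have hf : R01 K f fun x => if x ∈ K ∧ x + c0 ∈ A then 1 else 0 := by
    rw [← ef]
    exact ⟨fun x => by by_cases k : x ∈ K ∧ x + c0 ∈ A <;> simp [ind, k], fun x => by
      beta_reduce; split_ifs <;> simp, fun x k => by simp [k]⟩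
  obtain ⟨m, hm, h1⟩ := hm0.exErg f
  rw [ef] at hc
  have f1 : δ1 ≤ (m f).re := by
    refine le_trans ?_ h1
    have : 0 ≤ (m0 f).re := by simpa using hm0.mono (f := 0) (g := f) fun x => by simpa [hf.1] using (hf.2.1 x).1
    rw [← e1, div_le_iff₀' (by positivity)]
    exact hA.trans (hc.trans (by gcongr))
  have f2 : δ1 ≤ (m (ind K)).re := f1.trans (hm.mono fun x => by
    by_cases k : x ∈ K <;> simp [hf.1, ind, k]
    split_ifs <;> simp)
  obtain ⟨k, k1, h, h', r', ⟨r, S, c1, c2⟩, c3, c4, c5⟩ := hb G m K f _ hm.toIsMean hf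
  have k2 : E k0 ≤ E k := h0 k (mem_range.2 (by omega))
  obtain ⟨F0, u0⟩ := Fam.all (fun j (F : Fam (LL φ)) => U m F j (f - h') (ε k)) (fun _ _ _ x => x.r _)
    (fun _ _ _ x => x.l _) univ fun j _ => exU hm hd hK p1 f2 (p3 k) (fun x y => by simp [hf.sp x y, c3.sp x y])
      (by simpa using hf.d c3 0 0) (fun χ => (c5 χ).trans (min_le_left _ _)) j
  obtain ⟨S1, s1, s2, s3⟩ := hm.spec hf.b (half_pos (p4 k0))
  have i3 : (K.map (φ j0)).index = (K ⊔ (φ j0).ker).index * (φ j0).range.index := AddSubgroup.index_map _ _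
  haveI : (K ⊔ (φ j0).ker).FiniteIndex := AddSubgroup.finiteIndex_of_le le_sup_left
  haveI : (K.map (φ j0)).FiniteIndex := ⟨i3 ▸ mul_ne_zero AddSubgroup.FiniteIndex.index_ne_zero (hφ _).1⟩
  obtain ⟨S2, t1, t2, t3⟩ := cut (K.map (φ j0))
  have x : ∀ χ : G → ℂ, ∃ ψ, IsCh ψ ∧ (IsCh χ → (∀ n ∈ (φ j0).ker ⊓ K, χ n = 1) → ∀ s ∈ K, ψ (φ j0 s) = χ s) :=
    fun χ => by
      by_cases c : IsCh χ ∧ ∀ n ∈ (φ j0).ker ⊓ K, χ n = 1
      · obtain ⟨ψ, a, b⟩ := extend (φ j0) c.1 c.2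
        exact ⟨ψ, a, fun _ _ => b⟩
      · exact ⟨1, ⟨by simp, by simp⟩, fun a b => (c ⟨a, b⟩).elim⟩
  choose ψ x1 x2 using x
  obtain ⟨χ, hχ⟩ := toBohr (S1.image ψ ∪ S2) (fun χ k => (mem_union.1 k).elim
    (fun k => by obtain ⟨_, -, rfl⟩ := mem_image.1 k; exact x1 _) (t2 χ)) (k := ⌈1 / (E k0 / 2) ^ 2⌉₊ + M1 * M)
    ((card_union_le _ _).trans (add_le_add (card_image_le.trans (by exact_mod_cast s1.trans (Nat.le_ceil _)))
      (t1.trans (i3.trans_le (Nat.mul_le_mul ((AddSubgroup.index_antitone le_sup_left).trans i2) (hφ _).2))))) (E k0)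
  refine ⟨χ, fun u hu => ?_⟩
  obtain ⟨s, hs1, rfl⟩ := t3 u fun ξ k => (hχ u hu ξ (mem_union_right _ k)).trans_le
    ((min_le_right _ _).trans (min_le_right _ _))
  obtain ⟨ν, hν⟩ := kill (K := (φ j0).ker ⊓ K) (S1.filter fun χ => ∃ n ∈ (φ j0).ker ⊓ K, χ n ≠ 1)
    (fun χ k => ⟨s2 χ (mem_filter.1 k).1, (mem_filter.1 k).2⟩) (p4 k0)
  have g1 : B1 (T s f - f) := by simpa using hf.d hf s 0
  obtain ⟨F1, u1⟩ := exU hm hd hK p1 f2 (p3 k) (g := ν.av fun n => T n.1 (T s f - f)) (fun x y => by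
      rw [Fam.av_app, funext fun n : ↥((φ j0).ker ⊓ K) => Sp.T (f := T s f - f)
        (fun x y => by rw [sub_app, hf.sp.T hs1 x y, hf.sp x y, sub_zero]) n.2.2 x y, Fam.av_const])
    (ν.B1_av fun n => g1.T _) (fun ξ => by
      refine le_trans ?_ (k2.trans (min_le_left _ _))
      by_cases c : IsCh ξ
      swap
      · simp [co, c, (p4 k0).le]
      have a1 : co m (ν.av fun n => T n.1 (T s f - f)) ξ = (ν.av fun n => ξ n) * co m (T s f - f) ξ := by
        simp only [Fam.av_mul, ← hm.coT c]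
        simp only [co_eq c, Fam.av_mul, ν.av_hom m]
      have a2 : co m (T s f - f) ξ = (ξ s - 1) * co m f ξ := by
        rw [sub_mul, ← hm.coT c, one_mul, co_eq c, co_eq c, co_eq c, sub_mul, map_sub]
      have a3 : ∀ g, B1 g → ‖co m g ξ‖ ≤ 1 := fun g b => by
        rw [co_eq c]; exact hm.le (b.mul (B1.star fun x => (c.nrm x).le))
      rw [a1, norm_mul]
      by_cases y : ξ ∈ S1
      · by_cases z : ∃ n ∈ (φ j0).ker ⊓ K, ξ n ≠ 1
        · exact (mul_le_of_le_one_right (norm_nonneg _) (a3 _ g1)).trans (hν ξ (mem_filter.2 ⟨y, z⟩))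
        · push Not at z
          refine (mul_le_of_le_one_left (norm_nonneg _) (c.av _)).trans ?_
          rw [a2, norm_mul, ← x2 ξ c z s hs1]
          exact (mul_le_of_le_one_right (norm_nonneg _) (a3 _ hf.b)).trans
            (hχ _ hu _ (mem_union_left _ (mem_image_of_mem _ y))).le
      · refine (mul_le_of_le_one_left (norm_nonneg _) (c.av _)).trans ?_
        have := norm_sub_le (ξ s) 1
        rw [c.nrm, norm_one] at this
        rw [a2, norm_mul]
        nlinarith [s3 ξ y, norm_nonneg (co m f ξ), norm_nonneg (ξ s - 1)]) j0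
  have u2 : U m (F1.conv (ν.map fun n => ⟨Pi.single j0 n.1, (sum_sing φ _ _).trans n.2.1⟩)) j0 (T s f - f) (ε k) :=
    fun fs t a b => by
      refine le_of_eq_of_le ?_ (u1 (update fs j0 _) t (fun i => ?_) (update_self _ _ _))
      · simp only [La, Fam.av_conv, Fam.av_map, AddSubgroup.coe_add, ← add_assoc]
        simp only [add_comm _ (Pi.single _ _), lam_sh, b, lam_upd, ν.av_hom (T _), Fam.av_mul, ν.av_hom m]
      · by_cases c : i = j0
        · subst c; rw [update_self]; exact ν.B1_av fun n => g1.T _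
        · rw [update_of_ne c]; exact a i
  obtain ⟨F, u3, u4⟩ : ∃ F : Fam (LL φ), (∀ j, U m F j (f - h') (ε k)) ∧ U m F j0 (T s f - f) (ε k) :=
    ⟨F0.conv _, fun j => (u0 j (mem_univ _)).r _, u2.l _⟩
  have l : ∀ (fs : J → BF G) j a b, La m (F.conv (F.map Neg.neg)) (update fs j (a - b)) 0 =
      La m (F.conv (F.map Neg.neg)) (update fs j a) 0 - La m (F.conv (F.map Neg.neg)) (update fs j b) 0 :=
    fun fs j a b => by simp only [La, lam_upd, map_sub, sub_mul, Fam.av_sub]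
  have w1 := tele (fun fs => La m (F.conv (F.map Neg.neg)) fs 0) l (fun _ => f) (fun _ => h') (fun _ => hf.b)
    (fun _ => c3.b) (fun _ => by simpa using hf.d c3 0 0) fun j fs a b => (u3 j).r _ fs 0 a b
  have w2 := u4.r (F.map Neg.neg) (update (fun _ => f) j0 (T s f - f)) 0 (fun i => by
    by_cases c : i = j0
    · subst c; rw [update_self]; exact g1
    · rw [update_of_ne c]; exact hf.b) (update_self _ _ _)
  rw [l, update_eq_self j0 fun _ => f] at w2
  haveI := Fintype.ofFinite (G ⧸ K)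
  have w3 := cells F (Y := J → (G ⧸ K) × (S → Y k)) (fun l j => (l.1 j, fun χ => q k (χ.1 (l.1 j))))
    (fun l => (lam m (fun _ => h') l.1).re) (fun l => by
      simpa [lam] using hm.mono (f := 0) (g := ∏ j, T (l.1 j) h') fun z => by
        rw [show (∏ j, T (l.1 j) h').1 z = _ from map_prod (ev z) _ _]
        simp only [ev, RingHom.coe_mk, MonoidHom.coe_mk, OneHom.coe_mk, T_app, c3.1]
        norm_cast
        simpa using prod_nonneg fun j _ => (c3.2.1 _).1) (t := (δ1 / 4) ^ d / 2) (by positivity) fun a b e => by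
    have := low hm.toIsMean c1 c2 c3 (a := δ1 / 4) (by positivity) p2 c4 (by
      have := (abs_le.1 ((Complex.abs_re_le_norm _).trans ((c5 1).trans ((min_le_right _ _).trans
        (min_le_left _ _))))).2
      rw [co_eq ⟨by simp, by simp⟩, show (f - h') * star (IsCh.bf _) = f - h' from ext' fun x => by simp [IsCh.bf],
        map_sub, Complex.sub_re] at this
      linarith) j0 (a + -b).1 (fun j => by
        have := QuotientAddGroup.eq.1 (congrArg Prod.fst (congrFun e j)).symm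
        simpa [add_comm] using this) fun j χ y => by
        have c := c2.2.1 χ y
        have := hq k _ _ (c.nrm _) (c.nrm _) (congrFun (congrArg Prod.snd (congrFun e j)) ⟨χ, y⟩)
        rw [show (a + -b).1 j = a.1 j - b.1 j by simp [sub_eq_add_neg], c.sub, ← c.mc (b.1 j), ← sub_mul, norm_mul,
          Complex.norm_conj, c.nrm, mul_one]
        exact this
    rw [ed, ← eσ, mul_div_assoc', mul_comm 2, mul_div_mul_left _ _ d0.ne'] at this
    linarith
  have w4 : 2 * (d + 1) * ε k ≤ (La m (F.conv (F.map Neg.neg)) (fun _ => h') 0).re := by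
    simp only [La, zero_add, Fam.av_re, ε]
    rw [mul_div_cancel₀ _ (by positivity)]
    refine le_trans (div_le_div_of_nonneg_left (by positivity) (by exact_mod_cast Fintype.card_pos_iff.2 ⟨fun _ => (0, fun _ => q k 0)⟩) ?_) w3
    rw [Fintype.card_fun, Fintype.card_prod, Fintype.card_fun, ed, Fintype.card_coe, ← Nat.card_eq_fintype_card,
      ← AddSubgroup.index_eq_card]
    exact_mod_cast Nat.pow_le_pow_left (Nat.mul_le_mul i2 (Nat.pow_le_pow_right (y0 k) c2.1)) d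
  by_contra c
  have w5 : La m (F.conv (F.map Neg.neg)) (update (fun _ => f) j0 (T s f)) 0 = 0 := by
    rw [La, ← (F.conv (F.map Neg.neg)).av_const (0 : ℂ)]
    congr 1; ext l
    rw [← lam_sh (fun _ => f), zero_add, lam, ← map_zero m]
    refine congrArg m (ext' fun z => ?_)
    rw [show (∏ j, T _ f).1 z = _ from map_prod (ev z) _ _]
    by_contra y
    refine c ⟨fun j => z + ((Pi.single j0 s : J → G) + l.1) j + c0, fun j => ?_, ?_⟩
    · have : f.1 (z + ((Pi.single j0 s : J → G) + l.1) j) ≠ 0 := prod_ne_zero_iff.1 y j (mem_univ _)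
      by_contra v
      exact this (by rw [hf.1]; beta_reduce; rw [if_neg fun w => v w.2]; simp)
    · have v : ∀ x, ∑ j, φ j x = 0 := fun x => by rw [← AddMonoidHom.finset_sum_apply, hs]; rfl
      simp only [map_add, sum_add_distrib, v, Pi.add_apply, sum_sing, show ∑ j, φ j (l.1 j) = 0 from l.2]
      simp
  rw [w5, zero_sub, norm_neg] at w2
  have v1 := (abs_le.1 ((Complex.abs_re_le_norm _).trans w1)).1
  have v2 := (Complex.re_le_norm _).trans w2
  rw [Complex.sub_re, ed] at v1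
  nlinarith [p3 k]

end Pool.Agent.H4.Ncb
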