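import Pool.Agent.H4.NcbD

set_option autoImplicit false

namespace Pool.Agent.H4.Ncb

open Finset Filter Topology
open scoped Classical ComplexOrder

/-- Folner sequences of nonempty finite sets. -/
def IsFolner {G : Type} [AddCommGroup G] (F : ℕ → Finset G) : Prop :=
  (∀ n, (F n).Nonempty) ∧ ∀ g : G,
    Tendsto (fun n => ((symmDiff (F n) ((F n).image (g + ·))).card : ℝ) / (F n).card) atTop (𝓝 0)

/-- Upper Banach density along Folner sequences. -/
noncomputable def ubd {G : Type} [AddCommGroup G] (A : Set G) : ℝ :=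
  sSup {d | ∃ F : ℕ → Finset G, IsFolner F ∧
    d = limsup (fun n => (((F n).filter (· ∈ A)).card : ℝ) / (F n).card) atTop}

lemma ubd_mean {G : Type} [AddCommGroup G] {A : Set G} {δ : ℝ} (h0 : 0 < δ) (h : δ ≤ ubd A) :
    ∃ m, IsMean m ∧ δ / 2 ≤ (m (ind A)).re := by
  by_cases n : {d | ∃ F : ℕ → Finset G, IsFolner F ∧
    d = limsup (fun n => (((F n).filter (· ∈ A)).card : ℝ) / (F n).card) atTop}.Nonempty
  swap
  · rw [ubd, Set.not_nonempty_iff_eq_empty.1 n, Real.sSup_empty] at h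
    exact absurd h0 h.not_gt
  obtain ⟨_, ⟨F, ⟨F1, F2⟩, rfl⟩, y⟩ := exists_lt_of_lt_csSup n ((half_lt_self h0).trans_le h)
  have fr := frequently_lt_of_lt_limsup (isCoboundedUnder_le_of_le atTop (x := 0) fun n => by positivity) y
  haveI := frequently_iff_neBot.1 fr
  let U := Ultrafilter.of (atTop ⊓ 𝓟 {n | δ / 2 < (((F n).filter (· ∈ A)).card : ℝ) / (F n).card})
  have u := Ultrafilter.of_le (atTop ⊓ 𝓟 {n | δ / 2 < (((F n).filter (· ∈ A)).card : ℝ) / (F n).card})
  have p : ∀ n, (0 : ℝ) < (F n).card := fun n => by exact_mod_cast (F1 n).card_pos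
  have b : ∀ (f : BF G) (C : ℝ), (∀ x, ‖f.1 x‖ ≤ C) → ∀ S : Finset G, ‖∑ x ∈ S, f.1 x‖ ≤ S.card * C :=
    fun f C k S => (norm_sum_le _ _).trans (by simpa using sum_le_card_nsmul S _ _ fun x _ => k x)
  have e : ∀ f : BF G, ∃ z, Tendsto (fun n => (∑ x ∈ F n, f.1 x) / (F n).card) U (𝓝 z) := fun f => by
    obtain ⟨C, k⟩ := f.2
    obtain ⟨z, -, hz⟩ := (isCompact_closedBall (0 : ℂ) C).ultrafilter_le_nhds
      (U.map fun n => (∑ x ∈ F n, f.1 x) / (F n).card) (le_principal_iff.2 (mem_map.2 <| univ_mem' fun n => by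
        simpa [div_le_iff₀' (p n)] using b f C k (F n)))
    exact ⟨z, hz⟩
  choose m hm using e
  refine ⟨⟨⟨m, fun f g => tendsto_nhds_unique (hm _) ?_⟩, fun c f => tendsto_nhds_unique (hm _) ?_⟩,
    ⟨fun f k => ge_of_tendsto' (hm f) fun n => ?_, tendsto_nhds_unique (hm _) ?_,
      fun g f => tendsto_nhds_unique (hm _) ?_⟩, ?_⟩
  · simpa [sum_add_distrib, add_div] using (hm f).add (hm g)
  · simpa [← mul_sum, mul_div_assoc] using (hm f).const_mul c
  · exact div_nonneg (sum_nonneg fun x _ => k x) (Nat.cast_nonneg _)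
  · simpa [(F1 _).ne_empty] using tendsto_const_nhds
  · obtain ⟨C, k⟩ := f.2
    refine (hm f).congr_dist (squeeze_zero (fun _ => dist_nonneg) (fun n => ?_)
      (zero_mul C ▸ ((F2 g).mono_left (u.trans inf_le_left)).mul_const C))
    have : ∑ x ∈ F n, (T g f).1 x = ∑ x ∈ (F n).image (g + ·), f.1 x := by
      rw [sum_image fun _ _ _ _ => add_left_cancel]; simp [add_comm]
    rw [dist_eq_norm, ← sub_div, this, ← sum_sdiff_sub_sum_sdiff, norm_div, Complex.norm_natCast,
      div_mul_eq_mul_div, symmDiff_def, sup_eq_union, card_union_of_disjoint disjoint_sdiff_sdiff]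
    refine div_le_div_of_nonneg_right ?_ (p n).le
    rw [Nat.cast_add]
    linarith [norm_sub_le (∑ x ∈ F n \ (F n).image (g + ·), f.1 x) (∑ x ∈ (F n).image (g + ·) \ F n, f.1 x),
      b f C k (F n \ (F n).image (g + ·)), b f C k ((F n).image (g + ·) \ F n)]
  · refine ge_of_tendsto ((Complex.continuous_re.tendsto _).comp (hm (ind A)))
      (mem_of_superset ((u.trans inf_le_right) (mem_principal_self _)) fun n k => ?_)
    refine le_trans (b := (((F n).filter (· ∈ A)).card : ℝ) / (F n).card) (le_of_lt k) (le_of_eq ?_)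
    simp [ind]

end Pool.Agent.H4.Ncb
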