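import Pool.Agent.H4.NcbD

set_option autoImplicit false
set_option linter.unusedSectionVars false

namespace Pool.Agent.H4.Ncb

open Finset Topology Function
open scoped ComplexConjugate ComplexOrder

variable {G : Type} [AddCommGroup G] {m : BF G →ₗ[ℂ] ℂ}

lemma exMean (G : Type) [AddCommGroup G] : ∃ m : BF G →ₗ[ℂ] ℂ, IsMean m := by
  classical
  let S : Set (BF G → ℂ) := {p | (∀ f g, p (f + g) = p f + p g) ∧ (∀ (c : ℂ) f, p (c • f) = c * p f) ∧
    (∀ f : BF G, (∀ x, 0 ≤ f.1 x) → 0 ≤ p f) ∧ p 1 = 1 ∧ ∀ f : BF G, ‖p f‖ ≤ f.2.choose}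
  have c : IsCompact S := by
    refine (isCompact_univ_pi fun f : BF G => isCompact_closedBall (0 : ℂ) f.2.choose).of_isClosed_subset ?_
      fun p h f _ => by simpa using h.2.2.2.2 f
    simp only [S, Set.ofPred_and, Set.ofPred_forall]
    exact (isClosed_iInter fun _ => isClosed_iInter fun _ => isClosed_eq (by fun_prop) (by fun_prop)).inter
      ((isClosed_iInter fun _ => isClosed_iInter fun _ => isClosed_eq (by fun_prop) (by fun_prop)).inter
      ((isClosed_iInter fun _ => isClosed_iInter fun _ => isClosed_le (by fun_prop) (by fun_prop)).inter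
      ((isClosed_eq (by fun_prop) (by fun_prop)).inter
      (isClosed_iInter fun _ => isClosed_le (by fun_prop) (by fun_prop)))))
  let P : G × ℕ → Fam G → Prop := fun i F => ∀ (f : G → ℂ) (C : ℝ), (∀ x, ‖f x‖ ≤ C) →
    ‖(F.av fun a => f (a + i.1)) - F.av f‖ ≤ 2 * C / (i.2 + 1)
  obtain ⟨p, ⟨h1, h2, h3, h4, -⟩, h⟩ := c.inter_iInter_nonempty
    (fun i : G × ℕ => {p | ∀ f : BF G, ‖p (T i.1 f) - p f‖ ≤ 2 * f.2.choose / (i.2 + 1)})
    (fun i => by
      simp only [Set.ofPred_forall]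
      exact isClosed_iInter fun _ => isClosed_le (by fun_prop) (by fun_prop)) fun u => by
      obtain ⟨F, k⟩ := Fam.all P (fun i F F' k f C b => by
          simp only [Fam.av_conv]
          rw [F.av_comm, F.av_comm, ← Fam.av_sub]
          refine (F'.norm_av _).trans (F'.av_le' fun a => le_of_eq_of_le ?_ (k (fun x => f (x + a)) C fun _ => b _))
          simp only [add_right_comm])
        (fun i F F' k f C b => by
          simp only [Fam.av_conv]
          rw [← Fam.av_sub]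
          refine (F.norm_av _).trans (F.av_le' fun a => le_of_eq_of_le ?_ (k (fun x => f (a + x)) C fun _ => b _))
          simp only [add_assoc]) u fun i _ => ⟨⟨Fin (i.2 + 1), fun j => j.1 • i.1⟩, fun f C b => by
          simp only [Fam.av, ← smul_sub, ← sum_sub_distrib, ← succ_nsmul, Fintype.card_fin]
          rw [Fin.sum_univ_eq_sum_range (fun j => f ((j + 1) • i.1) - f (j • i.1)), sum_range_sub fun j => f (j • i.1),
            norm_smul, Real.norm_of_nonneg (by positivity), div_eq_inv_mul, Nat.cast_succ]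
          gcongr
          linarith [norm_sub_le (f ((i.2 + 1) • i.1)) (f (0 • i.1)), b ((i.2 + 1) • i.1), b (0 • i.1)]⟩
      refine ⟨fun f => F.av f.1, ⟨fun f g => F.av_add _ _, fun c f => (F.mul_av c _).symm, fun f b => ?_,
        F.av_const _, fun f => (F.norm_av _).trans (F.av_le' f.2.choose_spec)⟩,
        Set.mem_iInter₂.2 fun i hi f => k i hi f.1 _ f.2.choose_spec⟩
      exact smul_nonneg (by positivity) (sum_nonneg fun _ _ => b _)
  refine ⟨⟨⟨p, h1⟩, h2⟩, h3, h4, fun a f => sub_eq_zero.1 (norm_le_zero_iff.1 (ge_of_tendsto'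
    (tendsto_const_div_atTop_nhds_zero_nat (2 * f.2.choose) |>.comp (Filter.tendsto_add_atTop_nat 1)) fun n => ?_))⟩
  simpa using Set.mem_iInter.1 h (a, n) f

def IsB (κ : ℕ) (B : Set G) : Prop := ∃ S : Finset (G → ℂ), S.card ≤ κ ∧ (∀ χ ∈ S, IsCh χ) ∧
  ∀ x, (∀ χ ∈ S, ‖χ x - 1‖ < 1 / (κ + 1)) → x ∈ B

lemma IsB.mono {κ κ' : ℕ} {B B' : Set G} (h : IsB κ B) (a : κ ≤ κ') (b : B ⊆ B') : IsB κ' B' := by
  obtain ⟨S, h1, h2, h3⟩ := h
  exact ⟨S, h1.trans a, h2, fun x k => b (h3 x fun χ c => (k χ c).trans_le (by gcongr))⟩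

lemma IsB.inter {κ κ' : ℕ} {B B' : Set G} (h : IsB κ B) (k : IsB κ' B') : IsB (κ + κ') (B ∩ B') := by
  classical
  obtain ⟨S, h1, h2, h3⟩ := h
  obtain ⟨S', k1, k2, k3⟩ := k
  exact ⟨S ∪ S', (card_union_le _ _).trans (add_le_add h1 k1), fun χ c => (mem_union.1 c).elim (h2 χ) (k2 χ),
    fun x k => ⟨h3 x fun χ c => (k χ (mem_union_left _ c)).trans_le (by gcongr; omega),
      k3 x fun χ c => (k χ (mem_union_right _ c)).trans_le (by gcongr; omega)⟩⟩

lemma IsB.pre {κ : ℕ} {B : Set G} (h : IsB κ B) (φ : G →+ G) : IsB κ (φ ⁻¹' B) := by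
  classical
  obtain ⟨S, h1, h2, h3⟩ := h
  refine ⟨S.image (· ∘ φ), card_image_le.trans h1, fun χ c => ?_, fun x k => h3 _ fun χ c =>
    k _ (mem_image_of_mem _ c)⟩
  obtain ⟨ψ, a, rfl⟩ := mem_image.1 c
  exact ⟨fun x y => by simp [(h2 ψ a).mul], fun x => (h2 ψ a).nrm _⟩

lemma IsCh.nsub {χ : G → ℂ} (c : IsCh χ) (x y : G) : ‖χ (x - y) - 1‖ = ‖χ x - χ y‖ := by
  rw [c.sub, ← c.mc y, ← sub_mul, norm_mul, Complex.norm_conj, c.nrm, mul_one]

lemma IsB.half {κ : ℕ} {B : Set G} (h : IsB κ B) : ∃ B', IsB (2 * κ + 1) B' ∧ ∀ x ∈ B', ∀ y ∈ B', x - y ∈ B := by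
  obtain ⟨S, h1, h2, h3⟩ := h
  refine ⟨{x | ∀ χ ∈ S, ‖χ x - 1‖ < 1 / (((2 * κ + 1 : ℕ) : ℝ) + 1)}, ⟨S, by omega, h2, fun x k => k⟩,
    fun x a y b => h3 _ fun χ c => ?_⟩
  rw [(h2 χ c).nsub]
  refine (norm_sub_le_norm_sub_add_norm_sub _ 1 _).trans_lt ((add_lt_add (a χ c)
    ((norm_sub_rev _ _).trans_lt (b χ c))).trans_eq ?_)
  push_cast; field_simp; ring

lemma isB_sub (H : AddSubgroup G) [H.FiniteIndex] : IsB H.index (H : Set G) := by
  obtain ⟨S, a, b, c⟩ := cut H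
  exact ⟨S, a, b, fun x k => c x fun χ y => (k χ y).trans_le (by rw [div_le_one (by positivity)]; simp)⟩

lemma isB_lip (S : Finset (G → ℂ)) (h : ∀ χ ∈ S, IsCh χ) {k : ℕ} (c : S.card ≤ k) {η : ℝ} (e : 0 < η) :
    IsB (k + ⌈1 / η⌉₊) {x | ∀ χ ∈ S, ‖χ x - 1‖ < η} := by
  refine ⟨S, by omega, h, fun x a χ y => (a χ y).trans_le ?_⟩
  rw [one_div_le (by positivity) e]
  push_cast
  linarith [Nat.le_ceil (1 / η), (Nat.cast_nonneg k : (0 : ℝ) ≤ k)]

lemma isB_bohr {k : ℕ} (χ : Fin k → AddChar G Circle) {η : ℝ} (e : 0 < η) : IsB (k + ⌈1 / η⌉₊) (Bohr χ η) := by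
  classical
  refine (isB_lip (univ.image fun j x => (χ j x : ℂ)) (fun ψ c => ?_) (card_image_le.trans (by simp)) e).mono le_rfl
    fun x a j => a _ (mem_image_of_mem _ (mem_univ j))
  obtain ⟨j, -, rfl⟩ := mem_image.1 c
  exact ⟨fun x y => by simp [AddChar.map_add_eq_mul], fun x => by simp⟩

lemma isB_cells : ∃ n : ℕ → ℕ, ∀ κ, ∀ (G : Type) [AddCommGroup G] (B : Set G), IsB κ B →
    ∃ c : G → Fin (n κ + 1), ∀ x y, c x = c y → x - y ∈ B := by
  classical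
  choose Y fY q hq using fun κ : ℕ => net (show 0 < 1 / ((κ : ℝ) + 1) / 2 by positivity)
  refine ⟨fun κ => Fintype.card (Y κ) ^ κ, fun κ G _ B ⟨S, a, b, c⟩ => ?_⟩
  obtain ⟨e⟩ := Function.Embedding.nonempty_of_card_le (α := S → Y κ) (β := Fin (Fintype.card (Y κ) ^ κ + 1)) (by
    rw [Fintype.card_fun, Fintype.card_fin, Fintype.card_coe]
    exact (Nat.pow_le_pow_right (Fintype.card_pos_iff.2 ⟨q κ 0⟩) a).trans (Nat.le_succ _))
  refine ⟨fun x => e fun χ => q κ (χ.1 x), fun x y k => c _ fun χ z => ?_⟩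
  rw [(b χ z).nsub]
  exact (hq κ _ _ ((b χ z).nrm _) ((b χ z).nrm _) (congrFun (e.injective k) ⟨χ, z⟩)).trans_lt
    (half_lt_self (by positivity))

noncomputable def mu (m : BF G →ₗ[ℂ] ℂ) (A : Set G) : ℝ := (m (ind A)).re

lemma mu_cov (hm : IsMean m) {ι : Type} (I : Finset ι) (A : ι → Set G) (B : Set G) :
    mu m B ≤ mu m (B \ ⋃ i ∈ I, A i) + ∑ i ∈ I, mu m (A i) := by
  simp only [mu, ← Complex.re_sum, ← map_sum, ← Complex.add_re, ← map_add]
  refine hm.mono fun x => ?_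
  have n : ∀ A : Set G, 0 ≤ ((ind A).1 x).re := fun A => by by_cases k : x ∈ A <;> simp [ind, k]
  rw [add_app, show (∑ i ∈ I, ind (A i)).1 x = _ from map_sum (ev x) _ _, Complex.add_re, Complex.re_sum]
  by_cases k : x ∈ B
  · by_cases z : x ∈ ⋃ i ∈ I, A i
    · obtain ⟨i, a, b⟩ := Set.mem_iUnion₂.1 z
      have := single_le_sum (f := fun i => ((ind (A i)).1 x).re) (fun i _ => n _) a
      simp only [ind, k, b, if_true] at this ⊢
      exact this.trans (le_add_of_nonneg_left (n _))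
    · have : ((ind (B \ ⋃ i ∈ I, A i)).1 x).re = ((ind B).1 x).re := by
        simp only [ind, Set.mem_diff, k, z]; simp
      exact this.ge.trans (le_add_of_nonneg_right (sum_nonneg fun i _ => n _))
  · exact le_of_eq_of_le (by simp [ind, k]) (add_nonneg (n _) (sum_nonneg fun i (_ : i ∈ I) => n (A i)))

lemma mu_empty : mu m ∅ = 0 := by rw [mu, show ind (∅ : Set G) = 0 from ext' fun x => by simp [ind]]; simp

lemma mu_mono (hm : IsMean m) {A B : Set G} (h : A ⊆ B) : mu m A ≤ mu m B := hm.mono fun x => by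
  by_cases k : x ∈ A
  · simp [ind, k, h k]
  · by_cases z : x ∈ B <;> simp [ind, k, z]

lemma mu_dens (hm : IsMean m) {n : ℕ} {B : Set G} (c : G → Fin (n + 1)) (h : ∀ x y, c x = c y → x - y ∈ B) :
    1 / (n + 1 : ℝ) ≤ mu m B := by
  have a := mu_cov hm univ (fun i => {x | c x = i}) Set.univ
  rw [show Set.univ \ ⋃ i ∈ univ, {x | c x = i} = ∅ from Set.eq_empty_of_forall_notMem fun x k => k.2 (by simp),
    mu_empty, zero_add, mu, show ind (Set.univ : Set G) = 1 from ext' fun x => by simp [ind], hm.one] at a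
  have b := sum_le_card_nsmul univ (fun i => mu m {x | c x = i}) (mu m B) fun i _ => by
    rcases Set.eq_empty_or_nonempty {x | c x = i} with e | ⟨y, e⟩
    · exact mu_mono hm (e ▸ Set.empty_subset _)
    rw [mu, mu, ← hm.inv (-y) (ind B)]
    refine hm.mono fun x => ?_
    by_cases k : c x = i
    · simp [ind, k, ← sub_eq_add_neg, h x y (k.trans e.symm)]
    · by_cases z : x + -y ∈ B <;> simp [ind, k, z]
  rw [div_le_iff₀' (by positivity)]
  simpa using a.trans b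

lemma coreB (J : Type) [Fintype J] [DecidableEq J] (hd : 3 ≤ Fintype.card J) (M : ℕ) {δ : ℝ} (hδ : 0 < δ) :
    ∃ κ : ℕ, ∀ (G : Type) [AddCommGroup G] (φ : J → G →+ G),
    (∀ j, (φ j).range.index ≠ 0 ∧ (φ j).range.index ≤ M) → ∑ j, φ j = 0 → ∀ (A : Set G) (m : BF G →ₗ[ℂ] ℂ),
    IsMean m → δ ≤ mu m A → IsB κ {g | ∃ a : J → G, (∀ j, a j ∈ A) ∧ g = ∑ j, φ j (a j)} := by
  obtain ⟨k, η, e, h⟩ := core J hd M hδ
  refine ⟨k + ⌈1 / η⌉₊, fun G _ φ a b A m c d => ?_⟩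
  obtain ⟨χ, z⟩ := h G φ a b A m c d
  exact (isB_bohr χ e).mono le_rfl z

def L2 (φ ψ : G →+ G) : AddSubgroup (G × G) where
  carrier := {s | φ s.1 + ψ s.2 = 0}
  add_mem' {a b} (h : _ = _) (k : _ = _) := by
    change _ = _; rw [Prod.fst_add, Prod.snd_add, map_add, map_add, add_add_add_comm, h, k, add_zero]
  zero_mem' := by simp
  neg_mem' {a} (h : _ = _) := by change _ = _; rw [Prod.fst_neg, Prod.snd_neg, map_neg, map_neg, ← neg_add, h, neg_zero]

variable {φ ψ : G →+ G}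

def W (F : Fam (L2 φ ψ)) (ξ : G → ℂ) (ε : ℝ) : Prop := ∀ (c : G → ℂ) (x y : G), (∀ z, ‖c z‖ ≤ 1) →
  ‖F.av fun l => c (y + l.1.2) * ξ (x + l.1.1)‖ ≤ ε

lemma W.l {F : Fam (L2 φ ψ)} {ξ : G → ℂ} {ε : ℝ} (h : W F ξ ε) (F' : Fam (L2 φ ψ)) : W (F'.conv F) ξ ε :=
  fun c x y a => by
  simp only [Fam.av_conv, AddSubgroup.coe_add, Prod.fst_add, Prod.snd_add, ← add_assoc]
  exact (F'.norm_av _).trans (F'.av_le' fun l => h c _ _ a)

lemma W.r {F : Fam (L2 φ ψ)} {ξ : G → ℂ} {ε : ℝ} (h : W F ξ ε) (F' : Fam (L2 φ ψ)) : W (F.conv F') ξ ε :=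
  fun c x y a => by
  simp only [Fam.av_conv, AddSubgroup.coe_add, Prod.fst_add, Prod.snd_add]
  rw [F.av_comm]
  refine (F'.norm_av _).trans (F'.av_le' fun l => le_of_eq_of_le ?_ (h c (x + l.1.1) (y + l.1.2) a))
  simp only [add_assoc, add_comm l.1.1, add_comm l.1.2]

lemma exW (hm : Erg m) {K : AddSubgroup G} (hK : ∀ a ∈ K, φ a ∈ ψ.range) {ρ ε : ℝ} (r0 : 0 < ρ)
    (r : ρ ≤ (m (ind K)).re) (e : 0 < ε) {g g' : BF G} (s : Sp K g) (b : B1 g) (b' : B1 g')
    (h : ∀ χ, ‖co m g χ‖ ≤ ε ^ 2 * ρ / 3) : (∃ F : Fam (L2 φ ψ), W F (fun x => m (T x g * g')) ε) ∧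
      ∃ F : Fam (L2 φ ψ), W F (fun x => m (T x g' * g)) ε := by
  obtain ⟨α, β, k⟩ := hm.uni r0 r e s b h
  choose p hp using fun a : K => hK a.1 a.2
  have q : ∀ (t : G) (v : K → ℂ), (∀ b, ‖v b‖ ≤ 1) → ‖β.av fun b => v b * m (T (t + b.1) g * g')‖ ≤ ε :=
    fun t v hv => by
    refine le_of_eq_of_le ?_ (k t (fun a => T a.1 g') (fun b => v b • 1) (fun a => b'.T _) fun b x => by simpa using hv b)
    rw [← α.av_const (β.av _)]
    congr 2; ext a; congr 1; ext b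
    rw [← hm.inv a.1 (T _ g * g'), map_mul (T _), T_T, add_left_comm]
    simp
  refine ⟨⟨β.map fun b => ⟨(b.1, -p b), by change _ = _; simp [hp]⟩, fun c x y a => q x (fun b => c (y + -p b))
    fun _ => a _⟩, β.map fun b => ⟨(-b.1, p b), by change _ = _; simp [hp]⟩, fun c x y a =>
      le_of_eq_of_le ?_ (q (-x) (fun b => c (y + p b)) fun _ => a _)⟩
  rw [Fam.av_map]
  congr 2; ext b
  rw [← hm.inv (x + -b.1) (T _ g * g'), map_mul (T _), T_T,
    show x + -b.1 + (-x + b.1) = 0 by abel]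
  simp [mul_comm]

end Pool.Agent.H4.Ncb
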