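import Pool.Agent.H4.NcbG

set_option autoImplicit false
set_option linter.unusedSectionVars false

namespace Pool.Agent.H4.Ncb

open Finset Topology Function
open scoped ComplexConjugate ComplexOrder

theorem core2 (M : ℕ) {δ : ℝ} (hδ : 0 < δ) (θ : ℕ → ℝ) (hθ : ∀ k, 0 < θ k) : ∃ Kb : ℕ,
    ∀ (G : Type) [AddCommGroup G] (φ ψ ω : G →+ G), φ.range.index ≠ 0 ∧ φ.range.index ≤ M →
    ψ.range.index ≠ 0 ∧ ψ.range.index ≤ M → ∀ (A : Set G) (m : BF G →ₗ[ℂ] ℂ), IsMean m → δ ≤ mu m A →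
    ∃ κ ≤ Kb, ∃ B, IsB κ B ∧ (θ κ ≤ mu m (A ∩ B) →
      IsB κ {u | ∃ a ∈ A, ∃ b ∈ A, ∃ c ∈ A, ∃ d ∈ A, u = φ a - φ b + ψ c + ω d}) := by
  classical
  obtain ⟨n, hn⟩ := isB_cells
  obtain ⟨δ1, e1⟩ : ∃ δ1, δ / (M + 1) = δ1 := ⟨_, rfl⟩
  have p1 : 0 < δ1 := by rw [← e1]; positivity
  obtain ⟨σ, eσ⟩ : ∃ σ, (δ1 / 4) ^ 2 / 4 = σ := ⟨_, rfl⟩
  have p2 : 0 < σ := by rw [← eσ]; positivity
  let κ2 : ℕ → ℕ := fun k => 2 * (M + (k + ⌈1 / (σ / (4 * (k + 1)))⌉₊)) + 1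
  choose κ5 h5 using fun k => coreB (Fin 4) (by simp) M
    (show 0 < 1 / (n (2 * (2 * κ2 k + 1) + 1) + 1 : ℝ) by positivity)
  let κ7 : ℕ → ℕ := fun k => (2 * κ5 k + 1) + (2 * (2 * κ5 k + 1) + 1)
  let ε : ℕ → ℝ := fun k => θ (κ7 k) / 2 * (2 * σ / (n (κ2 k) + 1)) / 3
  have p3 : ∀ k, 0 < ε k := fun k => by have := hθ (κ7 k); positivity
  let E : ℕ → ℝ := fun k => min (ε k ^ 2 * δ1 / 3) (min (δ1 / 2) 1)
  have p4 : ∀ k, 0 < E k := fun k => by have := p3 k; positivity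
  obtain ⟨Kb, hb⟩ := reg E p4 (fun k => (min_le_right _ _).trans (min_le_right _ _))
    (show 0 < σ ^ 2 / 12 by positivity)
  refine ⟨(range (Kb + 1)).sup κ7, fun G _ φ ψ ω hφ hψ A m0 hm0 hA => ?_⟩
  let K : AddSubgroup G := ψ.range.comap φ
  have i1 : K.index ∣ ψ.range.index := by
    rw [AddSubgroup.index_comap]; exact AddSubgroup.relIndex_dvd_index_of_normal _ _
  haveI : K.FiniteIndex := ⟨ne_zero_of_dvd_ne_zero hψ.1 i1⟩
  have i2 : K.index ≤ M := (Nat.le_of_dvd (Nat.pos_of_ne_zero hψ.1) i1).trans hψ.2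
  obtain ⟨c0, hc⟩ := coset (K := K) hm0 A
  obtain ⟨f, ef⟩ : ∃ f, ind {x | x ∈ K ∧ x + c0 ∈ A} = f := ⟨_, rfl⟩
  have hf : R01 K f fun x => if x ∈ K ∧ x + c0 ∈ A then 1 else 0 := by
    rw [← ef]
    exact ⟨fun x => by by_cases k : x ∈ K ∧ x + c0 ∈ A <;> simp [ind, k], fun x => by
      beta_reduce; split_ifs <;> simp, fun x k => by simp [k]⟩
  obtain ⟨m, hm, h1⟩ := hm0.exErg f
  rw [ef] at hc
  have f1 : δ1 ≤ (m f).re := by
    refine le_trans ?_ h1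
    have : 0 ≤ (m0 f).re := by simpa using hm0.mono (f := 0) (g := f) fun x => by simpa [hf.1] using (hf.2.1 x).1
    have q : (K.index : ℝ) ≤ M + 1 := by exact_mod_cast i2.trans (Nat.le_succ _)
    rw [← e1, div_le_iff₀' (by positivity)]
    exact hA.trans (hc.trans (by gcongr))
  have f2 : δ1 ≤ (m (ind K)).re := f1.trans (hm.mono fun x => by
    by_cases k : x ∈ K <;> simp [hf.1, ind, k]
    split_ifs <;> simp)
  obtain ⟨k, k1, h, h', r', ⟨r, S, c1, c2⟩, c3, c4, c5⟩ := hb G m K f _ hm.toIsMean hf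
  have g1 : B1 (f - h') := by simpa using hf.d c3 0 0
  have g2 : Sp K (f - h') := fun x y => by simp [hf.sp x y, c3.sp x y]
  obtain ⟨⟨F1, u1⟩, -⟩ := exW (φ := φ) (ψ := ψ) hm (fun _ x => x) p1 f2 (p3 k) g2 g1 hf.b
    fun χ => (c5 χ).trans (min_le_left _ _)
  obtain ⟨-, F2, u2⟩ := exW (φ := φ) (ψ := ψ) hm (fun _ x => x) p1 f2 (p3 k) g2 g1 c3.b
    fun χ => (c5 χ).trans (min_le_left _ _)
  obtain ⟨D1, b1, d1⟩ := (((isB_sub K).mono i2 le_rfl).inter (isB_lip S c2.2.1 c2.1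
    (show 0 < σ / (4 * (k + 1)) by positivity))).half
  obtain ⟨D2, b2, d2⟩ := b1.half
  obtain ⟨D3, b3, d3⟩ := b2.half
  obtain ⟨c3', hc3⟩ := hn _ G D3 b3
  have ng : (-φ).range = φ.range := AddSubgroup.ext fun x =>
    ⟨fun ⟨y, e⟩ => ⟨-y, by simpa using e⟩, fun ⟨y, e⟩ => ⟨-y, by simpa using e⟩⟩
  obtain ⟨D4, b4, d4⟩ := (h5 k G ![φ, -φ, -φ, φ] (fun j => by fin_cases j <;> simpa [ng] using hφ)
    (by simp [Fin.sum_univ_four]) D3 m0 hm0 (mu_dens hm0 c3' hc3)).half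
  obtain ⟨D5, b5, d5⟩ := b4.half
  refine ⟨κ7 k, le_sup (f := κ7) (mem_range.2 (by omega)), ψ ⁻¹' D4 ∩ ω ⁻¹' D5, (b4.pre ψ).inter (b5.pre ω),
    fun hC => b5.mono (Nat.le_add_left _ _) fun u hu => ?_⟩
  obtain ⟨C, eC⟩ : ∃ C, A ∩ (ψ ⁻¹' D4 ∩ ω ⁻¹' D5) = C := ⟨_, rfl⟩
  have C1 : ∀ y ∈ C, y ∈ A ∧ ψ y ∈ D4 ∧ ω y ∈ D5 := fun y k => by rw [← eC] at k; exact k
  rw [eC] at hC
  obtain ⟨d, hd⟩ : C.Nonempty := Set.nonempty_iff_ne_empty.2 fun e => by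
    rw [e, mu_empty] at hC; exact hC.not_gt (hθ _)
  have C2 : ∀ y ∈ C, ∃ x ∈ D1, φ x = u - ω d - ψ y := fun y k => by
    obtain ⟨a, a1, a2⟩ := d4 _ (d5 _ hu _ (C1 d hd).2.2) _ (C1 y k).2.1
    refine ⟨_, d2 _ (d3 _ (a1 0) _ (a1 1)) _ (d3 _ (a1 2) _ (a1 3)), ?_⟩
    rw [a2, Fin.sum_univ_four]; simp; abel
  obtain ⟨c, hcc⟩ := hn _ G D1 b1
  have x : ∀ i, ∃ y, φ y = 0 ∧ ((∃ y, φ y = 0 ∧ c y = i) → c y = i) := fun i => by
    by_cases e : ∃ y, φ y = 0 ∧ c y = i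
    · exact e.imp fun y z => ⟨z.1, fun _ => z.2⟩
    · exact ⟨0, map_zero _, fun z => (e z).elim⟩
  choose rep x1 x2 using x
  let N0 : Fam (L2 φ ψ) := ⟨Fin (n (κ2 k) + 1), fun i => ⟨(-rep i, 0), by change _ = _; simp [x1]⟩⟩
  have ci : ∀ z, ‖(ind C).1 z‖ ≤ 1 := fun z => by by_cases e : z ∈ C <;> simp [ind, e]
  obtain ⟨y, hy⟩ : ∃ y, θ (κ7 k) / 2 < (F1.conv F2).av fun l => ((ind C).1 (y + l.1.2)).re := by
    by_contra! z
    have := hm0.mono (f := (F1.conv F2).av fun l => T l.1.2 (ind C)) (g := ((θ (κ7 k) / 2 : ℝ) : ℂ) • 1) fun y => by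
      rw [Fam.av_app, Fam.av_re]; simpa using z y
    simp only [hm0.const, Fam.av_hom _ m0, hm0.inv, Fam.av_const, Complex.ofReal_re] at this
    linarith [hθ (κ7 k), show θ (κ7 k) ≤ (m0 (ind C)).re from hC]
  obtain ⟨x, hx⟩ : ∃ x, φ x = u - ω d - ψ y := by
    by_contra! z
    refine hy.not_ge (((F1.conv F2).av_le' fun l => ?_).trans (half_pos (hθ _)).le)
    by_cases e : y + l.1.2 ∈ C
    · obtain ⟨x, -, v⟩ := C2 _ e
      refine (z (x - l.1.1) ?_).elim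
      rw [map_sub, v, map_add, eq_neg_of_add_eq_zero_left (show φ l.1.1 + ψ l.1.2 = 0 from l.2)]; abel
    · simp [ind, e]
  have n0 : ∀ z, 0 ≤ (m (T z h' * h')).re := fun z => by
    simpa using hm.mono (f := 0) (g := T z h' * h') fun w => by
      simpa [c3.1] using mul_nonneg (c3.2.1 (w + z)).1 (c3.2.1 w).1
  have w1 := ((u1.r F2).r N0) (ind C).1 x y ci
  have w2 := ((u2.l F1).r N0) (ind C).1 x y ci
  have w3 : 3 * ε k ≤ ((((F1.conv F2).conv N0).av fun l =>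
      (ind C).1 (y + l.1.2) * m (T (x + l.1.1) h' * h'))).re := by
    simp only [ε]
    rw [mul_div_cancel₀ _ three_ne_zero, Fam.av_conv, Fam.av_re]
    refine (mul_le_mul_of_nonneg_right hy.le (by positivity)).trans ?_
    rw [Fam.av_mul]
    refine Fam.av_le _ fun l => ?_
    simp only [N0, Fam.av, Fintype.card_fin, AddSubgroup.coe_add, Prod.snd_add, Prod.fst_add, add_zero, ← mul_sum]
    by_cases e : y + l.1.2 ∈ C
    swap
    · simp [ind, e]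
    obtain ⟨x0, v1, v2⟩ := C2 _ e
    have v3 : φ (x + l.1.1 - x0) = 0 := by
      rw [map_sub, v2, map_add, map_add, hx, eq_neg_of_add_eq_zero_left (show φ l.1.1 + ψ l.1.2 = 0 from l.2)]; abel
    have v4 := d1 _ v1 _ (hcc _ _ (x2 _ ⟨_, v3, rfl⟩))
    have := low hm.toIsMean c1 c2 c3 (a := δ1 / 4) (by positivity) p2 c4 (by
      have := (abs_le.1 ((Complex.abs_re_le_norm _).trans ((c5 1).trans ((min_le_right _ _).trans
        (min_le_left _ _))))).2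
      rw [co_eq ⟨by simp, by simp⟩, show (f - h') * star (IsCh.bf _) = f - h' from ext' fun x => by simp [IsCh.bf],
        map_sub, Complex.sub_re] at this
      linarith) (0 : Fin 2) ![x0 - (rep (c (x + l.1.1 - x0)) - (x + l.1.1 - x0)), 0]
      (Fin.forall_fin_two.2 ⟨v4.1, K.zero_mem⟩) (Fin.forall_fin_two.2 ⟨fun χ z => (v4.2 χ z).le, fun χ z => by
        simp only [Matrix.cons_val_one, Matrix.cons_val_zero, (c2.2.1 χ z).zero, sub_self, norm_zero]; positivity⟩)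
    have s := single_le_sum (f := fun i => (m (T (x + (l.1.1 + -rep i)) h' * h')).re) (fun i _ => n0 _)
      (mem_univ (c (x + l.1.1 - x0)))
    rw [lam, Fin.prod_univ_two, show x0 - (rep (c (x + l.1.1 - x0)) - (x + l.1.1 - x0)) =
      x + (l.1.1 + -rep (c (x + l.1.1 - x0))) by abel] at this
    simp only [Matrix.cons_val_one, Matrix.cons_val_zero, T_zero, Fintype.card_fin] at this
    simp only [ind, e, if_true, Complex.one_re, one_mul, Complex.smul_re, Complex.re_sum, smul_eq_mul]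
    rw [div_eq_inv_mul, Nat.cast_succ]
    push_cast at this
    gcongr
    linarith
  by_contra z
  have w4 : ((((F1.conv F2).conv N0).av fun l => (ind C).1 (y + l.1.2) * m (T (x + l.1.1) f * f))) = 0 := by
    rw [← ((F1.conv F2).conv N0).av_const (0 : ℂ)]
    congr 1; ext l
    by_cases e : y + l.1.2 ∈ C
    swap
    · simp [ind, e]
    rw [show T (x + l.1.1) f * f = 0 from ext' fun w => ?_, map_zero, mul_zero]
    by_contra v
    have q : ∀ t, f.1 t ≠ 0 → t + c0 ∈ A := fun t a => by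
      by_contra b
      exact a (by rw [hf.1]; beta_reduce; rw [if_neg fun w => b w.2]; simp)
    refine z ⟨_, q _ (left_ne_zero_of_mul v), _, q _ (right_ne_zero_of_mul v), _, (C1 _ e).1, d, (C1 d hd).1, ?_⟩
    simp only [map_add, hx, eq_neg_of_add_eq_zero_left (show φ l.1.1 + ψ l.1.2 = 0 from l.2)]; abel
  simp only [map_sub, sub_mul, mul_sub, Fam.av_sub, w4] at w1 w2
  have v1 := (abs_le.1 ((Complex.abs_re_le_norm _).trans w1)).1
  have v2 := (abs_le.1 ((Complex.abs_re_le_norm _).trans w2)).1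
  simp only [Complex.sub_re, Complex.zero_re] at v1 v2
  linarith [p3 k]

variable (J : Type) [Fintype J] [DecidableEq J]

def Sm {G J : Type} [AddCommGroup G] [Fintype J] (φ : J → G →+ G) (A : Set G) : Set G :=
  {g | ∃ a : J → G, (∀ j, a j ∈ A) ∧ g = ∑ j, φ j (a j)}

theorem dich (hd : 3 ≤ Fintype.card J) (M : ℕ) {δ : ℝ} (hδ : 0 < δ) (θ : ℕ → ℝ) (hθ : ∀ k, 0 < θ k) : ∃ Kb : ℕ,
    ∀ (G : Type) [AddCommGroup G] (φ : J → G →+ G), (∀ j, (φ j).range.index ≠ 0 ∧ (φ j).range.index ≤ M) →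
    (∃ S : Finset J, S.Nonempty ∧ ∑ j ∈ S, φ j = 0) → ∀ (A : Set G) (m : BF G →ₗ[ℂ] ℂ), IsMean m → δ ≤ mu m A →
    ∃ κ ≤ Kb, ∃ B, IsB κ B ∧ (θ κ ≤ mu m (A ∩ B) → IsB κ (Sm φ A)) := by
  obtain ⟨K2, h2⟩ := core2 M hδ θ hθ
  have : ∀ S : Finset J, ∃ κ : ℕ, 3 ≤ S.card → ∀ (G : Type) [AddCommGroup G] (φ : S → G →+ G),
      (∀ j, (φ j).range.index ≠ 0 ∧ (φ j).range.index ≤ M) → ∑ j, φ j = 0 → ∀ (A : Set G) (m : BF G →ₗ[ℂ] ℂ),
      IsMean m → δ ≤ mu m A → IsB κ (Sm φ A) := fun S => by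
    by_cases c : 3 ≤ S.card
    · exact (coreB S (by simpa using c) M hδ).imp fun _ k _ => k
    · exact ⟨0, fun k => (c k).elim⟩
  choose K3 h3 using this
  refine ⟨M + K2 + univ.sup fun S => 2 * K3 S + 1, fun G _ φ hφ ⟨S, s1, s2⟩ A m hm hA => ?_⟩
  have ne : ∀ κ B, θ κ ≤ mu m (A ∩ B) → (A ∩ B).Nonempty := fun κ B k => Set.nonempty_iff_ne_empty.2 fun e => by
    rw [e, mu_empty] at k; exact k.not_gt (hθ _)
  obtain c | c | c : S.card = 1 ∨ S.card = 2 ∨ 3 ≤ S.card := by have := s1.card_pos; omega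
  · obtain ⟨j, rfl⟩ := card_eq_one.1 c
    rw [sum_singleton] at s2
    haveI : (φ j).range.FiniteIndex := ⟨(hφ j).1⟩
    have b := (isB_sub (φ j).range).mono (hφ j).2 le_rfl
    have z : ∀ x ∈ ((φ j).range : Set G), x = 0 := fun x ⟨y, e⟩ => by rw [← e, s2]; rfl
    refine ⟨M, by omega, _, b, fun k => b.mono le_rfl fun x hx => ?_⟩
    obtain ⟨a, a1, a2⟩ := ne _ _ k
    exact ⟨fun _ => a, fun _ => a1, by simp [z x hx, z a a2]⟩
  · obtain ⟨i, j, ij, rfl⟩ := card_eq_two.1 c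
    rw [sum_pair ij] at s2
    obtain ⟨l, -, hl⟩ := exists_mem_notMem_of_card_lt_card (s := {i, j}) (t := univ) (by rw [c, card_univ]; omega)
    simp only [mem_insert, mem_singleton, not_or] at hl
    obtain ⟨κ, k1, B, k2, k3⟩ := h2 G (φ i) (φ l) (∑ j, φ j - φ l) (hφ i) (hφ l) A m hm hA
    refine ⟨κ, by omega, B, k2, fun k => (k3 k).mono le_rfl ?_⟩
    rintro _ ⟨a, ha, b, hb, c, hc, d, hd, rfl⟩
    refine ⟨(fun _ => d) + Pi.single i (a - d) + Pi.single j (b - d) + Pi.single l (c - d), fun t => ?_, ?_⟩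
    · by_cases t1 : t = i
      · subst t1; simpa [ij, Ne.symm hl.1] using ha
      by_cases t2 : t = j
      · subst t2; simpa [t1, Ne.symm hl.2] using hb
      by_cases t3 : t = l
      · subst t3; simpa [t1, t2] using hc
      simpa [t1, t2, t3] using hd
    · simp only [Pi.add_apply, map_add, sum_add_distrib, sum_sing, map_sub, AddMonoidHom.sub_apply,
        AddMonoidHom.finset_sum_apply, eq_neg_of_add_eq_zero_right s2, AddMonoidHom.neg_apply]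
      abel
  · obtain ⟨B, b1, b2⟩ := (h3 S c G (fun j => φ j) (fun j => hφ j) (by rw [sum_coe_sort S φ, s2]) A m hm hA).half
    refine ⟨_, (le_sup (f := fun S => 2 * K3 S + 1) (mem_univ S)).trans (Nat.le_add_left _ _), _,
      b1.pre (∑ j ∈ Sᶜ, φ j), fun k => b1.mono le_rfl fun u hu => ?_⟩
    obtain ⟨a, a1, a2⟩ := ne _ _ k
    obtain ⟨x, x1, x2⟩ := b2 u hu _ a2
    refine ⟨fun j => if h : j ∈ S then x ⟨j, h⟩ else a, fun j => by by_cases h : j ∈ S <;> simp [h, x1, a1], ?_⟩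
    beta_reduce at x2 ⊢
    rw [← sum_add_sum_compl S, ← sum_coe_sort S, sum_congr rfl fun (j : S) _ => by rw [dif_pos j.2],
      sum_congr rfl fun j (h : j ∈ Sᶜ) => by rw [dif_neg (mem_compl.1 h)], ← x2, AddMonoidHom.finset_sum_apply,
      sub_add_cancel]

theorem iter (hd : 3 ≤ Fintype.card J) (M r : ℕ) : ∀ κ : ℕ, ∃ θ : ℝ, 0 < θ ∧ ∃ κ' : ℕ,
    ∀ (G : Type) [AddCommGroup G] (φ : J → G →+ G), (∀ j, (φ j).range.index ≠ 0 ∧ (φ j).range.index ≤ M) →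
    (∃ S : Finset J, S.Nonempty ∧ ∑ j ∈ S, φ j = 0) → ∀ (m : BF G →ₗ[ℂ] ℂ), IsMean m → ∀ (ι : Type) (A : ι → Set G)
    (I : Finset ι), I.card = r → ∀ B, IsB κ B → mu m (B \ ⋃ i ∈ I, A i) < θ → ∃ i, IsB κ' (Sm φ (A i)) := by
  classical
  obtain ⟨n, hn⟩ := isB_cells
  induction r with
  | zero =>
    refine fun κ => ⟨1 / (n κ + 1 : ℝ), by positivity, 0, fun G _ φ _ _ m hm ι A I c B b k => ?_⟩
    obtain ⟨q, hq⟩ := hn κ G B b
    rw [card_eq_zero.1 c] at k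
    exact absurd (mu_dens hm q hq) (by simpa using k)
  | succ r ih =>
    intro κ
    choose θ t0 κ' ih using ih
    obtain ⟨Kb, hb⟩ := dich J hd M (show 0 < 1 / (n κ + 1 : ℝ) / 2 / (r + 1) by positivity)
      (fun k => θ (κ + k) / 2) fun k => half_pos (t0 _)
    obtain ⟨k0, -, h0⟩ := exists_min_image (range (Kb + 1)) (fun k => θ (κ + k) / 2) ⟨0, by simp⟩
    refine ⟨min (1 / (n κ + 1 : ℝ) / 2) (θ (κ + k0) / 2), lt_min (by positivity) (half_pos (t0 _)),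
      Kb + (range (Kb + 1)).sup fun k => κ' (κ + k), fun G _ φ hφ hS m hm ι A I c B b k => ?_⟩
    obtain ⟨q, hq⟩ := hn κ G B b
    obtain ⟨i, i1, i2⟩ : ∃ i ∈ I, 1 / (n κ + 1 : ℝ) / 2 / (r + 1) ≤ mu m (A i) := by
      by_contra! z
      have a := sum_le_card_nsmul I _ _ fun i y => (z i y).le
      rw [c, nsmul_eq_mul, Nat.cast_succ, mul_div_cancel₀ _ (by positivity)] at a
      linarith [mu_cov hm I A B, mu_dens hm q hq, k.trans_le (min_le_left _ _)]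
    obtain ⟨l, l1, D, l2, l3⟩ := hb G φ hφ hS (A i) m hm i2
    by_cases z : θ (κ + l) / 2 ≤ mu m (A i ∩ D)
    · exact ⟨i, (l3 z).mono (by omega) le_rfl⟩
    obtain ⟨j, hj⟩ := ih (κ + l) G φ hφ hS m hm ι A (I.erase i) (by rw [card_erase_of_mem i1, c]; rfl) _ (b.inter l2) (by
      have a := mu_cov hm {()} (fun _ => A i ∩ D) ((B ∩ D) \ ⋃ j ∈ I.erase i, A j)
      have a2 : mu m (((B ∩ D) \ ⋃ j ∈ I.erase i, A j) \ ⋃ _x ∈ ({()} : Finset Unit), A i ∩ D) ≤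
          mu m (B \ ⋃ i ∈ I, A i) := mu_mono hm fun x ⟨⟨x1, x2⟩, x3⟩ => ⟨x1.1, fun y => by
        obtain ⟨j, y1, y2⟩ := Set.mem_iUnion₂.1 y
        by_cases e : j = i
        · exact x3 (Set.mem_iUnion₂.2 ⟨(), mem_singleton_self _, e ▸ y2, x1.2⟩)
        · exact x2 (Set.mem_iUnion₂.2 ⟨j, mem_erase.2 ⟨e, y1⟩, y2⟩)⟩
      rw [sum_singleton] at a
      linarith [k.trans_le (min_le_right _ _), h0 l (mem_range.2 (by omega)), not_le.1 z])
    exact ⟨j, hj.mono ((le_sup (f := fun k => κ' (κ + k)) (mem_range.2 (by omega))).trans (Nat.le_add_left _ _)) le_rfl⟩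

theorem part (hd : 3 ≤ Fintype.card J) (M r : ℕ) : ∃ (k : ℕ) (η : ℝ), 0 < η ∧
    ∀ (G : Type) [AddCommGroup G] (φ : J → G →+ G), (∀ j, (φ j).range.index ≠ 0 ∧ (φ j).range.index ≤ M) →
    (∃ S : Finset J, S.Nonempty ∧ ∑ j ∈ S, φ j = 0) → ∀ A : Fin r → Set G, (∀ g, ∃ i, g ∈ A i) →
    ∃ i, ∃ χ : Fin k → AddChar G Circle, Bohr χ η ⊆ Sm φ (A i) := by
  obtain ⟨θ, t, κ, h⟩ := iter J hd M r 0
  refine ⟨κ, 1 / (κ + 1), by positivity, fun G _ φ a b A c => ?_⟩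
  obtain ⟨m, hm⟩ := exMean G
  obtain ⟨i, S, s1, s2, s3⟩ := h G φ a b m hm _ A univ (by simp) Set.univ ⟨∅, by simp, by simp, by simp⟩ (by
    rwa [show Set.univ \ ⋃ i ∈ univ, A i = ∅ from Set.eq_empty_of_forall_notMem fun x k => k.2 (by simpa using c x),
      mu_empty])
  obtain ⟨χ, k⟩ := toBohr S s2 s1 (1 / (κ + 1))
  exact ⟨i, χ, fun u hu => s3 u (k u hu)⟩

end Pool.Agent.H4.Ncb
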