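import Pool.Agent.H4.OneAllDefs

set_option autoImplicit false

namespace Pool.Agent.H4.OneAll

inductive T : Type
  | o : T
  | n (l : T) (v : ℕ) (r : T) : T

open T

def T.mem : T → ℕ → Bool
  | o, _ => false
  | n l v r, x => if x < v then l.mem x else if v < x then r.mem x else true

def T.every (p : ℕ → Bool) : T → Bool
  | o => true
  | n l v r => l.every p && (p v && r.every p)

lemma T.every_mem {p : ℕ → Bool} : ∀ (t : T) (x : ℕ), t.every p = true → t.mem x = true → p x = true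
  | o, _, _, h => by simp [T.mem] at h
  | n l v r, x, h1, h => by
    simp only [T.every, Bool.and_eq_true] at h1
    unfold T.mem at h
    split_ifs at h with h2 h3
    · exact T.every_mem l x h1.1 h
    · exact T.every_mem r x h1.2.2 h
    · rw [show x = v by omega]
      exact h1.2.1

def t0 : T := (n (n (n (n (n (n o 0 o) 16 o) 18 (n o 20 o)) 22 (n (n o 24 o) 26 (n o 32 o))) 34 (n (n (n o 36 o) 38 (n o 40 o)) 42 (n (n o 48 o) 50 (n o 52 o)))) 54 (n (n (n (n (n o 56 o) 64 o) 66 (n o 68 o)) 70 (n (n o 72 o) 80 (n o 82 o))) 84 (n (n (n o 86 o) 96 (n o 98 o)) 100 (n (n o 102 o) 114 (n o 116 o)))))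

def t1 : T := (n (n (n (n (n (n o 130 o) 132 o) 146 (n o 160 o)) 279 (n (n o 305 o) 307 (n o 309 o))) 311 (n (n (n o 337 o) 339 (n o 369 o)) 401 (n (n o 528 o) 530 (n o 532 o)))) 534 (n (n (n (n o 536 o) 592 (n o 594 o)) 596 (n (n o 624 o) 626 (n o 784 o))) 786 (n (n (n o 788 o) 790 (n o 792 o)) 816 (n (n o 818 o) 820 (n o 822 o)))))

def t2 : T := (n t0 128 t1)

def t3 : T := (n (n (n (n (n (n o 850 o) 852 o) 880 (n o 882 o)) 912 (n (n o 1040 o) 1042 (n o 1044 o))) 1072 (n (n (n o 1074 o) 1104 (n o 1296 o)) 1298 (n (n o 1300 o) 1328 (n o 1330 o)))) 1360 (n (n (n (n o 1392 o) 4096 (n o 4098 o)) 4100 (n (n o 4102 o) 4104 (n o 4106 o))) 4112 (n (n (n o 4114 o) 4116 (n o 4118 o)) 4120 (n (n o 4122 o) 4144 (n o 4146 o)))))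

def t4 : T := (n (n (n (n (n (n o 4150 o) 4152 o) 4176 (n o 4178 o)) 4180 (n (n o 4182 o) 4208 (n o 4210 o))) 4212 (n (n (n o 4240 o) 4353 (n o 4355 o)) 4357 (n (n o 4359 o) 4385 (n o 4387 o)))) 4389 (n (n (n (n o 4391 o) 4417 (n o 4419 o)) 4421 (n (n o 4449 o) 4451 (n o 4481 o))) 8194 (n (n (n o 8196 o) 8198 (n o 8200 o)) 8202 (n (n o 8224 o) 8226 (n o 8228 o)))))

def t5 : T := (n t3 4148 t4)

def t6 : T := (n t2 848 t5)

def t7 : T := (n (n (n (n (n (n o 8232 o) 8256 o) 8258 (n o 8260 o)) 8262 (n (n o 8288 o) 8290 (n o 8292 o))) 8320 (n (n (n o 8465 o) 8467 (n o 8469 o)) 8471 (n (n o 8497 o) 8499 (n o 8501 o)))) 8529 (n (n (n (n (n o 8531 o) 8561 o) 8720 (n o 8722 o)) 8724 (n (n o 8726 o) 8752 (n o 8754 o))) 8756 (n (n (n o 8784 o) 8786 (n o 8816 o)) 12288 (n (n o 12290 o) 12292 (n o 12294 o)))))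

def t8 : T := (n (n (n (n (n (n o 12306 o) 12308 o) 12310 (n o 12312 o)) 12338 (n (n o 12340 o) 12342 (n o 12370 o))) 12372 (n (n (n o 12402 o) 12561 (n o 12563 o)) 12565 (n (n o 12593 o) 12595 (n o 12625 o)))) 12627 (n (n (n (n o 12657 o) 12802 (n o 12804 o)) 12806 (n (n o 12832 o) 12834 (n o 12836 o))) 12864 (n (n (n o 12866 o) 12896 (n o 13312 o)) 13314 (n (n o 13316 o) 13344 (n o 13346 o)))))

def t9 : T := (n t7 12296 t8)

def t10 : T := (n (n (n (n (n (n o 13824 o) 13826 o) 13856 (n o 16384 o)) 16386 (n (n o 16388 o) 16390 (n o 16402 o))) 16404 (n (n (n o 16406 o) 16416 (n o 16418 o)) 16420 (n (n o 16422 o) 16434 (n o 16436 o)))) 16448 (n (n (n (n o 16450 o) 16452 (n o 16466 o)) 16480 (n (n o 16482 o) 16512 (n o 16657 o))) 16659 (n (n (n o 16661 o) 16689 (n o 16691 o)) 16721 (n (n o 16898 o) 16900 (n o 16902 o)))))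

def t11 : T := (n (n (n (n (n (n o 16930 o) 16932 o) 16960 (n o 16962 o)) 16976 (n (n o 16992 o) 17169 (n o 17171 o))) 17201 (n (n (n o 17410 o) 17412 (n o 17440 o)) 17442 (n (n o 17456 o) 17472 (n o 17681 o)))) 17922 (n (n (n (n o 17936 o) 17952 (n o 18432 o)) 20480 (n (n o 20482 o) 20484 (n o 20486 o))) 20502 (n (n (n o 20532 o) 20562 (n o 20817 o)) 21297 (n (n o 21777 o) 22032 (n o 356352 o)))))

def t12 : T := (n t10 16928 t11)

def t13 : T := (n t9 13376 t12)

def t14 : T := (n t6 8230 t13)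

def tr : T := t14

def mvs (c : ℕ) : List ℕ :=
  (if c = 0 then [] else [c / 16]) ++
    ((List.range 6).filter fun i => c / 16 ^ i % 16 ≠ 0).map fun i => c - 16 ^ i + 16 ^ i / 16

lemma chk : tr.every (fun c => (mvs c).all fun d => (mvs d).any tr.mem) = true := by
  decide +kernel

def code (s : Multiset ℕ) : ℕ := (s.map fun a => 16 ^ (a - 1)).sum

def sh (s : Multiset ℕ) : Multiset ℕ := (s.map (· - 1)).filter (0 < ·)

def Ok (s : Multiset ℕ) : Prop := s.card < 16 ∧ ∀ a ∈ s, 0 < a ∧ a ≤ 6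

lemma code_cons (a : ℕ) (s : Multiset ℕ) : code (a ::ₘ s) = 16 ^ (a - 1) + code s := by
  simp [code]

lemma code_sh (s : Multiset ℕ) (h : ∀ a ∈ s, 0 < a) : code s = s.count 1 + 16 * code (sh s) := by
  induction s using Multiset.induction_on with
  | empty => simp [code, sh]
  | cons a s ih =>
    have h1 := ih fun b hb => h b (Multiset.mem_cons_of_mem hb)
    have h2 := h a (Multiset.mem_cons_self _ _)
    obtain rfl | ⟨b, rfl⟩ : a = 1 ∨ ∃ b, a = b + 2 := by
      rcases Nat.lt_or_ge a 2 with h | h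
      · left; omega
      · exact Or.inr ⟨a - 2, by omega⟩
    · have : sh (1 ::ₘ s) = sh s := by simp [sh]
      rw [this, code_cons, h1]
      simp
      omega
    · have : sh ((b + 2) ::ₘ s) = (b + 1) ::ₘ sh s := by
        simp [sh]
      rw [this, code_cons, code_cons, h1, Multiset.count_cons_of_ne (by omega)]
      simp [pow_succ]
      omega

lemma count_sh (s : Multiset ℕ) (i : ℕ) : (sh s).count (i + 1) = s.count (i + 2) := by
  induction s using Multiset.induction_on with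
  | empty => simp [sh]
  | cons a s ih =>
    by_cases h : 0 < a - 1
    · have : sh (a ::ₘ s) = (a - 1) ::ₘ sh s := by
        simp only [sh, Multiset.map_cons]
        rw [Multiset.filter_cons_of_pos _ h]
      rw [this, Multiset.count_cons, Multiset.count_cons, ih]
      split_ifs <;> omega
    · have : sh (a ::ₘ s) = sh s := by
        simp only [sh, Multiset.map_cons]
        rw [Multiset.filter_cons_of_neg _ h]
      rw [this, Multiset.count_cons_of_ne (by omega), ih]

lemma ok_sh {s : Multiset ℕ} (h : Ok s) : Ok (sh s) := by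
  refine ⟨lt_of_le_of_lt (Multiset.card_le_card (Multiset.filter_le _ _)) (by simpa using h.1), ?_⟩
  intro a ha
  simp only [sh, Multiset.mem_filter, Multiset.mem_map] at ha
  obtain ⟨⟨b, hb, rfl⟩, h1⟩ := ha
  have := (h.2 b hb).2
  omega

lemma code_div {s : Multiset ℕ} (h : Ok s) : code s / 16 = code (sh s) ∧ code s % 16 = s.count 1 := by
  have h1 := code_sh s fun a ha => (h.2 a ha).1
  have h2 := Multiset.count_le_card 1 s
  have := h.1
  omega

lemma digit (i : ℕ) : ∀ s, Ok s → code s / 16 ^ i % 16 = s.count (i + 1) := by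
  induction i with
  | zero => intro s h; simpa using (code_div h).2
  | succ i ih =>
    intro s h
    rw [pow_succ', ← Nat.div_div_eq_div_mul, (code_div h).1, ih _ (ok_sh h), count_sh]

lemma code_pos {s : Multiset ℕ} (h : s ≠ 0) : 0 < code s := by
  obtain ⟨a, ha⟩ := Multiset.exists_mem_of_ne_zero h
  obtain ⟨t, rfl⟩ := Multiset.exists_cons_of_mem ha
  rw [code_cons]
  positivity

lemma mem_mvs (c e : ℕ) : e ∈ mvs c ↔ (c ≠ 0 ∧ e = c / 16) ∨
    ∃ i, i < 6 ∧ c / 16 ^ i % 16 ≠ 0 ∧ c - 16 ^ i + 16 ^ i / 16 = e := by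
  by_cases h : c = 0 <;> simp [mvs, h, and_assoc]

lemma fwd {s t : Multiset ℕ} (h : Ok s) (m : Move s t) :
    Ok t ∧ code t < code s ∧ code t ∈ mvs (code s) := by
  cases m with
  | one =>
    refine ⟨⟨by have := h.1; simp at this; omega, fun a ha => h.2 a (Multiset.mem_cons_of_mem ha)⟩,
      by simp [code_cons], (mem_mvs _ _).2 (Or.inr ⟨0, by omega, ?_, by simp [code_cons]⟩)⟩
    rw [digit 0 _ h]
    simp
  | uni a s =>
    have h1 := (h.2 _ (Multiset.mem_cons_self _ _)).2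
    have h2 : 0 < 16 ^ a := by positivity
    refine ⟨⟨by simpa using h.1, fun b hb => ?_⟩, by simp [code_cons, pow_succ],
      (mem_mvs _ _).2 (Or.inr ⟨a + 1, by omega, ?_, by simp [code_cons, pow_succ, add_comm]⟩)⟩
    · rcases Multiset.mem_cons.1 hb with rfl | hb
      · omega
      · exact h.2 b (Multiset.mem_cons_of_mem hb)
    · rw [digit _ _ h]
      simp
  | all _ h0 =>
    have h1 := code_pos h0
    have h2 := (code_div h).1
    refine ⟨ok_sh h, ?_, (mem_mvs _ _).2 (Or.inl ⟨by omega, h2.symm⟩)⟩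
    change code (sh s) < _
    omega

lemma bwd {s : Multiset ℕ} {e : ℕ} (h : Ok s) (m : e ∈ mvs (code s)) :
    ∃ t, Move s t ∧ code t = e := by
  rcases (mem_mvs _ _).1 m with ⟨h1, rfl⟩ | ⟨i, -, h1, rfl⟩
  · exact ⟨_, Move.all s (by rintro rfl; simp [code] at h1), (code_div h).1.symm⟩
  · rw [digit _ _ h, Multiset.count_ne_zero] at h1
    obtain ⟨t, rfl⟩ := Multiset.exists_cons_of_mem h1
    cases i with
    | zero => exact ⟨_, Move.one t, by simp [code_cons]⟩
    | succ i => exact ⟨_, Move.uni i t, by simp [code_cons, pow_succ, add_comm]⟩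

lemma lose (c : ℕ) : ∀ s, Ok s → code s = c → tr.mem c = true → ∀ t, Move s t → Win t := by
  induction c using Nat.strong_induction_on with
  | _ c ih =>
    rintro s hs rfl hc t m
    obtain ⟨h1, h2, h3⟩ := fwd hs m
    have h4 := T.every_mem tr _ chk hc
    simp only [List.all_eq_true, List.any_eq_true] at h4
    obtain ⟨e, h5, h6⟩ := h4 _ h3
    obtain ⟨u, h7, rfl⟩ := bwd h1 h5
    obtain ⟨h8, h9, -⟩ := fwd h1 h7
    exact Win.mk t u h7 (ih _ (by omega) u h8 rfl h6)

theorem win : Win {6, 6, 6, 6, 6, 5, 5, 5, 5, 5, 5, 5} := by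
  have h : Ok {6, 6, 6, 6, 6, 5, 5, 5, 5, 5, 5, 5} := by unfold Ok; decide
  have h1 : (mvs (code {6, 6, 6, 6, 6, 5, 5, 5, 5, 5, 5, 5})).any tr.mem = true := by
    decide +kernel
  simp only [List.any_eq_true] at h1
  obtain ⟨e, h5, h6⟩ := h1
  obtain ⟨u, h7, rfl⟩ := bwd h h5
  exact Win.mk _ u h7 (lose _ u (fwd h h7).1 rfl h6)

end Pool.Agent.H4.OneAll
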