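import Mathlib

set_option autoImplicit false

namespace Pool.Agent.H4.OneAll

/-- Moves on a multiset of pile sizes: remove one token from one pile (a pile that becomes empty
is discarded), or one token from every pile. -/
inductive Move : Multiset ℕ → Multiset ℕ → Prop
  | one (s : Multiset ℕ) : Move (1 ::ₘ s) s
  | uni (a : ℕ) (s : Multiset ℕ) : Move ((a + 2) ::ₘ s) ((a + 1) ::ₘ s)
  | all (s : Multiset ℕ) : s ≠ 0 → Move s ((s.map (· - 1)).filter (0 < ·))

/-- The player to move wins (normal play): some move leads to a position from which every move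
leads to a position won by the player then to move. -/
inductive Win : Multiset ℕ → Prop
  | mk (s t : Multiset ℕ) : Move s t → (∀ u, Move t u → Win u) → Win s

/-- The set `S_k`. -/
def S (k : ℕ) : Set ℕ :=
  {j | j ≤ k ∧ if k % 2 = 1 then j % 2 = 0 else (j % 2 = 0 ∧ 2 * j < k) ∨ (j % 2 = 1 ∧ k < 2 * j)}

end Pool.Agent.H4.OneAll
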