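import Mathlib
import Pool.Agent.H4.Dirac

set_option autoImplicit false

namespace Pool.Agent.H4.SPZero

open SimpleGraph Finset

variable {V : Type*}

lemma reach_add {H H' : SimpleGraph V} {u w : V}
    (h : ∀ a b, H'.Adj a b → H.Adj a b ∨ (a = u ∧ b = w) ∨ (a = w ∧ b = u)) {x y : V}
    (hxy : H'.Reachable x y) :
    H.Reachable x y ∨ (H.Reachable x u ∧ H.Reachable w y) ∨ (H.Reachable x w ∧ H.Reachable u y) := by
  rw [reachable_iff_reflTransGen] at hxy
  induction hxy with
  | refl => exact Or.inl (.refl _)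
  | tail _ hab ih =>
    rcases h _ _ hab with h1 | ⟨rfl, rfl⟩ | ⟨rfl, rfl⟩
    · rcases ih with i | ⟨i, j⟩ | ⟨i, j⟩
      · exact Or.inl (i.trans h1.reachable)
      · exact Or.inr (Or.inl ⟨i, j.trans h1.reachable⟩)
      · exact Or.inr (Or.inr ⟨i, j.trans h1.reachable⟩)
    · rcases ih with i | ⟨i, j⟩ | ⟨i, j⟩
      · exact Or.inr (Or.inl ⟨i, .refl _⟩)
      · exact Or.inr (Or.inl ⟨i, .refl _⟩)
      · exact Or.inl i
    · rcases ih with i | ⟨i, j⟩ | ⟨i, j⟩
      · exact Or.inr (Or.inr ⟨i, .refl _⟩)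
      · exact Or.inl i
      · exact Or.inr (Or.inr ⟨i, .refl _⟩)

lemma card_add [Finite V] {H H' : SimpleGraph V} {u w : V} (hle : H ≤ H') (huw : H'.Adj u w)
    (h : ∀ a b, H'.Adj a b → H.Adj a b ∨ (a = u ∧ b = w) ∨ (a = w ∧ b = u))
    (hn : ¬ H.Reachable u w) :
    Nat.card H'.ConnectedComponent + 1 = Nat.card H.ConnectedComponent := by
  classical
  let f : {c : H.ConnectedComponent // c ≠ H.connectedComponentMk w} → H'.ConnectedComponent :=
    fun c => c.1.map (Hom.ofLE hle)
  have hf : Function.Bijective f := by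
    constructor
    · rintro ⟨c, hc⟩ ⟨d, hd⟩ hcd
      induction c using ConnectedComponent.ind with
      | _ x =>
      induction d using ConnectedComponent.ind with
      | _ y =>
      have h1 : H'.Reachable x y := ConnectedComponent.exact hcd
      apply Subtype.ext
      rcases reach_add h h1 with i | ⟨-, j⟩ | ⟨i, -⟩
      · exact ConnectedComponent.sound i
      · exact absurd (ConnectedComponent.sound j.symm) hd
      · exact absurd (ConnectedComponent.sound i) hc
    · intro c
      induction c using ConnectedComponent.ind with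
      | _ x =>
      by_cases hx : H.Reachable x w
      · refine ⟨⟨H.connectedComponentMk u, fun h2 => hn (ConnectedComponent.exact h2)⟩, ?_⟩
        exact ConnectedComponent.sound (huw.reachable.trans (hx.mono hle).symm)
      · exact ⟨⟨H.connectedComponentMk x, fun h2 => hx (ConnectedComponent.exact h2)⟩, rfl⟩
  rw [← Nat.card_eq_of_bijective f hf]
  have := Fintype.ofFinite H.ConnectedComponent
  simp only [Nat.card_eq_fintype_card, Fintype.card_subtype_compl, Fintype.card_unique]
  have : 0 < Fintype.card H.ConnectedComponent :=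
    Fintype.card_pos_iff.2 ⟨H.connectedComponentMk w⟩
  omega

lemma reach_le {H H' : SimpleGraph V} (h : ∀ a b, H.Adj a b → H'.Reachable a b) {x y : V}
    (hxy : H.Reachable x y) : H'.Reachable x y := by
  rw [reachable_iff_reflTransGen] at hxy
  induction hxy with
  | refl => exact .refl _
  | tail _ hab ih => exact ih.trans (h _ _ hab)

lemma card_same {H H' : SimpleGraph V} (h : ∀ a b, H.Adj a b → H'.Reachable a b)
    (h' : ∀ a b, H'.Adj a b → H.Reachable a b) :
    Nat.card H.ConnectedComponent = Nat.card H'.ConnectedComponent := by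
  have : H.Reachable = H'.Reachable := by
    funext x y
    exact propext ⟨reach_le h, reach_le h'⟩
  change Nat.card (Quot H.Reachable) = Nat.card (Quot H'.Reachable)
  rw [this]

noncomputable def kk (A : Finset (Sym2 V)) : ℕ :=
  Nat.card (fromEdgeSet (↑A : Set (Sym2 V))).ConnectedComponent

noncomputable def Z (q : ℂ) (E : Finset (Sym2 V)) (v : Sym2 V → ℂ) : ℂ :=
  ∑ A ∈ E.powerset, (∏ e ∈ A, v e) * q ^ kk A

lemma kk_pend [Finite V] [DecidableEq V] {A : Finset (Sym2 V)} {w u : V} (hwu : w ≠ u)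
    (hw : ∀ x, s(w, x) ∉ A) : kk (insert s(w, u) A) + 1 = kk A := by
  unfold kk
  refine card_add (u := w) (w := u) (fromEdgeSet_mono (by simp)) ?_ ?_ ?_
  · simp [fromEdgeSet_adj, hwu]
  · intro a b hab
    simp only [fromEdgeSet_adj, coe_insert, Set.mem_insert_iff, mem_coe, Sym2.eq_iff] at hab ⊢
    tauto
  · intro h
    obtain ⟨x, hx⟩ := h.nonempty_neighborSet_left hwu
    simp only [mem_neighborSet, fromEdgeSet_adj, mem_coe] at hx
    exact hw x hx.1

lemma kk_two [Finite V] [DecidableEq V] {A : Finset (Sym2 V)} {w a b : V} (hwa : w ≠ a)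
    (hwb : w ≠ b) (hab : a ≠ b) (hw : ∀ x, s(w, x) ∉ A) :
    kk (insert s(w, a) (insert s(w, b) A)) + 1 = kk (insert s(a, b) A) := by
  have h1 : kk (insert s(w, a) (insert s(a, b) A)) + 1 = kk (insert s(a, b) A) := by
    apply kk_pend hwa
    intro x hx
    rcases mem_insert.1 hx with h | h
    · rw [Sym2.eq_iff] at h; tauto
    · exact hw x h
  rw [← h1]
  congr 1
  unfold kk
  apply card_same
  · intro x y hxy
    simp only [fromEdgeSet_adj, coe_insert, Set.mem_insert_iff, mem_coe] at hxy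
    have r1 : (fromEdgeSet (↑(insert s(w, a) (insert s(a, b) A)) : Set (Sym2 V))).Reachable w b :=
      (Adj.reachable (v := a) (by simp [fromEdgeSet_adj, hwa])).trans
        (Adj.reachable (by simp [fromEdgeSet_adj, hab]))
    rcases hxy with ⟨h | h | h, hne⟩
    · exact Adj.reachable (by simp [fromEdgeSet_adj, h, hne])
    · rcases Sym2.eq_iff.1 h with ⟨rfl, rfl⟩ | ⟨rfl, rfl⟩
      · exact r1
      · exact r1.symm
    · exact Adj.reachable (by simp [fromEdgeSet_adj, h, hne])
  · intro x y hxy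
    simp only [fromEdgeSet_adj, coe_insert, Set.mem_insert_iff, mem_coe] at hxy
    have r1 : (fromEdgeSet (↑(insert s(w, a) (insert s(w, b) A)) : Set (Sym2 V))).Reachable a b :=
      (Adj.reachable (u := w) (by simp [fromEdgeSet_adj, hwa])).symm.trans
        (Adj.reachable (by simp [fromEdgeSet_adj, hwb]))
    rcases hxy with ⟨h | h | h, hne⟩
    · exact Adj.reachable (by simp [fromEdgeSet_adj, h, hne])
    · rcases Sym2.eq_iff.1 h with ⟨rfl, rfl⟩ | ⟨rfl, rfl⟩
      · exact r1
      · exact r1.symm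
    · exact Adj.reachable (by simp [fromEdgeSet_adj, h, hne])

lemma Z_insert [DecidableEq V] (q : ℂ) {E : Finset (Sym2 V)} {e : Sym2 V} (he : e ∉ E)
    (v : Sym2 V → ℂ) :
    Z q (insert e E) v =
      ∑ A ∈ E.powerset, (∏ f ∈ A, v f) * (q ^ kk A + v e * q ^ kk (insert e A)) := by
  unfold Z
  rw [sum_powerset_insert he, ← sum_add_distrib]
  refine sum_congr rfl fun A hA => ?_
  rw [prod_insert (fun h => he (mem_powerset.1 hA h))]
  ring

lemma Z_pend [Finite V] [DecidableEq V] (q : ℂ) {E : Finset (Sym2 V)} {w u : V} (hwu : w ≠ u)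
    (hw : ∀ x, s(w, x) ∉ E) (v : Sym2 V → ℂ) :
    q * Z q (insert s(w, u) E) v = (q + v s(w, u)) * Z q E v := by
  rw [Z_insert q (hw u)]
  unfold Z
  rw [mul_sum, mul_sum]
  refine sum_congr rfl fun A hA => ?_
  rw [← kk_pend hwu (fun x h => hw x (mem_powerset.1 hA h))]
  ring

lemma Z_two [Finite V] [DecidableEq V] (q : ℂ) {E : Finset (Sym2 V)} {w a b : V} (hwa : w ≠ a)
    (hwb : w ≠ b) (hab : a ≠ b) (hw : ∀ x, s(w, x) ∉ E) (v : Sym2 V → ℂ) :
    q * Z q (insert s(w, a) (insert s(w, b) E)) v =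
      ∑ A ∈ E.powerset, (∏ f ∈ A, v f) * ((q + v s(w, a) + v s(w, b)) * q ^ kk A +
        v s(w, a) * v s(w, b) * q ^ kk (insert s(a, b) A)) := by
  have h1 : s(w, a) ∉ insert s(w, b) E := by
    intro h
    rcases mem_insert.1 h with h | h
    · rw [Sym2.eq_iff] at h; tauto
    · exact hw a h
  rw [Z_insert q h1, sum_powerset_insert (hw b), ← sum_add_distrib, mul_sum]
  refine sum_congr rfl fun A hA => ?_
  have hA' : ∀ x, s(w, x) ∉ A := fun x h => hw x (mem_powerset.1 hA h)
  rw [prod_insert (hA' b), ← kk_two hwa hwb hab hA']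
  have e1 := kk_pend hwa hA'
  have e2 := kk_pend hwb hA'
  have e3 : kk (insert s(w, b) A) = kk (insert s(w, a) A) := by omega
  rw [e3, ← e1]
  ring

def Good (q : ℂ) (r : ℝ) (v : ℂ) : Prop := ‖1 + v‖ ≤ r ∧ ‖q + v‖ ≤ r * ‖v‖ ∧ q + v ≠ 0

lemma good_par {q : ℂ} {r : ℝ} (h0 : 0 < r) (h1 : r ≤ 1 / 3) (hr : r - r ^ 2 - r ^ 3 = ‖q - 1‖)
    {u v : ℂ} (hu : Good q r u) (hv : Good q r v) : Good q r (u + v + u * v) := by
  have e : 1 + (u + v + u * v) = (1 + u) * (1 + v) := by ring
  have n1 : ‖1 + (u + v + u * v)‖ ≤ r ^ 2 := by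
    rw [e, norm_mul, sq]
    exact mul_le_mul hu.1 hv.1 (norm_nonneg _) h0.le
  set y := 1 + (u + v + u * v) with hy
  have e2 : u + v + u * v = y - 1 := by rw [hy]; ring
  rw [e2]
  have e3 : q + (y - 1) = y + (q - 1) := by ring
  refine ⟨by rw [add_sub_cancel]; nlinarith, ?_, ?_⟩
  · rw [e3]
    have a1 := norm_add_le y (q - 1)
    have a2 : 1 - ‖y‖ ≤ ‖y - 1‖ := by
      have := norm_sub_norm_le (1 : ℂ) y
      rw [norm_one, norm_sub_rev] at this
      exact this
    nlinarith
  · rw [e3]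
    intro h
    have : y = -(q - 1) := by linear_combination h
    rw [this, norm_neg] at n1
    nlinarith [mul_pos h0 (show 0 < 1 - 2 * r - r ^ 2 by nlinarith)]

lemma good_ser {q : ℂ} {r : ℝ} (h0 : 0 < r) (h1 : r ≤ 1 / 3) (hr : r - r ^ 2 - r ^ 3 = ‖q - 1‖)
    (hq : q ≠ 0) {u v : ℂ} (hu : Good q r u) (hv : Good q r v) :
    q + u + v ≠ 0 ∧ Good q r (u * v / (q + u + v)) := by
  have u0 : u ≠ 0 := by
    rintro rfl
    have := hu.2.1
    simp only [norm_zero, mul_zero, norm_le_zero_iff] at this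
    exact hu.2.2 this
  have v0 : v ≠ 0 := by
    rintro rfl
    have := hv.2.1
    simp only [norm_zero, mul_zero, norm_le_zero_iff] at this
    exact hv.2.2 this
  obtain ⟨t, ht⟩ : ∃ t, t = (q + u) / u * ((q + v) / v) := ⟨_, rfl⟩
  have t0 : t ≠ 0 := by
    rw [ht]; exact mul_ne_zero (div_ne_zero hu.2.2 u0) (div_ne_zero hv.2.2 v0)
  have n1 : ‖t‖ ≤ r ^ 2 := by
    rw [ht, norm_mul, sq, norm_div, norm_div]
    refine mul_le_mul ?_ ?_ (by positivity) h0.le
    · rw [div_le_iff₀ (norm_pos_iff.2 u0)]; exact hu.2.1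
    · rw [div_le_iff₀ (norm_pos_iff.2 v0)]; exact hv.2.1
  have a2 : 1 - ‖t‖ ≤ ‖t - 1‖ := by
    have := norm_sub_norm_le (1 : ℂ) t
    rw [norm_one, norm_sub_rev] at this
    exact this
  have t1 : t - 1 ≠ 0 := by
    intro h
    rw [h, norm_zero] at a2
    nlinarith
  have e1 : q * (q + u + v) = u * v * (t - 1) := by
    rw [ht]; field_simp; ring
  have D0 : q + u + v ≠ 0 := by
    intro h
    rw [h, mul_zero] at e1
    exact mul_ne_zero (mul_ne_zero u0 v0) t1 e1.symm
  have e2 : u * v / (q + u + v) = q / (t - 1) := by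
    rw [div_eq_div_iff D0 t1]; linear_combination -e1
  refine ⟨D0, ?_⟩
  rw [e2]
  have e3 : q + q / (t - 1) = t * (q / (t - 1)) := by field_simp; ring
  refine ⟨?_, ?_, ?_⟩
  · have : 1 + q / (t - 1) = (t + (q - 1)) / (t - 1) := by field_simp; ring
    rw [this, norm_div, div_le_iff₀ (norm_pos_iff.2 t1)]
    have a1 := norm_add_le t (q - 1)
    nlinarith
  · rw [e3, norm_mul]
    exact mul_le_mul_of_nonneg_right (by nlinarith) (norm_nonneg _)
  · rw [e3]
    exact mul_ne_zero t0 (div_ne_zero hq t1)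

lemma Z_congr (q : ℂ) {E : Finset (Sym2 V)} {v v' : Sym2 V → ℂ} (h : ∀ e ∈ E, v e = v' e) :
    Z q E v = Z q E v' := by
  unfold Z
  refine sum_congr rfl fun A hA => ?_
  rw [prod_congr rfl fun e he => h e (mem_powerset.1 hA he)]

theorem Z_ne [Fintype V] [DecidableEq V] {q : ℂ} {r : ℝ} (h0 : 0 < r) (h1 : r ≤ 1 / 3)
    (hr : r - r ^ 2 - r ^ 3 = ‖q - 1‖) (hq : q ≠ 0) (m : ℕ) :
    ∀ E : Finset (Sym2 V), E.card = m → (∀ e ∈ E, ¬ e.IsDiag) →
      ¬ Dirac.K4 (fromEdgeSet (↑E : Set (Sym2 V))) → ∀ v : Sym2 V → ℂ, (∀ e ∈ E, Good q r (v e)) →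
      Z q E v ≠ 0 := by
  induction m using Nat.strong_induction_on with
  | _ m ih =>
  intro E hE hd hK v hv
  rcases E.eq_empty_or_nonempty with rfl | ⟨e, he⟩
  · simp [Z, hq]
  have hadj : ∀ x y, (fromEdgeSet (↑E : Set (Sym2 V))).Adj x y ↔ s(x, y) ∈ E := by
    intro x y
    simp only [fromEdgeSet_adj, mem_coe]
    exact ⟨fun h => h.1, fun h => ⟨h, fun hxy => hd _ h (by simp [hxy])⟩⟩
  have hlow : ∃ w z a b, s(w, z) ∈ E ∧ ∀ y, s(w, y) ∈ E → y = a ∨ y = b := by
    by_contra hno
    push Not at hno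
    induction e using Sym2.ind with
    | _ x x' =>
    refine hK (Dirac.dirac _ ((hadj x x').2 he) fun w z hwz a b => ?_)
    obtain ⟨y, hy⟩ := hno w z a b ((hadj w z).1 hwz)
    exact ⟨y, (hadj w y).2 hy.1, hy.2⟩
  have hcases : ∃ w a, s(w, a) ∈ E ∧ ((∀ y, s(w, y) ∈ E → y = a) ∨
      ∃ b, a ≠ b ∧ s(w, b) ∈ E ∧ ∀ y, s(w, y) ∈ E → y = a ∨ y = b) := by
    obtain ⟨w, z, a, b, hz, hy⟩ := hlow
    by_cases h2 : ∀ y, s(w, y) ∈ E → y = z
    · exact ⟨w, z, hz, Or.inl h2⟩
    · push Not at h2
      obtain ⟨y, hy1, hy2⟩ := h2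
      refine ⟨w, z, hz, Or.inr ⟨y, hy2.symm, hy1, fun x hx => ?_⟩⟩
      rcases hy z hz with rfl | rfl <;> rcases hy y hy1 with rfl | rfl <;>
        rcases hy x hx with rfl | rfl <;> simp_all
  obtain ⟨w, a, ha, h2 | ⟨b, hab, hb, h2⟩⟩ := hcases
  · have hwa : w ≠ a := fun h => hd _ ha (by simp [h])
    have hw : ∀ x, s(w, x) ∉ E.erase s(w, a) := by
      intro x hx
      rw [mem_erase] at hx
      exact hx.1 (by rw [h2 x hx.2])
    have hz := Z_pend q hwa hw v
    rw [insert_erase ha] at hz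
    have := ih _ (by rw [← hE]; exact card_erase_lt_of_mem ha) (E.erase s(w, a)) rfl
      (fun e he => hd e (mem_of_mem_erase he))
      (fun h => hK (h.mono (fromEdgeSet_mono (coe_subset.2 (erase_subset _ _))))) v
      (fun e he => hv e (mem_of_mem_erase he))
    intro h
    rw [h, mul_zero] at hz
    exact mul_ne_zero (hv _ ha).2.2 this hz.symm
  · have hwa : w ≠ a := fun h => hd _ ha (by simp [h])
    have hwb : w ≠ b := fun h => hd _ hb (by simp [h])
    have hne : s(w, b) ≠ s(w, a) := by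
      intro h; rw [Sym2.eq_iff] at h; tauto
    obtain ⟨F, hF⟩ : ∃ F, F = (E.erase s(w, a)).erase s(w, b) := ⟨_, rfl⟩
    have hFE : F ⊆ E := by rw [hF]; exact (erase_subset _ _).trans (erase_subset _ _)
    have hEF : insert s(w, a) (insert s(w, b) F) = E := by
      rw [hF, insert_erase (mem_erase.2 ⟨hne, hb⟩), insert_erase ha]
    have hcF : F.card + 2 = m := by
      rw [hF, card_erase_of_mem (mem_erase.2 ⟨hne, hb⟩), card_erase_of_mem ha, hE]
      have : 2 ≤ E.card := by
        have := card_le_card (show ({s(w, b), s(w, a)} : Finset _) ⊆ E by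
          intro x hx; simp only [mem_insert, mem_singleton] at hx; rcases hx with rfl | rfl <;> assumption)
        rwa [card_pair hne] at this
      omega
    have hw : ∀ x, s(w, x) ∉ F := by
      intro x hx
      rw [hF, mem_erase, mem_erase] at hx
      rcases h2 x hx.2.2 with rfl | rfl
      · exact hx.2.1 rfl
      · exact hx.1 rfl
    have hz := Z_two q hwa hwb hab hw v
    rw [hEF] at hz
    obtain ⟨D0, hg⟩ := good_ser h0 h1 hr hq (hv _ ha) (hv _ hb)
    set D := q + v s(w, a) + v s(w, b)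
    set p := v s(w, a) * v s(w, b) / D with hp
    have hpD : v s(w, a) * v s(w, b) = D * p := by rw [hp]; field_simp
    obtain ⟨F', hF'⟩ : ∃ F', F' = F.erase s(a, b) := ⟨_, rfl⟩
    have hn : s(a, b) ∉ F' := by rw [hF']; exact notMem_erase _ _
    have hF'F : F' ⊆ F := by rw [hF']; exact erase_subset _ _
    let p' : ℂ := if s(a, b) ∈ F then p + v s(a, b) + p * v s(a, b) else p
    have hg' : Good q r p' := by
      simp only [p']
      split_ifs with h
      · exact good_par h0 h1 hr hg (hv _ (hFE h))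
      · exact hg
    have hz2 : q * Z q E v = D * Z q (insert s(a, b) F') (Function.update v s(a, b) p') := by
      rw [hz, Z_insert q hn, mul_sum, Function.update_self]
      have hpr : ∀ A ∈ F'.powerset, ∏ f ∈ A, Function.update v s(a, b) p' f = ∏ f ∈ A, v f := by
        intro A hA
        refine prod_congr rfl fun f hf => Function.update_of_ne ?_ _ _
        rintro rfl
        exact hn (mem_powerset.1 hA hf)
      by_cases h : s(a, b) ∈ F
      · have e : F = insert s(a, b) F' := by rw [hF', insert_erase h]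
        rw [e, sum_powerset_insert hn, ← sum_add_distrib]
        refine sum_congr rfl fun A hA => ?_
        rw [hpr A hA, prod_insert (fun h => hn (mem_powerset.1 hA h)), insert_idem, hpD]
        simp only [p', h, if_true]
        ring
      · have e : F' = F := by rw [hF', erase_eq_of_notMem h]
        rw [← e]
        refine sum_congr rfl fun A hA => ?_
        rw [hpr A hA, hpD]
        simp only [p', h, if_false]
        ring
    have := ih (insert s(a, b) F').card (by
        have := card_le_card hF'F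
        rw [card_insert_of_notMem hn]; omega) (insert s(a, b) F') rfl
      (by
        intro e he
        rcases mem_insert.1 he with rfl | he
        · simpa using hab
        · exact hd e (hFE (hF'F he)))
      (by
        intro h
        refine hK (Dirac.K4.suppress (w := w) (a := a) (b := b) ((hadj _ _).2 ha)
          ((hadj _ _).2 hb) ?_ ?_ h)
        · intro x hx
          simp only [fromEdgeSet_adj, coe_insert, Set.mem_insert_iff, mem_coe] at hx
          rcases hx.1 with h3 | h3
          · rw [Sym2.eq_iff] at h3; tauto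
          · exact hw x (hF'F h3)
        · intro x y hx
          simp only [fromEdgeSet_adj, coe_insert, Set.mem_insert_iff, mem_coe] at hx
          rcases hx.1 with h3 | h3
          · rw [Sym2.eq_iff] at h3; tauto
          · exact Or.inl ((hadj _ _).2 (hFE (hF'F h3))))
      (Function.update v s(a, b) p')
      (by
        intro e he
        rcases mem_insert.1 he with rfl | he
        · rw [Function.update_self]; exact hg'
        · rw [Function.update_of_ne (by rintro rfl; exact hn he)]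
          exact hv e (hFE (hF'F he)))
    intro h
    rw [h, mul_zero] at hz2
    exact mul_ne_zero D0 this hz2.symm

lemma exists_r {α : ℝ} (h0 : 0 < α) (h1 : α < 5 / 27) :
    ∃ r : ℝ, 0 < r ∧ r ≤ 1 / 3 ∧ r - r ^ 2 - r ^ 3 = α := by
  have hc : ContinuousOn (fun r : ℝ => r - r ^ 2 - r ^ 3) (Set.Icc 0 (1 / 3)) := by fun_prop
  obtain ⟨r, hr, hr2⟩ := intermediate_value_Icc (by norm_num : (0 : ℝ) ≤ 1 / 3) hc
    (show α ∈ Set.Icc _ _ from ⟨by norm_num; exact h0.le, by norm_num; exact h1.le⟩)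
  refine ⟨r, ?_, hr.2, hr2⟩
  rcases hr.1.eq_or_lt with h | h
  · subst h; simp at hr2; linarith
  · exact h

end Pool.Agent.H4.SPZero
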