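import Mathlib

set_option autoImplicit false

namespace Pool.Agent.H4.StarM

open SimpleGraph Finset
open scoped Classical

/-- The eigenspace `ker (A - l I)` of the adjacency matrix. -/
noncomputable def eigsp {W : Type} [Fintype W] (H : SimpleGraph W) (l : ℝ) :
    Submodule ℝ (W → ℝ) :=
  LinearMap.ker (Matrix.toLin' (H.adjMatrix ℝ - l • (1 : Matrix W W ℝ)))

/-- `l` is a main eigenvalue: the eigenspace is not orthogonal to the all-ones vector. -/
def IsMain {W : Type} [Fintype W] (H : SimpleGraph W) (l : ℝ) : Prop :=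
  ∃ x ∈ eigsp H l, ∑ v, x v ≠ 0

/-- `X` is an `l`-star set: `|X|` is the multiplicity and `l` is no eigenvalue of `G - X`. -/
def StarSet {V : Type} [Fintype V] (G : SimpleGraph V) (l : ℝ) (X : Finset V) : Prop :=
  X.card = Module.finrank ℝ (eigsp G l) ∧ eigsp (G.induce {u | u ∉ X}) l = ⊥

/-- The `l`-main vertices of `X`. -/
noncomputable def mainV {V : Type} [Fintype V] (G : SimpleGraph V) (l : ℝ) (X : Finset V) :
    Finset V :=
  X.filter (fun v => IsMain (G.induce {u | u ∉ X ∨ u = v}) l)

section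
variable {V : Type} [Fintype V] {G : SimpleGraph V} {l : ℝ}

/-- adjacency indicator -/
noncomputable def a (G : SimpleGraph V) (u v : V) : ℝ := if G.Adj u v then 1 else 0

lemma mem_eigsp {x : V → ℝ} : x ∈ eigsp G l ↔ ∀ v, ∑ w, a G v w * x w = l * x v := by
  unfold eigsp
  rw [LinearMap.mem_ker, Matrix.toLin'_apply, Matrix.sub_mulVec, Matrix.smul_mulVec,
    Matrix.one_mulVec, funext_iff]
  refine forall_congr' fun v => ?_
  simp only [Pi.sub_apply, Pi.smul_apply, smul_eq_mul, Pi.zero_apply, sub_eq_zero, Matrix.mulVec,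
    dotProduct, adjMatrix_apply, a]

lemma mem_induce (p : V → Prop) [Fintype {u | p u}] (y : V → ℝ) (hy : ∀ v, ¬ p v → y v = 0) :
    (fun v : {u | p u} => y v) ∈ eigsp (G.induce {u | p u}) l ↔
      ∀ v, p v → ∑ w, a G v w * y w = l * y v := by
  rw [mem_eigsp]
  have key : ∀ v : {u | p u}, ∑ w : {u | p u}, a (G.induce {u | p u}) v w * y w =
      ∑ w, a G v w * y w := by
    intro v
    rw [← Finset.sum_subset (subset_univ (univ.filter p)) (fun w _ hw => by
      rw [hy w (by simpa using hw), mul_zero])]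
    rw [Finset.sum_subtype (p := fun u => u ∈ {u | p u}) (univ.filter p) (by simp)]
    rfl
  constructor
  · intro h v hv
    rw [← key ⟨v, hv⟩]; exact h ⟨v, hv⟩
  · intro h v
    rw [key]; exact h v v.2

lemma minor {m : ℕ} (f : Fin m → V) (hf : Function.Injective f)
    (h : Fintype.card V < Module.finrank ℝ (eigsp G l) + m) :
    (Matrix.of fun i j => a G (f i) (f j) - if i = j then l else 0).det = 0 := by
  by_contra hd
  let E : (Fin m → ℝ) →ₗ[ℝ] (V → ℝ) :=
    { toFun := fun y v => ∑ i, if f i = v then y i else 0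
      map_add' := fun y z => by
        ext v; simp only [Pi.add_apply, ← sum_add_distrib]
        exact sum_congr rfl fun i _ => by split_ifs <;> simp
      map_smul' := fun c y => by
        ext v; simp only [Pi.smul_apply, smul_eq_mul, RingHom.id_apply, mul_sum]
        exact sum_congr rfl fun i _ => by split_ifs <;> simp }
  have hE : ∀ y i, E y (f i) = y i := by
    intro y i
    simp [E, hf.eq_iff]
  have hinj : Function.Injective E := fun y z hyz => funext fun i => by
    rw [← hE y i, ← hE z i, hyz]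
  have hdis : Disjoint (eigsp G l) (LinearMap.range E) := by
    rw [Submodule.disjoint_def]
    rintro x hx ⟨y, rfl⟩
    rw [mem_eigsp] at hx
    have : y = 0 := by
      refine Matrix.eq_zero_of_mulVec_eq_zero hd (funext fun i => ?_)
      have h1 := hx (f i)
      rw [hE] at h1
      have h2 : ∑ w, a G (f i) w * E y w = ∑ j, a G (f i) (f j) * y j := by
        simp only [E, LinearMap.coe_mk, AddHom.coe_mk, mul_sum]
        rw [sum_comm]
        refine sum_congr rfl fun j _ => ?_
        simp
      simp only [Matrix.mulVec, dotProduct, Matrix.of_apply, sub_mul, sum_sub_distrib, Pi.zero_apply,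
        ite_mul, zero_mul, sum_ite_eq, mem_univ, if_true]
      rw [← h2, h1, sub_self]
    rw [this, map_zero]
  have := Submodule.finrank_add_finrank_le_of_disjoint hdis
  rw [LinearMap.finrank_range_of_inj hinj] at this
  simp only [Module.finrank_fintype_fun_eq_card, Fintype.card_fin] at this
  omega

omit [Fintype V] in
lemma a_self (u : V) : a G u u = 0 := by simp [a]
omit [Fintype V] in
lemma a_comm (u v : V) : a G u v = a G v u := by simp [a, G.adj_comm]

lemma minor2 (h : Fintype.card V < Module.finrank ℝ (eigsp G l) + 2) {u v : V} (h1 : u ≠ v) :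
    l ^ 2 - a G u v ^ 2 = 0 := by
  have := minor (G := G) (l := l) ![u, v] (by
    intro i j; fin_cases i <;> fin_cases j <;> simp [h1, h1.symm]) h
  simp [Matrix.det_fin_two, a_self, a_comm v u] at this
  linear_combination this

lemma minor3 (h : Fintype.card V < Module.finrank ℝ (eigsp G l) + 3) {u v w : V} (h1 : u ≠ v)
    (h2 : u ≠ w) (h3 : v ≠ w) :
    l ^ 3 - (a G u v ^ 2 + a G u w ^ 2 + a G v w ^ 2) * l - 2 * (a G u v * a G u w * a G v w) = 0 := by
  have := minor (G := G) (l := l) ![u, v, w] (by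
    intro i j; fin_cases i <;> fin_cases j <;> simp [h1, h1.symm, h2, h2.symm, h3, h3.symm]) h
  simp [Matrix.det_fin_three, a_self, a_comm v u, a_comm w u, a_comm w v] at this
  linear_combination -this

/-- characteristic polynomial of a 4-vertex graph -/
def ch (l p q r s t u : ℝ) : ℝ :=
  l ^ 4 - (p ^ 2 + q ^ 2 + r ^ 2 + s ^ 2 + t ^ 2 + u ^ 2) * l ^ 2
    - 2 * (p * q * s + p * r * t + q * r * u + s * t * u) * l
    + ((p * u) ^ 2 + (q * t) ^ 2 + (r * s) ^ 2 - 2 * (p * u * q * t + p * u * r * s + q * t * r * s))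

lemma minor4 (h : Fintype.card V < Module.finrank ℝ (eigsp G l) + 4) {u v w z : V} (h1 : u ≠ v)
    (h2 : u ≠ w) (h3 : u ≠ z) (h4 : v ≠ w) (h5 : v ≠ z) (h6 : w ≠ z) :
    ch l (a G u v) (a G u w) (a G u z) (a G v w) (a G v z) (a G w z) = 0 := by
  have := minor (G := G) (l := l) ![u, v, w, z] (by
    intro i j; fin_cases i <;> fin_cases j <;>
      simp [h1, h1.symm, h2, h2.symm, h3, h3.symm, h4, h4.symm, h5, h5.symm, h6, h6.symm]) h
  simp [Matrix.det_succ_row_zero, Fin.sum_univ_succ, Fin.succAbove, a_self, a_comm v u, a_comm w u,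
    a_comm w v, a_comm z u, a_comm z v, a_comm z w] at this
  unfold ch
  linear_combination this

omit [Fintype V] in
lemma cross (hG : G.Connected) (S : V → Prop) {u w : V} (hu : S u) (hw : ¬ S w) :
    ∃ z y, S z ∧ ¬ S y ∧ G.Adj z y := by
  obtain ⟨p⟩ := hG.preconnected u w
  induction p with
  | nil => exact (hw hu).elim
  | @cons b c d h p ih =>
    by_cases hc : S c
    · exact ih hc hw
    · exact ⟨b, c, hu, hc, h⟩

lemma case_neg (hG : G.Connected) (h : Fintype.card V < Module.finrank ℝ (eigsp G (-1)) + 4) :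
    ¬ IsMain G (-1) := by
  rintro ⟨x, hx, hs⟩
  have := hG.nonempty
  obtain ⟨u, -, hu⟩ := exists_max_image univ (fun v => G.degree v) univ_nonempty
  have hdom : ∀ w, w = u ∨ G.Adj u w := by
    by_contra hc
    push Not at hc
    obtain ⟨w0, hw0⟩ := hc
    obtain ⟨v, w, hv, hw, hvw⟩ := cross hG (fun w => w = u ∨ G.Adj u w) (u := u) (w := w0)
      (Or.inl rfl) (by tauto)
    push Not at hw
    have huv : G.Adj u v := by
      rcases hv with rfl | hv
      · exact (hw.2 hvw).elim
      · exact hv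
    obtain ⟨z, hz, hzv, hzv'⟩ : ∃ z, G.Adj u z ∧ z ≠ v ∧ ¬ G.Adj v z := by
      by_contra hc
      push Not at hc
      have h1 : insert w (insert u ((G.neighborFinset u).erase v)) ⊆ G.neighborFinset v := by
        intro z hz
        simp only [mem_insert, mem_erase, mem_neighborFinset] at hz ⊢
        rcases hz with rfl | rfl | hz
        · exact hvw
        · exact huv.symm
        · exact hc z hz.2 hz.1
      have h2 := card_le_card h1
      rw [card_insert_of_notMem (by simp [hw.1, hw.2]), card_insert_of_notMem (by simp),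
        card_erase_of_mem (by simpa using huv), card_neighborFinset_eq_degree,
        card_neighborFinset_eq_degree] at h2
      have h3 := hu v (mem_univ _)
      have h4 : 0 < G.degree u := huv.degree_pos_left
      omega
    have h5 := minor4 h (u := u) (v := v) (w := w) (z := z) huv.ne hw.1.symm hz.ne hvw.ne
      hzv.symm (fun h' => hw.2 (h' ▸ hz))
    by_cases h6 : G.Adj w z <;> simp [a, ch, huv, hw.2, hz, hvw, hzv', h6] at h5 <;> norm_num at h5
  rw [mem_eigsp] at hx
  apply hs
  have h1 := hx u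
  have h2 : ∑ w, x w = ∑ w, (a G u w * x w + if w = u then x w else 0) := by
    refine sum_congr rfl fun w _ => ?_
    rcases hdom w with rfl | hw
    · simp [a]
    · simp [a, hw, hw.ne.symm]
  rw [h2, sum_add_distrib, h1]
  simp

lemma case_zero (hG : G.Connected) (h : Fintype.card V < Module.finrank ℝ (eigsp G 0) + 4)
    {u v : V} (huv : G.Adj u v) : ¬ IsMain G 0 := by
  rintro ⟨x, hx, hs⟩
  rw [mem_eigsp] at hx
  have hdom : ∀ u v, G.Adj u v → ∀ w, G.Adj u w ∨ G.Adj v w := by
    intro u v huv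
    by_contra hc
    push Not at hc
    obtain ⟨w0, hw0⟩ := hc
    obtain ⟨z, w, hz, hw, hzw⟩ := cross hG (fun w => G.Adj u w ∨ G.Adj v w) (u := u) (w := w0)
      (Or.inr huv.symm) (by tauto)
    push Not at hw
    have h5 := minor4 h (u := u) (v := v) (w := w) (z := z) huv.ne
      (fun h' => hw.2 (h' ▸ huv.symm)) (fun h' => hw.1 (h' ▸ hzw)) (fun h' => hw.1 (h' ▸ huv))
      (fun h' => hw.2 (h' ▸ hzw)) hzw.ne.symm
    simp [a, ch, huv, hw.1, hw.2, hzw.symm] at h5
  apply hs
  by_cases ht : ∃ w, G.Adj u w ∧ G.Adj v w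
  · obtain ⟨w, huw, hvw⟩ := ht
    have h2 : ∑ z, 2 * x z = ∑ z, (a G u z * x z + a G v z * x z + a G w z * x z) := by
      refine sum_congr rfl fun z _ => ?_
      have e1 := hdom u v huv z
      have e2 := hdom u w huw z
      have e3 := hdom v w hvw z
      have e4 : ¬ (G.Adj u z ∧ G.Adj v z ∧ G.Adj w z) := by
        rintro ⟨f1, f2, f3⟩
        have h5 := minor4 h huv.ne huw.ne f1.ne hvw.ne f2.ne f3.ne
        simp [a, ch, huv, huw, hvw, f1, f2, f3] at h5
        norm_num at h5
      unfold a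
      split_ifs <;> first | ring1 | tauto
    rw [sum_add_distrib, sum_add_distrib, hx, hx, hx, ← mul_sum] at h2
    linarith
  · have h2 : ∑ z, x z = ∑ z, (a G u z * x z + a G v z * x z) := by
      refine sum_congr rfl fun z _ => ?_
      have e1 := hdom u v huv z
      have e4 : ¬ (G.Adj u z ∧ G.Adj v z) := fun h' => ht ⟨z, h'⟩
      unfold a
      split_ifs <;> first | ring1 | tauto
    rw [sum_add_distrib, hx, hx] at h2
    linarith

lemma ext_conn (hG : G.Connected) (S : Finset V) {u : V} (hu : u ∈ S)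
    (h : S.card < Fintype.card V) : ∃ y, y ∉ S ∧ ∃ z ∈ S, G.Adj z y := by
  obtain ⟨w, -, hw⟩ := exists_mem_notMem_of_card_lt_card (s := S) (t := univ) (by simpa using h)
  obtain ⟨z, y, h1, h2, h3⟩ := cross hG (fun v => v ∈ S) hu hw
  exact ⟨y, h2, z, h1, h3⟩

/-- real value of a Boolean -/
def b (p : Bool) : ℝ := cond p 1 0

omit [Fintype V] in
lemma a_eq (u v : V) : a G u v = b (decide (G.Adj u v)) := by
  by_cases h : G.Adj u v <;> simp [a, b, h]

/-- class of a 4-vertex graph -/
def cl (p q r s t u : Bool) : ℕ :=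
  let e := p.toNat + q.toNat + r.toNat + s.toNat + t.toNat + u.toNat
  let tr := (p && q && s).toNat + (p && r && t).toNat + (q && r && u).toNat + (s && t && u).toNat
  let pm := (p && u).toNat + (q && t).toNat + (r && s).toNat
  if e = 0 then 0 else if e = 1 then 1 else if e = 2 then (if pm = 1 then 1 else 2)
  else if e = 3 then (if tr = 1 then 3 else if pm = 1 then 5 else 4)
  else if e = 4 then (if tr = 0 then 3 else 6) else if e = 5 then 7 else 8

/-- the root condition of a class -/
def R : ℕ → ℝ → Prop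
  | 1, l => l = 1
  | 2, l => l ^ 2 = 2
  | 3, l => l ^ 2 = 4
  | 4, l => l ^ 2 = 3
  | 5, l => l ^ 4 - 3 * l ^ 2 + 1 = 0
  | 6, l => l ^ 3 - l ^ 2 - 3 * l + 1 = 0
  | 7, l => l ^ 2 - l - 4 = 0
  | 8, l => l = 3
  | _, _ => False

lemma canc (h0 : l ≠ 0) (h1 : l + 1 ≠ 0) (i j : ℕ) {x : ℝ} (h : l ^ i * (l + 1) ^ j * x = 0) :
    x = 0 := by
  rcases mul_eq_zero.1 h with h | h
  · exact absurd h (mul_ne_zero (pow_ne_zero _ h0) (pow_ne_zero _ h1))
  · exact h

lemma root (h0 : l ≠ 0) (h1 : l + 1 ≠ 0) (p q r s t u : Bool)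
    (h : ch l (b p) (b q) (b r) (b s) (b t) (b u) = 0) : R (cl p q r s t u) l := by
  have f0 : l ^ 4 = 0 → R 0 l := fun h => h0 (pow_eq_zero_iff (by norm_num) |>.1 h)
  have f1 : l ^ 4 - l ^ 2 = 0 → R 1 l := fun h =>
    sub_eq_zero.1 (canc h0 h1 2 1 (by linear_combination h))
  have f1' : l ^ 4 - 2 * l ^ 2 + 1 = 0 → R 1 l := fun h =>
    sub_eq_zero.1 (pow_eq_zero_iff (two_ne_zero) |>.1 (canc h0 h1 0 2 (by linear_combination h)))
  have f2 : l ^ 4 - 2 * l ^ 2 = 0 → R 2 l := fun h =>
    sub_eq_zero.1 (canc h0 h1 2 0 (by linear_combination h))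
  have f3 : l ^ 4 - 3 * l ^ 2 - 2 * l = 0 → R 3 l := fun h => by
    have : l - 2 = 0 := canc h0 h1 1 2 (by linear_combination h)
    show l ^ 2 = 4
    linear_combination (l + 2) * this
  have f3' : l ^ 4 - 4 * l ^ 2 = 0 → R 3 l := fun h =>
    sub_eq_zero.1 (canc h0 h1 2 0 (by linear_combination h))
  have f4 : l ^ 4 - 3 * l ^ 2 = 0 → R 4 l := fun h =>
    sub_eq_zero.1 (canc h0 h1 2 0 (by linear_combination h))
  have f5 : l ^ 4 - 3 * l ^ 2 + 1 = 0 → R 5 l := fun h => h
  have f6 : l ^ 4 - 4 * l ^ 2 - 2 * l + 1 = 0 → R 6 l := fun h =>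
    canc h0 h1 0 1 (by linear_combination h)
  have f7 : l ^ 4 - 5 * l ^ 2 - 4 * l = 0 → R 7 l := fun h =>
    canc h0 h1 1 1 (by linear_combination h)
  have f8 : l ^ 4 - 6 * l ^ 2 - 8 * l - 3 = 0 → R 8 l := fun h =>
    sub_eq_zero.1 (canc h0 h1 0 3 (by linear_combination h))
  cases p <;> cases q <;> cases r <;> cases s <;> cases t <;> cases u <;>
    simp only [ch, b, cond_true, cond_false] at h <;>
    first
      | exact f0 (by linear_combination h) | exact f1 (by linear_combination h)
      | exact f1' (by linear_combination h) | exact f2 (by linear_combination h)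
      | exact f3 (by linear_combination h) | exact f3' (by linear_combination h)
      | exact f4 (by linear_combination h) | exact f5 (by linear_combination h)
      | exact f6 (by linear_combination h) | exact f7 (by linear_combination h)
      | exact f8 (by linear_combination h)

lemma R_le {c : ℕ} (h : R c l) : c ≤ 8 := by
  by_contra hc
  obtain ⟨d, rfl⟩ : ∃ d, c = d + 9 := ⟨c - 9, by omega⟩
  exact h

lemma excl {c d : ℕ} (hc : R c l) (hd : R d l) : c = d := by
  have h1 := R_le hc
  have h2 := R_le hd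
  interval_cases c <;> interval_cases d <;> simp only [R] at hc hd <;> first | rfl | grind

lemma five : ∀ p01 p02 p03 p04 p12 p13 p14 p23 p24 p34 : Bool, p01 = true → (p02 || p12) = true →
    (p03 || p13 || p23) = true → (p04 || p14 || p24 || p34) = true →
    cl p01 p02 p03 p12 p13 p23 = cl p01 p02 p04 p12 p14 p24 →
    cl p01 p02 p03 p12 p13 p23 = cl p01 p03 p04 p13 p14 p34 →
    cl p01 p02 p03 p12 p13 p23 = cl p02 p03 p04 p23 p24 p34 →
    cl p01 p02 p03 p12 p13 p23 = cl p12 p13 p14 p23 p24 p34 →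
    cl p01 p02 p03 p12 p13 p23 = 5 ∨ cl p01 p02 p03 p12 p13 p23 = 8 := by
  decide

lemma c5 : ∀ p q r s t u : Bool, cl p q r s t u = 5 →
    ¬ (p = true ∧ q = true ∧ r = true) ∧ ¬ (p = false ∧ q = false ∧ r = false) := by decide

lemma c8 : ∀ p q r s t u : Bool, cl p q r s t u = 8 → p = true := by decide

lemma root4 (h0 : l ≠ 0) (h1 : l + 1 ≠ 0)
    (h : Fintype.card V < Module.finrank ℝ (eigsp G l) + 4) {u v w z : V} (e1 : u ≠ v)
    (e2 : u ≠ w) (e3 : u ≠ z) (e4 : v ≠ w) (e5 : v ≠ z) (e6 : w ≠ z) :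
    R (cl (decide (G.Adj u v)) (decide (G.Adj u w)) (decide (G.Adj u z)) (decide (G.Adj v w))
      (decide (G.Adj v z)) (decide (G.Adj w z))) l := by
  have := minor4 h e1 e2 e3 e4 e5 e6
  simp only [a_eq] at this
  exact root h0 h1 _ _ _ _ _ _ this

lemma case_gen (hG : G.Connected) (h0 : l ≠ 0) (h1 : l + 1 ≠ 0) (hn : 5 ≤ Fintype.card V)
    (h : Fintype.card V < Module.finrank ℝ (eigsp G l) + 4) : ¬ IsMain G l := by
  rintro ⟨x, hx, hs⟩
  rw [mem_eigsp] at hx
  obtain ⟨v0⟩ := hG.nonempty
  obtain ⟨v1, n1, a1⟩ := ext_conn hG {v0} (u := v0) (by simp) (by simp; omega)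
  obtain ⟨v2, n2, a2⟩ := ext_conn hG {v0, v1} (u := v0) (by simp)
    (lt_of_le_of_lt card_le_two (by omega))
  obtain ⟨v3, n3, a3⟩ := ext_conn hG {v0, v1, v2} (u := v0) (by simp)
    (lt_of_le_of_lt card_le_three (by omega))
  obtain ⟨v4, n4, a4⟩ := ext_conn hG {v0, v1, v2, v3} (u := v0) (by simp)
    (lt_of_le_of_lt card_le_four (by omega))
  simp only [mem_insert, mem_singleton, not_or, exists_eq_or_imp, exists_eq_left, ← ne_eq]
    at n1 n2 n3 n4 a1 a2 a3 a4
  have r0 := root4 h0 h1 h n1.symm n2.1.symm n3.1.symm n2.2.symm n3.2.1.symm n3.2.2.symm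
  have r1 := root4 h0 h1 h n1.symm n2.1.symm n4.1.symm n2.2.symm n4.2.1.symm n4.2.2.1.symm
  have r2 := root4 h0 h1 h n1.symm n3.1.symm n4.1.symm n3.2.1.symm n4.2.1.symm n4.2.2.2.symm
  have r3 := root4 h0 h1 h n2.1.symm n3.1.symm n4.1.symm n3.2.2.symm n4.2.2.1.symm n4.2.2.2.symm
  have r4 := root4 h0 h1 h n2.2.symm n3.2.1.symm n4.2.1.symm n3.2.2.symm n4.2.2.1.symm
    n4.2.2.2.symm
  have hsum : ∑ v, (G.degree v : ℝ) * x v = l * ∑ v, x v := by
    rw [mul_sum, ← sum_congr rfl (fun v _ => hx v), sum_comm]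
    refine sum_congr rfl fun v _ => ?_
    rw [← sum_mul]
    congr 1
    simp only [a_comm _ v]
    simp [a, ← card_neighborFinset_eq_degree, neighborFinset_eq_filter]
  rcases five _ _ _ _ _ _ _ _ _ _ (by simpa using a1) (by simpa using a2)
    (by simpa [or_assoc] using a3) (by simpa [or_assoc] using a4)
    (excl r0 r1) (excl r0 r2) (excl r0 r3) (excl r0 r4) with h5 | h5
  · rw [h5] at r0
    have hdeg : ∀ v, G.degree v = 2 := by
      intro v
      by_contra hv
      rcases Nat.lt_or_gt_of_ne hv with hv | hv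
      · have : 2 < ((univ.erase v) \ G.neighborFinset v).card := by
          have e1 := le_card_sdiff (G.neighborFinset v) (univ.erase v)
          rw [card_erase_of_mem (mem_univ _), card_univ, card_neighborFinset_eq_degree] at e1
          omega
        obtain ⟨p, q, r, hp, hq, hr, e1, e2, e3⟩ := two_lt_card_iff.1 this
        simp only [mem_sdiff, mem_erase, mem_univ, and_true, mem_neighborFinset] at hp hq hr
        exact (c5 _ _ _ _ _ _ (excl (root4 h0 h1 h hp.1.symm hq.1.symm hr.1.symm e1 e2 e3) r0)).2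
          (by simp [hp.2, hq.2, hr.2])
      · obtain ⟨p, q, r, hp, hq, hr, e1, e2, e3⟩ :=
          two_lt_card_iff.1 (show 2 < (G.neighborFinset v).card from hv)
        simp only [mem_neighborFinset] at hp hq hr
        exact (c5 _ _ _ _ _ _ (excl (root4 h0 h1 h hp.ne hq.ne hr.ne e1 e2 e3) r0)).1
          (by simp [hp, hq, hr])
    simp only [hdeg, ← mul_sum] at hsum
    have : l = 2 := by exact_mod_cast (mul_right_cancel₀ hs hsum).symm
    simp only [R, this] at r0
    norm_num at r0
  · rw [h5] at r0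
    have hdeg : ∀ v, G.degree v = Fintype.card V - 1 := by
      intro v
      rw [← card_neighborFinset_eq_degree, ← card_univ, ← card_erase_of_mem (mem_univ v)]
      congr 1
      ext w
      simp only [mem_neighborFinset, mem_erase, mem_univ, and_true]
      refine ⟨fun h' => h'.ne.symm, fun h' => ?_⟩
      have : 1 < (univ \ {v, w} : Finset V).card := by
        have e1 := le_card_sdiff ({v, w} : Finset V) univ
        have e2 : ({v, w} : Finset V).card ≤ 2 := card_le_two
        rw [card_univ] at e1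
        omega
      obtain ⟨p, hp, q, hq, e1⟩ := one_lt_card.1 this
      simp only [mem_sdiff, mem_univ, true_and, mem_insert, mem_singleton, not_or, ← ne_eq] at hp hq
      simpa using c8 _ _ _ _ _ _
        (excl (root4 h0 h1 h h'.symm hp.1.symm hq.1.symm hp.2.symm hq.2.symm e1) r0)
    simp only [hdeg, ← mul_sum] at hsum
    have e1 := mul_right_cancel₀ hs hsum
    simp only [R] at r0
    rw [r0] at e1
    have : Fintype.card V - 1 = 3 := by exact_mod_cast e1
    omega

lemma case_small (hG : G.Connected) (h0 : l ≠ 0) (h1 : l + 1 ≠ 0) (hn : Fintype.card V ≤ 4)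
    (h : 2 ≤ Module.finrank ℝ (eigsp G l)) : False := by
  obtain ⟨v0⟩ := hG.nonempty
  by_cases c2 : Fintype.card V ≤ 2
  · have := minor (G := G) (l := l) ![v0] (fun i j _ => Subsingleton.elim i j) (by omega)
    simp [a_self] at this
    exact h0 this
  obtain ⟨v1, n1, a1⟩ := ext_conn hG {v0} (u := v0) (by simp) (by simp; omega)
  obtain ⟨v2, n2, a2⟩ := ext_conn hG {v0, v1} (u := v0) (by simp)
    (lt_of_le_of_lt card_le_two (by omega))
  simp only [mem_insert, mem_singleton, not_or, exists_eq_or_imp, exists_eq_left, ← ne_eq]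
    at n1 n2 a1 a2
  have m0 := minor3 (G := G) (l := l) (by omega) n1.symm n2.1.symm n2.2.symm
  have hl : l ^ 2 = 2 ∨ (l = 2 ∧ G.Adj v0 v2 ∧ G.Adj v1 v2) := by
    by_cases e1 : G.Adj v0 v2 <;> by_cases e2 : G.Adj v1 v2 <;> simp [a, a1, e1, e2] at m0 a2
    · exact Or.inr ⟨sub_eq_zero.1 (canc h0 h1 0 2 (by linear_combination m0)), e1, e2⟩
    · exact Or.inl (sub_eq_zero.1 (canc h0 h1 1 0 (by linear_combination m0)))
    · exact Or.inl (sub_eq_zero.1 (canc h0 h1 1 0 (by linear_combination m0)))
  by_cases c3 : Fintype.card V ≤ 3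
  · have m1 := minor2 (G := G) (l := l) (by omega) n1.symm
    simp only [a, a1, if_true] at m1
    rcases hl with hl | ⟨hl, -⟩
    · linarith
    · rw [hl] at m1; norm_num at m1
  obtain ⟨v3, n3, a3⟩ := ext_conn hG {v0, v1, v2} (u := v0) (by simp)
    (lt_of_le_of_lt card_le_three (by omega))
  simp only [mem_insert, mem_singleton, not_or, exists_eq_or_imp, exists_eq_left, ← ne_eq] at n3 a3
  have r0 := root4 (G := G) h0 h1 (by omega) n1.symm n2.1.symm n3.1.symm n2.2.symm n3.2.1.symm
    n3.2.2.symm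
  rcases hl with hl | ⟨hl, e1, e2⟩
  · have := excl r0 (show R 2 l from hl)
    revert this
    have key : ∀ p q r s t u : Bool, p = true → (q || s) = true → (r || t || u) = true →
        cl p q r s t u ≠ 2 := by decide
    exact key _ _ _ _ _ _ (by simpa using a1) (by simpa using a2) (by simpa [or_assoc] using a3)
  · have := excl r0 (show R 3 l by rw [hl]; simp only [R]; norm_num)
    revert this
    have key : ∀ p q r s t u : Bool, p = true → q = true → s = true → (r || t || u) = true →
        cl p q r s t u ≠ 3 := by decide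
    exact key _ _ _ _ _ _ (by simpa using a1) (by simpa using e1) (by simpa using e2)
      (by simpa [or_assoc] using a3)

lemma upper (hG : G.Connected) (hm : IsMain G l) :
    Module.finrank ℝ (eigsp G l) ≤ max 1 (Fintype.card V - 4) := by
  by_contra hc
  push Not at hc
  rw [max_lt_iff] at hc
  have h4 : Fintype.card V < Module.finrank ℝ (eigsp G l) + 4 := by omega
  by_cases h0 : l = 0
  · subst h0
    obtain ⟨v0⟩ := hG.nonempty
    have h2 : Module.finrank ℝ (eigsp G 0) ≤ Fintype.card V := by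
      simpa using Submodule.finrank_le (eigsp G 0)
    obtain ⟨v1, -, z, -, a1⟩ := ext_conn hG {v0} (u := v0) (by simp) (by simp; omega)
    exact case_zero hG h4 a1 hm
  by_cases h1 : l + 1 = 0
  · obtain rfl : l = -1 := by linarith
    exact case_neg hG h4 hm
  by_cases hn : 5 ≤ Fintype.card V
  · exact case_gen hG h0 h1 hn h4 hm
  · exact case_small hG h0 h1 (by omega) (by omega)

end

end Pool.Agent.H4.StarM
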