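import Mathlib

set_option autoImplicit false

namespace Pool.Agent.H4.SubGame

def hor : List ℕ :=
  [1, 2, 4, 5, 6, 7, 9, 12, 13, 14, 15, 16, 17, 20, 23, 26, 29, 31, 32, 37, 39, 40, 42, 46, 51,
   54, 55, 56, 62, 66, 68, 69, 70, 74, 75, 77, 78, 79, 80, 82, 83, 85, 86, 89, 93, 94, 102]

def moves : List (ℕ × ℕ) := hor.map (fun a => (a, 0)) ++ [(55, 1), (92, 1)]

def od (t y : ℕ) : Prop := Odd (Nat.choose t y)

def dv (t y : ℕ) : Prop := ¬ od t (y + 1)

def d1 (t y : ℕ) : Prop := 1 ≤ t ∧ dv (t - 1) y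

def d2 (t y : ℕ) : Prop := 1 ≤ t ∧ 1 ≤ y ∧ dv (t - 1) (y - 1)

def g1 (t y : ℕ) : Prop := ¬ d1 t y ∧ ¬ d2 t y

def g2 (t y : ℕ) : Prop := ¬ d1 t y ∧ ¬ g1 t y

def g3 (t y : ℕ) : Prop := ¬ d2 t y ∧ ¬ g1 t y

def cell (r t y : ℕ) : Prop :=
  r = 0 ∨ r = 3 ∨ r = 21 ∨ (r = 11 ∧ g1 t y) ∨ (r = 24 ∧ g2 t y) ∨ (r = 48 ∧ g3 t y) ∨
    (r = 64 ∧ dv t y) ∨ (r = 84 ∧ od t (y + 1))

def val (x y : ℕ) : Prop := cell (x % 108) (x / 108) y

def inS (r : ℕ) : Bool :=
  r == 0 || r == 3 || r == 21 || r == 11 || r == 24 || r == 48 || r == 64 || r == 84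

lemma cell_inS {r t y : ℕ} (h : cell r t y) : inS r = true := by
  unfold cell at h
  rcases h with h | h | h | ⟨h, -⟩ | ⟨h, -⟩ | ⟨h, -⟩ | ⟨h, -⟩ | ⟨h, -⟩ <;> subst h <;> rfl

lemma dv_iff (t y : ℕ) : dv t y ↔ ¬ g2 t y ∧ ¬ g3 t y := by
  have key : dv t y ↔ (d1 t y ↔ d2 t y) := by
    unfold d1 d2 dv od
    rcases t with _ | s
    · simp
    · rcases y with _ | z
      · simp [Nat.odd_add_one]
      · simp only [Nat.choose_succ_succ' s (z + 1), Nat.odd_add, Nat.add_sub_cancel,
          Nat.le_add_left, true_and, ← Nat.not_odd_iff_even]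
        tauto
  unfold g2 g3 g1
  tauto

lemma block : ∀ r < 108, inS r = false →
    ∃ a ∈ hor, a ≤ r ∧ (r - a = 0 ∨ r - a = 3 ∨ r - a = 21) := by
  decide +kernel

def wires : List (ℕ × ℕ × ℕ) :=
  [(11, 55, 0), (11, 55, 1), (24, 68, 0), (24, 13, 0), (48, 92, 1), (48, 37, 0),
   (64, 40, 0), (64, 16, 0), (84, 20, 0)]

lemma only : ∀ r < 108, inS r = true → ∀ s ∈ moves, inS ((r + 108 - s.1) % 108) = true →
    (r, s.1, s.2) ∈ wires := by
  decide +kernel

lemma small : ∀ s ∈ moves, 0 < s.1 ∧ s.1 < 108 := by decide +kernel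

lemma wm : ∀ w ∈ wires, (w.2.1, w.2.2) ∈ moves := by decide +kernel

lemma val_rec (x y : ℕ) :
    val x y ↔ ∀ s ∈ moves, s.1 ≤ x → s.2 ≤ y → ¬ val (x - s.1) (y - s.2) := by
  obtain ⟨t, r, hr, rfl⟩ : ∃ t r, r < 108 ∧ x = 108 * t + r :=
    ⟨x / 108, x % 108, Nat.mod_lt _ (by norm_num), (Nat.div_add_mod x 108).symm⟩
  have hv : ∀ t r y, r < 108 → (val (108 * t + r) y ↔ cell r t y) := by
    intro t r y hr
    unfold val
    have h1 : (108 * t + r) % 108 = r := by omega
    have h2 : (108 * t + r) / 108 = t := by omega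
    rw [h1, h2]
  rw [hv t r y hr]
  by_cases hS : inS r = true
  · have hw : (∀ s ∈ moves, s.1 ≤ 108 * t + r → s.2 ≤ y → ¬ val (108 * t + r - s.1) (y - s.2)) ↔
        ∀ w ∈ wires, w.1 = r → w.2.1 ≤ 108 * t + r → w.2.2 ≤ y →
          ¬ val (108 * t + r - w.2.1) (y - w.2.2) := by
      constructor
      · intro h w hw _ h1 h2
        exact h _ (wm w hw) h1 h2
      · intro h s hs h1 h2 hval
        have h3 := cell_inS hval
        have h4 := small s hs
        have h5 : (108 * t + r - s.1) % 108 = (r + 108 - s.1) % 108 := by omega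
        rw [h5] at h3
        exact h _ (only r hr hS s hs h3) rfl h1 h2 hval
    rw [hw]
    have hd : ∀ c y, (c ≤ 108 * t + (c - 44) → 44 ≤ c → val (108 * t + (c - 44) - c) y ↔ 
        (1 ≤ t → 44 ≤ c → dv (t - 1) y)) := by
      intro c y
      rcases t with _ | s
      · constructor
        · intro _ h; omega
        · intro _ h h'; omega
      · by_cases hc : 44 ≤ c
        · by_cases hc2 : c ≤ 108 * (s + 1) + (c - 44)
          · have : 108 * (s + 1) + (c - 44) - c = 108 * s + 64 := by omega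
            rw [this, hv s 64 y (by norm_num)]
            simp [cell, hc, hc2]
          · omega
        · simp [hc]
    have e0 : ∀ c y, (val (108 * t + c - c) y) := by
      intro c y
      have : 108 * t + c - c = 108 * t + 0 := by omega
      rw [this, hv t 0 y (by norm_num)]; simp [cell]
    simp only [inS, Bool.or_eq_true, beq_iff_eq] at hS
    rcases hS with ((((((h | h) | h) | h) | h) | h) | h) | h <;> subst h
    · simp [cell, wires]
    · simp [cell, wires]
    · simp [cell, wires]
    · rcases t with _ | s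
      · simp [cell, wires, g1, d1, d2]
      · have e : 108 * (s + 1) + 11 - 55 = 108 * s + 64 := by omega
        have l : 55 ≤ 108 * (s + 1) + 11 := by omega
        simp [cell, wires, g1, d1, d2, e, l, hv]
    · have e1 : 108 * t + 24 - 13 = 108 * t + 11 := by omega
      rcases t with _ | s
      · have := hv 0 11 y (by norm_num)
        simp only [mul_zero, zero_add] at this
        simp [cell, wires, g2, d1, this]
      · have e : 108 * (s + 1) + 24 - 68 = 108 * s + 64 := by omega
        have l : 68 ≤ 108 * (s + 1) + 24 := by omega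
        simp [cell, wires, g2, d1, e, e1, l, hv]
    · have e1 : 108 * t + 48 - 37 = 108 * t + 11 := by omega
      rcases t with _ | s
      · have := hv 0 11 y (by norm_num)
        simp only [mul_zero, zero_add] at this
        simp [cell, wires, g3, d2, this]
      · have e : 108 * (s + 1) + 48 - 92 = 108 * s + 64 := by omega
        have l : 92 ≤ 108 * (s + 1) + 48 := by omega
        simp [cell, wires, g3, d2, e, e1, l, hv]
    · have e1 : 108 * t + 64 - 40 = 108 * t + 24 := by omega
      have e2 : 108 * t + 64 - 16 = 108 * t + 48 := by omega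
      simp [cell, wires, e1, e2, hv, dv_iff]
    · have e1 : 108 * t + 84 - 20 = 108 * t + 64 := by omega
      simp [cell, wires, e1, hv, dv]
  · constructor
    · intro h; exact absurd (cell_inS h) hS
    · intro h
      exfalso
      obtain ⟨a, ha, har, hI⟩ := block r hr (by simpa using hS)
      have hm : (a, 0) ∈ moves := by
        unfold moves
        exact List.mem_append_left _ (List.mem_map.2 ⟨a, ha, rfl⟩)
      apply h (a, 0) hm (by simp; omega) (by simp)
      have : 108 * t + r - a = 108 * t + (r - a) := by omega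
      simp only [this, Nat.sub_zero]
      rw [hv t (r - a) y (by omega)]
      unfold cell
      tauto

lemma od_pow (n : ℕ) : ∀ y, y + 1 = n → (od (2 * y + 1) (y + 1) ↔ ∃ j, y + 1 = 2 ^ j) := by
  induction n using Nat.strong_induction_on with
  | _ n ih =>
    intro y hy
    have : Fact (Nat.Prime 2) := ⟨Nat.prime_two⟩
    have hl := @Choose.choose_modEq_choose_mod_mul_choose_div_nat (2 * y + 1) (y + 1) 2 _
    have h1 : (2 * y + 1) % 2 = 1 := by omega
    have h2 : (2 * y + 1) / 2 = y := by omega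
    rw [h1, h2] at hl
    unfold od
    rw [Nat.odd_iff, hl]
    rcases Nat.even_or_odd' y with ⟨z, rfl | rfl⟩
    · have h3 : (2 * z + 1) % 2 = 1 := by omega
      have h4 : (2 * z + 1) / 2 = z := by omega
      rw [h3, h4]
      rcases z with _ | w
      · simp; exact ⟨0, by simp⟩
      · have h5 : (2 * (w + 1)).choose (w + 1) % 2 = 0 := by
          have := Nat.two_dvd_centralBinom_of_one_le (n := w + 1) (by omega)
          rw [Nat.centralBinom_eq_two_mul_choose] at this
          omega
        simp only [Nat.choose_self, one_mul, h5]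
        constructor
        · intro h; omega
        · rintro ⟨j, hj⟩
          rcases j with _ | j
          · simp at hj
          · rw [pow_succ] at hj; omega
    · have h3 : (2 * z + 1 + 1) % 2 = 0 := by omega
      have h4 : (2 * z + 1 + 1) / 2 = z + 1 := by omega
      rw [h3, h4]
      have := ih (z + 1) (by omega) z rfl
      unfold od at this
      rw [Nat.odd_iff] at this
      simp only [Nat.choose_zero_right, one_mul]
      rw [this]
      constructor
      · rintro ⟨j, hj⟩
        exact ⟨j + 1, by rw [pow_succ]; omega⟩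
      · rintro ⟨j, hj⟩
        rcases j with _ | j
        · simp at hj
        · exact ⟨j, by rw [pow_succ] at hj; omega⟩

lemma val_line (y : ℕ) : val (216 * y + 192) y ↔ ∃ j, y + 1 = 2 ^ j := by
  unfold val
  have h1 : (216 * y + 192) % 108 = 84 := by omega
  have h2 : (216 * y + 192) / 108 = 2 * y + 1 := by omega
  rw [h1, h2, ← od_pow _ y rfl]
  simp [cell]

lemma pow_add_pow {a b c : ℕ} (h : 2 ^ a + 2 ^ b = 2 ^ (c + 1)) : b = c := by
  have ha : 0 < 2 ^ a := by positivity
  have hb : 0 < 2 ^ b := by positivity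
  have h1 : b < c + 1 := (Nat.pow_lt_pow_iff_right (by norm_num : 1 < 2)).1 (by omega)
  have h2 : a < c + 1 := (Nat.pow_lt_pow_iff_right (by norm_num : 1 < 2)).1 (by omega)
  by_contra hne
  have h3 : 2 ^ b < 2 ^ c := Nat.pow_lt_pow_right (by norm_num) (by omega)
  have h4 : 2 ^ a ≤ 2 ^ c := Nat.pow_le_pow_right (by norm_num) (by omega)
  rw [pow_succ] at h
  omega

end Pool.Agent.H4.SubGame
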