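import Mathlib

set_option autoImplicit false

namespace Pool.Agent.H4.ThinCode

open Finset

abbrev Idx (L d : ℕ) := (Fin L × Fin d) ⊕ ((Fin L → Fin d) × Fin d)

def enc (L d : ℕ) :
    ((Fin L → ZMod 2) × ((Fin L → Fin d) → ZMod 2)) →ₗ[ZMod 2] (Idx L d → ZMod 2) where
  toFun v := fun x => match x with
    | Sum.inl (j, i) => v.1 j + ∑ R : Fin L → Fin d, if R j = i then v.2 R else 0
    | Sum.inr (R, _) => v.2 R
  map_add' u v := by
    funext x
    rcases x with ⟨j, i⟩ | ⟨R, i⟩
    · simp only [Prod.fst_add, Prod.snd_add, Pi.add_apply]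
      have : ∀ R : Fin L → Fin d, (if R j = i then u.2 R + v.2 R else 0) =
          (if R j = i then u.2 R else 0) + (if R j = i then v.2 R else 0) := by
        intro R; split_ifs <;> simp
      simp only [this, sum_add_distrib]
      ring
    · simp
  map_smul' a v := by
    funext x
    rcases x with ⟨j, i⟩ | ⟨R, i⟩
    · simp only [Prod.smul_fst, Prod.smul_snd, Pi.smul_apply, smul_eq_mul, RingHom.id_apply,
        mul_add, mul_sum, mul_ite, mul_zero]
    · simp

def lab {L d : ℕ} : Idx L d → Fin d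
  | Sum.inl (_, i) => i
  | Sum.inr (_, i) => i

lemma hit {L d : ℕ} (i : Fin d) (v : (Fin L → ZMod 2) × ((Fin L → Fin d) → ZMod 2))
    (h : enc L d v ≠ 0) : ∃ x, lab x = i ∧ enc L d v x ≠ 0 := by
  by_cases hb : v.2 = 0
  · have ha : v.1 ≠ 0 := by
      intro ha
      apply h
      have : v = 0 := Prod.ext ha hb
      rw [this, map_zero]
    obtain ⟨j, hj⟩ := Function.ne_iff.1 ha
    refine ⟨Sum.inl (j, i), rfl, ?_⟩
    simpa [enc, hb] using hj
  · obtain ⟨R, hR⟩ := Function.ne_iff.1 hb
    exact ⟨Sum.inr (R, i), rfl, by simpa [enc] using hR⟩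

lemma main {L d : ℕ} (hd : 1 ≤ d) (S : Finset (Idx L d))
    (h : ∀ v, enc L d v ≠ 0 → ∃ x, x ∉ S ∧ enc L d v x ≠ 0) :
    ∃ v, enc L d v ≠ 0 ∧ #{x ∈ S | enc L d v x ≠ 0} ≤ d ∧
      L + d ≤ #{x | enc L d v x ≠ 0} := by
  have h1 : ∀ j : Fin L, ∃ i : Fin d, Sum.inl (j, i) ∉ S := by
    intro j
    have hne : enc L d (Pi.single j 1, 0) ≠ 0 := by
      intro h0
      have := congrFun h0 (Sum.inl (j, ⟨0, hd⟩))
      simp [enc] at this
    obtain ⟨x, hx, hx'⟩ := h _ hne
    rcases x with ⟨j', i⟩ | ⟨R, i⟩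
    · have : j' = j := by
        by_contra hj
        simp [enc, Pi.single_apply, hj] at hx'
      subst this
      exact ⟨i, hx⟩
    · simp [enc] at hx'
  choose R hR using h1
  have hval1 : ∀ j i, enc L d (0, Pi.single R 1) (Sum.inl (j, i)) ≠ 0 ↔ R j = i := by
    intro j i
    have : (∑ R' : Fin L → Fin d, if R' j = i then (Pi.single R (1 : ZMod 2) : _ → ZMod 2) R' else 0)
        = if R j = i then 1 else 0 := by
      rw [sum_eq_single R]
      · simp
      · intro b _ hb; simp [Pi.single_apply, hb]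
      · simp
    simp only [enc, LinearMap.coe_mk, AddHom.coe_mk, Pi.zero_apply, zero_add, this]
    split_ifs with h2 <;> simp [h2]
  have hval2 : ∀ R' i, enc L d (0, Pi.single R 1) (Sum.inr (R', i)) ≠ 0 ↔ R' = R := by
    intro R' i
    by_cases h2 : R' = R
    · simp [enc, h2]
    · simp [enc, Pi.single_apply, h2]
  refine ⟨(0, Pi.single R 1), ?_, ?_, ?_⟩
  · intro h0
    exact (hval2 R ⟨0, hd⟩).2 rfl (congrFun h0 _)
  · have : {x ∈ S | enc L d (0, Pi.single R 1) x ≠ 0} ⊆
        univ.image (fun i : Fin d => (Sum.inr (R, i) : Idx L d)) := by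
      intro x hx
      rw [mem_filter] at hx
      rcases x with ⟨j, i⟩ | ⟨R', i⟩
      · have := (hval1 j i).1 hx.2
        subst this
        exact absurd hx.1 (hR j)
      · have := (hval2 R' i).1 hx.2
        subst this
        exact mem_image.2 ⟨i, mem_univ _, rfl⟩
    refine (card_le_card this).trans (card_image_le.trans ?_)
    simp
  · let g : Fin L ⊕ Fin d → Idx L d := fun y => match y with
      | Sum.inl j => Sum.inl (j, R j)
      | Sum.inr i => Sum.inr (R, i)
    have hg : Function.Injective g := by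
      rintro (a | a) (b | b) hab <;> simp [g] at hab ⊢
      · exact hab.1
      · exact hab
    have : univ.image g ⊆ ({x | enc L d (0, Pi.single R 1) x ≠ 0} : Finset _) := by
      intro x hx
      obtain ⟨y, -, rfl⟩ := mem_image.1 hx
      rw [mem_filter]
      refine ⟨mem_univ _, ?_⟩
      rcases y with j | i
      · exact (hval1 j _).2 rfl
      · exact (hval2 R i).2 rfl
    have h3 := card_le_card this
    rw [card_image_of_injective _ hg] at h3
    simpa using h3

end Pool.Agent.H4.ThinCode
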