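import Mathlib

set_option autoImplicit false

namespace Pool.Agent.H4.Tron

open Finset

variable {V : Type} [Fintype V] [DecidableEq V]

open Classical in
/-- the unclaimed neighbours of `a` -/
noncomputable def mv (G : SimpleGraph V) (a : V) (A B : Finset V) : Finset V :=
  univ.filter fun x => G.Adj a x ∧ x ∉ A ∧ x ∉ B

/-- Minimax value with `k` turns left. The flag is `true` when it is Alice's turn; `a`, `b` are the
last vertices of Alice and Bob and `A`, `B` their claimed sets. A player with an available vertex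
must claim one, a player with none skips the turn. -/
noncomputable def val (G : SimpleGraph V) (w : V → ℝ) :
    ℕ → Bool → V → V → Finset V → Finset V → ℝ
  | 0, _, _, _, A, B => ∑ x ∈ B, w x - ∑ x ∈ A, w x
  | k + 1, true, a, b, A, B =>
    if h : (mv G a A B).Nonempty then
      (mv G a A B).inf' h fun x => val G w k false x b (insert x A) B
    else val G w k false a b A B
  | k + 1, false, a, b, A, B =>
    if h : (mv G b A B).Nonempty then
      (mv G b A B).sup' h fun y => val G w k true a y A (insert y B)
    else val G w k true a b A B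

/-- the value of Tron: Alice picks `u`, Bob picks `v ≠ u`, then `2 n` turns exhaust the game -/
noncomputable def value (G : SimpleGraph V) (w : V → ℝ) : ℝ :=
  ⨅ u : V, ⨆ v : {v // v ≠ u}, val G w (2 * Fintype.card V) true u v.1 {u} {v.1}

def chk (nb : V → List V) (c : V → ℤ) (t : ℤ) : ℕ → Bool → V → V → List V → ℤ → Bool
  | 0, _, _, _, _, d => decide (t ≤ d)
  | k + 1, true, a, b, S, d =>
    match (nb a).filter fun x => !(S.contains x) with
    | [] => chk nb c t k false a b S d
    | L => L.all fun x => chk nb c t k false x b (x :: S) (d - c x)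
  | k + 1, false, a, b, S, d =>
    match (nb b).filter fun x => !(S.contains x) with
    | [] => chk nb c t k true a b S d
    | L => L.any fun y => chk nb c t k true a y (y :: S) (d + c y)

lemma sound {G : SimpleGraph V} {nb : V → List V} (hn : ∀ a x, x ∈ nb a ↔ G.Adj a x)
    (c : V → ℤ) (t : ℤ) {r : ℝ} (hr : 0 ≤ r) (k : ℕ) : ∀ (p : Bool) (a b : V) (S : List V) (d : ℤ)
    (A B : Finset V), (∀ x, x ∈ S ↔ x ∈ A ∨ x ∈ B) → d = ∑ x ∈ B, c x - ∑ x ∈ A, c x →
    chk nb c t k p a b S d = true → r * t ≤ val G (fun x => r * c x) k p a b A B := by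
  induction k with
  | zero =>
    intro p a b S d A B _ hd h
    simp only [chk, decide_eq_true_eq] at h
    simp only [val, ← mul_sum, ← mul_sub]
    refine mul_le_mul_of_nonneg_left ?_ hr
    exact_mod_cast hd ▸ h
  | succ k ih =>
    intro p a b S d A B hS hd h
    have key : ∀ a x, x ∈ mv G a A B ↔ x ∈ (nb a).filter fun x => !(S.contains x) := by
      intro a x; simp [mv, hn, hS]
    have k2 : ∀ a x, x ∈ mv G a A B → x ∉ A ∧ x ∉ B := fun a x h => by
      simp only [mv, mem_filter] at h; exact h.2.2
    cases p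
    · simp only [chk, val] at h ⊢
      split at h
      · rename_i e
        rw [dif_neg fun ⟨x, hx⟩ => List.not_mem_nil (e ▸ (key _ x).1 hx)]
        exact ih _ _ _ _ _ _ _ hS hd h
      · obtain ⟨y, hy, h⟩ := List.any_eq_true.1 h
        have hy' := (key _ y).2 hy
        rw [dif_pos ⟨y, hy'⟩]
        refine le_trans (ih _ _ _ _ _ A (insert y B) (fun x => by simp [hS]; tauto) ?_ h)
          (le_sup' (fun y => val G (fun x => r * c x) k true a y A (insert y B)) hy')
        rw [sum_insert (k2 _ _ hy').2, hd]; ring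
    · simp only [chk, val] at h ⊢
      split at h
      · rename_i e
        rw [dif_neg fun ⟨x, hx⟩ => List.not_mem_nil (e ▸ (key _ x).1 hx)]
        exact ih _ _ _ _ _ _ _ hS hd h
      · rename_i e
        obtain ⟨y, hy⟩ := List.exists_mem_of_ne_nil _ e
        rw [dif_pos ⟨y, (key _ y).2 hy⟩]
        refine le_inf' _ _ fun x hx => ih _ _ _ _ _ (insert x A) B (fun x => by simp [hS]; tauto) ?_
          (List.all_eq_true.1 h x ((key _ x).1 hx))
        rw [sum_insert (k2 _ _ hx).1, hd]; ring

lemma le_value [Nonempty V] {G : SimpleGraph V} {nb : V → List V}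
    (hn : ∀ a x, x ∈ nb a ↔ G.Adj a x) (c : V → ℤ) (t : ℤ) {r : ℝ} (hr : 0 ≤ r) (f : V → V)
    (h : ∀ u, f u ≠ u ∧
      chk nb c t (2 * Fintype.card V) true u (f u) [u, f u] (c (f u) - c u) = true) :
    r * t ≤ value G fun x => r * c x :=
  le_ciInf fun u => le_trans (sound hn c t hr _ _ _ _ _ _ {u} {f u} (by simp) (by simp) (h u).2)
    (le_ciSup (f := fun v : {v // v ≠ u} =>
      val G (fun x => r * c x) (2 * Fintype.card V) true u v.1 {u} {v.1})
      (Finite.bddAbove_range _) ⟨f u, (h u).1⟩)

end Pool.Agent.H4.Tron
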