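import Mathlib

set_option autoImplicit false

namespace Pool.Agent.H4.VDm

open Finset Matrix

/-- a nonarchimedean valuation with values in `ℝ ∪ {∞}` -/
structure IsVal {K : Type} [Field K] (ν : K → WithTop ℝ) : Prop where
  top : ∀ a, ν a = ⊤ ↔ a = 0
  mul : ∀ a b, ν (a * b) = ν a + ν b
  add : ∀ a b, min (ν a) (ν b) ≤ ν (a + b)

/-- the indicator vector `e_S` -/
def ind {n : ℕ} (S : Finset (Fin n)) : Fin n → ℝ := fun i => if i ∈ S then 1 else 0

/-- the projected lower face of `p` with inner normal `(u, 1)` -/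
def cell {n : ℕ} (p : Finset (Fin n) → WithTop ℝ) (u : Fin n → ℝ) : Set (Fin n → ℝ) :=
  convexHull ℝ (ind '' {S | p S ≠ ⊤ ∧ ∀ T, p S + (u ⬝ᵥ ind S : ℝ) ≤ p T + (u ⬝ᵥ ind T : ℝ)})

/-- every edge of the regular subdivision is parallel to `e_i` or `e_i ± e_j` -/
def IsValDelta {n : ℕ} (p : Finset (Fin n) → WithTop ℝ) : Prop :=
  ∀ u x y, x ≠ y → cell p u = segment ℝ x y → ∃ (c : ℝ) (i j : Fin n), x - y = c • Pi.single i 1 ∨
    i ≠ j ∧ (x - y = c • (Pi.single i 1 + Pi.single j 1) ∨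
      x - y = c • (Pi.single i 1 - Pi.single j 1))

variable {K : Type} [Field K] {ν : K → WithTop ℝ} {m : Type} [Fintype m] [DecidableEq m]

lemma IsVal.one (h : IsVal ν) : ν 1 = 0 := by
  have h1 := h.mul 1 1
  have h2 : ν 1 ≠ ⊤ := fun k => one_ne_zero ((h.top 1).1 k)
  rw [mul_one] at h1
  lift ν 1 to ℝ using h2 with r
  exact_mod_cast (show r = 0 by have : r = r + r := by exact_mod_cast h1
                                linarith)

lemma IsVal.neg (h : IsVal ν) (a : K) : ν (-a) = ν a := by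
  have h1 := h.mul (-1) (-1)
  have h2 : ν (-1) ≠ ⊤ := fun k => neg_ne_zero.2 one_ne_zero ((h.top _).1 k)
  rw [neg_mul_neg, mul_one, h.one] at h1
  have h3 : ν (-1) = 0 := by
    lift ν (-1) to ℝ using h2 with r
    exact_mod_cast (show r = 0 by have : 0 = r + r := by exact_mod_cast h1
                                  linarith)
  rw [← neg_one_mul, h.mul, h3, zero_add]

lemma IsVal.sub (h : IsVal ν) (a b : K) : min (ν a) (ν b) ≤ ν (a - b) := by
  rw [sub_eq_add_neg, ← h.neg b]; exact h.add _ _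

lemma IsVal.sum (h : IsVal ν) {ι : Type} (s : Finset ι) (f : ι → K) {r : ℝ}
    (hf : ∀ i ∈ s, (r : WithTop ℝ) < ν (f i)) : (r : WithTop ℝ) < ν (∑ i ∈ s, f i) :=
  sum_induction f (fun x => (r : WithTop ℝ) < ν x) (fun a b x y => (lt_min x y).trans_le (h.add a b))
    (by rw [(h.top 0).2 rfl]; exact WithTop.coe_lt_top r) hf

lemma IsVal.prod (h : IsVal ν) {ι : Type} (s : Finset ι) (f : ι → K) :
    ν (∏ i ∈ s, f i) = ∑ i ∈ s, ν (f i) := by
  classical
  induction s using Finset.induction_on with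
  | empty => simpa using h.one
  | insert a s ha ih => rw [prod_insert ha, sum_insert ha, h.mul, ih]

/-- rows of `A` on `T`, rows of `B` elsewhere -/
def mix (A B : Matrix m m K) (T : Finset m) : Matrix m m K :=
  of fun i j => if i ∈ T then A i j else B i j

lemma det_inst {n : Type} [DecidableEq n] (i j : Fintype n) (A : Matrix n n K) :
    @det n _ i K _ A = @det n _ j K _ A := by cases Subsingleton.elim i j; rfl

lemma mix_det (A : Matrix m m K) (T : Finset m) :
    (mix A 1 T).det = (A.submatrix (fun i : T => i.1) (fun i : T => i.1)).det := by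
  rw [twoBlockTriangular_det _ (· ∈ T) fun i hi j hj => by
    simp [mix, hi, one_apply_ne (show i ≠ j by rintro rfl; exact hi hj)]]
  have : toSquareBlockProp (mix A 1 T) (fun i => ¬ i ∈ T) = 1 := by
    ext i j; simp [toSquareBlockProp_def, mix, i.2, one_apply, Subtype.ext_iff]
  rw [this, det_one, mul_one]
  have k : toSquareBlockProp (mix A 1 T) (· ∈ T) = A.submatrix (fun i : T => i.1) (fun i : T => i.1) := by
    ext i j; simp [toSquareBlockProp_def, mix]
  rw [k]
  exact det_inst _ _ _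

lemma pair_det (N : Matrix m m K) {i j : m} (k : i ≠ j) :
    (mix N 1 {i, j}).det = N i i * N j j - N i j * N j i := by
  let e : Fin 2 ≃ ({i, j} : Finset m) := Equiv.ofBijective
    (fun a => ⟨![i, j] a, by fin_cases a <;> simp⟩) ((Fintype.bijective_iff_injective_and_card _).2
      ⟨fun a b h => by
        have := congrArg Subtype.val h
        fin_cases a <;> fin_cases b
        exacts [rfl, (k this).elim, (k this.symm).elim, rfl], by rw [Fintype.card_fin, Fintype.card_coe, card_pair k]⟩)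
  rw [mix_det, ← det_submatrix_equiv_self e, det_fin_two]
  rfl

lemma strict (h : IsVal ν) (N : Matrix m m K) (w : m → ℝ) (R : Finset m) {a : m}
    (ha : a ∈ R) (h1 : ∀ i j, (((w i + w j) / 2 : ℝ) : WithTop ℝ) ≤ ν (N i j))
    (h2 : ∀ i, (((w i + w a) / 2 : ℝ) : WithTop ℝ) < ν (N i a)) :
    ((∑ i ∈ R, w i : ℝ) : WithTop ℝ) < ν (mix N 1 R).det := by
  rw [mix_det, det_apply']
  refine h.sum _ _ fun σ _ => ?_
  have e : ∀ x, ν (((Equiv.Perm.sign σ : ℤ) : K) * x) = ν x := fun x => by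
    rcases Int.units_eq_one_or (Equiv.Perm.sign σ) with k | k <;> simp [k, h.neg]
  have e2 : ∑ i ∈ R, w i = ∑ i : R, (w (σ i) + w i) / 2 := by
    rw [← sum_div, sum_add_distrib, Equiv.sum_comp σ fun i : R => w i, sum_coe_sort]; ring
  rw [e, h.prod, e2, ← add_sum_erase _ _ (mem_univ ⟨a, ha⟩),
    ← add_sum_erase _ _ (mem_univ ⟨a, ha⟩), WithTop.coe_add]
  refine WithTop.add_lt_add_of_lt_of_le WithTop.coe_ne_top (h2 _) ?_
  rw [WithTop.coe_sum]
  exact sum_le_sum fun i _ => h1 _ _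

lemma herm (h : IsVal ν) (σ : K →+* K) (hσ : ∀ a, ν (σ a) = ν a) (M : Matrix m m K)
    (hM : ∀ i j, σ (M i j) = - M j i) (W : m → ℝ) (z : m) (S : Finset m) {s : ℝ}
    (hs : ν (mix M 1 S).det = s)
    (h0 : ((s + ∑ i ∈ S, W i : ℝ) : WithTop ℝ) ≤
      ν (mix M 1 (symmDiff S {z})).det + (∑ i ∈ symmDiff S {z}, W i : ℝ))
    (h1 : ∀ R : Finset m, R.card ≤ 2 → (∃ a ∈ R, a ≠ z) → ((s + ∑ i ∈ S, W i : ℝ) : WithTop ℝ) <
      ν (mix M 1 (symmDiff S R)).det + (∑ i ∈ symmDiff S R, W i : ℝ))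
    (R : Finset m) {a : m} (ha : a ∈ R) (hz : a ≠ z) : ((s + ∑ i ∈ S, W i : ℝ) : WithTop ℝ) <
      ν (mix M 1 (symmDiff S R)).det + (∑ i ∈ symmDiff S R, W i : ℝ) := by
  have d0 : (mix M 1 S).det ≠ 0 := fun k => WithTop.coe_ne_top (hs.symm.trans ((h.top _).2 k))
  have u0 : IsUnit (mix M 1 S).det := d0.isUnit
  obtain ⟨N, hN⟩ : ∃ N, N = mix 1 M S * (mix M 1 S)⁻¹ := ⟨_, rfl⟩
  have e0 : N * mix M 1 S = mix 1 M S := by rw [hN, Matrix.mul_assoc, nonsing_inv_mul _ u0, Matrix.mul_one]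
  have e1 : ∀ R, mix N 1 R * mix M 1 S = mix M 1 (symmDiff S R) := fun R => by
    ext i j
    by_cases k : i ∈ R
    · have : (mix N 1 R * mix M 1 S) i j = (N * mix M 1 S) i j := by simp [mul_apply, mix, k]
      rw [this, e0]; by_cases k' : i ∈ S <;> simp [mix, mem_symmDiff, k, k']
    · have : (mix N 1 R * mix M 1 S) i j = ((1 : Matrix m m K) * mix M 1 S) i j := by simp only [mul_apply, mix, of_apply, k, if_false]
      rw [this, Matrix.one_mul]; by_cases k' : i ∈ S <;> simp [mix, mem_symmDiff, k, k']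
  have e2 : ((mix M 1 S).map σ)ᵀ * mix 1 M S = - (((mix 1 M S).map σ)ᵀ * mix M 1 S) := by
    ext j k
    have a1 : ∀ i, σ (mix M 1 S i j) * mix 1 M S i k =
        (if k = i then if k ∈ S then - M j k else 0 else 0) + if j = i then if j ∈ S then 0 else M j k else 0 := by
      intro i
      by_cases x : i ∈ S
      · by_cases y : k = i <;> by_cases t : j = i <;> simp [mix, one_apply, x, y, t, eq_comm (a := i), hM]
      · by_cases y : k = i <;> by_cases t : j = i <;> simp [mix, one_apply, x, y, t, eq_comm (a := i)]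
    have a2 : ∀ i, σ (mix 1 M S i j) * mix M 1 S i k =
        (if k = i then if k ∈ S then 0 else - M j k else 0) + if j = i then if j ∈ S then M j k else 0 else 0 := by
      intro i
      by_cases x : i ∈ S
      · by_cases y : k = i <;> by_cases t : j = i <;> simp [mix, one_apply, x, y, t, eq_comm (a := i)]
      · by_cases y : k = i <;> by_cases t : j = i <;> simp [mix, one_apply, x, y, t, eq_comm (a := i), hM]
    simp only [Matrix.neg_apply, mul_apply, transpose_apply, map_apply, a1, a2, sum_add_distrib, sum_ite_eq,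
      mem_univ, if_true]
    split_ifs <;> simp
  have e3 : - (N.map σ)ᵀ = N := by
    have u1 : IsUnit ((mix M 1 S).map σ)ᵀ.det := by
      rw [det_transpose, ← RingHom.mapMatrix_apply, ← RingHom.map_det]; exact u0.map σ
    rw [← e0, Matrix.map_mul, transpose_mul, Matrix.mul_assoc _ (N.map σ)ᵀ, ← Matrix.mul_neg,
      ← Matrix.neg_mul] at e2
    have := ((isUnit_iff_isUnit_det _).2 u1).mul_left_cancel e2
    exact (((isUnit_iff_isUnit_det _).2 u0).mul_right_cancel this).symm
  have e4 : ∀ i j, ν (N j i) = ν (N i j) := fun i j => by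
    rw [← hσ (N i j), ← h.neg (σ _)]; exact congrArg ν (congrFun (congrFun e3 j) i).symm
  let w : m → ℝ := fun i => if i ∈ S then W i else - W i
  have e5 : ∀ R : Finset m, ∑ i ∈ S, W i = ∑ i ∈ R, w i + ∑ i ∈ symmDiff S R, W i := fun R => by
    simp only [← sum_ite_mem_eq (f := W), ← sum_ite_mem_eq (s := R), ← sum_add_distrib]
    refine sum_congr rfl fun i _ => ?_
    by_cases x : i ∈ S <;> by_cases y : i ∈ R <;> simp [w, x, y, mem_symmDiff]
  have e6 : ∀ R : Finset m, ν (mix M 1 (symmDiff S R)).det + (∑ i ∈ symmDiff S R, W i : ℝ) =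
      ν (mix N 1 R).det + (s + ∑ i ∈ symmDiff S R, W i : ℝ) := fun R => by
    rw [← e1, det_mul, h.mul, hs, add_assoc, WithTop.coe_add]
  have e7 : ∀ R : Finset m, ((s + ∑ i ∈ S, W i : ℝ) : WithTop ℝ) =
      (∑ i ∈ R, w i : ℝ) + (s + ∑ i ∈ symmDiff S R, W i : ℝ) := fun R => by
    rw [e5 R, ← WithTop.coe_add]; congr 1; ring
  have d1 : ∀ i, (mix N 1 {i}).det = N i i := fun i => by rw [mix_det, det_unique]; rfl
  have g0 : (w z : WithTop ℝ) ≤ ν (N z z) := by
    rw [e6, e7 {z}, WithTop.add_le_add_iff_right WithTop.coe_ne_top, d1, sum_singleton] at h0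
    exact h0
  have g1 : ∀ i, i ≠ z → (w i : WithTop ℝ) < ν (N i i) := fun i k => by
    have := h1 {i} (by simp) ⟨i, by simp, k⟩
    rwa [e6, e7 {i}, WithTop.add_lt_add_iff_right WithTop.coe_ne_top, d1, sum_singleton] at this
  have g2 : ∀ i, (w i : WithTop ℝ) ≤ ν (N i i) := fun i => by
    by_cases k : i = z
    · rw [k]; exact g0
    · exact (g1 i k).le
  have g3 : ∀ i j, i ≠ j → (((w i + w j) / 2 : ℝ) : WithTop ℝ) < ν (N i j) := fun i j k => by
    have a1 := h1 {i, j} card_le_two (by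
      by_cases x : i = z
      · exact ⟨j, by simp, fun y => k (x.trans y.symm)⟩
      · exact ⟨i, by simp, x⟩)
    rw [e6, e7 {i, j}, WithTop.add_lt_add_iff_right WithTop.coe_ne_top, pair_det _ k, sum_pair k] at a1
    have a2 : ((w i + w j : ℝ) : WithTop ℝ) < ν (N i i * N j j) := by
      rw [h.mul, WithTop.coe_add]
      by_cases x : i = z
      · exact WithTop.add_lt_add_of_le_of_lt WithTop.coe_ne_top (g2 i) (g1 j fun y => k (x.trans y.symm))
      · exact WithTop.add_lt_add_of_lt_of_le WithTop.coe_ne_top (g1 i x) (g2 j)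
    have a3 := (lt_min a2 a1).trans_le (h.sub _ _)
    rw [sub_sub_cancel, h.mul, e4 i j] at a3
    by_contra a4
    have a5 := not_lt.1 a4
    have := a3.trans_le (add_le_add a5 a5)
    rw [← WithTop.coe_add, add_halves] at this
    exact lt_irrefl _ this
  rw [e6, e7 R, WithTop.add_lt_add_iff_right WithTop.coe_ne_top]
  refine strict h N w R ha (fun i j => ?_) fun i => ?_
  · by_cases k : i = j
    · rw [k, add_self_div_two]; exact g2 j
    · exact (g3 i j k).le
  · by_cases k : i = a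
    · rw [k, add_self_div_two]; exact g1 a hz
    · exact g3 i a k

variable {n : ℕ}

/-- two sets that are the only minimisers of a tilt of `p` differ in at most two elements -/
def Good (p : Finset (Fin n) → WithTop ℝ) : Prop :=
  ∀ (u : Fin n → ℝ) S T, p S ≠ ⊤ → (∀ U, p S + (u ⬝ᵥ ind S : ℝ) ≤ p U + (u ⬝ᵥ ind U : ℝ)) →
      p T + (u ⬝ᵥ ind T : ℝ) ≤ p S + (u ⬝ᵥ ind S : ℝ) →
      (∀ U, U ≠ S → U ≠ T → p S + (u ⬝ᵥ ind S : ℝ) < p U + (u ⬝ᵥ ind U : ℝ)) →
      (symmDiff S T).card ≤ 2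

lemma geo (p : Finset (Fin n) → WithTop ℝ)
    (h : Good p) : IsValDelta p := by
  intro u x y xy hc
  set Mn := {S | p S ≠ ⊤ ∧ ∀ T, p S + (u ⬝ᵥ ind S : ℝ) ≤ p T + (u ⬝ᵥ ind T : ℝ)} with hMn
  have inj : ∀ S T : Finset (Fin n), ind S = ind T → S = T := fun S T k => Finset.ext fun i => by
    have := congrFun k i
    by_cases a : i ∈ S <;> by_cases b : i ∈ T <;> simp_all [ind]
  have mem : ∀ S ∈ Mn, ∃ t : ℝ, ind S = x + t • (y - x) := fun S hS => by
    have : ind S ∈ segment ℝ x y := hc ▸ subset_convexHull ℝ _ ⟨S, hS, rfl⟩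
    rw [segment_eq_image'] at this
    obtain ⟨t, -, e⟩ := this
    exact ⟨t, e.symm⟩
  obtain ⟨S, hS, T, hT, ST⟩ : Mn.Nontrivial := by
    by_contra k
    have : (cell p u).Subsingleton := by
      rcases (Set.not_nontrivial_iff.1 k).eq_empty_or_singleton with e | ⟨S, e⟩ <;>
        simp [cell, ← hMn, e]
    exact xy (this (hc ▸ left_mem_segment ℝ x y) (hc ▸ right_mem_segment ℝ x y))
  obtain ⟨s, hs⟩ := mem S hS
  obtain ⟨t, ht⟩ := mem T hT
  have st : t - s ≠ 0 := fun k => ST (inj _ _ (by rw [hs, ht, sub_eq_zero.1 k]))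
  have e : x - y = (t - s)⁻¹ • (ind S - ind T) := by
    rw [hs, ht, eq_inv_smul_iff₀ st]; module
  have hne : (symmDiff S T).Nonempty := by simpa [nonempty_iff_ne_empty] using ST
  have c2 := h u S T hS.1 hS.2 (hT.2 S) fun U a b => by
    by_contra k
    have k' := not_lt.1 k
    obtain ⟨r, hr⟩ := mem U ⟨fun e => by
      rw [e, top_add, top_le_iff] at k'
      exact WithTop.add_ne_top.2 ⟨hS.1, WithTop.coe_ne_top⟩ k', fun V => k'.trans (hS.2 V)⟩
    obtain ⟨i, hi⟩ := hne
    have a1 := congrFun hs i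
    have a2 := congrFun ht i
    have a3 := congrFun hr i
    have a4 : (y - x) i ≠ 0 := fun k => by
      rw [mem_symmDiff] at hi
      by_cases c : i ∈ S <;> by_cases d : i ∈ T <;> simp [ind, c, d, k] at a1 a2 hi <;> linarith
    simp only [Pi.add_apply, Pi.smul_apply, smul_eq_mul] at a1 a2 a3
    have : ind U i = ind S i ∨ ind U i = ind T i := by
      rw [mem_symmDiff] at hi
      by_cases c : i ∈ S <;> by_cases d : i ∈ T <;> by_cases f : i ∈ U <;> simp [ind, c, d, f] at hi ⊢
    rcases this with k | k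
    · exact a (inj _ _ (by rw [hr, hs, mul_right_cancel₀ a4 (show r * _ = s * _ by linarith)]))
    · exact b (inj _ _ (by rw [hr, ht, mul_right_cancel₀ a4 (show r * _ = t * _ by linarith)]))
  have f : ind S - ind T = ∑ i ∈ symmDiff S T, (if i ∈ S then (1 : ℝ) else -1) • Pi.single i 1 := by
    ext j
    by_cases c : j ∈ S <;> by_cases d : j ∈ T <;>
      simp [ind, c, d, Finset.sum_apply, Pi.single_apply, mem_symmDiff, -ite_smul]
  rw [e, f]
  rcases (show (symmDiff S T).card = 1 ∨ (symmDiff S T).card = 2 by have := hne.card_pos; omega) with k | k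
  · obtain ⟨i, k⟩ := card_eq_one.1 k
    exact ⟨_, i, i, Or.inl (by rw [k, sum_singleton, smul_smul])⟩
  · obtain ⟨i, j, ij, k⟩ := card_eq_two.1 k
    refine ⟨(t - s)⁻¹ * (if i ∈ S then (1 : ℝ) else -1), i, j, Or.inr ⟨ij, ?_⟩⟩
    rw [k, sum_pair ij]
    by_cases c : i ∈ S <;> by_cases d : j ∈ S <;> simp only [c, d, if_true, if_false]
    exacts [Or.inl (by module), Or.inr (by module), Or.inr (by module), Or.inl (by module)]

lemma border (B : Matrix (Fin n) (Fin n) K) (c d : Fin n → K) (t : K) (R : Finset (Fin n ⊕ Unit)) :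
    (mix (fromBlocks B (of fun i _ => c i) (of fun _ j => - d j) 0) 1 R).det *
      (if Sum.inr () ∈ R then t else 1) = if Sum.inr () ∈ R then
        (mix (B + t • vecMulVec c d) 1 R.toLeft).det - (mix B 1 R.toLeft).det
        else (mix B 1 R.toLeft).det := by
  let c' : Matrix (Fin n) Unit K := of fun i _ => if i ∈ R.toLeft then c i else 0
  have e0 : (fromBlocks (mix B 1 R.toLeft) c' 0 (1 : Matrix Unit Unit K)).det = (mix B 1 R.toLeft).det := by
    rw [det_fromBlocks_zero₂₁, det_one, mul_one]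
  split_ifs with h
  · set X := mix (fromBlocks B (of fun i _ => c i) (of fun _ j => - d j) 0) 1 R with hX
    have e1 : X.updateRow (.inr ()) (Pi.single (.inr ()) 1) = fromBlocks (mix B 1 R.toLeft) c' 0 1 := by
      ext (i | i) (j | j) <;> simp [hX, mix, c', one_apply, updateRow_apply]
    have e2 : X.updateRow (.inr ()) (t • X (.inr ()) + Pi.single (.inr ()) 1) =
        fromBlocks (mix B 1 R.toLeft) c' (of fun _ j => - (t * d j)) 1 := by
      ext (i | i) (j | j) <;> simp [hX, mix, c', h, one_apply, updateRow_apply]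
    have e3 := congrArg det e2
    rw [det_updateRow_add, det_updateRow_smul, updateRow_eq_self, e1, e0] at e3
    have e4 : (fromBlocks (mix B 1 R.toLeft) c' (of fun _ j => - (t * d j)) 1).det =
        (fromBlocks (mix (B + t • vecMulVec c d) 1 R.toLeft) 0 (of fun _ j => - (t * d j))
          (1 : Matrix Unit Unit K)).det := by
      refine det_eq_of_forall_row_eq_smul_add_const
        (Sum.elim (fun i => c' i ()) 0) (.inr ()) rfl ?_
      rintro (i | i) (j | j)
      · by_cases a : i ∈ R.toLeft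
        · simp only [mix, c', a, fromBlocks_apply₁₁, of_apply, if_true, Matrix.add_apply, Matrix.smul_apply,
            smul_eq_mul, Sum.elim_inl, fromBlocks_apply₂₁, vecMulVec_apply]
          ring
        · simp only [mix, c', a, fromBlocks_apply₁₁, of_apply, if_false, Sum.elim_inl]; ring
      · simp
      · simp
      · simp
    rw [e4, det_fromBlocks_zero₁₂, det_one, mul_one] at e3
    rw [← e3]; ring
  · rw [mul_one, ← e0]
    congr 1
    ext (i | i) (j | j) <;> simp [mix, c', h, one_apply]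

lemma fix (σ : K →+* K) (A : Matrix m m K) (hA : ∀ i j, σ (A i j) = - A j i) (T : Finset m) :
    σ (mix A 1 T).det = (-1) ^ T.card * (mix A 1 T).det := by
  rw [mix_det, RingHom.map_det, ← det_transpose, ← Fintype.card_coe T, ← det_neg]
  congr 1
  ext i j; simp [hA]

lemma core (hν : IsVal ν) (σ : K →+* K) (hσ : ∀ a, σ (σ a) = a) (hv : ∀ a, ν (σ a) = ν a) (ω : K)
    (hω : ω + σ ω = 1) (A : Matrix (Fin n) (Fin n) K) (c : Fin n → K) (δ : K) (d0 : δ ≠ 0)
    (d1 : σ δ = δ) (hA : ∀ i j, A j i + σ (A i j) = δ * (c j * σ (c i))) :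
    Good fun S => ν (mix A 1 S).det := by
  classical
  set a : Finset (Fin n) → K := fun S => (mix A 1 S).det with ha
  obtain ⟨b, hb⟩ : ∃ b : Finset (Fin n) → K, ∀ T, b T = a T - (-1) ^ T.card * σ (a T) :=
    ⟨_, fun _ => rfl⟩
  have sq : ∀ k : ℕ, ((-1 : K) ^ k) * (-1) ^ k = 1 := fun k => by rw [← mul_pow]; simp
  obtain ⟨T0, -, hT⟩ := exists_max_image univ
    (fun T => ν (if b T = 0 then ω else a T / b T)) ⟨∅, mem_univ _⟩
  obtain ⟨θ, hθ⟩ : ∃ θ, θ = if b T0 = 0 then ω else a T0 / b T0 := ⟨_, rfl⟩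
  rw [← hθ] at hT
  have t1 : θ + σ θ = 1 := by
    rw [hθ]; split_ifs with h
    · exact hω
    · have k : σ (b T0) * (-1) ^ T0.card = - b T0 := by
        rw [hb, map_sub, map_mul, hσ, map_pow, map_neg, map_one]
        linear_combination (- a T0) * sq T0.card
      have k2 : σ (b T0) ≠ 0 := by simpa using h
      rw [map_div₀, div_add_div _ _ h k2, div_eq_one_iff_eq (mul_ne_zero h k2)]
      have k3 : σ (b T0) = - ((-1) ^ T0.card * b T0) := by
        linear_combination (-1) ^ T0.card * k - σ (b T0) * sq T0.card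
      rw [k3]
      linear_combination (-1) ^ T0.card * b T0 * hb T0 - b T0 * σ (a T0) * sq T0.card
  have t0 : θ ≠ 0 := fun h => by simp [h] at t1
  have t2 : ∀ T, ν (a T) ≤ ν (θ * b T) := fun T => by
    by_cases h : b T = 0
    · rw [h, mul_zero, (hν.top 0).2 rfl]; exact le_top
    · have := hT T (mem_univ _)
      rw [if_neg h] at this
      rw [hν.mul, ← div_mul_cancel₀ (a T) h, hν.mul]
      exact add_le_add_left this _
  set B := A - (θ * δ) • vecMulVec c (fun j => σ (c j)) with hB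
  have b1 : ∀ i j, σ (B i j) = - B j i := fun i j => by
    simp only [hB, Matrix.sub_apply, Matrix.smul_apply, smul_eq_mul, map_sub, map_mul, vecMulVec_apply, hσ, d1]
    linear_combination hA i j - δ * (c j * σ (c i)) * t1
  have b2 : B + (θ * δ) • vecMulVec c (fun j => σ (c j)) = A := sub_add_cancel _ _
  set M := fromBlocks B (of fun i (_ : Unit) => c i) (of fun (_ : Unit) j => - σ (c j)) 0 with hM
  have m1 : ∀ i j, σ (M i j) = - M j i := by
    rintro (i | i) (j | j) <;> simp [hM, b1, hσ]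
  have bd := border B c (fun j => σ (c j)) (θ * δ)
  simp only [b2, ← hM] at bd
  obtain ⟨γ, hγ⟩ : ∃ γ : ℝ, ν (θ * δ) = γ :=
    (WithTop.ne_top_iff_exists.1 fun h => mul_ne_zero t0 d0 ((hν.top _).1 h)).imp fun _ h => h.symm
  have key : ∀ T, ν (a T) ≤ ν (mix B 1 T).det ∧ ν (a T) ≤ ν (a T - (mix B 1 T).det) := fun T => by
    have e := bd (T.disjSum univ)
    simp only [inr_mem_disjSum, mem_univ, if_true, toLeft_disjSum] at e
    have e' := congrArg σ e
    rw [map_mul, map_sub, map_mul, d1, fix σ M m1, fix σ B b1, card_disjSum, card_univ,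
      Fintype.card_unit, pow_succ] at e'
    have e2 : a T - (mix B 1 T).det = θ * b T := by
      have e3 : b T = (mix M 1 (T.disjSum univ)).det * δ := by
        rw [hb]
        linear_combination -e + (-1) ^ T.card * e' + (mix M 1 (T.disjSum univ)).det * δ * t1 +
          ((mix M 1 (T.disjSum univ)).det * (σ θ * δ) - (mix B 1 T).det) * sq T.card
      rw [e3, ← e]; ring
    refine ⟨?_, e2 ▸ t2 T⟩
    have := (le_min le_rfl (e2 ▸ t2 T)).trans (hν.sub (a T) (a T - (mix B 1 T).det))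
    rwa [sub_sub_cancel] at this
  intro u S T h0 h1 h2 h3
  let W : Fin n ⊕ Unit → ℝ := Sum.elim u fun _ => γ
  have w1 : ∀ R : Finset (Fin n ⊕ Unit), ν (mix M 1 R).det + (∑ i ∈ R, W i : ℝ) =
      ν (if Sum.inr () ∈ R then a R.toLeft - (mix B 1 R.toLeft).det else (mix B 1 R.toLeft).det) +
        (u ⬝ᵥ ind R.toLeft : ℝ) := fun R => by
    have : ∑ i ∈ R, W i = (if Sum.inr () ∈ R then γ else 0) + u ⬝ᵥ ind R.toLeft := by
      rw [← sum_ite_mem_eq, Fintype.sum_sum_type, add_comm]
      simp [W, ind, dotProduct]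
    rw [← bd, hν.mul, this, WithTop.coe_add, add_assoc]
    split_ifs
    · rw [hγ]
    · rw [hν.one]; rfl
  have w2 : ∀ R : Finset (Fin n ⊕ Unit), ν (a R.toLeft) + (u ⬝ᵥ ind R.toLeft : ℝ) ≤
      ν (mix M 1 R).det + (∑ i ∈ R, W i : ℝ) := fun R => by
    rw [w1]
    refine add_le_add_left ?_ _
    split_ifs
    exacts [(key _).2, (key _).1]
  have w3 : ∀ T, ∃ R : Finset (Fin n ⊕ Unit), R.toLeft = T ∧
      ν (mix M 1 R).det + (∑ i ∈ R, W i : ℝ) ≤ ν (a T) + (u ⬝ᵥ ind T : ℝ) := fun T => by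
    have := hν.add (a T - (mix B 1 T).det) (mix B 1 T).det
    rw [sub_add_cancel, min_le_iff] at this
    rcases this with h | h
    · exact ⟨T.disjSum univ, toLeft_disjSum, by rw [w1]; simpa using h⟩
    · exact ⟨T.disjSum ∅, toLeft_disjSum, by
        rw [w1, if_neg (by simp), toLeft_disjSum]; exact add_le_add_left h _⟩
  obtain ⟨S', rfl, s1⟩ := w3 S
  obtain ⟨T', rfl, s2⟩ := w3 T
  obtain ⟨s, hs⟩ : ∃ s : ℝ, ν (mix M 1 S').det = s :=
    (WithTop.ne_top_iff_exists.1 fun h => by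
      rw [h, top_add, top_le_iff] at s1
      exact WithTop.add_ne_top.2 ⟨h0, WithTop.coe_ne_top⟩ s1).imp fun _ h => h.symm
  rw [hs, ← WithTop.coe_add] at s1
  have tl : ∀ R R' : Finset (Fin n ⊕ Unit), (symmDiff R R').toLeft = symmDiff R.toLeft R'.toLeft :=
    fun R R' => by ext i; simp [mem_symmDiff]
  have nz : ∀ x : Fin n ⊕ Unit, x ≠ .inr () → ∃ i, x = .inl i := by
    rintro (i | i) h
    exacts [⟨i, rfl⟩, (h rfl).elim]
  by_contra hc
  obtain ⟨i, hi⟩ := card_pos.1 (show 0 < (symmDiff S'.toLeft T'.toLeft).card by omega)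
  have := herm hν σ hv M m1 W (.inr ()) S' hs (s1.trans ((h1 _).trans (w2 _)))
    (fun R r ⟨x, x1, x2⟩ => s1.trans_lt ((h3 _ ?_ ?_).trans_le (w2 _))) (symmDiff S' T')
    (a := .inl i) (by simpa [mem_symmDiff] using hi) (by simp)
  · rw [symmDiff_symmDiff_cancel_left] at this
    exact absurd (this.trans_le (s2.trans (h2.trans (w2 _)))) (by rw [hs, ← WithTop.coe_add]; simp)
  · obtain ⟨j, rfl⟩ := nz x x2
    rw [tl, ne_eq, symmDiff_eq_left]
    exact fun e => by simpa [e] using mem_toLeft.2 x1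
  · intro e
    rw [← e, tl, symmDiff_symmDiff_cancel_left] at hc
    exact hc (card_toLeft_le.trans r)

lemma twist (p q : Finset (Fin n) → WithTop ℝ) (S0 : Finset (Fin n)) (c : ℝ)
    (h : ∀ R, p (symmDiff S0 R) = q R + c) (hq : Good q) : Good p := by
  intro u S T h0 h1 h2 h3
  let v : Fin n → ℝ := fun i => if i ∈ S0 then - u i else u i
  have e : ∀ R, p (symmDiff S0 R) + (u ⬝ᵥ ind (symmDiff S0 R) : ℝ) =
      q R + (v ⬝ᵥ ind R : ℝ) + (c + u ⬝ᵥ ind S0 : ℝ) := fun R => by
    have : u ⬝ᵥ ind (symmDiff S0 R) = v ⬝ᵥ ind R + u ⬝ᵥ ind S0 := by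
      simp only [dotProduct, ← sum_add_distrib]
      refine sum_congr rfl fun i _ => ?_
      by_cases x : i ∈ S0 <;> by_cases y : i ∈ R <;> simp [v, ind, x, y, mem_symmDiff]
    rw [h, this]; push_cast; abel
  obtain ⟨S, rfl⟩ : ∃ R, S = symmDiff S0 R := ⟨symmDiff S0 S, (symmDiff_symmDiff_cancel_left _ _).symm⟩
  obtain ⟨T, rfl⟩ : ∃ R, T = symmDiff S0 R := ⟨symmDiff S0 T, (symmDiff_symmDiff_cancel_left _ _).symm⟩
  have := hq v S T (fun k => h0 (by rw [h, k, top_add])) (fun U => by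
      have := h1 (symmDiff S0 U)
      rwa [e, e, WithTop.add_le_add_iff_right WithTop.coe_ne_top] at this)
    (by rwa [e, e, WithTop.add_le_add_iff_right WithTop.coe_ne_top] at h2) fun U a b => by
      have := h3 (symmDiff S0 U) (by simpa using a) (by simpa using b)
      rwa [e, e, WithTop.add_lt_add_iff_right WithTop.coe_ne_top] at this
  rwa [symmDiff_symmDiff_symmDiff_comm, symmDiff_self, bot_symmDiff]

end Pool.Agent.H4.VDm
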