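import Mathlib

set_option autoImplicit false

namespace Pool.Agent.H4.VcA

open Finset

abbrev Z2 := ZMod 2

lemma z2 : ∀ x : Z2, x = 0 ∨ x = 1 := by decide

lemma var (N : ℕ) : ∀ f : (Fin N → Z2) → ℝ, (∀ x i, |f (x + Pi.single i 1) - f x| ≤ 1) →
    2 ^ N * ∑ x, f x ^ 2 - (∑ x, f x) ^ 2 ≤ 4 ^ N * N / 4 := by
  induction N with
  | zero => intro f _; simp
  | succ N ih =>
    intro f hf
    have hs : ∀ F : (Fin (N + 1) → Z2) → ℝ,
        ∑ x, F x = ∑ y : Fin N → Z2, (F (Fin.cons 0 y) + F (Fin.cons 1 y)) := by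
      intro F
      rw [← (Fin.consEquiv (fun _ : Fin (N + 1) => Z2)).sum_comp, Fintype.sum_prod_type, sum_comm]
      refine sum_congr rfl fun y _ => ?_
      rw [show (univ : Finset Z2) = {0, 1} by decide, sum_pair (by decide)]
      rfl
    have h1 : ∀ (b : Z2) (y : Fin N → Z2) (i : Fin N), (Fin.cons b (y + Pi.single i 1) : Fin (N + 1) → Z2) =
        (Fin.cons b y : Fin (N + 1) → Z2) + Pi.single i.succ 1 := by
      intro b y i
      funext j
      refine Fin.cases ?_ (fun j => ?_) j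
      · simp [Pi.single_apply, (Fin.succ_ne_zero i).symm]
      · simp [Pi.single_apply]
    have h2 : ∀ (y : Fin N → Z2), (Fin.cons 1 y : Fin (N + 1) → Z2) =
        (Fin.cons 0 y : Fin (N + 1) → Z2) + Pi.single 0 1 := by
      intro y
      funext j
      refine Fin.cases ?_ (fun j => ?_) j
      · simp
      · simp
    have h3 := ih (fun y => (f (Fin.cons 0 y) + f (Fin.cons 1 y)) / 2) (fun y i => by
      have a := abs_le.1 (hf (Fin.cons 0 y) i.succ)
      have b := abs_le.1 (hf (Fin.cons 1 y) i.succ)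
      simp only [h1]
      rw [abs_le]
      constructor <;> linarith [a.1, a.2, b.1, b.2])
    have h4 : ∑ y : Fin N → Z2, (f (Fin.cons 0 y) ^ 2 + f (Fin.cons 1 y) ^ 2) ≤
        ∑ y : Fin N → Z2, (2 * ((f (Fin.cons 0 y) + f (Fin.cons 1 y)) / 2) ^ 2 + 1 / 2) := by
      refine sum_le_sum fun y _ => ?_
      have a := abs_le.1 (hf (Fin.cons 0 y) 0)
      rw [← h2] at a
      nlinarith [a.1, a.2]
    rw [sum_add_distrib (g := fun _ => (1 / 2 : ℝ)), ← mul_sum, sum_const, card_univ] at h4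
    simp only [Fintype.card_pi, ZMod.card, prod_const, card_univ, Fintype.card_fin, nsmul_eq_mul] at h4
    rw [hs (fun x => f x ^ 2), hs f]
    rw [← sum_div] at h3
    have e4 : (4 : ℝ) ^ N = 2 ^ N * 2 ^ N := by rw [← mul_pow]; norm_num
    have p : (0 : ℝ) < 2 ^ N := by positivity
    have h5 := mul_le_mul_of_nonneg_left h4 p.le
    push_cast at h5 ⊢
    rw [pow_succ, pow_succ 4, e4]
    rw [e4] at h3
    nlinarith

def wt {N : ℕ} (x : Fin N → Z2) : ℕ := (univ.filter (fun i => x i = 1)).card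

lemma wt_flip {N : ℕ} (x : Fin N → Z2) (i : Fin N) : wt (x + Pi.single i 1) ≤ wt x + 1 := by
  refine le_trans (card_le_card (t := insert i (univ.filter (fun i => x i = 1))) fun j hj => ?_)
    (card_insert_le _ _)
  by_cases h : j = i
  · simp [h]
  · simpa [Pi.single_apply, h] using hj

lemma close {N : ℕ} (A B : Finset (Fin N → Z2)) (δ : ℝ) (hδ : 0 < δ) (hA : δ * 2 ^ N ≤ A.card)
    (hB : δ * 2 ^ N ≤ B.card) (hN : 16 / δ < N) : ∃ a ∈ A, ∃ b ∈ B, 4 * wt (a + b) ≤ N := by
  by_contra hn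
  push Not at hn
  have p : (0 : ℝ) < 2 ^ N := by positivity
  have hAne : A.Nonempty := by
    rw [← card_pos]
    have : (0 : ℝ) < A.card := lt_of_lt_of_le (by positivity) hA
    exact_mod_cast this
  let d : (Fin N → Z2) → ℕ := fun x => A.inf' hAne (fun a => wt (a + x))
  have d1 : ∀ x i, d (x + Pi.single i 1) ≤ d x + 1 := by
    intro x i
    obtain ⟨a, ha, e⟩ := exists_mem_eq_inf' hAne (fun a => wt (a + x))
    have := inf'_le (fun a => wt (a + (x + Pi.single i 1))) ha
    have h2 := wt_flip (a + x) i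
    rw [add_assoc] at h2
    simp only [d]
    omega
  have d2 : ∀ x i, |(d (x + Pi.single i 1) : ℝ) - d x| ≤ 1 := by
    intro x i
    have a1 := d1 x i
    have a2 := d1 (x + Pi.single i 1) i
    have e : x + Pi.single i 1 + Pi.single i 1 = x := by
      funext j
      simp only [Pi.add_apply, add_assoc, CharTwo.add_self_eq_zero, add_zero]
    rw [e] at a2
    have b1 : (d (x + Pi.single i 1) : ℝ) ≤ d x + 1 := by exact_mod_cast a1
    have b2 : (d x : ℝ) ≤ d (x + Pi.single i 1) + 1 := by exact_mod_cast a2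
    rw [abs_le]; constructor <;> linarith
  have hv := var N (fun x => d x) d2
  have dA : ∀ a ∈ A, (d a : ℝ) = 0 := by
    intro a ha
    have := inf'_le (fun b => wt (b + a)) ha
    have e : wt (a + a) = 0 := by
      simp [wt, CharTwo.add_self_eq_zero]
    simp only [e] at this
    have : d a = 0 := by simp only [d]; omega
    exact_mod_cast this
  have dB : ∀ b ∈ B, (N : ℝ) / 4 ≤ d b := by
    intro b hb
    obtain ⟨a, ha, e⟩ := exists_mem_eq_inf' hAne (fun a => wt (a + b))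
    have := hn a ha b hb
    have h2 : N ≤ 4 * d b := by simp only [d]; omega
    have : (N : ℝ) ≤ 4 * d b := by exact_mod_cast h2
    linarith
  have hNpos : (0 : ℝ) < N := lt_trans (by positivity) hN
  -- the mean
  obtain ⟨m, hm⟩ : ∃ m : ℝ, ∑ x, (d x : ℝ) = m * 2 ^ N := ⟨(∑ x, (d x : ℝ)) / 2 ^ N, by field_simp⟩
  have e1 : ∑ x, ((d x : ℝ) - m) ^ 2 = ∑ x, (d x : ℝ) ^ 2 - m ^ 2 * 2 ^ N := by
    simp only [sub_sq, sum_add_distrib, sum_sub_distrib, sum_const, card_univ, Fintype.card_pi,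
      ZMod.card, prod_const, Fintype.card_fin, nsmul_eq_mul, ← sum_mul, ← mul_sum, hm]
    push_cast; ring
  have e2 : ∑ x, ((d x : ℝ) - m) ^ 2 ≤ 2 ^ N * N / 4 := by
    rw [e1]
    rw [hm, show (4 : ℝ) ^ N = 2 ^ N * 2 ^ N by rw [← mul_pow]; norm_num] at hv
    refine le_of_mul_le_mul_left ?_ p
    nlinarith
  have e3 : ∀ C : Finset (Fin N → Z2), δ * 2 ^ N ≤ C.card → (∀ x ∈ C, ((N : ℝ) / 8) ^ 2 ≤ ((d x : ℝ) - m) ^ 2) →
      δ * 2 ^ N * ((N : ℝ) / 8) ^ 2 ≤ 2 ^ N * N / 4 := by
    intro C hC h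
    refine le_trans ?_ (le_trans (sum_le_sum_of_subset_of_nonneg (subset_univ C)
      (fun _ _ _ => sq_nonneg _)) e2)
    refine le_trans ?_ (sum_le_sum h)
    rw [sum_const, nsmul_eq_mul]
    exact mul_le_mul_of_nonneg_right hC (sq_nonneg _)
  have e4 : δ * 2 ^ N * ((N : ℝ) / 8) ^ 2 ≤ 2 ^ N * N / 4 := by
    rcases le_total m (N / 8) with h | h
    · exact e3 B hB fun x hx => by
        have := dB x hx
        exact pow_le_pow_left₀ (by positivity) (by linarith) 2
    · exact e3 A hA fun x hx => by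
        rw [dA x hx, zero_sub, neg_sq]
        exact pow_le_pow_left₀ (by positivity) h 2
  have e5 : δ * N ≤ 16 := by
    have : (2 ^ N * N) * (δ * N) ≤ (2 ^ N * N) * (16 : ℝ) := by nlinarith
    exact le_of_mul_le_mul_left this (by positivity)
  rw [div_lt_iff₀ hδ] at hN
  linarith

end Pool.Agent.H4.VcA
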