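import Mathlib
import Pool.Agent.H4.VcA

set_option autoImplicit false

namespace Pool.Agent.H4.VcB

open Finset MeasureTheory VcA
open scoped ComplexOrder

def Bd {G : Type} (f : G → ℂ) : Prop := ∃ C : ℝ, ∀ x, ‖f x‖ ≤ C

def IsMean {G : Type} [AddCommGroup G] (m : (G → ℂ) → ℂ) : Prop :=
  (∀ f g, Bd f → Bd g → m (fun x => f x + g x) = m f + m g) ∧
  (∀ (c : ℂ) f, Bd f → m (fun x => c * f x) = c * m f) ∧
  (∀ f, Bd f → (∀ x, 0 ≤ f x) → 0 ≤ m f) ∧ m (fun _ => 1) = 1 ∧
  ∀ (h : G) f, Bd f → m (fun x => f (x + h)) = m f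

section mean
variable {G : Type} [AddCommGroup G] {m : (G → ℂ) → ℂ}

omit [AddCommGroup G] in
lemma Bd.add {f g : G → ℂ} (hf : Bd f) (hg : Bd g) : Bd (fun x => f x + g x) := by
  obtain ⟨a, ha⟩ := hf
  obtain ⟨b, hb⟩ := hg
  exact ⟨a + b, fun x => (norm_add_le _ _).trans (add_le_add (ha x) (hb x))⟩

omit [AddCommGroup G] in
lemma Bd.mul {f : G → ℂ} (c : ℂ) (hf : Bd f) : Bd (fun x => c * f x) := by
  obtain ⟨a, ha⟩ := hf
  exact ⟨‖c‖ * a, fun x => by rw [norm_mul]; exact mul_le_mul_of_nonneg_left (ha x) (norm_nonneg _)⟩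

omit [AddCommGroup G] in
lemma bd_ind (X : Set G) : Bd (X.indicator fun _ => (1 : ℂ)) :=
  ⟨1, fun x => by by_cases h : x ∈ X <;> simp [h]⟩

omit [AddCommGroup G] in
lemma bd_one : Bd (fun _ : G => (1 : ℂ)) := ⟨1, fun _ => by simp⟩

lemma m_sum (hm : IsMean m) {ι : Type} (s : Finset ι) (f : ι → G → ℂ) (hf : ∀ i, Bd (f i)) :
    Bd (fun x => ∑ i ∈ s, f i x) ∧ m (fun x => ∑ i ∈ s, f i x) = ∑ i ∈ s, m (f i) := by
  classical
  induction s using Finset.induction_on with
  | empty =>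
    refine ⟨⟨0, fun x => by simp⟩, ?_⟩
    have := hm.2.1 0 _ bd_one
    simpa using this
  | insert a s ha ih =>
    simp only [sum_insert ha]
    exact ⟨(hf a).add ih.1, by rw [hm.1 _ _ (hf a) ih.1, ih.2]⟩

noncomputable def nu (m : (G → ℂ) → ℂ) (X : Set G) : ℝ := (m (X.indicator fun _ => 1)).re

lemma sum_le (hm : IsMean m) {ι κ : Type} (s : Finset ι) (t : Finset κ) (X : ι → Set G) (Y : κ → Set G)
    (c C : ℝ) (h : ∀ x, ∑ i ∈ s, (X i).indicator (fun _ => (1 : ℝ)) x ≤
      c + C * ∑ j ∈ t, (Y j).indicator (fun _ => (1 : ℝ)) x) :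
    ∑ i ∈ s, nu m (X i) ≤ c + C * ∑ j ∈ t, nu m (Y j) := by
  obtain ⟨b1, e1⟩ := m_sum hm s (fun i => (X i).indicator fun _ => (1 : ℂ)) (fun i => bd_ind _)
  obtain ⟨b2, e2⟩ := m_sum hm t (fun j => (Y j).indicator fun _ => (1 : ℂ)) (fun i => bd_ind _)
  have hc : ∀ (Z : Set G) x, ((Z.indicator (fun _ => (1 : ℝ)) x : ℝ) : ℂ) = Z.indicator (fun _ => (1 : ℂ)) x :=
    fun Z x => by by_cases h : x ∈ Z <;> simp [h]
  have h0 := hm.2.2.1 _ ((bd_one.mul c).add ((b2.mul C).add (b1.mul (-1)))) (fun x => by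
    have := Complex.zero_le_real.2 (sub_nonneg.2 (h x))
    push_cast at this
    simp only [hc] at this
    convert this using 1
    ring)
  rw [hm.1 _ _ (bd_one.mul c) ((b2.mul C).add (b1.mul (-1))), hm.1 _ _ (b2.mul C) (b1.mul (-1)),
    hm.2.1 _ _ bd_one, hm.2.1 _ _ b2, hm.2.1 _ _ b1, hm.2.2.2.1, e1, e2] at h0
  have h1 := (Complex.le_def.1 h0).1
  simp only [Complex.zero_re, Complex.add_re, mul_one, Complex.ofReal_re, Complex.re_ofReal_mul,
    neg_one_mul, Complex.neg_re, Complex.re_sum] at h1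
  simp only [nu]
  linarith

lemma nu_tr (hm : IsMean m) (A : Set G) (h : G) : nu m {x | x + h ∈ A} = nu m A := by
  have := hm.2.2.2.2 h _ (bd_ind A)
  simp only [nu]
  rw [← this]
  congr 2

lemma poinc (hm : IsMean m) (A : Set G) (hA : 0 < nu m A) (x : ℕ → G) :
    ∃ i j z, i ≠ j ∧ z + x i ∈ A ∧ z + x j ∈ A := by
  classical
  by_contra hn
  push Not at hn
  obtain ⟨M, hM⟩ := exists_nat_gt (1 / nu m A)
  have := sum_le hm (range M) (∅ : Finset ℕ) (fun i => {z | z + x i ∈ A}) (fun _ => ∅) 1 0 (fun z => by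
    simp only [Set.indicator_apply, Set.mem_ofPred_eq, sum_boole, zero_mul, add_zero]
    have : ((range M).filter (fun i => z + x i ∈ A)).card ≤ 1 := by
      refine card_le_one.2 fun i hi j hj => ?_
      by_contra hij
      exact hn i j z hij (mem_filter.1 hi).2 (mem_filter.1 hj).2
    exact_mod_cast this)
  simp only [nu_tr hm, sum_const, card_range, nsmul_eq_mul, zero_mul, add_zero] at this
  rw [div_lt_iff₀ hA] at hM
  linarith

lemma step1 (hm : IsMean m) (A : Set G) (hA : 0 < nu m A) {N : ℕ} (hN : 16 / (nu m A / 2) < N)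
    (emb : (Fin N → Z2) → G) (γ : Fin N → Z2) :
    ∃ y y', 4 * wt (y + (y' + γ)) ≤ N ∧ 0 < nu m {x | x + emb y ∈ A ∧ x + emb y' ∈ A} := by
  classical
  by_contra hn
  push Not at hn
  have := sum_le hm (univ : Finset (Fin N → Z2))
    (univ.filter (fun p : (Fin N → Z2) × (Fin N → Z2) => 4 * wt (p.1 + (p.2 + γ)) ≤ N))
    (fun y => {x | x + emb y ∈ A}) (fun p => {x | x + emb p.1 ∈ A ∧ x + emb p.2 ∈ A})
    (nu m A / 2 * 2 ^ N) (2 ^ N) (fun x => by
      have hs : 0 ≤ ∑ p ∈ univ.filter (fun p : (Fin N → Z2) × (Fin N → Z2) => 4 * wt (p.1 + (p.2 + γ)) ≤ N),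
          ({x | x + emb p.1 ∈ A ∧ x + emb p.2 ∈ A} : Set G).indicator (fun _ => (1 : ℝ)) x :=
        sum_nonneg fun _ _ => Set.indicator_nonneg (fun _ _ => zero_le_one) _
      have e : ∑ y, ({x | x + emb y ∈ A} : Set G).indicator (fun _ => (1 : ℝ)) x =
          (univ.filter (fun y => x + emb y ∈ A)).card := by
        simp only [Set.indicator_apply, Set.mem_ofPred_eq, sum_boole]
      rw [e]
      have p : (0 : ℝ) < 2 ^ N := by positivity
      rcases le_total ((univ.filter (fun y => x + emb y ∈ A)).card : ℝ) (nu m A / 2 * 2 ^ N) with h | h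
      · nlinarith
      · obtain ⟨a, ha, b, hb, hab⟩ := close _ ((univ.filter (fun y => x + emb y ∈ A)).image (· + γ)) _
          (half_pos hA) h (by rwa [card_image_of_injective _ (add_left_injective γ)]) hN
        obtain ⟨a', ha', rfl⟩ := mem_image.1 hb
        have h1 := single_le_sum (f := fun p : (Fin N → Z2) × (Fin N → Z2) =>
          ({x | x + emb p.1 ∈ A ∧ x + emb p.2 ∈ A} : Set G).indicator (fun _ => (1 : ℝ)) x)
          (fun _ _ => Set.indicator_nonneg (fun _ _ => zero_le_one) _)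
          (show (a, a') ∈ univ.filter (fun p : (Fin N → Z2) × (Fin N → Z2) => 4 * wt (p.1 + (p.2 + γ)) ≤ N)
            from mem_filter.2 ⟨mem_univ _, hab⟩)
        rw [Set.indicator_of_mem (show x ∈ {x | x + emb (a, a').1 ∈ A ∧ x + emb (a, a').2 ∈ A} from
          ⟨(mem_filter.1 ha).2, (mem_filter.1 ha').2⟩)] at h1
        have h2 : ((univ.filter (fun y => x + emb y ∈ A)).card : ℝ) ≤ 2 ^ N := by
          have := card_le_univ (univ.filter (fun y => x + emb y ∈ A))
          simp only [Fintype.card_pi, ZMod.card, prod_const, card_univ, Fintype.card_fin] at this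
          exact_mod_cast this
        have h3 : 0 ≤ nu m A / 2 * 2 ^ N := by positivity
        nlinarith)
  have h2 : ∑ p ∈ univ.filter (fun p : (Fin N → Z2) × (Fin N → Z2) => 4 * wt (p.1 + (p.2 + γ)) ≤ N),
      nu m {x | x + emb p.1 ∈ A ∧ x + emb p.2 ∈ A} ≤ 0 :=
    sum_nonpos fun p hp => hn _ _ (mem_filter.1 hp).2
  simp only [nu_tr hm, sum_const, card_univ, Fintype.card_pi, ZMod.card, prod_const, Fintype.card_fin,
    nsmul_eq_mul] at this
  have p : (0 : ℝ) < 2 ^ N := by positivity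
  push_cast at this
  nlinarith

end mean

abbrev Om := ℕ → Z2

def res (n : ℕ) (ω : Om) : Fin n → Z2 := fun i => ω i

lemma lev {n n' : ℕ} (h : n ≤ n') (γ : (Fin n → Z2) → Z2) :
    ∃ γ' : (Fin n' → Z2) → Z2, γ ∘ res n = γ' ∘ res n' :=
  ⟨fun t => γ (fun i => t (Fin.castLE h i)), rfl⟩

def Gs : AddSubgroup (Om → Z2) where
  carrier := {f | ∃ n, ∃ γ : (Fin n → Z2) → Z2, f = γ ∘ res n}
  zero_mem' := ⟨0, 0, rfl⟩
  add_mem' := by
    rintro _ _ ⟨n, γ, rfl⟩ ⟨n', γ', rfl⟩
    obtain ⟨a, ha⟩ := lev (Nat.le_add_right n n') γ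
    obtain ⟨b, hb⟩ := lev (Nat.le_add_left n' n) γ'
    exact ⟨n + n', a + b, by rw [ha, hb]; rfl⟩
  neg_mem' := by
    rintro _ ⟨n, γ, rfl⟩
    exact ⟨n, -γ, rfl⟩

noncomputable def mu : Measure Om := Measure.addHaarMeasure ⊤

instance : mu.IsAddHaarMeasure := Measure.isAddHaarMeasure_addHaarMeasure _

instance : IsProbabilityMeasure mu := ⟨by
  have := Measure.addHaarMeasure_self (K₀ := (⊤ : TopologicalSpace.PositiveCompacts Om))
  simpa [mu] using this⟩

lemma cont_res {E : Type} [TopologicalSpace E] (n : ℕ) (H : (Fin n → Z2) → E) :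
    Continuous (fun ω : Om => H (res n ω)) :=
  continuous_of_discreteTopology.comp (continuous_pi fun i => continuous_apply _)

lemma cont_G {E : Type} [TopologicalSpace E] (g : Gs) (φ : Z2 → E) : Continuous (fun ω : Om => φ (g.1 ω)) := by
  obtain ⟨_, n, γ, rfl⟩ := g
  exact cont_res n (fun t => φ (γ t))

lemma integ {F : Om → ℝ} (h : Continuous F) : Integrable F mu :=
  h.integrable_of_hasCompactSupport (HasCompactSupport.of_compactSpace _)

lemma int_res (n : ℕ) (H : (Fin n → Z2) → ℝ) : 2 ^ n * ∫ ω, H (res n ω) ∂mu = ∑ t, H t := by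
  have h1 : ∀ t : Fin n → Z2, ∫ ω, H (res n ω) ∂mu = ∫ ω, H (res n ω + t) ∂mu := by
    intro t
    rw [← integral_add_right_eq_self (fun ω => H (res n ω)) (fun i => if h : i < n then t ⟨i, h⟩ else 0)]
    congr 1
    funext ω
    congr 1
    funext i
    simp [res]
  have h2 : ∑ t : Fin n → Z2, ∫ ω, H (res n ω) ∂mu = ∑ t : Fin n → Z2, ∫ ω, H (res n ω + t) ∂mu :=
    sum_congr rfl fun t _ => h1 t
  rw [← integral_finset_sum _ (fun t _ => integ (cont_res n (fun u => H (u + t))))] at h2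
  have h3 : ∀ ω : Om, ∑ t : Fin n → Z2, H (res n ω + t) = ∑ t, H t := fun ω =>
    Equiv.sum_comp (Equiv.addLeft (res n ω)) H
  simp only [h3, integral_const, probReal_univ, one_smul, sum_const, card_univ, Fintype.card_pi,
    ZMod.card, prod_const, Fintype.card_fin, nsmul_eq_mul] at h2
  push_cast at h2
  exact h2

def sg (x : Z2) : ℝ := if x = 1 then -1 else 1

noncomputable def psi (s : Gs) : ℝ := ∫ ω, sg (s.1 ω) ∂mu

theorem expand {m : (Gs → ℂ) → ℂ} (hm : IsMean m) (A : Set Gs) (hA : 0 < nu m A) (g : Gs) :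
    ∃ a ∈ A, ∃ a' ∈ A, ∃ s : Gs, psi s = -1 / 2 ∧ g = a - a' + s := by
  classical
  obtain ⟨_, n0, γ0, rfl⟩ := g
  obtain ⟨n1, hn1⟩ := exists_nat_gt (16 / (nu m A / 2))
  obtain ⟨γ1, hγ1⟩ := lev (show n0 ≤ n0 + n1 + 1 by omega) γ0
  obtain ⟨n, hn⟩ : ∃ n, n = n0 + n1 + 1 := ⟨_, rfl⟩
  have hn' : n1 ≤ 2 ^ n := le_trans (by omega) (Nat.lt_two_pow_self (n := n)).le
  obtain ⟨N', hN'⟩ : ∃ N', 2 ^ n = 2 * N' := ⟨2 ^ (n0 + n1), by rw [hn, pow_succ]; ring⟩
  have hN0 : 0 < N' := by have := Nat.two_pow_pos n; omega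
  subst hn
  generalize n0 + n1 + 1 = n at γ1 hγ1 hn' hN'
  let e : (Fin n → Z2) ≃ Fin (2 ^ n) := Fintype.equivFinOfCardEq (by simp)
  let emb : (Fin (2 ^ n) → Z2) → Gs := fun y => ⟨fun ω => y (e (res n ω)), n, y ∘ e, rfl⟩
  obtain ⟨y, y', hw, hpos⟩ := step1 hm A hA (N := 2 ^ n) (hn1.trans_le (by exact_mod_cast hn')) emb
    (γ1 ∘ e.symm + 1)
  obtain ⟨u, hu⟩ : ∃ u : Fin (2 ^ n) → Z2, u = y + y' + γ1 ∘ e.symm := ⟨_, rfl⟩
  have hwu : wt u + wt (y + (y' + (γ1 ∘ e.symm + 1))) = 2 ^ n := by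
    have h1 := card_filter_add_card_filter_not (s := (univ : Finset (Fin (2 ^ n)))) (fun i => u i = 1)
    rw [card_univ, Fintype.card_fin] at h1
    refine Eq.trans ?_ h1
    simp only [wt]
    congr 2
    refine filter_congr fun i _ => ?_
    have : (y + (y' + (γ1 ∘ e.symm + 1))) i = u i + 1 := by
      rw [hu]; simp only [Pi.add_apply, Pi.one_apply]; ring
    rw [this]
    rcases z2 (u i) with h | h <;> rw [h] <;> decide
  obtain ⟨D, hD, hDc⟩ := exists_subset_card_eq (s := univ.filter (fun i => u i = 1))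
    (n := 2 * wt u - 3 * N') (by show _ ≤ wt u; omega)
  let x : ℕ → Gs := fun i => ⟨fun ω => if e (res n ω) ∈ D then ω (n + i) else 0, n + i + 1,
    fun t => if e (fun j => t (Fin.castLE (by omega) j)) ∈ D then t ⟨n + i, by omega⟩ else 0, rfl⟩
  obtain ⟨i, j, z, hij, h1, h2⟩ := poinc hm _ hpos x
  refine ⟨_, h1.1, _, h2.2, emb u + x i + x j, ?_, ?_⟩
  · have c1 := cont_G (emb u + x i + x j) sg
    have c2 : Continuous (fun ω : Om => sg ((emb u + x i + x j).1 (ω + Pi.single (n + i) 1))) :=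
      c1.comp (continuous_add_right _)
    have e1 := integral_add_right_eq_self (μ := mu) (fun ω => sg ((emb u + x i + x j).1 ω))
      (Pi.single (n + i) 1)
    have e2 := int_res n (fun t => if e t ∈ D then 0 else 2 * sg (u (e t)))
    have e3 : ∫ ω, (if e (res n ω) ∈ D then 0 else 2 * sg (u (e (res n ω)))) ∂mu =
        2 * psi (emb u + x i + x j) := by
      rw [two_mul (psi _)]
      conv_rhs => rw [psi]; lhs; rw [← e1]
      rw [← integral_add (integ c2) (integ c1)]
      congr 1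
      funext ω
      have r : res n (ω + Pi.single (n + i) 1) = res n ω := by
        funext k
        have := k.2
        simp only [res, Pi.add_apply]
        rw [Pi.single_eq_of_ne (by omega), add_zero]
      show _ = sg (u (e (res n (ω + Pi.single (n + i) 1))) +
          (if e (res n (ω + Pi.single (n + i) 1)) ∈ D then (ω + Pi.single (n + i) 1 : Om) (n + i) else 0) +
          (if e (res n (ω + Pi.single (n + i) 1)) ∈ D then (ω + Pi.single (n + i) 1 : Om) (n + j) else 0)) +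
        sg (u (e (res n ω)) + (if e (res n ω) ∈ D then ω (n + i) else 0) +
          (if e (res n ω) ∈ D then ω (n + j) else 0))
      rw [r]
      simp only [Pi.add_apply, Pi.single_eq_same]
      rw [Pi.single_eq_of_ne (show n + j ≠ n + i by omega), add_zero]
      split_ifs
      · rw [show u (e (res n ω)) + (ω (n + i) + 1) + ω (n + j) =
          (u (e (res n ω)) + ω (n + i) + ω (n + j)) + 1 by ring]
        rcases z2 (u (e (res n ω)) + ω (n + i) + ω (n + j)) with h | h <;> rw [h]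
        · simp [sg]
        · rw [show (1 : Z2) + 1 = 0 by decide]; simp [sg]
      · simp only [add_zero]; ring
    have e4 : ∑ t : Fin n → Z2, (if e t ∈ D then (0 : ℝ) else 2 * sg (u (e t))) = -2 * N' := by
      rw [e.sum_comp (fun k => if k ∈ D then (0 : ℝ) else 2 * sg (u k))]
      have : ∀ k, (if k ∈ D then (0 : ℝ) else 2 * sg (u k)) =
          2 - 4 * (if u k = 1 then 1 else 0) + 2 * (if k ∈ D then 1 else 0) := by
        intro k
        by_cases hk : k ∈ D
        · have := (mem_filter.1 (hD hk)).2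
          simp only [if_pos hk, if_pos this]; norm_num
        · simp only [if_neg hk, sg]; split_ifs <;> norm_num
      simp only [this, sum_add_distrib, sum_sub_distrib, ← mul_sum, sum_boole, sum_const, card_univ,
        Fintype.card_fin, nsmul_eq_mul, filter_mem_eq_inter, univ_inter]
      have a1 : D.card + 3 * N' = 2 * wt u := by omega
      have a2 : (D.card : ℝ) + 3 * N' = 2 * wt u := by exact_mod_cast a1
      have a3 : ((2 ^ n : ℕ) : ℝ) = 2 * N' := by exact_mod_cast hN'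
      simp only [wt] at a2
      rw [a3]
      linarith
    rw [e3, e4] at e2
    have a3 : (2 : ℝ) ^ n = 2 * N' := by exact_mod_cast hN'
    have a4 : (0 : ℝ) < N' := by exact_mod_cast hN0
    rw [a3] at e2
    refine mul_left_cancel₀ a4.ne' ?_
    linarith
  · apply Subtype.ext
    funext ω
    have k : ∀ a b c d e f : Z2, f = (a + b + c) - (a + d + e) + ((c + e + f) + b + d) := by decide
    have := k (z.1 ω) ((x i).1 ω) (y (e (res n ω))) ((x j).1 ω) (y' (e (res n ω))) (γ1 (res n ω))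
    show (γ0 ∘ res n0) ω = (z.1 ω + (x i).1 ω + y (e (res n ω))) - (z.1 ω + (x j).1 ω + y' (e (res n ω))) +
      (u (e (res n ω)) + (x i).1 ω + (x j).1 ω)
    rw [hγ1, hu]
    simpa using this

noncomputable def ch (x : Z2) : Circle := if x = 1 then -1 else 1

lemma ch_coe (x : Z2) : ((ch x : Circle) : ℂ) = (sg x : ℂ) := by
  unfold ch sg; split_ifs <;> simp

noncomputable def Phi (ω : Om) : AddChar Gs Circle where
  toFun g := ch (g.1 ω)
  map_zero_eq_one' := by simp [ch]
  map_add_eq_mul' a b := by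
    show ch (a.1 ω + b.1 ω) = _
    have : (1 : Z2) + 1 = 0 := by decide
    rcases z2 (a.1 ω) with h | h <;> rcases z2 (b.1 ω) with h' | h' <;> simp [h, h', ch, this]

theorem meas : ∃ σ : @Measure (AddChar Gs Circle)
    (@borel _ (TopologicalSpace.induced (fun χ => (χ : Gs → Circle)) Pi.topologicalSpace)),
    IsFiniteMeasure σ ∧ (∀ s ∈ {s : Gs | psi s = -1 / 2}, ∫ χ, ((χ s : Circle) : ℂ) ∂σ = 0) ∧ 0 < σ {1} := by
  letI : TopologicalSpace (AddChar Gs Circle) :=
    TopologicalSpace.induced (fun χ => (χ : Gs → Circle)) Pi.topologicalSpace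
  letI : MeasurableSpace (AddChar Gs Circle) := borel _
  haveI : BorelSpace (AddChar Gs Circle) := ⟨rfl⟩
  have hc : Continuous Phi := continuous_induced_rng.2 (continuous_pi fun g => cont_G g ch)
  have he : ∀ s : Gs, Continuous (fun χ : AddChar Gs Circle => ((χ s : Circle) : ℂ)) := fun s =>
    continuous_subtype_val.comp ((continuous_apply s).comp continuous_induced_dom)
  have hi : ∀ (s : Gs) (ν : Measure (AddChar Gs Circle)) [IsFiniteMeasure ν],
      Integrable (fun χ : AddChar Gs Circle => ((χ s : Circle) : ℂ)) ν := fun s ν _ =>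
    (integrable_const (1 : ℝ)).mono' (he s).stronglyMeasurable.aestronglyMeasurable
      (Filter.Eventually.of_forall fun χ => by simp)
  refine ⟨Measure.dirac 1 + (mu.map Phi + mu.map Phi), inferInstance, fun s hs => ?_, ?_⟩
  · rw [integral_add_measure (hi s _) (hi s _), integral_add_measure (hi s _) (hi s _),
      integral_dirac' _ _ (he s).stronglyMeasurable,
      integral_map hc.measurable.aemeasurable (he s).stronglyMeasurable.aestronglyMeasurable]
    have : ∫ ω, ((Phi ω s : Circle) : ℂ) ∂mu = (psi s : ℂ) := by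
      rw [psi, ← integral_complex_ofReal]
      exact integral_congr_ae (Filter.Eventually.of_forall fun ω => ch_coe _)
    rw [this, show psi s = -1 / 2 from hs]
    norm_num
  · rw [Measure.add_apply, Measure.dirac_apply_of_mem (Set.mem_singleton _)]
    exact lt_of_lt_of_le one_pos le_self_add

end Pool.Agent.H4.VcB
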